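import Pool.Agent.Helper13.SDW.Defs

/-!
# Formulas: closure properties

BLOCK SDW-FML. Everything is elementary; `IsDef.of_fintype` (variables indexed by any finite type:
transport along `Fintype.equivFin`) gives the rest with sum types of variables.
-/

namespace Pool.Agent.Helper13.SDW

universe u

section lin

variable {K : Type u} [Field K] {D E : Type u} [AddCommGroup D] [Module K D] [AddCommGroup E]
  [Module K E] {ι : Type} [Fintype ι]

theorem lin_add (v : ι → K) (x y : ι → D) : lin v (fun i => x i + y i) = lin v x + lin v y := by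
  simp [lin, smul_add, Finset.sum_add_distrib]

theorem lin_sub (v : ι → K) (x y : ι → D) : lin v (fun i => x i - y i) = lin v x - lin v y := by
  simp [lin, smul_sub, Finset.sum_sub_distrib]

theorem lin_zero (v : ι → K) : lin v (fun _ => (0 : D)) = 0 := by
  simp [lin]

theorem lin_smul (v : ι → K) (a : K) (x : ι → D) : lin v (fun i => a • x i) = a • lin v x := by
  simp only [lin, Finset.smul_sum]
  exact Finset.sum_congr rfl fun i _ => smul_comm _ _ _

theorem map_lin (f : D →ₗ[K] E) (v : ι → K) (x : ι → D) :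
    f (lin v x) = lin v (fun i => f (x i)) := by
  simp [lin, map_sum]

end lin

section linaux

variable {K : Type u} [Field K] {D : Type u} [AddCommGroup D] [Module K D] {ι ι' : Type}
  [Fintype ι] [Fintype ι']

theorem lin_equiv (e : ι ≃ ι') (v : ι' → K) (x : ι' → D) :
    lin (fun i => v (e i)) (fun i => x (e i)) = lin v x :=
  Equiv.sum_comp e (fun i => v i • x i)

theorem lin_elim (v : ι → K) (w : ι' → K) (x : ι ⊕ ι' → D) :
    lin (Sum.elim v w) x = lin v (fun i => x (.inl i)) + lin w (fun i => x (.inr i)) := by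
  simp [lin, Fintype.sum_sum_type]

theorem lin_fzero (x : ι → D) : lin (fun _ => (0 : K)) x = 0 := by
  simp [lin]

theorem lin_fneg (v : ι → K) (x : ι → D) : lin (fun i => -v i) x = -lin v x := by
  simp [lin]

open Classical in
/-- The linear form `x_k`. -/
noncomputable def fone {ι : Type} {K : Type u} [Field K] (k : ι) : ι → K :=
  fun i => if i = k then 1 else 0

theorem lin_fone (k : ι) (x : ι → D) : lin (fone (K := K) k) x = x k := by
  classical
  simp [lin, fone, ite_smul]

end linaux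

section IsDef

variable {K : Type u} [Field K] {L : Type u} {Λ : Set L} {κ κ' : Type}

theorem IsDef.of_fintype {ι : Type} [Fintype ι] (c : List (L × (ι → K))) (e : List (ι → K))
    (out : κ → ι → K) (hc : ∀ q ∈ c, q.1 ∈ Λ) :
    IsDef (K := K) Λ (fun M (y : κ → M) => ∃ x : ι → M, (∀ q ∈ c, lin q.2 x ∈ M.P q.1) ∧
      (∀ v ∈ e, lin v x = 0) ∧ ∀ k, y k = lin (out k) x) := by
  let ε : Fin (Fintype.card ι) ≃ ι := (Fintype.equivFin ι).symm
  refine ⟨⟨Fintype.card ι, c.map (fun q => (q.1, fun i => q.2 (ε i))), e.map (fun v i => v (ε i)),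
    fun k i => out k (ε i)⟩, ?_, fun M y => ?_⟩
  · intro q hq
    obtain ⟨q', hq', rfl⟩ := List.mem_map.1 hq
    exact hc q' hq'
  · constructor
    · rintro ⟨x, h1, h2, h3⟩
      refine ⟨fun i => x (ε i), ?_, ?_, ?_⟩
      · intro q hq
        obtain ⟨q', hq', rfl⟩ := List.mem_map.1 hq
        change lin (fun i => q'.2 (ε i)) (fun i => x (ε i)) ∈ M.P q'.1
        rw [lin_equiv ε q'.2 x]
        exact h1 q' hq'
      · intro v hv
        obtain ⟨v', hv', rfl⟩ := List.mem_map.1 hv
        rw [lin_equiv ε v' x]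
        exact h2 v' hv'
      · intro k
        change y k = lin (fun i => out k (ε i)) (fun i => x (ε i))
        rw [lin_equiv ε (out k) x]
        exact h3 k
    · rintro ⟨x, h1, h2, h3⟩
      have hx : (fun i => x (ε.symm (ε i))) = x := by
        funext i
        rw [Equiv.symm_apply_apply]
      refine ⟨fun i => x (ε.symm i), ?_, ?_, ?_⟩
      · intro q hq
        have h4 := h1 _ (List.mem_map.2 ⟨q, hq, rfl⟩)
        rw [← lin_equiv ε q.2 (fun i => x (ε.symm i)), hx]
        exact h4
      · intro v hv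
        have h4 := h2 _ (List.mem_map.2 ⟨v, hv, rfl⟩)
        rw [← lin_equiv ε v (fun i => x (ε.symm i)), hx]
        exact h4
      · intro k
        rw [← lin_equiv ε (out k) (fun i => x (ε.symm i)), hx]
        exact h3 k

theorem IsDef.congr {F G : SF K L κ} (h : IsDef Λ F) (hFG : ∀ M y, F M y ↔ G M y) :
    IsDef Λ G := by
  obtain ⟨φ, h1, h2⟩ := h
  exact ⟨φ, h1, fun M y => (hFG M y).symm.trans (h2 M y)⟩

theorem IsDef.mono {Λ' : Set L} {F : SF K L κ} (h : IsDef Λ F) (hL : Λ ⊆ Λ') : IsDef Λ' F := by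
  obtain ⟨φ, h1, h2⟩ := h
  exact ⟨φ, fun q hq => hL (h1 q hq), h2⟩

theorem IsDef.lab [Fintype κ] {l : L} (hl : l ∈ Λ) (v : κ → K) :
    IsDef Λ (fun (M : Obj K L) (y : κ → M) => lin v y ∈ M.P l) := by
  refine (IsDef.of_fintype (Λ := Λ) (κ := κ) [(l, v)] [] (fun k => fone k) ?_).congr fun M y => ?_
  · intro q hq
    rw [List.mem_singleton] at hq
    rw [hq]
    exact hl
  · constructor
    · rintro ⟨x, h1, -, h3⟩
      have hx : y = x := funext fun k => (h3 k).trans (lin_fone k x)
      rw [hx]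
      exact h1 _ (List.mem_singleton.2 rfl)
    · intro h
      refine ⟨y, ?_, ?_, fun k => (lin_fone k y).symm⟩
      · intro q hq
        rw [List.mem_singleton] at hq
        rw [hq]
        exact h
      · intro v hv
        simp at hv

theorem IsDef.eq0 [Fintype κ] (v : κ → K) :
    IsDef Λ (fun (M : Obj K L) (y : κ → M) => lin v y = 0) := by
  refine (IsDef.of_fintype (Λ := Λ) (κ := κ) [] [v] (fun k => fone k) ?_).congr fun M y => ?_
  · intro q hq
    simp at hq
  · constructor
    · rintro ⟨x, -, h2, h3⟩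
      have hx : y = x := funext fun k => (h3 k).trans (lin_fone k x)
      rw [hx]
      exact h2 _ (List.mem_singleton.2 rfl)
    · intro h
      refine ⟨y, ?_, ?_, fun k => (lin_fone k y).symm⟩
      · intro q hq
        simp at hq
      · intro v' hv
        rw [List.mem_singleton] at hv
        rw [hv]
        exact h

theorem IsDef.top [Fintype κ] : IsDef Λ (fun (M : Obj K L) (_ : κ → M) => True) := by
  refine (IsDef.eq0 (Λ := Λ) (κ := κ) (fun _ => (0 : K))).congr fun M y => ?_
  simp [lin_fzero]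

theorem IsDef.and [Fintype κ] {F G : SF K L κ} (hF : IsDef Λ F) (hG : IsDef Λ G) :
    IsDef Λ (fun M y => F M y ∧ G M y) := by
  classical
  obtain ⟨φ, h1, h2⟩ := hF
  obtain ⟨ψ, g1, g2⟩ := hG
  refine (IsDef.of_fintype (Λ := Λ) (κ := κ) (ι := Fin φ.n ⊕ Fin ψ.n)
    (φ.c.map (fun q => (q.1, Sum.elim q.2 (fun _ => 0))) ++
      ψ.c.map (fun q => (q.1, Sum.elim (fun _ => 0) q.2)))
    (φ.e.map (fun v => Sum.elim v (fun _ => 0)) ++ (ψ.e.map (fun v => Sum.elim (fun _ => 0) v) ++
      (Finset.univ : Finset κ).toList.map (fun k => Sum.elim (φ.out k) (fun i => -ψ.out k i))))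
    (fun k => Sum.elim (φ.out k) (fun _ => 0)) ?_).congr fun M y => ?_
  · intro q hq
    rw [List.mem_append] at hq
    rcases hq with hq | hq
    · obtain ⟨q', hq', rfl⟩ := List.mem_map.1 hq
      exact h1 q' hq'
    · obtain ⟨q', hq', rfl⟩ := List.mem_map.1 hq
      exact g1 q' hq'
  · rw [h2 M y, g2 M y]
    constructor
    · rintro ⟨x, k1, k2, k3⟩
      have e1 : ∀ k, y k = lin (φ.out k) (fun i => x (.inl i)) := by
        intro k
        rw [k3 k, lin_elim, lin_fzero, add_zero]
      have e2 : ∀ k, y k = lin (ψ.out k) (fun i => x (.inr i)) := by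
        intro k
        have h := k2 (Sum.elim (φ.out k) (fun i => -ψ.out k i)) (by
          rw [List.mem_append, List.mem_append]
          exact Or.inr (Or.inr (List.mem_map.2 ⟨k, Finset.mem_toList.2 (Finset.mem_univ k), rfl⟩)))
        rw [lin_elim, lin_fneg, ← e1 k, ← sub_eq_add_neg, sub_eq_zero] at h
        exact h
      refine ⟨⟨fun i => x (.inl i), ?_, ?_, e1⟩, ⟨fun i => x (.inr i), ?_, ?_, e2⟩⟩
      · intro q hq
        have h := k1 (q.1, Sum.elim q.2 (fun _ => 0)) (by
          rw [List.mem_append]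
          exact Or.inl (List.mem_map.2 ⟨q, hq, rfl⟩))
        rw [lin_elim, lin_fzero, add_zero] at h
        exact h
      · intro v hv
        have h := k2 (Sum.elim v (fun _ => 0)) (by
          rw [List.mem_append]
          exact Or.inl (List.mem_map.2 ⟨v, hv, rfl⟩))
        rw [lin_elim, lin_fzero, add_zero] at h
        exact h
      · intro q hq
        have h := k1 (q.1, Sum.elim (fun _ => 0) q.2) (by
          rw [List.mem_append]
          exact Or.inr (List.mem_map.2 ⟨q, hq, rfl⟩))
        rw [lin_elim, lin_fzero, zero_add] at h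
        exact h
      · intro v hv
        have h := k2 (Sum.elim (fun _ => 0) v) (by
          rw [List.mem_append, List.mem_append]
          exact Or.inr (Or.inl (List.mem_map.2 ⟨v, hv, rfl⟩)))
        rw [lin_elim, lin_fzero, zero_add] at h
        exact h
    · rintro ⟨⟨x, k1, k2, k3⟩, ⟨z, l1, l2, l3⟩⟩
      refine ⟨Sum.elim x z, ?_, ?_, ?_⟩
      · intro q hq
        rw [List.mem_append] at hq
        rcases hq with hq | hq
        · obtain ⟨q', hq', rfl⟩ := List.mem_map.1 hq
          rw [lin_elim, lin_fzero, add_zero]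
          exact k1 q' hq'
        · obtain ⟨q', hq', rfl⟩ := List.mem_map.1 hq
          rw [lin_elim, lin_fzero, zero_add]
          exact l1 q' hq'
      · intro v hv
        rw [List.mem_append, List.mem_append] at hv
        rcases hv with hv | hv | hv
        · obtain ⟨v', hv', rfl⟩ := List.mem_map.1 hv
          rw [lin_elim, lin_fzero, add_zero]
          exact k2 v' hv'
        · obtain ⟨v', hv', rfl⟩ := List.mem_map.1 hv
          rw [lin_elim, lin_fzero, zero_add]
          exact l2 v' hv'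
        · obtain ⟨k, -, rfl⟩ := List.mem_map.1 hv
          rw [lin_elim, lin_fneg]
          have e1 := k3 k
          have e2 := l3 k
          change lin (φ.out k) x + -lin (ψ.out k) z = 0
          rw [← e1, ← e2, add_neg_cancel]
      · intro k
        rw [lin_elim, lin_fzero, add_zero]
        exact k3 k

/-- Conjunctions over finite types. -/
theorem IsDef.all [Fintype κ] {ι : Type} [Finite ι] {F : ι → SF K L κ}
    (hF : ∀ i, IsDef Λ (F i)) : IsDef Λ (fun M y => ∀ i, F i M y) := by
  have key : ∀ (α : Type) [Finite α], ∀ F : α → SF K L κ, (∀ i, IsDef Λ (F i)) →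
      IsDef Λ (fun M y => ∀ i, F i M y) := by
    intro α _
    refine Finite.induction_empty_option (P := fun α : Type => ∀ F : α → SF K L κ,
      (∀ i, IsDef Λ (F i)) → IsDef Λ (fun M y => ∀ i, F i M y)) ?_ ?_ ?_ α
    · intro α β e h F hF
      refine (h (fun i => F (e i)) (fun i => hF (e i))).congr fun M y => ?_
      exact ⟨fun h i => by simpa using h (e.symm i), fun h i => h (e i)⟩
    · intro F _
      refine (IsDef.top (Λ := Λ) (κ := κ)).congr fun M y => ?_
      exact ⟨fun _ i => i.elim, fun _ => trivial⟩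
    · intro α _ h F hF
      refine ((hF none).and (h (fun i => F (some i)) (fun i => hF (some i)))).congr fun M y => ?_
      exact ⟨fun h i => by cases i with
        | none => exact h.1
        | some i => exact h.2 i, fun h => ⟨h none, fun i => h (some i)⟩⟩
  exact key ι F hF

/-- Linear substitution. -/
theorem IsDef.subst [Fintype κ] [Fintype κ'] {F : SF K L κ'} (hF : IsDef Λ F)
    (A : κ' → κ → K) : IsDef Λ (fun M (y : κ → M) => F M (fun k => lin (A k) y)) := by
  classical
  obtain ⟨φ, h1, h2⟩ := hF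
  refine (IsDef.of_fintype (Λ := Λ) (κ := κ) (ι := κ ⊕ Fin φ.n)
    (φ.c.map (fun q => (q.1, Sum.elim (fun _ => 0) q.2)))
    (φ.e.map (fun v => Sum.elim (fun _ => 0) v) ++
      (Finset.univ : Finset κ').toList.map (fun k => Sum.elim (A k) (fun i => -φ.out k i)))
    (fun k => Sum.elim (fone k) (fun _ => 0)) ?_).congr fun M y => ?_
  · intro q hq
    obtain ⟨q', hq', rfl⟩ := List.mem_map.1 hq
    exact h1 q' hq'
  · rw [h2 M]
    constructor
    · rintro ⟨x, k1, k2, k3⟩
      have hy : y = fun k => x (.inl k) := by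
        funext k
        rw [k3 k, lin_elim, lin_fzero, add_zero, lin_fone]
      refine ⟨fun i => x (.inr i), ?_, ?_, ?_⟩
      · intro q hq
        have h := k1 (q.1, Sum.elim (fun _ => 0) q.2) (List.mem_map.2 ⟨q, hq, rfl⟩)
        rw [lin_elim, lin_fzero, zero_add] at h
        exact h
      · intro v hv
        have h := k2 (Sum.elim (fun _ => 0) v) (by
          rw [List.mem_append]
          exact Or.inl (List.mem_map.2 ⟨v, hv, rfl⟩))
        rw [lin_elim, lin_fzero, zero_add] at h
        exact h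
      · intro k
        have h := k2 (Sum.elim (A k) (fun i => -φ.out k i)) (by
          rw [List.mem_append]
          exact Or.inr (List.mem_map.2 ⟨k, Finset.mem_toList.2 (Finset.mem_univ k), rfl⟩))
        rw [lin_elim, lin_fneg, ← sub_eq_add_neg, sub_eq_zero] at h
        rw [hy]
        exact h
    · rintro ⟨x, k1, k2, k3⟩
      refine ⟨Sum.elim y x, ?_, ?_, ?_⟩
      · intro q hq
        obtain ⟨q', hq', rfl⟩ := List.mem_map.1 hq
        rw [lin_elim, lin_fzero, zero_add]
        exact k1 q' hq'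
      · intro v hv
        rw [List.mem_append] at hv
        rcases hv with hv | hv
        · obtain ⟨v', hv', rfl⟩ := List.mem_map.1 hv
          rw [lin_elim, lin_fzero, zero_add]
          exact k2 v' hv'
        · obtain ⟨k, -, rfl⟩ := List.mem_map.1 hv
          rw [lin_elim, lin_fneg]
          have e1 := k3 k
          change lin (A k) y + -lin (φ.out k) x = 0
          rw [← e1, add_neg_cancel]
      · intro k
        rw [lin_elim, lin_fzero, add_zero, lin_fone]
        rfl

/-- Existential quantifiers. -/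
theorem IsDef.ex [Fintype κ] [Fintype κ'] {F : SF K L (κ ⊕ κ')} (hF : IsDef Λ F) :
    IsDef Λ (fun M (y : κ → M) => ∃ z : κ' → M, F M (Sum.elim y z)) := by
  obtain ⟨φ, h1, h2⟩ := hF
  refine ⟨⟨φ.n, φ.c, φ.e, fun k => φ.out (.inl k)⟩, h1, fun M y => ?_⟩
  constructor
  · rintro ⟨z, hz⟩
    obtain ⟨x, k1, k2, k3⟩ := (h2 M _).1 hz
    exact ⟨x, k1, k2, fun k => k3 (.inl k)⟩
  · rintro ⟨x, k1, k2, k3⟩
    refine ⟨fun k => lin (φ.out (.inr k)) x, (h2 M _).2 ⟨x, k1, k2, ?_⟩⟩
    rintro (k | k)
    · exact k3 k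
    · rfl

/-- A more flexible form of the existential quantifier: the formula may use the variables
`y : κ → M` and `z : κ' → M` in any way. -/
theorem IsDef.ex' [Fintype κ] [Fintype κ'] (G : ∀ M : Obj K L, (κ → M) → (κ' → M) → Prop)
    (hG : IsDef Λ (fun M (w : κ ⊕ κ' → M) => G M (fun k => w (.inl k)) (fun k => w (.inr k)))) :
    IsDef Λ (fun M (y : κ → M) => ∃ z : κ' → M, G M y z) :=
  hG.ex

/-- Formulas of the shape `Fm` and presentations. -/
theorem IsDef.fm (φ : Fm K L κ) (hφ : ∀ q ∈ φ.c, q.1 ∈ Λ) :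
    IsDef Λ (fun M (y : κ → M) => φ.Sat M y) := by
  refine ⟨⟨φ.n, φ.c, [], φ.out⟩, hφ, fun M y => ?_⟩
  constructor
  · rintro ⟨x, k1, k3⟩
    exact ⟨x, k1, fun v hv => by simp at hv, k3⟩
  · rintro ⟨x, k1, -, k3⟩
    exact ⟨x, k1, k3⟩

theorem IsDef.hom (G : Pre K L) (hG : ∀ q ∈ G.c, q.1 ∈ Λ) :
    IsDef Λ (fun M (x : Fin G.n → M) => G.Hom M x) := by
  refine (IsDef.of_fintype (Λ := Λ) (κ := Fin G.n) G.c [] (fun k => fone k) hG).congr
    fun M y => ?_
  constructor
  · rintro ⟨x, h1, -, h3⟩
    have hx : y = x := funext fun k => (h3 k).trans (lin_fone k x)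
    rw [hx]
    exact h1
  · intro h
    exact ⟨y, h, fun v hv => by simp at hv, fun k => (lin_fone k y).symm⟩

/-- Homs preserve formulas. -/
theorem IsDef.map {F : SF K L κ} (hF : IsDef Λ F) {M N : Obj K L} {f : M →ₗ[K] N}
    (hf : IsHom Λ f) {y : κ → M} (hy : F M y) : F N (fun k => f (y k)) := by
  obtain ⟨φ, h1, h2⟩ := hF
  obtain ⟨x, k1, k2, k3⟩ := (h2 M y).1 hy
  refine (h2 N _).2 ⟨fun i => f (x i), ?_, ?_, ?_⟩
  · intro q hq
    rw [← map_lin]
    exact hf q.1 (h1 q hq) _ (k1 q hq)
  · intro v hv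
    rw [← map_lin, k2 v hv, map_zero]
  · intro k
    change f (y k) = _
    rw [← map_lin, k3 k]

/-- Only the labels in `Λ` matter. -/
theorem IsDef.eqP {F : SF K L κ} (hF : IsDef Λ F) {M : Obj K L} {P : L → Submodule K M}
    (hP : ∀ l ∈ Λ, P l = M.P l) (y : κ → M) :
    F { carrier := M, P := P } y ↔ F M y := by
  obtain ⟨φ, h1, h2⟩ := hF
  rw [h2 M y, h2 { carrier := M, P := P } y]
  constructor
  · rintro ⟨x, k1, k2, k3⟩
    refine ⟨x, fun q hq => ?_, k2, k3⟩
    rw [← hP q.1 (h1 q hq)]
    exact k1 q hq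
  · rintro ⟨x, k1, k2, k3⟩
    refine ⟨x, fun q hq => ?_, k2, k3⟩
    change lin q.2 x ∈ P q.1
    rw [hP q.1 (h1 q hq)]
    exact k1 q hq

theorem IsDef.zero_mem {F : SF K L κ} (hF : IsDef Λ F) (M : Obj K L) : F M (fun _ => 0) := by
  obtain ⟨φ, h1, h2⟩ := hF
  refine (h2 M _).2 ⟨fun _ => 0, ?_, ?_, ?_⟩
  · intro q _
    rw [lin_zero]
    exact (M.P q.1).zero_mem
  · intro v _
    rw [lin_zero]
  · intro k
    rw [lin_zero]

theorem IsDef.add_mem {F : SF K L κ} (hF : IsDef Λ F) {M : Obj K L} {y z : κ → M}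
    (hy : F M y) (hz : F M z) : F M (fun k => y k + z k) := by
  obtain ⟨φ, h1, h2⟩ := hF
  obtain ⟨x, k1, k2, k3⟩ := (h2 M y).1 hy
  obtain ⟨w, l1, l2, l3⟩ := (h2 M z).1 hz
  refine (h2 M _).2 ⟨fun i => x i + w i, ?_, ?_, ?_⟩
  · intro q hq
    rw [lin_add]
    exact (M.P q.1).add_mem (k1 q hq) (l1 q hq)
  · intro v hv
    rw [lin_add, k2 v hv, l2 v hv, add_zero]
  · intro k
    change y k + z k = _
    rw [lin_add, k3 k, l3 k]

theorem IsDef.smul_mem {F : SF K L κ} (hF : IsDef Λ F) {M : Obj K L} {y : κ → M} (a : K)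
    (hy : F M y) : F M (fun k => a • y k) := by
  obtain ⟨φ, h1, h2⟩ := hF
  obtain ⟨x, k1, k2, k3⟩ := (h2 M y).1 hy
  refine (h2 M _).2 ⟨fun i => a • x i, ?_, ?_, ?_⟩
  · intro q hq
    rw [lin_smul]
    exact (M.P q.1).smul_mem a (k1 q hq)
  · intro v hv
    rw [lin_smul, k2 v hv, smul_zero]
  · intro k
    change a • y k = _
    rw [lin_smul, k3 k]

theorem IsDef.sub_mem {F : SF K L κ} (hF : IsDef Λ F) {M : Obj K L} {y z : κ → M}
    (hy : F M y) (hz : F M z) : F M (fun k => y k - z k) := by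
  have h := hF.add_mem hy (hF.smul_mem (-1 : K) hz)
  have e : (fun k => y k - z k) = fun k => y k + (-1 : K) • z k := by
    funext k
    rw [neg_one_smul, sub_eq_add_neg]
  rw [e]
  exact h

end IsDef

section sums

variable {K : Type u} [Field K] {L : Type u} {Λ : Set L} {κ : Type}

/-- The sum of two structures. -/
def Obj.prod (M N : Obj K L) : Obj K L where
  carrier := M × N
  P := fun l => (M.P l).prod (N.P l)

/-- Formulas commute with sums of two structures. -/
theorem IsDef.prod_iff {F : SF K L κ} (hF : IsDef Λ F) (M N : Obj K L) (y : κ → M.prod N) :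
    F (M.prod N) y ↔ F M (fun k => (y k).1) ∧ F N (fun k => (y k).2) := by
  obtain ⟨φ, -, hφ⟩ := hF
  rw [hφ, hφ, hφ]
  have key : ∀ (v : Fin φ.n → K) (x : Fin φ.n → M.prod N),
      lin v x = (lin v (fun i => (x i).1), lin v (fun i => (x i).2)) := by
    intro v x
    exact Prod.ext (map_lin (LinearMap.fst K M N) v x) (map_lin (LinearMap.snd K M N) v x)
  constructor
  · rintro ⟨x, hc, he, ho⟩
    refine ⟨⟨fun i => (x i).1, ?_, ?_, ?_⟩, ⟨fun i => (x i).2, ?_, ?_, ?_⟩⟩
    · intro q hq
      have h := hc q hq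
      rw [key] at h
      exact h.1
    · intro v hv
      have h := he v hv
      rw [key] at h
      exact congrArg Prod.fst h
    · intro k
      have h := ho k
      rw [key] at h
      exact congrArg Prod.fst h
    · intro q hq
      have h := hc q hq
      rw [key] at h
      exact h.2
    · intro v hv
      have h := he v hv
      rw [key] at h
      exact congrArg Prod.snd h
    · intro k
      have h := ho k
      rw [key] at h
      exact congrArg Prod.snd h
  · rintro ⟨⟨x, hc, he, ho⟩, ⟨x', hc', he', ho'⟩⟩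
    obtain ⟨X, hX, hX'⟩ : ∃ X : Fin φ.n → M.prod N, (fun i => (X i).1) = x ∧
        (fun i => (X i).2) = x' := ⟨fun i => ((x i, x' i) : M × N), rfl, rfl⟩
    refine ⟨X, ?_, ?_, ?_⟩
    · intro q hq
      rw [key, hX, hX']
      exact ⟨hc q hq, hc' q hq⟩
    · intro v hv
      rw [key, hX, hX']
      exact Prod.ext (he v hv) (he' v hv)
    · intro k
      rw [key, hX, hX']
      exact Prod.ext (ho k) (ho' k)

open Classical in
/-- Direct sums of structures. -/
noncomputable def Obj.ds {J : Type u} (M : J → Obj K L) : Obj K L where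
  carrier := Π₀ j, M j
  P := fun l =>
    { carrier := {x | ∀ j, x j ∈ (M j).P l}
      add_mem' := fun {a b} ha hb j => by
        rw [DFinsupp.add_apply]; exact (( M j).P l).add_mem (ha j) (hb j)
      zero_mem' := fun j => by rw [DFinsupp.zero_apply]; exact ((M j).P l).zero_mem
      smul_mem' := fun c x hx j => by
        rw [DFinsupp.smul_apply]; exact ((M j).P l).smul_mem c (hx j) }

/-- The components of a direct sum. -/
noncomputable def Obj.pj {J : Type u} (M : J → Obj K L) (j : J) : Obj.ds M →ₗ[K] M j :=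
  DFinsupp.lapply (R := K) (M := fun j => (M j).carrier) j

open Classical in
/-- The inclusions of a direct sum. -/
noncomputable def Obj.ij {J : Type u} (M : J → Obj K L) (j : J) : M j →ₗ[K] Obj.ds M :=
  DFinsupp.lsingle (R := K) (M := fun j => (M j).carrier) j

theorem Obj.pj_ij {J : Type u} (M : J → Obj K L) (j : J) (x : M j) :
    Obj.pj M j (Obj.ij M j x) = x := by
  classical
  change (DFinsupp.single (β := fun j => (M j).carrier) j x) j = x
  exact DFinsupp.single_eq_same

theorem Obj.pj_ij_ne {J : Type u} (M : J → Obj K L) {i j : J} (h : i ≠ j) (x : M j) :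
    Obj.pj M i (Obj.ij M j x) = 0 := by
  classical
  change (DFinsupp.single (β := fun j => (M j).carrier) j x) i = 0
  exact DFinsupp.single_eq_of_ne h

theorem Obj.mem_ds {J : Type u} (M : J → Obj K L) (l : L) (x : Obj.ds M) :
    x ∈ (Obj.ds M).P l ↔ ∀ j, Obj.pj M j x ∈ (M j).P l :=
  Iff.rfl

theorem Obj.sum_ij_pj {J : Type u} (M : J → Obj K L) (x : Obj.ds M) :
    ∃ s : Finset J, x = ∑ j ∈ s, Obj.ij M j (Obj.pj M j x) ∧ ∀ j ∉ s, Obj.pj M j x = 0 := by
  classical
  obtain ⟨s, hs⟩ : ∃ s : Finset J, ∀ j ∉ s, Obj.pj M j x = 0 := by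
    refine ⟨DFinsupp.support (ι := J) (β := fun j => (M j).carrier) x, fun j hj => ?_⟩
    by_contra h
    exact hj ((DFinsupp.mem_support_iff (ι := J) (β := fun j => (M j).carrier)).2 h)
  refine ⟨s, ?_, hs⟩
  refine DFinsupp.ext (β := fun j => (M j).carrier) fun i => ?_
  change Obj.pj M i x = Obj.pj M i (∑ j ∈ s, Obj.ij M j (Obj.pj M j x))
  rw [map_sum]
  by_cases hi : i ∈ s
  · rw [Finset.sum_eq_single_of_mem i hi, Obj.pj_ij]
    intro j _ hj
    exact Obj.pj_ij_ne M (Ne.symm hj) _
  · rw [hs i hi, Finset.sum_eq_zero]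
    intro j hj
    exact Obj.pj_ij_ne M (fun h => hi (by rw [h]; exact hj)) _

/-- Linear maps from a direct sum. -/
theorem Obj.ds_lift {J : Type u} (M : J → Obj K L) {E : Type u} [AddCommGroup E] [Module K E]
    (f : ∀ j, M j →ₗ[K] E) :
    ∃ g : Obj.ds M →ₗ[K] E, (∀ j x, g (Obj.ij M j x) = f j x) ∧
      ∀ (N : Obj K L) (h : E →ₗ[K] N) (Λ : Set L), (∀ j, IsHom Λ (M := M j) (N := N) (h ∘ₗ f j)) →
        IsHom Λ (M := Obj.ds M) (N := N) (h ∘ₗ g) := by
  classical
  obtain ⟨g, hg⟩ : ∃ g : Obj.ds M →ₗ[K] E, ∀ j x, g (Obj.ij M j x) = f j x :=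
    ⟨DFinsupp.lsum ℕ (M := fun j => (M j).carrier) (R := K) f, fun j x =>
      DFinsupp.lsum_single ℕ f j x⟩
  refine ⟨g, hg, ?_⟩
  intro N h Λ H l hl x hx
  obtain ⟨s, hs, -⟩ := Obj.sum_ij_pj M x
  rw [LinearMap.comp_apply, hs, map_sum, map_sum]
  refine Submodule.sum_mem _ fun j _ => ?_
  rw [hg]
  exact H j l hl _ (hx j)

/-- Linear maps from a direct sum are determined by their restrictions. -/
theorem Obj.ds_ext {J : Type u} (M : J → Obj K L) {E : Type u} [AddCommGroup E] [Module K E]
    {g h : Obj.ds M →ₗ[K] E} (H : ∀ j x, g (Obj.ij M j x) = h (Obj.ij M j x)) : g = h := by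
  refine LinearMap.ext fun x => ?_
  obtain ⟨s, hs, -⟩ := Obj.sum_ij_pj M x
  rw [hs, map_sum, map_sum]
  exact Finset.sum_congr rfl fun j _ => H j _

/-- Every element is a finite sum. -/
theorem Obj.ds_sum {J : Type u} (M : J → Obj K L) (x : Obj.ds M) :
    ∃ s : Finset J, x = ∑ j ∈ s, Obj.ij M j (Obj.pj M j x) := by
  obtain ⟨s, hs, -⟩ := Obj.sum_ij_pj M x
  exact ⟨s, hs⟩

/-- Formulas commute with direct sums. -/
theorem IsDef.ds_iff [Finite κ] {F : SF K L κ} (hF : IsDef Λ F) {J : Type u} (M : J → Obj K L)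
    (y : κ → Obj.ds M) :
    F (Obj.ds M) y ↔ ∀ j, F (M j) (fun k => Obj.pj M j (y k)) := by
  classical
  obtain ⟨φ, -, hφ⟩ := hF
  rw [hφ]
  have hφ' : (∀ j, F (M j) (fun k => Obj.pj M j (y k))) ↔
      ∀ j, φ.Sat (M j) (fun k => Obj.pj M j (y k)) := forall_congr' fun j => hφ _ _
  rw [hφ']
  constructor
  · rintro ⟨x, hc, he, ho⟩ j
    refine ⟨fun i => Obj.pj M j (x i), ?_, ?_, ?_⟩
    · intro q hq
      rw [← map_lin (Obj.pj M j)]
      exact hc q hq j
    · intro v hv
      rw [← map_lin (Obj.pj M j), he v hv, map_zero]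
    · intro k
      exact (congrArg (Obj.pj M j) (ho k)).trans (map_lin (Obj.pj M j) _ _)
  · intro H
    -- a finite set outside which `y` vanishes
    have hfin : ∀ k, ∃ s : Finset J, ∀ j ∉ s, Obj.pj M j (y k) = 0 := fun k => by
      obtain ⟨s, -, hs⟩ := Obj.sum_ij_pj M (y k)
      exact ⟨s, hs⟩
    choose s hs using hfin
    have := Fintype.ofFinite κ
    set t : Finset J := Finset.univ.biUnion s with ht
    have hty : ∀ j ∉ t, ∀ k, Obj.pj M j (y k) = 0 := fun j hj k => by
      refine hs k j fun h => hj ?_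
      rw [ht, Finset.mem_biUnion]
      exact ⟨k, Finset.mem_univ k, h⟩
    have hx : ∀ j, ∃ x : Fin φ.n → M j, (∀ q ∈ φ.c, lin q.2 x ∈ (M j).P q.1) ∧
        (∀ v ∈ φ.e, lin v x = 0) ∧ (∀ k, Obj.pj M j (y k) = lin (φ.out k) x) ∧
        (j ∉ t → ∀ i, x i = 0) := by
      intro j
      by_cases hj : j ∈ t
      · obtain ⟨x, hc, he, ho⟩ := H j
        exact ⟨x, hc, he, ho, fun h => absurd hj h⟩
      · refine ⟨fun _ => 0, ?_, ?_, ?_, fun _ _ => rfl⟩
        · intro q _
          rw [lin_zero]
          exact Submodule.zero_mem _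
        · intro v _
          rw [lin_zero]
        · intro k
          rw [lin_zero]
          exact hty j hj k
    choose x hc he ho hz using hx
    have hX : ∃ X : Fin φ.n → Obj.ds M, ∀ i j, Obj.pj M j (X i) = x j i := by
      refine ⟨fun i => ∑ j ∈ t, Obj.ij M j (x j i), fun i j => ?_⟩
      rw [map_sum]
      by_cases hj : j ∈ t
      · rw [Finset.sum_eq_single_of_mem j hj, Obj.pj_ij]
        intro j' _ hj'
        exact Obj.pj_ij_ne M (Ne.symm hj') _
      · rw [hz j hj i, Finset.sum_eq_zero]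
        intro j' hj'
        exact Obj.pj_ij_ne M (fun h => hj (by rw [h]; exact hj')) _
    obtain ⟨X, hX⟩ := hX
    have hlin : ∀ (v : Fin φ.n → K) j, Obj.pj M j (lin v X) = lin v (x j) := by
      intro v j
      rw [map_lin (Obj.pj M j)]
      exact congrArg (lin v) (funext fun i => hX i j)
    have hext : ∀ a b : Obj.ds M, (∀ j, Obj.pj M j a = Obj.pj M j b) → a = b := by
      intro a b h
      exact DFinsupp.ext (β := fun j => (M j).carrier) h
    refine ⟨X, ?_, ?_, ?_⟩
    · intro q hq
      rw [Obj.mem_ds]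
      intro j
      rw [hlin]
      exact hc j q hq
    · intro v hv
      refine hext _ _ fun j => ?_
      rw [hlin, he j v hv, map_zero]
    · intro k
      refine hext _ _ fun j => ?_
      rw [hlin]
      exact ho j k

end sums

/-- Presentations with variables in a finite type. -/
theorem exists_pre {K : Type u} [Field K] {L : Type u} {ι : Type} [Fintype ι]
    (c : List (L × (ι → K))) : ∃ (G : Pre K L) (e : Fin G.n ≃ ι),
      G.c = c.map (fun q => (q.1, fun i => q.2 (e i))) := by
  refine ⟨⟨Fintype.card ι, c.map (fun q => (q.1, fun i => q.2 ((Fintype.equivFin ι).symm i)))⟩,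
    (Fintype.equivFin ι).symm, rfl⟩

end Pool.Agent.Helper13.SDW
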