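import Pool.Agent.Helper13.SDW.CellDefs
import Pool.Agent.Helper13.SDW.Fml

/-!
# The cell closure: master lemma and density
-/

namespace Pool.Agent.Helper13.SDW

universe u

variable {K : Type u} [Field K] {S : Sys K}

theorem Pst_mono {A I : Type u} [AddCommGroup A] [Module K A] (T : Set S.Tp)
    (Q : S.L → Submodule K A) (l : S.L) : Monotone fun j => Pst (I := I) T Q j l :=
  monotone_nat_of_le_succ fun _ => le_sup_left

theorem vmap_e {A I : Type u} [AddCommGroup A] [Module K A] {B : Obj K S.L}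
    (val : Cell S A I → B → ℕ → B) (f₀ : A →ₗ[K] B) (w : W S A I) :
    vmap val f₀ w.e = wv val f₀ w := by
  simp [vmap, W.e]

theorem vmap_inl {A I : Type u} [AddCommGroup A] [Module K A] {B : Obj K S.L}
    (val : Cell S A I → B → ℕ → B) (f₀ : A →ₗ[K] B) (a : A) : vmap val f₀ (a, 0) = f₀ a := by
  simp [vmap]

theorem vmap_dv {A I : Type u} [AddCommGroup A] [Module K A] {B : Obj K S.L}
    (val : Cell S A I → B → ℕ → B) (f₀ : A →ₗ[K] B) (s : Cell S A I) :
    vmap val f₀ s.dv = f₀ s.m + ∑ k, s.coef k • wv val f₀ (s.arg k) := by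
  rw [Cell.dv, map_add, vmap_inl, map_sum]
  congr 1
  refine Finset.sum_congr rfl fun k _ => ?_
  rw [map_smul, vmap_e]

theorem wv_v {A I : Type u} [AddCommGroup A] [Module K A] {B : Obj K S.L}
    (val : Cell S A I → B → ℕ → B) (f₀ : A →ₗ[K] B) (s : Cell S A I) (i : ℕ) :
    wv val f₀ (s.v i) = val s (vmap val f₀ s.dv) i := by
  rw [vmap_dv, Cell.v, wv]

theorem Obj.le_of_Le {B : Obj K S.L} (hB : S.NodeOK B) {a b : S.Nd} (h : S.Le a b) :
    B.P (.inl a) ≤ B.P (.inl b) := by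
  obtain ⟨n, rfl⟩ := h
  induction n with
  | zero => exact le_rfl
  | succ n ih =>
    rw [Function.iterate_succ_apply']
    exact ih.trans (hB.par _)

/-- Master lemma: the map of a selector is a hom. -/
theorem Sel.isHom {T : Set S.Tp} {M₀ B : Obj K S.L} {I : Type u} (hB : S.FF T B)
    (σ : Sel T M₀ I B) {f₀ : M₀ →ₗ[K] B} (h₀ : IsHom (S.lab T) f₀) :
    IsHom (S.lab T) (M := Nc T M₀ I) (N := B) (vmap σ.val f₀) := by
  have key : ∀ j, PHom T (Pst T M₀.P j) B (vmap σ.val f₀) := by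
    intro j
    induction j with
    | zero =>
      intro l hl x hx
      have hle : Pst (I := I) T M₀.P 0 l ≤ (B.P l).comap (vmap σ.val f₀) := by
        refine sup_le ?_ (iSup_le ?_)
        · rw [Submodule.map_le_iff_le_comap]
          intro a ha
          change vmap σ.val f₀ (a, 0) ∈ B.P l
          rw [vmap_inl]
          exact h₀ l hl a ha
        · rintro rfl x -
          change vmap σ.val f₀ x ∈ B.P _
          rw [hB.root]
          exact Submodule.mem_top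
      exact hle hx
    | succ j ih =>
      intro l hl x hx
      have hle : Pst (I := I) T M₀.P (j + 1) l ≤ (B.P l).comap (vmap σ.val f₀) := by
        refine sup_le (fun y hy => ih l hl y hy) (Submodule.span_le.mpr ?_)
        rintro y ⟨s, rfl, hs, hy⟩
        change vmap σ.val f₀ y ∈ B.P l
        have hX := hs.2 B (vmap σ.val f₀) hB ih
        have hblk : ∀ i, vmap σ.val f₀ (s.blk i) = σ.val s (vmap σ.val f₀ s.dv) i := by
          intro i
          rw [Cell.blk, vmap_e, wv_v]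
        rcases hy with ⟨q, hq, rfl, hql⟩ | ⟨rfl, rfl⟩
        · have h1 := σ.hom s hs _ hX q hq
          rw [map_lin]
          simp only [hblk]
          rcases hql with rfl | ⟨a, b, ha, rfl, hab⟩
          · exact h1
          · rw [ha] at h1
            exact Obj.le_of_Le hB.toNodeOK hab h1
        · rw [map_add, Cell.yv, map_lin]
          simp only [hblk]
          exact σ.mem s hs _ hX
      exact hle hx
  intro l hl x hx
  have hx' : x ∈ ⨆ j, Pst (I := I) T M₀.P j l := hx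
  rw [Submodule.mem_iSup_of_directed _ ((Pst_mono T M₀.P l).directed_le)] at hx'
  obtain ⟨j, hj⟩ := hx'
  exact key j l hl x hj

/-- Existence of selectors with a given property. -/
theorem exists_sel {T : Set S.Tp} {M₀ : Obj K S.L} {I : Type u} {B : Obj K S.L}
    (R : Cell S M₀ I → B → (ℕ → B) → Prop)
    (h1 : ∀ (s : Cell S M₀ I) (x : B), s.Ok T M₀ → s.X.S1 B x → ∃ y : ℕ → B,
      s.Y.toPre.Hom B (fun i => y i) ∧
        x + lin (s.Y.out ()) (fun i : Fin s.Y.n => y i) ∈ B.P (.inr s.τ) ∧ R s x y)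
    (h2 : ∀ (s : Cell S M₀ I) (x : B), ¬ (s.Ok T M₀ ∧ s.X.S1 B x) → ∃ y : ℕ → B, R s x y) :
    ∃ σ : Sel T M₀ I B, ∀ s x, R s x (σ.val s x) := by
  classical
  have H : ∀ (s : Cell S M₀ I) (x : B), ∃ y : ℕ → B, R s x y ∧ (s.Ok T M₀ → s.X.S1 B x →
      s.Y.toPre.Hom B (fun i => y i) ∧
        x + lin (s.Y.out ()) (fun i : Fin s.Y.n => y i) ∈ B.P (.inr s.τ)) := by
    intro s x
    by_cases h : s.Ok T M₀ ∧ s.X.S1 B x
    · obtain ⟨y, hy1, hy2, hy3⟩ := h1 s x h.1 h.2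
      exact ⟨y, hy3, fun _ _ => ⟨hy1, hy2⟩⟩
    · obtain ⟨y, hy⟩ := h2 s x h
      exact ⟨y, hy, fun ha hb => (h ⟨ha, hb⟩).elim⟩
  choose val hR hv using H
  exact ⟨⟨val, fun s hs x hx => (hv s x hs hx).1, fun s hs x hx => (hv s x hs hx).2⟩, hR⟩

/-- The master lemma in the form in which it is used. -/
theorem Nc.exists_hom {T : Set S.Tp} {M₀ B : Obj K S.L} {I : Type u} (hB : S.FF T B)
    {f₀ : M₀ →ₗ[K] B} (h₀ : IsHom (S.lab T) f₀)
    (R : Cell S M₀ I → B → (ℕ → B) → Prop)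
    (h1 : ∀ (s : Cell S M₀ I) (x : B), s.Ok T M₀ → s.X.S1 B x → ∃ y : ℕ → B,
      s.Y.toPre.Hom B (fun i => y i) ∧
        x + lin (s.Y.out ()) (fun i : Fin s.Y.n => y i) ∈ B.P (.inr s.τ) ∧ R s x y)
    (h2 : ∀ (s : Cell S M₀ I) (x : B), ¬ (s.Ok T M₀ ∧ s.X.S1 B x) → ∃ y : ℕ → B, R s x y) :
    ∃ f : Nc T M₀ I →ₗ[K] B, IsHom (S.lab T) f ∧ (∀ m : M₀, f (m, 0) = f₀ m) ∧
      ∀ s : Cell S M₀ I, R s (f s.dv) (fun i => f (s.v i).e) := by
  obtain ⟨σ, hσ⟩ := exists_sel R h1 h2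
  refine ⟨vmap σ.val f₀, σ.isHom hB h₀, fun m => vmap_inl σ.val f₀ m, fun s => ?_⟩
  have h3 : (fun i => (vmap σ.val f₀) (s.v i).e) = σ.val s ((vmap σ.val f₀) s.dv) := by
    funext i
    rw [vmap_e, wv_v]
  rw [h3]
  exact hσ s _

/-- Density in the form of selectors. -/
theorem Sys.FF.exists_block {T : Set S.Tp} {B : Obj K S.L} (hB : S.FF T B) {τ : S.Tp}
    (hτ : τ ∈ T) (r : Rl) {x : B} (hx : (S.X τ r).S1 B x) :
    ∃ y : Fin (S.Y τ r).n → B, (S.Y τ r).toPre.Hom B y ∧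
      x + lin ((S.Y τ r).out ()) y ∈ B.P (.inr τ) := by
  obtain ⟨v, hv, y, ⟨z, hz, hy⟩, rfl⟩ := hB.dens τ hτ r x hx
  refine ⟨fun i => - z i, fun q hq => ?_, ?_⟩
  · have h1 : lin q.2 (fun i => - z i) = - lin q.2 z := by
      simp [lin]
    rw [h1]
    exact (B.P q.1).neg_mem (hz q hq)
  · have h1 : lin ((S.Y τ r).out ()) (fun i => - z i) = - lin ((S.Y τ r).out ()) z := by
      simp [lin]
    have h2 := hy ()
    rw [h1, ← h2]
    simpa using hv

/-- Homs extend from the base. -/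
theorem Nc.extend {T : Set S.Tp} {M₀ B : Obj K S.L} {I : Type u} (hB : S.FF T B)
    {f₀ : M₀ →ₗ[K] B} (h₀ : IsHom (S.lab T) f₀) :
    ∃ f : Nc T M₀ I →ₗ[K] B, IsHom (S.lab T) f ∧ ∀ m : M₀, f (m, 0) = f₀ m := by
  obtain ⟨f, hf, hf0, -⟩ := Nc.exists_hom (I := I) hB h₀ (fun _ _ _ => True)
    (fun s x hs hx => by
      obtain ⟨y, hy, hy'⟩ := hB.exists_block hs.1 s.r hx
      refine ⟨fun i => if h : i < s.Y.n then y ⟨i, h⟩ else 0, ?_, ?_, trivial⟩
      · simpa using hy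
      · simpa using hy')
    (fun _ _ _ => ⟨fun _ => 0, trivial⟩)
  exact ⟨f, hf, hf0⟩

end Pool.Agent.Helper13.SDW
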