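import Pool.Agent.Helper13.SDW.CxDefs
import Pool.Agent.Helper13.SDW.Cell1

/-!
# BLOCK SDW-CX1: basic facts on formal conditions and complexes (about 200 lines, elementary)

* `Pf.mem_P`: span_induction; each generator by `G.Hom M x` and `NodeOK.par` (iterated), the case
  `l = root` by `NodeOK.root`.
* `Pf_cell`: a generator of `Pf S (G.cell τ r d) (.inr s)` comes from `G`, from `Y`, or is
  `Fin.append d out` if `s = τ` (the supremum over `l = root` is empty as `.inr s ≠ .inl root`).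
* `obj_hom`: the linear map `v ↦ lin v x`.
* `Cx.*`: induction on `Cx`.
-/

namespace Pool.Agent.Helper13.SDW

universe u

variable {K : Type u} [Field K] {S : Sys K}

/-- The linear map `v ↦ lin v x`. -/
private def linM {D : Type u} [AddCommGroup D] [Module K D] {n : ℕ} (x : Fin n → D) :
    (Fin n → K) →ₗ[K] D where
  toFun v := lin v x
  map_add' v w := lin_add_left v w x
  map_smul' a v := lin_smul_left a v x

private theorem append_add {m n : ℕ} (v v' : Fin m → K) (w w' : Fin n → K) :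
    Fin.append (v + v') (w + w') = Fin.append v w + Fin.append v' w' := by
  funext i
  refine Fin.addCases (fun i => ?_) (fun i => ?_) i
  · simp
  · simp

private theorem append_smul {m n : ℕ} (a : K) (v : Fin m → K) (w : Fin n → K) :
    Fin.append (a • v) (a • w) = a • Fin.append v w := by
  funext i
  refine Fin.addCases (fun i => ?_) (fun i => ?_) i
  · simp
  · simp

/-- The linear map `v ↦ (v, 0)`. -/
private def appL (m n : ℕ) : (Fin m → K) →ₗ[K] (Fin (m + n) → K) where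
  toFun v := Fin.append v (fun _ => 0)
  map_add' v w := by
    have h := append_add v w (fun _ : Fin n => (0 : K)) (fun _ => 0)
    rw [← h]
    congr 1
    funext i
    simp
  map_smul' a v := by
    have h := append_smul a v (fun _ : Fin n => (0 : K))
    rw [RingHom.id_apply, ← h]
    congr 1
    funext i
    simp

/-- The linear map `v ↦ (0, v)`. -/
private def appR (m n : ℕ) : (Fin n → K) →ₗ[K] (Fin (m + n) → K) where
  toFun v := Fin.append (fun _ => 0) v
  map_add' v w := by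
    have h := append_add (fun _ : Fin m => (0 : K)) (fun _ => 0) v w
    rw [← h]
    congr 1
    funext i
    simp
  map_smul' a v := by
    have h := append_smul a (fun _ : Fin m => (0 : K)) v
    rw [RingHom.id_apply, ← h]
    congr 1
    funext i
    simp

theorem Sys.NodeOK.le {M : Obj K S.L} (hM : S.NodeOK M) {a b : S.Nd} (h : S.Le a b) :
    M.P (.inl a) ≤ M.P (.inl b) :=
  Obj.le_of_Le hM h

theorem Pf.mem_P {G : Pre K S.L} {M : Obj K S.L} (hM : S.NodeOK M) {x : Fin G.n → M}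
    (hx : G.Hom M x) {l : S.L} {v : Fin G.n → K} (hv : v ∈ Pf S G l) : lin v x ∈ M.P l := by
  have hle : Pf S G l ≤ (M.P l).comap (linM x) := by
    refine sup_le (Submodule.span_le.mpr ?_) (iSup_le ?_)
    · rintro w ⟨q, hq, rfl, hql⟩
      change lin q.2 x ∈ M.P l
      have h1 := hx q hq
      rcases hql with rfl | ⟨a, b, ha, rfl, hab⟩
      · exact h1
      · rw [ha] at h1
        exact hM.le hab h1
    · rintro rfl w -
      change lin w x ∈ M.P _
      rw [hM.root]
      exact Submodule.mem_top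
  exact hle hv

theorem Pf.sum_left {G H : Pre K S.L} {l : S.L} {v : Fin G.n → K} (hv : v ∈ Pf S G l) :
    (Fin.append v (fun _ => 0) : Fin (G.n + H.n) → K) ∈ Pf S (G.sum H) l := by
  have hle : Pf S G l ≤ (Pf S (G.sum H) l).comap (appL G.n H.n) := by
    refine sup_le (Submodule.span_le.mpr ?_) (iSup_le ?_)
    · rintro w ⟨q, hq, rfl, hql⟩
      refine Submodule.mem_sup_left (Submodule.subset_span ?_)
      exact ⟨(q.1, Fin.append q.2 (fun _ => 0)), Pre.mem_sum_c.2 (Or.inl ⟨q, hq, rfl⟩), rfl, hql⟩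
    · rintro rfl w -
      refine Submodule.mem_sup_right ?_
      simp
  exact hle hv

theorem Pf.sum_right {G H : Pre K S.L} {l : S.L} {v : Fin H.n → K} (hv : v ∈ Pf S H l) :
    (Fin.append (fun _ => 0) v : Fin (G.n + H.n) → K) ∈ Pf S (G.sum H) l := by
  have hle : Pf S H l ≤ (Pf S (G.sum H) l).comap (appR G.n H.n) := by
    refine sup_le (Submodule.span_le.mpr ?_) (iSup_le ?_)
    · rintro w ⟨q, hq, rfl, hql⟩
      refine Submodule.mem_sup_left (Submodule.subset_span ?_)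
      exact ⟨(q.1, Fin.append (fun _ => 0) q.2), Pre.mem_sum_c.2 (Or.inr ⟨q, hq, rfl⟩), rfl, hql⟩
    · rintro rfl w -
      refine Submodule.mem_sup_right ?_
      simp
  exact hle hv

theorem Pf.addc {G : Pre K S.L} {l l' : S.L} {v w : Fin G.n → K} (hv : v ∈ Pf S G l) :
    v ∈ Pf S (G.addc l' w) l := by
  have hle : Pf S G l ≤ Pf S (G.addc l' w) l := by
    refine sup_le_sup_right (Submodule.span_mono ?_) _
    rintro w ⟨q, hq, rfl, hql⟩
    exact ⟨q, List.mem_append_left _ hq, rfl, hql⟩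
  exact hle hv

theorem Pf.of_mem {G : Pre K S.L} {q : S.L × (Fin G.n → K)} (hq : q ∈ G.c) :
    q.2 ∈ Pf S G q.1 :=
  Submodule.mem_sup_left (Submodule.subset_span ⟨q, hq, rfl, Or.inl rfl⟩)

private theorem Pf_inr {G : Pre K S.L} {s : S.Tp} {v : Fin G.n → K}
    (hv : v ∈ Pf S G (.inr s)) :
    v ∈ Submodule.span K {v | ∃ q ∈ G.c, q.2 = v ∧ q.1 = .inr s} := by
  have hle : Pf S G (.inr s) ≤ Submodule.span K {v | ∃ q ∈ G.c, q.2 = v ∧ q.1 = .inr s} := by
    refine sup_le (Submodule.span_mono ?_) (iSup_le ?_)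
    · rintro w ⟨q, hq, rfl, hql⟩
      refine ⟨q, hq, rfl, ?_⟩
      rcases hql with h | ⟨a, b, -, h, -⟩
      · exact h
      · cases h
    · intro h
      cases h
  exact hle hv

/-- The `V_s`-forms of a cell. -/
theorem Pf_cell {G : Pre K S.L} {τ : S.Tp} {r : Rl} {d : Fin G.n → K} {s : S.Tp}
    {v : Fin (G.cell τ r d).n → K} (hv : v ∈ Pf S (G.cell τ r d) (.inr s)) :
    ∃ (v₀ : Fin G.n → K) (v₁ : Fin (S.Y τ r).n → K) (c : K), v₀ ∈ Pf S G (.inr s) ∧
      v₁ ∈ Pf S (S.Y τ r).toPre (.inr s) ∧ (s ≠ τ → c = 0) ∧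
      v = Fin.append (v₀ + c • d) (v₁ + c • (S.Y τ r).out ()) := by
  have h := Pf_inr hv
  refine Submodule.span_induction (p := fun v _ => ∃ (v₀ : Fin G.n → K)
      (v₁ : Fin (S.Y τ r).n → K) (c : K), v₀ ∈ Pf S G (.inr s) ∧
      v₁ ∈ Pf S (S.Y τ r).toPre (.inr s) ∧ (s ≠ τ → c = 0) ∧
      v = Fin.append (v₀ + c • d) (v₁ + c • (S.Y τ r).out ())) ?_ ?_ ?_ ?_ h
  · rintro w ⟨q, hq, rfl, hqs⟩
    rcases List.mem_append.1 hq with hq | hq
    · rcases Pre.mem_sum_c.1 hq with ⟨p, hp, rfl⟩ | ⟨p, hp, rfl⟩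
      · refine ⟨p.2, 0, 0, ?_, Submodule.zero_mem _, fun _ => rfl, ?_⟩
        · have h1 := Pf.of_mem (S := S) hp
          rw [show p.1 = .inr s from hqs] at h1
          exact h1
        · rw [zero_smul, add_zero, zero_smul, add_zero]
          rfl
      · refine ⟨0, p.2, 0, Submodule.zero_mem _, ?_, fun _ => rfl, ?_⟩
        · have h1 := Pf.of_mem (S := S) hp
          rw [show p.1 = .inr s from hqs] at h1
          exact h1
        · rw [zero_smul, add_zero, zero_smul, add_zero]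
          rfl
    · rw [List.mem_singleton] at hq
      subst hq
      refine ⟨0, 0, 1, Submodule.zero_mem _, Submodule.zero_mem _, fun hs => ?_, ?_⟩
      · exact absurd (Sum.inr.inj hqs).symm hs
      · rw [one_smul, one_smul, zero_add, zero_add]
  · refine ⟨0, 0, 0, Submodule.zero_mem _, Submodule.zero_mem _, fun _ => rfl, ?_⟩
    rw [zero_smul, add_zero, zero_smul, add_zero]
    funext i
    refine Fin.addCases (fun i => ?_) (fun i => ?_) i
    · simp
    · simp
  · rintro v w - - ⟨v₀, v₁, c, h0, h1, h2, rfl⟩ ⟨w₀, w₁, c', k0, k1, k2, rfl⟩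
    refine ⟨v₀ + w₀, v₁ + w₁, c + c', Submodule.add_mem _ h0 k0, Submodule.add_mem _ h1 k1,
      fun hs => by rw [h2 hs, k2 hs, add_zero], ?_⟩
    rw [← append_add]
    congr 1
    · rw [add_smul]
      abel
    · rw [add_smul]
      abel
  · rintro a v - ⟨v₀, v₁, c, h0, h1, h2, rfl⟩
    refine ⟨a • v₀, a • v₁, a * c, Submodule.smul_mem _ _ h0, Submodule.smul_mem _ _ h1,
      fun hs => by rw [h2 hs, mul_zero], ?_⟩
    rw [← append_smul]
    congr 1
    · rw [smul_add, mul_smul]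
    · rw [smul_add, mul_smul]

theorem Pf_atom {G : Pre K S.L} {a : S.Nd} {s : S.Tp}
    {v : Fin (G.sum (Pre.one K (.inl a))).n → K}
    (hv : v ∈ Pf S (G.sum (Pre.one K (.inl a))) (.inr s)) :
    ∃ v₀ : Fin G.n → K, v₀ ∈ Pf S G (.inr s) ∧ v = Fin.append v₀ (fun _ => 0) := by
  have h := Pf_inr hv
  refine Submodule.span_induction (p := fun v _ => ∃ v₀ : Fin G.n → K,
    v₀ ∈ Pf S G (.inr s) ∧ v = Fin.append v₀ (fun _ => 0)) ?_ ?_ ?_ ?_ h
  · rintro w ⟨q, hq, rfl, hqs⟩
    rcases Pre.mem_sum_c.1 hq with ⟨p, hp, rfl⟩ | ⟨p, hp, rfl⟩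
    · refine ⟨p.2, ?_, rfl⟩
      have h1 := Pf.of_mem (S := S) hp
      rw [show p.1 = .inr s from hqs] at h1
      exact h1
    · rw [List.mem_singleton] at hp
      subst hp
      cases hqs
  · refine ⟨0, Submodule.zero_mem _, ?_⟩
    funext i
    refine Fin.addCases (fun i => ?_) (fun i => ?_) i
    · simp
    · simp
  · rintro v w - - ⟨v₀, h0, rfl⟩ ⟨w₀, k0, rfl⟩
    exact ⟨v₀ + w₀, Submodule.add_mem _ h0 k0, ((appL (K := K) G.n 1).map_add v₀ w₀).symm⟩
  · rintro a v - ⟨v₀, h0, rfl⟩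
    exact ⟨a • v₀, Submodule.smul_mem _ _ h0, ((appL (K := K) G.n 1).map_smul a v₀).symm⟩

/-- No `V_s`-forms if the label does not occur. -/
theorem Pf_eq_zero {G : Pre K S.L} {s : S.Tp} (hG : ∀ q ∈ G.c, q.1 ≠ .inr s)
    {v : Fin G.n → K} (hv : v ∈ Pf S G (.inr s)) : v = 0 := by
  have h := Pf_inr hv
  refine Submodule.span_induction (p := fun v _ => v = 0) ?_ rfl ?_ ?_ h
  · rintro w ⟨q, hq, rfl, hqs⟩
    exact absurd hqs (hG q hq)
  · rintro v w - - rfl rfl
    exact add_zero _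
  · rintro a v - rfl
    exact smul_zero _

theorem obj_nodeOK (hr : S.par S.root = S.root) (G : Pre K S.L) : S.NodeOK (G.obj (S := S)) := by
  have htop : Pf S G (.inl S.root) = ⊤ := by
    refine top_le_iff.1 ?_
    refine le_trans ?_ le_sup_right
    exact le_iSup (fun _ : (Sum.inl S.root : S.L) = .inl S.root =>
      (⊤ : Submodule K (Fin G.n → K))) rfl
  refine ⟨htop, fun a => ?_⟩
  change Pf S G (.inl a) ≤ Pf S G (.inl (S.par a))
  refine sup_le (Submodule.span_le.mpr ?_) (iSup_le ?_)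
  · rintro w ⟨q, hq, rfl, hql⟩
    refine Submodule.mem_sup_left (Submodule.subset_span ⟨q, hq, rfl, Or.inr ?_⟩)
    rcases hql with h | ⟨a', b, ha, hb, ⟨n, hn⟩⟩
    · exact ⟨a, S.par a, h, rfl, ⟨1, rfl⟩⟩
    · refine ⟨a', S.par a, ha, rfl, ⟨n + 1, ?_⟩⟩
      rw [Function.iterate_succ_apply', hn, Sum.inl.inj hb]
  · intro h
    have ha : a = S.root := Sum.inl.inj h
    subst ha
    rw [hr, htop]

theorem lin_gen (G : Pre K S.L) (v : Fin G.n → K) :
    lin v (Pre.gen (S := S) G) = (v : Fin G.n → K) := by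
  change ∑ i, v i • (Pi.single i 1 : Fin G.n → K) = v
  funext j
  rw [Finset.sum_apply]
  simp [Pi.single_apply]

theorem gen_hom (G : Pre K S.L) : G.Hom (G.obj (S := S)) (Pre.gen G) := by
  intro q hq
  rw [lin_gen]
  exact Pf.of_mem hq

private theorem linM_gen {G : Pre K S.L} {D : Obj K S.L} (x : Fin G.n → D) (i : Fin G.n) :
    linM (K := K) x (Pre.gen (S := S) G i) = x i := by
  change ∑ j, (Pi.single i 1 : Fin G.n → K) j • x j = x i
  simp [Pi.single_apply]

/-- Homs from the presented structure. -/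
theorem obj_hom (G : Pre K S.L) {D : Obj K S.L} (hD : S.NodeOK D) (x : Fin G.n → D)
    (hx : G.Hom D x) (Λ : Set S.L) :
    ∃ f : G.obj (S := S) →ₗ[K] D, IsHom Λ f ∧ ∀ i, f (Pre.gen G i) = x i :=
  ⟨linM x, fun _ _ _ hv => Pf.mem_P hD hx hv, fun i => linM_gen x i⟩

/-- The presented structure of a cofibrant presentation is cofibrant. -/
theorem obj_cof {T : Set S.Tp} {G : Pre K S.L} (hG : S.CofP T G)
    (hl : ∀ q ∈ G.c, q.1 ∈ S.lab T) : S.Cof T (G.obj (S := S)) := by
  intro A B p hA hB hp f hf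
  obtain ⟨x, hx, hxy⟩ := hG A B p hA hB hp (fun i => f (Pre.gen G i)) (fun q hq => by
    rw [← map_lin]
    exact hf q.1 (hl q hq) _ (gen_hom G q hq))
  refine ⟨linM x, fun _ _ _ hv => Pf.mem_P hA.toNodeOK hx hv, fun v => ?_⟩
  change p (lin (v : Fin G.n → K) x) = f v
  rw [map_lin]
  simp only [hxy]
  rw [← map_lin, lin_gen]

private theorem lab_mono' {T T' : Set S.Tp} (hT : T ⊆ T') : S.lab T ⊆ S.lab T' :=
  fun _ hl τ h => hT (hl τ h)

private theorem ff_mono' {T T' : Set S.Tp} (hT : T ⊆ T') {M : Obj K S.L} (hM : S.FF T' M) :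
    S.FF T M :=
  ⟨hM.toNodeOK, fun τ hτ => hM.dens τ (hT hτ)⟩

private theorem tfib_mono' {T T' : Set S.Tp} (hT : T ⊆ T') {M N : Obj K S.L} {p : M →ₗ[K] N}
    (hp : S.TFib T' p) : S.TFib T p :=
  ⟨fun l hl => hp.hom l (lab_mono' hT hl), hp.node, fun τ hτ => hp.cell τ (hT hτ)⟩

section Cx

variable {T : Set S.Tp} {G₀ G : Pre K S.L} {e : Fin G₀.n → Fin G.n}

theorem Cx.trans (h : Cx T G₀ G e) {G' : Pre K S.L} {e' : Fin G.n → Fin G'.n}
    (h' : Cx T G G' e') : Cx T G₀ G' (fun i => e' (e i)) := by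
  induction h' with
  | base => exact h
  | atom a _ ih => exact Cx.atom a ih
  | cell τ r d _ hτ hv ih => exact Cx.cell τ r d ih hτ hv

/-- Labels of a complex. -/
theorem Cx.lab (hT : S.Closed T) (h : Cx T G₀ G e) (h₀ : ∀ q ∈ G₀.c, q.1 ∈ S.lab T) :
    ∀ q ∈ G.c, q.1 ∈ S.lab T := by
  induction h with
  | base => exact h₀
  | atom a _ ih =>
    intro q hq
    rcases Pre.mem_sum_c.1 hq with ⟨p, hp, rfl⟩ | ⟨p, hp, rfl⟩
    · exact ih p hp
    · rw [List.mem_singleton] at hp
      subst hp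
      intro τ h
      cases h
  | cell τ r d _ hτ hv ih =>
    intro q hq
    rcases List.mem_append.1 hq with hq | hq
    · rcases Pre.mem_sum_c.1 hq with ⟨p, hp, rfl⟩ | ⟨p, hp, rfl⟩
      · exact ih p hp
      · exact (hT τ hτ r).2 p hp
    · rw [List.mem_singleton] at hq
      subst hq
      intro τ' h
      rw [← Sum.inr.inj h]
      exact hτ

theorem Cx.restrict (h : Cx T G₀ G e) {M : Obj K S.L} {x : Fin G.n → M} (hx : G.Hom M x) :
    G₀.Hom M (fun i => x (e i)) := by
  induction h with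
  | base => exact hx
  | atom a _ ih => exact ih ((Pre.sum_hom _ _ M _).1 hx).1
  | cell τ r d _ hτ hv ih =>
    exact ih ((Pre.sum_hom _ _ M _).1 ((Pre.addc_hom _ _ _ M _).1 hx).1).1

/-- Homs extend over complexes (density). -/
theorem Cx.extend (h : Cx T G₀ G e) {D : Obj K S.L} (hD : S.FF T D) {x : Fin G₀.n → D}
    (hx : G₀.Hom D x) : ∃ x' : Fin G.n → D, G.Hom D x' ∧ ∀ i, x' (e i) = x i := by
  induction h with
  | base => exact ⟨x, hx, fun _ => rfl⟩
  | @atom G e a _ ih =>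
    obtain ⟨x', hx', he⟩ := ih
    refine ⟨Fin.append x' (fun _ => 0), (Pre.sum_hom _ _ D _).2 ⟨?_, ?_⟩, fun i => ?_⟩
    · simpa only [Fin.append_left] using hx'
    · rw [Pre.one_hom]
      have h1 : (Fin.append x' (fun _ : Fin 1 => (0 : D))) (Fin.natAdd G.n (0 : Fin 1)) = 0 :=
        Fin.append_right _ _ _
      change (Fin.append x' (fun _ : Fin 1 => (0 : D))) (Fin.natAdd G.n (0 : Fin 1)) ∈ _
      rw [h1]
      exact Submodule.zero_mem _
    · exact (Fin.append_left _ _ _).trans (he i)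
  | @cell G e τ r d _ hτ hv ih =>
    obtain ⟨x', hx', he⟩ := ih
    obtain ⟨y, hy, hxy⟩ := hD.exists_block hτ r (hv D hD x' hx')
    refine ⟨Fin.append x' y, (Pre.addc_hom _ _ _ D _).2 ⟨(Pre.sum_hom _ _ D _).2 ⟨?_, ?_⟩, ?_⟩,
      fun i => ?_⟩
    · simpa only [Fin.append_left] using hx'
    · simpa only [Fin.append_right] using hy
    · rw [lin_append]
      simpa only [Fin.append_left, Fin.append_right] using hxy
    · exact (Fin.append_left _ _ _).trans (he i)

/-- Relative lifting. -/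
theorem Cx.lift (h : Cx T G₀ G e) {A B : Obj K S.L} {p : A →ₗ[K] B} (hA : S.FF T A)
    (hB : S.FF T B) (hp : S.TFib T p) {x : Fin G₀.n → A} (hx : G₀.Hom A x)
    {y : Fin G.n → B} (hy : G.Hom B y) (hxy : ∀ i, p (x i) = y (e i)) :
    ∃ x' : Fin G.n → A, G.Hom A x' ∧ (∀ i, x' (e i) = x i) ∧ ∀ i, p (x' i) = y i := by
  induction h with
  | base => exact ⟨x, hx, fun _ => rfl, hxy⟩
  | @atom G e a _ ih =>
    obtain ⟨hy1, hy2⟩ := (Pre.sum_hom _ _ B _).1 hy
    obtain ⟨x', hx', he, hp'⟩ := ih hy1 hxy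
    rw [Pre.one_hom] at hy2
    obtain ⟨z, hz, hzy⟩ := hp.node a _ hy2
    refine ⟨Fin.append x' (fun _ => z), (Pre.sum_hom _ _ A _).2 ⟨?_, ?_⟩, fun i => ?_, fun i => ?_⟩
    · simpa only [Fin.append_left] using hx'
    · rw [Pre.one_hom]
      have h1 : (Fin.append x' (fun _ : Fin 1 => z)) (Fin.natAdd G.n (0 : Fin 1)) = z :=
        Fin.append_right _ _ _
      change (Fin.append x' (fun _ : Fin 1 => z)) (Fin.natAdd G.n (0 : Fin 1)) ∈ _
      rw [h1]
      exact hz
    · exact (Fin.append_left _ _ _).trans (he i)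
    · refine Fin.addCases (fun i => ?_) (fun i => ?_) i
      · rw [Fin.append_left]
        exact hp' i
      · rw [Fin.append_right, hzy]
        rw [Subsingleton.elim i 0]
  | @cell G e τ r d _ hτ hv ih =>
    obtain ⟨hy12, hy3⟩ := (Pre.addc_hom _ _ _ B _).1 hy
    obtain ⟨hy1, hy2⟩ := (Pre.sum_hom _ _ B _).1 hy12
    obtain ⟨x', hx', he, hp'⟩ := ih hy1 hxy
    rw [lin_append] at hy3
    obtain ⟨z, hz, hzy, hzV⟩ := hp.cell τ hτ r _ (hv A hA x' hx') _ hy2 (by
      rw [map_lin]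
      simp only [hp']
      exact hy3)
    refine ⟨Fin.append x' z, (Pre.addc_hom _ _ _ A _).2 ⟨(Pre.sum_hom _ _ A _).2 ⟨?_, ?_⟩, ?_⟩,
      fun i => ?_, fun i => ?_⟩
    · simpa only [Fin.append_left] using hx'
    · simpa only [Fin.append_right] using hz
    · rw [lin_append]
      simpa only [Fin.append_left, Fin.append_right] using hzV
    · exact (Fin.append_left _ _ _).trans (he i)
    · refine Fin.addCases (fun i => ?_) (fun i => ?_) i
      · rw [Fin.append_left]
        exact hp' i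
      · rw [Fin.append_right, hzy]

theorem Cx.cofP (h : Cx T G₀ G e) (h₀ : S.CofP T G₀) : S.CofP T G := by
  intro A B p hA hB hp y hy
  obtain ⟨x, hx, hxy⟩ := h₀ A B p hA hB hp _ (h.restrict hy)
  obtain ⟨x', hx', -, h'⟩ := h.lift hA hB hp hx hy hxy
  exact ⟨x', hx', h'⟩

theorem Cx.mono {T' : Set S.Tp} (h : Cx T G₀ G e) (hT : T ⊆ T') : Cx T' G₀ G e := by
  induction h with
  | base => exact Cx.base
  | atom a _ ih => exact Cx.atom a ih
  | cell τ r d _ hτ hv ih =>
    exact Cx.cell τ r d ih (hT hτ) fun D hD x hx => hv D (ff_mono' hT hD) x hx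

/-- Sums with a further complex over the empty presentation are complexes: amalgamation. -/
theorem cofP_nil : S.CofP T (Pre.nil K S.L) := by
  intro A B p _ _ _ y _
  refine ⟨fun i => i.elim0, ?_, fun i => i.elim0⟩
  intro q hq
  cases hq

theorem cofP_sum {G H : Pre K S.L} (hG : S.CofP T G) (hH : S.CofP T H) :
    S.CofP T (G.sum H) := by
  intro A B p hA hB hp y hy
  obtain ⟨hy1, hy2⟩ := (Pre.sum_hom _ _ B _).1 hy
  obtain ⟨x, hx, hxy⟩ := hG A B p hA hB hp _ hy1
  obtain ⟨z, hz, hzy⟩ := hH A B p hA hB hp _ hy2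
  refine ⟨Fin.append x z, (Pre.sum_hom _ _ A _).2 ⟨?_, ?_⟩, fun i => ?_⟩
  · simpa only [Fin.append_left] using hx
  · simpa only [Fin.append_right] using hz
  · refine Fin.addCases (fun i => ?_) (fun i => ?_) i
    · rw [Fin.append_left]
      exact hxy i
    · rw [Fin.append_right]
      exact hzy i

theorem cofP_one (a : S.Nd) : S.CofP T (Pre.one K (.inl a)) := by
  intro A B p hA hB hp y hy
  rw [Pre.one_hom] at hy
  obtain ⟨z, hz, hzy⟩ := hp.node a _ hy
  refine ⟨fun _ => z, (Pre.one_hom _ A _).2 hz, fun i => ?_⟩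
  rw [hzy, Subsingleton.elim i (0 : Fin 1)]

/-- A trivial fibration for more types is one for fewer types. -/
theorem CofP.mono {T' : Set S.Tp} {G : Pre K S.L} (hG : S.CofP T G) (hT : T ⊆ T') :
    S.CofP T' G :=
  fun A B p hA hB hp => hG A B p (ff_mono' hT hA) (ff_mono' hT hB) (tfib_mono' hT hp)

end Cx

end Pool.Agent.Helper13.SDW
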