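import Pool.Agent.Helper13.SDW.Cell2
import Pool.Agent.Helper13.SDW.Cx1

/-!
# BLOCK SDW-N4: every structure is covered by a cell structure over atoms (about 150 lines)

`Att D` is the direct sum of atoms, one for each element `x ∈ P_a(D)`, `a` a node. The map
`N_T[Att D; ℕ → D] → D` is given by `exists_sel` / `Nc.exists_hom` with
`R s x y := ` 'if `s.Ok`, `X_r(x)` holds, `s.c` restricted to the block satisfies `Y.Hom` and
`x + y_r(s.c) ∈ V_τ`, then `y = s.c`' (otherwise the density, `Sys.FF.exists_block`).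
Node clause: `single (a, x)`. Cell clause: `Nc.exists_cell` with `c = y'` extended by `0`.
* `Att_approx`: a finite subset of `Att D` uses finitely many atoms; `G` is a sum of atoms
  (induction on a `Finset`/list of atoms), the map `f` is `0` on the other atoms.
-/

namespace Pool.Agent.Helper13.SDW

universe u

variable {K : Type u} [Field K] {S : Sys K}

/-- The sum of atoms, one for each element of `P_a(D)`, `a` a node. -/
noncomputable def Att (D : Obj K S.L) : Obj K S.L where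
  carrier := (Σ a : S.Nd, D.P (.inl a)) →₀ K
  P := fun l => Submodule.span K {v | ∃ (a : S.Nd) (x : D.P (.inl a)) (b : S.Nd),
      l = .inl b ∧ S.Le a b ∧ v = Finsupp.single ⟨a, x⟩ 1} ⊔
    ⨆ _ : l = .inl S.root, (⊤ : Submodule K ((Σ a : S.Nd, D.P (.inl a)) →₀ K))

theorem Att_single_mem (D : Obj K S.L) (i : Σ a : S.Nd, D.P (.inl a)) {b : S.Nd}
    (h : S.Le i.1 b) : (Finsupp.single i 1 : (Σ a : S.Nd, D.P (.inl a)) →₀ K) ∈
      (Att D).P (.inl b) := by
  refine Submodule.mem_sup_left (Submodule.subset_span ?_)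
  exact ⟨i.1, i.2, b, rfl, h, rfl⟩

theorem Att_le {D : Obj K S.L} {l : S.L}
    {N : Submodule K ((Σ a : S.Nd, D.P (.inl a)) →₀ K)}
    (h1 : ∀ (i : Σ a : S.Nd, D.P (.inl a)) (b : S.Nd), l = .inl b → S.Le i.1 b →
      Finsupp.single i 1 ∈ N) (h2 : l = .inl S.root → N = ⊤) : (Att D).P l ≤ N := by
  refine sup_le (Submodule.span_le.mpr ?_) (iSup_le fun h => ?_)
  · rintro v ⟨a, x, b, rfl, hab, rfl⟩
    exact h1 ⟨a, x⟩ b rfl hab
  · exact (h2 h).ge

theorem Att_nodeOK (hr : S.par S.root = S.root) (D : Obj K S.L) : S.NodeOK (Att D) := by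
  constructor
  · exact le_antisymm le_top (le_sup_of_le_right (le_iSup_of_le rfl le_rfl))
  · intro a
    refine Att_le ?_ ?_
    · intro i b hb hib
      obtain rfl : a = b := Sum.inl_injective hb
      refine Att_single_mem D i ?_
      obtain ⟨n, hn⟩ := hib
      exact ⟨n + 1, by rw [Function.iterate_succ_apply', hn]⟩
    · intro ha
      obtain rfl : a = S.root := Sum.inl_injective ha
      rw [hr]
      exact le_antisymm le_top (le_sup_of_le_right (le_iSup_of_le rfl le_rfl))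

/-- Homs from the sum of atoms. -/
theorem Att_lift {D M : Obj K S.L} (hM : S.NodeOK M) (Λ : Set S.L)
    (g₀ : (Σ a : S.Nd, D.P (.inl a)) → M) (h : ∀ i, g₀ i ∈ M.P (.inl i.1)) :
    ∃ g : Att D →ₗ[K] M, IsHom Λ g ∧ ∀ i, g (Finsupp.single i 1) = g₀ i := by
  have h0 : ∀ i, Finsupp.linearCombination K g₀ (Finsupp.single i 1) = g₀ i := by
    intro i
    rw [Finsupp.linearCombination_single, one_smul]
  refine ⟨(Finsupp.linearCombination K g₀ : ((Σ a : S.Nd, D.P (.inl a)) →₀ K) →ₗ[K] M), ?_, h0⟩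
  intro l _ x hx
  have hle : (Att D).P l ≤ (M.P l).comap (Finsupp.linearCombination K g₀) := by
    refine Att_le ?_ ?_
    · rintro i b rfl hib
      rw [Submodule.mem_comap, h0]
      exact Obj.le_of_Le hM hib (h i)
    · rintro rfl
      rw [hM.root, Submodule.comap_top]
  exact hle hx

theorem Att_cof (T : Set S.Tp) (D : Obj K S.L) : S.Cof T (Att D) := by
  intro A B p hA _ hp f hf
  have h1 : ∀ i : Σ a : S.Nd, D.P (.inl a), ∃ x ∈ A.P (.inl i.1),
      p x = f (Finsupp.single i 1) := by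
    intro i
    refine hp.node i.1 _ (hf (.inl i.1) ?_ _ (Att_single_mem D i ⟨0, rfl⟩))
    intro τ hτ
    cases hτ
  choose g₀ hg₀ hg₁ using h1
  obtain ⟨g, hg, hg'⟩ := Att_lift hA.toNodeOK (S.lab T) g₀ hg₀
  refine ⟨g, hg, ?_⟩
  have h2 : (p.comp g : ((Σ a : S.Nd, D.P (.inl a)) →₀ K) →ₗ[K] B) = f := by
    refine Finsupp.lhom_ext' fun i => LinearMap.ext_ring ?_
    change p (g (Finsupp.single i 1)) = f (Finsupp.single i 1)
    rw [hg', hg₁]
  intro x
  exact congrArg (fun φ : ((Σ a : S.Nd, D.P (.inl a)) →₀ K) →ₗ[K] B => φ x) h2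

/-- The canonical map. -/
theorem Att_map {D : Obj K S.L} (hD : S.NodeOK D) (Λ : Set S.L) :
    ∃ f : Att D →ₗ[K] D, IsHom Λ f ∧ ∀ a (x : D.P (.inl a)), f (Finsupp.single ⟨a, x⟩ 1) = x := by
  obtain ⟨f, hf, hf'⟩ := Att_lift (D := D) hD Λ (fun i => i.2) (fun i => i.2.2)
  exact ⟨f, hf, fun a x => hf' ⟨a, x⟩⟩

/-- Formulas are preserved by homs. -/
theorem h60_S1_map {Λ : Set S.L} {M N : Obj K S.L} {f : M →ₗ[K] N} (hf : IsHom Λ f)
    {φ : Fm K S.L Unit} (hφ : ∀ q ∈ φ.c, q.1 ∈ Λ) {x : M} (hx : φ.S1 M x) : φ.S1 N (f x) := by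
  obtain ⟨z, hz, hz'⟩ := hx
  refine ⟨fun i => f (z i), ?_, ?_⟩
  · intro q hq
    rw [← map_lin]
    exact hf _ (hφ q hq) _ (hz q hq)
  · intro k
    rw [← map_lin, ← hz' k]

/-- The cell structure over atoms covers `D`. -/
theorem exists_tfib {T : Set S.Tp} (hT : S.Closed T) (hr : S.par S.root = S.root)
    {D : Obj K S.L} (hD : S.FF T D) :
    ∃ p : Nc T (Att D) (ℕ → D) →ₗ[K] D, S.TFib T p := by
  classical
  obtain ⟨f₀, hf₀, hf₀'⟩ := Att_map hD.toNodeOK (S.lab T)
  obtain ⟨f, hf, hf1, hf2⟩ := Nc.exists_hom (I := ℕ → D) hD hf₀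
    (fun s x y => s.Ok T (Att D) → s.X.S1 D x → s.Y.toPre.Hom D (fun i => s.c i) →
      x + lin (s.Y.out ()) (fun i : Fin s.Y.n => s.c i) ∈ D.P (.inr s.τ) →
      y = s.c)
    (fun s x hs hx => by
      by_cases h : s.Y.toPre.Hom D (fun i => s.c i) ∧
          x + lin (s.Y.out ()) (fun i : Fin s.Y.n => s.c i) ∈ D.P (.inr s.τ)
      · exact ⟨s.c, h.1, h.2, fun _ _ _ _ => rfl⟩
      · obtain ⟨y, hy, hy'⟩ := hD.exists_block hs.1 s.r hx
        refine ⟨fun i => if h : i < s.Y.n then y ⟨i, h⟩ else 0, ?_, ?_, ?_⟩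
        · simpa using hy
        · simpa using hy'
        · intro _ _ h3 h4
          exact absurd ⟨h3, h4⟩ h)
    (fun s x h => ⟨fun _ => 0, fun h1 h2 => absurd ⟨h1, h2⟩ h⟩)
  refine ⟨f, hf, ?_, ?_⟩
  · intro a y hy
    refine ⟨((Finsupp.single ⟨a, ⟨y, hy⟩⟩ 1 : (Σ a : S.Nd, D.P (.inl a)) →₀ K), 0), ?_, ?_⟩
    · exact Nc.inl_hom Set.univ _ trivial _ (Att_single_mem D ⟨a, ⟨y, hy⟩⟩ ⟨0, rfl⟩)
    · exact (hf1 _).trans (hf₀' a ⟨y, hy⟩)
  · intro τ hτ r x hx y' hy' hxy'
    obtain ⟨s, hs, rfl, rfl, hc, rfl⟩ := Nc.exists_cell hT hτ r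
      (fun i => if h : i < (S.Y τ r).n then y' ⟨i, h⟩ else 0) x hx
    have hX : s.X.S1 D (f s.dv) := h60_S1_map hf (hT _ hτ s.r).1 hx
    have hci : ∀ i : Fin s.Y.n, s.c i = y' i := by
      intro i
      rw [hc]
      simp
    have h1 : (fun i : Fin s.Y.n => s.c i) = y' := funext hci
    have h2 := hf2 s hs hX (by rw [h1]; exact hy') (by rw [h1]; exact hxy')
    refine ⟨s.blk, hs.hom, ?_, hs.mem⟩
    intro i
    rw [← hci i, ← h2]
    rfl

/-! ### Approximation of the sum of atoms -/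

theorem Att_supp {D : Obj K S.L} {l : S.L} {z : (Σ a : S.Nd, D.P (.inl a)) →₀ K}
    (hz : z ∈ (Att D).P l) :
    l = .inl S.root ∨ ∀ i ∈ z.support, ∃ b, l = .inl b ∧ S.Le i.1 b := by
  by_cases hl : l = .inl S.root
  · exact Or.inl hl
  right
  have hle : (Att D).P l ≤
      Finsupp.supported K K {i : Σ a : S.Nd, D.P (.inl a) | ∃ b, l = .inl b ∧ S.Le i.1 b} := by
    refine Att_le ?_ (fun h => absurd h hl)
    intro i b hb hib
    exact Finsupp.single_mem_supported K 1 ⟨b, hb, hib⟩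
  have h1 : z ∈ Finsupp.supported K K
    {i : Σ a : S.Nd, D.P (.inl a) | ∃ b, l = .inl b ∧ S.Le i.1 b} := hle hz
  rw [Finsupp.mem_supported] at h1
  intro i hi
  exact h1 hi

/-- Finite sums of atoms. -/
theorem h60_atoms (T : Set S.Tp) (D : Obj K S.L) (s : Finset (Σ a : S.Nd, D.P (.inl a))) :
    ∃ (G : Pre K S.L) (e : Fin (Pre.nil K S.L).n → Fin G.n)
      (ν : Fin G.n → Σ a : S.Nd, D.P (.inl a)), Cx T (Pre.nil K S.L) G e ∧
      Function.Injective ν ∧ (∀ j, ν j ∈ s) ∧ (∀ i ∈ s, ∃ j, ν j = i) ∧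
      (∀ j, ((.inl (ν j).1 : S.L), (Pi.single j 1 : Fin G.n → K)) ∈ G.c) ∧
      ∀ q ∈ G.c, ∃ j, q = ((.inl (ν j).1 : S.L), (Pi.single j 1 : Fin G.n → K)) := by
  classical
  induction s using Finset.induction_on with
  | empty =>
    refine ⟨Pre.nil K S.L, id, fun j => Fin.elim0 j, Cx.base, fun j => Fin.elim0 j,
      fun j => Fin.elim0 j, ?_, fun j => Fin.elim0 j, ?_⟩
    · intro i hi
      simp at hi
    · intro q hq
      simp at hq
  | insert i s hi ih =>
    obtain ⟨G, e, ν, hG, hinj, hν, hs, hc, hc'⟩ := ih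
    have e1 : ∀ j : Fin G.n, (Fin.append (Pi.single j 1 : Fin G.n → K) (fun _ => 0) :
        Fin (G.n + 1) → K) = Pi.single (Fin.castAdd 1 j) 1 := by
      intro j
      funext k
      refine Fin.addCases (fun k => ?_) (fun k => ?_) k
      · rw [Fin.append_left]
        by_cases h : k = j
        · subst h
          simp
        · have h2 : Fin.castAdd 1 k ≠ Fin.castAdd 1 j := fun h' => h (Fin.castAdd_injective _ _ h')
          rw [Pi.single_eq_of_ne h, Pi.single_eq_of_ne h2]
      · rw [Fin.append_right]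
        have h2 : Fin.natAdd G.n k ≠ Fin.castAdd 1 j := by
          intro h'
          have h3 := congrArg Fin.val h'
          simp only [Fin.val_natAdd, Fin.val_castAdd] at h3
          omega
        rw [Pi.single_eq_of_ne h2]
    have e2 : (Fin.append (fun _ : Fin G.n => (0 : K)) (fun _ : Fin 1 => (1 : K)) :
        Fin (G.n + 1) → K) = Pi.single (Fin.natAdd G.n 0) 1 := by
      funext k
      refine Fin.addCases (fun k => ?_) (fun k => ?_) k
      · rw [Fin.append_left]
        have h2 : Fin.castAdd 1 k ≠ Fin.natAdd G.n 0 := by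
          intro h'
          have h3 := congrArg Fin.val h'
          simp only [Fin.val_natAdd, Fin.val_castAdd] at h3
          omega
        rw [Pi.single_eq_of_ne h2]
      · rw [Fin.append_right]
        obtain rfl : k = 0 := Subsingleton.elim _ _
        rw [Pi.single_eq_same]
    refine ⟨G.sum (Pre.one K (.inl i.1)), _, Fin.append ν (fun _ : Fin 1 => i),
      Cx.atom i.1 hG, ?_, ?_, ?_, ?_, ?_⟩
    · intro j j' hjj
      revert hjj
      refine Fin.addCases (fun j => ?_) (fun j => ?_) j <;>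
        refine Fin.addCases (fun j' => ?_) (fun j' => ?_) j' <;>
        simp only [Fin.append_left, Fin.append_right] <;> intro hjj
      · rw [hinj hjj]
      · exact absurd (hjj ▸ hν j) hi
      · exact absurd (hjj ▸ hν j') hi
      · rw [Subsingleton.elim j j']
    · intro j
      refine Fin.addCases (fun j => ?_) (fun j => ?_) j
      · rw [Fin.append_left]
        exact Finset.mem_insert_of_mem (hν j)
      · rw [Fin.append_right]
        exact Finset.mem_insert_self _ _
    · intro i' hi'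
      rcases Finset.mem_insert.mp hi' with rfl | h
      · exact ⟨Fin.natAdd G.n 0, by rw [Fin.append_right]⟩
      · obtain ⟨j, rfl⟩ := hs i' h
        exact ⟨Fin.castAdd 1 j, by rw [Fin.append_left]⟩
    · intro j
      refine Fin.addCases (fun j => ?_) (fun j => ?_) j
      · refine Pre.mem_sum_c.2 (Or.inl ⟨_, hc j, ?_⟩)
        simp only [Fin.append_left]
        rw [← e1 j]
      · refine Pre.mem_sum_c.2 (Or.inr ⟨_, List.mem_singleton_self _, ?_⟩)
        simp only [Fin.append_right]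
        obtain rfl : j = 0 := Subsingleton.elim _ _
        rw [← e2]
    · intro q hq
      rcases Pre.mem_sum_c.1 hq with ⟨p, hp, rfl⟩ | ⟨p, hp, rfl⟩
      · obtain ⟨j, rfl⟩ := hc' p hp
        refine ⟨Fin.castAdd 1 j, ?_⟩
        simp only [Fin.append_left]
        rw [← e1 j]
      · rw [List.mem_singleton.1 hp]
        refine ⟨Fin.natAdd G.n 0, ?_⟩
        simp only [Fin.append_right]
        rw [← e2]

theorem h60_lin_single {n : ℕ} {M : Type u} [AddCommGroup M] [Module K M] (j : Fin n)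
    (x : Fin n → M) : lin (Pi.single j 1 : Fin n → K) x = x j := by
  unfold lin
  rw [Finset.sum_eq_single j]
  · rw [Pi.single_eq_same, one_smul]
  · intro i _ hij
    rw [Pi.single_eq_of_ne hij, zero_smul]
  · intro h
    exact absurd (Finset.mem_univ j) h

theorem h60_approx_aux (T : Set S.Tp) (D : Obj K S.L) {κ : Type} [Fintype κ] (l : κ → S.L)
    (z : κ → ((Σ a : S.Nd, D.P (.inl a)) →₀ K)) (hz : ∀ k, z k ∈ (Att D).P (l k)) :
    ∃ (G : Pre K S.L) (e : Fin (Pre.nil K S.L).n → Fin G.n)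
      (ν : Fin G.n → Σ a : S.Nd, D.P (.inl a)) (t : κ → Fin G.n → K),
      Cx T (Pre.nil K S.L) G e ∧ Function.Injective ν ∧
      (∀ j, ((.inl (ν j).1 : S.L), (Pi.single j 1 : Fin G.n → K)) ∈ G.c) ∧
      (∀ q ∈ G.c, ∃ j, q = ((.inl (ν j).1 : S.L), (Pi.single j 1 : Fin G.n → K))) ∧
      (∀ k, t k ∈ Pf S G (l k)) ∧
      ∀ k, ∑ j, t k j • (Finsupp.single (ν j) 1 : (Σ a : S.Nd, D.P (.inl a)) →₀ K) = z k := by
  classical
  obtain ⟨G, e, ν, hG, hinj, hν, hs, hc, hc'⟩ := h60_atoms T D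
    (Finset.univ.biUnion fun k => (z k).support)
  refine ⟨G, e, ν, fun k j => z k (ν j), hG, hinj, hc, hc', ?_, ?_⟩
  · intro k
    rcases Att_supp (hz k) with h | h
    · refine Submodule.mem_sup_right ?_
      exact (le_iSup (fun _ : l k = .inl S.root => (⊤ : Submodule K (Fin G.n → K))) h)
        Submodule.mem_top
    · have h1 : (fun j => z k (ν j)) = ∑ j, z k (ν j) • (Pi.single j 1 : Fin G.n → K) := by
        funext j
        rw [Finset.sum_apply, Finset.sum_eq_single j]
        · rw [Pi.smul_apply, Pi.single_eq_same, smul_eq_mul, mul_one]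
        · intro i _ hij
          rw [Pi.smul_apply, Pi.single_eq_of_ne (Ne.symm hij), smul_zero]
        · intro h
          exact absurd (Finset.mem_univ j) h
      change (fun j => z k (ν j)) ∈ Pf S G (l k)
      rw [h1]
      refine Submodule.sum_mem _ fun j _ => ?_
      by_cases h0 : z k (ν j) = 0
      · rw [h0, zero_smul]
        exact Submodule.zero_mem _
      · obtain ⟨b, hb, hjb⟩ := h (ν j) (Finsupp.mem_support_iff.mpr h0)
        refine Submodule.smul_mem _ _ (Submodule.mem_sup_left (Submodule.subset_span ?_))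
        exact ⟨_, hc j, rfl, Or.inr ⟨(ν j).1, b, rfl, hb, hjb⟩⟩
  · intro k
    have h1 : ∀ j, z k (ν j) • (Finsupp.single (ν j) 1 : (Σ a : S.Nd, D.P (.inl a)) →₀ K) =
        Finsupp.single (ν j) (z k (ν j)) := by
      intro j
      rw [Finsupp.smul_single, smul_eq_mul, mul_one]
    rw [Finset.sum_congr rfl fun j _ => h1 j]
    have h2 := Finset.sum_image (s := Finset.univ) (g := ν)
      (f := fun i => (Finsupp.single i (z k i) : (Σ a : S.Nd, D.P (.inl a)) →₀ K))
      (fun a _ b _ h => hinj h)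
    rw [← h2]
    refine Eq.trans ?_ (Finsupp.sum_single (z k))
    rw [Finsupp.sum]
    refine (Finset.sum_subset ?_ ?_).symm
    · intro i hi
      obtain ⟨j, rfl⟩ := hs i (Finset.mem_biUnion.mpr ⟨k, Finset.mem_univ k, hi⟩)
      exact Finset.mem_image_of_mem _ (Finset.mem_univ j)
    · intro i _ hi
      rw [Finsupp.notMem_support_iff.mp hi, Finsupp.single_zero]

theorem Att_approx (T : Set S.Tp) (D : Obj K S.L) :
    Approx T (Pre.nil K S.L) (Att D) Fin.elim0 := by
  classical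
  intro κ _ l z hl hz
  obtain ⟨G, e, ν, t, hG, hinj, hc, hc', ht, htz⟩ := h60_approx_aux T D l z hz
  refine ⟨G, e, fun j => (Finsupp.single (ν j) 1 : (Σ a : S.Nd, D.P (.inl a)) →₀ K),
    t, hG, ?_, fun i => Fin.elim0 i, ht, htz, ?_⟩
  · intro q hq
    obtain ⟨j, rfl⟩ := hc' q hq
    have h1 := h60_lin_single (K := K) j
      (fun j => (Finsupp.single (ν j) 1 : (Σ a : S.Nd, D.P (.inl a)) →₀ K))
    have h2 := Att_single_mem D (ν j) ⟨0, rfl⟩
    rw [← h1] at h2
    exact h2
  · intro D' hD' x' hx'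
    have hx2 : ∀ j, x' j ∈ D'.P (.inl (ν j).1) := by
      intro j
      have := hx' _ (hc j)
      rwa [h60_lin_single] at this
    obtain ⟨f, hf, hf'⟩ := Att_lift (D := D) hD'.toNodeOK (S.lab T)
      (fun i => if h : ∃ j, ν j = i then x' h.choose else 0) (by
        intro i
        by_cases h : ∃ j, ν j = i
        · simp only [dif_pos h]
          have h1 := hx2 h.choose
          rwa [h.choose_spec] at h1
        · simp only [dif_neg h]
          exact Submodule.zero_mem _)
    refine ⟨f, hf, fun j => ?_⟩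
    rw [hf']
    have h : ∃ j', ν j' = ν j := ⟨j, rfl⟩
    simp only [dif_pos h]
    rw [hinj h.choose_spec]

theorem obj_approx (T : Set S.Tp) (hr : S.par S.root = S.root) (G : Pre K S.L) :
    Approx T G (G.obj (S := S)) (Pre.gen G) := by
  intro κ _ l z hl hz
  refine ⟨G, id, Pre.gen G, z, Cx.base, gen_hom G, fun i => rfl, hz, fun k => lin_gen G (z k), ?_⟩
  intro D hD x' hx'
  exact obj_hom G hD.toNodeOK x' hx' (S.lab T)

end Pool.Agent.Helper13.SDW
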