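import Pool.Agent.Helper13.SDW.QDefs

/-!
# BLOCK SDW-BIG: the big structure `N` (about 150 lines)

`N = Obj.ds M` with `J = {G : Pre K S.L // S.CofP T G ∧ ∀ q ∈ G.c, q.1 ∈ S.lab T}` and
`M G = Nc T G.1.obj PUnit ∈ CC_T` (`obj_cc`). General lemmas: a direct sum of structures in `FF_T` is in `FF_T`
(formulas commute with direct sums, `IsDef.ds_iff` for `X_r`, `Y_r`; the witnesses of the density are chosen
in each component, `0` outside a finite set), and a direct sum of structures in `Cof T` is in `Cof T`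
(`Obj.ds_lift`, `Obj.ds_ext`). `gen`: `n i = Obj.ij M G (Pre.gen G i, 0)`; `f` is the composition of the projection
`Obj.pj M G` and the hom of `obj_extend`.
-/

namespace Pool.Agent.Helper13.SDW

universe u

variable {K : Type u} [Field K] {S : Sys K} {G : Set S.Tp} {Bl : S.Tp → Set S.Tp}

private theorem ds_ext_pj {L : Type u} {J : Type u} (M : J → Obj K L) {a b : Obj.ds M}
    (h : ∀ j, Obj.pj M j a = Obj.pj M j b) : a = b :=
  DFinsupp.ext (β := fun j => (M j).carrier) h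

private theorem ds_mk {L : Type u} {J : Type u} (M : J → Obj K L) (s : Finset J)
    (z : ∀ j, M j) (hz : ∀ j ∉ s, z j = 0) : ∃ Z : Obj.ds M, ∀ j, Obj.pj M j Z = z j := by
  classical
  refine ⟨∑ j ∈ s, Obj.ij M j (z j), fun j => ?_⟩
  rw [map_sum]
  by_cases hj : j ∈ s
  · rw [Finset.sum_eq_single_of_mem j hj, Obj.pj_ij]
    intro j' _ hj'
    exact Obj.pj_ij_ne M (Ne.symm hj') _
  · rw [hz j hj, Finset.sum_eq_zero]
    intro j' hj'
    exact Obj.pj_ij_ne M (fun h => hj (by rw [h]; exact hj')) _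

private theorem ij_mem {L : Type u} {J : Type u} (M : J → Obj K L) (j : J) {l : L} {x : M j}
    (hx : x ∈ (M j).P l) : Obj.ij M j x ∈ (Obj.ds M).P l := by
  classical
  rw [Obj.mem_ds]
  intro i
  by_cases h : i = j
  · subst h
    rw [Obj.pj_ij]
    exact hx
  · rw [Obj.pj_ij_ne M h]
    exact Submodule.zero_mem _

theorem ds_ff {T : Set S.Tp} (hT : S.Closed T) {J : Type u} (M : J → Obj K S.L)
    (hM : ∀ j, S.FF T (M j)) : S.FF T (Obj.ds M) := by
  classical
  refine ⟨⟨?_, ?_⟩, ?_⟩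
  · refine top_le_iff.1 fun x _ => ?_
    rw [Obj.mem_ds]
    intro j
    rw [(hM j).root]
    trivial
  · intro a x hx
    rw [Obj.mem_ds] at hx ⊢
    intro j
    exact (hM j).par a (hx j)
  · intro τ hτ r x hx
    have hX := IsDef.fm (S.X τ r) (hT τ hτ r).1
    have hY := IsDef.fm (S.Y τ r) (hT τ hτ r).2
    have h1 := (hX.ds_iff M (fun _ => x)).1 hx
    obtain ⟨s, -, hs⟩ := Obj.sum_ij_pj M x
    have h2 : ∀ j, ∃ v y : M j, v ∈ (M j).P (.inr τ) ∧ (S.Y τ r).S1 (M j) y ∧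
        Obj.pj M j x = v + y ∧ (j ∉ s → v = 0 ∧ y = 0) := by
      intro j
      by_cases hj : j ∈ s
      · obtain ⟨v, hv, y, hy, hxy⟩ := (hM j).dens τ hτ r _ (h1 j)
        exact ⟨v, y, hv, hy, hxy, fun h => absurd hj h⟩
      · refine ⟨0, 0, Submodule.zero_mem _, hY.zero_mem (M j), ?_, fun _ => ⟨rfl, rfl⟩⟩
        rw [hs j hj, add_zero]
    choose v y hv hy hxy hz using h2
    obtain ⟨V, hV⟩ := ds_mk M s v (fun j hj => (hz j hj).1)
    obtain ⟨Y, hYY⟩ := ds_mk M s y (fun j hj => (hz j hj).2)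
    refine ⟨V, ?_, Y, ?_, ?_⟩
    · rw [Obj.mem_ds]
      intro j
      rw [hV]
      exact hv j
    · refine (hY.ds_iff M (fun _ => Y)).2 fun j => ?_
      have : (fun _ : Unit => Obj.pj M j Y) = fun _ => y j := funext fun _ => hYY j
      rw [this]
      exact hy j
    · refine ds_ext_pj M fun j => ?_
      rw [map_add, hV, hYY]
      exact hxy j

theorem ds_cof {T : Set S.Tp} {J : Type u} (M : J → Obj K S.L)
    (hM : ∀ j, S.Cof T (M j)) : S.Cof T (Obj.ds M) := by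
  intro A B p hA hB hp f hf
  have h1 : ∀ j, ∃ g : M j →ₗ[K] A, IsHom (S.lab T) g ∧ ∀ x, p (g x) = f (Obj.ij M j x) := by
    intro j
    exact hM j A B p hA hB hp (f ∘ₗ Obj.ij M j) fun l hl x hx => hf l hl _ (ij_mem M j hx)
  choose g hg hpg using h1
  obtain ⟨gg, h2, h3⟩ := Obj.ds_lift M g
  refine ⟨gg, ?_, ?_⟩
  · exact h3 A LinearMap.id (S.lab T) fun j => hg j
  · intro x
    have h4 : p ∘ₗ gg = f := by
      refine Obj.ds_ext M fun j x => ?_
      rw [LinearMap.comp_apply, h2, hpg]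
    rw [← h4]
    rfl

theorem exists_big {T : Set S.Tp} (hT : S.Closed T) (hr : S.par S.root = S.root) :
    ∃ N : Obj K S.L, Big S T N := by
  let M : {G : Pre K S.L // S.CofP T G ∧ ∀ q ∈ G.c, q.1 ∈ S.lab T} → Obj K S.L :=
    fun G => Nc T (G.1.obj (S := S)) PUnit
  have hcc : ∀ j, S.CC T (M j) := fun j => obj_cc hT hr j.2.1 j.2.2
  refine ⟨Obj.ds M, ⟨⟨ds_ff hT M fun j => (hcc j).ff, ds_cof M fun j => (hcc j).cof⟩, ?_⟩⟩
  intro G hG hl
  let j : {G : Pre K S.L // S.CofP T G ∧ ∀ q ∈ G.c, q.1 ∈ S.lab T} := ⟨G, hG, hl⟩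
  let g : Fin G.n → M j := fun i => (Pre.gen (S := S) G i, 0)
  refine ⟨fun i => Obj.ij M j (g i), ?_, ?_⟩
  · intro q hq
    rw [← map_lin]
    refine ij_mem M j ?_
    have h1 := Nc.inl_hom (T := T) (M₀ := G.obj (S := S)) (I := PUnit) Set.univ q.1 trivial _
      (gen_hom G q hq)
    rw [map_lin] at h1
    exact h1
  · intro D hD x hx
    obtain ⟨f, hf, hfx⟩ := obj_extend G hD x hx PUnit
    let f' : M j →ₗ[K] D := f
    refine ⟨f' ∘ₗ Obj.pj M j, fun l hl x hx => hf l hl _ (hx j), fun i => ?_⟩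
    rw [LinearMap.comp_apply, Obj.pj_ij]
    exact hfx i

end Pool.Agent.Helper13.SDW
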