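import Pool.Agent.Helper13.SDW.Cell1

/-!
# BLOCK SDW-N1: the cell closure belongs to `FF` and relative lifting (about 150 lines)

* `Pst_nodeOK`, `Nc.nodeOK`: the conditions of a cell are closed upwards in the tree of nodes
  (`Cell.Cnd`), so `P (.inl a) ≤ P (.inl (par a))`: induction on the stage; `Le` is transitive.
* `exists_dv`: every vector of `A × (W →₀ K)` is `s.dv` for a cell `s` with given `lev, τ, r, c`
  (take `n` = size of the support, `arg` = an enumeration of the support).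
* `Nc.exists_cell`: the witnesses of `(S.X τ r).S1 N x` (finitely many conditions in
  `P l = ⨆ j, Pst j l`, directed) lie in a stage `j`; take the cell `s` of level `j` with
  `s.dv = x`. It is valid: for `f : N → B` with `PHom T (Pst j) B f` the images of the
  witnesses are witnesses for `f x`; here `Closed T` gives that the labels are in `lab T`.
* `Nc.ff`: `x = (x + y_s) - y_s`.
* `Nc.lift`: `Nc.exists_hom` with `R s x y :=` if `p x = f' s.dv` and `s.Ok` then
  `p (y i) = f' (s.v i).e` for `i < s.Y.n`, and `p (y i) = f' (s.v i).e` for all other `i`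
  (`p` is surjective by the node clause for the root). Then `p (f w.e) = f' w.e` for all `w : W`
  by induction on `w` (structural recursion: if it holds for all arguments of the cell of `w`
  then `p (f s.dv) = f' s.dv`).
-/

namespace Pool.Agent.Helper13.SDW

universe u

variable {K : Type u} [Field K] {S : Sys K}

theorem Pst_par {A I : Type u} [AddCommGroup A] [Module K A] (T : Set S.Tp)
    (Q : S.L → Submodule K A) (hQ : ∀ a, Q (.inl a) ≤ Q (.inl (S.par a)))
    (hr : S.par S.root = S.root) (j : ℕ) (a : S.Nd) :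
    Pst (I := I) T Q j (.inl a) ≤ Pst T Q j (.inl (S.par a)) := by
  induction j with
  | zero =>
    refine sup_le (le_sup_of_le_left (Submodule.map_mono (hQ a))) (iSup_le fun h => ?_)
    have ha : a = S.root := Sum.inl_injective h
    refine le_sup_of_le_right (le_iSup_of_le ?_ le_rfl)
    rw [ha, hr]
  | succ j ih =>
    refine sup_le (ih.trans le_sup_left) (le_sup_of_le_right (Submodule.span_mono ?_))
    rintro x ⟨s, hs, hv, hc⟩
    refine ⟨s, hs, hv, ?_⟩
    rcases hc with ⟨q, hq, hx, hql⟩ | ⟨h, -⟩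
    · refine Or.inl ⟨q, hq, hx, Or.inr ?_⟩
      rcases hql with h | ⟨a', b, ha', hb, hab⟩
      · exact ⟨a, S.par a, h, rfl, 1, rfl⟩
      · obtain rfl : a = b := Sum.inl_injective hb
        obtain ⟨n, hn⟩ := hab
        exact ⟨a', S.par a, ha', rfl, n + 1, by rw [Function.iterate_succ_apply', hn]⟩
    · exact absurd h (by simp)

theorem Nc.nodeOK {T : Set S.Tp} (hr : S.par S.root = S.root)
    {M₀ : Obj K S.L} (hM : S.NodeOK M₀) (I : Type u) : S.NodeOK (Nc T M₀ I) := by
  refine ⟨?_, fun a => ?_⟩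
  · refine le_antisymm le_top ?_
    have h1 : (⊤ : Submodule K (Sp S M₀ I)) ≤ Pst (I := I) T M₀.P 0 (.inl S.root) :=
      le_sup_of_le_right (le_iSup_of_le rfl le_rfl)
    exact h1.trans (le_iSup (fun j => Pst (I := I) T M₀.P j (.inl S.root)) 0)
  · exact iSup_mono fun j => Pst_par T M₀.P hM.par hr j a

theorem exists_dv13 {A I : Type u} [AddCommGroup A] [Module K A] (lev : ℕ) (τ : S.Tp) (r : Rl)
    (c : I) (x : Sp S A I) :
    ∃ (n : ℕ) (coef : Fin n → K) (arg : Fin n → W S A I),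
      (⟨lev, τ, r, x.1, n, coef, arg, c⟩ : Cell S A I).dv = x := by
  classical
  let ε : Fin x.2.support.card ≃ x.2.support := x.2.support.equivFin.symm
  refine ⟨x.2.support.card, fun i => x.2 (ε i), fun i => (ε i : W S A I), ?_⟩
  have h1 : ∑ i, x.2 (ε i) • (ε i : W S A I).e (K := K) (S := S) (A := A) (I := I) = (0, x.2) := by
    rw [Equiv.sum_comp ε (fun w : x.2.support => x.2 w • (w : W S A I).e)]
    rw [Finset.sum_coe_sort x.2.support (fun w => x.2 w • w.e)]
    have h2 : ∀ w ∈ x.2.support, x.2 w • w.e = ((0, Finsupp.single w (x.2 w)) : Sp S A I) := by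
      intro w _
      simp [W.e]
    rw [Finset.sum_congr rfl h2]
    refine Prod.ext ?_ ?_
    · rw [Prod.fst_sum]
      simp
    · rw [Prod.snd_sum]
      exact Finsupp.sum_single x.2
  rw [Cell.dv, h1]
  simp

theorem exists_dv {A I : Type u} [AddCommGroup A] [Module K A] (lev : ℕ) (τ : S.Tp) (r : Rl)
    (c : I) (x : Sp S A I) :
    ∃ s : Cell S A I, s.lev = lev ∧ s.τ = τ ∧ s.r = r ∧ s.c = c ∧ s.dv = x := by
  obtain ⟨n, coef, arg, h⟩ := exists_dv13 lev τ r c x
  exact ⟨_, rfl, rfl, rfl, rfl, h⟩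

/-- The description of the conditions of the closure. -/
theorem Nc.mem_P {T : Set S.Tp} {M₀ : Obj K S.L} {I : Type u} (l : S.L) :
    (Nc T M₀ I).P l = (M₀.P l).map (LinearMap.inl K M₀ (W S M₀ I →₀ K)) ⊔
      (⨆ _ : l = .inl S.root, (⊤ : Submodule K (Sp S M₀ I))) ⊔
      Submodule.span K {x | ∃ s : Cell S M₀ I, s.Ok T M₀ ∧ s.Cnd l x} := by
  apply le_antisymm
  · refine iSup_le fun j => ?_
    induction j with
    | zero => exact le_sup_left
    | succ j ih =>
      refine sup_le ih (le_sup_of_le_right (Submodule.span_mono ?_))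
      rintro x ⟨s, rfl, hv, hc⟩
      exact ⟨s, hv, hc⟩
  · refine sup_le (le_iSup (fun j => Pst (I := I) T M₀.P j l) 0) (Submodule.span_le.mpr ?_)
    rintro x ⟨s, hs, hc⟩
    have h1 : x ∈ Pst (I := I) T M₀.P (s.lev + 1) l :=
      Submodule.mem_sup_right (Submodule.subset_span ⟨s, rfl, hs, hc⟩)
    exact (le_iSup (fun j => Pst (I := I) T M₀.P j l) (s.lev + 1)) h1

theorem Nc.inl_hom {T : Set S.Tp} {M₀ : Obj K S.L} {I : Type u} (Λ : Set S.L) :
    IsHom Λ (M := M₀) (N := Nc T M₀ I) (LinearMap.inl K M₀ (W S M₀ I →₀ K)) := by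
  intro l _ x hx
  have h1 : (LinearMap.inl K M₀ (W S M₀ I →₀ K)) x ∈ Pst (I := I) T M₀.P 0 l :=
    Submodule.mem_sup_left (Submodule.mem_map_of_mem hx)
  exact (le_iSup (fun j => Pst (I := I) T M₀.P j l) 0) h1

/-- Finitely many conditions hold at one stage. -/
theorem exists_stage13 {T : Set S.Tp} {M₀ : Obj K S.L} {I : Type u} {n : ℕ}
    (c : List (S.L × (Fin n → K))) (z : Fin n → Nc T M₀ I)
    (hz : ∀ q ∈ c, lin q.2 z ∈ (Nc T M₀ I).P q.1) :
    ∃ j, ∀ q ∈ c, (lin q.2 z : Sp S M₀ I) ∈ Pst (I := I) T M₀.P j q.1 := by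
  induction c with
  | nil => exact ⟨0, fun q hq => absurd hq (by simp)⟩
  | cons a c ih =>
    obtain ⟨j, hj⟩ := ih fun q hq => hz q (List.mem_cons_of_mem _ hq)
    have h1 := hz a List.mem_cons_self
    have h2 : (lin a.2 z : Sp S M₀ I) ∈ ⨆ j, Pst (I := I) T M₀.P j a.1 := h1
    rw [Submodule.mem_iSup_of_directed _ ((Pst_mono T M₀.P a.1).directed_le)] at h2
    obtain ⟨j', hj'⟩ := h2
    refine ⟨max j j', fun q hq => ?_⟩
    rcases List.mem_cons.mp hq with rfl | hq
    · exact Pst_mono T M₀.P q.1 (le_max_right j j') hj'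
    · exact Pst_mono T M₀.P q.1 (le_max_left j j') (hj q hq)

/-- Cells over a given vector. -/
theorem Nc.exists_cell {T : Set S.Tp} (hT : S.Closed T) {M₀ : Obj K S.L} {I : Type u}
    {τ : S.Tp} (hτ : τ ∈ T) (r : Rl) (c : I) (x : Nc T M₀ I)
    (hx : (S.X τ r).S1 (Nc T M₀ I) x) :
    ∃ s : Cell S M₀ I, s.Ok T M₀ ∧ s.τ = τ ∧ s.r = r ∧ s.c = c ∧ s.dv = x := by
  obtain ⟨z, hz, hzx⟩ := hx
  obtain ⟨J, hJ⟩ := exists_stage13 _ z hz
  obtain ⟨n, coef, arg, h⟩ := exists_dv13 J τ r c x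
  refine ⟨_, ⟨hτ, fun B f hB hf => ?_⟩, rfl, rfl, rfl, h⟩
  refine ⟨fun i => f (z i), fun q hq => ?_, fun k => ?_⟩
  · rw [← map_lin]
    exact hf q.1 ((hT τ hτ r).1 q hq) _ (hJ q hq)
  · rw [h, ← map_lin]
    exact congrArg f (hzx k)

/-- The block of a valid cell satisfies its conditions. -/
theorem Cell.Ok.hom {T : Set S.Tp} {M₀ : Obj K S.L} {I : Type u} {s : Cell S M₀ I}
    (hs : s.Ok T M₀) : s.Y.toPre.Hom (Nc T M₀ I) s.blk := by
  intro q hq
  rw [Nc.mem_P]
  exact Submodule.mem_sup_right (Submodule.subset_span ⟨s, hs, Or.inl ⟨q, hq, rfl, Or.inl rfl⟩⟩)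

theorem Cell.Ok.mem {T : Set S.Tp} {M₀ : Obj K S.L} {I : Type u} {s : Cell S M₀ I}
    (hs : s.Ok T M₀) : s.dv + s.yv ∈ (Nc T M₀ I).P (.inr s.τ) := by
  rw [Nc.mem_P]
  exact Submodule.mem_sup_right (Submodule.subset_span ⟨s, hs, Or.inr ⟨rfl, rfl⟩⟩)

theorem Nc.ff {T : Set S.Tp} (hT : S.Closed T) (hr : S.par S.root = S.root)
    {M₀ : Obj K S.L} (hM : S.NodeOK M₀) (I : Type u) [Nonempty I] : S.FF T (Nc T M₀ I) := by
  refine ⟨Nc.nodeOK hr hM I, fun τ hτ r x hx => ?_⟩
  obtain ⟨s, hs, rfl, rfl, -, rfl⟩ := Nc.exists_cell hT hτ r (Classical.arbitrary I) x hx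
  refine ⟨s.dv + s.yv, hs.mem, -s.yv, ⟨fun i => -s.blk i, fun q hq => ?_, fun k => ?_⟩, ?_⟩
  · have h1 : lin q.2 (fun i => -s.blk i) = -lin q.2 s.blk := by simp [lin]
    rw [h1]
    exact ((Nc T M₀ I).P q.1).neg_mem (hs.hom q hq)
  · simp [lin, Cell.yv]
  · simp

/-- Relative lifting along trivial fibrations. (`Closed T` is needed for the conditions of `Y`.) -/
theorem Nc.lift {T : Set S.Tp} (hT : S.Closed T) {M₀ : Obj K S.L} {I : Type u}
    {A B : Obj K S.L}
    {p : A →ₗ[K] B} (hA : S.FF T A) (hB : S.FF T B) (hp : S.TFib T p)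
    {f' : Nc T M₀ I →ₗ[K] B} (hf' : IsHom (S.lab T) f') {f₀ : M₀ →ₗ[K] A}
    (hf₀ : IsHom (S.lab T) f₀) (h : ∀ m : M₀, p (f₀ m) = f' (m, 0)) :
    ∃ f : Nc T M₀ I →ₗ[K] A, IsHom (S.lab T) f ∧ (∀ m : M₀, f (m, 0) = f₀ m) ∧
      ∀ x, p (f x) = f' x := by
  have hsurj : ∀ y : B, ∃ x : A, p x = y := by
    intro y
    obtain ⟨x, -, hx⟩ := hp.node S.root y (by rw [hB.root]; exact Submodule.mem_top)
    exact ⟨x, hx⟩
  choose g hg using hsurj
  obtain ⟨f, hf, hfm, hfs⟩ := Nc.exists_hom (I := I) hA hf₀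
    (fun s x y => p x = f' s.dv → ∀ i : ℕ, p (y i) = f' (s.v i).e)
    (fun s x hs hx => by
      by_cases hpx : p x = f' s.dv
      · obtain ⟨y, hy, hyp, hym⟩ := hp.cell s.τ hs.1 s.r x hx (fun i => f' (s.blk i))
          (fun q hq => by
            rw [← map_lin]
            exact hf' q.1 ((hT s.τ hs.1 s.r).2 q hq) _ (hs.hom q hq))
          (by
            rw [hpx, ← map_lin, ← map_add]
            exact hf' _ (fun τ hτ => by obtain rfl := Sum.inr_injective hτ; exact hs.1) _ hs.mem)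
        refine ⟨fun i => if h : i < s.Y.n then y ⟨i, h⟩ else g (f' (s.v i).e), ?_, ?_, ?_⟩
        · simpa using hy
        · simpa using hym
        · intro _ i
          by_cases hi : i < s.Y.n
          · simp only [hi, dif_pos]
            rw [hyp]
            rfl
          · simp only [hi, dif_neg, not_false_eq_true]
            exact hg _
      · obtain ⟨y, hy, hy'⟩ := hA.exists_block hs.1 s.r hx
        refine ⟨fun i => if h : i < s.Y.n then y ⟨i, h⟩ else 0, ?_, ?_, fun hc => absurd hc hpx⟩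
        · simpa using hy
        · simpa using hy')
    (fun s _ _ => ⟨fun i => g (f' (s.v i).e), fun _ i => hg _⟩)
  refine ⟨f, hf, hfm, ?_⟩
  have key : ∀ w : W S M₀ I, p (f w.e) = f' w.e := by
    intro w
    induction w with
    | mk lev τ r m n coef arg c idx ih =>
      have h1 := hfs ⟨lev, τ, r, m, n, coef, arg, c⟩
      have h2 : p (f (⟨lev, τ, r, m, n, coef, arg, c⟩ : Cell S M₀ I).dv) =
          f' (⟨lev, τ, r, m, n, coef, arg, c⟩ : Cell S M₀ I).dv := by
        rw [Cell.dv, map_add, map_add, map_add, hfm, h, map_sum, map_sum, map_sum]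
        congr 1
        refine Finset.sum_congr rfl fun k _ => ?_
        rw [map_smul, map_smul, map_smul, ih]
      exact h1 h2 idx
  intro x
  have h3 : p ∘ₗ f = f' := by
    apply LinearMap.prod_ext
    · ext m
      change p (f (m, 0)) = f' (m, 0)
      rw [hfm, h]
    · apply Finsupp.lhom_ext'
      intro w
      ext
      exact key w
  exact LinearMap.congr_fun h3 x

theorem Nc.cc {T : Set S.Tp} (hT : S.Closed T) (hr : S.par S.root = S.root)
    {M₀ : Obj K S.L} (hM : S.NodeOK M₀) (hc : S.Cof T M₀) (I : Type u) [Nonempty I] :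
    S.CC T (Nc T M₀ I) := by
  refine ⟨Nc.ff hT hr hM I, fun A B p hA hB hp f' hf' => ?_⟩
  obtain ⟨g, hg, hpg⟩ := hc A B p hA hB hp (f' ∘ₗ LinearMap.inl K M₀ (W S M₀ I →₀ K))
    (fun l hl x hx => hf' l hl _ (Nc.inl_hom (T := T) (I := I) (S.lab T) l hl x hx))
  obtain ⟨f, hf, -, hpf⟩ := Nc.lift hT hA hB hp hf' hg fun m => hpg m
  exact ⟨f, hf, hpf⟩

end Pool.Agent.Helper13.SDW
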