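import Pool.Agent.Helper13.SDW.Defs

/-!
# The cell closure `N_T[M₀; I]` (definitions)

`W S A I` is the type of the variables of all cells over a base space `A` with copies in `I`.
`Cell S A I` is the type of cells. The space of the closure is `A × (W S A I →₀ K)`.
-/

namespace Pool.Agent.Helper13.SDW

universe u

/-- Variables: `mk lev τ r m n coef arg c idx` is the variable number `idx` of the block of the cell
of level `lev` for the rule `r` of the type `τ` over the vector `m + ∑ coef_i arg_i`, copy `c`. -/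
inductive W {K : Type u} [Field K] (S : Sys K) (A I : Type u) : Type u
  | mk (lev : ℕ) (τ : S.Tp) (r : Rl) (m : A) (n : ℕ) (coef : Fin n → K) (arg : Fin n → W S A I)
    (c : I) (idx : ℕ) : W S A I

/-- Cells. -/
structure Cell {K : Type u} [Field K] (S : Sys K) (A I : Type u) : Type u where
  lev : ℕ
  τ : S.Tp
  r : Rl
  m : A
  n : ℕ
  coef : Fin n → K
  arg : Fin n → W S A I
  c : I

section

variable {K : Type u} [Field K] {S : Sys K} {A I : Type u}

/-- The cell of a variable. -/
def W.cell : W S A I → Cell S A I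
  | .mk lev τ r m n coef arg c _ => ⟨lev, τ, r, m, n, coef, arg, c⟩

/-- The number of a variable in its block. -/
def W.idx : W S A I → ℕ
  | .mk _ _ _ _ _ _ _ _ i => i

/-- The variable of a cell with a given number. -/
def Cell.v (s : Cell S A I) (i : ℕ) : W S A I :=
  .mk s.lev s.τ s.r s.m s.n s.coef s.arg s.c i

/-- The depth of a variable. -/
def W.depth : W S A I → ℕ
  | .mk _ _ _ _ _ _ arg _ _ => 1 + Finset.univ.sup fun i => (arg i).depth

/-- The depth of a cell. -/
def Cell.depth (s : Cell S A I) : ℕ := 1 + Finset.univ.sup fun i => (s.arg i).depth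

/-- The first formula of the rule of the cell. -/
abbrev Cell.X (s : Cell S A I) : Fm K S.L Unit := S.X s.τ s.r

/-- The second formula of the rule of the cell. -/
abbrev Cell.Y (s : Cell S A I) : Fm K S.L Unit := S.Y s.τ s.r

variable [AddCommGroup A] [Module K A]

/-- The space of the closure. -/
abbrev Sp (S : Sys K) (A I : Type u) [AddCommGroup A] [Module K A] : Type u :=
  A × (W S A I →₀ K)

/-- The basis vector of a variable. -/
noncomputable def W.e (w : W S A I) : Sp S A I := (0, Finsupp.single w 1)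

/-- The vector `d_s` of a cell. -/
noncomputable def Cell.dv (s : Cell S A I) : Sp S A I :=
  (s.m, 0) + ∑ i, s.coef i • (s.arg i).e

/-- The block of a cell. -/
noncomputable def Cell.blk (s : Cell S A I) (i : Fin s.Y.n) : Sp S A I := (s.v i).e

/-- The vector `y_s` of a cell. -/
noncomputable def Cell.yv (s : Cell S A I) : Sp S A I := lin (s.Y.out ()) s.blk

/-- The conditions of a cell: those of the presentation of `Y` in the block, closed upwards in the
tree of nodes, and `d_s + y_s ∈ V`. -/
def Cell.Cnd (s : Cell S A I) (l : S.L) (x : Sp S A I) : Prop :=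
  (∃ q ∈ s.Y.c, x = lin q.2 s.blk ∧ (q.1 = l ∨ ∃ a b, q.1 = .inl a ∧ l = .inl b ∧ S.Le a b)) ∨
    (l = .inr s.τ ∧ x = s.dv + s.yv)

/-- A linear map preserves the conditions `P` (for the labels over `T`). -/
def PHom (T : Set S.Tp) (P : S.L → Submodule K (Sp S A I)) (B : Obj K S.L)
    (f : Sp S A I →ₗ[K] B) : Prop :=
  ∀ l ∈ S.lab T, ∀ x ∈ P l, f x ∈ B.P l

/-- Validity of a cell for the conditions `P`. -/
def Cell.Valid (T : Set S.Tp) (P : S.L → Submodule K (Sp S A I)) (s : Cell S A I) : Prop :=
  s.τ ∈ T ∧ ∀ (B : Obj K S.L) (f : Sp S A I →ₗ[K] B), S.FF T B → PHom T P B f →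
    s.X.S1 B (f s.dv)

/-- The conditions at stage `j`. -/
noncomputable def Pst (T : Set S.Tp) (Q : S.L → Submodule K A) :
    ℕ → S.L → Submodule K (Sp S A I)
  | 0 => fun l => (Q l).map (LinearMap.inl K A (W S A I →₀ K)) ⊔
      ⨆ _ : l = .inl S.root, (⊤ : Submodule K (Sp S A I))
  | j + 1 => fun l => Pst T Q j l ⊔
      Submodule.span K {x | ∃ s : Cell S A I, s.lev = j ∧ s.Valid T (Pst T Q j) ∧ s.Cnd l x}

/-- The cell closure of `M₀` with copies in `I`. -/
noncomputable abbrev Nc (T : Set S.Tp) (M₀ : Obj K S.L) (I : Type u) : Obj K S.L where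
  carrier := Sp S M₀ I
  P := fun l => ⨆ j, Pst (I := I) T M₀.P j l

/-- Valid cells of the closure. -/
def Cell.Ok (T : Set S.Tp) (M₀ : Obj K S.L) {I : Type u} (s : Cell S M₀ I) : Prop :=
  s.Valid T (Pst T M₀.P s.lev)

/-- A selector: admissible values for all cells. -/
structure Sel (T : Set S.Tp) (M₀ : Obj K S.L) (I : Type u) (B : Obj K S.L) where
  val : Cell S M₀ I → B → ℕ → B
  hom : ∀ s : Cell S M₀ I, s.Ok T M₀ → ∀ x : B, s.X.S1 B x →
    s.Y.toPre.Hom B (fun i => val s x i)
  mem : ∀ s : Cell S M₀ I, s.Ok T M₀ → ∀ x : B, s.X.S1 B x →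
    x + lin (s.Y.out ()) (fun i : Fin s.Y.n => val s x i) ∈ B.P (.inr s.τ)

/-- The values on the variables which are determined by `val`. -/
noncomputable def wv {B : Obj K S.L} (val : Cell S A I → B → ℕ → B) (f₀ : A →ₗ[K] B) :
    W S A I → B
  | .mk lev τ r m n coef arg c i =>
      val ⟨lev, τ, r, m, n, coef, arg, c⟩ (f₀ m + ∑ k, coef k • wv val f₀ (arg k)) i

/-- The linear map which is determined by `val`. -/
noncomputable def vmap {B : Obj K S.L} (val : Cell S A I → B → ℕ → B) (f₀ : A →ₗ[K] B) :
    Sp S A I →ₗ[K] B :=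
  LinearMap.coprod f₀ (Finsupp.lift B K (W S A I) (wv val f₀))

end

end Pool.Agent.Helper13.SDW
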