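import Pool.Agent.Helper13.SDW.GDefs

/-!
# BLOCK SDW-DICH: the dichotomy for `T` (about 200 lines)

`W` over `T`, `W ≤ V_s` in `CC_T`. By niceness and `cofP_cx` (with `κ = Unit`, `l = .inr s`) there are a complex
`G` (`Cx T nil G e`) and `t ∈ Pf S G (.inr s)` with `W = {t(x) : x ∈ G.Hom M}` for `M ∈ CC_T`.
Claim, by induction on `Cx T nil G e`, for all `t ∈ Pf S G (.inr s)`: `[G, t] = {t(x) : x ∈ G.Hom M}` is
small or large in `CC_T`.
* `base`: `t = 0` (`Pf_eq_zero`), small: `E_0` contains `0` (`IsDef.zero_mem`).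
* `atom`: `Pf_atom`; `[G.sum one, t] = [G, t₀]` in all structures (extend by `0`).
* `cell σ r d`: `Pf_cell`: `t = Fin.append (v₀ + c • d) (v₁ + c • out)`, `c = 0` if `s ≠ σ`.
  Suppose `[G.cell, t]` is not large. Write `a := v₁ + c • out`, the value of `t` at `(0, y')`; for
  `M ∈ CC_T` and `y' ∈ (S.Y σ r).Hom M` with `y_r(y') ∈ V_σ(M)` the tuple `(0, y')` is in `(G.cell σ r d).Hom M`, so
  `a(y') ∈ [G.cell, t]`.
  (i) `s = σ`: `v₁ = 0` (labels of `Y` in `lab (B σ)`, `σ ∉ B σ`). If `c ≠ 0` and `rule r` gives `A_m ≤ Y_r`: for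
      `x ∈ V_s ∩ A_m`: `x = y_r(y')`, and `c • x ∈ [G.cell, t]`, so `V_s ∩ A_m ≤ [G.cell, t]`: large,
      contradiction. So `c = 0` or `X_r, Y_r ≤ E_l`: the value of `c • (d + out)` at every
      `x ∈ (G.cell).Hom M` is in `E_l(M)` (`X_r (d(x))` by the validity of the cell).
  (ii) `s ≠ σ`, `c = 0`: if `v₁ = 0` nothing to do. If `v₁ ≠ 0` then `s ∈ B σ` (`Pf_eq_zero`, labels of `Y_r` in
      `lab (B σ)`), `W1 σ r v₁ ≤ [G.cell, t]` in `CC_T`, so `W1` is not large, and by `hKey` `W2 σ r v₁` is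
      small: the value of `Fin.append 0 v₁` at every `x ∈ (G.cell).Hom M` is in some `E_l`.
  In all cases `t = Fin.append v₀ 0 + t'` with `t'(x) ∈ E_l(M)` for `x ∈ (G.cell).Hom M`, `M ∈ CC_T`. Then
  `[G, v₀] ≤ [G.cell, t] + E_l` (extend `x ∈ G.Hom M` by density), so `[G, v₀]` is not large (`mono`: `E_l + E_l'` is in
  `E_{max}`), by induction small: `≤ E_l'`; and `[G.cell, t] ≤ [G, v₀] + E_l ≤ E_{max l l'}`.
-/

namespace Pool.Agent.Helper13.SDW

universe u

variable {K : Type u} [Field K] {S : Sys K} {G : Set S.Tp} {B : S.Tp → Set S.Tp}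

section aux

variable {s : S.Tp} {A E : ℕ → SF1 K S.L}

private theorem h30_zero (hE : EFam S B s A E) (l : ℕ) (M : Obj K S.L) : E l M 0 :=
  (hE.defE l).zero_mem M

private theorem h30_add (hE : EFam S B s A E) {l : ℕ} {M : Obj K S.L} {x y : M}
    (hx : E l M x) (hy : E l M y) : E l M (x + y) :=
  (hE.defE l).add_mem (y := fun _ => x) (z := fun _ => y) hx hy

private theorem h30_smul (hE : EFam S B s A E) {l : ℕ} {M : Obj K S.L} (a : K) {x : M}
    (hx : E l M x) : E l M (a • x) :=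
  (hE.defE l).smul_mem (y := fun _ => x) a hx

/-- `W ≤ W' + E_l` in `CC_T`. -/
private def H30Le (T : Set S.Tp) (E : ℕ → SF1 K S.L) (l : ℕ) (W W' : SF1 K S.L) : Prop :=
  ∀ M : Obj K S.L, S.CC T M → ∀ w, W M w → ∃ w' z, W' M w' ∧ E l M z ∧ w = w' + z

/-- The image of a linear form on a presentation. -/
private def H30Im (P : Pre K S.L) (t : Fin P.n → K) : SF1 K S.L := fun M w =>
  ∃ x : Fin P.n → M, P.Hom M x ∧ w = lin t x

private theorem h30_small (hE : EFam S B s A E) {T : Set S.Tp} (hB : B s ⊆ T) {l : ℕ}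
    {W W' : SF1 K S.L} (hle : H30Le T E l W W') (hW : S.Small T E W') : S.Small T E W := by
  obtain ⟨l', hl'⟩ := hW
  refine ⟨max l l', fun M hM w hw => ?_⟩
  obtain ⟨w', z, hw', hz, rfl⟩ := hle M hM w hw
  have hF := hM.ff.mono hB
  exact h30_add hE (hE.mono l' _ (le_max_right _ _) M hF _ (hl' M hM _ hw'))
    (hE.mono l _ (le_max_left _ _) M hF _ hz)

private theorem h30_large (hE : EFam S B s A E) {T : Set S.Tp} (hB : B s ⊆ T) {l : ℕ}
    {W W' : SF1 K S.L} (hle : H30Le T E l W W') (hW : S.Large T s A E W) :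
    S.Large T s A E W' := by
  obtain ⟨m, l', hl'⟩ := hW
  refine ⟨m, max l l', fun M hM x hx hA => ?_⟩
  obtain ⟨w, z, hw, hz, rfl⟩ := hl' M hM x hx hA
  obtain ⟨w', z', hw', hz', rfl⟩ := hle M hM w hw
  have hF := hM.ff.mono hB
  refine ⟨w', z' + z, hw', h30_add hE (hE.mono l _ (le_max_left _ _) M hF _ hz')
    (hE.mono l' _ (le_max_right _ _) M hF _ hz), add_assoc _ _ _⟩

private theorem h30_dich (hE : EFam S B s A E) {T : Set S.Tp} (hB : B s ⊆ T) {l : ℕ}
    {W W' : SF1 K S.L} (hle : H30Le T E l W W') (hle' : H30Le T E l W' W)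
    (hW : S.Small T E W ∨ S.Large T s A E W) : S.Small T E W' ∨ S.Large T s A E W' :=
  hW.imp (h30_small hE hB hle') (h30_large hE hB hle)

private theorem h30_lin_smul {P : Pre K S.L} {M : Obj K S.L} (a : K) {x : Fin P.n → M}
    (hx : P.Hom M x) : P.Hom M (fun i => a • x i) := by
  intro q hq
  rw [lin_smul]
  exact (M.P q.1).smul_mem a (hx q hq)

private theorem h30_hom_zero (P : Pre K S.L) (M : Obj K S.L) : P.Hom M (fun _ => 0) := by
  intro q _
  rw [lin_zero]
  exact Submodule.zero_mem _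

end aux

/-- The hom of a cell. -/
private theorem h30_cell_hom {P : Pre K S.L} {τ : S.Tp} {r : Rl} {d : Fin P.n → K} {M : Obj K S.L}
    (x : Fin (P.cell τ r d).n → M) :
    (P.cell τ r d).Hom M x ↔ P.Hom M (fun i => x (Fin.castAdd (S.Y τ r).n i)) ∧
      (S.Y τ r).toPre.Hom M (fun i => x (Fin.natAdd P.n i)) ∧
      lin d (fun i => x (Fin.castAdd (S.Y τ r).n i)) +
        lin ((S.Y τ r).out ()) (fun i => x (Fin.natAdd P.n i)) ∈ M.P (.inr τ) := by
  rw [Pre.addc_hom, Pre.sum_hom, lin_append, and_assoc]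

private theorem h30_cell_mk {P : Pre K S.L} {τ : S.Tp} {r : Rl} {d : Fin P.n → K} {M : Obj K S.L}
    {x : Fin P.n → M} {y : Fin (S.Y τ r).n → M} (hx : P.Hom M x)
    (hy : (S.Y τ r).toPre.Hom M y) (hxy : lin d x + lin ((S.Y τ r).out ()) y ∈ M.P (.inr τ)) :
    (P.cell τ r d).Hom M (Fin.append x y) := by
  rw [h30_cell_hom]
  simp only [Fin.append_left, Fin.append_right]
  exact ⟨hx, hy, hxy⟩

private theorem h30_lin_cell {P : Pre K S.L} {τ : S.Tp} {r : Rl} {d : Fin P.n → K} {M : Obj K S.L}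
    (v₀ : Fin P.n → K) (v₁ : Fin (S.Y τ r).n → K) (c : K) (x : Fin (P.n + (S.Y τ r).n) → M) :
    lin (Fin.append (v₀ + c • d) (v₁ + c • (S.Y τ r).out ())) x =
      lin v₀ (fun i => x (Fin.castAdd (S.Y τ r).n i)) +
        (c • (lin d (fun i => x (Fin.castAdd (S.Y τ r).n i)) +
          lin ((S.Y τ r).out ()) (fun i => x (Fin.natAdd P.n i))) +
          lin v₁ (fun i => x (Fin.natAdd P.n i))) := by
  rw [lin_append, lin_add_left, lin_add_left, lin_smul_left, lin_smul_left, smul_add]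
  abel

private theorem h30_cx (h : S.OK G B) {T : Set S.Tp} (hT : S.Down G B T)
    {s : S.Tp} (hs : s ∈ T) {A E : ℕ → SF1 K S.L} (hE : EFam S B s A E)
    (hKey : ∀ σ ∈ T, s ∈ B σ → ∀ r, ∀ a ∈ Pf S (S.Y σ r).toPre (.inr s),
      ¬ S.Large T s A E (W1 S σ r a) → S.Small T E (W2 S σ r a))
    {P : Pre K S.L} {e : Fin (Pre.nil K S.L).n → Fin P.n} (hcx : Cx T (Pre.nil K S.L) P e) :
    ∀ t ∈ Pf S P (.inr s), S.Small T E (H30Im P t) ∨ S.Large T s A E (H30Im P t) := by
  have hB : B s ⊆ T := hT.2 s hs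
  induction hcx with
  | base =>
    intro t ht
    refine Or.inl ⟨0, ?_⟩
    rintro M hM w ⟨x, -, rfl⟩
    have h1 : lin t x = 0 := Finset.sum_eq_zero fun i _ => Fin.elim0 i
    rw [h1]
    exact h30_zero hE 0 M
  | @atom P e a _ ih =>
    intro t ht
    obtain ⟨v₀, hv₀, rfl⟩ := Pf_atom ht
    refine h30_dich hE hB (l := 0) ?_ ?_ (ih v₀ hv₀)
    · rintro M hM w ⟨x, hx, rfl⟩
      refine ⟨lin v₀ x, 0, ⟨Fin.append x (fun _ => 0), ?_, ?_⟩, h30_zero hE 0 M,
        (add_zero _).symm⟩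
      · rw [Pre.sum_hom]
        refine ⟨?_, ?_⟩
        · simpa only [Fin.append_left] using hx
        · rw [Pre.one_hom]
          have h1 : (Fin.append x (fun _ : Fin 1 => (0 : M))) (Fin.natAdd P.n (0 : Fin 1)) = 0 :=
            Fin.append_right _ _ _
          change (Fin.append x (fun _ : Fin 1 => (0 : M))) (Fin.natAdd P.n (0 : Fin 1)) ∈ _
          rw [h1]
          exact Submodule.zero_mem _
      · rw [lin_append, lin_zero_left, add_zero]
        simp only [Fin.append_left]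
    · rintro M hM w ⟨x, hx, rfl⟩
      rw [Pre.sum_hom] at hx
      refine ⟨_, 0, ⟨_, hx.1, rfl⟩, h30_zero hE 0 M, ?_⟩
      rw [lin_append, lin_zero_left]
  | @cell P e σ r d _ hσ hv ih =>
    intro t ht
    obtain ⟨v₀, v₁, c, hv₀, hv₁, hc, rfl⟩ := Pf_cell ht
    -- the general step
    have step : (∃ l, ∀ M : Obj K S.L, S.CC T M → ∀ (x : Fin P.n → M) (y : Fin (S.Y σ r).n → M),
        P.Hom M x → (S.Y σ r).toPre.Hom M y →
        E l M (c • (lin d x + lin ((S.Y σ r).out ()) y) + lin v₁ y)) →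
        S.Small T E (H30Im (P.cell σ r d)
          (Fin.append (v₀ + c • d) (v₁ + c • (S.Y σ r).out ()))) ∨
        S.Large T s A E (H30Im (P.cell σ r d)
          (Fin.append (v₀ + c • d) (v₁ + c • (S.Y σ r).out ()))) := by
      rintro ⟨l, hl⟩
      refine h30_dich hE hB (l := l) ?_ ?_ (ih v₀ hv₀)
      · rintro M hM w ⟨x, hx, rfl⟩
        obtain ⟨y, hy, hxy⟩ := hM.ff.exists_block hσ r (hv M hM.ff x hx)
        refine ⟨_, (-1 : K) • (c • (lin d x + lin ((S.Y σ r).out ()) y) + lin v₁ y),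
          ⟨Fin.append x y, h30_cell_mk hx hy hxy, rfl⟩, h30_smul hE _ (hl M hM x y hx hy), ?_⟩
        rw [h30_lin_cell]
        simp only [Fin.append_left, Fin.append_right]
        rw [neg_one_smul]
        abel
      · rintro M hM w ⟨x, hx, rfl⟩
        rw [h30_cell_hom] at hx
        exact ⟨_, _, ⟨_, hx.1, rfl⟩, hl M hM _ _ hx.1 hx.2.1, h30_lin_cell _ _ _ _⟩
    rcases eq_or_ne s σ with rfl | hne
    · -- `s = σ`
      have h1 : v₁ = 0 := by
        refine Pf_eq_zero (fun q hq hqs => ?_) hv₁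
        have h2 := h.labY (hT.1 hs) r q hq s hqs
        exact h.not_mem_B (hT.1 hs) h2
      subst h1
      by_cases hc0 : c = 0
      · refine step ⟨0, fun M hM x y hx hy => ?_⟩
        have h2 : c • (lin d x + lin ((S.Y s r).out ()) y) + lin (0 : Fin (S.Y s r).n → K) y =
            0 := by
          rw [hc0, zero_smul, zero_add]
          exact lin_zero_left y
        rw [h2]
        exact h30_zero hE 0 M
      · rcases hE.rule r with ⟨l, hX, hY⟩ | ⟨m, hm⟩
        · refine step ⟨l, fun M hM x y hx hy => ?_⟩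
          have h2 : lin (0 : Fin (S.Y s r).n → K) y = 0 := lin_zero_left y
          rw [h2, add_zero]
          have hF := hM.ff.mono hB
          exact h30_smul hE _ (h30_add hE (hX M hF _ (hv M hM.ff x hx))
            (hY M hF _ ⟨y, hy, fun _ => rfl⟩))
        · refine Or.inr ⟨m, 0, fun M hM x hx hA => ?_⟩
          obtain ⟨y, hy, hxy⟩ := hm M (hM.ff.mono hB) x hA
          have hxy' : x = lin ((S.Y s r).out ()) y := hxy ()
          refine ⟨x, 0, ⟨Fin.append (fun _ => 0) (fun i => c⁻¹ • y i),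
            h30_cell_mk (h30_hom_zero P M) (h30_lin_smul _ hy) ?_, ?_⟩, h30_zero hE 0 M,
            (add_zero _).symm⟩
          · rw [lin_zero, zero_add, lin_smul, ← hxy']
            exact Submodule.smul_mem _ _ hx
          · rw [h30_lin_cell]
            simp only [Fin.append_left, Fin.append_right]
            rw [lin_zero, lin_zero, lin_smul, lin_smul, ← hxy']
            have h2 : lin (0 : Fin (S.Y s r).n → K) y = 0 := lin_zero_left y
            rw [h2, smul_zero, add_zero, zero_add, zero_add, smul_smul, mul_inv_cancel₀ hc0,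
              one_smul]
    · -- `s ≠ σ`
      have hc0 : c = 0 := hc hne
      subst hc0
      by_cases hsB : s ∈ B σ
      · by_cases hL : S.Large T s A E (W1 S σ r v₁)
        · refine Or.inr (h30_large hE hB (l := 0) ?_ hL)
          rintro M hM w ⟨y, hy, hyV, rfl⟩
          refine ⟨lin v₁ y, 0, ⟨Fin.append (fun _ => 0) y,
            h30_cell_mk (h30_hom_zero P M) hy ?_, ?_⟩, h30_zero hE 0 M, (add_zero _).symm⟩
          · rw [lin_zero, zero_add]
            exact hyV
          · rw [h30_lin_cell]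
            simp only [Fin.append_left, Fin.append_right]
            rw [lin_zero, zero_smul, zero_add, zero_add]
        · obtain ⟨l, hl⟩ := hKey σ hσ hsB r v₁ hv₁ hL
          refine step ⟨l, fun M hM x y hx hy => ?_⟩
          rw [zero_smul, zero_add]
          exact hl M hM _ ⟨y, hy, rfl⟩
      · have h1 : v₁ = 0 := by
          refine Pf_eq_zero (fun q hq hqs => ?_) hv₁
          exact hsB (h.labY (hT.1 hσ) r q hq s hqs)
        subst h1
        refine step ⟨0, fun M hM x y hx hy => ?_⟩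
        have h2 : lin (0 : Fin (S.Y σ r).n → K) y = 0 := lin_zero_left y
        rw [zero_smul, zero_add, h2]
        exact h30_zero hE 0 M

theorem dich_step (h : S.OK G B) {T : Set S.Tp} (hT : S.Down G B T) (hN : S.Nice T)
    {s : S.Tp} (hs : s ∈ T) {A E : ℕ → SF1 K S.L} (hE : EFam S B s A E)
    (hKey : ∀ σ ∈ T, s ∈ B σ → ∀ r, ∀ a ∈ Pf S (S.Y σ r).toPre (.inr s),
      ¬ S.Large T s A E (W1 S σ r a) → S.Small T E (W2 S σ r a)) :
    S.Dich T s A E := by
  intro W hW hWV
  obtain ⟨χ, hχl, hχ, hχs⟩ := hN Unit _ hW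
  obtain ⟨P, e, t, hCx, ht, hPs⟩ := cofP_cx (h.closed hT) h.proot hχ hχl (fun _ => .inr s)
    (fun _ σ hσ => by
      rw [← Sum.inr.inj hσ]
      exact hs)
    (fun M hM y hy k => hWV M hM _ ((hχs M hM y).2 hy))
  have hIm : ∀ M : Obj K S.L, S.CC T M → ∀ w : M, W M w ↔ H30Im P (t ()) M w := by
    intro M hM w
    refine (hχs M hM (fun _ => w)).trans ((hPs M hM.ff (fun _ => w)).trans ?_)
    constructor
    · rintro ⟨x, hx, hxw⟩
      exact ⟨x, hx, hxw ()⟩
    · rintro ⟨x, hx, hxw⟩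
      exact ⟨x, hx, fun _ => hxw⟩
  have hB : B s ⊆ T := hT.2 s hs
  refine h30_dich hE hB (l := 0) ?_ ?_ (h30_cx h hT hs hE hKey hCx (t ()) (ht ()))
  · intro M hM w hw
    exact ⟨w, 0, (hIm M hM w).2 hw, h30_zero hE 0 M, (add_zero _).symm⟩
  · intro M hM w hw
    exact ⟨w, 0, (hIm M hM w).1 hw, h30_zero hE 0 M, (add_zero _).symm⟩

end Pool.Agent.Helper13.SDW
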