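import Pool.Agent.Helper13.SDW.GDefs

/-!
# BLOCK SDW-HSTEP: the property `H` for `T` (about 150 lines)

Fix `s ∈ T`, `l`, `Dl = S.D s l`. Let `Θ ⊆ P_a × V_s` be over `T`, total on `P_a`, `Θ(0) ≤ Dl` in `CC_T`.
`N = Nc T (Pre.one K (.inl a)).obj PUnit ∈ CC_T` (`obj_cc`, `cofP_one`), `c` = the generator, `c ∈ P_a(N)`. Choose `y` with
`Θ N c y`, `y ∈ V_s(N)`, and apply `relcx` for `G₀ = Pre.one K (.inl a)` to `y`, label `.inr s`: a complex `G` over `G₀`
and `t ∈ Pf S G (.inr s)` with `Θ D (x' (e 0)) (lin t x')` for all `D ∈ FF_T`, `x' ∈ G.Hom D`.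
Claim, by induction on `Cx T G₀ G e`: if `t ∈ Pf S G (.inr s)` and `t(x') ∈ Dl(M)` for all `M ∈ CC_T` and
`x' ∈ G.Hom M` with `x' (e 0) = 0`, then `t(x') ∈ Dl(M)` for all `M ∈ CC_T` and all `x' ∈ G.Hom M`.
* `base`: `Pf S G₀ (.inr s) = 0`.
* `atom`: `Pf_atom`, extend by `0`.
* `cell σ r d`: `Pf_cell`: `t = Fin.append (v₀ + c • d) (v₁ + c • out)`. For `M ∈ CC_T`, `y' ∈ Y.Hom M` with
  `y_r(y') ∈ V_σ(M)`: `(0, y') ∈ (G.cell).Hom M`, so `(v₁ + c • out)(y') ∈ Dl(M)`.
  (i) `s = σ`: `v₁ = 0`. If `c ≠ 0`: `V_s ∩ Y_r ≤ Dl` in `CC_T`, so by `hst`: `X_r, Y_r ≤ Dl` in `FF_T`, and the value of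
      `c • (d + out)` is in `Dl`.
  (ii) `s ≠ σ`, `c = 0`: `v₁ = 0` or `s ∈ B σ`; `W1 σ r v₁ ≤ Dl` in `CC_T`, by `hKey`: `W2 σ r v₁ ≤ Dl` in `CC_T`.
  So `t = Fin.append v₀ 0 + t'`, `t' (x') ∈ Dl(M)` for all `x' ∈ (G.cell).Hom M`; for `x' ∈ G.Hom M` with `x' (e 0) = 0`
  extend by density: `v₀(x') ∈ Dl(M)`. Induction hypothesis for `v₀`.
The assumption of the claim holds for `G`, `t` as `Θ M 0 (t(x'))` if `x' (e 0) = 0`. So `t(x') ∈ Dl(M)` for all `x'`. Finally
let `M ∈ CC_T`, `Θ M x w`: `x ∈ P_a(M)`, take `x' ∈ G.Hom M` with `x' (e 0) = x` (`Cx.extend`); `Θ M 0 (w - t(x'))`, so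
`w - t(x') ∈ Dl`, `w ∈ Dl`.
-/

namespace Pool.Agent.Helper13.SDW

universe u

variable {K : Type u} [Field K] {S : Sys K} {G : Set S.Tp} {B : S.Tp → Set S.Tp}

/-- the claim of the induction -/
private theorem HStep_claim (h : S.OK G B) {T : Set S.Tp} (hT : S.Down G B T) {s : S.Tp}
    (hs : s ∈ T) (l : ℕ)
    (hst : ∀ r, (∀ M : Obj K S.L, S.CC T M → ∀ x ∈ M.P (.inr s), (S.Y s r).S1 M x →
        (S.D s l).S1 M x) →
      S.LeF (B s) (S.X s r).S1 (S.D s l).S1 ∧ S.LeF (B s) (S.Y s r).S1 (S.D s l).S1)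
    (hKey : ∀ σ ∈ T, s ∈ B σ → ∀ r, ∀ a ∈ Pf S (S.Y σ r).toPre (.inr s),
      S.LeC T (W1 S σ r a) (S.D s l).S1 → S.LeC T (W2 S σ r a) (S.D s l).S1)
    (a : S.Nd) {G₁ : Pre K S.L} {e : Fin (Pre.one K (.inl a : S.L)).n → Fin G₁.n}
    (hCx : Cx T (Pre.one K (.inl a)) G₁ e) :
    ∀ t : Fin G₁.n → K, t ∈ Pf S G₁ (.inr s) →
      (∀ M : Obj K S.L, S.CC T M → ∀ x : Fin G₁.n → M, G₁.Hom M x → x (e (0 : Fin 1)) = 0 →
        (S.D s l).S1 M (lin t x)) →
      ∀ M : Obj K S.L, S.CC T M → ∀ x : Fin G₁.n → M, G₁.Hom M x →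
        (S.D s l).S1 M (lin t x) := by
  have hsub : ∀ {M : Obj K S.L} {x y : M}, (S.D s l).S1 M x → (S.D s l).S1 M y →
      (S.D s l).S1 M (x - y) := by
    intro M x y hx hy
    have h1 := h82_S1_add hx (h82_S1_smul (-1 : K) hy)
    rw [neg_one_smul, ← sub_eq_add_neg] at h1
    exact h1
  have hBT : B s ⊆ T := hT.2 s hs
  have hsG : s ∈ G := hT.1 hs
  induction hCx with
  | base =>
    intro t ht _ M hM x hx
    have ht0 : t = 0 := by
      refine Pf_eq_zero ?_ ht
      intro q hq hqs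
      rw [List.mem_singleton.1 (show q ∈ [((.inl a : S.L), fun _ : Fin 1 => (1 : K))] from hq)] at hqs
      cases hqs
    rw [ht0]
    have h1 : lin (0 : Fin 1 → K) x = 0 := lin_zero_left x
    change (S.D s l).S1 M (lin (0 : Fin 1 → K) x)
    rw [h1]
    exact h82_S1_zero _ _
  | @atom G₂ e₂ b _ ih =>
    intro t ht H M hM x hx
    obtain ⟨v₀, hv₀, htv⟩ := Pf_atom ht
    have hlt : ∀ (M : Obj K S.L) (x : Fin (G₂.n + 1) → M),
        lin (Fin.append v₀ (fun _ : Fin 1 => (0 : K))) x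
          = lin v₀ (fun j => x (Fin.castAdd 1 j)) := by
      intro M x
      rw [lin_append, lin_zero_left, add_zero]
    have hih := ih v₀ hv₀ (fun M hM x hx hx0 => by
      have hx' : (G₂.sum (Pre.one K (.inl b))).Hom M (Fin.append x (fun _ : Fin 1 => (0 : M))) := by
        refine (Pre.sum_hom _ _ M _).2 ⟨?_, ?_⟩
        · simpa only [Fin.append_left] using hx
        · rw [Pre.one_hom]
          have h1 : (Fin.append x (fun _ : Fin 1 => (0 : M))) (Fin.natAdd G₂.n (0 : Fin 1)) = 0 :=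
            Fin.append_right _ _ _
          change (Fin.append x (fun _ : Fin 1 => (0 : M))) (Fin.natAdd G₂.n (0 : Fin 1)) ∈ _
          rw [h1]
          exact (M.P _).zero_mem
      have h1 := H M hM _ hx' ((Fin.append_left _ _ _).trans hx0)
      have h2 : lin t (Fin.append x (fun _ : Fin 1 => (0 : M))) = lin v₀ x := by
        rw [htv]
        have h3 := hlt M (Fin.append x (fun _ : Fin 1 => (0 : M)))
        simp only [Fin.append_left] at h3
        exact h3
      rw [h2] at h1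
      exact h1)
    have h4 := hih M hM _ ((Pre.sum_hom _ _ M _).1 hx).1
    rw [htv]
    have h5 := hlt M x
    change (S.D s l).S1 M (lin (Fin.append v₀ (fun _ : Fin 1 => (0 : K))) x)
    rw [h5]
    exact h4
  | @cell G₂ e₂ σ r d _ hσ hval ih =>
    intro t ht H M hM x hx
    obtain ⟨v₀, v₁, c, hv₀, hv₁, hc, htv⟩ := Pf_cell ht
    have hσG : σ ∈ G := hT.1 hσ
    -- values
    have hlt : ∀ (M : Obj K S.L) (x : Fin G₂.n → M) (y : Fin (S.Y σ r).n → M),
        lin t (Fin.append x y) = lin v₀ x + (c • lin d x + (lin v₁ y +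
          c • lin ((S.Y σ r).out ()) y)) := by
      intro M x y
      rw [htv]
      have h3 := lin_append (K := K) (v₀ + c • d) (v₁ + c • (S.Y σ r).out ())
        (Fin.append x y)
      simp only [Fin.append_left, Fin.append_right] at h3
      rw [h3, lin_add_left, lin_smul_left, lin_add_left, lin_smul_left, add_assoc]
    -- the homs of the cell
    have hcell : ∀ (M : Obj K S.L) (x : Fin G₂.n → M) (y : Fin (S.Y σ r).n → M),
        G₂.Hom M x → (S.Y σ r).toPre.Hom M y →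
        lin d x + lin ((S.Y σ r).out ()) y ∈ M.P (.inr σ) →
        (G₂.cell σ r d).Hom M (Fin.append x y) := by
      intro M x y hx hy hxy
      refine (Pre.addc_hom _ _ _ M _).2 ⟨(Pre.sum_hom _ _ M _).2 ⟨?_, ?_⟩, ?_⟩
      · simpa only [Fin.append_left] using hx
      · simpa only [Fin.append_right] using hy
      · rw [lin_append]
        simpa only [Fin.append_left, Fin.append_right] using hxy
    -- step A
    have hA : ∀ (M : Obj K S.L), S.CC T M → ∀ y : Fin (S.Y σ r).n → M,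
        (S.Y σ r).toPre.Hom M y → lin ((S.Y σ r).out ()) y ∈ M.P (.inr σ) →
        (S.D s l).S1 M (lin v₁ y + c • lin ((S.Y σ r).out ()) y) := by
      intro M hM y hy hyV
      have h0 : G₂.Hom M (fun _ => (0 : M)) := by
        intro q hq
        rw [lin_zero]
        exact Submodule.zero_mem _
      have h1 := H M hM _ (hcell M (fun _ => 0) y h0 hy (by
        rw [lin_zero, zero_add]
        exact hyV)) (Fin.append_left _ _ _)
      rw [hlt, lin_zero, lin_zero, smul_zero, zero_add, zero_add] at h1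
      exact h1
    -- the values of `t'`
    have ht' : ∀ (M : Obj K S.L), S.CC T M → ∀ (x : Fin G₂.n → M) (y : Fin (S.Y σ r).n → M),
        G₂.Hom M x → (S.Y σ r).toPre.Hom M y →
        (S.D s l).S1 M (c • lin d x + (lin v₁ y + c • lin ((S.Y σ r).out ()) y)) := by
      by_cases hsσ : s = σ
      · subst hsσ
        have hlabσ : ∀ q ∈ (S.Y s r).c, q.1 ≠ .inr s := by
          intro q hq hqs
          exact h.not_mem_B hsG (h.labY hsG r q hq s hqs)
        have hv10 : v₁ = 0 := Pf_eq_zero hlabσ hv₁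
        by_cases hc0 : c = 0
        · intro M hM x y hx hy
          rw [hc0, hv10, zero_smul, zero_smul, zero_add, add_zero]
          have h1 : lin (0 : Fin (S.Y s r).n → K) y = 0 := lin_zero_left y
          rw [h1]
          exact h82_S1_zero _ _
        · have hXY := hst r (by
            rintro M hM x hxV ⟨y, hy, hxy⟩
            have hxy0 : x = lin ((S.Y s r).out ()) y := hxy ()
            rw [hxy0] at hxV
            have h1 := hA M hM y hy hxV
            have h2 : lin v₁ y = 0 := by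
              rw [hv10]
              exact lin_zero_left y
            rw [h2, zero_add, ← hxy0] at h1
            have h3 := h82_S1_smul c⁻¹ h1
            rw [smul_smul, inv_mul_cancel₀ hc0, one_smul] at h3
            exact h3)
          intro M hM x y hx hy
          have hFB : S.FF (B s) M := hM.ff.mono hBT
          have h2 : lin v₁ y = 0 := by
            rw [hv10]
            exact lin_zero_left y
          rw [h2, zero_add]
          refine h82_S1_add (h82_S1_smul c (hXY.1 M hFB _ (hval M hM.ff x hx)))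
            (h82_S1_smul c (hXY.2 M hFB _ ⟨y, hy, fun _ => rfl⟩))
      · have hc0 : c = 0 := hc hsσ
        by_cases hsB : s ∈ B σ
        · have hW := hKey σ hσ hsB r v₁ hv₁ (by
            rintro M hM w ⟨y, hy, hyV, rfl⟩
            have h1 := hA M hM y hy hyV
            rw [hc0, zero_smul, add_zero] at h1
            exact h1)
          intro M hM x y hx hy
          rw [hc0, zero_smul, zero_smul, zero_add, add_zero]
          exact hW M hM _ ⟨y, hy, rfl⟩
        · have hlabσ : ∀ q ∈ (S.Y σ r).c, q.1 ≠ .inr s := by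
            intro q hq hqs
            exact hsB (h.labY hσG r q hq s hqs)
          have hv10 : v₁ = 0 := Pf_eq_zero hlabσ hv₁
          intro M hM x y hx hy
          rw [hc0, hv10, zero_smul, zero_smul, zero_add, add_zero]
          have h1 : lin (0 : Fin (S.Y σ r).n → K) y = 0 := lin_zero_left y
          rw [h1]
          exact h82_S1_zero _ _
    have hih := ih v₀ hv₀ (fun M hM x hx hx0 => by
      obtain ⟨y, hy, hxy⟩ := hM.ff.exists_block hσ r (hval M hM.ff x hx)
      have h1 := H M hM _ (hcell M x y hx hy hxy) ((Fin.append_left _ _ _).trans hx0)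
      have h2 := hsub h1 (ht' M hM x y hx hy)
      rw [hlt, add_sub_cancel_right] at h2
      exact h2)
    have hx12 := ((Pre.addc_hom _ _ _ M _).1 hx).1
    obtain ⟨hx1, hx2⟩ := (Pre.sum_hom _ _ M _).1 hx12
    have h6 := h82_S1_add (hih M hM _ hx1) (ht' M hM _ _ hx1 hx2)
    rw [← hlt] at h6
    have h7 : Fin.append (fun i => x (Fin.castAdd (S.Y σ r).n i))
        (fun i => x (Fin.natAdd G₂.n i)) = x := by
      funext j
      refine Fin.addCases (fun j => ?_) (fun j => ?_) j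
      · exact Fin.append_left _ _ _
      · exact Fin.append_right _ _ _
    rw [h7] at h6
    exact h6

theorem h_step (h : S.OK G B) {T : Set S.Tp} (hT : S.Down G B T) {s : S.Tp}
    (hs : s ∈ T) (l : ℕ)
    (hst : ∀ r, (∀ M : Obj K S.L, S.CC T M → ∀ x ∈ M.P (.inr s), (S.Y s r).S1 M x →
        (S.D s l).S1 M x) →
      S.LeF (B s) (S.X s r).S1 (S.D s l).S1 ∧ S.LeF (B s) (S.Y s r).S1 (S.D s l).S1)
    (hKey : ∀ σ ∈ T, s ∈ B σ → ∀ r, ∀ a ∈ Pf S (S.Y σ r).toPre (.inr s),
      S.LeC T (W1 S σ r a) (S.D s l).S1 → S.LeC T (W2 S σ r a) (S.D s l).S1) :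
    S.HP T s (dE S s l) := by
  intro a Θ hΘ hsubΘ htot hΘ0
  obtain ⟨l', hl'⟩ := hΘ0
  refine ⟨l', ?_⟩
  have hcl : S.Closed T := h.closed hT
  have hlab₀ : ∀ q ∈ (Pre.one K (.inl a : S.L)).c, q.1 ∈ S.lab T := by
    intro q hq τ hτ
    rw [List.mem_singleton.1 (show q ∈ [((.inl a : S.L), fun _ : Fin 1 => (1 : K))] from hq)] at hτ
    cases hτ
  have hN : S.CC T (Nc T ((Pre.one K (.inl a : S.L)).obj (S := S)) PUnit) :=
    obj_cc hcl h.proot (cofP_one a) hlab₀
  have hcP := (Pre.one_hom (.inl a : S.L) (Nc T ((Pre.one K (.inl a : S.L)).obj (S := S)) PUnit)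
    (fun i => (Pre.gen (Pre.one K (.inl a : S.L)) i, 0))).1
      (gen_hom_Nc (T := T) (Pre.one K (.inl a : S.L)) PUnit)
  obtain ⟨y, hy⟩ := htot _ hN _ hcP
  have hyV := (hsubΘ _ hN _ _ hy).2
  have hsl : (Sum.inr s : S.L) ∈ S.lab T := by
    intro σ hσ
    rw [← Sum.inr.inj hσ]
    exact hs
  obtain ⟨G₁, e, t, x, hCx, hx, hxe, ht, hlin, hext⟩ := relcx hcl h.proot
    (Pre.one K (.inl a : S.L)) hlab₀ (fun _ : Unit => (.inr s : S.L)) (fun _ => hsl)
    (fun _ => y) (fun _ => hyV)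
  -- the relation on the values of the complex
  have hΘt : ∀ D : Obj K S.L, S.FF T D → ∀ x' : Fin G₁.n → D, G₁.Hom D x' →
      Θ D (x' (e (0 : Fin 1))) (lin (t ()) x') := by
    intro D hD x' hx'
    obtain ⟨f, hf, hfx⟩ := hext D hD x' hx'
    have h1 := IsDef.map hΘ hf (y := ![(Pre.gen (Pre.one K (.inl a : S.L)) (0 : Fin 1), 0), y]) hy
    have h2 : f (Pre.gen (Pre.one K (.inl a : S.L)) (0 : Fin 1), 0) = x' (e (0 : Fin 1)) := by
      rw [← hfx, hxe]
    have h3 : f y = lin (t ()) x' := by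
      rw [← hlin (), map_lin]
      simp only [hfx]
    change Θ D (f (Pre.gen (Pre.one K (.inl a : S.L)) (0 : Fin 1), 0)) (f y) at h1
    rw [h2, h3] at h1
    exact h1
  have hclaim := HStep_claim h hT hs l hst hKey a hCx (t ()) (ht ()) (fun M hM x' hx' hx0 => by
    have h1 := hΘt M hM.ff x' hx'
    rw [hx0] at h1
    exact hl' M hM _ h1)
  intro M hM x₁ w hw
  have hxa := (hsubΘ M hM _ _ hw).1
  obtain ⟨x', hx', hxe'⟩ := hCx.extend hM.ff (x := fun _ => x₁)
    ((Pre.one_hom (.inl a : S.L) M _).2 hxa)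
  have h1 := hΘt M hM.ff x' hx'
  have h1' : x' (e (0 : Fin 1)) = x₁ := hxe' (0 : Fin 1)
  rw [h1'] at h1
  have h2 := IsDef.sub_mem hΘ (y := ![x₁, w]) (z := ![x₁, lin (t ()) x']) hw h1
  change Θ M (x₁ - x₁) (w - lin (t ()) x') at h2
  rw [sub_self] at h2
  have h3 : (S.D s l).S1 M (w - lin (t ()) x') := hl' M hM _ h2
  have h4 := h82_S1_add h3 (hclaim M hM x' hx')
  rw [sub_add_cancel] at h4
  exact h4

end Pool.Agent.Helper13.SDW
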