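import Pool.Agent.Helper13.SDW.Key
import Pool.Agent.Helper13.SDW.DichStep
import Pool.Agent.Helper13.SDW.HStep

/-!
# BLOCK SDW-THMG: all types are good (assembly, about 150 lines)

* `Z_mono`, `U_mono`, `ZD'`: consequences of `h.ZD, h.DZ, h.UU, h.ZU`.
* `gFam`, `dFam`: the families of GOOD and DIC satisfy `EFam`. Rules for GOOD: `d l'`: `X = D_{l'}`,
  `Y = Z_{l'}` are below `Z_{l'+1}`; `u n`: `A_n = U_n = Y`. Rules for DIC_l: `d l'`, `l' ≤ l`: `D_{l'}, Z_{l'} ≤ D_l`;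
  `d l'`, `l' > l`: `Z_{l+1} ≤ Z_{l'} = Y`; `u n`: `Z_{l+1} ≤ U_n`.
* `hst`: let `V_s ∩ Y_r ≤ D_l` in `CC_T`; by `free_cell` `Y_r ≤ D_l` in `FF_{B s}`. `r = u n`: `U_n ≤ D_l ≤ Z_{l+1}`,
  contradiction to `stU`. `r = d l'`: if `l' ≤ l` then `X_r = D_{l'} ≤ D_l`. If `l' > l`: `Z_{l+1} ≤ Z_{l'} ≤ D_l`; by
  `stZ` then all `Z` are zero, so `D_{l'} ≤ Z_{l'+1} = 0`.
* `hp_good`: `HP T s (dE s l)` for all `l` implies `HP T s (gE s)`: `Z_l ≤ D_l` and `D_l ≤ Z_{l+1}`.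
* the step: for `T` with `S.Nice T` and `S.AllGood (B σ)` for all `σ ∈ T`: `S.AllGood T`. GOOD: `dich_step` with
  `key` (`hH` from `hp_good`). DIC: `dich_step` with `key`. H: `h_step`, `hKey` for `D_l`: case 1 of `stZ` for `s`: use
  `key` for the family `dA, dE`: `W1 ≤ D_l` in `CC_T` is not large, as `V_s ∩ Z_{l+1} ≤ W1 + D_l ≤ D_l` in `CC_T` gives
  `Z_{l+1} ≤ D_l` in `FF_{B s}` by `free_cell` for the rule `d (l+1)` (`Y = Z_{l+1}`), against `stZ`; so `W2 ≤ D_l`. Case 2 (all `Z = 0`,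
  so `D = 0`): use `key` for `gA, gE`: `W1 = 0` is not large: `V_s ∩ U_m ≤ W1 + Z_l' = 0` in `CC_T` gives `U_m ≤ 0 ≤ Z_l'` in
  `FF_{B s}` by `free_cell` for `u m`, against `stU`; so `W2 ≤ Z_l' = 0`, and `0 ∈ D_l`.
* `all_good`: well-founded induction (`h.wf`) gives `AllGood (B σ)` for all `σ ∈ G` with `B σ ∈ Tc`; then the step.
-/

namespace Pool.Agent.Helper13.SDW

universe u

variable {K : Type u} [Field K] {S : Sys K} {G : Set S.Tp} {B : S.Tp → Set S.Tp}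

theorem leF_refl67 {T : Set S.Tp} (F : SF1 K S.L) : S.LeF T F F := fun _ _ _ hx => hx

theorem leF_trans67 {T : Set S.Tp} {F₁ F₂ F₃ : SF1 K S.L} (h1 : S.LeF T F₁ F₂)
    (h2 : S.LeF T F₂ F₃) : S.LeF T F₁ F₃ := fun M hM x hx => h2 M hM x (h1 M hM x hx)

theorem def1_fm67 {Λ : Set S.L} (φ : Fm K S.L Unit) (hφ : ∀ q ∈ φ.c, q.1 ∈ Λ) :
    Def1 Λ φ.S1 :=
  (IsDef.fm φ hφ).congr fun _ _ => Iff.rfl

theorem def1_zero67 {Λ : Set S.L} {F : SF1 K S.L} (hF : Def1 Λ F) (M : Obj K S.L) : F M 0 :=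
  IsDef.zero_mem hF M

theorem def1_add67 {Λ : Set S.L} {F : SF1 K S.L} (hF : Def1 Λ F) {M : Obj K S.L} {x y : M}
    (hx : F M x) (hy : F M y) : F M (x + y) :=
  IsDef.add_mem hF (y := fun _ => x) (z := fun _ => y) hx hy

theorem Sys.OK.Z_mono (h : S.OK G B) {τ : S.Tp} (hτ : τ ∈ G) {l l' : ℕ} (hl : l ≤ l') :
    S.LeF (B τ) (S.Z τ l).S1 (S.Z τ l').S1 := by
  induction l', hl using Nat.le_induction with
  | base => exact leF_refl67 _
  | succ n _ ih => exact leF_trans67 ih (leF_trans67 (h.ZD τ hτ n) (h.DZ τ hτ n))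

theorem Sys.OK.D_mono (h : S.OK G B) {τ : S.Tp} (hτ : τ ∈ G) {l l' : ℕ} (hl : l ≤ l') :
    S.LeF (B τ) (S.D τ l).S1 (S.D τ l').S1 := by
  induction l', hl using Nat.le_induction with
  | base => exact leF_refl67 _
  | succ n _ ih => exact leF_trans67 ih (leF_trans67 (h.DZ τ hτ n) (h.ZD τ hτ (n + 1)))

theorem gFam (h : S.OK G B) {s : S.Tp} (hs : s ∈ G) : EFam S B s (gA S s) (gE S s) where
  defA m := def1_fm67 _ (h.labU s hs m)
  defE l := def1_fm67 _ (h.labZ s hs l)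
  mono _ _ hl := h.Z_mono hs hl
  rule r := by
    cases r with
    | u n => exact Or.inr ⟨n, leF_refl67 _⟩
    | d l => exact Or.inl ⟨l + 1, h.DZ s hs l, h.Z_mono hs (Nat.le_succ l)⟩

theorem dFam (h : S.OK G B) {s : S.Tp} (hs : s ∈ G) (l : ℕ) :
    EFam S B s (dA S s l) (dE S s l) where
  defA _ := def1_fm67 _ (h.labZ s hs (l + 1))
  defE _ := def1_fm67 _ (h.labD s hs l)
  mono _ _ _ := leF_refl67 _
  rule r := by
    cases r with
    | u n => exact Or.inr ⟨0, h.ZU s hs (l + 1) n⟩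
    | d l' =>
      rcases Nat.lt_or_ge l l' with hl | hl
      · exact Or.inr ⟨0, h.Z_mono hs hl⟩
      · exact Or.inl ⟨0, h.D_mono hs hl, leF_trans67 (h.ZD s hs l') (h.D_mono hs hl)⟩

theorem hp_good67 (h : S.OK G B) {T : Set S.Tp} {s : S.Tp} (hs : s ∈ G) (hsT : B s ⊆ T)
    (hp : ∀ l, S.HP T s (dE S s l)) : S.HP T s (gE S s) := by
  intro a Θ hΘ h1 h2 h3
  obtain ⟨l, h3⟩ := h3
  obtain ⟨_, h4⟩ := hp l a Θ hΘ h1 h2
    ⟨0, fun M hM y hy => h.ZD s hs l M (hM.ff.mono hsT) y (h3 M hM y hy)⟩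
  exact ⟨l + 1, fun M hM x y hxy => h.DZ s hs l M (hM.ff.mono hsT) y (h4 M hM x y hxy)⟩

theorem all_good_step (h : S.OK G B) {T : Set S.Tp} (hT : S.Down G B T) (hN : S.Nice T)
    (hG : ∀ σ ∈ T, S.AllGood (B σ)) : S.AllGood T := by
  -- `H` for the family of GOOD
  have hpg : ∀ σ ∈ T, ∀ s ∈ B σ, S.HP (B σ) s (gE S s) := fun σ hσ s hs =>
    hp_good67 h (h.sub σ (hT.1 hσ) hs) (h.trans σ (hT.1 hσ) s hs)
      (fun l => (hG σ hσ).hp s hs l)
  refine ⟨fun s hs => ?_, fun s hs l => ?_, fun s hs l => ?_⟩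
  · refine dich_step h hT hN hs (gFam h (hT.1 hs)) ?_
    intro σ hσ hsσ r a ha hW
    exact key h hT hσ hsσ (gFam h (hT.1 hs)) ((hG σ hσ).good s hsσ) (hpg σ hσ s hsσ) r ha hW
  · refine dich_step h hT hN hs (dFam h (hT.1 hs) l) ?_
    intro σ hσ hsσ r a ha hW
    exact key h hT hσ hsσ (dFam h (hT.1 hs) l) ((hG σ hσ).dic s hsσ l)
      ((hG σ hσ).hp s hsσ l) r ha hW
  · have hsG := hT.1 hs
    have hBs : B s ⊆ T := hT.2 s hs
    have dD : Def1 (S.lab (B s)) (S.D s l).S1 := def1_fm67 _ (h.labD s hsG l)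
    refine h_step h hT hs l ?_ ?_
    · intro r hV
      have hY : S.LeF (B s) (S.Y s r).S1 (S.D s l).S1 := h.free_cell hT hs r dD hV
      refine ⟨?_, hY⟩
      cases r with
      | u n => exact absurd (leF_trans67 hY (h.DZ s hsG l)) (h.stU s hsG n (l + 1))
      | d l' =>
        rcases Nat.lt_or_ge l l' with hl | hl
        · rcases h.stZ s hsG with h5 | h5
          · exact absurd (leF_trans67 (h.Z_mono hsG hl) hY) (h5 l)
          · intro M hM x hx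
            have h6 : x = 0 := h5 (l' + 1) M hM x (h.DZ s hsG l' M hM x hx)
            rw [h6]
            exact def1_zero67 dD M
        · exact h.D_mono hsG hl
    · intro σ hσ hsσ r a ha hW
      rcases h.stZ s hsG with h5 | h5
      · have h6 : ¬ S.Large T s (dA S s l) (dE S s l) (W1 S σ r a) := by
          rintro ⟨_, _, h7⟩
          refine h5 l (h.free_cell hT hs (.d (l + 1)) dD ?_)
          intro M hM x hx hxY
          obtain ⟨w, z, hw, hz, rfl⟩ := h7 M hM x hx hxY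
          exact def1_add67 dD (hW M hM w hw) hz
        obtain ⟨_, h8⟩ := key h hT hσ hsσ (dFam h hsG l) ((hG σ hσ).dic s hsσ l)
          ((hG σ hσ).hp s hsσ l) r ha h6
        exact h8
      · have h6 : ¬ S.Large T s (gA S s) (gE S s) (W1 S σ r a) := by
          rintro ⟨m, l', h7⟩
          refine h.stU s hsG m 0 (h.free_cell hT hs (.u m)
            (def1_fm67 _ (h.labZ s hsG 0)) ?_)
          intro M hM x hx hxY
          have hM' : S.FF (B s) M := hM.ff.mono hBs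
          obtain ⟨w, z, hw, hz, rfl⟩ := h7 M hM x hx hxY
          have hw0 : w = 0 := h5 (l + 1) M hM' w (h.DZ s hsG l M hM' w (hW M hM w hw))
          have hz0 : z = 0 := h5 l' M hM' z hz
          rw [hw0, hz0, add_zero]
          exact def1_zero67 (def1_fm67 _ (h.labZ s hsG 0)) M
        obtain ⟨l', h8⟩ := key h hT hσ hsσ (gFam h hsG) ((hG σ hσ).good s hsσ)
          (hpg σ hσ s hsσ) r ha h6
        intro M hM x hx
        have hx0 : x = 0 := h5 l' M (hM.ff.mono hBs) x (h8 M hM x hx)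
        rw [hx0]
        exact def1_zero67 dD M

/-- `Tc` is a class of downward closed sets of types, closed under `T ↦ B σ`, with niceness. -/
theorem all_good (h : S.OK G B) {Tc : Set (Set S.Tp)} (hTc : ∀ T ∈ Tc, S.Down G B T)
    (hB : ∀ σ ∈ G, B σ ∈ Tc) (hN : ∀ T ∈ Tc, S.Nice T) {T : Set S.Tp} (hT : T ∈ Tc) :
    S.AllGood T := by
  have key1 : ∀ σ, σ ∈ G → S.AllGood (B σ) := by
    intro σ
    induction σ using h.wf.induction with
    | _ σ ih =>
      intro hσ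
      exact all_good_step h (hTc _ (hB σ hσ)) (hN _ (hB σ hσ))
        (fun τ hτ => ih τ ⟨hτ, hσ⟩ (h.sub σ hσ hτ))
  exact all_good_step h (hTc T hT) (hN T hT) (fun σ hσ => key1 σ ((hTc T hT).1 hσ))

end Pool.Agent.Helper13.SDW
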