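import Pool.Agent.Helper13.SDW.ModFF
import Pool.Agent.Helper13.SDW.ThmG

/-!
# BLOCK SDW-CRED: Lemma 7.1 for one cell (about 250 lines)

`T` = the big set (`Mod T B`, `NU T B`, `AllGood T`), `σ ∈ T`, `V = V_σ`, `Y = Y_r`, `F_σ = {y ∈ G_Y : y_r(y) ∈ V}` (a formula in the
variables `Fin (S.Y σ r).n`). Hypothesis `hI`: every `φ` over `Bl σ` and every `b` which does not kill `φ` satisfy `Red T B φ b`.

`rule_red`: let `r'` be a rule with `X' = X_{r'}`, `Y' = Y_{r'}`, `Y' ≤ X' ≤ Y` in `FF_{Bl σ}`, and let `g ∈ B` kill `V ∩ Y'` but not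
`V ∩ X'`, and `b'(y) = g(y_r(y))` for `y ∈ G_Y(B.dual)`. By `kills1_and` for `V ∩ X'` and `Y'`
(`V ∩ X' ∩ Y' ≤ V ∩ Y'` is killed by `g`): `g = g₁ + g'`, `g₁` kills `V ∩ X'`, `g'` kills `Y'`. So `g'` does not kill `V ∩ X'`, nor
`X'`. By `hI` for `X'` (over `Bl σ`; unary, so use `κ = Unit`) and `g'`: `a, g'', Γ' ⊆ P_a × X'`, total, `x(g'') = z(g')` for
`(x, z) ∈ Γ'(B.dual)`, `g''` does not kill `P_a`. Let
`Γ = {(x, y) : ∃ z v z', (x, z) ∈ Γ', z = v + z', v ∈ V ∩ X', z' ∈ Y', y ∈ G_Y, y_r(y) = v}`. Total: `z ∈ X' ≤ V + Y'` (density of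
`r'`), `v = z - z' ∈ X'` as `Y' ≤ X'`, `v ∈ X' ≤ Y`. `Γ ⊆ P_a × F_σ`. And `x(g'') = z(g') = v(g') + z'(g') = v(g') = v(g) = y_r(y)(g)
= b'(y)`.

`cell_red`: if `b'` does not kill `F₀ = {y ∈ G_Y : y_r(y) = 0}` (over `Bl σ`), use `hI`; `F₀ ≤ F_σ`. Otherwise `kills_zero` for the
formula `{(y, y_r(y)) : y ∈ G_Y}` gives `g` with `b'(y) = g(y_r(y))` for `y ∈ G_Y(B.dual)`; `g` does not kill `V ∩ Y`.
Case 1: `g` does not kill `V ∩ Z_l ∩ Y` for some `l`; take `l` minimal; `l ≥ 1` (`Z_0 = 0`). `Z_l ≤ Y`: clear if `Y = U_n`; if `Y = Z_q`,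
`g` does not kill `V ∩ Z_q ∩ Y`, so `l ≤ q`. So `g` kills `V ∩ Z_{l-1}` and not `V ∩ Z_l`. If `g` does not kill `V ∩ D` with
`D = S.D σ (l-1)` (`Z_{l-1} ≤ D ≤ Z_l`): `rule_red` for `r' = d (l-1)`. If `g` kills `V ∩ D`: contradiction to `uniform_lemma`
for `dA S σ (l-1), dE S σ (l-1)` (`dic` of `AllGood T`).
Case 2: `g` kills all `V ∩ Z_l ∩ Y`. Then `r = u n` (if `r = d q`, `V ∩ Y = V ∩ Z_q ∩ Y`), `Z_l ≤ U_n = Y`, so `g` kills all
`V ∩ Z_l`. If `g` does not kill `V ∩ U_m` for all `m`: contradiction to `uniform_lemma` for `gA, gE` (`good`). So let `m` be minimal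
such that `g` kills `V ∩ U_m`; `m > n`; `rule_red` for `r' = u m` (`X' = U_{m-1} ≤ U_n`, `Y' = U_m`).
-/

namespace Pool.Agent.Helper13.SDW

universe u

variable {K : Type u} [Field K] {S : Sys K} {G : Set S.Tp} {Bl : S.Tp → Set S.Tp}

/-- `{y ∈ G_Y : y_r(y) ∈ V_σ}`. -/
def FSig (S : Sys K) (σ : S.Tp) (r : Rl) : SF K S.L (Fin (S.Y σ r).n) := fun M y =>
  (S.Y σ r).toPre.Hom M y ∧ lin ((S.Y σ r).out ()) y ∈ M.P (.inr σ)

/-- Monotonicity of `Kills1` for inclusions over `T' ⊆ T`. -/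
theorem kills1_mono67 {B : Obj K S.L} {F H : SF1 K S.L} (hFH : ∀ y : B.dual, F B.dual y →
    H B.dual y) {g : B} (hg : Kills1 B H g) : Kills1 B F g :=
  fun f hf => hg f (hFH f hf)

theorem red_mono67 {T : Set S.Tp} {B : Obj K S.L} {κ : Type} [Fintype κ] {F H : SF K S.L κ}
    (hFH : ∀ M : Obj K S.L, S.CC T M → ∀ y : κ → M, F M y → H M y) {b : κ → B}
    (hr : S.Red T B F b) : S.Red T B H b := by
  obtain ⟨a, g, Γ, h1, h2, h3, h4, h5⟩ := hr
  exact ⟨a, g, Γ, h1, fun M hM y hy => ⟨(h2 M hM y hy).1, hFH M hM _ (h2 M hM y hy).2⟩,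
    h3, h4, h5⟩

/-- The relation `Γ` of `rule_red`. -/
def ruleGa67 (σ : S.Tp) (r r' : Rl) (Γ' : SF K S.L (Unit ⊕ Unit)) :
    SF K S.L (Unit ⊕ Fin (S.Y σ r).n) := fun M y => ∃ w : Unit → M,
  Γ' M (Sum.elim (fun _ => y (.inl ())) (fun k => w k)) ∧
    lin ((S.Y σ r).out ()) (fun k => y (.inr k)) ∈ M.P (.inr σ) ∧
    (S.X σ r').S1 M (lin ((S.Y σ r).out ()) (fun k => y (.inr k))) ∧
    (S.Y σ r').S1 M (w () - lin ((S.Y σ r).out ()) (fun k => y (.inr k))) ∧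
    (S.Y σ r).toPre.Hom M (fun k => y (.inr k))

theorem ruleGa67_def (h : S.OK G Bl) {T : Set S.Tp} (hT : S.Down G Bl T) {σ : S.Tp}
    (hσ : σ ∈ T) (r r' : Rl) {Γ' : SF K S.L (Unit ⊕ Unit)} (hΓ' : IsDef (S.lab T) Γ') :
    IsDef (S.lab T) (ruleGa67 σ r r' Γ') := by
  have hσG : σ ∈ G := hT.1 hσ
  have hTl : S.lab (Bl σ) ⊆ S.lab T := Sys.lab_mono (hT.2 σ hσ)
  have e1 : ∀ (M : Obj K S.L) (w : (Unit ⊕ Fin (S.Y σ r).n) ⊕ Unit → M),
      lin (Sum.elim (Sum.elim (fun _ => 0) ((S.Y σ r).out ())) (fun _ => 0)) w =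
        lin ((S.Y σ r).out ()) (fun k => w (.inl (.inr k))) := by
    intro M w
    rw [lin_elim, lin_elim, lin_fzero, lin_fzero, add_zero, zero_add]
  have e2 : ∀ (M : Obj K S.L) (w : (Unit ⊕ Fin (S.Y σ r).n) ⊕ Unit → M),
      lin (Sum.elim (Sum.elim (fun _ => 0) (fun i => -(S.Y σ r).out () i)) (fone ())) w =
        w (.inr ()) - lin ((S.Y σ r).out ()) (fun k => w (.inl (.inr k))) := by
    intro M w
    rw [lin_elim, lin_elim, lin_fzero, zero_add, lin_fneg, lin_fone]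
    abel
  refine IsDef.ex' (κ := Unit ⊕ Fin (S.Y σ r).n) (κ' := Unit)
    (fun M y w => Γ' M (Sum.elim (fun _ => y (.inl ())) (fun k => w k)) ∧
      lin ((S.Y σ r).out ()) (fun k => y (.inr k)) ∈ M.P (.inr σ) ∧
      (S.X σ r').S1 M (lin ((S.Y σ r).out ()) (fun k => y (.inr k))) ∧
      (S.Y σ r').S1 M (w () - lin ((S.Y σ r).out ()) (fun k => y (.inr k))) ∧
      (S.Y σ r).toPre.Hom M (fun k => y (.inr k))) ?_
  refine IsDef.and ?_ (IsDef.and ?_ (IsDef.and ?_ (IsDef.and ?_ ?_)))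
  · refine (IsDef.subst (κ := (Unit ⊕ Fin (S.Y σ r).n) ⊕ Unit) hΓ'
      (Sum.elim (fun _ => fone (.inl (.inl ()))) (fun _ => fone (.inr ())))).congr
      fun M w => ?_
    have e3 : (fun k => lin ((Sum.elim (fun _ => fone (.inl (.inl ())))
        (fun _ => fone (.inr ())) : Unit ⊕ Unit → (Unit ⊕ Fin (S.Y σ r).n) ⊕ Unit → K) k) w) =
        (Sum.elim (fun _ => w (.inl (.inl ()))) (fun k => w (.inr k)) : Unit ⊕ Unit → M) := by
      funext k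
      rcases k with k | k
      · exact lin_fone _ _
      · exact lin_fone _ _
    rw [e3]
  · refine (IsDef.lab (κ := (Unit ⊕ Fin (S.Y σ r).n) ⊕ Unit) (l := .inr σ)
      (fun τ hτ => by rw [← Sum.inr.inj hτ]; exact hσ)
      (Sum.elim (Sum.elim (fun _ => 0) ((S.Y σ r).out ())) (fun _ => 0))).congr
      fun M w => ?_
    rw [e1]
  · have h1 : IsDef (S.lab T) (fun (M : Obj K S.L) (y : Unit → M) => (S.X σ r').S1 M (y ())) :=
      def1_fm67 _ fun q hq => hTl (h.labX hσG r' q hq)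
    refine (IsDef.subst (κ := (Unit ⊕ Fin (S.Y σ r).n) ⊕ Unit) h1 (fun _ =>
      Sum.elim (Sum.elim (fun _ => 0) ((S.Y σ r).out ())) (fun _ => 0))).congr fun M w => ?_
    rw [e1]
  · have h1 : IsDef (S.lab T) (fun (M : Obj K S.L) (y : Unit → M) => (S.Y σ r').S1 M (y ())) :=
      def1_fm67 _ fun q hq => hTl (h.labY hσG r' q hq)
    refine (IsDef.subst (κ := (Unit ⊕ Fin (S.Y σ r).n) ⊕ Unit) h1 (fun _ =>
      Sum.elim (Sum.elim (fun _ => 0) (fun i => -(S.Y σ r).out () i)) (fone ()))).congr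
      fun M w => ?_
    rw [e2]
  · have h1 : IsDef (S.lab T) (fun (M : Obj K S.L) x => (S.Y σ r).toPre.Hom M x) :=
      IsDef.hom _ fun q hq => hTl (h.labY hσG r q hq)
    refine (IsDef.subst (κ := (Unit ⊕ Fin (S.Y σ r).n) ⊕ Unit) h1
      (fun i => fone (.inl (.inr i)))).congr fun M w => ?_
    simp only [lin_fone]

theorem def1_VX67 {Λ : Set S.L} {σ : S.Tp} (hσ : (.inr σ : S.L) ∈ Λ) {F : SF1 K S.L}
    (hF : Def1 Λ F) : Def1 Λ (fun M x => x ∈ M.P (.inr σ) ∧ F M x) := by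
  refine IsDef.and ?_ hF
  refine (IsDef.lab (κ := Unit) hσ (fone ())).congr fun M y => ?_
  rw [lin_fone]

theorem rule_red (h : S.OK G Bl) {T : Set S.Tp} (hT : S.Down G Bl T) {B : Obj K S.L}
    (hB : S.Mod T B) {σ : S.Tp} (hσ : σ ∈ T)
    (hI : ∀ (κ : Type) [Fintype κ] (φ : SF K S.L κ), IsDef (S.lab (Bl σ)) φ → ∀ b : κ → B,
      ¬ Kills B φ b → S.Red T B φ b)
    (r r' : Rl) (h1 : S.LeF (Bl σ) (S.Y σ r').S1 (S.X σ r').S1)
    (h2 : S.LeF (Bl σ) (S.X σ r').S1 (S.Y σ r).S1) {g : B}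
    (hg1 : Kills1 B (fun M x => x ∈ M.P (.inr σ) ∧ (S.Y σ r').S1 M x) g)
    (hg2 : ¬ Kills1 B (fun M x => x ∈ M.P (.inr σ) ∧ (S.X σ r').S1 M x) g)
    {b : Fin (S.Y σ r).n → B}
    (hb : ∀ y : Fin (S.Y σ r).n → B.dual, (S.Y σ r).toPre.Hom B.dual y →
      ∑ k, (y k : Module.Dual K B) (b k) =
        (lin ((S.Y σ r).out ()) y : Module.Dual K B) g) :
    S.Red T B (FSig S σ r) b := by
  have hσG : σ ∈ G := hT.1 hσ
  have hTl : S.lab (Bl σ) ⊆ S.lab T := Sys.lab_mono (hT.2 σ hσ)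
  have hσl : (.inr σ : S.L) ∈ S.lab T := fun τ hτ => by rw [← Sum.inr.inj hτ]; exact hσ
  have dX0 : Def1 (S.lab (Bl σ)) (S.X σ r').S1 := def1_fm67 _ fun q hq => h.labX hσG r' q hq
  have dX : Def1 (S.lab T) (S.X σ r').S1 := dX0.mono hTl
  have dY : Def1 (S.lab T) (S.Y σ r').S1 :=
    def1_fm67 _ fun q hq => hTl (h.labY hσG r' q hq)
  obtain ⟨g₁, g', k1, k2, hgg⟩ := kills1_and (def1_VX67 hσl dX) dY (b := g)
    (fun f hf => hg1 f ⟨hf.1.1, hf.2⟩)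
  have k3 : ¬ Kills B (fun M (y : Unit → M) => (S.X σ r').S1 M (y ())) (fun _ => g') := by
    rw [← kills1_iff]
    intro k4
    refine hg2 fun f hf => ?_
    rw [hgg, map_add, k1 f hf, k4 f hf.2, add_zero]
  obtain ⟨a, g'', Γ', dΓ', q1, q2, q3, q4⟩ := hI Unit _ dX0 (fun _ => g') k3
  refine ⟨a, g'', ruleGa67 σ r r' Γ', ruleGa67_def h hT hσ r r' dΓ', ?_, ?_, ?_, q4⟩
  · rintro M hM y ⟨w, p1, p2, -, -, p5⟩
    exact ⟨(q1 M hM _ p1).1, p5, p2⟩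
  · intro M hM x hx
    have hFF : S.FF (Bl σ) M := hM.ff.mono (hT.2 σ hσ)
    obtain ⟨y', p1, p2⟩ := q2 M hM x hx
    have p3 := (q1 M hM _ p1).2
    obtain ⟨v, hv, z', hz', e1⟩ := hM.ff.dens σ hσ r' (y' (.inr ())) p3
    have hvX : (S.X σ r').S1 M v := by
      have e2 : v = y' (.inr ()) - z' := by rw [e1, add_sub_cancel_right]
      rw [e2]
      exact IsDef.sub_mem dX (y := fun _ => y' (.inr ())) (z := fun _ => z') p3
        (h1 M hFF z' hz')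
    obtain ⟨y, hy, hvy⟩ := h2 M hFF v hvX
    have hvy' : v = lin ((S.Y σ r).out ()) y := hvy ()
    refine ⟨Sum.elim (fun _ => x) y, ⟨fun _ => y' (.inr ()), ?_, ?_, ?_, ?_, ?_⟩, rfl⟩
    · have e3 : (Sum.elim (fun _ => x) (fun _ => y' (.inr ())) : Unit ⊕ Unit → M) = y' := by
        funext k
        rcases k with k | k
        · exact p2.symm
        · rfl
      change Γ' M (Sum.elim (fun _ => x) (fun _ => y' (.inr ())))
      rw [e3]
      exact p1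
    · change lin ((S.Y σ r).out ()) y ∈ M.P (.inr σ)
      rw [← hvy']
      exact hv
    · change (S.X σ r').S1 M (lin ((S.Y σ r).out ()) y)
      rw [← hvy']
      exact hvX
    · change (S.Y σ r').S1 M (y' (.inr ()) - lin ((S.Y σ r).out ()) y)
      rw [← hvy', e1, add_sub_cancel_left]
      exact hz'
    · exact hy
  · rintro f ⟨w, p1, p2, p3, p4, p5⟩
    have e1 := q3 _ p1
    rw [Fintype.sum_unique] at e1
    have e2 := hb _ p5
    rw [e2]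
    refine Eq.trans e1 ?_
    have e3 := k1 _ ⟨p2, p3⟩
    have e4 := k2 _ p4
    rw [hgg, map_add, e3, zero_add]
    exact sub_eq_zero.1 e4

/-- One direction for `U`. -/
theorem OK_U_mono67 (h : S.OK G Bl) {τ : S.Tp} (hτ : τ ∈ G) {l l' : ℕ} (hl : l ≤ l') :
    S.LeF (Bl τ) (S.U τ l').S1 (S.U τ l).S1 := by
  induction l', hl using Nat.le_induction with
  | base => exact leF_refl67 _
  | succ n _ ih => exact leF_trans67 (h.UU τ hτ n) ih

theorem cell_red (h : S.OK G Bl) {T : Set S.Tp} (hT : S.Down G Bl T) {B : Obj K S.L}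
    (hB : S.Mod T B) (hNU : S.NU T B) (hG : S.AllGood T) {σ : S.Tp} (hσ : σ ∈ T)
    (hI : ∀ (κ : Type) [Fintype κ] (φ : SF K S.L κ), IsDef (S.lab (Bl σ)) φ → ∀ b : κ → B,
      ¬ Kills B φ b → S.Red T B φ b)
    (r : Rl) {b : Fin (S.Y σ r).n → B} (hb : ¬ Kills B (FSig S σ r) b) :
    S.Red T B (FSig S σ r) b := by
  have hσG : σ ∈ G := hT.1 hσ
  have hFB : S.FF (Bl σ) B.dual := (Mod.ff h hT hB).mono (hT.2 σ hσ)
  have hmono : ∀ {F H : SF1 K S.L}, S.LeF (Bl σ) F H → ∀ {g : B},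
      Kills1 B (fun M x => x ∈ M.P (.inr σ) ∧ H M x) g →
      Kills1 B (fun M x => x ∈ M.P (.inr σ) ∧ F M x) g :=
    fun hFH _ hg f hf => hg f ⟨hf.1, hFH _ hFB f hf.2⟩
  have dHom : IsDef (S.lab (Bl σ))
      (fun (M : Obj K S.L) (y : Fin (S.Y σ r).n → M) => (S.Y σ r).toPre.Hom M y) :=
    IsDef.hom _ (h.labY hσG r)
  by_cases hk : Kills B (fun M (y : Fin (S.Y σ r).n → M) =>
    (S.Y σ r).toPre.Hom M y ∧ lin ((S.Y σ r).out ()) y = 0) b
  swap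
  · refine red_mono67 ?_ (hI _ _ (dHom.and (IsDef.eq0 _)) b hk)
    rintro M hM y ⟨h1, h2⟩
    exact ⟨h1, by rw [h2]; exact (M.P _).zero_mem⟩
  -- the element `g`
  obtain ⟨g, hbg⟩ : ∃ g : B, ∀ y : Fin (S.Y σ r).n → B.dual, (S.Y σ r).toPre.Hom B.dual y →
      ∑ k, (y k : Module.Dual K B) (b k) =
        (lin ((S.Y σ r).out ()) y : Module.Dual K B) g := by
    have dF : IsDef (S.lab (Bl σ)) (fun (M : Obj K S.L) (y : Fin (S.Y σ r).n ⊕ Unit → M) =>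
        (S.Y σ r).toPre.Hom M (fun k => y (.inl k)) ∧
          lin (Sum.elim ((S.Y σ r).out ()) (fun _ => -1)) y = 0) := by
      refine IsDef.and ?_ (IsDef.eq0 _)
      refine (IsDef.subst (κ := Fin (S.Y σ r).n ⊕ Unit) dHom (fun i => fone (.inl i))).congr
        fun M w => ?_
      simp only [lin_fone]
    have e0 : ∀ (M : Obj K S.L) (x : Unit → M), lin (fun _ : Unit => (-1 : K)) x = -x () := by
      intro M x
      simp [lin]
    obtain ⟨b', hb'⟩ := kills_zero dF (b := b) (by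
      rintro f ⟨h1, h2⟩
      refine hk f ⟨h1, ?_⟩
      rw [lin_elim, e0] at h2
      have h3 : lin ((S.Y σ r).out ()) f + -(0 : B.dual) = 0 := h2
      rw [neg_zero, add_zero] at h3
      exact h3)
    refine ⟨-b' (), fun y hy => ?_⟩
    have h1 := hb' (Sum.elim y (fun _ => lin ((S.Y σ r).out ()) y)) ⟨hy, by
      rw [lin_elim, e0]
      exact add_neg_cancel _⟩
    rw [Fintype.sum_sum_type] at h1
    simp only [Finset.univ_unique, Finset.sum_singleton] at h1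
    rw [map_neg]
    exact eq_neg_of_add_eq_zero_left h1
  have hVY : ¬ Kills1 B (fun M x => x ∈ M.P (.inr σ) ∧ (S.Y σ r).S1 M x) g := by
    intro h1
    refine hb fun f hf => ?_
    rw [hbg f hf.1]
    exact h1 _ ⟨hf.2, f, hf.1, fun _ => rfl⟩
  by_cases hc : ∃ l, ¬ Kills1 B (fun M x => (x ∈ M.P (.inr σ) ∧ (S.Z σ l).S1 M x) ∧
    (S.Y σ r).S1 M x) g
  · classical
    -- minimal `l`
    obtain ⟨l, hl, hmin⟩ : ∃ l, ¬ Kills1 B (fun M x => (x ∈ M.P (.inr σ) ∧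
        (S.Z σ l).S1 M x) ∧ (S.Y σ r).S1 M x) g ∧ ∀ l' < l, Kills1 B (fun M x =>
        (x ∈ M.P (.inr σ) ∧ (S.Z σ l').S1 M x) ∧ (S.Y σ r).S1 M x) g :=
      ⟨Nat.find hc, Nat.find_spec hc, fun l' hl' => not_not.1 (Nat.find_min hc hl')⟩
    have hZY : S.LeF (Bl σ) (S.Z σ l).S1 (S.Y σ r).S1 := by
      cases r with
      | u n => exact h.ZU σ hσG l n
      | d q =>
        refine h.Z_mono hσG ?_
        by_contra hlq
        exact hVY fun f hf => hmin q (not_le.1 hlq) f ⟨hf, hf.2⟩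
    have hlk : ¬ Kills1 B (fun M x => x ∈ M.P (.inr σ) ∧ (S.Z σ l).S1 M x) g :=
      fun h1 => hl fun f hf => h1 f hf.1
    obtain ⟨k, rfl⟩ : ∃ k, l = k + 1 := by
      rcases Nat.eq_zero_or_pos l with h0 | h0
      · exfalso
        subst h0
        refine hlk fun f hf => ?_
        have h1 : f = 0 := h.Z0 σ hσG _ hFB f hf.2
        rw [h1]
        rfl
      · exact ⟨l - 1, by omega⟩
    have hkk : Kills1 B (fun M x => x ∈ M.P (.inr σ) ∧ (S.Z σ k).S1 M x) g :=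
      fun f hf => hmin k (Nat.lt_succ_self k) f ⟨hf, hZY _ hFB f
        (h.Z_mono hσG (Nat.le_succ k) _ hFB f hf.2)⟩
    by_cases hD : Kills1 B (fun M x => x ∈ M.P (.inr σ) ∧ (S.D σ k).S1 M x) g
    · exact (uniform_lemma h hT hB hNU hσ (dFam h hσG k) (fun _ _ _ => leF_refl67 _)
        (hG.dic σ hσ k) (fun _ => hlk) (fun _ => hD)).elim
    · exact rule_red h hT hB hσ hI r (.d k) (h.ZD σ hσG k)
        (leF_trans67 (h.DZ σ hσG k) hZY) hkk hD hbg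
  · have hc' : ∀ l, Kills1 B (fun M x => (x ∈ M.P (.inr σ) ∧ (S.Z σ l).S1 M x) ∧
        (S.Y σ r).S1 M x) g := fun l => not_not.1 fun h1 => hc ⟨l, h1⟩
    cases r with
    | d q => exact absurd (fun f hf => hc' q f ⟨hf, hf.2⟩) hVY
    | u n =>
      have hZ : ∀ l, Kills1 B (fun M x => x ∈ M.P (.inr σ) ∧ (S.Z σ l).S1 M x) g :=
        fun l f hf => hc' l f ⟨hf, h.ZU σ hσG l n _ hFB f hf.2⟩
      by_cases hU : ∃ m, Kills1 B (fun M x => x ∈ M.P (.inr σ) ∧ (S.U σ m).S1 M x) g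
      · classical
        obtain ⟨m, hm, hmin⟩ : ∃ m, Kills1 B (fun M x => x ∈ M.P (.inr σ) ∧
            (S.U σ m).S1 M x) g ∧ ∀ m' < m, ¬ Kills1 B (fun M x => x ∈ M.P (.inr σ) ∧
            (S.U σ m').S1 M x) g :=
          ⟨Nat.find hU, Nat.find_spec hU, fun m' hm' => Nat.find_min hU hm'⟩
        have hnm : n < m := by
          by_contra h1
          exact hVY (hmono (OK_U_mono67 h hσG (not_lt.1 h1)) hm)
        obtain ⟨k, rfl⟩ : ∃ k, m = k + 1 := ⟨m - 1, by omega⟩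
        exact rule_red h hT hB hσ hI (.u n) (.u (k + 1)) (h.UU σ hσG k)
          (OK_U_mono67 h hσG (Nat.lt_succ_iff.1 hnm)) hm (hmin k (Nat.lt_succ_self k)) hbg
      · exact (uniform_lemma h hT hB hNU hσ (gFam h hσG)
          (fun m m' hmm => OK_U_mono67 h hσG hmm) (hG.good σ hσ)
          (fun m h1 => hU ⟨m, h1⟩) hZ).elim

end Pool.Agent.Helper13.SDW
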