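import Pool.Agent.Helper13.SDW.Reach

/-!
# BLOCK SDW-FCL: the finiteness condition for limit types (about 200 lines)

`S.Trunc T τ`: for every formula `P` over `T` there is `i₀` such that for all `i ≥ i₀` and `M ∈ FF_T` there is
a structure `M'` on the same space in `FF_T` with `P(M') ⊆ P(M)`, `U_0(M') ⊆ U_0(M)`, `D_l(M') ⊆ D_l(M)` for `l ≤ i`
and `U_{i+1}(M) ⊆ Z_{i+1}(M')`.

Proof of FC. Let `Bg` be the union of all `Cf U_0 R`, `R ∈ Reach P`; by `Reach.exists_max` there is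
`R₁ ∈ Reach P` with `Cf U_0 R₁ = Bg`. Note `(ρ, d l)` is legal for `R` iff `ρ ∈ Cf Z_l R`.
CLAIM: for `i ≥ i₀`, `R ∈ Reach P`, `ρ ∈ Cf Z_{i+1} R`: `ρ ∈ Bg`.
For `R` we consider the invariant `Inv R`: there are finitely many pairs `(ρ_j, l_j)`, `l_j ≤ i`, with
`ρ_j ⊗ D_{l_j} ≤ R` and `R ≤ P + ∑ (elements of Bg) ⊗ U_0 + ∑ ρ_j ⊗ D_{l_j}` in `FF_T` (pointwise:
every `y` with `R M y` is a finite sum of this form; e.g. use a list of pairs `(ρ, F₁)` with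
`F₁ = U_0`, `ρ ∈ Bg`, or `F₁ = D_l`, `l ≤ i`, `ρ ∈ Cf D_l R`, and an inductive predicate sum over the list).
(1) `Inv R`, `R ∈ Reach P` imply the claim for `R`: let `ρ ⊗ Z_{i+1} ≤ R` in `FF_T`. For `M ∈ FF_T`, `x ∈ U_{i+1}(M)`
    let `M'` be as in `Trunc` for `P`: `x ∈ Z_{i+1}(M')`, so `ρ x ∈ R(M')`, which is a sum of elements of
    `P(M') ⊆ P(M)`, `Bg ⊗ U_0(M')`, `ρ_j ⊗ D_{l_j}(M')`; so `ρ x ∈ P(M) + Bg ⊗ U_0(M) + ∑ ρ_j ⊗ D_{l_j}(M)`
    `⊆ R(M) + R₁(M) ⊆ R₃(M)`, `R₃ ∈ Reach P` by `Reach.directed`. So `(ρ, u (i+1))` is legal for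
    `R₃`, and `reach_u` gives `ρ ∈ Bg`.
(2) `Inv` holds for all `R ∈ Reach P`: induction. Step `R' = R + ρ ⊗ X_r`, `(ρ, r)` legal for `R`, `Inv R`: if `ρ ∈ Bg`:
    `X_r ≤ U_0` (`XY_le_U0`). If `ρ ∉ Bg`: `r = u n` is impossible by `reach_u`; `r = d l`: if `l ≥ i + 1` then
    `Z_{i+1} ≤ Z_l`, so `ρ ∈ Cf Z_{i+1} R ⊆ Bg` by (1); so `l ≤ i`: add the pair `(ρ, l)`.
Now let `l₀ = i₀ + 1`. By `Reach.exists_max` take `C₀ ∈ Reach P` which is maximal for `U_0` and `Z_l`, `l ≤ l₀`. For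
each `l ≤ l₀` choose a finite spanning family of the subspace `Cf Z_l C₀` and add `ρ ⊗ D_l` for its members
(legal; finitely many steps `Reach.step` with `r = d l`): `C ∈ Reach P`, `C₀ ≤ C`, `Cf Z_l C₀ ⊗ D_l ≤ C`
for `l ≤ l₀`. Check: `(ρ, d l)` legal for `C`, `l ≤ l₀`: `ρ ∈ Cf Z_l C ⊆ Cf Z_l C₀`, so `ρ ⊗ D_l ≤ C`. `l ≥ l₀`:
`Z_{l₀} ≤ Z_l`, so `ρ ∈ Bg` by the claim (`i = i₀`), `ρ ⊗ U_0 ≤ C₀ ≤ C`, and `D_l ≤ U_0`. `(ρ, u n)` legal:
`ρ ∈ Bg` by `reach_u`, and `X_{u n} ≤ U_0`.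
-/

namespace Pool.Agent.Helper13.SDW

universe u

variable {K : Type u} [Field K] {S : Sys K} {G : Set S.Tp} {B : S.Tp → Set S.Tp}

/-- Truncations of the structures in `FF_T` for the type `τ`. -/
def Sys.Trunc (S : Sys K) (T : Set S.Tp) (τ : S.Tp) : Prop :=
  ∀ (κ : Type) [Fintype κ] (P : SF K S.L κ), IsDef (S.lab T) P → ∃ i₀ : ℕ, ∀ i, i₀ ≤ i →
    ∀ M : Obj K S.L, S.FF T M → ∃ Q : S.L → Submodule K M,
      S.FF T { carrier := M, P := Q } ∧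
      (∀ y : κ → M, P { carrier := M, P := Q } y → P M y) ∧
      (∀ x : M, (S.U τ 0).S1 { carrier := M, P := Q } x → (S.U τ 0).S1 M x) ∧
      (∀ l, l ≤ i → ∀ x : M, (S.D τ l).S1 { carrier := M, P := Q } x → (S.D τ l).S1 M x) ∧
      ∀ x : M, (S.U τ (i + 1)).S1 M x → (S.Z τ (i + 1)).S1 { carrier := M, P := Q } x

/-- The sums of an element of `P` and of elements of `ρ ⊗ U_0`, `ρ ∈ Bg`, and `ρ ⊗ D_l`, `l ≤ i`,
`ρ ∈ Cf D_l R`. -/
inductive FclGen (S : Sys K) (T : Set S.Tp) (τ : S.Tp) (i : ℕ) {κ : Type} (Bg : Set (κ → K))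
    (R P : SF K S.L κ) (M : Obj K S.L) : (κ → M) → Prop
  | base {y : κ → M} : P M y → FclGen S T τ i Bg R P M y
  | addU {y : κ → M} (ρ : κ → K) (x : M) : FclGen S T τ i Bg R P M y → ρ ∈ Bg →
      (S.U τ 0).S1 M x → FclGen S T τ i Bg R P M (fun k => y k + ρ k • x)
  | addD {y : κ → M} (ρ : κ → K) (l : ℕ) (x : M) : FclGen S T τ i Bg R P M y → l ≤ i →
      ρ ∈ Cf S T (S.D τ l).S1 R → (S.D τ l).S1 M x →
      FclGen S T τ i Bg R P M (fun k => y k + ρ k • x)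

section fcl

variable {T : Set S.Tp} {τ : S.Tp} {κ : Type}

private theorem fcl_transfer {i : ℕ} {Bg : Set (κ → K)} {R P : SF K S.L κ} {M : Obj K S.L}
    {Q : S.L → Submodule K M}
    (h1 : ∀ y : κ → M, P { carrier := M, P := Q } y → P M y)
    (h2 : ∀ x : M, (S.U τ 0).S1 { carrier := M, P := Q } x → (S.U τ 0).S1 M x)
    (h3 : ∀ l, l ≤ i → ∀ x : M, (S.D τ l).S1 { carrier := M, P := Q } x → (S.D τ l).S1 M x)
    {y : κ → ({ carrier := M, P := Q } : Obj K S.L)}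
    (hy : FclGen S T τ i Bg R P { carrier := M, P := Q } y) :
    FclGen S T τ i Bg R P M y := by
  induction hy with
  | base h => exact FclGen.base (M := M) (h1 _ h)
  | addU ρ x _ hρ hx ih => exact FclGen.addU (M := M) ρ x ih hρ (h2 _ hx)
  | addD ρ l x _ hl hρ hx ih => exact FclGen.addD (M := M) ρ l x ih hl hρ (h3 l hl _ hx)

private theorem fcl_mono {i : ℕ} {Bg : Set (κ → K)} {R R' P : SF K S.L κ} {M : Obj K S.L}
    (h : ∀ l, l ≤ i → Cf S T (S.D τ l).S1 R ⊆ Cf S T (S.D τ l).S1 R')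
    {y : κ → M} (hy : FclGen S T τ i Bg R P M y) :
    FclGen S T τ i Bg R' P M y := by
  induction hy with
  | base h => exact .base h
  | addU ρ x _ hρ hx ih => exact .addU ρ x ih hρ hx
  | addD ρ l x _ hl hρ hx ih => exact .addD ρ l x ih hl (h l hl hρ) hx

/-- A formula which contains `P`, `Bg ⊗ U_0` and all `ρ ⊗ D_l` contains the sums. -/
private theorem fcl_le {Λ : Set S.L} {i : ℕ} {Bg : Set (κ → K)} {R P C : SF K S.L κ}
    (hC : IsDef Λ C) {M : Obj K S.L} (hM : S.FF T M) (h1 : ∀ y : κ → M, P M y → C M y)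
    (h2 : Bg ⊆ Cf S T (S.U τ 0).S1 C) (h3 : ∀ y : κ → M, R M y → C M y)
    {y : κ → M} (hy : FclGen S T τ i Bg R P M y) : C M y := by
  induction hy with
  | base h => exact h1 _ h
  | addU ρ x _ hρ hx ih => exact hC.add_mem ih (h2 hρ M hM x hx)
  | addD ρ l x _ hl hρ hx ih => exact hC.add_mem ih (h3 _ (hρ M hM x hx))

private theorem fcl_S1_zero (φ : Fm K S.L Unit) (M : Obj K S.L) : φ.S1 M 0 :=
  (IsDef.fm (Λ := Set.univ) φ fun _ _ => Set.mem_univ _).zero_mem M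

private theorem fcl_sum_left {Λ : Set S.L} {R : SF K S.L κ} (_hR : IsDef Λ R) (ρ : κ → K)
    (φ : Fm K S.L Unit) (M : Obj K S.L) (y : κ → M) (hy : R M y) :
    sumF R (tens ρ φ.S1) M y :=
  ⟨y, fun k => ρ k • 0, hy, ⟨0, fcl_S1_zero φ M, fun _ => rfl⟩, fun k => by
    simp only [smul_zero, add_zero]⟩

private theorem fcl_sum_right {Λ : Set S.L} {R : SF K S.L κ} (hR : IsDef Λ R) (ρ : κ → K)
    (φ : Fm K S.L Unit) (M : Obj K S.L) (x : M) (hx : φ.S1 M x) :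
    sumF R (tens ρ φ.S1) M (fun k => ρ k • x) :=
  ⟨fun _ => 0, fun k => ρ k • x, hR.zero_mem M, ⟨x, hx, fun _ => rfl⟩, fun k => by
    simp only [zero_add]⟩

/-- `Z_l` is increasing. -/
private theorem fcl_ZZ (h : S.OK G B) (hτ : τ ∈ G) {l m : ℕ} (hlm : l ≤ m) :
    S.LeF (B τ) (S.Z τ l).S1 (S.Z τ m).S1 := by
  induction hlm with
  | refl => exact fun M _ x hx => hx
  | step _ ih => exact fun M hM x hx => h.DZ τ hτ _ M hM x (h.ZD τ hτ _ M hM x (ih M hM x hx))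

/-- The coefficients are a subspace. -/
private def fclCf {Λ : Set S.L} {R : SF K S.L κ} (hR : IsDef Λ R) (T : Set S.Tp)
    (F₁ : SF1 K S.L) : Submodule K (κ → K) where
  carrier := Cf S T F₁ R
  add_mem' := fun {a b} ha hb M hM x hx => by
    have h1 := hR.add_mem (ha M hM x hx) (hb M hM x hx)
    have e : (fun k => (a + b) k • x) = fun k => a k • x + b k • x := by
      funext k
      rw [Pi.add_apply, add_smul]
    rw [e]
    exact h1
  zero_mem' := fun M hM x hx => by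
    have e : (fun k => (0 : κ → K) k • x) = fun _ => 0 := by
      funext k
      rw [Pi.zero_apply, zero_smul]
    rw [e]
    exact hR.zero_mem M
  smul_mem' := fun c a ha M hM x hx => by
    have h1 := hR.smul_mem c (ha M hM x hx)
    have e : (fun k => (c • a) k • x) = fun k => c • a k • x := by
      funext k
      rw [Pi.smul_apply, smul_eq_mul, mul_smul]
    rw [e]
    exact h1

/-- Adding `ρ ⊗ D_l` for all coefficients `ρ` with `ρ ⊗ Z_l ≤ C₀`. -/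
private theorem fcl_add (h : S.OK G B) (hτ : τ ∈ G) (hB : B τ ⊆ T) [Fintype κ]
    {P C₀ C' : SF K S.L κ} (hP : IsDef (S.lab T) P) (hC₀ : S.Reach T τ P C₀)
    (hC' : S.Reach T τ P C') (hle : ∀ (M : Obj K S.L) (y : κ → M), C₀ M y → C' M y) (l : ℕ) :
    ∃ C'', S.Reach T τ P C'' ∧ (∀ (M : Obj K S.L) (y : κ → M), C' M y → C'' M y) ∧
      Cf S T (S.Z τ l).S1 C₀ ⊆ Cf S T (S.D τ l).S1 C'' := by
  classical
  have hd₀ := Reach.isDef h hτ hB hP hC₀
  have key : ∀ s : Finset (κ → K), (∀ ρ ∈ s, ρ ∈ Cf S T (S.Z τ l).S1 C₀) →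
      ∃ C'', S.Reach T τ P C'' ∧ (∀ (M : Obj K S.L) (y : κ → M), C' M y → C'' M y) ∧
        ∀ ρ ∈ s, ρ ∈ Cf S T (S.D τ l).S1 C'' := by
    intro s
    induction s using Finset.induction_on with
    | empty => exact fun _ => ⟨C', hC', fun _ _ hy => hy, fun ρ hρ => absurd hρ (Finset.notMem_empty ρ)⟩
    | insert ρ s _ ih =>
      intro hs
      obtain ⟨C₁, h1, h2, h3⟩ := ih fun σ hσ => hs σ (Finset.mem_insert_of_mem hσ)
      have hd₁ := Reach.isDef h hτ hB hP h1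
      refine ⟨sumF C₁ (tens ρ (S.X τ (.d l)).S1), .step ρ (.d l) h1 ?_ (by simp), ?_, ?_⟩
      · intro M hM y hy
        exact h2 M _ (hle M _ (hs ρ (Finset.mem_insert_self _ _) M hM y hy))
      · exact fun M y hy => fcl_sum_left hd₁ ρ _ M y (h2 M y hy)
      · intro σ hσ
        rcases Finset.mem_insert.1 hσ with rfl | hσ
        · exact fun M _ x hx => fcl_sum_right hd₁ σ (S.X τ (.d l)) M x hx
        · exact fun M hM x hx => fcl_sum_left hd₁ ρ _ M _ (h3 σ hσ M hM x hx)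
  obtain ⟨s, hs⟩ := (IsNoetherian.noetherian (fclCf hd₀ T (S.Z τ l).S1))
  obtain ⟨C'', h1, h2, h3⟩ := key s fun ρ hρ => by
    have h4 : ρ ∈ fclCf hd₀ T (S.Z τ l).S1 := by
      rw [← hs]
      exact Submodule.subset_span hρ
    exact h4
  refine ⟨C'', h1, h2, ?_⟩
  have hd'' := Reach.isDef h hτ hB hP h1
  have h5 : fclCf hd₀ T (S.Z τ l).S1 ≤ fclCf hd'' T (S.D τ l).S1 := by
    rw [← hs, Submodule.span_le]
    exact fun ρ hρ => h3 ρ hρ
  exact fun ρ hρ => h5 hρ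

private theorem fcl_addAll (h : S.OK G B) (hτ : τ ∈ G) (hB : B τ ⊆ T) [Fintype κ]
    {P C₀ : SF K S.L κ} (hP : IsDef (S.lab T) P) (hC₀ : S.Reach T τ P C₀) (m : ℕ) :
    ∃ C, S.Reach T τ P C ∧ (∀ (M : Obj K S.L) (y : κ → M), C₀ M y → C M y) ∧
      ∀ l, l < m → Cf S T (S.Z τ l).S1 C₀ ⊆ Cf S T (S.D τ l).S1 C := by
  induction m with
  | zero => exact ⟨C₀, hC₀, fun _ _ hy => hy, fun l hl => absurd hl (Nat.not_lt_zero l)⟩
  | succ m ih =>
    obtain ⟨C', h1, h2, h3⟩ := ih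
    obtain ⟨C'', k1, k2, k3⟩ := fcl_add h hτ hB hP hC₀ h1 h2 m
    refine ⟨C'', k1, fun M y hy => k2 M y (h2 M y hy), fun l hl => ?_⟩
    rcases Nat.lt_succ_iff_lt_or_eq.1 hl with hl | rfl
    · exact fun ρ hρ M hM x hx => k2 M _ (h3 l hl hρ M hM x hx)
    · exact k3

end fcl

theorem fc_limit (h : S.OK G B) {T : Set S.Tp} {τ : S.Tp} (hτ : τ ∈ G) (hB : B τ ⊆ T)
    (hTr : S.Trunc T τ) : S.FC T τ := by
  classical
  intro κ _ P hP
  obtain ⟨i₀, hi₀⟩ := hTr κ P hP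
  obtain ⟨C₀, hC₀, hmax⟩ := Reach.exists_max h hτ hB hP
    (insert (S.U τ 0).S1 ((fun l => (S.Z τ l).S1) '' Set.Iic (i₀ + 1)))
    (((Set.finite_Iic _).image _).insert _)
  have hmaxU : ∀ R, S.Reach T τ P R → Cf S T (S.U τ 0).S1 R ⊆ Cf S T (S.U τ 0).S1 C₀ :=
    hmax _ (Set.mem_insert _ _)
  have hmaxZ : ∀ l, l ≤ i₀ + 1 → ∀ R, S.Reach T τ P R →
      Cf S T (S.Z τ l).S1 R ⊆ Cf S T (S.Z τ l).S1 C₀ :=
    fun l hl => hmax _ (Set.mem_insert_of_mem _ ⟨l, hl, rfl⟩)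
  have hdef : ∀ R, S.Reach T τ P R → IsDef (S.lab T) R := fun R hR =>
    Reach.isDef h hτ hB hP hR
  set Bg : Set (κ → K) := Cf S T (S.U τ 0).S1 C₀ with hBg
  -- the claim for `R` from the invariant for `R`
  have claim1 : ∀ i, i₀ ≤ i → ∀ R, S.Reach T τ P R →
      (∀ M : Obj K S.L, S.FF T M → ∀ y : κ → M, R M y → FclGen S T τ i Bg R P M y) →
      Cf S T (S.Z τ (i + 1)).S1 R ⊆ Bg := by
    intro i hi R hR hInv ρ hρ
    obtain ⟨R₃, hR₃, -, hle⟩ := Reach.directed hR hC₀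
    have hleg : S.Legal T τ R₃ ρ (.u (i + 1)) := by
      intro M hM x hx
      obtain ⟨Q, q1, q2, q3, q4, q5⟩ := hi₀ i hi M hM
      have hx' : (S.Z τ (i + 1)).S1 { carrier := M, P := Q } x := q5 x hx
      have h1 := hInv _ q1 _ (hρ _ q1 x hx')
      have h2 := fcl_transfer q2 q3 q4 h1
      have h3 : Bg ⊆ Cf S T (S.U τ 0).S1 R₃ := fun σ hσ M' hM' x' hx' =>
        hle M' _ (Or.inr (hσ M' hM' x' hx'))
      exact fcl_le (hdef R₃ hR₃) hM (fun y hy => Reach.le hR₃ M y hy) h3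
        (fun y hy => hle M y (Or.inl hy)) h2
    obtain ⟨R', hR', hρ'⟩ := reach_u h hτ hB hR₃ hleg
    exact hmaxU R' hR' hρ'
  -- the invariant
  have inv : ∀ i, i₀ ≤ i → ∀ R, S.Reach T τ P R →
      ∀ M : Obj K S.L, S.FF T M → ∀ y : κ → M, R M y → FclGen S T τ i Bg R P M y := by
    intro i hi R hR
    induction hR with
    | base => exact fun M _ y hy => .base hy
    | @step R ρ r hR hleg hr ih =>
      intro M hM y hy
      obtain ⟨a, b, ha, ⟨x, hx, hb⟩, hyab⟩ := hy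
      have hd := hdef R hR
      have h1 := fcl_mono (R' := sumF R (tens ρ (S.X τ r).S1))
        (fun l _ σ hσ M' hM' x' hx' => fcl_sum_left hd ρ (S.X τ r) M' _ (hσ M' hM' x' hx'))
        (ih M hM a ha)
      have hye : y = fun k => a k + ρ k • x := by
        funext k
        rw [hyab k, hb k]
      rw [hye]
      by_cases hρ : ρ ∈ Bg
      · exact .addU ρ x h1 hρ ((h.XY_le_U0 hτ r).1 M (hM.mono hB) x hx)
      · cases r with
        | u n =>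
          obtain ⟨R', hR', hρ'⟩ := reach_u h hτ hB hR hleg
          exact absurd (hmaxU R' hR' hρ') hρ
        | d l =>
          rcases Nat.lt_or_ge i l with hl | hl
          · exfalso
            refine hρ (claim1 i hi R hR ih ?_)
            intro M' hM' x' hx'
            exact hleg M' hM' x' (fcl_ZZ h hτ hl M' (hM'.mono hB) x' hx')
          · exact .addD ρ l x h1 hl (fun M' _ x' hx' =>
              fcl_sum_right hd ρ (S.X τ (.d l)) M' x' hx') hx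
  have claim : ∀ R, S.Reach T τ P R → Cf S T (S.Z τ (i₀ + 1)).S1 R ⊆ Bg := fun R hR =>
    claim1 i₀ le_rfl R hR (inv i₀ le_rfl R hR)
  obtain ⟨C, hC, hle, hadd⟩ := fcl_addAll h hτ hB hP hC₀ (i₀ + 2)
  have hBgC : ∀ ρ ∈ Bg, ∀ M : Obj K S.L, S.FF T M → ∀ x : M, (S.U τ 0).S1 M x →
      C M (fun k => ρ k • x) := fun ρ hρ M hM x hx => hle M _ (hρ M hM x hx)
  have hbig : ∀ l, i₀ + 1 ≤ l → ∀ ρ, S.Legal T τ C ρ (.d l) → ρ ∈ Bg := by
    intro l hl ρ hρ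
    refine claim C hC ?_
    intro M hM x hx
    exact hρ M hM x (fcl_ZZ h hτ hl M (hM.mono hB) x hx)
  refine ⟨C, hC, ?_, i₀ + 1, fun l hl ρ hρ => Or.inl (hBgC ρ (hbig l hl ρ hρ))⟩
  intro ρ r hleg M hM x hx
  cases r with
  | u n =>
    obtain ⟨R', hR', hρ'⟩ := reach_u h hτ hB hC hleg
    exact hBgC ρ (hmaxU R' hR' hρ') M hM x ((h.XY_le_U0 hτ _).1 M (hM.mono hB) x hx)
  | d l =>
    rcases Nat.lt_or_ge l (i₀ + 2) with hl | hl
    · exact hadd l hl (hmaxZ l (by omega) C hC hleg) M hM x hx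
    · exact hBgC ρ (hbig l (by omega) ρ hleg) M hM x ((h.XY_le_U0 hτ _).1 M (hM.mono hB) x hx)

end Pool.Agent.Helper13.SDW
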