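import Pool.Agent.Helper13.SDW.LD2
import Pool.Agent.Helper13.SDW.FCl

/-!
# The concrete system (definitions)

Names are pairs `(t, j)`, `t` a term, `j : ℕ`; nodes are lists of pairs (name, number). The types are the
dummies `(λ, ω)` and the terms. A term `mk f sk h` consists of countably many sub-terms `f n`, the positions
`sk i`, in which the sub-terms are referred to by numbers, and a function `h`.
-/

namespace Pool.Agent.Helper13.SDW

universe u

/-- Nodes, types and labels over a set `X` of terms. -/
abbrev NodeF (X : Type u) : Type u := List ((X × ℕ) × ℕ)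
abbrev TpF (X : Type u) : Type u := (NodeF X × (X × ℕ)) ⊕ X
abbrev LabF (X : Type u) : Type u := NodeF X ⊕ TpF X

/-- A position of a limit type: a node `a`, a presentation `E` with a distinguished variable `c` and a
linear form `b`, a presentation `Kp` with a linear form `k`. -/
structure Pos (K : Type u) (X : Type u) : Type u where
  a : NodeF X
  E : Pre K (LabF X)
  c : Fin E.n
  b : Fin E.n → K
  Kp : Pre K (LabF X)
  k : Fin Kp.n → K

variable {K : Type u} {X Y : Type u}

def NodeF.map (f : X → Y) (a : NodeF X) : NodeF Y := List.map (fun p => ((f p.1.1, p.1.2), p.2)) a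

def LabF.map (f : X → Y) : LabF X → LabF Y
  | .inl a => .inl (NodeF.map f a)
  | .inr (.inl (a, w)) => .inr (.inl (NodeF.map f a, (f w.1, w.2)))
  | .inr (.inr t) => .inr (.inr (f t))

/-- Change of the labels of a presentation. -/
def Pre.mapL {L L' : Type u} (g : L → L') (G : Pre K L) : Pre K L' :=
  ⟨G.n, G.c.map fun q => (g q.1, q.2)⟩

def Pos.map (f : X → Y) (p : Pos K X) : Pos K Y where
  a := NodeF.map f p.a
  E := p.E.mapL (LabF.map f)
  c := p.c
  b := p.b
  Kp := p.Kp.mapL (LabF.map f)
  k := p.k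

/-- The terms. -/
inductive Ty (K : Type u) : Type u
  | base
  | mk (f : ℕ → Ty K) (sk : ℕ → Pos K (ULift.{u} ℕ)) (h : ℕ → ℕ)

namespace Ty

/-- The trivial position. -/
def pos0 (K : Type u) [Field K] (X : Type u) : Pos K X where
  a := []
  E := Pre.one K (.inl [])
  c := (0 : Fin 1)
  b := fun _ => 0
  Kp := Pre.nil K _
  k := fun _ => 0

variable {K : Type u} [Field K]

/-- The positions of a term. -/
def pos : Ty K → ℕ → Pos K (Ty K)
  | base, _ => pos0 K _
  | mk f sk _, i => (sk i).map fun n => f n.down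

/-- The function of a term. -/
def ht : Ty K → ℕ → ℕ
  | base, _ => 0
  | mk _ _ h, i => h i

/-- Truncation: `(p, h|i)`. -/
def tr : Ty K → ℕ → Ty K
  | base, _ => base
  | mk f sk h, i => mk f sk fun j => if j < i then h j else 0

/-- The private names. -/
def nm (t : Ty K) (i : ℕ) : Ty K × ℕ := (t.tr i, i)

/-- The rank. -/
noncomputable def rank : Ty K → Ordinal.{0}
  | base => 0
  | mk f _ _ => ⨆ n, (rank (f n) + 1)

end Ty

variable (K) in
/-- The parent of a node. -/
def parN : NodeF (Ty K) → NodeF (Ty K)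
  | [] => []
  | (_, 0) :: l => l
  | (w, m + 1) :: l => (w, m) :: l

/-- The chain of a dummy. -/
def chN (a : NodeF (Ty K)) (w : Ty K × ℕ) : ℕ → NodeF (Ty K)
  | 0 => a
  | m + 1 => (w, m) :: a

/-- The system without the formulas of the limit types (only the labels matter); used to define the
limit data. -/
def CS0 (K : Type u) [Field K] : Sys K where
  Nd := NodeF (Ty K)
  root := []
  par := parN K
  Tp := TpF (Ty K)
  U := fun _ _ => Fm.zero K _
  D := fun _ _ => Fm.zero K _
  Z := fun _ _ => Fm.zero K _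

variable [Field K]

/-- The limit data of a term, in a system with the same nodes and types. -/
def ldOf (t : Ty K) : LD (CS0 K) where
  a i := (t.pos i).a
  E i := (t.pos i).E
  c i := (t.pos i).c
  b i := (t.pos i).b
  Kp i := (t.pos i).Kp
  k i := (t.pos i).k
  ξ i := .inl ((t.pos (i + 1)).a, t.nm i)
  Bc i m := chN (t.pos (i + 1)).a (t.nm i) m
  m := t.ht

/-- The concrete system. -/
def CS (K : Type u) [Field K] : Sys K where
  Nd := NodeF (Ty K)
  root := []
  par := parN K
  Tp := TpF (Ty K)
  U
    | .inl (a, w), m => labFm K (.inl (chN a w m))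
    | .inr t, n => (ldOf t).U n
  D
    | .inl _, _ => Fm.zero K _
    | .inr t, l => (ldOf t).D l
  Z
    | .inl _, _ => Fm.zero K _
    | .inr t, l => (ldOf t).Z l

/-- The limit data of a term in the concrete system. -/
def ldC (t : Ty K) : LD (CS K) where
  a i := (t.pos i).a
  E i := (t.pos i).E
  c i := (t.pos i).c
  b i := (t.pos i).b
  Kp i := (t.pos i).Kp
  k i := (t.pos i).k
  ξ i := .inl ((t.pos (i + 1)).a, t.nm i)
  Bc i m := chN (t.pos (i + 1)).a (t.nm i) m
  m := t.ht

/-- `t'` is mentioned as a type in the positions of `t`. -/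
def Men (t' t : Ty K) : Prop :=
  ∃ i, (∃ q ∈ (t.pos i).E.c, q.1 = .inr (.inr t')) ∨ ∃ q ∈ (t.pos i).Kp.c, q.1 = .inr (.inr t')

/-- The dummies. -/
def Dum (K : Type u) [Field K] : Set (CS K).Tp := {τ | ∃ a w, τ = .inl (a, w)}

/-- The types below a type. -/
def Bl : (CS K).Tp → Set (CS K).Tp
  | .inl _ => ∅
  | .inr t => Dum K ∪ {τ | ∃ t', τ = .inr t' ∧ Relation.TransGen Men t' t}

/-- Well formed terms (not hereditarily). -/
def WF1 (t : Ty K) : Prop :=
  t ≠ .base ∧ (ldC t).OK (Bl (.inr t)) ∧
    ∀ n l, ¬ (CS K).LeF (Bl (.inr t)) ((ldC t).U n).S1 ((ldC t).Z l).S1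

/-- Hereditarily well formed terms. -/
def WF (t : Ty K) : Prop := ∀ t', Relation.ReflTransGen Men t' t → WF1 t'

/-- The set of all admissible types. -/
def GG (K : Type u) [Field K] : Set (CS K).Tp := {τ | τ ∈ Dum K ∨ ∃ t, τ = .inr t ∧ WF t}

/-- The class of the sets of types to which the theorems apply. -/
def TC (K : Type u) [Field K] : Set (Set (CS K).Tp) :=
  {T | (CS K).Down (GG K) Bl T ∧ (T ⊆ Dum K ∨ Dum K ⊆ T)}

end Pool.Agent.Helper13.SDW
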