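import Pool.Agent.Helper13.SDW.NiceB1

/-!
# BLOCK SDW-NICE0: niceness over the nodes (about 150 lines)

`T = ∅`: `S.lab ∅` is the set of the nodes `.inl a`, `FF ∅` are the structures with `NodeOK`. Let `F` be a
formula over `lab ∅`, given by `φ : Gf`; let `Q` be the finite set of the nodes in `φ.c` together with the
root. For a node `a` let `A a` be the structure `K` with `P (.inl b) = ⊤` if `Le a b` or `b = root`, and `⊥`
otherwise (`P (.inr τ) = ⊥`); or `(Pre.one K (.inl a)).obj`.
Let `S_a = {ρ : κ → K | F (A a) ρ}`, a subspace of `κ → K` (finite dimensional). `χ` = direct sum over `a ∈ Q`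
and a finite spanning family of `S_a` of `ρ ⊗ P_a` (`NiceF.fsum`, `NiceF.tens`; `P_a` is nice:
`Pre.one K (.inl a)`, `cofP_one`). Claim: on `CC_∅` `F = ∑_{a ∈ Q} S_a ⊗ P_a`.
`⊇`: for `x ∈ P_a(M)` there is a hom `A a → M`, `1 ↦ x`; homs preserve `F`.
`⊆`: let `M ∈ CC_∅`, `F M y`. By `CC.cx` (with `l k` = the root) there are `G`, `Cx ∅ nil G e`, `x ∈ G.Hom M`, forms
`t k` with `lin (t k) x = y k`, such that every `x' ∈ G.Hom D`, `D ∈ FF_∅`, comes from a hom `M → D`, so
`F D (lin (t k) x')`. A complex over `∅` consists of atoms only: by induction on `Cx`: each variable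
`i` has a node `a i` with `x' ∈ G.Hom D ↔ ∀ i, x' i ∈ P_{a i}(D)` (for `D` in `NodeOK`). For a variable `i` take
`D = A (a i)`, `x' = Pi.single i 1`: `F (A (a i)) (fun k => t k i)`. Let `μ ∈ Q` with `Le (a i) μ` and such that for
`ν ∈ Q`: `Le (a i) ν → Le μ ν` (write `μ = par^[n] (a i)` with `n` minimal; the root is in `Q`, `Le (a i) root`). Then
`A (a i)` and `A μ` have the same `P_ν` for `ν ∈ Q`, so `(fun k => t k i) ∈ S_μ` (only the
labels of `φ` matter), and `x i ∈ P_{a i}(M) ⊆ P_μ(M)`. So `y k = ∑ i, t k i • x i` is of the form required.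
-/

namespace Pool.Agent.Helper13.SDW

universe u

variable {K : Type u} [Field K] {S : Sys K}

theorem nb_le_step {a b : S.Nd} (h : S.Le a b) : S.Le a (S.par b) := by
  obtain ⟨n, hn⟩ := h
  exact ⟨n + 1, by rw [Function.iterate_succ_apply', hn]⟩

theorem nb_le_trans {a b c : S.Nd} (h : S.Le a b) (h' : S.Le b c) : S.Le a c := by
  obtain ⟨n, hn⟩ := h
  obtain ⟨m, hm⟩ := h'
  exact ⟨m + n, by rw [Function.iterate_add_apply, hn, hm]⟩

theorem nb_lab {l : S.L} (hl : l ∈ S.lab (∅ : Set S.Tp)) : ∃ b, l = .inl b := by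
  rcases l with b | τ
  · exact ⟨b, rfl⟩
  · exact absurd (hl τ rfl) (Set.notMem_empty _)

theorem nb_lab_inl (b : S.Nd) : (.inl b : S.L) ∈ S.lab (∅ : Set S.Tp) := by
  intro τ h
  cases h

open Classical in
/-- The structure `K` over a node. -/
noncomputable abbrev nbA (S : Sys K) (a : S.Nd) : Obj K S.L where
  carrier := K
  P := fun l => if (∃ b, l = .inl b ∧ (S.Le a b ∨ b = S.root)) then ⊤ else ⊥

theorem nbA_top {a b : S.Nd} (h : S.Le a b ∨ b = S.root) : (nbA S a).P (.inl b) = ⊤ :=
  if_pos ⟨b, rfl, h⟩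

theorem nbA_bot {a b : S.Nd} (h : ¬ (S.Le a b ∨ b = S.root)) : (nbA S a).P (.inl b) = ⊥ := by
  refine if_neg ?_
  rintro ⟨b', h1, h2⟩
  cases h1
  exact h h2

theorem nbA_ff (hr : S.par S.root = S.root) (a : S.Nd) : S.FF (∅ : Set S.Tp) (nbA S a) where
  root := nbA_top (Or.inr rfl)
  par := by
    intro b
    by_cases h : S.Le a b ∨ b = S.root
    · have h2 : S.Le a (S.par b) ∨ S.par b = S.root := by
        rcases h with h | h
        · exact Or.inl (nb_le_step h)
        · right
          rw [h, hr]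
      rw [nbA_top h2]
      exact le_top
    · rw [nbA_bot h]
      exact bot_le
  dens := fun τ hτ => absurd hτ (Set.notMem_empty _)

theorem nbA_hom {M : Obj K S.L} (hM : S.NodeOK M) {a : S.Nd} {x : M} (hx : x ∈ M.P (.inl a)) :
    ∃ f : (nbA S a) →ₗ[K] M, IsHom (S.lab (∅ : Set S.Tp)) f ∧ ∀ c : K, f c = c • x := by
  refine ⟨LinearMap.toSpanSingleton K M x, ?_, fun c => rfl⟩
  intro l hl z hz
  obtain ⟨b, rfl⟩ := nb_lab hl
  change (z : K) • x ∈ M.P (.inl b)
  by_cases h : S.Le a b ∨ b = S.root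
  · rcases h with h | h
    · exact (M.P (.inl b)).smul_mem z (hM.le h hx)
    · rw [h, hM.root]
      exact Submodule.mem_top
  · rw [nbA_bot h] at hz
    have hz0 : (z : K) = 0 := hz
    rw [hz0, zero_smul]
    exact (M.P (.inl b)).zero_mem

/-- The subspace `S_a`. -/
noncomputable def nbS {κ : Type} {F : SF K S.L κ} (hF : IsDef (S.lab (∅ : Set S.Tp)) F) (a : S.Nd) :
    Submodule K (κ → K) where
  carrier := {ρ | F (nbA S a) ρ}
  add_mem' := fun {_ _} h1 h2 => hF.add_mem h1 h2
  zero_mem' := hF.zero_mem (nbA S a)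
  smul_mem' := fun c _ h => hF.smul_mem c h

theorem mem_nbS {κ : Type} {F : SF K S.L κ} (hF : IsDef (S.lab (∅ : Set S.Tp)) F) (a : S.Nd)
    (ρ : κ → K) : ρ ∈ nbS hF a ↔ F (nbA S a) ρ := Iff.rfl

theorem nb_node (a : S.Nd) : S.NiceF (∅ : Set S.Tp)
    (fun M (y : Unit → M) => (fun (M : Obj K S.L) (x : M) => x ∈ M.P (.inl a)) M (y ())) := by
  refine ⟨{ toPre := Pre.one K (.inl a), out := fun _ _ => 1 }, ?_, cofP_one a, ?_⟩
  · intro q hq
    rw [List.mem_singleton.1 hq]
    exact nb_lab_inl a
  · intro M _ y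
    have hlin : ∀ x : Fin 1 → M, lin (fun _ : Fin 1 => (1 : K)) x = x 0 := by
      intro x
      change ∑ i : Fin 1, (1 : K) • x i = _
      simp
    constructor
    · intro h
      refine ⟨fun _ => y (), (Pre.one_hom (.inl a) M _).2 h, fun k => ?_⟩
      change y () = lin (fun _ : Fin 1 => (1 : K)) (fun _ => y ())
      rw [hlin]
    · rintro ⟨x, h1, h2⟩
      have h3 : y () = x 0 := (h2 ()).trans (hlin x)
      have h4 := (Pre.one_hom (.inl a) M x).1 h1
      change y () ∈ M.P (.inl a)
      rw [h3]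
      exact h4

theorem nb_cx {G₀ G : Pre K S.L} {e : Fin G₀.n → Fin G.n} (h : Cx (∅ : Set S.Tp) G₀ G e)
    (h0 : G₀ = Pre.nil K S.L) :
    ∃ a : Fin G.n → S.Nd, ∀ (D : Obj K S.L) (x : Fin G.n → D),
      G.Hom D x ↔ ∀ i, x i ∈ D.P (.inl (a i)) := by
  induction h with
  | base =>
    subst h0
    exact ⟨Fin.elim0, fun D x => ⟨fun _ i => Fin.elim0 i, fun _ q hq => absurd hq List.not_mem_nil⟩⟩
  | @atom G e b _ ih =>
    obtain ⟨a, ha⟩ := ih
    refine ⟨Fin.append a (fun _ => b), fun D x => ?_⟩
    rw [Pre.sum_hom, ha, Pre.one_hom]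
    constructor
    · rintro ⟨h1, h2⟩ i
      refine Fin.addCases (fun i => ?_) (fun i => ?_) i
      · rw [Fin.append_left]
        exact h1 i
      · rw [Fin.append_right]
        have : i = 0 := Subsingleton.elim _ _
        rw [this]
        exact h2
    · intro h1
      refine ⟨fun i => ?_, ?_⟩
      · have := h1 (Fin.castAdd 1 i)
        rw [Fin.append_left] at this
        exact this
      · have := h1 (Fin.natAdd G.n 0)
        rw [Fin.append_right] at this
        exact this
  | cell τ r d _ hτ _ _ => exact absurd hτ (Set.notMem_empty _)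

/-- The sum of the formulas `ρ j ⊗ P_{a j}` as a subspace. -/
def nbM {κ J : Type} [Fintype J] (a : J → S.Nd) (ρ : J → κ → K) (M : Obj K S.L) :
    Submodule K (κ → M) where
  carrier := {y | ∃ z : J → κ → M,
    (∀ j, tens (ρ j) (fun (M : Obj K S.L) (x : M) => x ∈ M.P (.inl (a j))) M (z j)) ∧
      ∀ k, y k = ∑ j, z j k}
  add_mem' := by
    rintro y y' ⟨z, h1, h2⟩ ⟨z', h1', h2'⟩
    refine ⟨fun j k => z j k + z' j k, fun j => ?_, fun k => ?_⟩
    · obtain ⟨x, hx, hx2⟩ := h1 j
      obtain ⟨x', hx', hx2'⟩ := h1' j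
      refine ⟨x + x', (M.P _).add_mem hx hx', fun k => ?_⟩
      change z j k + z' j k = _
      rw [hx2, hx2', smul_add]
    · rw [Pi.add_apply, h2, h2', Finset.sum_add_distrib]
  zero_mem' := by
    refine ⟨fun _ _ => 0, fun j => ⟨0, (M.P _).zero_mem, fun k => ?_⟩, fun k => ?_⟩
    · rw [smul_zero]
    · simp
  smul_mem' := by
    rintro c y ⟨z, h1, h2⟩
    refine ⟨fun j k => c • z j k, fun j => ?_, fun k => ?_⟩
    · obtain ⟨x, hx, hx2⟩ := h1 j
      refine ⟨c • x, (M.P _).smul_mem c hx, fun k => ?_⟩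
      change c • z j k = _
      rw [hx2, smul_comm]
    · rw [Pi.smul_apply, h2, Finset.smul_sum]

theorem nb_gen {κ J : Type} [Fintype J] (a : J → S.Nd) (ρ : J → κ → K) (M : Obj K S.L) (j : J)
    {x : M} (hx : x ∈ M.P (.inl (a j))) : (fun k => ρ j k • x) ∈ nbM a ρ M := by
  classical
  refine ⟨fun j' k => if j' = j then ρ j k • x else 0, fun j' => ?_, fun k => ?_⟩
  · by_cases h : j' = j
    · subst h
      exact ⟨x, hx, fun k => by simp⟩
    · refine ⟨0, (M.P _).zero_mem, fun k => ?_⟩
      simp [h]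
  · simp

theorem nice_empty (hr : S.par S.root = S.root) (hle : ∀ a, S.Le a S.root) :
    S.Nice (∅ : Set S.Tp) := by
  classical
  intro κ _ F hF
  obtain ⟨φ, hφl, hφ⟩ := id hF
  -- the nodes
  let Q : List S.Nd := S.root :: φ.c.filterMap (fun q => q.1.getLeft?)
  have hQr : S.root ∈ Q := List.mem_cons_self
  have hQc : ∀ q ∈ φ.c, ∀ b, q.1 = .inl b → b ∈ Q := by
    intro q hq b hb
    refine List.mem_cons_of_mem _ (List.mem_filterMap.2 ⟨q, hq, ?_⟩)
    rw [hb]
    rfl
  -- only the nodes of `Q` matter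
  have hcongr : ∀ a μ : S.Nd, (∀ ν ∈ Q, S.Le a ν ↔ S.Le μ ν) → ∀ ρ : κ → K,
      F (nbA S a) ρ → F (nbA S μ) ρ := by
    intro a μ h ρ hρ
    obtain ⟨x, h1, h2, h3⟩ := (hφ (nbA S a) ρ).1 hρ
    refine (hφ (nbA S μ) ρ).2 ⟨x, fun q hq => ?_, h2, h3⟩
    obtain ⟨b, hb⟩ := nb_lab (hφl q hq)
    have h4 := h1 q hq
    have hbQ := hQc q hq b hb
    have h5 : (nbA S a).P q.1 = (nbA S μ).P q.1 := by
      rw [hb]
      by_cases h6 : S.Le a b ∨ b = S.root
      · have h7 : S.Le μ b ∨ b = S.root := by
          rcases h6 with h6 | h6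
          · exact Or.inl ((h b hbQ).1 h6)
          · exact Or.inr h6
        rw [nbA_top h6, nbA_top h7]
      · have h7 : ¬ (S.Le μ b ∨ b = S.root) := by
          rintro (h7 | h7)
          · exact h6 (Or.inl ((h b hbQ).2 h7))
          · exact h6 (Or.inr h7)
        rw [nbA_bot h6, nbA_bot h7]
    rw [← h5]
    exact h4
  -- spanning families
  have hspan : ∀ i : Fin Q.length, ∃ (m : ℕ) (g : Fin m → κ → K),
      Submodule.span K (Set.range g) = nbS hF (Q.get i) := by
    intro i
    exact Submodule.fg_iff_exists_fin_generating_family.1 (IsNoetherian.noetherian _)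
  choose m g hg using hspan
  let J : Type := Σ i : Fin Q.length, Fin (m i)
  let a : J → S.Nd := fun j => Q.get j.1
  let ρ : J → κ → K := fun j => g j.1 j.2
  have hρ : ∀ j, F (nbA S (a j)) (ρ j) := by
    intro j
    have : ρ j ∈ nbS hF (a j) := by
      change g j.1 j.2 ∈ nbS hF (Q.get j.1)
      rw [← hg]
      exact Submodule.subset_span ⟨j.2, rfl⟩
    exact this
  refine NiceF.congr (NiceF.fsum (J := J)
    (F := fun j => tens (ρ j) (fun (M : Obj K S.L) (x : M) => x ∈ M.P (.inl (a j))))
    (fun j => NiceF.tens (nb_node (a j)) (ρ j))) ?_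
  intro M hM y
  constructor
  · rintro ⟨z, hz, hy⟩
    have h1 : ∀ j, F M (z j) := by
      intro j
      obtain ⟨x, hx, hx2⟩ := hz j
      obtain ⟨f, hf, hf2⟩ := nbA_hom hM.ff.toNodeOK hx
      have h2 := hF.map hf (hρ j)
      have h3 : (fun k => f (ρ j k)) = z j := by
        funext k
        rw [hf2, hx2]
      rwa [h3] at h2
    have h2 : ∀ s : Finset J, F M (fun k => ∑ j ∈ s, z j k) := by
      intro s
      induction s using Finset.induction_on with
      | empty => simpa using hF.zero_mem M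
      | insert j s hj ih =>
        have h3 := hF.add_mem (h1 j) ih
        have h4 : (fun k => ∑ j ∈ insert j s, z j k) = fun k => z j k + ∑ j ∈ s, z j k := by
          funext k
          rw [Finset.sum_insert hj]
        rw [h4]
        exact h3
    have h3 : y = fun k => ∑ j, z j k := funext hy
    rw [h3]
    exact h2 Finset.univ
  · intro hFy
    have hclosed : S.Closed (∅ : Set S.Tp) := fun τ hτ => absurd hτ (Set.notMem_empty _)
    obtain ⟨G, e, t, x, hCx, hx, -, hlin, hext⟩ := CC.cx hclosed hr hM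
      (fun _ : κ => (.inl S.root : S.L)) (fun _ => nb_lab_inl _) y (fun k => by
        rw [hM.ff.root]
        exact Submodule.mem_top)
    obtain ⟨b, hb⟩ := nb_cx hCx rfl
    have hxb := (hb M x).1 hx
    -- the columns
    have hcol : ∀ i, F (nbA S (b i)) (fun k => t k i) := by
      intro i
      have h1 : G.Hom (nbA S (b i)) (fun j => (if j = i then (1 : K) else 0)) := by
        rw [hb]
        intro j
        by_cases h : j = i
        · subst h
          rw [nbA_top (a := b j) (b := b j) (Or.inl ⟨0, rfl⟩)]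
          exact Submodule.mem_top
        · rw [if_neg h]
          exact Submodule.zero_mem _
      obtain ⟨f, hf, hf2⟩ := hext (nbA S (b i)) (nbA_ff hr (b i)) _ h1
      have h2 := hF.map hf hFy
      have h3 : (fun k => f (y k)) = fun k => t k i := by
        funext k
        rw [hf2]
        change ∑ j, t k j • (if j = i then (1 : K) else 0) = _
        simp
      rwa [h3] at h2
    -- membership of the terms
    have hterm : ∀ i, (fun k => t k i • x i) ∈ nbM a ρ M := by
      intro i
      have hex : ∃ n : ℕ, S.par^[n] (b i) ∈ Q := by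
        obtain ⟨n, hn⟩ := hle (b i)
        exact ⟨n, by rw [hn]; exact hQr⟩
      have hμ : S.par^[Nat.find hex] (b i) ∈ Q := Nat.find_spec hex
      set μ := S.par^[Nat.find hex] (b i) with hμd
      have hbμ : S.Le (b i) μ := ⟨_, rfl⟩
      have hiff : ∀ ν ∈ Q, S.Le (b i) ν ↔ S.Le μ ν := by
        intro ν hν
        constructor
        · rintro ⟨n, hn⟩
          have h1 : Nat.find hex ≤ n := Nat.find_min' hex (by rw [hn]; exact hν)
          refine ⟨n - Nat.find hex, ?_⟩
          rw [hμd, ← Function.iterate_add_apply, Nat.sub_add_cancel h1, hn]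
        · exact nb_le_trans hbμ
      obtain ⟨q, hq⟩ := List.get_of_mem hμ
      have h1 : (fun k => t k i) ∈ nbS hF (Q.get q) := by
        rw [hq]
        exact hcongr (b i) μ hiff _ (hcol i)
      have hxμ : x i ∈ M.P (.inl (Q.get q)) := by
        rw [hq]
        exact hM.ff.toNodeOK.le hbμ (hxb i)
      rw [← hg q] at h1
      refine Submodule.span_induction (p := fun r _ => (fun k => r k • x i) ∈ nbM a ρ M)
        ?_ ?_ ?_ ?_ h1
      · rintro r ⟨j, rfl⟩
        exact nb_gen a ρ M ⟨q, j⟩ hxμ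
      · have : (fun k : κ => (0 : κ → K) k • x i) = 0 := by
          funext k
          simp
        rw [this]
        exact Submodule.zero_mem _
      · intro r r' _ _ h2 h3
        have : (fun k : κ => (r + r') k • x i) = (fun k => r k • x i) + fun k => r' k • x i := by
          funext k
          simp [add_smul]
        rw [this]
        exact Submodule.add_mem _ h2 h3
      · intro c r _ h2
        have : (fun k : κ => (c • r) k • x i) = c • fun k => r k • x i := by
          funext k
          simp [mul_smul]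
        rw [this]
        exact Submodule.smul_mem _ c h2
    have hy : y = ∑ i, fun k => t k i • x i := by
      funext k
      rw [Finset.sum_apply, ← hlin k]
      rfl
    have h9 : y ∈ nbM a ρ M := by
      rw [hy]
      exact Submodule.sum_mem _ fun i _ => hterm i
    exact h9

end Pool.Agent.Helper13.SDW
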