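import Pool.Agent.Helper13.SDW.NiceDefs

/-!
# BLOCK SDW-NICEU: niceness for directed unions (about 50 lines)

A formula `F` over `lab T` is given by `φ : Gf` with finitely many labels; let `E` be the finite set of the
types `τ` with `.inr τ` in `φ.c`. By `H` there is `T' ⊆ T`, `E ⊆ T'`, nice, and `F` is a formula over
`lab T'`. The cofibrant formula over `T'` is cofibrant over `T` (`CofP.mono`), and `CC_T ⊆ CC_T'` (`cc_mono`).
-/

namespace Pool.Agent.Helper13.SDW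

universe u

variable {K : Type u} [Field K] {S : Sys K} {G : Set S.Tp} {B : S.Tp → Set S.Tp}

private theorem niceU_tfib {T T' : Set S.Tp} (hT : T ⊆ T') {M N : Obj K S.L} {p : M →ₗ[K] N}
    (hp : S.TFib T' p) : S.TFib T p :=
  ⟨fun l hl => hp.hom l (Sys.lab_mono hT hl), hp.node, fun τ hτ => hp.cell τ (hT hτ)⟩

private theorem niceU_cofP {T T' : Set S.Tp} (hT : T ⊆ T') {P : Pre K S.L} (h : S.CofP T P) :
    S.CofP T' P :=
  fun A D p hA hD hp y hy => h A D p (hA.mono hT) (hD.mono hT) (niceU_tfib hT hp) y hy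

theorem nice_union (h : S.OK G B) {T : Set S.Tp} (hT : S.Down G B T)
    (H : ∀ E : Set S.Tp, E.Finite → E ⊆ T → ∃ T', E ⊆ T' ∧ T' ⊆ T ∧ S.Down G B T' ∧
      S.Nice T') : S.Nice T := by
  intro κ _ F hF
  obtain ⟨φ, hφ, hφF⟩ := hF
  have hfin : {τ : S.Tp | ∃ q ∈ φ.c, q.1 = .inr τ}.Finite := by
    have h1 : {l : S.L | l ∈ φ.c.map Prod.fst}.Finite := List.finite_toSet _
    refine (h1.preimage (f := fun τ : S.Tp => (.inr τ : S.L))
      (fun a _ b _ hab => Sum.inr.inj hab)).subset ?_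
    rintro τ ⟨q, hq, hqτ⟩
    rw [Set.mem_preimage, Set.mem_ofPred_eq, List.mem_map]
    exact ⟨q, hq, hqτ⟩
  obtain ⟨T', hET', hT'T, hT', hN⟩ := H _ hfin (by
    rintro τ ⟨q, hq, hqτ⟩
    exact hφ q hq τ hqτ)
  obtain ⟨χ, h1, h2, h3⟩ := hN κ F ⟨φ, fun q hq τ hqτ => hET' ⟨q, hq, hqτ⟩, hφF⟩
  exact ⟨χ, fun q hq => Sys.lab_mono hT'T (h1 q hq), niceU_cofP hT'T h2,
    fun M hM y => h3 M (h.cc_mono hT' hT hT'T hM) y⟩

end Pool.Agent.Helper13.SDW
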