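import Pool.Agent.Helper13.SDW.ConcOK
import Pool.Agent.Helper13.SDW.NiceBase
import Pool.Agent.Helper13.SDW.NiceUnion

/-!
# BLOCK SDW-CNICE: niceness in the concrete system (about 200 lines)

* `trunc_cs`: let `T ⊇ Dum K` be downward closed, `.inr t ∈ GG`, `Bl (.inr t) ⊆ T`, and let `t' ≠ t` and `rank t' ≤ rank t` for all `.inr t' ∈ T`, with only
  finitely many `t'` of rank `rank t`. Then `Trunc T (.inr t)`: given `P` over `T` choose `i₀` such that for `i ≥ i₀` the name `t.nm i` is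
  not mentioned by the labels of (a `Gf` for) `P` (`finite_nm`) and not by the formulas of the `.inr t' ∈ T` (`clean_of_rank`,
  `clean_of_ne`, finitely many). Take `Q = (trO (t.nm i) (t.ht i) M).P`; `trO_ff`, `trO_clean`, `trO_eval` (`LD.OK T` from `LD.OK (Bl (.inr t))`: monotone:
  `RelP`, `CofP` for more types, `FF T ⊆ FF (Bl _)`), `cs_U`, `cs_D`, `cs_Z`.
* `nice_dum`: `T ⊆ Dum K`: by `nice_union` it suffices to treat finite sets `E ⊆ Dum K`; induction on finite sets with `nice_empty`,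
  `nice_step`, `fc_dummy` (`Bl = ∅`).
* `nice_all`, `Dum K ⊆ T`, `T` downward closed: by transfinite induction on `α`: for all finite sets `E` of limit types in `T` of rank `α`:
  `Nice (T_{<α} ∪ E)`, where `T_{<α}` is the set of the dummies and the limit types in `T` of rank `< α`. For `E = ∅`: `nice_union`: a finite subset
  `E₀` of `T_{<α}` without limit types is in `Dum K`, nice by `nice_dum`; otherwise let `β < α` be the maximal rank of the limit types in
  `E₀`: `E₀ ⊆ T_{<β} ∪ {those of rank β in E₀}`. Adding one `t`: `nice_step` with `fc_limit`, `trunc_cs`. Finally `T` itself: `nice_union` in the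
  same way. All these sets are downward closed by `rank_of_transGen`.
-/

namespace Pool.Agent.Helper13.SDW

universe u

variable {K : Type u} [Field K]

private theorem h24_tfib_mono {T T' : Set (CS K).Tp} (hT : T ⊆ T') {M N : Obj K (CS K).L}
    {p : M →ₗ[K] N} (hp : (CS K).TFib T' p) : (CS K).TFib T p :=
  ⟨fun l hl => hp.hom l (Sys.lab_mono hT hl), hp.node, fun τ hτ => hp.cell τ (hT hτ)⟩

theorem ldOK_mono {t : Ty K} {T T' : Set (CS K).Tp} (h : (ldC t).OK T) (hT : T ⊆ T') :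
    (ldC t).OK T' where
  mem i := hT (h.mem i)
  dum := h.dum
  Bc0 := h.Bc0
  labE i q hq := Sys.lab_mono hT (h.labE i q hq)
  labK i q hq := Sys.lab_mono hT (h.labK i q hq)
  relE i :=
    { mem := fun D hD => (h.relE i).mem D (hD.mono hT)
      ext := fun D hD => (h.relE i).ext D (hD.mono hT)
      lift := fun A D p hA hD hp =>
        (h.relE i).lift A D p (hA.mono hT) (hD.mono hT) (h24_tfib_mono hT hp) }
  cofK i := fun A D p hA hD hp =>
    h.cofK i A D p (hA.mono hT) (hD.mono hT) (h24_tfib_mono hT hp)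
  bE i M hM := h.bE i M (hM.mono hT)
  bK i M hM := h.bK i M (hM.mono hT)

private theorem h24_wf1 {t : Ty K} (ht : (Sum.inr t : (CS K).Tp) ∈ GG K) : WF1 t := by
  rcases ht with ⟨a, w, h⟩ | ⟨t', h, h'⟩
  · cases h
  · have h1 : t = t' := Sum.inr.inj h
    rw [h1]
    exact h' t' Relation.ReflTransGen.refl

theorem trunc_cs {T : Set (CS K).Tp} (hT : (CS K).Down (GG K) Bl T) (hd : Dum K ⊆ T)
    {t : Ty K} (ht : (Sum.inr t : (CS K).Tp) ∈ GG K) (htT : (Sum.inr t : (CS K).Tp) ∉ T)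
    (hB : Bl (.inr t) ⊆ T) (hr : ∀ t', (Sum.inr t' : (CS K).Tp) ∈ T → t'.rank ≤ t.rank)
    (hf : {t' | (Sum.inr t' : (CS K).Tp) ∈ T ∧ t'.rank = t.rank}.Finite) :
    (CS K).Trunc T (.inr t) := by
  intro κ _ P hP
  obtain ⟨φ, hφ, hφP⟩ := hP
  have hAfin : {l : LabF (Ty K) | ∃ q ∈ φ.c, q.1 = l}.Finite := by
    have h1 : {l : LabF (Ty K) | l ∈ φ.c.map Prod.fst}.Finite := List.finite_toSet _
    refine h1.subset ?_
    rintro l ⟨q, hq, rfl⟩
    exact List.mem_map.2 ⟨q, hq, rfl⟩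
  obtain ⟨i₁, hi₁⟩ := finite_nm t _ hAfin
  have h2 : ∃ i₂ : ℕ, ∀ i, i₂ ≤ i → ∀ t' ∈ {t' | (Sum.inr t' : (CS K).Tp) ∈ T ∧ t'.rank = t.rank},
      ∀ r, Clean (t.nm i) ((CS K).X (.inr t') r).toPre ∧
      Clean (t.nm i) ((CS K).Y (.inr t') r).toPre := by
    have key : ∀ t' : Ty K, ∃ i₂ : ℕ, t' ∈ {t' | (Sum.inr t' : (CS K).Tp) ∈ T ∧ t'.rank = t.rank} →
        ∀ i, i₂ ≤ i → ∀ r, Clean (t.nm i) ((CS K).X (.inr t') r).toPre ∧
          Clean (t.nm i) ((CS K).Y (.inr t') r).toPre := by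
      intro t'
      by_cases h : t' ∈ {t' | (Sum.inr t' : (CS K).Tp) ∈ T ∧ t'.rank = t.rank}
      · obtain ⟨i₂, h3⟩ := clean_of_ne h.2 (fun hc => htT (hc ▸ h.1))
        exact ⟨i₂, fun _ => h3⟩
      · exact ⟨0, fun hc => absurd hc h⟩
    choose g hg using key
    obtain ⟨b, hb⟩ := (hf.image g).bddAbove
    exact ⟨b, fun i hi t' ht' => hg t' ht' i ((hb ⟨t', ht', rfl⟩).trans hi)⟩
  obtain ⟨i₂, hi₂⟩ := h2
  refine ⟨max i₁ i₂, fun i hi M hM => ⟨(trO (t.nm i) (t.ht i) M).P, ?_, ?_, ?_⟩⟩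
  · refine trO_ff hd (fun t' ht' r => ?_) (t.ht i) hM
    rcases (hr t' ht').lt_or_eq with h | h
    · exact clean_of_rank h i r
    · exact hi₂ i ((le_max_right _ _).trans hi) t' ⟨ht', h⟩ r
  · intro y hy
    have hP' : IsDef {l | ¬ nmL (t.nm i) l} P :=
      ⟨φ, fun q hq => hi₁ i ((le_max_left _ _).trans hi) _ ⟨q, hq, rfl⟩, hφP⟩
    exact (trO_clean (t.ht i) M hP' y).1 hy
  · obtain ⟨h3, h4, h5⟩ := trO_eval hd (ldOK_mono (h24_wf1 ht).2.1 hB) i hM
    refine ⟨fun x hx => ?_, fun l hl x hx => ?_, fun x hx => ?_⟩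
    · rw [cs_U] at hx ⊢
      exact h3 x hx
    · rw [cs_D] at hx ⊢
      exact h4 l hl x hx
    · rw [cs_U] at hx
      rw [cs_Z]
      exact h5 x hx

private theorem h24_dum_gg : Dum K ⊆ GG K := fun _ h => Or.inl h

private theorem h24_bl_dum {τ : (CS K).Tp} (hτ : τ ∈ Dum K) : Bl τ = ∅ := by
  obtain ⟨a, w, rfl⟩ := hτ
  rfl

private theorem h24_down_dum {T : Set (CS K).Tp} (hT : T ⊆ Dum K) :
    (CS K).Down (GG K) Bl T := by
  refine ⟨hT.trans h24_dum_gg, fun τ hτ => ?_⟩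
  rw [h24_bl_dum (hT hτ)]
  exact Set.empty_subset _

private theorem h24_par_root : (CS K).par (CS K).root = (CS K).root := cs_ok.proot

private theorem h24_nice_fin {E : Set (CS K).Tp} (hE : E.Finite) : E ⊆ Dum K → (CS K).Nice E := by
  induction E, hE using Set.Finite.induction_on with
  | empty => exact fun _ => nice_empty h24_par_root le_root_cs
  | @insert τ E hτ _ ih =>
    intro hE
    have hE' : E ⊆ Dum K := (Set.subset_insert _ _).trans hE
    have hτd : τ ∈ Dum K := hE (Set.mem_insert _ _)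
    have hB : Bl τ ⊆ E := by
      rw [h24_bl_dum hτd]
      exact Set.empty_subset _
    refine nice_step cs_ok (h24_down_dum hE') (h24_dum_gg hτd) hτ hB (ih hE') ?_
    refine fc_dummy cs_ok (h24_dum_gg hτd) hB fun l M _ x hx => ?_
    obtain ⟨a, w, rfl⟩ := hτd
    exact (zero_iff (S := CS K) M x).1 hx

theorem nice_dum {T : Set (CS K).Tp} (hT : T ⊆ Dum K) : (CS K).Nice T :=
  nice_union cs_ok (h24_down_dum hT) fun E hE hET =>
    ⟨E, subset_rfl, hET, h24_down_dum (hET.trans hT), h24_nice_fin hE (hET.trans hT)⟩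

/-- The limit types in `E`. -/
private def h24_I (E : Set (Ty K)) : Set (CS K).Tp := {τ | ∃ t, t ∈ E ∧ Sum.inr t = τ}

private theorem h24_I_empty : h24_I (∅ : Set (Ty K)) = ∅ := by
  ext τ
  constructor
  · rintro ⟨t, ht, _⟩
    exact absurd ht (Set.notMem_empty _)
  · intro h
    exact absurd h (Set.notMem_empty _)

private theorem h24_I_insert (t : Ty K) (E : Set (Ty K)) :
    h24_I (insert t E) = insert (Sum.inr t : (CS K).Tp) (h24_I E) := by
  ext τ
  constructor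
  · rintro ⟨t', rfl | ht, rfl⟩
    · exact Or.inl rfl
    · exact Or.inr ⟨t', ht, rfl⟩
  · rintro (rfl | ⟨t', ht, rfl⟩)
    · exact ⟨t, Set.mem_insert _ _, rfl⟩
    · exact ⟨t', Set.mem_insert_of_mem _ ht, rfl⟩

/-- The dummies and the limit types in `T` with rank in `D`. -/
private def h24_L (T : Set (CS K).Tp) (D : Set Ordinal.{0}) : Set (CS K).Tp :=
  Dum K ∪ {τ | τ ∈ T ∧ ∃ t : Ty K, τ = .inr t ∧ t.rank ∈ D}

private theorem h24_L_sub {T : Set (CS K).Tp} (hd : Dum K ⊆ T) (D : Set Ordinal.{0}) :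
    h24_L T D ⊆ T := by
  rintro τ (h | h)
  · exact hd h
  · exact h.1

private theorem h24_L_mem {T : Set (CS K).Tp} {D : Set Ordinal.{0}} {t : Ty K}
    (h : (Sum.inr t : (CS K).Tp) ∈ h24_L T D) : t.rank ∈ D := by
  rcases h with ⟨a, w, h⟩ | ⟨_, t', h, h'⟩
  · cases h
  · have h1 : t = t' := Sum.inr.inj h
    rw [h1]
    exact h'

/-- Sets of the form `L ∪ E` are downward closed. -/
private theorem h24_L_down {T : Set (CS K).Tp} (hT : (CS K).Down (GG K) Bl T) (hd : Dum K ⊆ T)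
    {D : Set Ordinal.{0}} {E : Set (Ty K)} (hE : ∀ t ∈ E, (Sum.inr t : (CS K).Tp) ∈ T)
    (hD : ∀ t : Ty K, (Sum.inr t : (CS K).Tp) ∈ h24_L T D ∪ h24_I E → ∀ β, β < t.rank → β ∈ D) :
    (CS K).Down (GG K) Bl (h24_L T D ∪ h24_I E) := by
  have hsub : h24_L T D ∪ h24_I E ⊆ T := by
    rintro τ (h | ⟨t, ht, rfl⟩)
    · exact h24_L_sub hd D h
    · exact hE t ht
  refine ⟨hsub.trans hT.1, fun τ hτ => ?_⟩
  rcases τ with ⟨a, w⟩ | t
  · exact Set.empty_subset _
  · rintro σ (h | ⟨t', rfl, h⟩)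
    · exact Or.inl (Or.inl h)
    · refine Or.inl (Or.inr ⟨hT.2 _ (hsub hτ) (Or.inr ⟨t', rfl, h⟩), t', rfl, ?_⟩)
      exact hD t hτ _ (rank_of_transGen h)

/-- The union step. -/
private theorem h24_nice_L {T : Set (CS K).Tp} (hT : (CS K).Down (GG K) Bl T) (hd : Dum K ⊆ T)
    {D : Set Ordinal.{0}} (hDl : ∀ α ∈ D, ∀ β, β < α → β ∈ D)
    (H : ∀ β ∈ D, ∀ E : Set (Ty K), E.Finite →
      (∀ t ∈ E, (Sum.inr t : (CS K).Tp) ∈ T ∧ t.rank = β) →
      (CS K).Nice (h24_L T (Set.Iio β) ∪ h24_I E)) : (CS K).Nice (h24_L T D) := by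
  have hdown : (CS K).Down (GG K) Bl (h24_L T D) := by
    have h1 := h24_L_down hT hd (D := D) (E := ∅) (fun t ht => absurd ht (Set.notMem_empty _))
      (fun t ht β hβ => by
        rcases ht with ht | ⟨t', ht', _⟩
        · exact hDl _ (h24_L_mem ht) _ hβ
        · exact absurd ht' (Set.notMem_empty _))
    rwa [h24_I_empty, Set.union_empty] at h1
  refine nice_union cs_ok hdown fun E₀ hE₀ hE₀L => ?_
  have hE1 : {t : Ty K | (Sum.inr t : (CS K).Tp) ∈ E₀}.Finite :=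
    hE₀.preimage (f := fun t : Ty K => (Sum.inr t : (CS K).Tp))
      (fun a _ b _ hab => Sum.inr.inj hab)
  by_cases hne : {t : Ty K | (Sum.inr t : (CS K).Tp) ∈ E₀}.Nonempty
  · obtain ⟨t₀, ht₀, hmax⟩ := Set.exists_max_image _ (fun t : Ty K => t.rank) hE1 hne
    have hβ : t₀.rank ∈ D := h24_L_mem (hE₀L ht₀)
    have hE2 : {t : Ty K | (Sum.inr t : (CS K).Tp) ∈ E₀ ∧ t.rank = t₀.rank}.Finite :=
      hE1.subset fun t ht => ht.1
    refine ⟨h24_L T (Set.Iio t₀.rank) ∪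
      h24_I {t : Ty K | (Sum.inr t : (CS K).Tp) ∈ E₀ ∧ t.rank = t₀.rank}, ?_, ?_, ?_, ?_⟩
    · intro τ hτ
      rcases τ with ⟨a, w⟩ | t
      · exact Or.inl (Or.inl ⟨a, w, rfl⟩)
      · rcases (hmax t hτ).lt_or_eq with h | h
        · exact Or.inl (Or.inr ⟨h24_L_sub hd D (hE₀L hτ), t, rfl, h⟩)
        · exact Or.inr ⟨t, ⟨hτ, h⟩, rfl⟩
    · rintro τ ((h | ⟨h1, t, rfl, h2⟩) | ⟨t, ht, rfl⟩)
      · exact Or.inl h
      · exact Or.inr ⟨h1, t, rfl, hDl _ hβ _ h2⟩
      · exact hE₀L ht.1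
    · refine h24_L_down hT hd (fun t ht => h24_L_sub hd D (hE₀L ht.1)) fun t ht β hβt => ?_
      rcases ht with ht | ⟨t', ht', h⟩
      · exact lt_trans hβt (h24_L_mem ht)
      · have h1 : t' = t := Sum.inr.inj h
        rw [← h1] at hβt
        exact lt_of_lt_of_eq hβt ht'.2
    · exact H _ hβ _ hE2 fun t ht => ⟨h24_L_sub hd D (hE₀L ht.1), ht.2⟩
  · refine ⟨Dum K, ?_, fun τ h => Or.inl h, h24_down_dum subset_rfl, nice_dum subset_rfl⟩
    intro τ hτ
    rcases τ with ⟨a, w⟩ | t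
    · exact ⟨a, w, rfl⟩
    · exact absurd ⟨t, hτ⟩ hne

private theorem h24_nice_rank {T : Set (CS K).Tp} (hT : (CS K).Down (GG K) Bl T)
    (hd : Dum K ⊆ T) (α : Ordinal.{0}) : ∀ E : Set (Ty K), E.Finite →
      (∀ t ∈ E, (Sum.inr t : (CS K).Tp) ∈ T ∧ t.rank = α) →
      (CS K).Nice (h24_L T (Set.Iio α) ∪ h24_I E) := by
  induction α using WellFoundedLT.induction with
  | _ α IH =>
  intro E hE
  induction E, hE using Set.Finite.induction_on with
  | empty =>
    intro _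
    rw [h24_I_empty, Set.union_empty]
    exact h24_nice_L hT hd (fun γ hγ β hβ => lt_trans hβ hγ) IH
  | @insert t E htE hEf ih =>
    intro hE
    have hEs : ∀ t ∈ E, (Sum.inr t : (CS K).Tp) ∈ T ∧ t.rank = α :=
      fun t' ht' => hE t' (Set.mem_insert_of_mem _ ht')
    obtain ⟨htT, htr⟩ := hE t (Set.mem_insert _ _)
    have hN := ih hEs
    have hdown : (CS K).Down (GG K) Bl (h24_L T (Set.Iio α) ∪ h24_I E) := by
      refine h24_L_down hT hd (fun t ht => (hEs t ht).1) fun t' ht' β hβ => ?_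
      rcases ht' with ht' | ⟨t'', ht'', h⟩
      · exact lt_trans hβ (h24_L_mem ht')
      · have h1 : t'' = t' := Sum.inr.inj h
        rw [← h1] at hβ
        exact lt_of_lt_of_eq hβ (hEs _ ht'').2
    have hnot : (Sum.inr t : (CS K).Tp) ∉ h24_L T (Set.Iio α) ∪ h24_I E := by
      rintro (h | ⟨t', ht', h⟩)
      · have h1 : t.rank < α := h24_L_mem h
        rw [htr] at h1
        exact lt_irrefl _ h1
      · have h1 : t' = t := Sum.inr.inj h
        exact htE (h1 ▸ ht')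
    have hB : Bl (.inr t) ⊆ h24_L T (Set.Iio α) ∪ h24_I E := by
      rintro σ (h | ⟨t', rfl, h⟩)
      · exact Or.inl (Or.inl h)
      · refine Or.inl (Or.inr ⟨hT.2 _ htT (Or.inr ⟨t', rfl, h⟩), t', rfl, ?_⟩)
        exact lt_of_lt_of_eq (rank_of_transGen h) htr
    have hgg : (Sum.inr t : (CS K).Tp) ∈ GG K := hT.1 htT
    have hrk : ∀ t', (Sum.inr t' : (CS K).Tp) ∈ h24_L T (Set.Iio α) ∪ h24_I E →
        t'.rank < α ∨ (t' ∈ E ∧ t'.rank = α) := by
      rintro t' (h | ⟨t'', ht'', h⟩)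
      · exact Or.inl (h24_L_mem h)
      · have h1 : t'' = t' := Sum.inr.inj h
        rw [← h1]
        exact Or.inr ⟨ht'', (hEs _ ht'').2⟩
    have htrunc : (CS K).Trunc (h24_L T (Set.Iio α) ∪ h24_I E) (.inr t) := by
      refine trunc_cs hdown (fun τ h => Or.inl (Or.inl h)) hgg hnot hB (fun t' ht' => ?_) ?_
      · rw [htr]
        rcases hrk t' ht' with h | h
        · exact h.le
        · exact h.2.le
      · refine hEf.subset ?_
        rintro t' ⟨ht', h⟩
        rcases hrk t' ht' with h' | h'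
        · rw [h, htr] at h'
          exact absurd h' (lt_irrefl _)
        · exact h'.1
    have hstep := nice_step cs_ok hdown hgg hnot hB hN (fc_limit cs_ok hgg hB htrunc)
    have heq : h24_L T (Set.Iio α) ∪ h24_I (insert t E) =
        insert (Sum.inr t : (CS K).Tp) (h24_L T (Set.Iio α) ∪ h24_I E) := by
      rw [h24_I_insert]
      exact Set.union_insert
    rw [heq]
    exact hstep

theorem nice_all {T : Set (CS K).Tp} (hT : T ∈ TC K) : (CS K).Nice T := by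
  obtain ⟨hT, h | hd⟩ := hT
  · exact nice_dum h
  · have h1 : h24_L T Set.univ = T := by
      refine Set.Subset.antisymm (h24_L_sub hd _) fun τ hτ => ?_
      rcases τ with ⟨a, w⟩ | t
      · exact Or.inl ⟨a, w, rfl⟩
      · exact Or.inr ⟨hτ, t, rfl, Set.mem_univ _⟩
    rw [← h1]
    exact h24_nice_L hT hd (fun _ _ _ _ => Set.mem_univ _) fun β _ => h24_nice_rank hT hd β

theorem gg_mem : GG K ∈ TC K :=
  ⟨⟨subset_rfl, cs_ok.sub⟩, Or.inr h24_dum_gg⟩

theorem bl_mem {σ : (CS K).Tp} (hσ : σ ∈ GG K) : Bl σ ∈ TC K := by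
  refine ⟨cs_ok.down_B hσ, ?_⟩
  rcases σ with ⟨a, w⟩ | t
  · exact Or.inl (Set.empty_subset _)
  · exact Or.inr Set.subset_union_left

end Pool.Agent.Helper13.SDW
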