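import Pool.Agent.Helper13.SDW.Reach

/-!
# BLOCK SDW-FCD: the finiteness condition for dummies (about 60 lines)

All `Z_l = D_l = 0` in `FF_T`. Take `C = R₁` from `Reach.exists_max` for `F₁ = U_0`. Let `(ρ, r)` be legal for
`C`. If `r = d l`: `X_r = D_l = 0`, `C` contains `0`. If `r = u n`: by `reach_u` `ρ ∈ Cf U_0 R'` for some
`R' ∈ Reach`, so `ρ ∈ Cf U_0 C`, and `X_r ≤ U_0` (`XY_le_U0`). The last clause holds with `l₀ = 0` by the second
alternative.
-/

namespace Pool.Agent.Helper13.SDW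

universe u

variable {K : Type u} [Field K] {S : Sys K} {G : Set S.Tp} {B : S.Tp → Set S.Tp}

theorem fc_dummy (h : S.OK G B) {T : Set S.Tp} {τ : S.Tp} (hτ : τ ∈ G)
    (hB : B τ ⊆ T) (hD : ∀ l, S.LeF (B τ) (S.D τ l).S1 (fun _ x => x = 0)) :
    S.FC T τ := by
  intro κ _ P hP
  obtain ⟨C, hC, hmax⟩ := Reach.exists_max h hτ hB hP {(S.U τ 0).S1} (Set.finite_singleton _)
  refine ⟨C, hC, ?_, 0, fun l _ ρ _ => Or.inr fun M hM x hx => hD l M (hM.mono hB) x hx⟩
  intro ρ r hleg M hM x hx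
  cases r with
  | d l =>
    have hx0 : x = 0 := hD l M (hM.mono hB) x hx
    have h0 := (Reach.isDef h hτ hB hP hC).zero_mem M
    rw [hx0]
    have h1 : (fun k => ρ k • (0 : M)) = fun _ => (0 : M) := funext fun k => smul_zero _
    rw [h1]
    exact h0
  | u n =>
    obtain ⟨R', hR', hρ⟩ := reach_u h hτ hB hC hleg
    exact hmax _ (Set.mem_singleton _) R' hR' hρ M hM x
      ((h.XY_le_U0 hτ (.u n)).1 M (hM.mono hB) x hx)

end Pool.Agent.Helper13.SDW
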