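import Pool.Agent.Helper13.SDW.TR
import Pool.Agent.Helper13.SDW.FCd

/-!
# BLOCK SDW-COK: the concrete system satisfies `Sys.OK` (about 200 lines)

* `ldC_mono`: `LD.OK (Bl (.inr t))` from `WF1`.
* `cs_ok`: `proot`, `le_root` (induction on the list and the number: `Le` is iteration of `par`), `sub`, `trans` (`TransGen`), `wf` (rank:
  measure `0` for dummies, `rank t + 1` for `t`; `rank_of_transGen`), labels (`LD.lab_U`, ...), cofibrancy (`LD.cofU`, ..., `labFm_cof`,
  `zero_cof`), inclusions (`LD.Z0`, ...; for dummies: `chN (m+1) ≤ chN m` in `NodeOK`; `0 ≤ all`), `c3`, `c4` (`LD.c3`, `LD.c4`; for a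
  dummy: `Ψ(x, y) := x ∈ P_root ∧ y = 0` for `c3`, `Ψ(x, y) := y = x ∧ x ∈ P_{chN n}` for `c4`), `stU` (`WF1`; for a dummy: a structure in
  `FF ∅` with `P_{chN n} ≠ 0`, e.g. all `P = ⊤` on `K`), `stZ`: for a dummy the second alternative. For a limit type the first: suppose
  `Z_{l+1} ≤ D_l` in `FF_{Bl t}`. By `WF1` there are `M ∈ FF_{Bl t}` and `x ∈ U_{l+1}(M)`, `x ∉ Z_{l+1}(M)`, so `x ∉ D_l(M)` (`LD.DZ`). Let
  `M° = trO (t.nm l) (t.ht l) M ∈ FF_{Bl t}` (`trO_ff`, `clean_of_rank`, `rank_of_transGen`); by `trO_eval` `x ∈ Z_{l+1}(M°) ⊆ D_l(M°) ⊆ D_l(M)`,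
  contradiction.
-/

namespace Pool.Agent.Helper13.SDW

universe u

variable {K : Type u} [Field K]

private theorem le_par34 {a b : (CS K).Nd} (h : (CS K).Le ((CS K).par a) b) : (CS K).Le a b := by
  obtain ⟨n, hn⟩ := h
  exact ⟨n + 1, by rw [Function.iterate_succ_apply]; exact hn⟩

theorem le_root_cs (a : (CS K).Nd) : (CS K).Le a (CS K).root := by
  have key : ∀ l : NodeF (Ty K), (CS K).Le l (CS K).root := by
    intro l
    induction l with
    | nil => exact ⟨0, rfl⟩
    | cons p l ih =>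
      obtain ⟨w, m⟩ := p
      induction m with
      | zero => exact le_par34 ih
      | succ m ihm => exact le_par34 ihm
  exact key a

/-- The rank of a type. -/
private noncomputable def rk34 : (CS K).Tp → Ordinal.{0}
  | .inl _ => 0
  | .inr t => Ty.rank t + 1

theorem wf_cs : WellFounded fun a b : (CS K).Tp => a ∈ Bl b ∧ b ∈ GG K := by
  refine Subrelation.wf (r := InvImage (· < ·) (rk34 (K := K))) ?_
    (InvImage.wf rk34 (wellFounded_lt (α := Ordinal.{0})))
  rintro a b ⟨hab, -⟩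
  change rk34 a < rk34 b
  match b, hab with
  | .inl _, hab => exact absurd hab (Set.notMem_empty _)
  | .inr t, hab =>
    rcases hab with ⟨a', w, rfl⟩ | ⟨t', rfl, h⟩
    · change (0 : Ordinal.{0}) < Ty.rank t + 1
      exact lt_of_le_of_lt bot_le (Order.lt_add_one_iff.2 le_rfl)
    · change Ty.rank t' + 1 < Ty.rank t + 1
      exact Order.lt_add_one_iff.2 (Order.add_one_le_of_lt (rank_of_transGen h))

private theorem wf_inr34 {t : Ty K} (h : (.inr t : (CS K).Tp) ∈ GG K) : WF t := by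
  rcases h with ⟨a, w, h⟩ | ⟨t', h, hw⟩
  · cases h
  · cases h
    exact hw

private theorem wf1_34 {t : Ty K} (h : (.inr t : (CS K).Tp) ∈ GG K) : WF1 t :=
  wf_inr34 h t Relation.ReflTransGen.refl

private theorem dum_mem34 (p : NodeF (Ty K) × (Ty K × ℕ)) : (.inl p : (CS K).Tp) ∈ Dum K :=
  ⟨p.1, p.2, rfl⟩

private theorem wf_down34 {t t' : Ty K} (h : WF t) (h' : Relation.TransGen Men t' t) : WF t' :=
  fun t'' ht => h t'' (ht.trans h'.to_reflTransGen)

private theorem one_lab34 {T : Set (CS K).Tp} (a : (CS K).Nd) :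
    ∀ q ∈ (labFm K (.inl a : (CS K).L)).c, q.1 ∈ (CS K).lab T := by
  intro q hq
  have h1 : q.1 = .inl a := congrArg Prod.fst (List.mem_singleton.1 hq)
  intro τ hτ
  rw [h1] at hτ
  cases hτ

private theorem nodeLe34 {T : Set (CS K).Tp} {M : Obj K (CS K).L} (hM : (CS K).FF T M)
    {a b : (CS K).Nd} (h : (CS K).Le a b) {x : M} (hx : x ∈ M.P (.inl a)) :
    x ∈ M.P (.inl b) := hM.toNodeOK.le h hx

private theorem rep3_34 {T : Set (CS K).Tp} :
    (CS K).Rep T (Fm.zero K (CS K).L).S1 (Fm.zero K (CS K).L).S1 := by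
  refine ⟨(CS K).root, fun M x y => x ∈ M.P (.inl (CS K).root) ∧ y = 0, ?_, ?_⟩
  · refine IsDef.and (κ := Fin 2) ?_ ?_
    · refine (IsDef.lab (κ := Fin 2) (l := (.inl (CS K).root : (CS K).L))
        (fun τ hτ => by cases hτ) (fone 0)).congr fun M w => ?_
      rw [lin_fone]
    · refine (IsDef.eq0 (κ := Fin 2) (fone 1)).congr fun M w => ?_
      rw [lin_fone]
  · intro M hM
    refine ⟨?_, ?_, ?_, ?_⟩
    · rintro x y ⟨h1, h2⟩
      exact ⟨h1, (zero_iff M y).2 h2⟩
    · intro x hx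
      exact ⟨0, hx, rfl⟩
    · rintro y ⟨-, h2⟩
      exact (zero_iff M y).2 h2
    · intro y hy
      exact ⟨0, Submodule.zero_mem _, (zero_iff M y).1 hy⟩

private theorem rep4_34 {T : Set (CS K).Tp} (a : (CS K).Nd) :
    (CS K).Rep T (Fm.zero K (CS K).L).S1 (labFm K (.inl a : (CS K).L)).S1 := by
  refine ⟨a, fun M x y => x ∈ M.P (.inl a) ∧ y = x, ?_, ?_⟩
  · refine IsDef.and (κ := Fin 2) ?_ ?_
    · refine (IsDef.lab (κ := Fin 2) (l := (.inl a : (CS K).L))
        (fun τ hτ => by cases hτ) (fone 0)).congr fun M w => ?_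
      rw [lin_fone]
    · refine (IsDef.eq0 (κ := Fin 2) (fone (K := K) 1 + (-1 : K) • fone 0)).congr fun M w => ?_
      rw [lin_add_left, lin_smul_left, lin_fone, lin_fone, neg_one_smul, ← sub_eq_add_neg,
        sub_eq_zero]
  · intro M hM
    refine ⟨?_, ?_, ?_, ?_⟩
    · rintro x y ⟨h1, rfl⟩
      exact ⟨h1, (labFm_iff _ M _).2 h1⟩
    · intro x hx
      exact ⟨x, hx, rfl⟩
    · rintro y ⟨-, h2⟩
      exact (zero_iff M y).2 h2
    · intro y hy
      exact ⟨y, (labFm_iff _ M y).1 hy, rfl⟩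

/-- The structure `K` with all subspaces equal to the whole space. -/
private def topO34 (K : Type u) [Field K] : Obj K (CS K).L where
  carrier := K
  P := fun _ => ⊤

private theorem topFF34 : (CS K).FF ∅ (topO34 K) where
  root := rfl
  par _ := le_rfl
  dens τ hτ := absurd hτ (Set.notMem_empty τ)

private theorem stU34 (a : (CS K).Nd) :
    ¬ (CS K).LeF ∅ (labFm K (.inl a : (CS K).L)).S1 (Fm.zero K (CS K).L).S1 := by
  intro h
  let x : topO34 K := (1 : K)
  have hx : x ∈ (topO34 K).P (.inl a) := Submodule.mem_top (R := K) (M := K) (x := (1 : K))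
  have h1 : x = 0 := (zero_iff (topO34 K) x).1
    (h (topO34 K) topFF34 x ((labFm_iff _ (topO34 K) x).2 hx))
  exact one_ne_zero (α := K) h1

private theorem stZ34 {t : Ty K} (h : WF1 t) (l : ℕ) :
    ¬ (CS K).LeF (Bl (.inr t)) ((ldC t).Z (l + 1)).S1 ((ldC t).D l).S1 := by
  intro hle
  obtain ⟨-, hX, hst⟩ := h
  have h1 := hst (l + 1) (l + 1)
  unfold Sys.LeF at h1
  push Not at h1
  obtain ⟨M, hM, x, hxU, hxZ⟩ := h1
  have hd : Dum K ⊆ Bl (.inr t) := Set.subset_union_left
  obtain ⟨-, h2, h3⟩ := trO_eval hd hX l hM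
  have hff : (CS K).FF (Bl (.inr t)) (trO (t.nm l) (t.ht l) M) := by
    refine trO_ff hd ?_ (t.ht l) hM
    intro t' ht' r
    rcases ht' with ⟨a, w, h'⟩ | ⟨t'', h', h''⟩
    · cases h'
    · cases h'
      exact clean_of_rank (rank_of_transGen h'') l r
  have h4 : ((ldC t).D l).S1 M x := h2 l le_rfl x (hle _ hff x (h3 x hxU))
  exact hxZ ((ldC t).DZ hX l M hM x h4)

theorem cs_ok : (CS K).OK (GG K) Bl where
  proot := rfl
  le_root := le_root_cs
  sub τ hτ := by
    match τ, hτ with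
    | .inl _, _ => exact fun σ hσ => absurd hσ (Set.notMem_empty σ)
    | .inr t, hτ =>
      rintro σ (hσ | ⟨t', rfl, h⟩)
      · exact Or.inl hσ
      · exact Or.inr ⟨t', rfl, wf_down34 (wf_inr34 hτ) h⟩
  trans τ _ σ hσ := by
    match σ, hσ with
    | .inl _, _ => exact fun σ hσ => absurd hσ (Set.notMem_empty σ)
    | .inr t', hσ =>
      match τ, hσ with
      | .inl _, hσ => exact absurd hσ (Set.notMem_empty _)
      | .inr t, hσ =>
        rcases hσ with ⟨a, w, h⟩ | ⟨t₁, h, h'⟩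
        · cases h
        · cases h
          rintro ρ (hρ | ⟨t₂, rfl, h₂⟩)
          · exact Or.inl hρ
          · exact Or.inr ⟨t₂, rfl, h₂.trans h'⟩
  wf := wf_cs
  labU τ hτ n := by
    match τ, hτ with
    | .inl (a, w), _ => exact one_lab34 (chN a w n)
    | .inr t, hτ =>
      rw [cs_U]
      exact (ldC t).lab_U (wf1_34 hτ).2.1 n
  labD τ hτ n := by
    match τ, hτ with
    | .inl (a, w), _ => exact fun q hq => absurd hq List.not_mem_nil
    | .inr t, hτ =>
      rw [cs_D]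
      exact (ldC t).lab_D (wf1_34 hτ).2.1 n
  labZ τ hτ n := by
    match τ, hτ with
    | .inl (a, w), _ => exact fun q hq => absurd hq List.not_mem_nil
    | .inr t, hτ =>
      rw [cs_Z]
      exact (ldC t).lab_Z (wf1_34 hτ).2.1 n
  cofU τ hτ n := by
    match τ, hτ with
    | .inl (a, w), _ => exact labFm_cof (S := CS K) (chN a w n)
    | .inr t, hτ =>
      rw [cs_U]
      exact (ldC t).cofU (wf1_34 hτ).2.1 n
  cofD τ hτ n := by
    match τ, hτ with
    | .inl (a, w), _ => exact zero_cof (S := CS K)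
    | .inr t, hτ =>
      rw [cs_D]
      exact (ldC t).cofD (wf1_34 hτ).2.1 n
  cofZ τ hτ n := by
    match τ, hτ with
    | .inl (a, w), _ => exact zero_cof (S := CS K)
    | .inr t, hτ =>
      rw [cs_Z]
      exact (ldC t).cofZ (wf1_34 hτ).2.1 n
  Z0 τ hτ := by
    match τ, hτ with
    | .inl (a, w), _ => exact fun M _ x hx => (zero_iff M x).1 hx
    | .inr t, hτ =>
      rw [cs_Z]
      exact (ldC t).Z0
  UU τ hτ n := by
    match τ, hτ with
    | .inl (a, w), _ =>
      intro M hM x hx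
      exact (labFm_iff _ M x).2 (nodeLe34 hM ((isDummy_cs a w).le n) ((labFm_iff _ M x).1 hx))
    | .inr t, hτ =>
      rw [cs_U, cs_U]
      exact (ldC t).UU (wf1_34 hτ).2.1 n
  ZD τ hτ l := by
    match τ, hτ with
    | .inl (a, w), _ => exact fun M _ x hx => hx
    | .inr t, hτ =>
      rw [cs_Z, cs_D]
      exact (ldC t).ZD (wf1_34 hτ).2.1 l
  DZ τ hτ l := by
    match τ, hτ with
    | .inl (a, w), _ => exact fun M _ x hx => hx
    | .inr t, hτ =>
      rw [cs_Z, cs_D]
      exact (ldC t).DZ (wf1_34 hτ).2.1 l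
  ZU τ hτ l n := by
    match τ, hτ with
    | .inl (a, w), _ =>
      intro M hM x hx
      have h1 : x = 0 := (zero_iff M x).1 hx
      exact (labFm_iff _ M x).2 (by rw [h1]; exact Submodule.zero_mem _)
    | .inr t, hτ =>
      rw [cs_Z, cs_U]
      exact (ldC t).ZU (wf1_34 hτ).2.1 l n
  c3 τ hτ j := by
    match τ, hτ with
    | .inl (a, w), _ => exact rep3_34
    | .inr t, hτ =>
      rw [cs_Z, cs_D]
      exact (ldC t).c3 (wf1_34 hτ).2.1 j
  c4 τ hτ n := by
    match τ, hτ with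
    | .inl (a, w), _ => exact rep4_34 (chN a w n)
    | .inr t, hτ =>
      rw [cs_Z, cs_U]
      exact (ldC t).c4 (wf1_34 hτ).2.1 n
  stU τ hτ n l := by
    match τ, hτ with
    | .inl (a, w), _ => exact stU34 (chN a w n)
    | .inr t, hτ =>
      rw [cs_Z, cs_U]
      exact (wf1_34 hτ).2.2 n l
  stZ τ hτ := by
    match τ, hτ with
    | .inl (a, w), _ => exact Or.inr fun l M _ x hx => (zero_iff M x).1 hx
    | .inr t, hτ =>
      refine Or.inl fun l => ?_
      rw [cs_Z, cs_D]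
      exact stZ34 (wf1_34 hτ) l

end Pool.Agent.Helper13.SDW
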