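import Pool.Agent.Helper13.SDW.Facts

/-!
# BLOCK SDW-CONS: trivial expansions, `CC_{T'} ⊆ CC_T` for `T ⊆ T'` (about 120 lines)

* `triv_ff`: for `τ ∈ T' ∩ T` the density is that of `M` (the formulas of `τ` have labels in
  `lab (B τ) ⊆ lab T`, `IsDef.eqP` or directly); for `τ ∈ T'`, `τ ∉ T` the label `.inr τ` is `⊤`
  in `triv T M`: `x = x + 0`.
* `triv_tfib`: the node clause and the cell clauses for `τ ∈ T` are those of `p`. Cell clause for
  `τ ∉ T`: well-founded induction on `τ ∈ G` (`h.wf`): claim: for every `τ ∈ G` the cell clause of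
  `τ` holds for `p : triv T A → triv T D` and all rules. Given `y'` in `(S.Y τ r).Hom (triv T D)`
  we need a lift `y` in `(S.Y τ r).Hom (triv T A)` (membership in `⊤` is trivial): by the
  induction hypothesis `p` is a trivial fibration for `B τ`, and `S.Y τ r` is cofibrant
  over `B τ` (`h.cofY`); `triv T A`, `triv T D` are in `FF (B τ)` by `triv_ff` for
  `T' = B τ`.
* `CC.mono`: for `p : A → D` a trivial fibration over `T` and a `T`-hom `f : M → D`, the map `f` is a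
  `T'`-hom to `triv T D`; lift it to `triv T A`.
-/

namespace Pool.Agent.Helper13.SDW

universe u

variable {K : Type u} [Field K] {S : Sys K} {G : Set S.Tp} {B : S.Tp → Set S.Tp}

theorem Sys.triv_def {T : Set S.Tp} {κ : Type} {F : SF K S.L κ} (hF : IsDef (S.lab T) F)
    (M : Obj K S.L) (y : κ → M) : F (S.triv T M) y ↔ F M y := by
  classical
  exact hF.eqP (M := M) (P := fun l => if l ∈ S.lab T then M.P l else ⊤)
    (fun l hl => if_pos hl) y

private theorem h24_triv_P {T : Set S.Tp} {M : Obj K S.L} {l : S.L} (hl : l ∈ S.lab T) :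
    (S.triv T M).P l = M.P l := if_pos hl

private theorem h24_triv_P' {T : Set S.Tp} {M : Obj K S.L} {l : S.L} (hl : l ∉ S.lab T) :
    (S.triv T M).P l = ⊤ := if_neg hl

private theorem h24_inl_lab (T : Set S.Tp) (a : S.Nd) : (Sum.inl a : S.L) ∈ S.lab T := by
  intro τ hτ
  exact absurd hτ (by simp)

private theorem h24_inr_lab {T : Set S.Tp} {τ : S.Tp} : (Sum.inr τ : S.L) ∈ S.lab T ↔ τ ∈ T := by
  constructor
  · intro h
    exact h τ rfl
  · intro h σ hσ
    obtain rfl := Sum.inr_injective hσ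
    exact h

theorem Sys.triv_hom {T : Set S.Tp} (G₀ : Pre K S.L) (h : ∀ q ∈ G₀.c, q.1 ∈ S.lab T)
    (M : Obj K S.L) (y : Fin G₀.n → M) : G₀.Hom (S.triv T M) y ↔ G₀.Hom M y := by
  constructor
  · intro h1 q hq
    have h2 := h1 q hq
    rw [h24_triv_P (h q hq)] at h2
    exact h2
  · intro h1 q hq
    rw [h24_triv_P (h q hq)]
    exact h1 q hq

private theorem h24_triv_S1 {T : Set S.Tp} (φ : Fm K S.L Unit) (h : ∀ q ∈ φ.c, q.1 ∈ S.lab T)
    (M : Obj K S.L) (y : M) : φ.S1 (S.triv T M) y ↔ φ.S1 M y :=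
  Sys.triv_def (IsDef.fm φ h) M (fun _ => y)

theorem Sys.OK.triv_ff (h : S.OK G B) {T T' : Set S.Tp} (hT : S.Down G B T)
    (hT' : S.Down G B T') {M : Obj K S.L} (hM : S.FF T M) : S.FF T' (S.triv T M) := by
  refine ⟨⟨?_, fun a => ?_⟩, fun τ hτ r x hx => ?_⟩
  · rw [h24_triv_P (h24_inl_lab T _)]
    exact hM.root
  · rw [h24_triv_P (h24_inl_lab T _), h24_triv_P (h24_inl_lab T _)]
    exact hM.par a
  · by_cases hτT : τ ∈ T
    · have hX : ∀ q ∈ (S.X τ r).c, q.1 ∈ S.lab T := fun q hq =>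
        Sys.lab_mono (hT.2 τ hτT) (h.labX (hT.1 hτT) r q hq)
      have hY : ∀ q ∈ (S.Y τ r).c, q.1 ∈ S.lab T := fun q hq =>
        Sys.lab_mono (hT.2 τ hτT) (h.labY (hT.1 hτT) r q hq)
      obtain ⟨v, hv, y, hy, hxy⟩ := hM.dens τ hτT r x ((h24_triv_S1 _ hX M x).1 hx)
      refine ⟨v, ?_, y, (h24_triv_S1 _ hY M y).2 hy, hxy⟩
      rw [h24_triv_P (h24_inr_lab.2 hτT)]
      exact hv
    · refine ⟨x, ?_, 0, ⟨fun _ => 0, fun q _ => ?_, fun _ => ?_⟩, ?_⟩
      · rw [h24_triv_P' (fun hc => hτT (h24_inr_lab.1 hc))]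
        exact Submodule.mem_top
      · rw [lin_zero]
        exact Submodule.zero_mem _
      · rw [lin_zero]
      · rw [add_zero]

private theorem h24_cell_lift (h : S.OK G B) {T : Set S.Tp}
    (hT : S.Down G B T) {A D : Obj K S.L} (hA : S.FF T A) (hD : S.FF T D)
    {p : A →ₗ[K] D} (hp : S.TFib T p) (τ : S.Tp) : τ ∈ G → ∀ r x, (S.X τ r).S1 (S.triv T A) x →
    ∀ y' : Fin (S.Y τ r).n → S.triv T D,
    (S.Y τ r).toPre.Hom (S.triv T D) y' →
    p x + lin ((S.Y τ r).out ()) y' ∈ (S.triv T D).P (.inr τ) →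
    ∃ y : Fin (S.Y τ r).n → S.triv T A, (S.Y τ r).toPre.Hom (S.triv T A) y ∧ (∀ i, p (y i) = y' i) ∧
      x + lin ((S.Y τ r).out ()) y ∈ (S.triv T A).P (.inr τ) := by
  induction τ using h.wf.induction with
  | _ τ ih =>
  intro hτ r x hx y' hy' hm
  by_cases hτT : τ ∈ T
  · have hX : ∀ q ∈ (S.X τ r).c, q.1 ∈ S.lab T := fun q hq =>
      Sys.lab_mono (hT.2 τ hτT) (h.labX (hT.1 hτT) r q hq)
    have hY : ∀ q ∈ (S.Y τ r).c, q.1 ∈ S.lab T := fun q hq =>
      Sys.lab_mono (hT.2 τ hτT) (h.labY (hT.1 hτT) r q hq)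
    obtain ⟨y, hy, hyp, hym⟩ := hp.cell τ hτT r x ((h24_triv_S1 _ hX A x).1 hx) y'
      ((Sys.triv_hom _ hY D y').1 hy') (by
        rw [h24_triv_P (h24_inr_lab.2 hτT)] at hm
        exact hm)
    refine ⟨y, (Sys.triv_hom _ hY A y).2 hy, hyp, ?_⟩
    rw [h24_triv_P (h24_inr_lab.2 hτT)]
    exact hym
  · have hfib : S.TFib (B τ) (M := S.triv T A) (N := S.triv T D) p := by
      refine ⟨fun l hl z hz => ?_, fun a y hy => ?_, fun σ hσ => ?_⟩
      · by_cases hlT : l ∈ S.lab T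
        · rw [h24_triv_P hlT] at hz ⊢
          exact hp.hom l hlT z hz
        · rw [h24_triv_P' hlT]
          exact Submodule.mem_top
      · rw [h24_triv_P (h24_inl_lab T _)] at hy ⊢
        exact hp.node a y hy
      · exact ih σ ⟨hσ, hτ⟩ (h.sub τ hτ hσ)
    obtain ⟨y, hy, hyp⟩ := h.cofY hτ r (S.triv T A) (S.triv T D) p
      (h.triv_ff hT (h.down_B hτ) hA) (h.triv_ff hT (h.down_B hτ) hD) hfib y' hy'
    refine ⟨y, hy, hyp, ?_⟩
    rw [h24_triv_P' (fun hc => hτT (h24_inr_lab.1 hc))]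
    exact Submodule.mem_top

theorem Sys.OK.triv_tfib (h : S.OK G B) {T T' : Set S.Tp} (hT : S.Down G B T)
    (hT' : S.Down G B T') {A D : Obj K S.L} (hA : S.FF T A) (hD : S.FF T D)
    {p : A →ₗ[K] D} (hp : S.TFib T p) :
    S.TFib T' (M := S.triv T A) (N := S.triv T D) p := by
  refine ⟨fun l hl z hz => ?_, fun a y hy => ?_, fun σ hσ => ?_⟩
  · by_cases hlT : l ∈ S.lab T
    · rw [h24_triv_P hlT] at hz ⊢
      exact hp.hom l hlT z hz
    · rw [h24_triv_P' hlT]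
      exact Submodule.mem_top
  · rw [h24_triv_P (h24_inl_lab T _)] at hy ⊢
    exact hp.node a y hy
  · exact h24_cell_lift h hT hA hD hp σ (hT'.1 hσ)

theorem Sys.OK.cc_mono (h : S.OK G B) {T T' : Set S.Tp} (hT : S.Down G B T)
    (hT' : S.Down G B T') (hTT : T ⊆ T') {M : Obj K S.L} (hM : S.CC T' M) : S.CC T M := by
  refine ⟨hM.ff.mono hTT, fun A D p hA hD hp f hf => ?_⟩
  obtain ⟨g, hg, hpg⟩ := hM.cof (S.triv T A) (S.triv T D) p (h.triv_ff hT hT' hA)
    (h.triv_ff hT hT' hD) (h.triv_tfib hT hT' hA hD hp) f (fun l hl z hz => by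
      by_cases hlT : l ∈ S.lab T
      · rw [h24_triv_P hlT]
        exact hf l hlT z hz
      · rw [h24_triv_P' hlT]
        exact Submodule.mem_top)
  refine ⟨g, fun l hl z hz => ?_, hpg⟩
  have h1 := hg l (Sys.lab_mono hTT hl) z hz
  rw [h24_triv_P hl] at h1
  exact h1

/-- Validity in `CC_T'` of `V_τ ∩ Y_r ≤ F`, `F` over `B τ`, implies `Y_r ≤ F` in `FF_{B τ}`:
take the cell over `0` in `N = Nc T' (Pre.nil).obj PUnit ∈ CC_T'` (`Nc.exists_cell`), with
`y_s ∈ V_τ ∩ Y_r`, so `F N y_s`; for `D ∈ FF_{B τ}` and `y' ∈ Y.Hom D` there is a hom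
`f : N → triv (B τ) D` with `f(block) = y'` (`Nc.exists_hom`; all values are allowed as `V_τ = ⊤`
in `triv (B τ) D`). -/
theorem Sys.OK.free_cell (h : S.OK G B) {T' : Set S.Tp} (hT' : S.Down G B T') {τ : S.Tp}
    (hτ : τ ∈ T') (r : Rl) {F : SF1 K S.L} (hF : Def1 (S.lab (B τ)) F)
    (hV : ∀ M : Obj K S.L, S.CC T' M → ∀ x ∈ M.P (.inr τ), (S.Y τ r).S1 M x → F M x) :
    S.LeF (B τ) (S.Y τ r).S1 F := by
  classical
  intro D hD x₁ hx₁
  obtain ⟨y', hy', hxy⟩ := hx₁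
  have hcl : S.Closed T' := h.closed hT'
  have hnil : S.CofP T' (Pre.nil K S.L) := fun A D p _ _ _ y _ =>
    ⟨Fin.elim0, fun q hq => absurd hq List.not_mem_nil, fun i => Fin.elim0 i⟩
  have hcc : S.CC T' (Nc T' ((Pre.nil K S.L).obj (S := S)) PUnit) :=
    obj_cc hcl h.proot hnil (U0_nil_lab (S.lab T'))
  -- the cell over 0
  obtain ⟨s, hs, hsτ, hsr, -, hsd⟩ := Nc.exists_cell (M₀ := (Pre.nil K S.L).obj (S := S)) hcl hτ r
    PUnit.unit 0 (show (S.X τ r).S1 (Nc T' ((Pre.nil K S.L).obj (S := S)) PUnit) 0 from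
      ⟨fun _ => 0, fun q _ => by rw [lin_zero]; exact Submodule.zero_mem _,
        fun _ => by rw [lin_zero]⟩)
  subst hsτ
  subst hsr
  have hmem := hs.mem
  rw [hsd, zero_add] at hmem
  have hYs : (S.Y s.τ s.r).S1 (Nc T' ((Pre.nil K S.L).obj (S := S)) PUnit) s.yv :=
    ⟨s.blk, hs.hom, fun _ => rfl⟩
  have hFN := hV _ hcc s.yv hmem hYs
  have hBff : S.FF T' (S.triv (B s.τ) D) := h.triv_ff (h.down_B (hT'.1 hτ)) hT' hD
  obtain ⟨f, hf, -, hfs⟩ := Nc.exists_hom (I := PUnit) (M₀ := (Pre.nil K S.L).obj (S := S))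
    (B := S.triv (B s.τ) D) hBff (f₀ := 0)
    (fun l _ z _ => by rw [LinearMap.zero_apply]; exact Submodule.zero_mem _)
    (fun s' _ y => s' = s → ∀ i : Fin s.Y.n, y i = y' i)
    (fun s' x' hs' hx' => by
      by_cases hss : s' = s
      · subst hss
        have hY : ∀ q ∈ (S.Y s'.τ s'.r).c, q.1 ∈ S.lab (B s'.τ) := h.labY (hT'.1 hτ) s'.r
        refine ⟨fun i => if hi : i < s'.Y.n then y' ⟨i, hi⟩ else 0, ?_, ?_, ?_⟩
        · have h1 := (Sys.triv_hom (T := B s'.τ) _ hY D y').2 hy'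
          simpa using h1
        · rw [h24_triv_P' (fun hc => h.not_mem_B (hT'.1 hτ) (h24_inr_lab.1 hc))]
          exact Submodule.mem_top
        · intro _ i
          simp
      · obtain ⟨y, hy, hym⟩ := hBff.exists_block hs'.1 s'.r hx'
        refine ⟨fun i => if hi : i < s'.Y.n then y ⟨i, hi⟩ else 0, ?_, ?_, fun hc => absurd hc hss⟩
        · simpa using hy
        · simpa using hym)
    (fun s' x' _ => ⟨fun i => if hi : i < s.Y.n then y' ⟨i, hi⟩ else 0, fun _ i => by simp⟩)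
  have hblk : ∀ i : Fin s.Y.n, f (s.blk i) = y' i := fun i => hfs s rfl i
  have h1 : F (S.triv (B s.τ) D) (f s.yv) :=
    IsDef.map hF (f := f) (y := fun _ => s.yv)
      (fun l hl => hf l (Sys.lab_mono (hT'.2 _ hτ) hl)) hFN
  have h2 : f s.yv = x₁ := by
    rw [Cell.yv, map_lin]
    have h3 : x₁ = lin ((S.Y s.τ s.r).out ()) y' := hxy ()
    have h4 : (fun i => f (s.blk i)) = y' := funext hblk
    rw [h4]
    exact h3.symm
  rw [h2] at h1
  exact (Sys.triv_def hF D (fun _ => x₁)).1 h1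

end Pool.Agent.Helper13.SDW
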