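import Pool.Agent.Helper13.SDW.Fml

/-!
# Complexes of cells (definitions)

`G.sum H`: disjoint union of presentations. `G.cell τ r d`: a cell of type `τ` and rule `r` over
the linear form `d` of `G`. `Cx T G₀ G e`: `G` arises from `G₀` by adding finitely many atoms and
valid cells of types in `T`, and `e` is the inclusion of the variables of `G₀`.
`Pf G l`: the linear forms which satisfy the condition `l` formally.
-/

namespace Pool.Agent.Helper13.SDW

universe u

variable {K : Type u} [Field K] {L : Type u}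

/-- The empty presentation. -/
abbrev Pre.nil (K L : Type u) : Pre K L := ⟨0, []⟩

/-- One variable with one condition. -/
abbrev Pre.one (K : Type u) [Field K] {L : Type u} (l : L) : Pre K L := ⟨1, [(l, fun _ => 1)]⟩

/-- The disjoint union of two presentations. -/
abbrev Pre.sum (G H : Pre K L) : Pre K L where
  n := G.n + H.n
  c := (G.c.map fun q => (q.1, Fin.append q.2 (fun _ => 0))) ++
    H.c.map fun q => (q.1, Fin.append (fun _ => 0) q.2)

/-- A further condition. -/
abbrev Pre.addc (G : Pre K L) (l : L) (v : Fin G.n → K) : Pre K L := ⟨G.n, G.c ++ [(l, v)]⟩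

theorem lin_append {D : Type u} [AddCommGroup D] [Module K D] {m n : ℕ} (v : Fin m → K)
    (w : Fin n → K) (x : Fin (m + n) → D) :
    lin (Fin.append v w) x = lin v (fun i => x (Fin.castAdd n i)) +
      lin w (fun i => x (Fin.natAdd m i)) := by
  simp [lin, Fin.sum_univ_add]

theorem lin_zero_left {D : Type u} [AddCommGroup D] [Module K D] {ι : Type} [Fintype ι]
    (x : ι → D) : lin (fun _ : ι => (0 : K)) x = 0 := by
  simp [lin]

theorem lin_add_left {D : Type u} [AddCommGroup D] [Module K D] {ι : Type} [Fintype ι]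
    (v w : ι → K) (x : ι → D) : lin (v + w) x = lin v x + lin w x := by
  simp [lin, add_smul, Finset.sum_add_distrib]

theorem lin_smul_left {D : Type u} [AddCommGroup D] [Module K D] {ι : Type} [Fintype ι]
    (a : K) (v : ι → K) (x : ι → D) : lin (a • v) x = a • lin v x := by
  simp [lin, Finset.smul_sum, mul_smul]

theorem Pre.mem_sum_c {G H : Pre K L} {q : L × (Fin (G.n + H.n) → K)} :
    q ∈ (G.sum H).c ↔ (∃ p ∈ G.c, q = (p.1, Fin.append p.2 (fun _ => 0))) ∨
      ∃ p ∈ H.c, q = (p.1, Fin.append (fun _ => 0) p.2) := by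
  change q ∈ ((G.c.map fun q => (q.1, Fin.append q.2 (fun _ => 0))) ++
    H.c.map fun q => (q.1, Fin.append (fun _ => 0) q.2)) ↔ _
  rw [List.mem_append, List.mem_map, List.mem_map]
  constructor
  · rintro (⟨p, hp, rfl⟩ | ⟨p, hp, rfl⟩)
    · exact Or.inl ⟨p, hp, rfl⟩
    · exact Or.inr ⟨p, hp, rfl⟩
  · rintro (⟨p, hp, rfl⟩ | ⟨p, hp, rfl⟩)
    · exact Or.inl ⟨p, hp, rfl⟩
    · exact Or.inr ⟨p, hp, rfl⟩

theorem Pre.sum_hom (G H : Pre K L) (M : Obj K L) (x : Fin (G.sum H).n → M) :
    (G.sum H).Hom M x ↔ G.Hom M (fun i => x (Fin.castAdd H.n i)) ∧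
      H.Hom M (fun i => x (Fin.natAdd G.n i)) := by
  constructor
  · intro h
    refine ⟨fun q hq => ?_, fun q hq => ?_⟩
    · have h1 := h (q.1, Fin.append q.2 (fun _ => 0)) (Pre.mem_sum_c.2 (Or.inl ⟨q, hq, rfl⟩))
      have h2 : lin (Fin.append q.2 (fun _ : Fin H.n => (0 : K))) x ∈ M.P q.1 := h1
      rw [lin_append, lin_zero_left, add_zero] at h2
      exact h2
    · have h1 := h (q.1, Fin.append (fun _ => 0) q.2) (Pre.mem_sum_c.2 (Or.inr ⟨q, hq, rfl⟩))
      have h2 : lin (Fin.append (fun _ : Fin G.n => (0 : K)) q.2) x ∈ M.P q.1 := h1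
      rw [lin_append, lin_zero_left, zero_add] at h2
      exact h2
  · rintro ⟨h1, h2⟩ q hq
    rcases Pre.mem_sum_c.1 hq with ⟨p, hp, rfl⟩ | ⟨p, hp, rfl⟩
    · change lin (Fin.append p.2 (fun _ : Fin H.n => (0 : K))) x ∈ M.P p.1
      rw [lin_append, lin_zero_left, add_zero]
      exact h1 p hp
    · change lin (Fin.append (fun _ : Fin G.n => (0 : K)) p.2) x ∈ M.P p.1
      rw [lin_append, lin_zero_left, zero_add]
      exact h2 p hp

theorem Pre.addc_hom (G : Pre K L) (l : L) (v : Fin G.n → K) (M : Obj K L)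
    (x : Fin G.n → M) : (G.addc l v).Hom M x ↔ G.Hom M x ∧ lin v x ∈ M.P l := by
  constructor
  · intro h
    exact ⟨fun q hq => h q (List.mem_append_left _ hq),
      h (l, v) (List.mem_append_right _ (List.mem_singleton_self _))⟩
  · rintro ⟨h1, h2⟩ q hq
    rcases List.mem_append.1 (show q ∈ G.c ++ [(l, v)] from hq) with hq | hq
    · exact h1 q hq
    · rw [List.mem_singleton.1 hq]
      exact h2

theorem Pre.one_hom (l : L) (M : Obj K L) (x : Fin (Pre.one K l).n → M) :
    (Pre.one K l).Hom M x ↔ x (0 : Fin 1) ∈ M.P l := by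
  have h : lin (fun _ : Fin 1 => (1 : K)) x = x (0 : Fin 1) := by
    change ∑ i : Fin 1, (1 : K) • x i = _
    simp
  constructor
  · intro h1
    have h2 : lin (fun _ : Fin 1 => (1 : K)) x ∈ M.P l :=
      h1 (l, fun _ => 1) (List.mem_singleton_self _)
    rwa [h] at h2
  · intro h1 q hq
    rw [List.mem_singleton.1 (show q ∈ [(l, fun _ : Fin 1 => (1 : K))] from hq)]
    change lin (fun _ : Fin 1 => (1 : K)) x ∈ M.P l
    rwa [h]

variable {S : Sys K}

/-- Attach a cell of type `τ` and rule `r` over the linear form `d`. -/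
abbrev Pre.cell (G : Pre K S.L) (τ : S.Tp) (r : Rl) (d : Fin G.n → K) : Pre K S.L :=
  (G.sum (S.Y τ r).toPre).addc (.inr τ) (Fin.append d ((S.Y τ r).out ()))

/-- `Cx T G₀ G e`: `G` arises from `G₀` by adding atoms (variables with one condition, a node) and
valid cells of types in `T`; `e` is the inclusion of the variables. -/
inductive Cx (T : Set S.Tp) (G₀ : Pre K S.L) : (G : Pre K S.L) → (Fin G₀.n → Fin G.n) → Prop
  | base : Cx T G₀ G₀ id
  | atom {G : Pre K S.L} {e : Fin G₀.n → Fin G.n} (a : S.Nd) : Cx T G₀ G e →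
      Cx T G₀ (G.sum (Pre.one K (.inl a))) (fun i => Fin.castAdd 1 (e i))
  | cell {G : Pre K S.L} {e : Fin G₀.n → Fin G.n} (τ : S.Tp) (r : Rl) (d : Fin G.n → K) :
      Cx T G₀ G e → τ ∈ T →
      (∀ D : Obj K S.L, S.FF T D → ∀ x : Fin G.n → D, G.Hom D x → (S.X τ r).S1 D (lin d x)) →
      Cx T G₀ (G.cell τ r d) (fun i => Fin.castAdd (S.Y τ r).n (e i))

/-- The linear forms which satisfy the condition `l` formally. -/
def Pf (S : Sys K) (G : Pre K S.L) (l : S.L) : Submodule K (Fin G.n → K) :=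
  Submodule.span K {v | ∃ q ∈ G.c, q.2 = v ∧
    (q.1 = l ∨ ∃ a b, q.1 = .inl a ∧ l = .inl b ∧ S.Le a b)} ⊔
  ⨆ _ : l = .inl S.root, (⊤ : Submodule K (Fin G.n → K))

/-- The structure presented by `G`. -/
abbrev Pre.obj (G : Pre K S.L) : Obj K S.L where
  carrier := Fin G.n → K
  P := Pf S G

/-- The generators of the structure presented by `G`. -/
def Pre.gen (G : Pre K S.L) (i : Fin G.n) : G.obj := (Pi.single i 1 : Fin G.n → K)

/-- `M` is approximated by complexes over `G₀`; `b` is the image of the variables of `G₀`. -/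
def Approx (T : Set S.Tp) (G₀ : Pre K S.L) (M : Obj K S.L) (b : Fin G₀.n → M) : Prop :=
  ∀ (κ : Type) [Fintype κ] (l : κ → S.L) (z : κ → M), (∀ k, l k ∈ S.lab T) →
    (∀ k, z k ∈ M.P (l k)) →
    ∃ (G : Pre K S.L) (e : Fin G₀.n → Fin G.n) (x : Fin G.n → M) (t : κ → Fin G.n → K),
      Cx T G₀ G e ∧ G.Hom M x ∧ (∀ i, x (e i) = b i) ∧ (∀ k, t k ∈ Pf S G (l k)) ∧
      (∀ k, lin (t k) x = z k) ∧
      ∀ D : Obj K S.L, S.FF T D → ∀ x' : Fin G.n → D, G.Hom D x' →
        ∃ f : M →ₗ[K] D, IsHom (S.lab T) f ∧ ∀ i, f (x i) = x' i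

end Pool.Agent.Helper13.SDW
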