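import Pool.Agent.Helper13.SDW.Cell2
import Pool.Agent.Helper13.SDW.Cx1

/-!
# BLOCK SDW-N3: cell closures are approximated by finite complexes (about 250 lines)

Theorem: `Approx T G₀ M₀ b → Approx T G₀ (Nc T M₀ I) (inl ∘ b)`.

Proof. Call a pair `(F, k)`, `F : Finset (Cell S M₀ I)` (or a `Set.Finite` set), `k : ℕ`, closed if
for `s ∈ F` and each `i : Fin s.n`: `(s.arg i).cell ∈ F` and `(s.arg i).idx < k`, and
`s.Y.n ≤ k` for `s ∈ F`.
(1) Every variable `w` has a closed `(F, k)` with `w.cell ∈ F`, `w.idx < k` (structural induction on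
    `w`: union over the arguments, maximum of the bounds); unions of closed pairs are closed. So for
    finitely many vectors and finitely many valid cells there is a closed `(F, k)` such that the
    vectors lie in `M₀ × span {s.v i : s ∈ F, i < k}` and the cells lie in `F`.
(2) Let `m₁, …` be the components `s.m` (`s ∈ F`) and the `M₀`-components of the given vectors and of
    the conditions in `P_l(M₀)`; apply `Approx` for `M₀`: a complex `G₁` over `G₀` in `M₀`.
(3) Induction on the cardinality of `F` (remove a cell of maximal depth; the rest is closed: an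
    argument of a cell has smaller depth): there are a complex `G` over `G₁`
    (`Cx T G₁ G e₁`) and an enumeration of the variables: `x : Fin G.n → N`, `x (e₁ i) = (x₁ i, 0)`,
    such that for each `s ∈ F`, `i < k` there is an index `j` with `x j = (s.v i).e`, each
    index is of one of the two forms, and for `s ∈ F` valid the forms
    `q.2` of `s.Y.c` and `d_s + y_s` in these variables are conditions of `G`. A valid cell is added
    by `Cx.cell` (the linear form `d` of `s.dv` in the variables of `G`; by (4) for the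
    smaller complex, every `x' ∈ G.Hom D` comes from a hom `f : N → D`, so
    `X (lin d x')` holds by the validity of `s`: apply `Cell.Valid` to `f`, which is a
    hom for all stages); its junk variables `s.v i`, `s.Y.n ≤ i < k`, and all variables of the
    cells which are not valid are added as atoms of the root.
(4) For `D ∈ FF_T`, `x' ∈ G.Hom D` there is a hom `f : N → D` with `f (x j) = x' j`:
    `f₀ : M₀ → D` from (2), and `Nc.exists_hom` with `R s z y :=` if `s ∈ F` and `z` is
    the value `f₀ (s.m) + ∑ coef_i x'(arg_i)` then `y i = x'(s.v i)` for `i < k`; then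
    `f (w.e) = x'(w)` for all variables `w = s.v i`, `s ∈ F`, `i < k`, by induction on the
    depth. (The variables are different for different `(s, i)`: `W.mk` is injective.)
(5) The memberships: `z ∈ P_l(N)` is, by `Nc.mem_P`, a sum of an element of `P_l(M₀)`, of
    a linear combination of conditions of valid cells (put these cells into `F`), and of an arbitrary
    element if `l = root`.
It may be easier to do the induction of (3) and the statement (4) together: prove
by induction on the finite closed set the statement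
`∃ G e₁ x, Cx T G₁ G e₁ ∧ ...` for a fixed value of `k`.
-/

namespace Pool.Agent.Helper13.SDW

universe u

variable {K : Type u} [Field K] {S : Sys K}

section h63

/-! ### Depth, variables, closed finite sets of cells -/

theorem W.cell_v63 {A I : Type u} (w : W S A I) : w.cell.v w.idx = w := by
  cases w; rfl

theorem Cell.v_cell63 {A I : Type u} (s : Cell S A I) (i : ℕ) : (s.v i).cell = s := rfl

theorem Cell.v_idx63 {A I : Type u} (s : Cell S A I) (i : ℕ) : (s.v i).idx = i := rfl

theorem Cell.depth_v63 {A I : Type u} (s : Cell S A I) (i : ℕ) : (s.v i).depth = s.depth := by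
  rw [Cell.v, W.depth, Cell.depth]

theorem W.depth_cell63 {A I : Type u} (w : W S A I) : w.depth = w.cell.depth := by
  conv_lhs => rw [← w.cell_v63]
  exact w.cell.depth_v63 _

theorem Cell.arg_lt63 {A I : Type u} (s : Cell S A I) (i : Fin s.n) :
    (s.arg i).depth < s.depth := by
  have h : (s.arg i).depth ≤ Finset.univ.sup fun i => (s.arg i).depth :=
    Finset.le_sup (f := fun i => (s.arg i).depth) (Finset.mem_univ i)
  rw [Cell.depth]
  omega

/-- Closed finite sets of cells. -/
def Clo63 {A I : Type u} (F : Finset (Cell S A I)) (k : ℕ) : Prop :=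
  ∀ s ∈ F, s.Y.n ≤ k ∧ ∀ i : Fin s.n, (s.arg i).cell ∈ F ∧ (s.arg i).idx < k

open Classical in
theorem Clo63.union {A I : Type u} {F F' : Finset (Cell S A I)} {k k' : ℕ} (h : Clo63 F k)
    (h' : Clo63 F' k') : Clo63 (F ∪ F') (max k k') := by
  intro s hs
  rcases Finset.mem_union.1 hs with hs | hs
  · exact ⟨(h s hs).1.trans (le_max_left _ _), fun i =>
      ⟨Finset.mem_union_left _ ((h s hs).2 i).1, ((h s hs).2 i).2.trans_le (le_max_left _ _)⟩⟩
  · exact ⟨(h' s hs).1.trans (le_max_right _ _), fun i =>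
      ⟨Finset.mem_union_right _ ((h' s hs).2 i).1, ((h' s hs).2 i).2.trans_le (le_max_right _ _)⟩⟩

theorem exists_clo63 {A I : Type u} (w : W S A I) :
    ∃ (F : Finset (Cell S A I)) (k : ℕ), Clo63 F k ∧ w.cell ∈ F ∧ w.idx < k := by
  classical
  induction w with
  | mk lev τ r m n coef arg c idx ih =>
    choose F k h1 h2 h3 using ih
    let s : Cell S A I := ⟨lev, τ, r, m, n, coef, arg, c⟩
    refine ⟨insert s (Finset.univ.biUnion F), max (idx + 1) (max s.Y.n (Finset.univ.sup k)),
      ?_, Finset.mem_insert_self _ _, lt_of_lt_of_le (Nat.lt_succ_self _) (le_max_left _ _)⟩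
    have hk : ∀ i, k i ≤ max (idx + 1) (max s.Y.n (Finset.univ.sup k)) := fun i =>
      (Finset.le_sup (Finset.mem_univ i)).trans ((le_max_right _ _).trans (le_max_right _ _))
    intro s' hs'
    rcases Finset.mem_insert.1 hs' with rfl | hs'
    · refine ⟨(le_max_left _ _).trans (le_max_right _ _), fun i => ⟨?_, ?_⟩⟩
      · exact Finset.mem_insert_of_mem (Finset.mem_biUnion.2 ⟨i, Finset.mem_univ _, h2 i⟩)
      · exact (h3 i).trans_le (hk i)
    · obtain ⟨j, -, hj⟩ := Finset.mem_biUnion.1 hs'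
      refine ⟨((h1 j) s' hj).1.trans (hk j), fun i => ⟨?_, ?_⟩⟩
      · exact Finset.mem_insert_of_mem
          (Finset.mem_biUnion.2 ⟨j, Finset.mem_univ _, (((h1 j) s' hj).2 i).1⟩)
      · exact (((h1 j) s' hj).2 i).2.trans_le (hk j)

/-- Finitely many variables lie in a closed finite set. -/
theorem exists_clo_fin63 {A I : Type u} (V : Finset (W S A I)) :
    ∃ (F : Finset (Cell S A I)) (k : ℕ), Clo63 F k ∧ ∀ w ∈ V, w.cell ∈ F ∧ w.idx < k := by
  classical
  induction V using Finset.induction_on with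
  | empty => exact ⟨∅, 0, fun s hs => absurd hs (Finset.notMem_empty s),
      fun w hw => absurd hw (Finset.notMem_empty w)⟩
  | insert w V _ ih =>
    obtain ⟨F, k, h1, h2⟩ := ih
    obtain ⟨F', k', h1', h2', h3'⟩ := exists_clo63 w
    refine ⟨F ∪ F', max k k', h1.union h1', fun v hv => ?_⟩
    rcases Finset.mem_insert.1 hv with rfl | hv
    · exact ⟨Finset.mem_union_right _ h2', h3'.trans_le (le_max_right _ _)⟩
    · exact ⟨Finset.mem_union_left _ (h2 v hv).1, (h2 v hv).2.trans_le (le_max_left _ _)⟩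

theorem W.e_inj63 {A I : Type u} [AddCommGroup A] [Module K A] {w w' : W S A I}
    (h : w.e = w'.e) : w = w' := by
  have h1 : (Finsupp.single w (1 : K)) = Finsupp.single w' 1 := congrArg Prod.snd h
  exact Finsupp.single_left_injective one_ne_zero h1

theorem W.e_ne63 {A I : Type u} [AddCommGroup A] [Module K A] {w : W S A I} {m : A} :
    w.e ≠ (m, 0) := by
  intro h
  have h1 : (Finsupp.single w (1 : K)) = 0 := congrArg Prod.snd h
  rw [Finsupp.single_eq_zero] at h1
  exact one_ne_zero h1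

/-! ### Modification of a hom at a cell -/

theorem Cell.Ok.map_hom63 {T : Set S.Tp} (hT : S.Closed T) {M₀ B : Obj K S.L} {I : Type u}
    {f : Nc T M₀ I →ₗ[K] B} (hf : IsHom (S.lab T) f) {s : Cell S M₀ I} (hs : s.Ok T M₀) :
    s.Y.toPre.Hom B (fun i => f (s.v i).e) ∧
      f s.dv + lin (s.Y.out ()) (fun i : Fin s.Y.n => f (s.v i).e) ∈ B.P (.inr s.τ) := by
  constructor
  · intro q hq
    have h1 := hf q.1 ((hT s.τ hs.1 s.r).2 q hq) _ (hs.hom q hq)
    rw [map_lin] at h1
    exact h1
  · have h1 := hf (.inr s.τ) (fun τ' h => by cases h; exact hs.1) _ hs.mem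
    rw [map_add, Cell.yv, map_lin] at h1
    exact h1

theorem Nc.modify63 {T : Set S.Tp} (hT : S.Closed T) {M₀ B : Obj K S.L} {I : Type u}
    (hB : S.FF T B) {f : Nc T M₀ I →ₗ[K] B} (hf : IsHom (S.lab T) f) (s₀ : Cell S M₀ I)
    (y₀ : ℕ → B) (h0 : s₀.Ok T M₀ → s₀.Y.toPre.Hom B (fun i => y₀ i) ∧
      f s₀.dv + lin (s₀.Y.out ()) (fun i : Fin s₀.Y.n => y₀ i) ∈ B.P (.inr s₀.τ)) :
    ∃ f' : Nc T M₀ I →ₗ[K] B, IsHom (S.lab T) f' ∧ (∀ m : M₀, f' (m, 0) = f (m, 0)) ∧
      (∀ w : W S M₀ I, w.depth ≤ s₀.depth → w.cell ≠ s₀ → f' w.e = f w.e) ∧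
      ∀ i, f' (s₀.v i).e = y₀ i := by
  classical
  have hf₀ : IsHom (S.lab T) (M := M₀) (N := B)
      (f ∘ₗ (LinearMap.inl K M₀ (W S M₀ I →₀ K) : M₀ →ₗ[K] Nc T M₀ I)) := by
    intro l hl x hx
    exact hf l hl _ (Nc.inl_hom (T := T) (M₀ := M₀) (I := I) (S.lab T) l hl x hx)
  obtain ⟨f', hf', h2, h3⟩ := Nc.exists_hom (I := I) hB hf₀
    (fun s z y => (s = s₀ → z = f s₀.dv → ∀ i, y i = y₀ i) ∧
      (s ≠ s₀ → z = f s.dv → ∀ i, y i = f (s.v i).e))
    (fun s z hs hz => by
      by_cases h : s = s₀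
      · subst h
        by_cases hz' : z = f s.dv
        · subst hz'
          exact ⟨y₀, (h0 hs).1, (h0 hs).2, fun _ _ _ => rfl, fun h => absurd rfl h⟩
        · obtain ⟨y, hy, hy'⟩ := hB.exists_block hs.1 s.r hz
          refine ⟨fun i => if h : i < s.Y.n then y ⟨i, h⟩ else 0, ?_, ?_,
            fun _ h => absurd h hz', fun h => absurd rfl h⟩
          · simpa using hy
          · simpa using hy'
      · by_cases hz' : z = f s.dv
        · subst hz'
          exact ⟨fun i => f (s.v i).e, (hs.map_hom63 hT hf).1, (hs.map_hom63 hT hf).2,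
            fun h' => absurd h' h, fun _ _ _ => rfl⟩
        · obtain ⟨y, hy, hy'⟩ := hB.exists_block hs.1 s.r hz
          refine ⟨fun i => if h : i < s.Y.n then y ⟨i, h⟩ else 0, ?_, ?_,
            fun h' => absurd h' h, fun _ h' => absurd h' hz'⟩
          · simpa using hy
          · simpa using hy')
    (fun s z _ => by
      by_cases h : s = s₀
      · exact ⟨y₀, fun _ _ _ => rfl, fun h' => absurd h h'⟩
      · exact ⟨fun i => f (s.v i).e, fun h' => absurd h' h, fun _ _ _ => rfl⟩)
  have hdv : ∀ s : Cell S M₀ I, (∀ i, f' (s.arg i).e = f (s.arg i).e) → f' s.dv = f s.dv := by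
    intro s h
    rw [Cell.dv, map_add, map_add, map_sum, map_sum, h2]
    congr 1
    refine Finset.sum_congr rfl fun i _ => ?_
    rw [map_smul, map_smul, h i]
  have key : ∀ w : W S M₀ I, w.depth ≤ s₀.depth → w.cell ≠ s₀ → f' w.e = f w.e := by
    intro w
    induction w with
    | mk lev τ r m n coef arg c idx ih =>
      intro hw hne
      let s : Cell S M₀ I := ⟨lev, τ, r, m, n, coef, arg, c⟩
      have h4 : ∀ i, f' (s.arg i).e = f (s.arg i).e := by
        intro i
        have h5 : (s.arg i).depth < s.depth := s.arg_lt63 i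
        have h6 : s.depth ≤ s₀.depth := by
          rw [← s.depth_v63 idx]
          exact hw
        refine ih i (le_of_lt (h5.trans_le h6)) fun h7 => ?_
        have h8 := W.depth_cell63 (s.arg i)
        rw [h7] at h8
        omega
      exact (h3 s).2 hne (hdv s h4) idx
  refine ⟨f', hf', h2, key, fun i => ?_⟩
  refine (h3 s₀).1 rfl (hdv s₀ fun i => ?_) i
  have h5 := s₀.arg_lt63 i
  refine key _ h5.le fun h7 => ?_
  have h8 := W.depth_cell63 (s₀.arg i)
  rw [h7] at h8
  omega


/-! ### States of the construction -/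

/-- A complex `G` over `G₁` in the closure. -/
structure St63 (T : Set S.Tp) {M₀ : Obj K S.L} (I : Type u) {G₁ : Pre K S.L}
    (x₁ : Fin G₁.n → M₀) (G : Pre K S.L) (e : Fin G₁.n → Fin G.n)
    (x : Fin G.n → Nc T M₀ I) : Prop where
  cx : Cx T G₁ G e
  base : ∀ i, x (e i) = (x₁ i, 0)
  hom : G.Hom (Nc T M₀ I) x
  form : ∀ j, (∃ m, x j = (m, 0)) ∨ ∃ w : W S M₀ I, x j = w.e
  ext : ∀ D : Obj K S.L, S.FF T D → ∀ x' : Fin G.n → D, G.Hom D x' →
    ∃ f : Nc T M₀ I →ₗ[K] D, IsHom (S.lab T) f ∧ ∀ i, f (x i) = x' i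

variable {T : Set S.Tp} {M₀ : Obj K S.L} {I : Type u} {G₁ : Pre K S.L} {x₁ : Fin G₁.n → M₀}
  {G : Pre K S.L} {e : Fin G₁.n → Fin G.n} {x : Fin G.n → Nc T M₀ I}

/-- Adding a junk variable. -/
theorem St63.junk (h : St63 T I x₁ G e x) (hT : S.Closed T) (hN : S.NodeOK (Nc T M₀ I))
    (w : W S M₀ I)
    (hw1 : ∀ (j : Fin G.n) (w' : W S M₀ I), x j = w'.e → w'.depth ≤ w.depth ∧ w' ≠ w)
    (hw2 : w.cell.Ok T M₀ → w.cell.Y.n ≤ w.idx) :
    St63 T I x₁ (G.sum (Pre.one K (.inl S.root))) (fun i => Fin.castAdd 1 (e i))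
      (Fin.append x (fun _ : Fin 1 => (w.e : Nc T M₀ I))) := by
  classical
  refine ⟨h.cx.atom _, fun i => ?_, ?_, fun j => ?_, fun D hD x' hx' => ?_⟩
  · rw [Fin.append_left]
    exact h.base i
  · rw [Pre.sum_hom, Pre.one_hom]
    refine ⟨?_, ?_⟩
    · have h1 : (fun i => Fin.append x (fun _ : Fin 1 => (w.e : Nc T M₀ I))
          (Fin.castAdd (Pre.one K (Sum.inl S.root : S.L)).n i)) = x :=
        funext fun i => Fin.append_left _ _ i
      rw [h1]
      exact h.hom
    · rw [hN.root]
      exact Submodule.mem_top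
  · refine Fin.addCases (fun j => ?_) (fun j => ?_) j
    · rw [Fin.append_left]
      exact h.form j
    · rw [Fin.append_right]
      exact Or.inr ⟨w, rfl⟩
  · rw [Pre.sum_hom] at hx'
    obtain ⟨f, hf, hfx⟩ := h.ext D hD _ hx'.1
    obtain ⟨f', hf', k1, k2, k3⟩ := Nc.modify63 hT hD hf w.cell
      (fun i => if i = w.idx then x' (Fin.natAdd G.n 0) else f (w.cell.v i).e) (fun hs => by
        have h2 := hs.map_hom63 hT hf
        have h3 : (fun i : Fin w.cell.Y.n => if (i : ℕ) = w.idx then x' (Fin.natAdd G.n 0)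
            else f (w.cell.v i).e) = fun i : Fin w.cell.Y.n => f (w.cell.v i).e := by
          funext i
          rw [if_neg]
          have := hw2 hs
          omega
        rw [h3]
        exact h2)
    refine ⟨f', hf', fun j => ?_⟩
    refine Fin.addCases (fun j => ?_) (fun j => ?_) j
    · rw [Fin.append_left]
      rw [← hfx j]
      rcases h.form j with ⟨m, hm⟩ | ⟨w', hw'⟩
      · rw [hm]
        exact k1 m
      · have h4 := hw1 j w' hw'
        rw [hw']
        by_cases h5 : w'.cell = w.cell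
        · have h6 := k3 w'.idx
          have h7 : w'.idx ≠ w.idx := by
            intro h7
            apply h4.2
            rw [← w'.cell_v63, ← w.cell_v63, h5, h7]
          rw [if_neg h7, ← h5, w'.cell_v63] at h6
          exact h6
        · refine k2 w' ?_ h5
          rw [← W.depth_cell63]
          exact h4.1
    · rw [Fin.append_right]
      have h6 := k3 w.idx
      rw [if_pos rfl, w.cell_v63] at h6
      rw [h6]
      congr 1
      congr 1
      exact (Subsingleton.elim _ _)

/-- Adding a valid cell. -/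
theorem St63.cell (h : St63 T I x₁ G e x) (hT : S.Closed T)
    (s : Cell S M₀ I) (hs : s.Ok T M₀) (d : Fin G.n → K) (hd : lin d x = s.dv)
    (hw1 : ∀ (j : Fin G.n) (w' : W S M₀ I), x j = w'.e → w'.depth ≤ s.depth ∧ w'.cell ≠ s) :
    St63 T I x₁ (G.cell s.τ s.r d) (fun i => Fin.castAdd (S.Y s.τ s.r).n (e i))
      (Fin.append x (s.blk : Fin (S.Y s.τ s.r).n → Nc T M₀ I)) := by
  classical
  have hleft : (fun i => Fin.append x (s.blk : Fin (S.Y s.τ s.r).n → Nc T M₀ I)
      (Fin.castAdd (S.Y s.τ s.r).n i)) = x := funext fun i => Fin.append_left _ _ i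
  have hright : (fun i => Fin.append x (s.blk : Fin (S.Y s.τ s.r).n → Nc T M₀ I)
      (Fin.natAdd G.n i)) = s.blk := funext fun i => Fin.append_right _ _ i
  refine ⟨h.cx.cell s.τ s.r d hs.1 fun D hD x' hx' => ?_, fun i => ?_, ?_, fun j => ?_,
    fun D hD x' hx' => ?_⟩
  · obtain ⟨f, hf, hfx⟩ := h.ext D hD x' hx'
    have h1 : lin d x' = f s.dv := by
      rw [← hd, map_lin]
      congr 1
      funext i
      exact (hfx i).symm
    rw [h1]
    refine hs.2 D f hD fun l hl y hy => hf l hl y ?_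
    exact (le_iSup (fun j => Pst (I := I) T M₀.P j l) s.lev) hy
  · rw [Fin.append_left]
    exact h.base i
  · rw [Pre.addc_hom, Pre.sum_hom, hleft, hright, lin_append, hleft, hright, hd]
    exact ⟨⟨h.hom, hs.hom⟩, hs.mem⟩
  · refine Fin.addCases (fun j => ?_) (fun j => ?_) j
    · rw [Fin.append_left]
      exact h.form j
    · rw [Fin.append_right]
      exact Or.inr ⟨s.v j, rfl⟩
  · rw [Pre.addc_hom, Pre.sum_hom, lin_append] at hx'
    obtain ⟨f, hf, hfx⟩ := h.ext D hD _ hx'.1.1
    have h1 : lin d (fun i => x' (Fin.castAdd (S.Y s.τ s.r).n i)) = f s.dv := by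
      rw [← hd, map_lin]
      congr 1
      funext i
      exact (hfx i).symm
    obtain ⟨f', hf', k1, k2, k3⟩ := Nc.modify63 hT hD hf s
      (fun i => if h : i < (S.Y s.τ s.r).n then x' (Fin.natAdd G.n ⟨i, h⟩) else 0) (fun _ => by
        have h3 : (fun i : Fin s.Y.n => if h : (i : ℕ) < (S.Y s.τ s.r).n then
            x' (Fin.natAdd G.n ⟨i, h⟩) else 0) =
            fun i : Fin s.Y.n => x' (Fin.natAdd G.n i) := by
          funext i
          rw [dif_pos i.2]
        rw [h3, ← h1]
        exact ⟨hx'.1.2, hx'.2⟩)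
    refine ⟨f', hf', fun j => ?_⟩
    refine Fin.addCases (fun j => ?_) (fun j => ?_) j
    · rw [Fin.append_left]
      rw [← hfx j]
      rcases h.form j with ⟨m, hm⟩ | ⟨w', hw'⟩
      · rw [hm]
        exact k1 m
      · have h4 := hw1 j w' hw'
        rw [hw']
        exact k2 w' h4.1 h4.2
    · rw [Fin.append_right]
      have h6 := k3 j
      rw [dif_pos j.2] at h6
      exact h6


/-! ### Formal conditions in sums -/

theorem pf_left63 {G H : Pre K S.L} {M : Obj K S.L} {x : Fin G.n → M} {y : Fin H.n → M}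
    {l : S.L} {v : M} (h : ∃ t ∈ Pf S G l, lin t x = v) :
    ∃ t ∈ Pf S (G.sum H) l, lin t (Fin.append x y) = v := by
  obtain ⟨t, ht, h⟩ := h
  refine ⟨_, Pf.sum_left (H := H) ht, ?_⟩
  rw [lin_append, lin_zero_left, add_zero, ← h]
  congr 1
  funext i
  exact Fin.append_left _ _ i

theorem pf_cell63 {G : Pre K S.L} {M : Obj K S.L} {τ : S.Tp} {r : Rl} {d : Fin G.n → K}
    {x : Fin G.n → M} {y : Fin (S.Y τ r).n → M}
    {l : S.L} {v : M} (h : ∃ t ∈ Pf S G l, lin t x = v) :
    ∃ t ∈ Pf S (G.cell τ r d) l, lin t (Fin.append x y) = v := by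
  obtain ⟨t, ht, h⟩ := pf_left63 (H := (S.Y τ r).toPre) (y := y) h
  exact ⟨t, Pf.addc ht, h⟩

theorem pf_new63 {G : Pre K S.L} {x : Fin G.n → Nc T M₀ I} {s : Cell S M₀ I}
    {d : Fin G.n → K} (hd : lin d x = s.dv) {l : S.L} {v : Nc T M₀ I} (hv : s.Cnd l v) :
    ∃ t ∈ Pf S (G.cell s.τ s.r d) l,
      lin t (Fin.append x (s.blk : Fin (S.Y s.τ s.r).n → Nc T M₀ I)) = v := by
  have hleft : (fun i => Fin.append x (s.blk : Fin (S.Y s.τ s.r).n → Nc T M₀ I)
      (Fin.castAdd (S.Y s.τ s.r).n i)) = x := funext fun i => Fin.append_left _ _ i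
  have hright : (fun i => Fin.append x (s.blk : Fin (S.Y s.τ s.r).n → Nc T M₀ I)
      (Fin.natAdd G.n i)) = s.blk := funext fun i => Fin.append_right _ _ i
  rcases hv with ⟨q, hq, rfl, hql⟩ | ⟨rfl, rfl⟩
  · have h1 : q.2 ∈ Pf S (S.Y s.τ s.r).toPre l :=
      (le_sup_left : Submodule.span K {v | ∃ q ∈ (S.Y s.τ s.r).toPre.c, q.2 = v ∧
        (q.1 = l ∨ ∃ a b, q.1 = .inl a ∧ l = .inl b ∧ S.Le a b)} ≤ _)
        (Submodule.subset_span ⟨q, hq, rfl, hql⟩)
    refine ⟨_, Pf.addc (Pf.sum_right (G := G) h1), ?_⟩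
    rw [lin_append, lin_zero_left, zero_add, hright]
  · have h1 : ((.inr s.τ : S.L), (Fin.append d ((S.Y s.τ s.r).out ()) :
        Fin (G.n + (S.Y s.τ s.r).n) → K)) ∈ (G.cell s.τ s.r d).c :=
      List.mem_append_right _ (List.mem_singleton_self _)
    have h2 := Pf.of_mem (S := S) h1
    refine ⟨(Fin.append d ((S.Y s.τ s.r).out ())), h2, ?_⟩
    rw [lin_append, hleft, hright, hd]
    rfl

theorem pf_cx63 {G₁ G : Pre K S.L} {e : Fin G₁.n → Fin G.n} (h : Cx T G₁ G e) {l : S.L}
    {v : Fin G₁.n → K} (hv : v ∈ Pf S G₁ l) : ∃ v' ∈ Pf S G l, ∀ (M : Obj K S.L)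
      (x : Fin G.n → M), lin v' x = lin v (fun i => x (e i)) := by
  induction h with
  | base => exact ⟨v, hv, fun M x => rfl⟩
  | atom a _ ih =>
    obtain ⟨v', hv', h1⟩ := ih
    refine ⟨_, Pf.sum_left (H := Pre.one K (.inl a)) hv', fun M x => ?_⟩
    rw [lin_append, lin_zero_left, add_zero, h1]
  | cell τ r d _ _ _ ih =>
    obtain ⟨v', hv', h1⟩ := ih
    refine ⟨_, Pf.addc (Pf.sum_left (H := (S.Y τ r).toPre) hv'), fun M x => ?_⟩
    rw [lin_append, lin_zero_left, add_zero, h1]

/-! ### The induction over the closed finite set -/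

theorem exists_good63 (hT : S.Closed T) (hr : S.par S.root = S.root) (hM : S.NodeOK M₀)
    [Nonempty I] (hx₁ : G₁.Hom M₀ x₁) (hext : ∀ D : Obj K S.L, S.FF T D → ∀ x' : Fin G₁.n → D,
      G₁.Hom D x' → ∃ f : M₀ →ₗ[K] D, IsHom (S.lab T) f ∧ ∀ i, f (x₁ i) = x' i) (k : ℕ) :
    ∀ (N : ℕ) (F : Finset (Cell S M₀ I)), F.card = N → Clo63 F k →
      (∀ s ∈ F, ∃ c : Fin G₁.n → K, lin c x₁ = s.m) →
      ∃ (G : Pre K S.L) (e : Fin G₁.n → Fin G.n) (x : Fin G.n → Nc T M₀ I),
        St63 T I x₁ G e x ∧ (∀ (j : Fin G.n) (w : W S M₀ I), x j = w.e → w.cell ∈ F) ∧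
        (∀ s ∈ F, ∀ i < k, ∃ j, x j = (s.v i).e) ∧
        ∀ s ∈ F, s.Ok T M₀ → ∀ l v, s.Cnd l v → ∃ t ∈ Pf S G l, lin t x = v := by
  classical
  have hN : S.NodeOK (Nc T M₀ I) := Nc.nodeOK hr hM I
  intro N
  induction N with
  | zero =>
    intro F hF _ _
    have hF' : F = ∅ := Finset.card_eq_zero.1 hF
    subst hF'
    refine ⟨G₁, id, fun i => (x₁ i, 0), ⟨Cx.base, fun _ => rfl, ?_, fun j => Or.inl ⟨_, rfl⟩, ?_⟩,
      ?_, ?_, ?_⟩
    · intro q hq
      have h1 := Nc.inl_hom (T := T) (M₀ := M₀) (I := I) Set.univ q.1 (Set.mem_univ _) _ (hx₁ q hq)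
      rw [map_lin] at h1
      exact h1
    · intro D hD x' hx'
      obtain ⟨f₀, hf₀, hf₁⟩ := hext D hD x' hx'
      obtain ⟨f, hf, hf'⟩ := Nc.extend (I := I) hD hf₀
      exact ⟨f, hf, fun i => (hf' _).trans (hf₁ i)⟩
    · intro j w hw
      exact absurd hw.symm W.e_ne63
    · intro s hs
      exact absurd hs (Finset.notMem_empty s)
    · intro s hs
      exact absurd hs (Finset.notMem_empty s)
  | succ N ih =>
    intro F hF hclo hm
    have hne : F.Nonempty := by
      rw [← Finset.card_pos, hF]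
      omega
    obtain ⟨s, hs, hmax⟩ := Finset.exists_max_image F Cell.depth hne
    have hclo' : Clo63 (F.erase s) k := by
      intro s' hs'
      have hs'F := Finset.mem_of_mem_erase hs'
      refine ⟨(hclo s' hs'F).1, fun i => ⟨?_, ((hclo s' hs'F).2 i).2⟩⟩
      refine Finset.mem_erase.2 ⟨fun h => ?_, ((hclo s' hs'F).2 i).1⟩
      have h1 := s'.arg_lt63 i
      rw [W.depth_cell63, h] at h1
      have h2 := hmax s' hs'F
      omega
    obtain ⟨G, e, x, hSt, hvar, hcov, hcond⟩ := ih (F.erase s)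
      (by rw [Finset.card_erase_of_mem hs, hF]; rfl) hclo'
      (fun s' hs' => hm s' (Finset.mem_of_mem_erase hs'))
    have hlt : ∀ (j : Fin G.n) (w : W S M₀ I), x j = w.e → w.depth ≤ s.depth ∧ w.cell ≠ s := by
      intro j w hw
      have h1 := hvar j w hw
      rw [W.depth_cell63]
      exact ⟨hmax _ (Finset.mem_of_mem_erase h1), (Finset.mem_erase.1 h1).1⟩
    -- the vector `d_s`
    have hd : ∃ d : Fin G.n → K, lin d x = s.dv := by
      have h1 : ∀ y : Nc T M₀ I, y ∈ Submodule.span K (Set.range x) ↔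
          ∃ d : Fin G.n → K, lin d x = y := fun y =>
        Submodule.mem_span_range_iff_exists_fun K
      rw [← h1]
      refine Submodule.add_mem _ ?_ (Submodule.sum_mem _ fun i _ => Submodule.smul_mem _ _ ?_)
      · obtain ⟨c, hc⟩ := hm s hs
        have h2 : ((s.m, 0) : Nc T M₀ I) = lin c (fun i => x (e i)) := by
          have h3 : (fun i => x (e i)) = fun i =>
              (LinearMap.inl K M₀ (W S M₀ I →₀ K) (x₁ i) : Nc T M₀ I) :=
            funext fun i => hSt.base i
          rw [h3, ← hc]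
          exact map_lin (LinearMap.inl K M₀ (W S M₀ I →₀ K) : M₀ →ₗ[K] Nc T M₀ I) c x₁
        rw [h2]
        exact Submodule.sum_mem _ fun i _ =>
          Submodule.smul_mem _ _ (Submodule.subset_span ⟨_, rfl⟩)
      · have h2 := (hclo s hs).2 i
        have h3 : (s.arg i).cell ∈ F.erase s := by
          refine Finset.mem_erase.2 ⟨fun h => ?_, h2.1⟩
          have h1 := s.arg_lt63 i
          rw [W.depth_cell63, h] at h1
          omega
        obtain ⟨j, hj⟩ := hcov _ h3 _ h2.2
        rw [W.cell_v63] at hj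
        exact Submodule.subset_span ⟨j, hj⟩
    obtain ⟨d, hd⟩ := hd
    -- stages
    let i₀ : ℕ := if s.Ok T M₀ then s.Y.n else 0
    have hi₀ : i₀ ≤ k := by
      simp only [i₀]
      split_ifs
      · exact (hclo s hs).1
      · exact Nat.zero_le _
    have key : ∀ n : ℕ, ∃ (G : Pre K S.L) (e : Fin G₁.n → Fin G.n) (x : Fin G.n → Nc T M₀ I),
        St63 T I x₁ G e x ∧
        (∀ (j : Fin G.n) (w : W S M₀ I), x j = w.e →
          w.cell ∈ F.erase s ∨ (w.cell = s ∧ w.idx < i₀ + n)) ∧
        (∀ s' ∈ F.erase s, ∀ i < k, ∃ j, x j = (s'.v i).e) ∧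
        (∀ i < i₀ + n, ∃ j, x j = (s.v i).e) ∧
        (∀ s' ∈ F.erase s, s'.Ok T M₀ → ∀ l v, s'.Cnd l v → ∃ t ∈ Pf S G l, lin t x = v) ∧
        (s.Ok T M₀ → ∀ l v, s.Cnd l v → ∃ t ∈ Pf S G l, lin t x = v) := by
      intro n
      induction n with
      | zero =>
        by_cases hok : s.Ok T M₀
        · have hi : i₀ = s.Y.n := if_pos hok
          refine ⟨_, _, _, hSt.cell hT s hok d hd hlt, ?_, ?_, ?_, ?_, ?_⟩
          · intro j w
            refine Fin.addCases (fun j => ?_) (fun j => ?_) j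
            · rw [Fin.append_left]
              exact fun hw => Or.inl (hvar j w hw)
            · rw [Fin.append_right]
              intro hw
              have h1 : s.v j = w := W.e_inj63 hw
              rw [← h1]
              refine Or.inr ⟨rfl, ?_⟩
              rw [Cell.v_idx63, hi]
              exact j.2
          · intro s' hs' i hi'
            obtain ⟨j, hj⟩ := hcov s' hs' i hi'
            refine ⟨Fin.castAdd _ j, ?_⟩
            rw [Fin.append_left]
            exact hj
          · intro i hi'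
            rw [hi] at hi'
            refine ⟨Fin.natAdd _ ⟨i, hi'⟩, ?_⟩
            rw [Fin.append_right]
            rfl
          · intro s' hs' hok' l v hv
            exact pf_cell63 (hcond s' hs' hok' l v hv)
          · intro _ l v hv
            exact pf_new63 hd hv
        · have hi : i₀ = 0 := if_neg hok
          refine ⟨G, e, x, hSt, fun j w hw => Or.inl (hvar j w hw), hcov, ?_, hcond,
            fun h => absurd h hok⟩
          intro i hi'
          rw [hi] at hi'
          exact absurd hi' (Nat.not_lt_zero i)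
      | succ n ihn =>
        obtain ⟨G, e, x, hSt, hvar, hcov, hcov', hcond, hcond'⟩ := ihn
        refine ⟨_, _, _, hSt.junk hT hN (s.v (i₀ + n)) ?_ ?_, ?_, ?_, ?_, ?_, ?_⟩
        · intro j w' hw'
          rcases hvar j w' hw' with h1 | ⟨h1, h2⟩
          · rw [W.depth_cell63, Cell.depth_v63]
            refine ⟨hmax _ (Finset.mem_of_mem_erase h1), fun h3 => ?_⟩
            rw [h3] at h1
            exact (Finset.mem_erase.1 h1).1 rfl
          · rw [W.depth_cell63, Cell.depth_v63, h1]
            refine ⟨le_rfl, fun h3 => ?_⟩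
            rw [h3, Cell.v_idx63] at h2
            exact lt_irrefl _ h2
        · intro hok
          rw [Cell.v_cell63] at hok ⊢
          rw [Cell.v_idx63]
          have hi : i₀ = s.Y.n := if_pos hok
          omega
        · intro j w
          refine Fin.addCases (fun j => ?_) (fun j => ?_) j
          · rw [Fin.append_left]
            intro hw
            rcases hvar j w hw with h1 | ⟨h1, h2⟩
            · exact Or.inl h1
            · exact Or.inr ⟨h1, by omega⟩
          · rw [Fin.append_right]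
            intro hw
            have h1 : s.v (i₀ + n) = w := W.e_inj63 hw
            rw [← h1]
            refine Or.inr ⟨rfl, ?_⟩
            rw [Cell.v_idx63]
            omega
        · intro s' hs' i hi'
          obtain ⟨j, hj⟩ := hcov s' hs' i hi'
          refine ⟨Fin.castAdd _ j, ?_⟩
          rw [Fin.append_left]
          exact hj
        · intro i hi'
          rcases Nat.lt_succ_iff_lt_or_eq.1 (show i < (i₀ + n).succ from hi') with h1 | h1
          · obtain ⟨j, hj⟩ := hcov' i h1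
            refine ⟨Fin.castAdd _ j, ?_⟩
            rw [Fin.append_left]
            exact hj
          · refine ⟨Fin.natAdd _ (0 : Fin 1), ?_⟩
            rw [Fin.append_right, h1]
        · intro s' hs' hok' l v hv
          exact pf_left63 (hcond s' hs' hok' l v hv)
        · intro hok l v hv
          exact pf_left63 (hcond' hok l v hv)
    obtain ⟨G', e', x', k1, k2, k3, k4, k5, k6⟩ := key (k - i₀)
    refine ⟨G', e', x', k1, ?_, ?_, ?_⟩
    · intro j w hw
      rcases k2 j w hw with h1 | ⟨h1, -⟩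
      · exact Finset.mem_of_mem_erase h1
      · rw [h1]
        exact hs
    · intro s' hs' i hi'
      by_cases h1 : s' = s
      · subst h1
        exact k4 i (by omega)
      · exact k3 s' (Finset.mem_erase.2 ⟨h1, hs'⟩) i hi'
    · intro s' hs' hok
      by_cases h1 : s' = s
      · subst h1
        exact k6 hok
      · exact k5 s' (Finset.mem_erase.2 ⟨h1, hs'⟩) hok

theorem span_fin63 {l : S.L} {u : Sp S M₀ I}
    (hu : u ∈ Submodule.span K {x : Sp S M₀ I | ∃ s : Cell S M₀ I, s.Ok T M₀ ∧ s.Cnd l x}) :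
    ∃ F : Finset (Cell S M₀ I),
      u ∈ Submodule.span K {x : Sp S M₀ I | ∃ s ∈ F, s.Ok T M₀ ∧ s.Cnd l x} := by
  classical
  induction hu using Submodule.span_induction with
  | mem x hx =>
    obtain ⟨s, hs⟩ := hx
    exact ⟨{s}, Submodule.subset_span ⟨s, Finset.mem_singleton_self s, hs⟩⟩
  | zero => exact ⟨∅, Submodule.zero_mem _⟩
  | add x y _ _ hx hy =>
    obtain ⟨F, hF⟩ := hx
    obtain ⟨F', hF'⟩ := hy
    refine ⟨F ∪ F', Submodule.add_mem _ (Submodule.span_mono ?_ hF) (Submodule.span_mono ?_ hF')⟩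
    · rintro z ⟨s, hs, hz⟩
      exact ⟨s, Finset.mem_union_left _ hs, hz⟩
    · rintro z ⟨s, hs, hz⟩
      exact ⟨s, Finset.mem_union_right _ hs, hz⟩
  | smul a x _ hx =>
    obtain ⟨F, hF⟩ := hx
    exact ⟨F, Submodule.smul_mem _ _ hF⟩

end h63

theorem Nc.approx {T : Set S.Tp} (hT : S.Closed T) (hr : S.par S.root = S.root)
    {M₀ : Obj K S.L} (hM : S.NodeOK M₀) {I : Type u} [Nonempty I] {G₀ : Pre K S.L}
    (hG₀ : ∀ q ∈ G₀.c, q.1 ∈ S.lab T) {b : Fin G₀.n → M₀} (h : Approx T G₀ M₀ b) :
    Approx T G₀ (Nc T M₀ I) (fun i => (b i, 0)) := by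
  classical
  intro κ _ l z hl hz
  -- decomposition of the vectors
  have hdec : ∀ k, ∃ (a : M₀) (r u : Sp S M₀ I) (F : Finset (Cell S M₀ I)), a ∈ M₀.P (l k) ∧
      (l k ≠ .inl S.root → r = 0) ∧
      u ∈ Submodule.span K {x : Sp S M₀ I | ∃ s ∈ F, s.Ok T M₀ ∧ s.Cnd (l k) x} ∧
      (a, 0) + r + u = z k := by
    intro k
    have h1 := hz k
    rw [Nc.mem_P] at h1
    obtain ⟨p, hp, u, hu, h2⟩ := Submodule.mem_sup.1 h1
    obtain ⟨a', ha', r, hr', h3⟩ := Submodule.mem_sup.1 hp
    obtain ⟨a, ha, h4⟩ := Submodule.mem_map.1 ha'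
    obtain ⟨F, hF⟩ := span_fin63 hu
    refine ⟨a, r, u, F, ha, fun h5 => ?_, hF, ?_⟩
    · rw [iSup_neg h5] at hr'
      exact (Submodule.mem_bot K).1 hr'
    · rw [← h2, ← h3, ← h4]
      rfl
  choose a r u F₀ ha hr0 hu hzk using hdec
  -- a closed finite set
  obtain ⟨F, k₀, hclo, hV⟩ := exists_clo_fin63 (S := S) (A := M₀) (I := I)
    ((Finset.univ.biUnion fun k => (r k).2.support) ∪
      Finset.univ.biUnion fun k => (F₀ k).image fun s => s.v 0)
  have hF₀ : ∀ k, ∀ s ∈ F₀ k, s ∈ F := by
    intro k s hs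
    exact (hV (s.v 0) (Finset.mem_union_right _ (Finset.mem_biUnion.2
      ⟨k, Finset.mem_univ k, Finset.mem_image_of_mem _ hs⟩))).1
  -- the base
  have hroot : (.inl S.root : S.L) ∈ S.lab T := fun τ hτ => by cases hτ
  obtain ⟨G₁, e₁, x₁, t₁, hcx, hhom, hb, ht₁, hlin, hext⟩ := h (κ ⊕ (κ ⊕ Fin F.card))
    (Sum.elim l fun _ => .inl S.root)
    (Sum.elim a (Sum.elim (fun k => (r k).1) fun i => (F.equivFin.symm i).1.m))
    (by
      rintro (k | k)
      · exact hl k
      · exact hroot)
    (by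
      rintro (k | k)
      · exact ha k
      · change _ ∈ M₀.P (.inl S.root)
        rw [hM.root]
        exact Submodule.mem_top)
  obtain ⟨G, e, x, hSt, -, hcov, hcond⟩ := exists_good63 (I := I) hT hr hM hhom hext k₀ F.card F rfl
    hclo (fun s hs => ⟨t₁ (.inr (.inr (F.equivFin ⟨s, hs⟩))), by
      rw [hlin]
      simp only [Sum.elim_inr]
      rw [Equiv.symm_apply_apply]⟩)
  have hinl : ∀ c : Fin G₁.n → K, lin c (fun i => x (e i)) = ((lin c x₁, 0) : Nc T M₀ I) := by
    intro c
    have h3 : (fun i => x (e i)) = fun i =>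
        (LinearMap.inl K M₀ (W S M₀ I →₀ K) (x₁ i) : Nc T M₀ I) :=
      funext fun i => hSt.base i
    rw [h3]
    exact (map_lin (LinearMap.inl K M₀ (W S M₀ I →₀ K) : M₀ →ₗ[K] Nc T M₀ I) c x₁).symm
  have hmem : ∀ k, ∃ t ∈ Pf S G (l k), lin t x = z k := by
    intro k
    have h1 : ∀ y : Nc T M₀ I, y ∈ (Pf S G (l k)).map (Fintype.linearCombination K x) ↔
        ∃ t ∈ Pf S G (l k), lin t x = y := fun y => Submodule.mem_map
    rw [← h1, ← hzk k]
    refine Submodule.add_mem _ (Submodule.add_mem _ ?_ ?_) ?_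
    · rw [h1]
      obtain ⟨v', hv', h2⟩ := pf_cx63 hSt.cx (ht₁ (.inl k))
      refine ⟨v', hv', ?_⟩
      rw [h2, hinl, hlin]
      rfl
    · by_cases hroot' : l k = .inl S.root
      · have h2 : Pf S G (l k) = ⊤ := by
          rw [eq_top_iff]
          refine le_trans ?_ le_sup_right
          rw [iSup_pos hroot']
        rw [h2, Submodule.map_top, Fintype.range_linearCombination]
        have h3 : r k = ((r k).1, 0) + ∑ w ∈ (r k).2.support, (r k).2 w • w.e := by
          refine Prod.ext ?_ ?_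
          · rw [Prod.fst_add, Prod.fst_sum, Finset.sum_eq_zero, add_zero]
            intro w _
            simp [W.e]
          · rw [Prod.snd_add, zero_add, Prod.snd_sum]
            conv_lhs => rw [← Finsupp.sum_single (r k).2]
            refine Finset.sum_congr rfl fun w _ => ?_
            simp [W.e]
        rw [h3]
        refine Submodule.add_mem _ ?_ (Submodule.sum_mem _ fun w hw => Submodule.smul_mem _ _ ?_)
        · have h4 : (((r k).1, 0) : Nc T M₀ I) = lin (t₁ (.inr (.inl k))) (fun i => x (e i)) := by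
            rw [hinl, hlin]
            rfl
          rw [h4]
          exact Submodule.sum_mem _ fun i _ =>
            Submodule.smul_mem _ _ (Submodule.subset_span ⟨_, rfl⟩)
        · have h4 := hV w (Finset.mem_union_left _ (Finset.mem_biUnion.2
            ⟨k, Finset.mem_univ k, hw⟩))
          obtain ⟨j, hj⟩ := hcov _ h4.1 _ h4.2
          rw [W.cell_v63] at hj
          exact Submodule.subset_span ⟨j, hj⟩
      · rw [hr0 k hroot']
        exact Submodule.zero_mem _
    · refine (Submodule.span_le.2 ?_) (hu k)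
      rintro y ⟨s, hs, hok, hy⟩
      exact (h1 y).2 (hcond s (hF₀ k s hs) hok _ _ hy)
  choose t ht htz using hmem
  exact ⟨G, fun i => e (e₁ i), x, t, hcx.trans hSt.cx, hSt.hom, fun i => by
    rw [hSt.base, hb], ht, htz, hSt.ext⟩

end Pool.Agent.Helper13.SDW
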