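import Mathlib

/-!
# Definitions: structures, formulas, systems of types (MP_823891_al, negative answer of Q1)

A structure (`Obj K L`) is a `K`-space with a subspace `P l` for every label `l : L`.
-/

namespace Pool.Agent.Helper13.SDW

universe u

/-- The names of the rules: `u n` is the rule `(U_{n-1}, U_n)` (with `U_{-1} = 0`), `d l` is the
rule `(D_{l+1}, Z_l)`. -/
inductive Rl : Type
  | u (n : ℕ)
  | d (l : ℕ)

/-- A structure. -/
structure Obj (K : Type u) [Field K] (L : Type u) : Type (u + 1) where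
  carrier : Type u
  [grp : AddCommGroup carrier]
  [mod : Module K carrier]
  P : L → Submodule K carrier

attribute [instance] Obj.grp Obj.mod

instance {K : Type u} [Field K] {L : Type u} : CoeSort (Obj K L) (Type u) := ⟨Obj.carrier⟩

/-- `lin v x = ∑ v_i x_i`. -/
def lin {K : Type u} [Field K] {D : Type u} [AddCommGroup D] [Module K D] {ι : Type} [Fintype ι]
    (v : ι → K) (x : ι → D) : D := ∑ i, v i • x i

/-- A presentation: `n` variables and a finite list of conditions `(l, v)`. -/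
structure Pre (K : Type u) (L : Type u) : Type u where
  n : ℕ
  c : List (L × (Fin n → K))

/-- A pp formula with free variables indexed by `κ`: a presentation and a tuple of linear forms. -/
structure Fm (K : Type u) (L : Type u) (κ : Type) : Type u extends Pre K L where
  out : κ → Fin n → K

section basic

variable {K : Type u} [Field K] {L : Type u}

/-- The homs from a presentation to a structure. -/
def Pre.Hom (G : Pre K L) (M : Obj K L) (x : Fin G.n → M) : Prop :=
  ∀ q ∈ G.c, lin q.2 x ∈ M.P q.1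

/-- Satisfaction of a formula. -/
def Fm.Sat {κ : Type} (φ : Fm K L κ) (M : Obj K L) (y : κ → M) : Prop :=
  ∃ x : Fin φ.n → M, φ.toPre.Hom M x ∧ ∀ k, y k = lin (φ.out k) x

/-- Satisfaction of a unary formula. -/
def Fm.S1 (φ : Fm K L Unit) (M : Obj K L) (y : M) : Prop := φ.Sat M fun _ => y

/-- The unary formula `x = 0`. -/
def Fm.zero (K L : Type u) [Field K] : Fm K L Unit where
  n := 0
  c := []
  out := fun _ _ => 0

/-- A semantic formula: a subset of `M^κ` for all structures `M`. -/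
abbrev SF (K : Type u) [Field K] (L : Type u) (κ : Type) : Type (u + 1) :=
  ∀ M : Obj K L, (κ → M) → Prop

/-- A general pp formula: conditions `c`, linear equations `e`, free variables `out`. -/
structure Gf (K : Type u) (L : Type u) (κ : Type) : Type u where
  n : ℕ
  c : List (L × (Fin n → K))
  e : List (Fin n → K)
  out : κ → Fin n → K

/-- Satisfaction of a general formula. -/
def Gf.Sat {κ : Type} (φ : Gf K L κ) (M : Obj K L) (y : κ → M) : Prop :=
  ∃ x : Fin φ.n → M, (∀ q ∈ φ.c, lin q.2 x ∈ M.P q.1) ∧ (∀ v ∈ φ.e, lin v x = 0) ∧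
    ∀ k, y k = lin (φ.out k) x

/-- `F` is defined by a formula with labels in `Λ`. -/
def IsDef (Λ : Set L) {κ : Type} (F : SF K L κ) : Prop :=
  ∃ φ : Gf K L κ, (∀ q ∈ φ.c, q.1 ∈ Λ) ∧ ∀ (M : Obj K L) (y : κ → M), F M y ↔ φ.Sat M y

/-- Homs for the labels in `Λ`. -/
def IsHom (Λ : Set L) {M N : Obj K L} (f : M →ₗ[K] N) : Prop :=
  ∀ l ∈ Λ, ∀ x ∈ M.P l, f x ∈ N.P l

end basic

/-- A system of nodes and types. The labels are the nodes and the types. `D τ l` is `D_{l+1}` of
the README. -/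
structure Sys (K : Type u) [Field K] where
  Nd : Type u
  root : Nd
  par : Nd → Nd
  Tp : Type u
  U : Tp → ℕ → Fm K (Nd ⊕ Tp) Unit
  D : Tp → ℕ → Fm K (Nd ⊕ Tp) Unit
  Z : Tp → ℕ → Fm K (Nd ⊕ Tp) Unit

namespace Sys

variable {K : Type u} [Field K] (S : Sys K)

/-- The labels. -/
abbrev L : Type u := S.Nd ⊕ S.Tp

/-- The first formula of a rule. -/
def X (τ : S.Tp) : Rl → Fm K S.L Unit
  | .u 0 => Fm.zero K S.L
  | .u (n + 1) => S.U τ n
  | .d l => S.D τ l

/-- The second formula of a rule. -/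
def Y (τ : S.Tp) : Rl → Fm K S.L Unit
  | .u n => S.U τ n
  | .d l => S.Z τ l

/-- The labels over a set of types: all nodes and the types in `T`. -/
def lab (T : Set S.Tp) : Set S.L := {l | ∀ τ, l = .inr τ → τ ∈ T}

/-- Closed sets of types. -/
def Closed (T : Set S.Tp) : Prop :=
  ∀ τ ∈ T, ∀ r, (∀ q ∈ (S.X τ r).c, q.1 ∈ S.lab T) ∧ ∀ q ∈ (S.Y τ r).c, q.1 ∈ S.lab T

/-- `a ≤ b` in the tree of nodes: `b` is `a` or an ancestor of `a`. -/
def Le (a b : S.Nd) : Prop := ∃ n : ℕ, S.par^[n] a = b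

/-- The conditions on the nodes. -/
structure NodeOK (M : Obj K S.L) : Prop where
  root : M.P (.inl S.root) = ⊤
  par : ∀ a, M.P (.inl a) ≤ M.P (.inl (S.par a))

/-- The class `FF_T`: density of the types in `T`. -/
structure FF (T : Set S.Tp) (M : Obj K S.L) : Prop extends S.NodeOK M where
  dens : ∀ τ ∈ T, ∀ r x, (S.X τ r).S1 M x →
    ∃ v ∈ M.P (.inr τ), ∃ y, (S.Y τ r).S1 M y ∧ x = v + y

/-- Trivial fibrations. -/
structure TFib (T : Set S.Tp) {M N : Obj K S.L} (p : M →ₗ[K] N) : Prop where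
  hom : IsHom (S.lab T) p
  node : ∀ a, ∀ y ∈ N.P (.inl a), ∃ x ∈ M.P (.inl a), p x = y
  cell : ∀ τ ∈ T, ∀ r x, (S.X τ r).S1 M x → ∀ y' : Fin (S.Y τ r).n → N,
    (S.Y τ r).toPre.Hom N y' → p x + lin ((S.Y τ r).out ()) y' ∈ N.P (.inr τ) →
    ∃ y : Fin (S.Y τ r).n → M, (S.Y τ r).toPre.Hom M y ∧ (∀ i, p (y i) = y' i) ∧
      x + lin ((S.Y τ r).out ()) y ∈ M.P (.inr τ)

/-- Cofibrant structures. -/
def Cof (T : Set S.Tp) (M : Obj K S.L) : Prop :=
  ∀ (A B : Obj K S.L) (p : A →ₗ[K] B), S.FF T A → S.FF T B → S.TFib T p →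
    ∀ f : M →ₗ[K] B, IsHom (S.lab T) f → ∃ g : M →ₗ[K] A, IsHom (S.lab T) g ∧ ∀ x, p (g x) = f x

/-- Cofibrant presentations. -/
def CofP (T : Set S.Tp) (G : Pre K S.L) : Prop :=
  ∀ (A B : Obj K S.L) (p : A →ₗ[K] B), S.FF T A → S.FF T B → S.TFib T p →
    ∀ y : Fin G.n → B, G.Hom B y → ∃ x : Fin G.n → A, G.Hom A x ∧ ∀ i, p (x i) = y i

/-- The class `CC_T`. -/
structure CC (T : Set S.Tp) (M : Obj K S.L) : Prop where
  ff : S.FF T M
  cof : S.Cof T M

/-- `F ≤ G` is valid in `CC_T`. -/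
def Val (T : Set S.Tp) {κ : Type} (F G : SF K S.L κ) : Prop :=
  ∀ M : Obj K S.L, S.CC T M → ∀ y : κ → M, F M y → G M y

open Classical in
/-- The trivial expansion of a structure outside `T`. -/
noncomputable abbrev triv (T : Set S.Tp) (M : Obj K S.L) : Obj K S.L where
  carrier := M
  P := fun l => if l ∈ S.lab T then M.P l else ⊤

end Sys

end Pool.Agent.Helper13.SDW
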