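import Pool.Agent.Helper13.SDW.LD2

/-!
# BLOCK SDW-DESC: descent from `T'` to `T ⊆ T'` (about 100 lines)

`T ⊆ T'` downward closed, everything over `lab T`. Given a trivial fibration `p : A → D` over `T`, the
trivial expansions `S.triv T A → S.triv T D` are in `FF_T'` and `p` is a trivial fibration over `T'` between them
(`triv_ff`, `triv_tfib`); homs from presentations over `lab T` are the same (`triv_hom`), definable formulas over
`lab T` have the same values (`triv_def`).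
-/

namespace Pool.Agent.Helper13.SDW

universe u

variable {K : Type u} [Field K] {S : Sys K} {G : Set S.Tp} {B : S.Tp → Set S.Tp}

theorem triv_inl67 (T : Set S.Tp) (M : Obj K S.L) (a : S.Nd) :
    (S.triv T M).P (.inl a) = M.P (.inl a) :=
  if_pos (fun τ hτ => absurd hτ (by simp))

theorem cofP_descend (h : S.OK G B) {T T' : Set S.Tp} (hT : S.Down G B T)
    (hT' : S.Down G B T') {P : Pre K S.L} (hl : ∀ q ∈ P.c, q.1 ∈ S.lab T)
    (hP : S.CofP T' P) : S.CofP T P := by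
  intro A D p hA hD hp y hy
  obtain ⟨x, hx, hxy⟩ := hP (S.triv T A) (S.triv T D) p (h.triv_ff hT hT' hA)
    (h.triv_ff hT hT' hD) (h.triv_tfib hT hT' hA hD hp) y ((Sys.triv_hom P hl D y).2 hy)
  exact ⟨x, (Sys.triv_hom P hl A x).1 hx, hxy⟩

theorem relP_descend (h : S.OK G B) {T T' : Set S.Tp} (hT : S.Down G B T)
    (hT' : S.Down G B T') {a : S.Nd} {P : Pre K S.L} {c : Fin P.n}
    (hl : ∀ q ∈ P.c, q.1 ∈ S.lab T) (hP : RelP S T' a P c) : RelP S T a P c := by
  refine ⟨fun D hD z hz => ?_, fun D hD x hx => ?_, fun A D p hA hD hp x hx y hy hxy => ?_⟩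
  · have h1 := hP.mem (S.triv T D) (h.triv_ff hT hT' hD) z ((Sys.triv_hom P hl D z).2 hz)
    rw [triv_inl67] at h1
    exact h1
  · obtain ⟨z, hz, hzx⟩ := hP.ext (S.triv T D) (h.triv_ff hT hT' hD) x
      (by rw [triv_inl67]; exact hx)
    exact ⟨z, (Sys.triv_hom P hl D z).1 hz, hzx⟩
  · obtain ⟨z, hz, hzx, hzy⟩ := hP.lift (S.triv T A) (S.triv T D) p (h.triv_ff hT hT' hA)
      (h.triv_ff hT hT' hD) (h.triv_tfib hT hT' hA hD hp) x (by rw [triv_inl67]; exact hx) y
      ((Sys.triv_hom P hl D y).2 hy) hxy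
    exact ⟨z, (Sys.triv_hom P hl A z).1 hz, hzx, hzy⟩

theorem leF_descend (h : S.OK G B) {T T' : Set S.Tp} (hT : S.Down G B T)
    (hT' : S.Down G B T') {F H : SF1 K S.L} (hF : Def1 (S.lab T) F)
    (hH : Def1 (S.lab T) H) (hFH : S.LeF T' F H) : S.LeF T F H := by
  intro M hM x hx
  exact (Sys.triv_def hH M (fun _ => x)).1 (hFH (S.triv T M) (h.triv_ff hT hT' hM) x
    ((Sys.triv_def hF M (fun _ => x)).2 hx))

/-- Membership of linear forms on homs. -/
theorem hom_descend (h : S.OK G B) {T T' : Set S.Tp} (hT : S.Down G B T)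
    (hT' : S.Down G B T') {P : Pre K S.L} (hl : ∀ q ∈ P.c, q.1 ∈ S.lab T) {a : S.Nd}
    {v : Fin P.n → K}
    (hP : ∀ D : Obj K S.L, S.FF T' D → ∀ z : Fin P.n → D, P.Hom D z →
      lin v z ∈ D.P (.inl a)) :
    ∀ D : Obj K S.L, S.FF T D → ∀ z : Fin P.n → D, P.Hom D z → lin v z ∈ D.P (.inl a) := by
  intro D hD z hz
  have h1 := hP (S.triv T D) (h.triv_ff hT hT' hD) z ((Sys.triv_hom P hl D z).2 hz)
  rw [triv_inl67] at h1
  exact h1

end Pool.Agent.Helper13.SDW
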