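import Pool.Agent.Helper13.SDW.DualDefs

/-!
# BLOCK SDW-DUAL: the calculus of killed formulas (about 200 lines, linear algebra)

* `kills_iff_DSat`: `→` (contrapositive): the set `R = {(∑_j v_j i • w_j)_i : w_j ∈ P_{l_j}}` is a subspace of
  `Fin n → B`; if `(∑_k out k i • b_k)_i ∉ R` there is a functional `x` of `Fin n → B` which vanishes on `R` and
  not on this vector; `x = (x_i)`, `x_i ∈ Dual B`, `x ∈ Hom(B.dual)`, `f_k = lin (out k) x`. `←`: compute.
* `sat_iff_kills` (the subspaces `F(B.dual)` are closed): for a formula with conditions `c`, equations `e` and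
  `out`, consider the linear map `T` from `(κ → B) × ∏_j P_{l_j} × ∏_e B` to `Fin n → B`,
  `(b, w, w') ↦ (∑_k out k i • b_k - ∑_j v_j i • w_j - ∑ e i • w'_e)_i`. If `f` kills all `b` killed by `F`, the functional
  `(f, 0, 0)` vanishes on `ker T`, so it is `x ∘ T` for a functional `x` of `Fin n → B`
  (`LinearMap.range_dualMap_eq_dualAnnihilator_ker`), and `x` is a witness of `F B.dual f`.
* `kills_and`: `F(B*) = A^⊥`, `H(B*) = C^⊥` with `A, C` the subspaces of killed tuples; `A^⊥ ∩ C^⊥ = (A + C)^⊥`, and a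
  subspace of `κ → B` is its double annihilator.
* `kills_zero`: similar (or `kills_and` for `{(x, y) : y = 0}`, which is killed exactly by the `(0, b')`).
-/

namespace Pool.Agent.Helper13.SDW

universe u

variable {K : Type u} [Field K] {L : Type u} {B : Obj K L} {κ κ' : Type} [Fintype κ]
  [Fintype κ']

/-- The functional of a tuple of functionals. -/
def h60T {ι : Type} [Fintype ι] (x : ι → Module.Dual K B) : Module.Dual K (ι → B) :=
  ∑ i, (x i).comp (LinearMap.proj i)

theorem h60T_apply {ι : Type} [Fintype ι] (x : ι → Module.Dual K B) (b : ι → B) :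
    h60T x b = ∑ i, x i (b i) := by
  simp [h60T]

open Classical in
/-- The components of a functional. -/
noncomputable def h60U {ι : Type} [Fintype ι] (X : Module.Dual K (ι → B)) (i : ι) :
    Module.Dual K B :=
  X.comp (LinearMap.single K (fun _ => (B : Type u)) i)

theorem h60T_U {ι : Type} [Fintype ι] (X : Module.Dual K (ι → B)) : h60T (h60U X) = X := by
  classical
  refine LinearMap.ext fun b => ?_
  rw [h60T_apply]
  have h1 : ∀ i, h60U X i (b i) = X (Pi.single i (b i)) := by
    intro i
    simp only [h60U, LinearMap.comp_apply, LinearMap.single_apply]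
  rw [Finset.sum_congr rfl fun i _ => h1 i, ← map_sum, Finset.univ_sum_single]

/-- The subspace of a general formula. -/
def h60R {n : ℕ} (B : Obj K L) (c : List (L × (Fin n → K))) (e : List (Fin n → K)) :
    Submodule K (Fin n → B) :=
  Submodule.span K {z | ∃ q ∈ c, ∃ w ∈ B.P q.1, z = fun i => q.2 i • w} ⊔
    Submodule.span K {z | ∃ v ∈ e, ∃ w : B, z = fun i => v i • w}

/-- The map of a general formula. -/
def h60O {n : ℕ} (B : Obj K L) (out : κ → Fin n → K) : (κ → B) →ₗ[K] (Fin n → B) where
  toFun b i := ∑ k, out k i • b k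
  map_add' b b' := by
    funext i
    simp [smul_add, Finset.sum_add_distrib]
  map_smul' a b := by
    funext i
    simp only [Pi.smul_apply, RingHom.id_apply, Finset.smul_sum]
    exact Finset.sum_congr rfl fun k _ => smul_comm _ _ _

theorem h60_lin_eval {n : ℕ} (x : Fin n → Module.Dual K B) (v : Fin n → K) (w : B) :
    (lin v x : Module.Dual K B) w = h60T x (fun i => v i • w) := by
  rw [h60T_apply]
  simp [lin]

theorem h60_mem_R {n : ℕ} (c : List (L × (Fin n → K))) (e : List (Fin n → K))
    (x : Fin n → Module.Dual K B) :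
    h60T x ∈ (h60R B c e).dualAnnihilator ↔
      (∀ q ∈ c, lin q.2 x ∈ (B.P q.1).dualAnnihilator) ∧ ∀ v ∈ e, lin v x = 0 := by
  rw [h60R, Submodule.dualAnnihilator_sup_eq, Submodule.mem_inf]
  have h1 : ∀ (s : Set (Fin n → B)), h60T x ∈ (Submodule.span K s).dualAnnihilator ↔
      ∀ z ∈ s, h60T x z = 0 := by
    intro s
    rw [Submodule.mem_dualAnnihilator]
    constructor
    · exact fun h z hz => h z (Submodule.subset_span hz)
    · intro h z hz
      induction hz using Submodule.span_induction with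
      | mem z hz => exact h z hz
      | zero => exact map_zero _
      | add a b _ _ ha hb => rw [map_add, ha, hb, add_zero]
      | smul a b _ hb => rw [map_smul, hb, smul_zero]
  rw [h1, h1]
  refine and_congr ?_ ?_
  · constructor
    · intro h q hq
      rw [Submodule.mem_dualAnnihilator]
      intro w hw
      rw [h60_lin_eval]
      exact h _ ⟨q, hq, w, hw, rfl⟩
    · rintro h z ⟨q, hq, w, hw, rfl⟩
      rw [← h60_lin_eval]
      exact (Submodule.mem_dualAnnihilator _).mp (h q hq) w hw
  · constructor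
    · intro h v hv
      refine LinearMap.ext fun w => ?_
      rw [h60_lin_eval]
      exact h _ ⟨v, hv, w, rfl⟩
    · rintro h z ⟨v, hv, w, rfl⟩
      rw [← h60_lin_eval, h v hv]
      rfl

theorem h60_out {n : ℕ} (out : κ → Fin n → K) (x : Fin n → Module.Dual K B)
    (f : κ → Module.Dual K B) :
    (∀ k, f k = lin (out k) x) ↔ h60T f = (h60T x).comp (h60O B out) := by
  classical
  constructor
  · intro h
    refine LinearMap.ext fun b => ?_
    rw [LinearMap.comp_apply, h60T_apply, h60T_apply]
    change _ = ∑ i, x i (∑ k, out k i • b k)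
    simp only [map_sum, map_smul]
    rw [Finset.sum_comm]
    refine Finset.sum_congr rfl fun k _ => ?_
    rw [h k]
    simp [lin]
  · intro h k
    refine LinearMap.ext fun w => ?_
    have h1 := congrArg (fun φ : Module.Dual K (κ → B) => φ (Pi.single k w)) h
    simp only [LinearMap.comp_apply] at h1
    have h2 : h60T f (Pi.single k w) = f k w := by
      rw [h60T_apply, Finset.sum_eq_single k]
      · rw [Pi.single_eq_same]
      · intro j _ hj
        rw [Pi.single_eq_of_ne hj, map_zero]
      · intro h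
        exact absurd (Finset.mem_univ k) h
    have h3 : h60O B out (Pi.single k w) = fun i => out k i • w := by
      funext i
      change ∑ j, out j i • (Pi.single k w : κ → B) j = _
      rw [Finset.sum_eq_single k]
      · rw [Pi.single_eq_same]
      · intro j _ hj
        rw [Pi.single_eq_of_ne hj, smul_zero]
      · intro h
        exact absurd (Finset.mem_univ k) h
    rw [h2, h3, ← h60_lin_eval] at h1
    exact h1

/-- Satisfaction in the dual structure. -/
theorem h60_sat (φ : Gf K L κ) (f : κ → B.dual) :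
    φ.Sat B.dual f ↔ ∃ X : Module.Dual K (Fin φ.n → B),
      X ∈ (h60R B φ.c φ.e).dualAnnihilator ∧ h60T f = X.comp (h60O B φ.out) := by
  constructor
  · rintro ⟨x, h1, h2, h3⟩
    exact ⟨h60T x, (h60_mem_R φ.c φ.e x).mpr ⟨h1, h2⟩, (h60_out φ.out x f).mp h3⟩
  · rintro ⟨X, h1, h2⟩
    rw [← h60T_U X] at h1 h2
    obtain ⟨h3, h4⟩ := (h60_mem_R φ.c φ.e _).mp h1
    exact ⟨h60U X, h3, h4, (h60_out φ.out _ f).mpr h2⟩

theorem h60_kills_eq {F : SF K L κ} {b : κ → B} :
    Kills B F b ↔ ∀ f : κ → B.dual, F B.dual f → h60T f b = 0 := by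
  unfold Kills
  refine forall_congr' fun f => imp_congr_right fun _ => ?_
  rw [h60T_apply]

/-- Killed tuples. -/
theorem h60_kills (φ : Gf K L κ) (b : κ → B) :
    Kills B (fun M y => φ.Sat M y) b ↔ h60O B φ.out b ∈ h60R B φ.c φ.e := by
  rw [h60_kills_eq, ← Subspace.forall_mem_dualAnnihilator_apply_eq_zero_iff]
  constructor
  · intro h X hX
    have h1 := h (h60U (X.comp (h60O B φ.out))) ((h60_sat φ _).mpr ⟨X, hX, h60T_U _⟩)
    rw [h60T_U] at h1
    exact h1
  · intro h f hf
    obtain ⟨X, hX, h2⟩ := (h60_sat φ f).mp hf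
    rw [h2]
    exact h X hX

theorem kills_iff_DSat (φ : Fm K L κ) (b : κ → B) :
    φ.DSat B b ↔ Kills B (fun M y => φ.Sat M y) b := by
  classical
  have h0 : ∀ (M : Obj K L) (y : κ → M), φ.Sat M y ↔
      (⟨φ.n, φ.c, [], φ.out⟩ : Gf K L κ).Sat M y := by
    intro M y
    constructor
    · rintro ⟨x, k1, k3⟩
      exact ⟨x, k1, fun v hv => by simp at hv, k3⟩
    · rintro ⟨x, k1, -, k3⟩
      exact ⟨x, k1, k3⟩
  have h1 : Kills B (fun M y => φ.Sat M y) b ↔
      Kills B (fun M y => (⟨φ.n, φ.c, [], φ.out⟩ : Gf K L κ).Sat M y) b := by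
    unfold Kills
    refine forall_congr' fun f => imp_congr_left (h0 _ _)
  rw [h1, h60_kills]
  change _ ↔ h60O B φ.out b ∈ h60R B φ.c []
  -- the sums form a subspace
  let N : Submodule K (Fin φ.n → B) :=
    { carrier := {z | ∃ w : Fin φ.c.length → B, (∀ j, w j ∈ B.P (φ.c.get j).1) ∧
        ∀ i : Fin φ.n, z i = ∑ j, (φ.c.get j).2 i • w j}
      add_mem' := by
        rintro z z' ⟨w, h2, h3⟩ ⟨w', h2', h3'⟩
        refine ⟨fun j => w j + w' j, fun j => Submodule.add_mem _ (h2 j) (h2' j), fun i => ?_⟩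
        simp only [smul_add, Finset.sum_add_distrib, Pi.add_apply]
        rw [h3, h3']
      zero_mem' := ⟨fun _ => 0, fun j => Submodule.zero_mem _, fun i => by simp⟩
      smul_mem' := by
        rintro a z ⟨w, h2, h3⟩
        refine ⟨fun j => a • w j, fun j => Submodule.smul_mem _ a (h2 j), fun i => ?_⟩
        rw [Pi.smul_apply, h3, Finset.smul_sum]
        exact Finset.sum_congr rfl fun j _ => smul_comm _ _ _ }
  have h2 : h60R B φ.c [] = N := by
    refine le_antisymm ?_ ?_
    · refine sup_le (Submodule.span_le.mpr ?_) (Submodule.span_le.mpr ?_)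
      · rintro z ⟨q, hq, w, hw, rfl⟩
        obtain ⟨j, hj, rfl⟩ := List.mem_iff_getElem.mp hq
        refine ⟨Pi.single ⟨j, hj⟩ w, fun j' => ?_, fun i => ?_⟩
        · by_cases h : j' = ⟨j, hj⟩
          · subst h
            rw [Pi.single_eq_same]
            exact hw
          · rw [Pi.single_eq_of_ne h]
            exact Submodule.zero_mem _
        · rw [Finset.sum_eq_single (⟨j, hj⟩ : Fin φ.c.length)]
          · rw [Pi.single_eq_same]
            rfl
          · intro j' _ h
            rw [Pi.single_eq_of_ne h, smul_zero]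
          · intro h
            exact absurd (Finset.mem_univ _) h
      · rintro z ⟨v, hv, -⟩
        simp at hv
    · rintro z ⟨w, h3, h4⟩
      have h5 : z = ∑ j, fun i => (φ.c.get j).2 i • w j := by
        funext i
        rw [h4, Finset.sum_apply]
      rw [h5]
      refine Submodule.sum_mem _ fun j _ => Submodule.mem_sup_left (Submodule.subset_span ?_)
      exact ⟨φ.c.get j, List.get_mem _ _, w j, h3 j, rfl⟩
  rw [h2]
  rfl

theorem kills1_iff (F : SF1 K L) (b : B) :
    Kills1 B F b ↔ Kills B (fun M (y : Unit → M) => F M (y ())) (fun _ => b) := by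
  unfold Kills1 Kills
  constructor
  · intro h f hf
    simpa using h (f ()) hf
  · intro h f hf
    simpa using h (fun _ => f) hf

/-- `F(B.dual)` is the annihilator of the tuples which kill `F`. -/
theorem sat_iff_kills {Λ : Set L} {F : SF K L κ} (hF : IsDef Λ F) (f : κ → B.dual) :
    F B.dual f ↔ ∀ b : κ → B, Kills B F b → ∑ k, (f k : Module.Dual K B) (b k) = 0 := by
  constructor
  · exact fun h b hb => hb f h
  · intro h
    obtain ⟨φ, -, hφ⟩ := hF
    have hk : ∀ b : κ → B, Kills B F b ↔ h60O B φ.out b ∈ h60R B φ.c φ.e := by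
      intro b
      rw [← h60_kills]
      unfold Kills
      exact forall_congr' fun f => imp_congr_left (hφ _ _)
    rw [hφ, h60_sat]
    have h1 : h60T f ∈ LinearMap.range
        ((h60R B φ.c φ.e).mkQ.comp (h60O B φ.out)).dualMap := by
      rw [LinearMap.range_dualMap_eq_dualAnnihilator_ker, Submodule.mem_dualAnnihilator]
      intro b hb
      rw [LinearMap.mem_ker, LinearMap.comp_apply, Submodule.mkQ_apply,
        Submodule.Quotient.mk_eq_zero] at hb
      rw [h60T_apply]
      exact h b ((hk b).mpr hb)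
    obtain ⟨y, hy⟩ := h1
    refine ⟨y.comp (h60R B φ.c φ.e).mkQ, ?_, ?_⟩
    · rw [Submodule.mem_dualAnnihilator]
      intro z hz
      rw [LinearMap.comp_apply, Submodule.mkQ_apply,
        (Submodule.Quotient.mk_eq_zero _).mpr hz, map_zero]
    · rw [← hy]
      rfl

theorem Kills.mono {F H : SF K L κ} (hFH : ∀ y : κ → B.dual, F B.dual y → H B.dual y)
    {b : κ → B} (hb : Kills B H b) : Kills B F b :=
  fun f hf => hb f (hFH f hf)

theorem Kills.add {F : SF K L κ} {b b' : κ → B} (hb : Kills B F b) (hb' : Kills B F b') :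
    Kills B F (fun k => b k + b' k) := by
  intro f hf
  have h1 := hb f hf
  have h2 := hb' f hf
  simp only [map_add, Finset.sum_add_distrib]
  rw [h1, h2, add_zero]

theorem Kills.sub {F : SF K L κ} {b b' : κ → B} (hb : Kills B F b) (hb' : Kills B F b') :
    Kills B F (fun k => b k - b' k) := by
  intro f hf
  have h1 := hb f hf
  have h2 := hb' f hf
  simp only [map_sub, Finset.sum_sub_distrib]
  rw [h1, h2, sub_zero]

/-- The killed tuples. -/
def h60K (B : Obj K L) (F : SF K L κ) : Submodule K (κ → B) where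
  carrier := {b | Kills B F b}
  add_mem' := fun ha hb => Kills.add ha hb
  zero_mem' := by
    intro f _
    simp
  smul_mem' := by
    intro a b hb f hf
    have h1 := hb f hf
    simp only [Pi.smul_apply, map_smul]
    rw [← Finset.smul_sum, h1, smul_zero]

theorem h60_satK {Λ : Set L} {F : SF K L κ} (hF : IsDef Λ F) (f : κ → B.dual) :
    F B.dual f ↔ h60T f ∈ (h60K B F).dualAnnihilator := by
  rw [sat_iff_kills hF, Submodule.mem_dualAnnihilator]
  refine forall_congr' fun b => ?_
  rw [h60T_apply]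
  rfl

/-- `D(F ∩ H) = DF + DH`. -/
theorem kills_and {Λ : Set L} {F H : SF K L κ} (hF : IsDef Λ F) (hH : IsDef Λ H)
    {b : κ → B} (hb : Kills B (fun M y => F M y ∧ H M y) b) :
    ∃ b₁ b₂ : κ → B, Kills B F b₁ ∧ Kills B H b₂ ∧ ∀ k, b k = b₁ k + b₂ k := by
  rw [h60_kills_eq] at hb
  have h1 : b ∈ h60K B F ⊔ h60K B H := by
    rw [← Subspace.forall_mem_dualAnnihilator_apply_eq_zero_iff]
    intro X hX
    rw [Submodule.dualAnnihilator_sup_eq, Submodule.mem_inf] at hX
    have h2 := hb (h60U X) ⟨(h60_satK hF _).mpr (by rw [h60T_U]; exact hX.1),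
      (h60_satK hH _).mpr (by rw [h60T_U]; exact hX.2)⟩
    rw [h60T_U] at h2
    exact h2
  obtain ⟨b₁, h2, b₂, h3, h4⟩ := Submodule.mem_sup.mp h1
  exact ⟨b₁, b₂, h2, h3, fun k => by rw [← h4]; rfl⟩

/-- `D(F(·, 0))` is the projection of `DF`. -/
theorem kills_zero {Λ : Set L} {F : SF K L (κ ⊕ κ')} (hF : IsDef Λ F) {b : κ → B}
    (hb : Kills B (fun M y => F M (Sum.elim y (fun _ => 0))) b) :
    ∃ b' : κ' → B, Kills B F (Sum.elim b b') := by
  rw [h60_kills_eq] at hb
  let π : (κ ⊕ κ' → B) →ₗ[K] (κ → B) := LinearMap.funLeft K B Sum.inl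
  have h1 : b ∈ (h60K B F).map π := by
    rw [← Subspace.forall_mem_dualAnnihilator_apply_eq_zero_iff]
    intro X hX
    have h2 : h60T (B := B) (Sum.elim (h60U X) (fun _ => (0 : Module.Dual K B)) : κ ⊕ κ' → _) =
        X.comp π := by
      refine LinearMap.ext fun z => ?_
      rw [h60T_apply, Fintype.sum_sum_type]
      simp only [Sum.elim_inl, Sum.elim_inr, LinearMap.zero_apply, Finset.sum_const_zero,
        add_zero]
      rw [← h60T_apply (h60U X) (fun i => z (.inl i)), h60T_U]
      rfl
    have h3 := hb (h60U X) ((h60_satK hF _).mpr (by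
      rw [h2, Submodule.mem_dualAnnihilator]
      intro z hz
      rw [Submodule.mem_dualAnnihilator] at hX
      exact hX _ (Submodule.mem_map_of_mem hz)))
    rw [h60T_U] at h3
    exact h3
  obtain ⟨a, ha, rfl⟩ := h1
  refine ⟨fun j => a (.inr j), ?_⟩
  have h2 : (Sum.elim (π a) fun j => a (.inr j)) = a := by
    funext j
    rcases j with j | j <;> rfl
  rw [h2]
  exact ha

/-- Unary version of `kills_and`. -/
theorem kills1_and {Λ : Set L} {F H : SF1 K L} (hF : Def1 Λ F) (hH : Def1 Λ H)
    {b : B} (hb : Kills1 B (fun M y => F M y ∧ H M y) b) :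
    ∃ b₁ b₂ : B, Kills1 B F b₁ ∧ Kills1 B H b₂ ∧ b = b₁ + b₂ := by
  rw [kills1_iff] at hb
  obtain ⟨b₁, b₂, h1, h2, h3⟩ := kills_and hF hH hb
  exact ⟨b₁ (), b₂ (), (kills1_iff F _).mpr h1, (kills1_iff H _).mpr h2, h3 ()⟩

end Pool.Agent.Helper13.SDW
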