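import Pool.Agent.Helper13.SDW.GDefs

/-!
# The dual side (definitions)

`B : Obj K S.L` is a space with subspaces; `B.dual` is the dual space with the annihilators.
A tuple `b` of elements of `B` kills a formula `F` if `∑ f_k (b_k) = 0` for all `f ∈ F(B.dual)`.
-/

namespace Pool.Agent.Helper13.SDW

universe u

variable {K : Type u} [Field K] {L : Type u}

/-- The dual structure. -/
abbrev Obj.dual (B : Obj K L) : Obj K L where
  carrier := Module.Dual K B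
  P := fun l => (B.P l).dualAnnihilator

/-- `b` kills `F`. -/
def Kills (B : Obj K L) {κ : Type} [Fintype κ] (F : SF K L κ) (b : κ → B) : Prop :=
  ∀ f : κ → B.dual, F B.dual f → ∑ k, (f k : Module.Dual K B) (b k) = 0

/-- The unary version. -/
def Kills1 (B : Obj K L) (F : SF1 K L) (b : B) : Prop :=
  ∀ f : B.dual, F B.dual f → (f : Module.Dual K B) b = 0

/-- The dual condition of a formula. -/
def Fm.DSat {κ : Type} [Fintype κ] (φ : Fm K L κ) (B : Obj K L) (b : κ → B) : Prop :=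
  ∃ w : Fin φ.c.length → B, (∀ j, w j ∈ B.P (φ.c.get j).1) ∧
    ∀ i : Fin φ.n, ∑ k, φ.out k i • b k = ∑ j, (φ.c.get j).2 i • w j

variable (S : Sys K)

/-- `B.dual` satisfies all sequents over `T` which are valid in `CC_T`. -/
def Sys.Mod (T : Set S.Tp) (B : Obj K S.L) : Prop :=
  ∀ (κ : Type) [Fintype κ] (F H : SF K S.L κ), IsDef (S.lab T) F → IsDef (S.lab T) H →
    (∀ M : Obj K S.L, S.CC T M → ∀ y : κ → M, F M y → H M y) →
    ∀ y : κ → B.dual, F B.dual y → H B.dual y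

/-- No uniform submodules, in the language of formulas: for every `g` and every unary `φ` which is
not killed by `g` there are `ψ₁, ψ₂ ≤ φ`, not killed by `g`, such that `g` kills
`ψ₁ ∩ (ψ₂ + χ)` for all `χ` killed by `g`. -/
def Sys.NU (T : Set S.Tp) (B : Obj K S.L) : Prop :=
  ∀ (g : B) (φ : SF1 K S.L), Def1 (S.lab T) φ → ¬ Kills1 B φ g →
    ∃ ψ₁ ψ₂ : SF1 K S.L, Def1 (S.lab T) ψ₁ ∧ Def1 (S.lab T) ψ₂ ∧
      S.LeF T ψ₁ φ ∧ S.LeF T ψ₂ φ ∧ ¬ Kills1 B ψ₁ g ∧ ¬ Kills1 B ψ₂ g ∧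
      ∀ χ : SF1 K S.L, Def1 (S.lab T) χ → Kills1 B χ g →
        Kills1 B (fun M x => ψ₁ M x ∧ ∃ y z, ψ₂ M y ∧ χ M z ∧ x = y + z) g

/-- The conclusion of Lemma 7.1 for `b` and `φ`: a node `a`, an element `g` which does not kill `P_a`, a
relation `Γ ⊆ P_a × φ`, total on `P_a`, with `f(g) = ∑ f'_k(b_k)` for `(f, f') ∈ Γ(B.dual)`. -/
def Sys.Red (T : Set S.Tp) (B : Obj K S.L) {κ : Type} [Fintype κ] (φ : SF K S.L κ)
    (b : κ → B) : Prop :=
  ∃ (a : S.Nd) (g : B) (Γ : SF K S.L (Unit ⊕ κ)), IsDef (S.lab T) Γ ∧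
    (∀ M : Obj K S.L, S.CC T M → ∀ y : Unit ⊕ κ → M, Γ M y →
      y (.inl ()) ∈ M.P (.inl a) ∧ φ M (fun k => y (.inr k))) ∧
    (∀ M : Obj K S.L, S.CC T M → ∀ x ∈ M.P (.inl a), ∃ y : Unit ⊕ κ → M, Γ M y ∧
      y (.inl ()) = x) ∧
    (∀ f : Unit ⊕ κ → B.dual, Γ B.dual f →
      (f (.inl ()) : Module.Dual K B) g = ∑ k, (f (.inr k) : Module.Dual K B) (b k)) ∧
    ¬ Kills1 B (fun M x => x ∈ M.P (.inl a)) g

end Pool.Agent.Helper13.SDW
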