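import Pool.Agent.Helper13.SDW.ConcDefs

/-!
# BLOCK SDW-ENC: encoding of sequences of positions (about 120 lines)

* `exists_enc`: each position mentions only finitely many terms (in nodes, in labels), so all `p i` together mention countably
  many; let `f : ℕ → Ty K` have a range which contains them (`Ty.base` if there are none), `n : Ty K → ℕ` with `f (n x) = x` for these `x`;
  `sk i = (p i).map (fun x => ULift.up (n x))`. `Pos.map` is functorial, and two maps which agree on the mentioned
  terms give the same result.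
* `exists_rec`: the function `h` with `h i = φ (h|i) i`: strong recursion (`Nat.strongRec`), or iterate: `F : (ℕ → ℕ) → (ℕ → ℕ)`,
  `F h i = φ (h|i) i`, `h i = F^[i + 1] 0 i`.
-/

namespace Pool.Agent.Helper13.SDW

universe u

namespace Enc

variable {X Y : Type u}

/-- The terms mentioned in a node. -/
def ndL (a : NodeF X) : List X := List.map (fun p : (X × ℕ) × ℕ => p.1.1) a

/-- The terms mentioned in a label. -/
def lbL : LabF X → List X
  | .inl a => ndL a
  | .inr (.inl (a, w)) => w.1 :: ndL a
  | .inr (.inr t) => [t]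

/-- The terms mentioned in a list of conditions. -/
def cL {V : Type u} (c : List (LabF X × V)) : List X := c.flatMap fun q => lbL q.1

theorem nd_map (f : Y → X) (g : X → Y) (a : NodeF X) (h : ∀ x ∈ ndL a, f (g x) = x) :
    NodeF.map f (NodeF.map g a) = a := by
  unfold NodeF.map
  rw [List.map_map]
  conv_rhs => rw [← List.map_id a]
  apply List.map_congr_left
  intro p hp
  have := h p.1.1 (List.mem_map.2 ⟨p, hp, rfl⟩)
  obtain ⟨⟨x, j⟩, m⟩ := p
  simp only at this
  simp [this]

theorem lb_map (f : Y → X) (g : X → Y) (l : LabF X) (h : ∀ x ∈ lbL l, f (g x) = x) :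
    LabF.map f (LabF.map g l) = l := by
  rcases l with a | ⟨a, w⟩ | t
  · change (Sum.inl (NodeF.map f (NodeF.map g a)) : LabF X) = _
    rw [nd_map f g a h]
  · change (Sum.inr (Sum.inl (NodeF.map f (NodeF.map g a), (f (g w.1), w.2))) : LabF X) = _
    rw [nd_map f g a fun x hx => h x (List.mem_cons_of_mem _ hx), h w.1 List.mem_cons_self]
  · change (Sum.inr (Sum.inr (f (g t))) : LabF X) = _
    rw [h t (List.mem_singleton.2 rfl)]

theorem c_map {V : Type u} (f : Y → X) (g : X → Y) (c : List (LabF X × V))
    (h : ∀ x ∈ cL c, f (g x) = x) :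
    (c.map fun q => (LabF.map g q.1, q.2)).map (fun q => (LabF.map f q.1, q.2)) = c := by
  rw [List.map_map]
  conv_rhs => rw [← List.map_id c]
  apply List.map_congr_left
  intro q hq
  have := lb_map f g q.1 fun x hx => h x (List.mem_flatMap.2 ⟨q, hq, hx⟩)
  simp [this]

/-- The terms mentioned in a position. -/
def psL {K : Type u} (p : Pos K X) : List X := ndL p.a ++ (cL p.E.c ++ cL p.Kp.c)

theorem ps_map {K : Type u} (f : Y → X) (g : X → Y) (p : Pos K X)
    (h : ∀ x ∈ psL p, f (g x) = x) : (p.map g).map f = p := by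
  obtain ⟨a, ⟨n, E⟩, c, b, ⟨m, Kp⟩, k⟩ := p
  have h1 := nd_map f g a fun x hx => h x (List.mem_append_left _ hx)
  have h2 := c_map f g E fun x hx => h x (List.mem_append_right _ (List.mem_append_left _ hx))
  have h3 := c_map f g Kp fun x hx => h x (List.mem_append_right _ (List.mem_append_right _ hx))
  simp only [Pos.map, Pre.mapL]
  rw [h1, h2, h3]

end Enc

variable {K : Type u} [Field K]

theorem exists_enc (p : ℕ → Pos K (Ty K)) :
    ∃ (f : ℕ → Ty K) (sk : ℕ → Pos K (ULift.{u} ℕ)), ∀ i,
      (sk i).map (fun n => f n.down) = p i := by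
  classical
  let S : Set (Ty K) := insert Ty.base (⋃ i, {x | x ∈ Enc.psL (p i)})
  have hS : S.Countable :=
    (Set.countable_iUnion fun i => (List.finite_toSet (Enc.psL (p i))).countable).insert _
  obtain ⟨f, hf⟩ := hS.exists_eq_range ⟨_, Set.mem_insert _ _⟩
  have hn : ∀ x : Ty K, ∃ n : ℕ, x ∈ S → f n = x := by
    intro x
    by_cases hx : x ∈ S
    · have hx' := hx
      rw [hf] at hx'
      obtain ⟨n, hn⟩ := hx'
      exact ⟨n, fun _ => hn⟩
    · exact ⟨0, fun h => absurd h hx⟩
  choose n hn using hn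
  refine ⟨f, fun i => (p i).map fun x => ULift.up (n x), fun i => ?_⟩
  refine Enc.ps_map (fun n : ULift.{u} ℕ => f n.down) (fun x => ULift.up (n x)) (p i) ?_
  intro x hx
  exact hn x (Set.mem_insert_of_mem _ (Set.mem_iUnion.2 ⟨i, hx⟩))

theorem exists_rec (φ : (ℕ → ℕ) → ℕ → ℕ) :
    ∃ h : ℕ → ℕ, ∀ i, h i = φ (fun j => if j < i then h j else 0) i := by
  let F : (ℕ → ℕ) → ℕ → ℕ := fun h i => φ (fun j => if j < i then h j else 0) i
  have key : ∀ m i, i < m → ∀ m', i < m' → F^[m] 0 i = F^[m'] 0 i := by
    intro m i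
    induction i using Nat.strong_induction_on generalizing m with
    | _ i ih =>
      intro hm m' hm'
      obtain ⟨a, rfl⟩ : ∃ a, m = a + 1 := ⟨m - 1, by omega⟩
      obtain ⟨b, rfl⟩ : ∃ b, m' = b + 1 := ⟨m' - 1, by omega⟩
      rw [Function.iterate_succ_apply', Function.iterate_succ_apply']
      change φ _ i = φ _ i
      congr 1
      funext j
      by_cases hj : j < i
      · rw [if_pos hj, if_pos hj]
        exact ih j hj a (by omega) b (by omega)
      · rw [if_neg hj, if_neg hj]
  refine ⟨fun i => F^[i + 1] 0 i, fun i => ?_⟩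
  change F^[i + 1] 0 i = _
  rw [Function.iterate_succ_apply']
  change φ _ i = φ _ i
  congr 1
  funext j
  by_cases hj : j < i
  · rw [if_pos hj, if_pos hj]
    exact key i j hj (j + 1) (by omega)
  · rw [if_neg hj, if_neg hj]

end Pool.Agent.Helper13.SDW
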