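import Pool.Agent.Helper13.SDW.QFacts

/-!
# BLOCK SDW-ENDO: endomorphisms of `B` from algebraic compactness (about 250 lines)

Let `E, W ≤ QQ` be submodules, `W ⊓ E = ⊥`. Unknowns `z_b`, `b ∈ B` (`I = B`). For all `k`, `x : Fin k → N`,
`b : Fin k → B` with `pr x b ∈ W` take the condition `(k, idx = b, φ = ψ_x, p = 0)`, i.e. `pr x z_b = 0`, and for
`pr x b ∈ E` the condition `(k, idx = b, φ = ψ_x, p = b)`, i.e. `pr x (z_b) = pr x b`
(`exists_psi`, `pr_eq_zero_iff`, `kills_iff_DSat`).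

Finite solvability: let `C₀` be a finite set of conditions, `F₀` the finite set of the elements `b i` which
occur, `b⁰ : Fin r → B` an enumeration of `F₀`; each condition `c` has a map `σ_c : Fin k → Fin r` with
`b = b⁰ ∘ σ_c`. Let `F_c = {f : Fin r → M | ∃ f' ∈ ψ_x, f m = ∑_{i : σ_c i = m} f' i}`, a formula over `T`; `z : Fin r → B` kills
`F_c` iff `z ∘ σ_c` kills `ψ_x`. Let `Φ_W`, `Φ_E` be the finite sums of the `F_c` of the two kinds. Claim: `b⁰` kills
`Φ_W ∩ Φ_E`. By `kills_iff_pr` let `y ∈ (Φ_W ∩ Φ_E)(N)`; `y` is a finite sum of `y_c ∈ F_c(N)`, `y_c` is the push-forward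
of `y' = f ∘ x`, `f` an endomorphism of `N` (`exists_psi` for `D = N`), so `pr y_c b⁰ = pr y' (b⁰ ∘ σ_c) = f • pr x b ∈ W`
(`pr_push`, `pr_smul`). So `pr y b⁰ ∈ W`, and in the same way `∈ E`: it is `0`. By `kills_and`: `b⁰ = z + b₂`, `z` kills `Φ_W`, `b₂ = b⁰ - z` kills
`Φ_E`, so `z - b⁰` kills `Φ_E`. Take `z_b = z m` for `b = b⁰ m ∈ F₀`, and `0` otherwise.

So by `hAC` there is `e : B → B` (a function) with `pr x b ∈ W → pr x (e ∘ b) = 0` and `pr x b ∈ E → pr x (e ∘ b) = pr x b`.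
Linear: for `b'' = α b + β b'` and all `n ∈ N`: `pr (α n, β n, - n) (b, b', b'') = 0 ∈ W`, so
`pr (α n, β n, - n) (e b, e b', e b'') = 0`, i.e. `pr n (α e b + β e b' - e b'') = 0` for all `n`, and `faithful`.
Hom: `b ∈ P_l(B)`, `l ∈ lab T`: for `n ∈ P_l(N)`: `pr n b = 0 ∈ W`, so `pr n (e b) = 0`; by `kills_iff_pr` `e b` kills `P_l`, i.e.
`f (e b) = 0` for all `f` in the annihilator of `P_l(B)`: `e b ∈ P_l(B)` (double annihilator).
-/

namespace Pool.Agent.Helper13.SDW

universe u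

variable {K : Type u} [Field K] {S : Sys K} {G : Set S.Tp} {Bl : S.Tp → Set S.Tp} {T : Set S.Tp}
  {N B : Obj K S.L}

theorem pr_zero_iff14 {L : Type u} {Λ : Set L} {N B : Obj K L} {κ : Type} [Fintype κ]
    (x : κ → N) (b : κ → B) :
    pr Λ x b = 0 ↔ ∀ F : HomD Λ N B, ∑ k, (F.1 (x k)) (b k) = 0 := by
  constructor
  · intro h F
    exact LinearMap.congr_fun (show (show Module.Dual K (HomD Λ N B) from pr Λ x b) = 0 from h) F
  · intro h
    exact LinearMap.ext fun F => h F

/-- One condition. -/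
theorem one_cond14 (h : S.OK G Bl) (hT : S.Down G Bl T) (hN : Big S T N)
    {r : ℕ} (b0 : Fin r → B) (V : Submodule (EndR (S.lab T) N) (QQ (S.lab T) N B))
    {k : ℕ} (x : Fin k → N) (b : Fin k → B) (hx : pr (S.lab T) x b ∈ V)
    (ψ : Fm K S.L (Fin k)) (hψl : ∀ q ∈ ψ.c, q.1 ∈ S.lab T)
    (hψ : ∀ D : Obj K S.L, S.FF T D → ∀ y : Fin k → D, ψ.Sat D y ↔
      ∃ f : N →ₗ[K] D, IsHom (S.lab T) f ∧ ∀ k, y k = f (x k))
    (hb : ∀ i, ∃ m, b0 m = b i) :
    ∃ F : SF K S.L (Fin r), IsDef (S.lab T) F ∧ (∀ y, F N y → pr (S.lab T) y b0 ∈ V) ∧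
      ∀ z : Fin r → B, Kills B F z → ∀ v : Fin k → B, (∀ i m, b0 m = b i → v i = z m) →
        Kills B (fun M y => ψ.Sat M y) v := by
  classical
  choose σ hσ using hb
  refine ⟨fun M f => ∃ f' : Fin k → M, ψ.Sat M f' ∧ ∀ m, f m = ∑ i, if σ i = m then f' i else 0,
    ?_, ?_, ?_⟩
  · refine ⟨⟨ψ.n, ψ.c, [], fun m => ∑ i, if σ i = m then ψ.out i else 0⟩, hψl, fun M y => ?_⟩
    have hlin : ∀ (m : Fin r) (t : Fin ψ.n → M),
        lin (∑ i, if σ i = m then ψ.out i else 0) t =
          ∑ i, if σ i = m then lin (ψ.out i) t else 0 := by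
      intro m t
      simp only [lin, Finset.sum_apply, Finset.sum_smul]
      rw [Finset.sum_comm]
      refine Finset.sum_congr rfl fun i _ => ?_
      split_ifs
      · rfl
      · simp
    constructor
    · rintro ⟨f', ⟨t, ht1, ht2⟩, hy⟩
      refine ⟨t, ht1, fun v hv => by simp at hv, fun m => ?_⟩
      rw [hy m, hlin]
      refine Finset.sum_congr rfl fun i _ => ?_
      rw [ht2 i]
    · rintro ⟨t, ht1, -, ht2⟩
      refine ⟨fun i => lin (ψ.out i) t, ⟨t, ht1, fun i => rfl⟩, fun m => ?_⟩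
      rw [ht2 m, hlin]
  · rintro y ⟨f', hf', hy⟩
    obtain ⟨f, hf, hff⟩ := (hψ N hN.cc.ff f').1 hf'
    have h1 : y = fun m => ∑ i, if σ i = m then f' i else 0 := funext hy
    rw [h1, pr_push σ f' b0]
    have h2 : (fun i => b0 (σ i)) = b := funext hσ
    have h3 : f' = fun i => f (x i) := funext hff
    rw [h2, h3]
    have h4 := pr_smul (Λ := S.lab T) (⟨f, hf⟩ : EndR (S.lab T) N) x b
    rw [← h4]
    exact V.smul_mem _ hx
  · intro z hz v hv f hf
    have h1 := hz (fun m => ∑ i, if σ i = m then f i else 0) ⟨f, hf, fun m => rfl⟩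
    have h2 : ∀ i, v i = z (σ i) := fun i => hv i (σ i) (hσ i)
    have h3 : ∑ m, ((∑ i, if σ i = m then f i else 0 : B.dual) : Module.Dual K B) (z m) =
        ∑ i, (f i : Module.Dual K B) (v i) := by
      have h4 : ∀ m, ((∑ i, if σ i = m then f i else 0 : B.dual) : Module.Dual K B) (z m) =
          ∑ i, if σ i = m then (f i : Module.Dual K B) (v i) else 0 := by
        intro m
        rw [LinearMap.sum_apply]
        refine Finset.sum_congr rfl fun i _ => ?_
        split_ifs with hi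
        · rw [h2 i, hi]
        · rfl
      rw [Finset.sum_congr rfl fun m _ => h4 m, Finset.sum_comm]
      refine Finset.sum_congr rfl fun i _ => ?_
      rw [Finset.sum_ite_eq]
      simp
    rw [← h3]
    exact h1

/-- Finite sums of formulas. -/
theorem sum_cond14 {r : ℕ} (b0 : Fin r → B)
    (V : Submodule (EndR (S.lab T) N) (QQ (S.lab T) N B))
    {ι : Type*} (A : Finset ι) (F : ι → SF K S.L (Fin r))
    (hF : ∀ i ∈ A, IsDef (S.lab T) (F i))
    (hV : ∀ i ∈ A, ∀ y, F i N y → pr (S.lab T) y b0 ∈ V) :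
    ∃ Φ : SF K S.L (Fin r), IsDef (S.lab T) Φ ∧ (∀ y, Φ N y → pr (S.lab T) y b0 ∈ V) ∧
      ∀ i ∈ A, ∀ (M : Obj K S.L) (y : Fin r → M), F i M y → Φ M y := by
  classical
  induction A using Finset.induction_on with
  | empty =>
    refine ⟨fun M y => ∀ k, y k = 0, ⟨⟨0, [], [], fun _ _ => 0⟩, fun q hq => by simp at hq,
      fun M y => ?_⟩, ?_, fun i hi => by simp at hi⟩
    · constructor
      · intro hy
        refine ⟨fun i => 0, fun q hq => by simp at hq, fun v hv => by simp at hv, fun k => ?_⟩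
        rw [hy k, lin_zero]
      · rintro ⟨x, -, -, hx⟩ k
        rw [hx k]
        exact lin_fzero x
    · intro y hy
      have h1 : y = fun _ => 0 := funext hy
      rw [h1, pr_zero_left]
      exact V.zero_mem
  | insert a s ha ih =>
    obtain ⟨Φ, h1, h2, h3⟩ := ih (fun i hi => hF i (Finset.mem_insert_of_mem hi))
      (fun i hi => hV i (Finset.mem_insert_of_mem hi))
    have hFa := hF a (Finset.mem_insert_self _ _)
    refine ⟨sumF (F a) Φ, isDef_sumF hFa h1, ?_, ?_⟩
    · rintro y ⟨y1, y2, hy1, hy2, hy⟩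
      have h4 : y = fun k => y1 k + y2 k := funext hy
      rw [h4, pr_add_left]
      exact V.add_mem (hV a (Finset.mem_insert_self _ _) y1 hy1) (h2 y2 hy2)
    · intro i hi M y hy
      rcases Finset.mem_insert.1 hi with rfl | hi
      · exact ⟨y, fun _ => 0, hy, h1.zero_mem M, fun k => (add_zero _).symm⟩
      · exact ⟨fun _ => 0, y, hFa.zero_mem M, h3 i hi M y hy, fun k => (zero_add _).symm⟩

theorem exists_fun (h : S.OK G Bl) (hT : S.Down G Bl T) (hNice : S.Nice T)
    (hN : Big S T N) (hB : S.Mod T B) (hAC : AC (S.lab T) B)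
    (W E : Submodule (EndR (S.lab T) N) (QQ (S.lab T) N B)) (hWE : W ⊓ E = ⊥) :
    ∃ e : B → B,
      (∀ (k : ℕ) (x : Fin k → N) (b : Fin k → B), pr (S.lab T) x b ∈ W →
        pr (S.lab T) x (fun i => e (b i)) = 0) ∧
      ∀ (k : ℕ) (x : Fin k → N) (b : Fin k → B), pr (S.lab T) x b ∈ E →
        pr (S.lab T) x (fun i => e (b i)) = pr (S.lab T) x b := by
  classical
  have hpsi := fun (k : ℕ) (x : Fin k → N) => exists_psi h hT hN.cc x
  choose ψ hψl hψ using hpsi
  -- the two kinds of conditions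
  let CW : Set (DC B B) := {c | ∃ (k : ℕ) (x : Fin k → N) (b : Fin k → B),
    pr (S.lab T) x b ∈ W ∧ c = ⟨k, b, ψ k x, fun _ => 0⟩}
  let CE : Set (DC B B) := {c | ∃ (k : ℕ) (x : Fin k → N) (b : Fin k → B),
    pr (S.lab T) x b ∈ E ∧ c = ⟨k, b, ψ k x, b⟩}
  -- translation
  have hhold : ∀ (k : ℕ) (x : Fin k → N) (b p : Fin k → B) (z : B → B),
      (⟨k, b, ψ k x, p⟩ : DC B B).Holds z ↔
        pr (S.lab T) x (fun i => z (b i)) = pr (S.lab T) x p := by
    intro k x b p z
    have h1 : (⟨k, b, ψ k x, p⟩ : DC B B).Holds z ↔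
        Kills B (fun M y => (ψ k x).Sat M y) (fun i => z (b i) - p i) :=
      kills_iff_DSat _ _
    rw [h1, ← pr_eq_zero_iff h hT hB (x := x) (hψ k x), pr_sub_right, sub_eq_zero]
  obtain ⟨e, he⟩ := hAC B (CW ∪ CE) (by
      rintro c (⟨k, x, b, -, rfl⟩ | ⟨k, x, b, -, rfl⟩)
      · exact hψl k x
      · exact hψl k x) (by
    intro C₀ hC₀ hfin
    -- the elements which occur
    let F₀ : Finset B := hfin.toFinset.biUnion fun c => Finset.univ.image c.idx
    let eqv := F₀.equivFin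
    let b0 : Fin F₀.card → B := fun m => (eqv.symm m : B)
    have hb0 : Function.Injective b0 := fun m m' hm => eqv.symm.injective (Subtype.ext hm)
    have hmem : ∀ c ∈ C₀, ∀ i, ∃ m, b0 m = c.idx i := by
      intro c hc i
      have h1 : c.idx i ∈ F₀ := by
        refine Finset.mem_biUnion.2 ⟨c, hfin.mem_toFinset.2 hc, ?_⟩
        exact Finset.mem_image_of_mem _ (Finset.mem_univ i)
      refine ⟨eqv ⟨c.idx i, h1⟩, ?_⟩
      change ((eqv.symm (eqv ⟨c.idx i, h1⟩) : F₀) : B) = c.idx i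
      rw [Equiv.symm_apply_apply]
    -- formulas for the conditions of the first kind
    have hW : ∀ c : DC B B, ∃ F : SF K S.L (Fin F₀.card), (c ∈ C₀ ∧ c ∈ CW) →
        IsDef (S.lab T) F ∧ (∀ y, F N y → pr (S.lab T) y b0 ∈ W) ∧
        ∀ z : Fin F₀.card → B, Kills B F z → ∀ ζ : B → B, (∀ m, ζ (b0 m) = z m) →
          c.Holds ζ := by
      intro c
      by_cases hc : c ∈ C₀ ∧ c ∈ CW
      · obtain ⟨hc0, k, x, b, hx, rfl⟩ := hc
        obtain ⟨F, h1, h2, h3⟩ := one_cond14 h hT hN b0 W x b hx (ψ k x) (hψl k x) (hψ k x)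
          (hmem _ hc0)
        refine ⟨F, fun _ => ⟨h1, h2, fun z hz ζ hζ => ?_⟩⟩
        refine (kills_iff_DSat _ _).2 (h3 z hz _ fun i m hm => ?_)
        change ζ (b i) - 0 = z m
        rw [← hm, hζ m, sub_zero]
      · exact ⟨fun _ _ => True, fun h => absurd h hc⟩
    have hE : ∀ c : DC B B, ∃ F : SF K S.L (Fin F₀.card), (c ∈ C₀ ∧ c ∈ CE) →
        IsDef (S.lab T) F ∧ (∀ y, F N y → pr (S.lab T) y b0 ∈ E) ∧
        ∀ z : Fin F₀.card → B, Kills B F (fun m => z m - b0 m) → ∀ ζ : B → B,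
          (∀ m, ζ (b0 m) = z m) → c.Holds ζ := by
      intro c
      by_cases hc : c ∈ C₀ ∧ c ∈ CE
      · obtain ⟨hc0, k, x, b, hx, rfl⟩ := hc
        obtain ⟨F, h1, h2, h3⟩ := one_cond14 h hT hN b0 E x b hx (ψ k x) (hψl k x) (hψ k x)
          (hmem _ hc0)
        refine ⟨F, fun _ => ⟨h1, h2, fun z hz ζ hζ => ?_⟩⟩
        refine (kills_iff_DSat _ _).2 (h3 _ hz _ fun i m hm => ?_)
        change ζ (b i) - b i = z m - b0 m
        rw [← hm, hζ m]
      · exact ⟨fun _ _ => True, fun h => absurd h hc⟩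
    choose FW hFW using hW
    choose FE hFE using hE
    obtain ⟨ΦW, w1, w2, w3⟩ := sum_cond14 (T := T) b0 W (hfin.toFinset.filter fun c => c ∈ CW) FW
      (fun c hc => (hFW c ⟨hfin.mem_toFinset.1 (Finset.mem_filter.1 hc).1,
        (Finset.mem_filter.1 hc).2⟩).1)
      (fun c hc => (hFW c ⟨hfin.mem_toFinset.1 (Finset.mem_filter.1 hc).1,
        (Finset.mem_filter.1 hc).2⟩).2.1)
    obtain ⟨ΦE, e1, e2, e3⟩ := sum_cond14 (T := T) b0 E (hfin.toFinset.filter fun c => c ∈ CE) FE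
      (fun c hc => (hFE c ⟨hfin.mem_toFinset.1 (Finset.mem_filter.1 hc).1,
        (Finset.mem_filter.1 hc).2⟩).1)
      (fun c hc => (hFE c ⟨hfin.mem_toFinset.1 (Finset.mem_filter.1 hc).1,
        (Finset.mem_filter.1 hc).2⟩).2.1)
    have hkill : Kills B (fun M y => ΦW M y ∧ ΦE M y) b0 := by
      refine (kills_iff_pr h hT hNice hN hB (w1.and e1) b0).2 fun y hy => ?_
      have h1 : pr (S.lab T) y b0 ∈ W ⊓ E := ⟨w2 y hy.1, e2 y hy.2⟩
      rw [hWE] at h1
      exact h1
    obtain ⟨z, z', hz, hz', hzz⟩ := kills_and w1 e1 hkill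
    have hz2 : Kills B ΦE (fun m => z m - b0 m) := by
      intro f hf
      have h1 := hz' f hf
      have h2 : ∀ m, (f m : Module.Dual K B) (z m - b0 m) =
          - (f m : Module.Dual K B) (z' m) := by
        intro m
        rw [hzz m, ← map_neg]
        congr 1
        abel
      rw [Finset.sum_congr rfl fun m _ => h2 m, Finset.sum_neg_distrib, h1, neg_zero]
    refine ⟨fun b => if hb : ∃ m, b0 m = b then z hb.choose else 0, fun c hc => ?_⟩
    have hζ : ∀ m, (fun b => if hb : ∃ m, b0 m = b then z hb.choose else 0 : B → B) (b0 m)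
        = z m := by
      intro m
      have hb : ∃ m', b0 m' = b0 m := ⟨m, rfl⟩
      have h1 : hb.choose = m := hb0 hb.choose_spec
      change (if hb : ∃ m', b0 m' = b0 m then z hb.choose else 0) = z m
      rw [dif_pos hb, h1]
    rcases hC₀ hc with hcW | hcE
    · have h1 := (hFW c ⟨hc, hcW⟩).2.2 z
      refine h1 (fun f hf => hz f ?_) _ hζ
      exact w3 c (Finset.mem_filter.2 ⟨hfin.mem_toFinset.2 hc, hcW⟩) _ _ hf
    · have h1 := (hFE c ⟨hc, hcE⟩).2.2 z
      refine h1 (fun f hf => hz2 f ?_) _ hζ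
      exact e3 c (Finset.mem_filter.2 ⟨hfin.mem_toFinset.2 hc, hcE⟩) _ _ hf)
  refine ⟨e, fun k x b hx => ?_, fun k x b hx => ?_⟩
  · have h1 := (hhold k x b (fun _ => 0) e).1 (he _ (Or.inl ⟨k, x, b, hx, rfl⟩))
    rw [h1, pr_zero_iff14]
    intro F
    simp
  · exact (hhold k x b b e).1 (he _ (Or.inr ⟨k, x, b, hx, rfl⟩))

theorem exists_endo (h : S.OK G Bl) (hT : S.Down G Bl T) (hNice : S.Nice T)
    (hN : Big S T N) (hB : S.Mod T B) (hAC : AC (S.lab T) B)
    (W E : Submodule (EndR (S.lab T) N) (QQ (S.lab T) N B)) (hWE : W ⊓ E = ⊥) :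
    ∃ e : B →ₗ[K] B, IsHom (S.lab T) (M := B) (N := B) e ∧
      (∀ (k : ℕ) (x : Fin k → N) (b : Fin k → B), pr (S.lab T) x b ∈ W →
        pr (S.lab T) x (fun i => e (b i)) = 0) ∧
      ∀ (k : ℕ) (x : Fin k → N) (b : Fin k → B), pr (S.lab T) x b ∈ E →
        pr (S.lab T) x (fun i => e (b i)) = pr (S.lab T) x b := by
  obtain ⟨e, hW, hE⟩ := exists_fun h hT hNice hN hB hAC W E hWE
  have hlin : ∀ (α β : K) (b b' : B), e (α • b + β • b') = α • e b + β • e b' := by
    intro α β b b'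
    have h0 : α • e b + β • e b' - e (α • b + β • b') = 0 := by
      refine faithful h hT hNice hN hB fun n => ?_
      rw [pr_zero_iff14]
      intro F
      have h1 : pr (S.lab T) (N := N) (B := B) ![α • n, β • n, -n]
          ![b, b', α • b + β • b'] ∈ W := by
        have h2 : pr (S.lab T) (N := N) (B := B) ![α • n, β • n, -n]
            ![b, b', α • b + β • b'] = 0 := by
          rw [pr_zero_iff14]
          intro F
          rw [Fin.sum_univ_three]
          change F.1 (α • n) b + F.1 (β • n) b' + F.1 (-n) (α • b + β • b') = 0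
          rw [map_smul, map_smul, map_neg, LinearMap.neg_apply, LinearMap.smul_apply,
            LinearMap.smul_apply, map_add, map_smul, map_smul]
          abel
        rw [h2]
        exact W.zero_mem
      have h3 := (pr_zero_iff14 _ _).1 (hW 3 _ _ h1) F
      rw [Fin.sum_univ_three] at h3
      change F.1 (α • n) (e b) + F.1 (β • n) (e b') + F.1 (-n) (e (α • b + β • b')) = 0 at h3
      rw [map_smul, map_smul, map_neg, LinearMap.neg_apply, LinearMap.smul_apply,
        LinearMap.smul_apply] at h3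
      simp only [Finset.univ_unique, Finset.sum_singleton]
      rw [map_sub, map_add, map_smul, map_smul]
      rw [sub_eq_add_neg]
      exact h3
    exact (sub_eq_zero.1 h0).symm
  let e' : B →ₗ[K] B :=
    { toFun := e
      map_add' := fun b b' => by
        have := hlin 1 1 b b'
        simpa using this
      map_smul' := fun α b => by
        have := hlin α 0 b 0
        simpa using this }
  refine ⟨e', fun l hl b hb => ?_, hW, hE⟩
  change e b ∈ B.P l
  rw [← Subspace.forall_mem_dualAnnihilator_apply_eq_zero_iff]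
  have h1 : pr (S.lab T) (fun _ : Fin 1 => (0 : N)) (fun _ => b) ∈ W := by
    rw [pr_zero_left]
    exact W.zero_mem
  have hk : Kills B (fun (M : Obj K S.L) (y : Fin 1 → M) => lin (fun _ => (1 : K)) y ∈ M.P l)
      (fun _ => e b) := by
    refine (kills_iff_pr h hT hNice hN hB (IsDef.lab hl _) _).2 fun x hx => ?_
    have hx0 : x 0 ∈ N.P l := by
      have h2 : lin (fun _ => (1 : K)) x = x 0 := by simp [lin]
      rw [← h2]; exact hx
    have h3 : pr (S.lab T) x (fun _ => b) = 0 := by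
      rw [pr_zero_iff14]
      intro F
      rw [Fin.sum_univ_one]
      exact (Submodule.mem_dualAnnihilator _).1 (F.2 l hl _ hx0) b hb
    exact hW 1 x (fun _ => b) (by rw [h3]; exact W.zero_mem)
  intro φ hφ
  have h2 := hk (fun _ => φ) (by
    change lin (fun _ => (1 : K)) (fun _ : Fin 1 => φ) ∈ B.dual.P l
    have h3 : lin (fun _ => (1 : K)) (fun _ : Fin 1 => φ) = φ := by simp [lin]
    rw [h3]; exact hφ)
  rw [Fin.sum_univ_one] at h2
  exact h2

end Pool.Agent.Helper13.SDW
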