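import Pool.Agent.Helper13.SDW.U0

/-!
# Systems with the facts on types which are used (definitions)
-/

namespace Pool.Agent.Helper13.SDW

universe u

variable {K : Type u} [Field K]

/-- Unary and binary semantic formulas. -/
abbrev SF1 (K : Type u) [Field K] (L : Type u) : Type (u + 1) := ∀ M : Obj K L, M → Prop
abbrev SF2 (K : Type u) [Field K] (L : Type u) : Type (u + 1) := ∀ M : Obj K L, M → M → Prop

/-- Definable unary and binary formulas. -/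
def Def1 {L : Type u} (Λ : Set L) (F : SF1 K L) : Prop :=
  IsDef Λ (fun (M : Obj K L) (y : Unit → M) => F M (y ()))
def Def2 {L : Type u} (Λ : Set L) (F : SF2 K L) : Prop :=
  IsDef Λ (fun (M : Obj K L) (y : Fin 2 → M) => F M (y 0) (y 1))

namespace Sys

variable (S : Sys K)

/-- `F ≤ G` in `FF_T`. -/
def LeF (T : Set S.Tp) (F G : SF1 K S.L) : Prop :=
  ∀ M : Obj K S.L, S.FF T M → ∀ x : M, F M x → G M x

/-- `F ≤ G` in `CC_T`. -/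
def LeC (T : Set S.Tp) (F G : SF1 K S.L) : Prop :=
  ∀ M : Obj K S.L, S.CC T M → ∀ x : M, F M x → G M x

/-- `Rep T F₀ F₁`: there is a relation `Ψ ⊆ P_a × F₁` over `T`, `a` a node, total on `P_a`, with
`Ψ(0) ⊆ F₀` and `Ψ(P_a) = F₁`. -/
def Rep (T : Set S.Tp) (F₀ F₁ : SF1 K S.L) : Prop :=
  ∃ (a : S.Nd) (Ψ : SF2 K S.L), Def2 (S.lab T) Ψ ∧ ∀ M : Obj K S.L, S.FF T M →
    (∀ x y, Ψ M x y → x ∈ M.P (.inl a) ∧ F₁ M y) ∧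
    (∀ x ∈ M.P (.inl a), ∃ y, Ψ M x y) ∧
    (∀ y, Ψ M 0 y → F₀ M y) ∧
    ∀ y, F₁ M y → ∃ x, Ψ M x y

/-- The facts on the types in `G`; `B τ` is the set of the types below `τ`. -/
structure OK (G : Set S.Tp) (B : S.Tp → Set S.Tp) : Prop where
  proot : S.par S.root = S.root
  le_root : ∀ a, S.Le a S.root
  sub : ∀ τ ∈ G, B τ ⊆ G
  trans : ∀ τ ∈ G, ∀ σ ∈ B τ, B σ ⊆ B τ
  wf : WellFounded fun a b : S.Tp => a ∈ B b ∧ b ∈ G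
  labU : ∀ τ ∈ G, ∀ n, ∀ q ∈ (S.U τ n).c, q.1 ∈ S.lab (B τ)
  labD : ∀ τ ∈ G, ∀ n, ∀ q ∈ (S.D τ n).c, q.1 ∈ S.lab (B τ)
  labZ : ∀ τ ∈ G, ∀ n, ∀ q ∈ (S.Z τ n).c, q.1 ∈ S.lab (B τ)
  cofU : ∀ τ ∈ G, ∀ n, S.CofP (B τ) (S.U τ n).toPre
  cofD : ∀ τ ∈ G, ∀ n, S.CofP (B τ) (S.D τ n).toPre
  cofZ : ∀ τ ∈ G, ∀ n, S.CofP (B τ) (S.Z τ n).toPre
  Z0 : ∀ τ ∈ G, S.LeF (B τ) (S.Z τ 0).S1 (fun _ x => x = 0)
  UU : ∀ τ ∈ G, ∀ n, S.LeF (B τ) (S.U τ (n + 1)).S1 (S.U τ n).S1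
  ZD : ∀ τ ∈ G, ∀ l, S.LeF (B τ) (S.Z τ l).S1 (S.D τ l).S1
  DZ : ∀ τ ∈ G, ∀ l, S.LeF (B τ) (S.D τ l).S1 (S.Z τ (l + 1)).S1
  ZU : ∀ τ ∈ G, ∀ l n, S.LeF (B τ) (S.Z τ l).S1 (S.U τ n).S1
  c3 : ∀ τ ∈ G, ∀ j, S.Rep (B τ) (S.D τ j).S1 (S.Z τ (j + 1)).S1
  c4 : ∀ τ ∈ G, ∀ n, S.Rep (B τ) (S.Z τ n).S1 (S.U τ n).S1
  stU : ∀ τ ∈ G, ∀ n l, ¬ S.LeF (B τ) (S.U τ n).S1 (S.Z τ l).S1
  stZ : ∀ τ ∈ G, (∀ l, ¬ S.LeF (B τ) (S.Z τ (l + 1)).S1 (S.D τ l).S1) ∨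
    ∀ l, S.LeF (B τ) (S.Z τ l).S1 (fun _ x => x = 0)

/-- Downward closed sets of types. -/
def Down (G : Set S.Tp) (B : S.Tp → Set S.Tp) (T : Set S.Tp) : Prop :=
  T ⊆ G ∧ ∀ τ ∈ T, B τ ⊆ T

end Sys

variable {S : Sys K} {G : Set S.Tp} {B : S.Tp → Set S.Tp}

theorem Sys.OK.labX (h : S.OK G B) {τ : S.Tp} (hτ : τ ∈ G) (r : Rl) :
    ∀ q ∈ (S.X τ r).c, q.1 ∈ S.lab (B τ) := by
  cases r with
  | u n =>
    cases n with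
    | zero => intro q hq; exact absurd hq List.not_mem_nil
    | succ n => exact h.labU τ hτ n
  | d l => exact h.labD τ hτ l

theorem Sys.OK.labY (h : S.OK G B) {τ : S.Tp} (hτ : τ ∈ G) (r : Rl) :
    ∀ q ∈ (S.Y τ r).c, q.1 ∈ S.lab (B τ) := by
  cases r with
  | u n => exact h.labU τ hτ n
  | d l => exact h.labZ τ hτ l

theorem Sys.OK.cofX (h : S.OK G B) {τ : S.Tp} (hτ : τ ∈ G) (r : Rl) :
    S.CofP (B τ) (S.X τ r).toPre := by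
  cases r with
  | u n =>
    cases n with
    | zero =>
      intro A D p _ _ _ y _
      exact ⟨Fin.elim0, fun q hq => absurd hq List.not_mem_nil, fun i => Fin.elim0 i⟩
    | succ n => exact h.cofU τ hτ n
  | d l => exact h.cofD τ hτ l

theorem Sys.OK.cofY (h : S.OK G B) {τ : S.Tp} (hτ : τ ∈ G) (r : Rl) :
    S.CofP (B τ) (S.Y τ r).toPre := by
  cases r with
  | u n => exact h.cofU τ hτ n
  | d l => exact h.cofZ τ hτ l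

theorem Sys.lab_mono {T T' : Set S.Tp} (h : T ⊆ T') : S.lab T ⊆ S.lab T' :=
  fun _ hl τ hτ => h (hl τ hτ)

theorem Sys.FF.mono {T T' : Set S.Tp} {M : Obj K S.L} (hM : S.FF T' M) (h : T ⊆ T') :
    S.FF T M :=
  { hM.toNodeOK with dens := fun τ hτ => hM.dens τ (h hτ) }

theorem Sys.OK.closed (h : S.OK G B) {T : Set S.Tp} (hT : S.Down G B T) : S.Closed T :=
  fun τ hτ r => ⟨fun q hq => Sys.lab_mono (hT.2 τ hτ) (h.labX (hT.1 hτ) r q hq),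
    fun q hq => Sys.lab_mono (hT.2 τ hτ) (h.labY (hT.1 hτ) r q hq)⟩

theorem Sys.OK.down_B (h : S.OK G B) {τ : S.Tp} (hτ : τ ∈ G) : S.Down G B (B τ) :=
  ⟨h.sub τ hτ, h.trans τ hτ⟩

theorem Sys.OK.not_mem_B (h : S.OK G B) {τ : S.Tp} (hτ : τ ∈ G) : τ ∉ B τ :=
  fun h1 => h.wf.irrefl.irrefl τ ⟨h1, hτ⟩

theorem Sys.down_insert {T : Set S.Tp} (hT : S.Down G B T) {τ : S.Tp}
    (hτ : τ ∈ G) (hB : B τ ⊆ T) : S.Down G B (insert τ T) := by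
  refine ⟨fun σ hσ => ?_, fun σ hσ => ?_⟩
  · rcases hσ with rfl | hσ
    · exact hτ
    · exact hT.1 hσ
  · rcases hσ with rfl | hσ
    · exact hB.trans (Set.subset_insert _ _)
    · exact (hT.2 σ hσ).trans (Set.subset_insert _ _)

end Pool.Agent.Helper13.SDW
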