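import Pool.Agent.Helper13.SDW.Endo
import Pool.Agent.Helper13.SDW.BigEx

/-!
# BLOCK SDW-LEMU: pure-injective superdecomposable structures have no uniform submodules

`Q0` is the submodule of all `pr x b`, `x : Fin k → N`, `b : Fin k → B`, `k` arbitrary.

`no_uniform_sub` (about 200 lines): let `U₀ ≤ Q0`, `U₀ ≠ ⊥`, and suppose that all non-zero `V₁, V₂ ≤ U₀` have `V₁ ⊓ V₂ ≠ ⊥`.
Zorn: `E` maximal among the `E` with `U₀ ≤ E ≤ Q0` and `∀ V ≤ E, V ≠ ⊥ → V ⊓ U₀ ≠ ⊥` (unions of chains; a non-zero `V` below the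
union of a chain contains the cyclic submodule of an element, which lies in a member). `W` maximal with
`W ≤ Q0`, `W ⊓ E = ⊥` (Zorn). `E` is uniform. Take `e` from `exists_endo` for `W, E`, `ε = eQ N e he`: `ε = id` on `E` and `0` on
`W` (all elements of `Q0` are of the form `pr x b`, `eQ_pr`). `ε(Q0) ≤ Q0`.
(1) `Q0 ⊓ ker ε = W`: it contains `W` and meets `E` in `⊥`; maximality.
(2) `ε(Q0)` is an essential extension of `U₀`: let `V ≤ ε(Q0)`, `V ≠ ⊥`, `V' = {q ∈ Q0 | ε q ∈ V} ≥ W`, `V' ≠ W` (otherwise `ε V' = ⊥`, but `ε V' = V`); so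
    `V' ⊓ E ≠ ⊥` by maximality of `W`; for `0 ≠ q ∈ V' ⊓ E`: `q = ε q ∈ V`. So `V ⊓ E ≠ ⊥`, `V ⊓ U₀ ≠ ⊥`. And `E = ε(E) ≤ ε(Q0)`. By
    maximality `E = ε(Q0)`.
(3) So `ε ∘ ε = ε` on `Q0`, hence `e ∘ e = e` by `faithful` (`pr n (e (e b) - e b) = 0` for all `n`). `e ≠ 0` as `E ≠ ⊥`.
(4) `hSD` gives `e₁, e₂`. `E_i = eQ e_i (Q0) ≤ Q0`; `E_i ≤ E` as `e ∘ e_i = e_i`; `E_i ≠ ⊥` by `faithful`; `E₁ ⊓ E₂ = ⊥`: if
    `q = ε₁ q₁ = ε₂ q₂` then `q = ε₁ q = ε₁ (ε₂ q₂) = 0`. Contradiction to the uniformity of `E`.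

`nu_of_ac` (about 100 lines): `N` from `exists_big`. Let `g, φ` with `¬ Kills1 B φ g`; `U₀ = {pr n g | n ∈ φ(N)}` (`κ = Unit` or `Fin 1`),
a non-zero submodule of `Q0` (`kills_iff_pr`, `kills1_iff`). By `no_uniform_sub` there are non-zero `U₁, U₂ ≤ U₀`, `U₁ ⊓ U₂ = ⊥`. Choose
`x_i ∈ φ(N)` with `0 ≠ pr x_i g ∈ U_i`, `ψ_i` from `exists_psi` for `x_i`. `ψ_i ≤ φ` in `FF_T` (homs preserve `φ`). `g` does not
kill `ψ_i` (`pr_eq_zero_iff`). Let `g` kill `χ`; by `kills_iff_pr` we show `pr y g = 0` for `y ∈ N`, `ψ₁(y)`, `y = y₂ + c`, `ψ₂(y₂)`, `χ(c)`: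
`y = f x₁`, so `pr y g = f • pr x₁ g ∈ U₁`; `pr c g = 0`, `pr y g = pr y₂ g = f₂ • pr x₂ g ∈ U₂`.
-/

namespace Pool.Agent.Helper13.SDW

universe u

variable {K : Type u} [Field K] {S : Sys K} {G : Set S.Tp} {Bl : S.Tp → Set S.Tp} {T : Set S.Tp}
  {N B : Obj K S.L}

/-- The submodule of all tensors. -/
noncomputable def Q0 (Λ : Set S.L) (N B : Obj K S.L) : Submodule (EndR Λ N) (QQ Λ N B) :=
  Submodule.span (EndR Λ N) {q | ∃ (k : ℕ) (x : Fin k → N) (b : Fin k → B), q = pr Λ x b}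

theorem mem_Q0 {Λ : Set S.L} {q : QQ Λ N B} :
    q ∈ Q0 Λ N B ↔ ∃ (k : ℕ) (x : Fin k → N) (b : Fin k → B), q = pr Λ x b := by
  constructor
  · intro hq
    unfold Q0 at hq
    induction hq using Submodule.span_induction with
    | mem z hz => exact hz
    | zero =>
      refine ⟨0, Fin.elim0, Fin.elim0, ?_⟩
      refine LinearMap.ext fun F => ?_
      change (0 : K) = ∑ k : Fin 0, (F.1 (Fin.elim0 k)) (Fin.elim0 k)
      exact (Fin.sum_univ_zero _).symm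
    | add a c _ _ ha hc =>
      obtain ⟨k, x, b, rfl⟩ := ha
      obtain ⟨k', x', b', rfl⟩ := hc
      refine ⟨k + k', Fin.append x x', Fin.append b b', ?_⟩
      refine LinearMap.ext fun F => ?_
      change (∑ i, (F.1 (x i)) (b i)) + (∑ i, (F.1 (x' i)) (b' i)) =
        ∑ i : Fin (k + k'), (F.1 (Fin.append x x' i)) (Fin.append b b' i)
      rw [Fin.sum_univ_add]
      simp only [Fin.append_left, Fin.append_right]
    | smul f c _ hc =>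
      obtain ⟨k, x, b, rfl⟩ := hc
      exact ⟨k, fun i => f.1 (x i), b, pr_smul f x b⟩
  · rintro ⟨k, x, b, rfl⟩
    exact Submodule.subset_span ⟨k, x, b, rfl⟩

theorem pr_mem_Q0 {Λ : Set S.L} {κ : Type} [Fintype κ] (x : κ → N) (b : κ → B) :
    pr Λ x b ∈ Q0 Λ N B := by
  refine mem_Q0.2 ⟨Fintype.card κ, fun i => x ((Fintype.equivFin κ).symm i),
    fun i => b ((Fintype.equivFin κ).symm i), ?_⟩
  refine LinearMap.ext fun F => ?_
  change (∑ i, (F.1 (x i)) (b i)) = ∑ i : Fin (Fintype.card κ), _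
  exact (Equiv.sum_comp (Fintype.equivFin κ).symm (fun i => (F.1 (x i)) (b i))).symm

section module

variable {R M : Type*} [Ring R] [AddCommGroup M] [Module R M]

private theorem lemU_ne_bot {V : Submodule R M} (h : V ≠ ⊥) : ∃ v ∈ V, v ≠ 0 :=
  Submodule.exists_mem_ne_zero_of_ne_bot h

private theorem lemU_chain {c : Set (Submodule R M)} (hc : IsChain (· ≤ ·) c)
    (hne : c.Nonempty) {v : M} : v ∈ sSup c ↔ ∃ V ∈ c, v ∈ V :=
  Submodule.mem_sSup_of_directed hne hc.directedOn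

/-- The module part. -/
theorem lemU_module (Q U₀ : Submodule R M) (hU : U₀ ≤ Q)
    (hunif : ∀ V₁ V₂ : Submodule R M, V₁ ≤ U₀ → V₂ ≤ U₀ → V₁ ≠ ⊥ → V₂ ≠ ⊥ → V₁ ⊓ V₂ ≠ ⊥) :
    ∃ E W : Submodule R M, U₀ ≤ E ∧ E ≤ Q ∧ W ≤ Q ∧ W ⊓ E = ⊥ ∧
      (∀ V₁ V₂ : Submodule R M, V₁ ≤ E → V₂ ≤ E → V₁ ≠ ⊥ → V₂ ≠ ⊥ → V₁ ⊓ V₂ ≠ ⊥) ∧
      ∀ ε : M →ₗ[R] M, (∀ q ∈ E, ε q = q) → (∀ q ∈ W, ε q = 0) → (∀ q ∈ Q, ε q ∈ Q) →
        ∀ q ∈ Q, ε q ∈ E := by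
  -- the maximal essential extension
  obtain ⟨E, hUE, hE⟩ := zorn_le_nonempty₀
    {E : Submodule R M | E ≤ Q ∧ ∀ V ≤ E, V ≠ ⊥ → V ⊓ U₀ ≠ ⊥}
    (fun c hc hchain y hy => by
      refine ⟨sSup c, ⟨sSup_le fun z hz => (hc hz).1, fun V hV hV0 => ?_⟩,
        fun z hz => le_sSup hz⟩
      obtain ⟨v, hv, hv0⟩ := lemU_ne_bot hV0
      obtain ⟨E', hE', hvE⟩ := (lemU_chain hchain ⟨y, hy⟩).1 (hV hv)
      have h1 : (R ∙ v) ≤ E' := (Submodule.span_singleton_le_iff_mem v E').2 hvE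
      have h2 : (R ∙ v) ≠ ⊥ := by
        rw [Ne, Submodule.span_singleton_eq_bot]
        exact hv0
      have h3 := (hc hE').2 _ h1 h2
      refine fun h4 => h3 (le_bot_iff.1 ?_)
      rw [← h4]
      exact inf_le_inf_right _ ((Submodule.span_singleton_le_iff_mem v V).2 hv))
    U₀ ⟨hU, fun V hV hV0 => by rwa [inf_eq_left.2 hV]⟩
  have hEQ : E ≤ Q := hE.prop.1
  have hEess : ∀ V ≤ E, V ≠ ⊥ → V ⊓ U₀ ≠ ⊥ := hE.prop.2
  -- the maximal complement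
  obtain ⟨W, -, hW⟩ := zorn_le_nonempty₀
    {W : Submodule R M | W ≤ Q ∧ W ⊓ E = ⊥}
    (fun c hc hchain y hy => by
      refine ⟨sSup c, ⟨sSup_le fun z hz => (hc hz).1, ?_⟩, fun z hz => le_sSup hz⟩
      refine le_bot_iff.1 fun v hv => ?_
      obtain ⟨W', hW', hvW⟩ := (lemU_chain hchain ⟨y, hy⟩).1 hv.1
      have h1 : v ∈ W' ⊓ E := ⟨hvW, hv.2⟩
      rwa [(hc hW').2] at h1)
    ⊥ ⟨bot_le, bot_inf_eq _⟩
  have hWQ : W ≤ Q := hW.prop.1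
  have hWE : W ⊓ E = ⊥ := hW.prop.2
  have hWmax : ∀ W' : Submodule R M, W' ≤ Q → W ≤ W' → W' ⊓ E = ⊥ → W' ≤ W :=
    fun W' h1 h2 h3 => hW.2 ⟨h1, h3⟩ h2
  refine ⟨E, W, hUE, hEQ, hWQ, hWE, ?_, ?_⟩
  · intro V₁ V₂ h1 h2 h3 h4 h5
    refine hunif (V₁ ⊓ U₀) (V₂ ⊓ U₀) inf_le_right inf_le_right (hEess _ h1 h3)
      (hEess _ h2 h4) (le_bot_iff.1 ?_)
    rw [← h5]
    exact inf_le_inf inf_le_left inf_le_left
  · intro ε h1 h2 h3
    have hmap : Submodule.map ε Q ≤ Q := by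
      rintro _ ⟨q, hq, rfl⟩
      exact h3 q hq
    have hEmap : E ≤ Submodule.map ε Q := fun q hq => ⟨q, hEQ hq, h1 q hq⟩
    have h4 : Submodule.map ε Q ≤ E := by
      refine hE.2 ⟨hmap, fun V hV hV0 => ?_⟩ hEmap
      obtain ⟨v, hv, hv0⟩ := lemU_ne_bot hV0
      obtain ⟨q, hq, hqv⟩ := hV hv
      have h5 : W ≤ Q ⊓ Submodule.comap ε V := by
        intro w hw
        refine ⟨hWQ hw, ?_⟩
        rw [SetLike.mem_coe, Submodule.mem_comap, h2 w hw]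
        exact V.zero_mem
      have h6 : (Q ⊓ Submodule.comap ε V) ⊓ E ≠ ⊥ := by
        intro h7
        have h8 := hWmax _ inf_le_left h5 h7
        have h9 : q ∈ Q ⊓ Submodule.comap ε V := by
          refine ⟨hq, ?_⟩
          rw [SetLike.mem_coe, Submodule.mem_comap, hqv]
          exact hv
        have h10 := h2 q (h8 h9)
        rw [hqv] at h10
        exact hv0 h10
      obtain ⟨p, hp, hp0⟩ := lemU_ne_bot h6
      have hpV : p ∈ V := by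
        have h7 := hp.1.2
        rw [SetLike.mem_coe, Submodule.mem_comap, h1 p hp.2] at h7
        exact h7
      have h8 : V ⊓ E ≠ ⊥ := by
        intro h9
        have h10 : p ∈ V ⊓ E := ⟨hpV, hp.2⟩
        rw [h9] at h10
        exact hp0 ((Submodule.mem_bot R).1 h10)
      have h9 := hEess _ (inf_le_right : V ⊓ E ≤ E) h8
      refine fun h10 => h9 (le_bot_iff.1 ?_)
      rw [← h10]
      exact inf_le_inf_right _ inf_le_left
    exact fun q hq => h4 ⟨q, hq, rfl⟩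

end module

theorem no_uniform_sub (h : S.OK G Bl) (hT : S.Down G Bl T) (hNice : S.Nice T)
    (hN : Big S T N) (hB : S.Mod T B) (hAC : AC (S.lab T) B) (hSD : SDO (S.lab T) B)
    (U₀ : Submodule (EndR (S.lab T) N) (QQ (S.lab T) N B)) (hU : U₀ ≤ Q0 (S.lab T) N B)
    (hU0 : U₀ ≠ ⊥) :
    ∃ U₁ U₂ : Submodule (EndR (S.lab T) N) (QQ (S.lab T) N B), U₁ ≤ U₀ ∧ U₂ ≤ U₀ ∧
      U₁ ≠ ⊥ ∧ U₂ ≠ ⊥ ∧ U₁ ⊓ U₂ = ⊥ := by
  by_contra hcon
  have hunif : ∀ V₁ V₂ : Submodule (EndR (S.lab T) N) (QQ (S.lab T) N B), V₁ ≤ U₀ → V₂ ≤ U₀ →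
      V₁ ≠ ⊥ → V₂ ≠ ⊥ → V₁ ⊓ V₂ ≠ ⊥ := fun V₁ V₂ h1 h2 h3 h4 h5 =>
    hcon ⟨V₁, V₂, h1, h2, h3, h4, h5⟩
  obtain ⟨E, W, hUE, hEQ, hWQ, hWE, hEunif, hmain⟩ := lemU_module (Q0 (S.lab T) N B) U₀ hU hunif
  obtain ⟨e, he, heW, heE⟩ := exists_endo h hT hNice hN hB hAC W E hWE
  have hstab : ∀ (f : B →ₗ[K] B) (hf : IsHom (S.lab T) (M := B) (N := B) f),
      ∀ q ∈ Q0 (S.lab T) N B, eQ N f hf q ∈ Q0 (S.lab T) N B := by
    intro f hf q hq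
    obtain ⟨k, x, b, rfl⟩ := mem_Q0.1 hq
    rw [eQ_pr]
    exact pr_mem_Q0 _ _
  have hE1 : ∀ q ∈ E, eQ N e he q = q := by
    intro q hq
    obtain ⟨k, x, b, rfl⟩ := mem_Q0.1 (hEQ hq)
    rw [eQ_pr]
    exact heE k x b hq
  have hW1 : ∀ q ∈ W, eQ N e he q = 0 := by
    intro q hq
    obtain ⟨k, x, b, rfl⟩ := mem_Q0.1 (hWQ hq)
    rw [eQ_pr]
    exact heW k x b hq
  have hQE : ∀ q ∈ Q0 (S.lab T) N B, eQ N e he q ∈ E :=
    hmain (eQ N e he) hE1 hW1 (hstab e he)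
  -- `e` is an idempotent
  have hid : e ∘ₗ e = e := by
    refine LinearMap.ext fun b => ?_
    rw [LinearMap.comp_apply, ← sub_eq_zero]
    refine faithful h hT hNice hN hB fun x => ?_
    have h1 : pr (S.lab T) (fun _ : Unit => x) (fun _ : Unit => e (e b) - e b) =
        pr (S.lab T) (fun _ : Unit => x) (fun _ : Unit => e (e b)) -
          pr (S.lab T) (fun _ : Unit => x) (fun _ : Unit => e b) :=
      pr_sub_right (Λ := S.lab T) (fun _ : Unit => x) (fun _ : Unit => e (e b))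
        (fun _ : Unit => e b)
    rw [h1, sub_eq_zero, ← eQ_pr e he (fun _ : Unit => x) (fun _ : Unit => e b)]
    refine hE1 _ ?_
    rw [← eQ_pr e he (fun _ : Unit => x) (fun _ : Unit => b)]
    exact hQE _ (pr_mem_Q0 _ _)
  have he0 : e ≠ 0 := by
    intro h0
    obtain ⟨v, hv, hv0⟩ := Submodule.exists_mem_ne_zero_of_ne_bot hU0
    obtain ⟨k, x, b, rfl⟩ := mem_Q0.1 (hU hv)
    have h1 := hE1 _ (hUE hv)
    rw [eQ_pr] at h1
    apply hv0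
    rw [← h1]
    have h2 : (fun i => e (b i)) = fun i => b i - b i := by
      funext i
      rw [h0, sub_self]
      rfl
    rw [h2, pr_sub_right, sub_self]
  obtain ⟨e₁, e₂, he₁, he₂, i₁, i₂, n₁, n₂, z₁, z₂, hsum⟩ := hSD e he hid he0
  -- the two submodules
  have key : ∀ (f : B →ₗ[K] B) (hf : IsHom (S.lab T) (M := B) (N := B) f), f ≠ 0 →
      e ∘ₗ f = f → Submodule.map (eQ N f hf) (Q0 (S.lab T) N B) ≤ E ∧
        Submodule.map (eQ N f hf) (Q0 (S.lab T) N B) ≠ ⊥ := by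
    intro f hf hf0 hef
    constructor
    · rintro _ ⟨q, hq, rfl⟩
      have h1 : eQ N f hf q = eQ N e he (eQ N f hf q) := by
        obtain ⟨k, x, b, rfl⟩ := mem_Q0.1 hq
        rw [eQ_pr, eQ_pr]
        congr 1
        funext i
        exact (LinearMap.congr_fun hef (b i)).symm
      rw [h1]
      exact hQE _ (hstab f hf q hq)
    · intro hbot
      apply hf0
      refine LinearMap.ext fun b => ?_
      rw [LinearMap.zero_apply]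
      refine faithful h hT hNice hN hB fun x => ?_
      have h1 : eQ N f hf (pr (S.lab T) (fun _ : Unit => x) (fun _ : Unit => b)) ∈
          Submodule.map (eQ N f hf) (Q0 (S.lab T) N B) := ⟨_, pr_mem_Q0 _ _, rfl⟩
      rw [hbot, Submodule.mem_bot, eQ_pr] at h1
      exact h1
  have c₁ : e ∘ₗ e₁ = e₁ := by
    rw [← hsum, LinearMap.add_comp, i₁, z₂, add_zero]
  have c₂ : e ∘ₗ e₂ = e₂ := by
    rw [← hsum, LinearMap.add_comp, i₂, z₁, zero_add]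
  obtain ⟨a₁, b₁⟩ := key e₁ he₁ n₁ c₁
  obtain ⟨a₂, b₂⟩ := key e₂ he₂ n₂ c₂
  refine hEunif _ _ a₁ a₂ b₁ b₂ (le_bot_iff.1 ?_)
  rintro q ⟨⟨q₁, hq₁, rfl⟩, ⟨q₂, hq₂, hq⟩⟩
  rw [Submodule.mem_bot]
  have h1 : eQ N e₁ he₁ (eQ N e₁ he₁ q₁) = eQ N e₁ he₁ q₁ := by
    obtain ⟨k, x, b, rfl⟩ := mem_Q0.1 hq₁
    rw [eQ_pr, eQ_pr]
    congr 1
    funext i
    exact LinearMap.congr_fun i₁ (b i)
  have h2 : eQ N e₁ he₁ (eQ N e₂ he₂ q₂) = 0 := by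
    obtain ⟨k, x, b, rfl⟩ := mem_Q0.1 hq₂
    rw [eQ_pr, eQ_pr]
    have h3 : (fun i => e₁ (e₂ (b i))) = fun i => b i - b i := by
      funext i
      rw [sub_self]
      exact LinearMap.congr_fun z₁ (b i)
    rw [h3, pr_sub_right, sub_self]
  rw [← h1, ← hq, h2]

private theorem lemU_fm {Λ : Set S.L} (φ : Fm K S.L Unit) (hφ : ∀ q ∈ φ.c, q.1 ∈ Λ) :
    Def1 Λ φ.S1 :=
  (IsDef.fm φ hφ).congr fun _ _ => Iff.rfl

/-- The cyclic module of `g` and `φ`. -/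
noncomputable def lemU_U {Λ : Set S.L} {φ : SF1 K S.L} (hφ : Def1 Λ φ) (N : Obj K S.L)
    {B : Obj K S.L} (g : B) : Submodule (EndR Λ N) (QQ Λ N B) where
  carrier := {q | ∃ n : N, φ N n ∧ q = pr Λ (fun _ : Unit => n) (fun _ : Unit => g)}
  add_mem' := by
    rintro _ _ ⟨n, hn, rfl⟩ ⟨m, hm, rfl⟩
    refine ⟨n + m, IsDef.add_mem hφ (y := fun _ : Unit => n) (z := fun _ : Unit => m) hn hm, ?_⟩
    exact (pr_add_left (fun _ : Unit => n) (fun _ : Unit => m) (fun _ : Unit => g)).symm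
  zero_mem' := ⟨0, IsDef.zero_mem hφ N, (pr_zero_left _).symm⟩
  smul_mem' := by
    rintro f _ ⟨n, hn, rfl⟩
    refine ⟨f.1 n, IsDef.map hφ f.2 (y := fun _ : Unit => n) hn, ?_⟩
    exact pr_smul f (fun _ : Unit => n) (fun _ : Unit => g)

theorem nu_of_ac (h : S.OK G Bl) (hT : S.Down G Bl T) (hNice : S.Nice T)
    (hB : S.Mod T B) (hAC : AC (S.lab T) B) (hSD : SDO (S.lab T) B) : S.NU T B := by
  obtain ⟨N, hN⟩ := exists_big (h.closed hT) h.proot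
  intro g φ hφ hg
  have hkill : ∀ F : SF1 K S.L, Def1 (S.lab T) F → (Kills1 B F g ↔
      ∀ n : N, F N n → pr (S.lab T) (fun _ : Unit => n) (fun _ : Unit => g) = 0) := by
    intro F hF
    rw [kills1_iff, kills_iff_pr h hT hNice hN hB hF]
    exact ⟨fun h1 n hn => h1 (fun _ => n) hn, fun h1 x hx => h1 (x ()) hx⟩
  have hle : lemU_U hφ N g ≤ Q0 (S.lab T) N B := by
    rintro _ ⟨n, hn, rfl⟩
    exact pr_mem_Q0 _ _
  have hne : lemU_U hφ N g ≠ ⊥ := by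
    intro hbot
    refine hg ((hkill φ hφ).2 fun n hn => ?_)
    have h1 : pr (S.lab T) (fun _ : Unit => n) (fun _ : Unit => g) ∈ lemU_U hφ N g :=
      ⟨n, hn, rfl⟩
    rw [hbot, Submodule.mem_bot] at h1
    exact h1
  obtain ⟨U₁, U₂, hU₁, hU₂, hn₁, hn₂, hinf⟩ :=
    no_uniform_sub h hT hNice hN hB hAC hSD _ hle hne
  have key : ∀ U : Submodule (EndR (S.lab T) N) (QQ (S.lab T) N B), U ≤ lemU_U hφ N g → U ≠ ⊥ →
      ∃ ψ : SF1 K S.L, Def1 (S.lab T) ψ ∧ S.LeF T ψ φ ∧ ¬ Kills1 B ψ g ∧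
        ∀ y : N, ψ N y → pr (S.lab T) (fun _ : Unit => y) (fun _ : Unit => g) ∈ U := by
    intro U hU hU0
    obtain ⟨v, hv, hv0⟩ := Submodule.exists_mem_ne_zero_of_ne_bot hU0
    obtain ⟨x, hx, rfl⟩ := hU hv
    obtain ⟨ψ, hψl, hψ⟩ := exists_psi h hT hN.cc (fun _ : Unit => x)
    refine ⟨ψ.S1, lemU_fm ψ hψl, ?_, ?_, ?_⟩
    · intro D hD y hy
      obtain ⟨f, hf, hfy⟩ := (hψ D hD (fun _ => y)).1 hy
      have h1 : y = f x := hfy ()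
      rw [h1]
      exact IsDef.map hφ hf (y := fun _ : Unit => x) hx
    · intro hk
      apply hv0
      rw [pr_eq_zero_iff h hT hB hψ]
      rw [kills1_iff] at hk
      exact hk
    · intro y hy
      obtain ⟨f, hf, hfy⟩ := (hψ N hN.cc.ff (fun _ => y)).1 hy
      have h1 : y = f x := hfy ()
      have h2 := U.smul_mem (⟨f, hf⟩ : EndR (S.lab T) N) hv
      rw [pr_smul] at h2
      rw [h1]
      exact h2
  obtain ⟨ψ₁, d₁, l₁, k₁, u₁⟩ := key U₁ hU₁ hn₁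
  obtain ⟨ψ₂, d₂, l₂, k₂, u₂⟩ := key U₂ hU₂ hn₂
  refine ⟨ψ₁, ψ₂, d₁, d₂, l₁, l₂, k₁, k₂, fun χ hχ hkχ => ?_⟩
  have hd : Def1 (S.lab T)
      (fun (M : Obj K S.L) x => ψ₁ M x ∧ ∃ y z, ψ₂ M y ∧ χ M z ∧ x = y + z) := by
    refine IsDef.and d₁ ((isDef_sumF d₂ hχ).congr fun M y => ?_)
    exact ⟨fun ⟨a, b, ha, hb, h⟩ => ⟨a (), b (), ha, hb, h ()⟩,
      fun ⟨a, b, ha, hb, h⟩ => ⟨fun _ => a, fun _ => b, ha, hb, fun _ => h⟩⟩
  refine (hkill _ hd).2 fun y hy => ?_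
  obtain ⟨hy₁, y₂, c, hy₂, hc, hyc⟩ := hy
  have h1 := u₁ y hy₁
  have h2 := u₂ y₂ hy₂
  have h3 := (hkill χ hχ).1 hkχ c hc
  have h4 : pr (S.lab T) (fun _ : Unit => y) (fun _ : Unit => g) =
      pr (S.lab T) (fun _ : Unit => y₂) (fun _ : Unit => g) := by
    rw [hyc, pr_add_left (Λ := S.lab T) (fun _ : Unit => y₂) (fun _ : Unit => c)
      (fun _ : Unit => g), h3, add_zero]
  rw [← h4] at h2
  have h5 : pr (S.lab T) (fun _ : Unit => y) (fun _ : Unit => g) ∈ U₁ ⊓ U₂ := ⟨h1, h2⟩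
  rw [hinf, Submodule.mem_bot] at h5
  exact h5

end Pool.Agent.Helper13.SDW
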