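import Pool.Agent.Helper13.SDW.Kill3
import Pool.Agent.Helper13.SDW.LemU

/-!
# The abstract main theorem (assembly)
-/

namespace Pool.Agent.Helper13.SDW

universe u

variable {K : Type u} [Field K]

/-- There is no non-zero algebraically compact superdecomposable `B` in the class. -/
theorem main_abs {B : Obj K (CS K).L} (hB : (CS K).Mod (GG K) B)
    (hAC : AC ((CS K).lab (GG K)) B) (hSD : SDO ((CS K).lab (GG K)) B) {b : B}
    (hb : b ≠ 0) : False :=
  no_nu hB (nu_of_ac cs_ok gg_mem.1 (nice_all gg_mem) hB hAC hSD) hb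

end Pool.Agent.Helper13.SDW
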