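import Pool.Agent.Helper13.SDW.RDefs

/-!
# BLOCK SDW-MD3: pure-injective modules are algebraically compact (about 150 lines)

Let `E` be finitely solvable in `M`. `B' = M × (I →₀ R)` modulo the submodule `Rel` generated by the elements `(q.2, - q.1)`, `q ∈ E`;
`f : M → B'`, `m ↦ [(m, 0)]`. A finite subset `E₀` of `E` has a solution `z₀ : I → M`; the map
`ev z₀ : M × (I →₀ R) → M`, `(m, p) ↦ m + ∑ p_i • z₀ i` is linear, the identity on `M`, and kills `(q.2, - q.1)`, `q ∈ E₀`. An element of
`Rel` is a combination of finitely many generators, so it is killed by `ev z₀` for a suitable `E₀`.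
`f` is injective: if `(m, 0) ∈ Rel` then `m = ev z₀ (m, 0) = 0`. `f` is pure: let `∑_j r_ij y_j = f a_i` (`i` in a finite set) in `B'`, `y_j = [Y_j]`; then
`∑_j r_ij Y_j - (a_i, 0) ∈ Rel`; with `E₀` good for all these finitely many elements, `x_j = ev z₀ Y_j` solves the system in `M`.
By pure-injectivity there is `h : B' → M` with `h (f m) = m`; `z i = h [(0, single i 1)]`.
-/

namespace Pool.Agent.Helper13.SDW

open Pool.Agent.H35SD

universe u

section Md3Aux

variable {R : Type u} [Ring R] {M : Type u} [AddCommGroup M] [Module R M] {I : Type u}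

/-- The evaluation map. -/
private noncomputable def md3Ev (R : Type u) [Ring R] {M : Type u} [AddCommGroup M] [Module R M]
    {I : Type u} (z : I → M) : (M × (I →₀ R)) →ₗ[R] M :=
  LinearMap.coprod LinearMap.id (Finsupp.linearCombination R z)

private theorem md3Ev_apply (z : I → M) (m : M) (p : I →₀ R) :
    md3Ev R z (m, p) = m + p.sum fun i s => s • z i := by
  simp [md3Ev, Finsupp.linearCombination_apply]

/-- The relations. -/
private noncomputable def md3Rel (E : Set ((I →₀ R) × M)) : Submodule R (M × (I →₀ R)) :=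
  Submodule.span R ((fun q : (I →₀ R) × M => ((q.2, - q.1) : M × (I →₀ R))) '' E)

private theorem md3_kill (E : Set ((I →₀ R) × M)) (x : M × (I →₀ R)) (hx : x ∈ md3Rel E) :
    ∃ E₀ ⊆ E, E₀.Finite ∧ ∀ z : I → M,
      (∀ q ∈ E₀, (q.1.sum fun i s => s • z i) = q.2) → md3Ev R z x = 0 := by
  unfold md3Rel at hx
  induction hx using Submodule.span_induction with
  | mem x h =>
    obtain ⟨q, hq, rfl⟩ := h
    refine ⟨{q}, Set.singleton_subset_iff.mpr hq, Set.finite_singleton q, fun z hz => ?_⟩
    have h1 := hz q rfl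
    have h2 : md3Ev R z (q.2, -q.1) = md3Ev R z (q.2, 0) - md3Ev R z (0, q.1) := by
      rw [← map_sub, Prod.mk_sub_mk, sub_zero, zero_sub]
    change md3Ev R z (q.2, -q.1) = 0
    rw [h2, md3Ev_apply, md3Ev_apply, h1]
    simp
  | zero => exact ⟨∅, Set.empty_subset _, Set.finite_empty, fun z _ => map_zero _⟩
  | add x y _ _ hx hy =>
    obtain ⟨E1, h1, f1, k1⟩ := hx
    obtain ⟨E2, h2, f2, k2⟩ := hy
    refine ⟨E1 ∪ E2, Set.union_subset h1 h2, f1.union f2, fun z hz => ?_⟩
    rw [map_add, k1 z fun q hq => hz q (Or.inl hq), k2 z fun q hq => hz q (Or.inr hq), add_zero]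
  | smul a x _ hx =>
    obtain ⟨E1, h1, f1, k1⟩ := hx
    refine ⟨E1, h1, f1, fun z hz => ?_⟩
    rw [map_smul, k1 z hz, smul_zero]

end Md3Aux

theorem algComp_of_pureInjective {R : Type u} [Ring R] {M : Type u} [AddCommGroup M]
    [Module R M] (h : PureInjective R M) : AlgComp R M := by
  intro I E hE
  let f : M →ₗ[R] ((M × (I →₀ R)) ⧸ md3Rel E) :=
    (md3Rel E).mkQ.comp (LinearMap.inl R M (I →₀ R))
  have hf : PureEmb f := by
    constructor
    · rw [injective_iff_map_eq_zero]
      intro m hm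
      have hm' : ((m, 0) : M × (I →₀ R)) ∈ md3Rel E := by
        have h1 : (md3Rel E).mkQ (m, 0) = 0 := hm
        rwa [Submodule.mkQ_apply, Submodule.Quotient.mk_eq_zero] at h1
      obtain ⟨E₀, hE₀, fin, k⟩ := md3_kill E _ hm'
      obtain ⟨z, hz⟩ := hE E₀ hE₀ fin
      have h2 := k z hz
      rw [md3Ev_apply] at h2
      simpa using h2
    · rintro m n r a ⟨y, hy⟩
      choose Y hY using fun j => Submodule.mkQ_surjective (md3Rel E) (y j)
      have hmem : ∀ i, (∑ j, r i j • Y j) - ((a i, 0) : M × (I →₀ R)) ∈ md3Rel E := by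
        intro i
        rw [← Submodule.Quotient.mk_eq_zero, ← Submodule.mkQ_apply, map_sub, map_sum]
        have h3 : (∑ j, (md3Rel E).mkQ (r i j • Y j)) = f (a i) := by
          rw [← hy i]
          refine Finset.sum_congr rfl fun j _ => ?_
          rw [map_smul, hY j]
        rw [h3]
        exact sub_self _
      choose E₀ hE₀ fin k using fun i => md3_kill E _ (hmem i)
      obtain ⟨z, hz⟩ := hE (⋃ i, E₀ i) (Set.iUnion_subset hE₀) (Set.finite_iUnion fin)
      refine ⟨fun j => md3Ev R z (Y j), fun i => ?_⟩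
      have h4 := k i z fun q hq => hz q (Set.mem_iUnion.mpr ⟨i, hq⟩)
      rw [map_sub, map_sum, sub_eq_zero, md3Ev_apply] at h4
      simp only [map_smul] at h4
      rw [h4]
      simp
  obtain ⟨g, hg⟩ := h M _ f hf LinearMap.id
  refine ⟨fun i => g ((md3Rel E).mkQ (0, Finsupp.single i 1)), fun q hq => ?_⟩
  let φ : (I →₀ R) →ₗ[R] M := (g.comp (md3Rel E).mkQ).comp (LinearMap.inr R M (I →₀ R))
  have h5 : (q.1.sum fun i s => s • g ((md3Rel E).mkQ (0, Finsupp.single i 1))) = φ q.1 := by
    conv_rhs => rw [← Finsupp.sum_single q.1]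
    rw [Finsupp.sum, Finsupp.sum, map_sum]
    refine Finset.sum_congr rfl fun i _ => ?_
    have h6 : (Finsupp.single i (q.1 i) : I →₀ R) = q.1 i • Finsupp.single i 1 := by
      rw [Finsupp.smul_single, smul_eq_mul, mul_one]
    rw [h6, map_smul]
    rfl
  rw [h5]
  have h7 : (md3Rel E).mkQ (0, q.1) = f q.2 := by
    have h8 : (md3Rel E).mkQ (q.2, -q.1) = 0 := by
      rw [Submodule.mkQ_apply, Submodule.Quotient.mk_eq_zero]
      exact Submodule.subset_span ⟨q, hq, rfl⟩
    have h9 : ((q.2, -q.1) : M × (I →₀ R)) = (q.2, 0) - (0, q.1) := by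
      rw [Prod.mk_sub_mk, sub_zero, zero_sub]
    rw [h9, map_sub, sub_eq_zero] at h8
    exact h8.symm
  change g ((md3Rel E).mkQ (0, q.1)) = q.2
  rw [h7]
  exact hg q.2

end Pool.Agent.Helper13.SDW
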