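import Pool.Agent.Helper13.SDW.Md1

/-!
# BLOCK SDW-MD4: algebraic compactness of `eM` (about 150 lines)

Let `C` be a finitely solvable set of conditions on `z : I → eM`. Unknowns for `M`: the index type
`I ⊕ (Σ c : C, Fin c.φ.c.length)`; for each `c ∈ C`: for `j`: `gr (c.φ.c.get j).1 • w_{c,j} = 0` (if the label is in `Λ`, which holds by
hypothesis), and for `i : Fin c.φ.n`: `∑_k (gs (out k i) * ge) • Z_{idx k} - ∑_j (gs (v_j i) * ge) • w_{c,j} = ∑_k gs (out k i) • (p k).val`.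
A solution `Z, w` in `M` gives `z i = BM.mk (Z i)` and the witnesses `BM.mk w_{c,j}` (`gr l • e w = gr l • w`). A finite subset of
the equations involves finitely many `c`; a solution `z` in `eM` of these conditions gives `Z i = (z i).val` and witnesses. (Use `Finsupp.sum` with
`Finsupp.single`, sums of them; `Finsupp.sum_add_index'`, `Finsupp.sum_single_index`, `Finsupp.sum_finset_sum_index`.)
-/

namespace Pool.Agent.Helper13.SDW

universe u

variable {K : Type u} [Field K] {L : Type u} {Λ : Set L} {M : Type u} [AddCommGroup M]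
  [Module (Rr K Λ) M]

namespace Md4aux

/-- The index type of the unknowns. -/
abbrev J (K : Type u) [Field K] {L : Type u} (Λ : Set L) (M : Type u) [AddCommGroup M]
    [Module (Rr K Λ) M] (I : Type u) (C : Set (DC (BM K Λ M) I)) : Type u :=
  I ⊕ (Σ c : C, Fin c.1.φ.c.length)

/-- The equations. -/
noncomputable def eq {I : Type u} (C : Set (DC (BM K Λ M) I)) :
    (Σ c : C, Fin c.1.φ.c.length ⊕ Fin c.1.φ.n) → (J K Λ M I C →₀ Rr K Λ) × M
  | ⟨c, .inl j⟩ => (Finsupp.single (.inr ⟨c, j⟩) (gr K Λ (c.1.φ.c.get j).1), 0)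
  | ⟨c, .inr i⟩ =>
    ((∑ k, Finsupp.single (.inl (c.1.idx k)) (gs K Λ (c.1.φ.out k i) * ge K Λ)) -
      ∑ j, Finsupp.single (.inr ⟨c, j⟩) (gs K Λ ((c.1.φ.c.get j).2 i) * ge K Λ),
      ∑ k, gs K Λ (c.1.φ.out k i) • (c.1.p k).val)

theorem eq_inl {I : Type u} (C : Set (DC (BM K Λ M) I)) (c : C) (j : Fin c.1.φ.c.length)
    (Z : J K Λ M I C → M) :
    (((eq C ⟨c, .inl j⟩).1.sum fun i s => s • Z i) = (eq C ⟨c, .inl j⟩).2) ↔
      gr K Λ (c.1.φ.c.get j).1 • Z (.inr ⟨c, j⟩) = 0 := by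
  have h : ((eq C ⟨c, .inl j⟩).1.sum fun i s => s • Z i) =
      Finsupp.linearCombination (Rr K Λ) Z (eq C ⟨c, .inl j⟩).1 := rfl
  rw [h]
  change Finsupp.linearCombination (Rr K Λ) Z (Finsupp.single _ _) = _ ↔ _
  rw [Finsupp.linearCombination_single]
  rfl

theorem eq_inr {I : Type u} (C : Set (DC (BM K Λ M) I)) (c : C) (i : Fin c.1.φ.n)
    (Z : J K Λ M I C → M) :
    (((eq C ⟨c, .inr i⟩).1.sum fun i s => s • Z i) = (eq C ⟨c, .inr i⟩).2) ↔
      (∑ k, gs K Λ (c.1.φ.out k i) • ge K Λ • Z (.inl (c.1.idx k))) -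
        ∑ j, gs K Λ ((c.1.φ.c.get j).2 i) • ge K Λ • Z (.inr ⟨c, j⟩) =
      ∑ k, gs K Λ (c.1.φ.out k i) • (c.1.p k).val := by
  have h : ((eq C ⟨c, .inr i⟩).1.sum fun i s => s • Z i) =
      Finsupp.linearCombination (Rr K Λ) Z (eq C ⟨c, .inr i⟩).1 := rfl
  rw [h]
  change Finsupp.linearCombination (Rr K Λ) Z (_ - _) = _ ↔ _
  rw [map_sub, map_sum, map_sum]
  simp only [Finsupp.linearCombination_single, mul_smul]
  rfl

end Md4aux

open Md4aux

theorem ac_of_algComp (hM : Ax K Λ M) (h : AlgComp (Rr K Λ) M) : AC Λ (BM K Λ M) := by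
  intro I C _ hfin
  obtain ⟨Z, hZ⟩ := h (J K Λ M I C) (Set.range (Md4aux.eq C)) (by
    intro E₀ hE₀ hE₀f
    have hch : ∀ e : E₀, ∃ x, Md4aux.eq C x = e.1 := fun e => hE₀ e.2
    choose g hg using hch
    have : Finite E₀ := hE₀f.to_subtype
    obtain ⟨z, hz⟩ := hfin (Set.range fun e : E₀ => (g e).1.1)
      (by
        rintro _ ⟨e, rfl⟩
        exact (g e).1.2) (Set.finite_range _)
    classical
    refine ⟨fun x => match x with
      | .inl i => (z i).val
      | .inr ⟨c, j⟩ => if hc : c.1.Holds z then (Classical.choose hc j).val else 0, ?_⟩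
    intro e he
    have hge := hg ⟨e, he⟩
    have hcz := hz (g ⟨e, he⟩).1.1 ⟨⟨e, he⟩, rfl⟩
    revert hge hcz
    generalize g ⟨e, he⟩ = x
    obtain ⟨c, x⟩ := x
    rintro hge hcz
    have hge : Md4aux.eq C ⟨c, x⟩ = e := hge
    have hcz : c.1.Holds z := hcz
    have hw := Classical.choose_spec hcz
    rw [← hge]
    rcases x with j | i
    · rw [eq_inl]
      dsimp only
      rw [dif_pos hcz]
      exact (BM.mem_P _ _).1 (hw.1 j)
    · rw [eq_inr]
      dsimp only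
      simp only [dif_pos hcz, BM.e_val]
      have h2 := congrArg (fun x : BM K Λ M => x.val) (hw.2 i)
      dsimp only at h2
      rw [BM.val_sum, BM.val_sum] at h2
      simp only [BM.val_smul, BM.val_sub, smul_sub, Finset.sum_sub_distrib] at h2
      rw [← h2]
      abel)
  refine ⟨fun i => BM.mk hM (Z (.inl i)), fun c hc => ?_⟩
  refine ⟨fun j => BM.mk hM (Z (.inr ⟨⟨c, hc⟩, j⟩)), fun j => ?_, fun i => ?_⟩
  · rw [BM.mem_P, BM.val_mk, hM.re]
    exact (eq_inl C ⟨c, hc⟩ j Z).1 (hZ _ ⟨_, rfl⟩)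
  · have h1 := (eq_inr C ⟨c, hc⟩ i Z).1 (hZ _ ⟨_, rfl⟩)
    refine BM.val_inj ?_
    rw [BM.val_sum, BM.val_sum]
    simp only [BM.val_smul, BM.val_sub, smul_sub, Finset.sum_sub_distrib, BM.val_mk]
    rw [sub_eq_iff_eq_add] at h1 ⊢
    rw [h1]
    abel

end Pool.Agent.Helper13.SDW
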