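import Pool.Agent.Helper13.SDW.Md1

/-!
# BLOCK SDW-MD5: superdecomposable modules (about 250 lines)

Let `M` satisfy `Ax`, `B = eM`. A `K`-linear map `M → M` which commutes with `e` and the `r_l` is
`Rr K Λ`-linear (`FreeAlgebra.induction`).
* `exists_ne_of_sd`: if `eM = 0` then `e` and `gr l` act as `0`, all `K`-linear maps are linear; take
  `v ≠ 0` and a projection onto `K v`: its range is not decomposable.
* `sdo_of_sd`: let `ε` be an idempotent endomorphism of `(B, P_l)`, `ε ≠ 0`. Let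
  `Φ : (Λ →₀ B) → M`, `Φ f = ∑ l, gr l • f l` and `Ψ` a `K`-linear map with `Φ Ψ Φ = Φ`. By the
  independence axiom `Φ f = 0` iff `f l ∈ P_l` for all `l`, so `Θ = Φ ε Ψ` satisfies `Θ Φ = Φ ε`.
  The map `π m = ε (e m) + Θ (m - e m)` is linear and idempotent and extends `ε`. By
  superdecomposability its range is a direct sum of two non-zero submodules; the projections
  restricted to `eM` are `e₁` and `e₂`. If `e₁ = 0` then the first projection vanishes on `eM`, hence
  on the range of `Φ` and on the range of `π`.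
-/

namespace Pool.Agent.Helper13.SDW

open Pool.Agent.H35SD

universe u

variable {K : Type u} [Field K] {L : Type u} {Λ : Set L} {M : Type u} [AddCommGroup M]
  [Module (Rr K Λ) M]

/-- An additive map commuting with the scalars and the generators is linear. -/
private def toR (f : M →+ M) (hs : ∀ a m, f (gs K Λ a • m) = gs K Λ a • f m)
    (he : ∀ m, f (ge K Λ • m) = ge K Λ • f m)
    (hr : ∀ l m, f (gr K Λ l • m) = gr K Λ l • f m) : M →ₗ[Rr K Λ] M where
  toFun := f
  map_add' := f.map_add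
  map_smul' := by
    intro c
    refine FreeAlgebra.induction K (Option Λ) (motive := fun c : Rr K Λ => ∀ m, f (c • m) = c • f m)
      ?_ ?_ ?_ ?_ c
    · intro a m; exact hs a m
    · intro x m
      cases x with
      | none => exact he m
      | some l =>
        have h : gr K Λ l.1 = FreeAlgebra.ι K (some l) := by
          unfold gr; rw [dif_pos l.2]
        have := hr l.1 m
        rw [h] at this
        exact this
    · intro a b ha hb m
      rw [mul_smul, ha, hb, mul_smul]
    · intro a b ha hb m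
      rw [add_smul, map_add, ha, hb, add_smul]

/-- The restriction of a linear map to `eM`. -/
private noncomputable def resB (hM : Ax K Λ M) (f : M →ₗ[Rr K Λ] M) :
    BM K Λ M →ₗ[K] BM K Λ M where
  toFun b := BM.mk hM (f b.val)
  map_add' b b' := by
    apply BM.val_inj
    rw [BM.val_add, BM.val_add, BM.val_mk, BM.val_mk, BM.val_mk, map_add, smul_add]
  map_smul' a b := by
    apply BM.val_inj
    rw [RingHom.id_apply, BM.val_smul, BM.val_smul, BM.val_mk, BM.val_mk, map_smul, ← mul_smul,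
      ← mul_smul]
    congr 1
    exact (Algebra.commutes a (ge K Λ)).symm

private theorem resB_val (hM : Ax K Λ M) (f : M →ₗ[Rr K Λ] M) (b : BM K Λ M) :
    (resB hM f b).val = f b.val := by
  change (BM.mk hM (f b.val)).val = _
  rw [BM.val_mk, ← map_smul, BM.e_val]

private theorem resB_hom (hM : Ax K Λ M) (f : M →ₗ[Rr K Λ] M) :
    IsHom Λ (M := BM K Λ M) (N := BM K Λ M) (resB hM f) := by
  intro l _ x hx
  rw [BM.mem_P] at hx ⊢
  rw [resB_val, ← map_smul, hx, map_zero]

private theorem ind' (hM : Ax K Λ M) (s : Finset Λ) (x : Λ → M)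
    (h : ∑ l ∈ s, gr K Λ l.1 • x l = 0) : ∀ l ∈ s, gr K Λ l.1 • x l = 0 := by
  classical
  have h1 := hM.ind s.card (fun i => ((s.equivFin.symm i : Λ) : L)) (fun i => (s.equivFin.symm i : Λ).2)
    (by
      intro i j hij
      exact s.equivFin.symm.injective (Subtype.ext (Subtype.ext hij)))
    (fun i => x (s.equivFin.symm i))
    (by
      rw [← h, ← Finset.sum_coe_sort s (fun l => gr K Λ l.1 • x l)]
      exact Equiv.sum_comp s.equivFin.symm (fun l : s => gr K Λ (l : Λ).1 • x l))
  intro l hl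
  have := h1 (s.equivFin ⟨l, hl⟩)
  simpa using this

theorem exists_ne_of_sd (hM : Ax K Λ M) (h : Superdecomposable (Rr K Λ) M) :
    ∃ b : BM K Λ M, b ≠ 0 := by
  by_contra hcon
  push Not at hcon
  have he : ∀ m : M, ge K Λ • m = 0 := by
    intro m
    rw [← BM.val_mk hM, hcon (BM.mk hM m), BM.val_zero]
  have hr : ∀ l (m : M), gr K Λ l • m = 0 := by
    intro l m
    rw [← hM.re, he, smul_zero]
  obtain ⟨hnt, hd⟩ := h
  obtain ⟨v, hv⟩ := exists_ne (0 : M)
  let _ := kMod K Λ M
  obtain ⟨φ, hφ⟩ : ∃ φ : M →ₗ[K] K, φ v = 1 := by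
    obtain ⟨g, hg⟩ := LinearMap.exists_leftInverse_of_injective (LinearMap.toSpanSingleton K M v)
      (LinearMap.ker_toSpanSingleton K hv)
    refine ⟨g, ?_⟩
    have := LinearMap.congr_fun hg 1
    simpa using this
  let f : M →+ M := 
    { toFun := fun m => φ m • v
      map_zero' := by simp
      map_add' := fun a b => by rw [map_add, add_smul] }
  let π : M →ₗ[Rr K Λ] M := toR f
    (by
      intro a m
      change φ (a • m) • v = a • φ m • v
      rw [map_smul, smul_eq_mul, mul_smul])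
    (by
      intro m
      rw [he, he, map_zero])
    (by
      intro l m
      rw [hr, hr, map_zero])
  have hπ : ∀ m, π m = φ m • v := fun m => rfl
  have hid : IsIdempotentElem π := by
    ext m
    change π (π m) = π m
    rw [hπ (π m), hπ m]
    rw [map_smul, hφ, smul_eq_mul, mul_one]
  have hne : LinearMap.range π ≠ ⊥ := by
    intro hb
    have : π v ∈ LinearMap.range π := ⟨v, rfl⟩
    rw [hb, Submodule.mem_bot, hπ, hφ, one_smul] at this
    exact hv this
  obtain ⟨X₁, X₂, h1, h2, h12, hs⟩ := hd _ _ (LinearMap.IsIdempotentElem.isCompl hid) hne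
  have key : ∀ X' : Submodule (Rr K Λ) M, X' ≤ LinearMap.range π → X' ≠ ⊥ → v ∈ X' := by
    intro X' hle hX'
    obtain ⟨x, hx, hx0⟩ := Submodule.exists_mem_ne_zero_of_ne_bot hX'
    obtain ⟨m, rfl⟩ := hle hx
    rw [hπ] at hx hx0
    have hφm : φ m ≠ 0 := by
      intro h0
      apply hx0
      rw [h0, zero_smul]
    have := X'.smul_mem (gs K Λ (φ m)⁻¹) hx
    have h3 : gs K Λ (φ m)⁻¹ • φ m • v = v := by
      change (φ m)⁻¹ • φ m • v = v
      rw [smul_smul, inv_mul_cancel₀ hφm, one_smul]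
    rwa [h3] at this
  have hv1 := key X₁ (hs ▸ le_sup_left) h1
  have hv2 := key X₂ (hs ▸ le_sup_right) h2
  have : v ∈ X₁ ⊓ X₂ := ⟨hv1, hv2⟩
  rw [h12, Submodule.mem_bot] at this
  exact hv this

/-- Extension of an idempotent endomorphism of `eM` to `M`. -/
private theorem exists_ext (hM : Ax K Λ M) (ε : BM K Λ M →ₗ[K] BM K Λ M)
    (hε : IsHom Λ (M := BM K Λ M) (N := BM K Λ M) ε) (hid : ε ∘ₗ ε = ε) :
    ∃ π : M →ₗ[Rr K Λ] M, IsIdempotentElem π ∧ (∀ b : BM K Λ M, π b.val = (ε b).val) ∧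
      ∀ m, ∃ (b : BM K Λ M) (f : Λ →₀ BM K Λ M),
        π m = b.val + ∑ l ∈ f.support, gr K Λ l.1 • (f l).val := by
  classical
  let _ := kMod K Λ M
  -- the map Φ
  let φ : Λ → (BM K Λ M →ₗ[K] M) := fun l =>
    { toFun := fun b => gr K Λ l.1 • b.val
      map_add' := fun b b' => by rw [BM.val_add, smul_add]
      map_smul' := fun a b => by
        rw [RingHom.id_apply, BM.val_smul]
        change _ = gs K Λ a • gr K Λ l.1 • b.val
        rw [← mul_smul, ← mul_smul]
        congr 1
        exact (Algebra.commutes a (gr K Λ l.1)).symm }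
  let Φ : (Λ →₀ BM K Λ M) →ₗ[K] M := Finsupp.lsum ℕ φ
  have hΦ : ∀ f : Λ →₀ BM K Λ M, Φ f = ∑ l ∈ f.support, gr K Λ l.1 • (f l).val := fun f => rfl
  have hΦs : ∀ (l : Λ) (b : BM K Λ M), Φ (Finsupp.single l b) = gr K Λ l.1 • b.val := by
    intro l b
    change (Finsupp.lsum ℕ φ) (Finsupp.single l b) = _
    rw [Finsupp.lsum_single]
    rfl
  have hk : ∀ f, Φ f = 0 → ∀ l, gr K Λ l.1 • (f l).val = 0 := by
    intro f hf l
    by_cases hl : l ∈ f.support
    · exact ind' hM f.support (fun l => (f l).val) (by rw [← hΦ, hf]) l hl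
    · rw [Finsupp.notMem_support_iff] at hl
      rw [hl, BM.val_zero, smul_zero]
  let E : (Λ →₀ BM K Λ M) →ₗ[K] (Λ →₀ BM K Λ M) := Finsupp.mapRange.linearMap ε
  have hE : ∀ f l, E f l = ε (f l) := fun f l => by
    simp [E]
  have hk2 : ∀ f, Φ f = 0 → Φ (E f) = 0 := by
    intro f hf
    rw [hΦ]
    apply Finset.sum_eq_zero
    intro l _
    rw [hE]
    have h1 := hk f hf l
    have h2 : f l ∈ (BM K Λ M).P l.1 := (BM.mem_P _ _).mpr h1
    exact (BM.mem_P _ _).mp (hε l.1 l.2 _ h2)
  obtain ⟨Ψ, hΨ⟩ : ∃ Ψ : M →ₗ[K] (Λ →₀ BM K Λ M), ∀ f, Φ (Ψ (Φ f)) = Φ f := by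
    obtain ⟨g, hg⟩ := LinearMap.exists_rightInverse_of_surjective Φ.rangeRestrict
      Φ.range_rangeRestrict
    obtain ⟨g', hg'⟩ := LinearMap.exists_extend g
    refine ⟨g', fun f => ?_⟩
    have h1 : g' (Φ f) = g (Φ.rangeRestrict f) := LinearMap.congr_fun hg' (Φ.rangeRestrict f)
    rw [h1]
    have h2 := LinearMap.congr_fun hg (Φ.rangeRestrict f)
    exact congrArg Subtype.val h2
  have hΘ : ∀ f, Φ (E (Ψ (Φ f))) = Φ (E f) := by
    intro f
    have h1 : Φ (Ψ (Φ f) - f) = 0 := by rw [map_sub, hΨ, sub_self]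
    have h2 := hk2 _ h1
    rw [map_sub, map_sub, sub_eq_zero] at h2
    exact h2
  have heΦ : ∀ f, ge K Λ • Φ f = 0 := by
    intro f
    rw [hΦ, Finset.smul_sum]
    exact Finset.sum_eq_zero fun l _ => hM.er _ _
  have hrΦ : ∀ l f, gr K Λ l • Φ f = 0 := by
    intro l f
    rw [← hM.re, heΦ, smul_zero]
  have hgs : ∀ (a : K) (m : M), gs K Λ a • m = a • m := fun _ _ => rfl
  have hmk_add : ∀ m m', BM.mk hM (m + m') = BM.mk hM m + BM.mk hM m' := by
    intro m m'
    apply BM.val_inj
    rw [BM.val_add, BM.val_mk, BM.val_mk, BM.val_mk, smul_add]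
  have hmk_smul : ∀ (a : K) m, BM.mk hM (gs K Λ a • m) = a • BM.mk hM m := by
    intro a m
    apply BM.val_inj
    rw [BM.val_smul, BM.val_mk, BM.val_mk, ← mul_smul, ← mul_smul]
    congr 1
    exact (Algebra.commutes a (ge K Λ)).symm
  let f : M →+ M :=
    { toFun := fun m => (ε (BM.mk hM m)).val + Φ (E (Ψ (m - ge K Λ • m)))
      map_zero' := by
        have h0 : BM.mk hM (0 : M) = 0 := by
          apply BM.val_inj
          rw [BM.val_mk, smul_zero, BM.val_zero]
        rw [h0, smul_zero, sub_zero, map_zero, map_zero, map_zero, map_zero, BM.val_zero, add_zero]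
      map_add' := fun m m' => by
        have h0 : m + m' - ge K Λ • (m + m') = (m - ge K Λ • m) + (m' - ge K Λ • m') := by
          rw [smul_add]; abel
        rw [hmk_add, map_add, BM.val_add, h0, map_add, map_add, map_add]
        abel }
  have hf : ∀ m, f m = (ε (BM.mk hM m)).val + Φ (E (Ψ (m - ge K Λ • m))) := fun m => rfl
  have hmk_e : ∀ m, BM.mk hM (ge K Λ • m) = BM.mk hM m := by
    intro m
    apply BM.val_inj
    rw [BM.val_mk, BM.val_mk, hM.ee]
  have hmk_r : ∀ l m, BM.mk hM (gr K Λ l • m) = 0 := by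
    intro l m
    apply BM.val_inj
    rw [BM.val_mk, hM.er, BM.val_zero]
  let π : M →ₗ[Rr K Λ] M := toR f
    (by
      intro a m
      have h0 : gs K Λ a • m - ge K Λ • gs K Λ a • m = a • (m - ge K Λ • m) := by
        have hc : ge K Λ * gs K Λ a = gs K Λ a * ge K Λ := (Algebra.commutes a (ge K Λ)).symm
        rw [← mul_smul, hc, mul_smul, ← smul_sub]
        rfl
      rw [hf, hf, hmk_smul, map_smul, BM.val_smul, h0, map_smul, map_smul, map_smul, smul_add]
      rfl)
    (by
      intro m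
      rw [hf, hf, hmk_e, hM.ee, sub_self, map_zero, map_zero, map_zero, smul_add, heΦ, BM.e_val])
    (by
      intro l m
      by_cases hl : l ∈ Λ
      · rw [hf, hf, hmk_r, map_zero, BM.val_zero, zero_add, hM.er, sub_zero, smul_add, hrΦ,
          add_zero]
        have h1 : gr K Λ l • m = Φ (Finsupp.single ⟨l, hl⟩ (BM.mk hM m)) := by
          rw [hΦs, BM.val_mk, hM.re]
        rw [h1, hΘ]
        have h2 : E (Finsupp.single ⟨l, hl⟩ (BM.mk hM m)) =
            Finsupp.single ⟨l, hl⟩ (ε (BM.mk hM m)) := by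
          simp [E]
        rw [h2, hΦs]
      · have h0 : gr K Λ l = 0 := by unfold gr; rw [dif_neg hl]
        rw [h0, zero_smul, zero_smul, map_zero])
  have hπ : ∀ m, π m = (ε (BM.mk hM m)).val + Φ (E (Ψ (m - ge K Λ • m))) := fun m => rfl
  refine ⟨π, ?_, ?_, ?_⟩
  · ext m
    change π (π m) = π m
    have h1 : BM.mk hM (π m) = ε (BM.mk hM m) := by
      apply BM.val_inj
      rw [BM.val_mk, hπ, smul_add, heΦ, BM.e_val, add_zero]
    have h2 : π m - ge K Λ • π m = Φ (E (Ψ (m - ge K Λ • m))) := by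
      rw [hπ, smul_add, heΦ, BM.e_val, add_zero]
      abel
    rw [hπ (π m), h1, h2, hΘ]
    have h3 : ε (ε (BM.mk hM m)) = ε (BM.mk hM m) := LinearMap.congr_fun hid _
    have h4 : ∀ g, E (E g) = E g := by
      intro g
      ext l
      rw [hE, hE]
      exact LinearMap.congr_fun hid (g l)
    rw [h3, h4, hπ]
  · intro b
    rw [hπ, BM.mk_val, BM.e_val, sub_self, map_zero, map_zero, map_zero, add_zero]
  · intro m
    exact ⟨ε (BM.mk hM m), E (Ψ (m - ge K Λ • m)), by rw [hπ, hΦ]⟩

theorem sdo_of_sd (hM : Ax K Λ M) (h : Superdecomposable (Rr K Λ) M) :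
    SDO Λ (BM K Λ M) := by
  intro ε hε hid hne
  obtain ⟨π, hπi, hπb, hπf⟩ := exists_ext hM ε hε hid
  have hXne : LinearMap.range π ≠ ⊥ := by
    intro hb
    apply hne
    ext b
    apply BM.val_inj
    rw [← hπb, LinearMap.zero_apply, BM.val_zero]
    have : π b.val ∈ LinearMap.range π := ⟨_, rfl⟩
    rw [hb, Submodule.mem_bot] at this
    exact this
  have hc := LinearMap.IsIdempotentElem.isCompl hπi
  obtain ⟨X₁, X₂, h1, h2, h12, hs⟩ := h.2 _ _ hc hXne
  -- complements
  have hc1 : IsCompl X₁ (X₂ ⊔ LinearMap.ker π) := by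
    constructor
    · rw [Submodule.disjoint_def]
      intro x hx hx'
      obtain ⟨y, hy, z, hz, rfl⟩ := Submodule.mem_sup.mp hx'
      have hyX : y ∈ LinearMap.range π := hs ▸ Submodule.mem_sup_right hy
      have hxX : y + z ∈ LinearMap.range π := hs ▸ Submodule.mem_sup_left hx
      have hzX : z ∈ LinearMap.range π := by
        have := Submodule.sub_mem _ hxX hyX
        rwa [add_sub_cancel_left] at this
      have hz0 : z = 0 := by
        have := hc.disjoint
        rw [Submodule.disjoint_def] at this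
        exact this z hzX hz
      rw [hz0, add_zero] at hx ⊢
      have : y ∈ X₁ ⊓ X₂ := ⟨hx, hy⟩
      rwa [h12, Submodule.mem_bot] at this
    · rw [codisjoint_iff, ← sup_assoc, hs, hc.sup_eq_top]
  have hc2 : IsCompl X₂ (X₁ ⊔ LinearMap.ker π) := by
    constructor
    · rw [Submodule.disjoint_def]
      intro x hx hx'
      obtain ⟨y, hy, z, hz, rfl⟩ := Submodule.mem_sup.mp hx'
      have hyX : y ∈ LinearMap.range π := hs ▸ Submodule.mem_sup_left hy
      have hxX : y + z ∈ LinearMap.range π := hs ▸ Submodule.mem_sup_right hx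
      have hzX : z ∈ LinearMap.range π := by
        have := Submodule.sub_mem _ hxX hyX
        rwa [add_sub_cancel_left] at this
      have hz0 : z = 0 := by
        have := hc.disjoint
        rw [Submodule.disjoint_def] at this
        exact this z hzX hz
      rw [hz0, add_zero] at hx ⊢
      have : y ∈ X₁ ⊓ X₂ := ⟨hy, hx⟩
      rwa [h12, Submodule.mem_bot] at this
    · rw [codisjoint_iff, ← sup_assoc, sup_comm X₂ X₁, hs, hc.sup_eq_top]
  -- abstract form of the projections
  have proj : ∀ U V : Submodule (Rr K Λ) M, IsCompl U V → ∃ p : M →ₗ[Rr K Λ] M,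
      (∀ x ∈ U, p x = x) ∧ ∀ x ∈ V, p x = 0 := by
    intro U V hUV
    refine ⟨U.subtype ∘ₗ U.projectionOnto V hUV, ?_, ?_⟩
    · intro x hx
      exact congrArg Subtype.val (Submodule.projectionOnto_apply_left hUV ⟨x, hx⟩)
    · intro x hx
      have := (Submodule.projectionOnto_apply_eq_zero_iff hUV (x := x)).mpr hx
      rw [LinearMap.comp_apply, this, map_zero]
  obtain ⟨p₁, hp1, hp1'⟩ := proj _ _ hc1
  obtain ⟨p₂, hp2, hp2'⟩ := proj _ _ hc2
  -- decomposition of an element
  have dec : ∀ m : M, ∃ x ∈ X₁, ∃ y ∈ X₂, π m = x + y ∧ p₁ m = x ∧ p₂ m = y := by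
    intro m
    have hm : π m ∈ LinearMap.range π := ⟨m, rfl⟩
    rw [← hs] at hm
    obtain ⟨x, hx, y, hy, hxy⟩ := Submodule.mem_sup.mp hm
    have hk : m - π m ∈ LinearMap.ker π := by
      rw [LinearMap.mem_ker, map_sub, sub_eq_zero]
      exact (LinearMap.congr_fun hπi m).symm
    have hm' : m = x + y + (m - π m) := by rw [hxy]; abel
    refine ⟨x, hx, y, hy, hxy.symm, ?_, ?_⟩
    · conv_lhs => rw [hm']
      rw [map_add, map_add, hp1 x hx, hp1' y (Submodule.mem_sup_left hy),
        hp1' _ (Submodule.mem_sup_right hk), add_zero, add_zero]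
    · conv_lhs => rw [hm']
      rw [map_add, map_add, hp2 y hy, hp2' x (Submodule.mem_sup_left hx),
        hp2' _ (Submodule.mem_sup_right hk), add_zero, zero_add]
  have hp11 : ∀ m, p₁ (p₁ m) = p₁ m := by
    intro m
    obtain ⟨x, hx, y, hy, _, h3, h4⟩ := dec m
    rw [h3, hp1 x hx]
  have hp22 : ∀ m, p₂ (p₂ m) = p₂ m := by
    intro m
    obtain ⟨x, hx, y, hy, _, h3, h4⟩ := dec m
    rw [h4, hp2 y hy]
  have hp12 : ∀ m, p₁ (p₂ m) = 0 := by
    intro m
    obtain ⟨x, hx, y, hy, _, h3, h4⟩ := dec m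
    rw [h4, hp1' y (Submodule.mem_sup_left hy)]
  have hp21 : ∀ m, p₂ (p₁ m) = 0 := by
    intro m
    obtain ⟨x, hx, y, hy, _, h3, h4⟩ := dec m
    rw [h3, hp2' x (Submodule.mem_sup_left hx)]
  have hsum : ∀ m, p₁ m + p₂ m = π m := by
    intro m
    obtain ⟨x, hx, y, hy, h5, h3, h4⟩ := dec m
    rw [h3, h4, h5]
  -- non-vanishing
  have nz : ∀ (U : Submodule (Rr K Λ) M) (p : M →ₗ[Rr K Λ] M), U ≠ ⊥ →
      U ≤ LinearMap.range π → (∀ x ∈ U, p x = x) → resB hM p ≠ 0 := by
    intro U p hU hUX hp h0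
    obtain ⟨x, hx, hx0⟩ := Submodule.exists_mem_ne_zero_of_ne_bot hU
    have hv : ∀ b : BM K Λ M, p b.val = 0 := by
      intro b
      rw [← resB_val hM, h0, LinearMap.zero_apply, BM.val_zero]
    obtain ⟨m, hm⟩ := hUX hx
    obtain ⟨b, f, hbf⟩ := hπf m
    apply hx0
    rw [← hp x hx, ← hm, hbf, map_add, hv, zero_add, map_sum]
    apply Finset.sum_eq_zero
    intro l _
    rw [map_smul, hv, smul_zero]
  refine ⟨resB hM p₁, resB hM p₂, resB_hom hM p₁, resB_hom hM p₂, ?_, ?_,
    nz X₁ p₁ h1 (hs ▸ le_sup_left) hp1, nz X₂ p₂ h2 (hs ▸ le_sup_right) hp2, ?_, ?_, ?_⟩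
  · refine LinearMap.ext fun b => BM.val_inj ?_
    rw [LinearMap.comp_apply, resB_val, resB_val, hp11]
  · refine LinearMap.ext fun b => BM.val_inj ?_
    rw [LinearMap.comp_apply, resB_val, resB_val, hp22]
  · refine LinearMap.ext fun b => BM.val_inj ?_
    rw [LinearMap.comp_apply, resB_val, resB_val, hp12, LinearMap.zero_apply, BM.val_zero]
  · refine LinearMap.ext fun b => BM.val_inj ?_
    rw [LinearMap.comp_apply, resB_val, resB_val, hp21, LinearMap.zero_apply, BM.val_zero]
  · refine LinearMap.ext fun b => BM.val_inj ?_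
    rw [LinearMap.add_apply, BM.val_add, resB_val, resB_val, hsum, hπb]

end Pool.Agent.Helper13.SDW
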