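import Pool.Agent.Helper13.SDW.Wd2
import Pool.Agent.Helper13.SDW.Md3
import Pool.Agent.Helper13.SDW.Md4
import Pool.Agent.Helper13.SDW.Md5
import Pool.Agent.Helper13.SDW.MainAbs

/-!
# The final theorem (assembly)
-/

namespace Pool.Agent.Helper13.SDW

open Pool.Agent.H35SD Pool.Agent.Helper56.NB

universe u

theorem final (K : Type u) [Field K] :
    ∃ (S : Type u) (_ : Ring S) (_ : Algebra K S) (X : Set (Σ m : ℕ, PPN S m × PPN S m)),
      (∃ P : Set (PPN S 1), Cat.IsWide X P) ∧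
      ∀ (N : Type u) [AddCommGroup N] [Module S N], Cat.Mem X N → PureInjective S N →
        ¬ Superdecomposable S N := by
  refine ⟨Rr K (LamC K), inferInstance, inferInstance, XC K, ⟨_, wide⟩, ?_⟩
  intro N _ _ hN hpi hsd
  obtain ⟨hAx, hSq⟩ := (mem_XX (SqC K)).1 hN
  obtain ⟨b, hb⟩ := exists_ne_of_sd hAx hsd
  exact main_abs (mod_of_sq hSq) (ac_of_algComp hAx (algComp_of_pureInjective hpi))
    (sdo_of_sd hAx hsd) hb

end Pool.Agent.Helper13.SDW
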