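import Pool.Agent.Helper13.SDW.NiceB2

/-!
# Good types (definitions)

`A`, `E` are families of unary formulas. For GOOD take `A = U_m`, `E = Z_l`; for DIC_l take the
constant families `A = Z_{l+1}`, `E = D_l` (Lean numbering: `S.D s l` is `D_{l+1}` of the README).
-/

namespace Pool.Agent.Helper13.SDW

universe u

variable {K : Type u} [Field K] (S : Sys K)

/-- `W ≤ E_l` in `CC_T` for some `l`. -/
def Sys.Small (T : Set S.Tp) (E : ℕ → SF1 K S.L) (W : SF1 K S.L) : Prop :=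
  ∃ l, S.LeC T W (E l)

/-- `V_s ∩ A_m ≤ W + E_l` in `CC_T` for some `m, l`. -/
def Sys.Large (T : Set S.Tp) (s : S.Tp) (A E : ℕ → SF1 K S.L) (W : SF1 K S.L) : Prop :=
  ∃ m l, ∀ M : Obj K S.L, S.CC T M → ∀ x ∈ M.P (.inr s), A m M x →
    ∃ w z, W M w ∧ E l M z ∧ x = w + z

/-- The dichotomy: all `W ≤ V_s` over `T` are small or large. -/
def Sys.Dich (T : Set S.Tp) (s : S.Tp) (A E : ℕ → SF1 K S.L) : Prop :=
  ∀ W : SF1 K S.L, Def1 (S.lab T) W → (∀ M : Obj K S.L, S.CC T M → ∀ x, W M x →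
    x ∈ M.P (.inr s)) → S.Small T E W ∨ S.Large T s A E W

/-- The property `H`: relations `Θ ⊆ P_a × V_s` over `T`, total on `P_a`, with `Θ(0)` small, have
small image. -/
def Sys.HP (T : Set S.Tp) (s : S.Tp) (E : ℕ → SF1 K S.L) : Prop :=
  ∀ (a : S.Nd) (Θ : SF2 K S.L), Def2 (S.lab T) Θ →
    (∀ M : Obj K S.L, S.CC T M → ∀ x y, Θ M x y → x ∈ M.P (.inl a) ∧ y ∈ M.P (.inr s)) →
    (∀ M : Obj K S.L, S.CC T M → ∀ x ∈ M.P (.inl a), ∃ y, Θ M x y) →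
    (∃ l, ∀ M : Obj K S.L, S.CC T M → ∀ y, Θ M 0 y → E l M y) →
    ∃ l, ∀ M : Obj K S.L, S.CC T M → ∀ x y, Θ M x y → E l M y

/-- The assumptions on the family `E` for the type `s`. -/
structure EFam (B : S.Tp → Set S.Tp) (s : S.Tp) (A E : ℕ → SF1 K S.L) : Prop where
  defA : ∀ m, Def1 (S.lab (B s)) (A m)
  defE : ∀ l, Def1 (S.lab (B s)) (E l)
  mono : ∀ l l', l ≤ l' → S.LeF (B s) (E l) (E l')
  /-- each rule has small formulas or `A_m ≤ Y_r` -/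
  rule : ∀ r, (∃ l, S.LeF (B s) (S.X s r).S1 (E l) ∧ S.LeF (B s) (S.Y s r).S1 (E l)) ∨
    ∃ m, S.LeF (B s) (A m) (S.Y s r).S1

/-- `W₁ = {a(y) : y ∈ G_Y, y_r(y) ∈ V_σ}`. -/
def W1 (σ : S.Tp) (r : Rl) (a : Fin (S.Y σ r).n → K) : SF1 K S.L := fun M w =>
  ∃ y : Fin (S.Y σ r).n → M, (S.Y σ r).toPre.Hom M y ∧
    lin ((S.Y σ r).out ()) y ∈ M.P (.inr σ) ∧ w = lin a y

/-- `W₂ = {a(y) : y ∈ G_Y}`. -/
def W2 (σ : S.Tp) (r : Rl) (a : Fin (S.Y σ r).n → K) : SF1 K S.L := fun M w =>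
  ∃ y : Fin (S.Y σ r).n → M, (S.Y σ r).toPre.Hom M y ∧ w = lin a y

/-- The families of `GOOD_s`. -/
def gA (s : S.Tp) : ℕ → SF1 K S.L := fun m => (S.U s m).S1
def gE (s : S.Tp) : ℕ → SF1 K S.L := fun l => (S.Z s l).S1

/-- The families of `DIC_{s,l}`. -/
def dA (s : S.Tp) (l : ℕ) : ℕ → SF1 K S.L := fun _ => (S.Z s (l + 1)).S1
def dE (s : S.Tp) (l : ℕ) : ℕ → SF1 K S.L := fun _ => (S.D s l).S1

/-- `GOOD`, `DIC` and `H` for `T`. -/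
structure Sys.AllGood (T : Set S.Tp) : Prop where
  good : ∀ s ∈ T, S.Dich T s (gA S s) (gE S s)
  dic : ∀ s ∈ T, ∀ l, S.Dich T s (dA S s l) (dE S s l)
  hp : ∀ s ∈ T, ∀ l, S.HP T s (dE S s l)

end Pool.Agent.Helper13.SDW
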