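import Pool.Agent.Helper13.SDW.GDefs

/-!
# BLOCK SDW-KEY: the key lemma (about 200 lines)

`σ ∈ T`, `s ∈ B σ`, `r` a rule of `σ`, `a` a linear form on `G_Y` (`Y = Y_r`) in the span of the
`V_s`-conditions of `G_Y`, so `W₂ ≤ V_s` in all structures with `NodeOK` (`Pf.mem_P`). `CC_T ⊆ CC_{B σ}`
(`cc_mono`), `FF_T ⊆ FF_{B σ} ⊆ FF_{B s}`.

Proof of `key`. Let `W₁` be not large in `CC_T`.
(0) If `W` is over `B σ`, `W ≤ V_s` in `CC_{B σ}`, and `W ≤ W₁ + E_l` in `CC_T`, then `W` is small in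
    `CC_{B σ}`: by `hD` it is small or large in `CC_{B σ}`; if it is large, `V_s ∩ A_m ≤ W + E_l'` in
    `CC_{B σ}`, hence in `CC_T`, so `V_s ∩ A_m ≤ W₁ + E_l + E_l' ≤ W₁ + E_{max l l'}`, contradiction.
(1) `Φ(y', w) := ∃ y ∈ G_Y, y' = y_r(y), w = a(y)`, over `B σ`, `Φ ⊆ Y × V_s`, total on `Y`.
    For a formula `F` let `Φ(F) = {w : ∃ y', F(y') ∧ Φ(y', w)}`. `Φ(0) ≤ W₁` is small by (0).
(2) If `F₀ ≤ F₁ ≤ Y` in `FF_{B σ}` are over `B σ`, `Rep (B σ) F₀ F₁` holds with `Ψ` and `Φ(F₀)` is small in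
    `CC_{B σ}`, then `Φ(F₁)` is small in `CC_{B σ}`: by `hH` for
    `Θ(x, w) := ∃ y', Ψ(x, y') ∧ Φ(y', w)`: `Θ(0) ≤ Φ(F₀)`, `Θ` is total on `P_a` as `Ψ(P_a) = F₁ ≤ Y`.
(3) `Φ(Z_j)` is small for all `j` with `Z_j ≤ Y`, by induction on `j`: `Z_0 = 0`. `D_j ≤ (V_σ ∩ D_j) + Z_j` in
    `FF_T` (the rule `d j`: `x = v + z`, `z ∈ Z_j ≤ D_j`), and `Φ(v) ⊆ W₁` for `v ∈ V_σ ∩ Y`; so
    `Φ(D_j) ≤ W₁ + Φ(Z_j) ≤ W₁ + E_l` is small by (0), and `Φ(Z_{j+1})` by (2), `h.c3`.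
    Here `D_j ≤ Z_{j+1} ≤ Y`.
(4) `Y = Z_q` (`r = d q`): (3) for `j = q`. `Y = U_n` (`r = u n`): `Z_n ≤ U_n`, (3) for `j = n`, then (2) with `h.c4`.
(5) `W₂ = Φ(Y)`.
-/

namespace Pool.Agent.Helper13.SDW

universe u

variable {K : Type u} [Field K] {S : Sys K} {G : Set S.Tp} {B : S.Tp → Set S.Tp}

/-- The relation `{(y_r(y), a(y)) : y ∈ G_Y}`. -/
def keyPhi52 (σ : S.Tp) (r : Rl) (a : Fin (S.Y σ r).n → K) : SF2 K S.L := fun M y' w =>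
  ∃ y : Fin (S.Y σ r).n → M, (S.Y σ r).toPre.Hom M y ∧ y' = lin ((S.Y σ r).out ()) y ∧
    w = lin a y

/-- The image of a formula under a relation. -/
def app52 (F : SF1 K S.L) (Φ : SF2 K S.L) : SF1 K S.L := fun M w => ∃ y', F M y' ∧ Φ M y' w

theorem Def1.app52 {Λ : Set S.L} {F : SF1 K S.L} {Φ : SF2 K S.L} (hF : Def1 Λ F)
    (hΦ : Def2 Λ Φ) : Def1 Λ (app52 F Φ) := by
  have h1 : IsDef Λ (fun (M : Obj K S.L) (w : Unit ⊕ Unit → M) =>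
      F M (w (.inr ())) ∧ Φ M (w (.inr ())) (w (.inl ()))) := by
    refine ((IsDef.subst (κ := Unit ⊕ Unit) hF (fun _ => fone (.inr ()))).and
      (IsDef.subst (κ := Unit ⊕ Unit) hΦ (![fone (.inr ()), fone (.inl ())]))).congr
      fun M w => ?_
    simp only [lin_fone, Matrix.cons_val_zero, Matrix.cons_val_one]
  refine (IsDef.ex' (κ := Unit) (κ' := Unit) (fun M y z => F M (z ()) ∧ Φ M (z ()) (y ()))
    h1).congr fun M y => ?_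
  constructor
  · rintro ⟨z, hz⟩
    exact ⟨z (), hz⟩
  · rintro ⟨z, hz⟩
    exact ⟨fun _ => z, hz⟩

theorem Def2.comp52 {Λ : Set S.L} {Ψ Φ : SF2 K S.L} (hΨ : Def2 Λ Ψ) (hΦ : Def2 Λ Φ) :
    Def2 Λ (fun M x w => ∃ y', Ψ M x y' ∧ Φ M y' w) := by
  have h1 : IsDef Λ (fun (M : Obj K S.L) (w : Fin 2 ⊕ Unit → M) =>
      Ψ M (w (.inl 0)) (w (.inr ())) ∧ Φ M (w (.inr ())) (w (.inl 1))) := by
    refine ((IsDef.subst (κ := Fin 2 ⊕ Unit) hΨ (![fone (.inl 0), fone (.inr ())])).and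
      (IsDef.subst (κ := Fin 2 ⊕ Unit) hΦ (![fone (.inr ()), fone (.inl 1)]))).congr
      fun M w => ?_
    simp only [lin_fone, Matrix.cons_val_zero, Matrix.cons_val_one]
  refine (IsDef.ex' (κ := Fin 2) (κ' := Unit)
    (fun M y z => Ψ M (y 0) (z ()) ∧ Φ M (z ()) (y 1)) h1).congr fun M y => ?_
  constructor
  · rintro ⟨z, hz⟩
    exact ⟨z (), hz⟩
  · rintro ⟨z, hz⟩
    exact ⟨fun _ => z, hz⟩

theorem keyPhi52_def (h : S.OK G B) {σ : S.Tp} (hσ : σ ∈ G) (r : Rl)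
    (a : Fin (S.Y σ r).n → K) : Def2 (S.lab (B σ)) (keyPhi52 σ r a) := by
  refine (IsDef.fm (κ := Fin 2) ⟨(S.Y σ r).toPre, ![(S.Y σ r).out (), a]⟩
    (h.labY hσ r)).congr fun M y => ?_
  constructor
  · rintro ⟨x, hx, hy⟩
    exact ⟨x, hx, hy 0, hy 1⟩
  · rintro ⟨x, hx, hy0, hy1⟩
    refine ⟨x, hx, fun k => ?_⟩
    fin_cases k
    · exact hy0
    · exact hy1

theorem Def1.add52 {Λ : Set S.L} {F : SF1 K S.L} (hF : Def1 Λ F) {M : Obj K S.L} {x y : M}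
    (hx : F M x) (hy : F M y) : F M (x + y) :=
  IsDef.add_mem hF (y := fun _ => x) (z := fun _ => y) hx hy

theorem Def1.zero52 {Λ : Set S.L} {F : SF1 K S.L} (hF : Def1 Λ F) (M : Obj K S.L) : F M 0 :=
  IsDef.zero_mem hF M

theorem Def2.sub52 {Λ : Set S.L} {F : SF2 K S.L} (hF : Def2 Λ F) {M : Obj K S.L}
    {x y x' y' : M} (h : F M x y) (h' : F M x' y') : F M (x - x') (y - y') := by
  have h1 := IsDef.sub_mem hF (M := M) (y := ![x, y]) (z := ![x', y']) h h'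
  exact h1

/-- Step (0). -/
theorem key0 (h : S.OK G B) {T : Set S.Tp} (hT : S.Down G B T) {σ : S.Tp} (hσ : σ ∈ T)
    {s : S.Tp} (hs : s ∈ B σ) {A E : ℕ → SF1 K S.L} (hE : EFam S B s A E)
    (hD : S.Dich (B σ) s A E) {W' : SF1 K S.L} (hW : ¬ S.Large T s A E W')
    {W : SF1 K S.L} (hWd : Def1 (S.lab (B σ)) W)
    (hWV : ∀ M : Obj K S.L, S.CC (B σ) M → ∀ x, W M x → x ∈ M.P (.inr s))
    (hWW : ∃ l, ∀ M : Obj K S.L, S.CC T M → ∀ x, W M x → ∃ w z, W' M w ∧ E l M z ∧ x = w + z) :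
    S.Small (B σ) E W := by
  rcases hD W hWd hWV with h1 | ⟨m, l', hl'⟩
  · exact h1
  · exfalso
    obtain ⟨l, hl⟩ := hWW
    refine hW ⟨m, max l l', fun M hM x hx hA => ?_⟩
    obtain ⟨w, z, hw, hz, rfl⟩ := hl' M (h.cc_mono (h.down_B (hT.1 hσ)) hT (hT.2 σ hσ) hM) x hx hA
    obtain ⟨w1, z1, hw1, hz1, rfl⟩ := hl M hM w hw
    have hFF : S.FF (B s) M := hM.ff.mono ((h.trans σ (hT.1 hσ) s hs).trans (hT.2 σ hσ))
    refine ⟨w1, z1 + z, hw1, (hE.defE (max l l')).add52 ?_ ?_, add_assoc _ _ _⟩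
    · exact hE.mono l _ (le_max_left _ _) M hFF z1 hz1
    · exact hE.mono l' _ (le_max_right _ _) M hFF z hz

/-- Step (2). -/
theorem key2 (h : S.OK G B) {T : Set S.Tp} (hT : S.Down G B T) {σ : S.Tp} (hσ : σ ∈ T)
    {s : S.Tp} {E : ℕ → SF1 K S.L} (hH : S.HP (B σ) s E) (r : Rl)
    {a : Fin (S.Y σ r).n → K} (ha : a ∈ Pf S (S.Y σ r).toPre (.inr s)) {F₀ F₁ : SF1 K S.L}
    (hF : S.LeF (B σ) F₁ (S.Y σ r).S1) (hR : S.Rep (B σ) F₀ F₁)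
    (hsm : S.Small (B σ) E (app52 F₀ (keyPhi52 σ r a))) :
    S.Small (B σ) E (app52 F₁ (keyPhi52 σ r a)) := by
  obtain ⟨a', Ψ, hΨ, hΨM⟩ := hR
  obtain ⟨l₀, hl₀⟩ := hsm
  obtain ⟨l, hl⟩ := hH a' (fun M x w => ∃ y', Ψ M x y' ∧ keyPhi52 σ r a M y' w)
    (hΨ.comp52 (keyPhi52_def h (hT.1 hσ) r a))
    (fun M hM x w => by
      rintro ⟨y', hy', y, hy, -, rfl⟩
      exact ⟨((hΨM M hM.ff).1 x y' hy').1, Pf.mem_P hM.ff.toNodeOK hy ha⟩)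
    (fun M hM x hx => by
      obtain ⟨y', hy'⟩ := (hΨM M hM.ff).2.1 x hx
      obtain ⟨y, hy, hyy⟩ := hF M hM.ff y' ((hΨM M hM.ff).1 x y' hy').2
      exact ⟨lin a y, y', hy', y, hy, hyy (), rfl⟩)
    ⟨l₀, fun M hM w => by
      rintro ⟨y', hy', hw⟩
      exact hl₀ M hM w ⟨y', (hΨM M hM.ff).2.2.1 y' hy', hw⟩⟩
  refine ⟨l, fun M hM w => ?_⟩
  rintro ⟨y', hy', hw⟩
  obtain ⟨x, hx⟩ := (hΨM M hM.ff).2.2.2 y' hy'
  exact hl M hM x w ⟨y', hx, hw⟩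

/-- Step (3). -/
theorem key3 (h : S.OK G B) {T : Set S.Tp} (hT : S.Down G B T) {σ : S.Tp} (hσ : σ ∈ T)
    {s : S.Tp} (hs : s ∈ B σ) {A E : ℕ → SF1 K S.L} (hE : EFam S B s A E)
    (hD : S.Dich (B σ) s A E) (hH : S.HP (B σ) s E) (r : Rl) {a : Fin (S.Y σ r).n → K}
    (ha : a ∈ Pf S (S.Y σ r).toPre (.inr s)) (hW : ¬ S.Large T s A E (W1 S σ r a)) (j : ℕ)
    (hj : S.LeF (B σ) (S.Z σ j).S1 (S.Y σ r).S1) :
    S.Small (B σ) E (app52 (S.Z σ j).S1 (keyPhi52 σ r a)) := by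
  have hσG : σ ∈ G := hT.1 hσ
  have hdef1 : ∀ F : SF1 K S.L, Def1 (S.lab (B σ)) F →
      Def1 (S.lab (B σ)) (app52 F (keyPhi52 σ r a)) :=
    fun F hF => hF.app52 (keyPhi52_def h hσG r a)
  have hV : ∀ (F : SF1 K S.L) (M : Obj K S.L), S.CC (B σ) M → ∀ x,
      app52 F (keyPhi52 σ r a) M x → x ∈ M.P (.inr s) := by
    rintro F M hM x ⟨y', -, y, hy, -, rfl⟩
    exact Pf.mem_P hM.ff.toNodeOK hy ha
  have hZd : ∀ j, Def1 (S.lab (B σ)) (S.Z σ j).S1 := fun j =>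
    (IsDef.fm (S.Z σ j) (h.labZ σ hσG j)).congr fun M y => Iff.rfl
  have hDd : ∀ j, Def1 (S.lab (B σ)) (S.D σ j).S1 := fun j =>
    (IsDef.fm (S.D σ j) (h.labD σ hσG j)).congr fun M y => Iff.rfl
  induction j with
  | zero =>
    refine key0 h hT hσ hs hE hD hW (hdef1 _ (hZd 0)) (hV _) ⟨0, fun M hM x => ?_⟩
    rintro ⟨y', hy', y, hy, hyy, rfl⟩
    have h0 : y' = 0 := h.Z0 σ hσG M (hM.ff.mono (hT.2 σ hσ)) y' hy'
    refine ⟨lin a y, 0, ⟨y, hy, ?_, rfl⟩, (hE.defE 0).zero52 M, (add_zero _).symm⟩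
    rw [← hyy, h0]
    exact (M.P _).zero_mem
  | succ j ih =>
    have hZD := h.ZD σ hσG j
    have hDZ := h.DZ σ hσG j
    have hDY : S.LeF (B σ) (S.D σ j).S1 (S.Y σ r).S1 := fun M hM x hx => hj M hM x (hDZ M hM x hx)
    obtain ⟨l, hl⟩ := ih fun M hM x hx => hDY M hM x (hZD M hM x hx)
    refine key2 h hT hσ hH r ha hj (h.c3 σ hσG j) ?_
    refine key0 h hT hσ hs hE hD hW (hdef1 _ (hDd j)) (hV _) ⟨l, fun M hM x => ?_⟩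
    rintro ⟨y', hy', hx⟩
    have hFF : S.FF (B σ) M := hM.ff.mono (hT.2 σ hσ)
    obtain ⟨v, hv, z, hz, hyz⟩ := hM.ff.dens σ hσ (.d j) y' hy'
    obtain ⟨y, hy, hzy⟩ := hDY M hFF z (hZD M hFF z hz)
    have h1 : keyPhi52 σ r a M z (lin a y) := ⟨y, hy, hzy (), rfl⟩
    obtain ⟨y₂, hy₂, hy₂', hy₂''⟩ := (keyPhi52_def h hσG r a).sub52 hx h1
    refine ⟨x - lin a y, lin a y, ⟨y₂, hy₂, ?_, hy₂''⟩, ?_, (sub_add_cancel _ _).symm⟩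
    · rw [← hy₂', hyz, add_sub_cancel_right]
      exact hv
    · exact hl M (h.cc_mono (h.down_B hσG) hT (hT.2 σ hσ) hM) _ ⟨z, hz, h1⟩

theorem key (h : S.OK G B) {T : Set S.Tp} (hT : S.Down G B T) {σ : S.Tp} (hσ : σ ∈ T)
    {s : S.Tp} (hs : s ∈ B σ) {A E : ℕ → SF1 K S.L} (hE : EFam S B s A E)
    (hD : S.Dich (B σ) s A E) (hH : S.HP (B σ) s E) (r : Rl) {a : Fin (S.Y σ r).n → K}
    (ha : a ∈ Pf S (S.Y σ r).toPre (.inr s)) (hW : ¬ S.Large T s A E (W1 S σ r a)) :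
    S.Small T E (W2 S σ r a) := by
  have hσG : σ ∈ G := hT.1 hσ
  have hfin : S.Small (B σ) E (app52 (S.Y σ r).S1 (keyPhi52 σ r a)) := by
    cases r with
    | u n =>
      exact key2 h hT hσ hH (.u n) ha (fun M _ x hx => hx) (h.c4 σ hσG n)
        (key3 h hT hσ hs hE hD hH (.u n) ha hW n (h.ZU σ hσG n n))
    | d q => exact key3 h hT hσ hs hE hD hH (.d q) ha hW q (fun M _ x hx => hx)
  obtain ⟨l, hl⟩ := hfin
  refine ⟨l, fun M hM w => ?_⟩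
  rintro ⟨y, hy, rfl⟩
  exact hl M (h.cc_mono (h.down_B hσG) hT (hT.2 σ hσ) hM) _
    ⟨lin ((S.Y σ r).out ()) y, ⟨y, hy, fun _ => rfl⟩, y, hy, rfl, rfl⟩

end Pool.Agent.Helper13.SDW
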