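import Pool.Agent.Helper13.SDW.Cons

/-!
# Nice formulas (definitions)
-/

namespace Pool.Agent.Helper13.SDW

universe u

variable {K : Type u} [Field K] (S : Sys K)

/-- `F` is given on `CC_T` by a cofibrant formula over `T`. -/
def Sys.NiceF (T : Set S.Tp) {κ : Type} (F : SF K S.L κ) : Prop :=
  ∃ χ : Fm K S.L κ, (∀ q ∈ χ.c, q.1 ∈ S.lab T) ∧ S.CofP T χ.toPre ∧
    ∀ M : Obj K S.L, S.CC T M → ∀ y : κ → M, F M y ↔ χ.Sat M y

/-- All formulas over `T` are nice. -/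
def Sys.Nice (T : Set S.Tp) : Prop :=
  ∀ (κ : Type) [Fintype κ] (F : SF K S.L κ), IsDef (S.lab T) F → S.NiceF T F

/-- `ρ ⊗ φ = {ρ x : x ∈ φ}`. -/
def tens {L : Type u} {κ : Type} (ρ : κ → K) (φ : SF1 K L) : SF K L κ :=
  fun M y => ∃ x, φ M x ∧ ∀ k, y k = ρ k • x

/-- The sum of two formulas. -/
def sumF {L : Type u} {κ : Type} (F H : SF K L κ) : SF K L κ :=
  fun M y => ∃ a b, F M a ∧ H M b ∧ ∀ k, y k = a k + b k

/-- `(ρ, r)` is legal for `R`: `ρ ⊗ Y_r ≤ R` in `FF_T`. -/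
def Sys.Legal (T : Set S.Tp) (τ : S.Tp) {κ : Type} (R : SF K S.L κ) (ρ : κ → K)
    (r : Rl) : Prop :=
  ∀ M : Obj K S.L, S.FF T M → ∀ y : M, (S.Y τ r).S1 M y → R M (fun k => ρ k • y)

/-- The formulas which are reached from `P` by adding `ρ ⊗ X_r` for legal pairs, `r ≠ u_0`. -/
inductive Sys.Reach (T : Set S.Tp) (τ : S.Tp) {κ : Type} (P : SF K S.L κ) :
    SF K S.L κ → Prop
  | base : Sys.Reach T τ P P
  | step {R : SF K S.L κ} (ρ : κ → K) (r : Rl) : Sys.Reach T τ P R → S.Legal T τ R ρ r →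
      r ≠ .u 0 → Sys.Reach T τ P (sumF R (tens ρ (S.X τ r).S1))

/-- The finiteness condition for adding the type `τ` to `T`. -/
def Sys.FC (T : Set S.Tp) (τ : S.Tp) : Prop :=
  ∀ (κ : Type) [Fintype κ] (P : SF K S.L κ), IsDef (S.lab T) P →
    ∃ C, S.Reach T τ P C ∧
      (∀ ρ r, S.Legal T τ C ρ r → ∀ M : Obj K S.L, S.FF T M → ∀ x : M,
        (S.X τ r).S1 M x → C M (fun k => ρ k • x)) ∧
      ∃ l₀ : ℕ, ∀ l, l₀ ≤ l → ∀ ρ, S.Legal T τ C ρ (.d l) →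
        (∀ M : Obj K S.L, S.FF T M → ∀ x : M, (S.U τ 0).S1 M x → C M (fun k => ρ k • x)) ∨
        ∀ M : Obj K S.L, S.FF T M → ∀ x : M, (S.D τ l).S1 M x → x = 0

/-- `V_τ^κ ∩ R`. -/
def Sys.VkF (τ : S.Tp) {κ : Type} (R : SF K S.L κ) : SF K S.L κ :=
  fun M y => (∀ k, y k ∈ M.P (.inr τ)) ∧ R M y

end Pool.Agent.Helper13.SDW
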