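import Pool.Agent.Helper13.SDW.Dual
import Pool.Agent.Helper13.SDW.NiceDefs

/-!
# BLOCK SDW-MOD: `B.dual` for `B` in `Mod` (about 120 lines)

* `Mod.ff`: the sequents `⊤ ≤ P_root`, `P_a ≤ P_{par a}`, `X_r ≤ V_τ + Y_r` (`τ ∈ T`) are over `T` and valid in `CC_T`.
* `Mod.mono`: `T' ⊆ T` both downward closed: a sequent over `T'` valid in `CC_T'` is over `T` and valid in
  `CC_T ⊆ CC_T'` (`cc_mono`).
* `Mod.le1`: the unary version.
* `uniform_lemma`: by `hNU` for `φ = V_s ∩ A_0` (not killed by `hA 0`) there are `ψ₁, ψ₂ ≤ φ`. Each `ψ_i` is over `T`, `≤ V_s`; by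
  `hD` it is small or large. Small: `ψ_i ≤ E_l` in `CC_T`, so `ψ_i ≤ V_s ∩ E_l`, which is killed: contradiction. Large:
  `V_s ∩ A_{m_i} ≤ ψ_i + E_{l_i}`, so `V_s ∩ A_m ≤ ψ_i + (V_s ∩ E_l)`, `m = max`, `l = max` (`A` decreasing, `E` increasing;
  the difference of two elements of `V_s` is in `V_s`). Let `χ = V_s ∩ E_l`, killed. For `v ∈ V_s ∩ A_m`: `v = w + c`,
  `w ∈ ψ₁`, `c ∈ χ`, and `w = v - c ∈ ψ₂ + χ`; so `V_s ∩ A_m ≤ (ψ₁ ∩ (ψ₂ + χ)) + χ` is killed by `g`, against `hA m`.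
  (All inclusions are valid in `CC_T`, hence in `B.dual` by `Mod`.)
-/

namespace Pool.Agent.Helper13.SDW

universe u

variable {K : Type u} [Field K] {S : Sys K} {G : Set S.Tp} {Bl : S.Tp → Set S.Tp}

private theorem d1_lab {Λ : Set S.L} {l : S.L} (hl : l ∈ Λ) :
    Def1 Λ (fun (M : Obj K S.L) x => x ∈ M.P l) :=
  (IsDef.lab hl (fun _ : Unit => (1 : K))).congr fun M y => by
    have h1 : lin (fun _ : Unit => (1 : K)) y = y () := by
      simp [lin]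
    rw [h1]

private theorem d1_and {Λ : Set S.L} {F H : SF1 K S.L} (hF : Def1 Λ F) (hH : Def1 Λ H) :
    Def1 Λ (fun M x => F M x ∧ H M x) :=
  IsDef.and hF hH

private theorem d1_sum {Λ : Set S.L} {F H : SF1 K S.L} (hF : Def1 Λ F) (hH : Def1 Λ H) :
    Def1 Λ (fun M x => ∃ y z, F M y ∧ H M z ∧ x = y + z) :=
  (isDef_sumF hF hH).congr fun M y =>
    ⟨fun ⟨a, b, ha, hb, h⟩ => ⟨a (), b (), ha, hb, h ()⟩,
      fun ⟨a, b, ha, hb, h⟩ => ⟨fun _ => a, fun _ => b, ha, hb, fun _ => h⟩⟩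

private theorem d1_fm {Λ : Set S.L} (φ : Fm K S.L Unit) (hφ : ∀ q ∈ φ.c, q.1 ∈ Λ) :
    Def1 Λ φ.S1 :=
  (IsDef.fm φ hφ).congr fun _ _ => Iff.rfl

private theorem mod_le1 {T : Set S.Tp} {B : Obj K S.L} (hB : S.Mod T B) {F H : SF1 K S.L}
    (hF : Def1 (S.lab T) F) (hH : Def1 (S.lab T) H) (hFH : S.LeC T F H) {y : B.dual}
    (hy : F B.dual y) : H B.dual y :=
  hB Unit (fun M y => F M (y ())) (fun M y => H M (y ())) hF hH
    (fun M hM y hy => hFH M hM (y ()) hy) (fun _ => y) hy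

theorem Mod.ff (h : S.OK G Bl) {T : Set S.Tp} (hT : S.Down G Bl T) {B : Obj K S.L}
    (hB : S.Mod T B) : S.FF T B.dual := by
  have hnode : ∀ a : S.Nd, (Sum.inl a : S.L) ∈ S.lab T := fun a τ h => by cases h
  refine { root := ?_, par := fun a y hy => ?_, dens := fun τ hτ r x hx => ?_ }
  · refine Submodule.eq_top_iff'.2 fun y => ?_
    exact mod_le1 hB (F := fun _ _ => True) (H := fun M x => x ∈ M.P (.inl S.root))
      IsDef.top (d1_lab (hnode _)) (fun M hM x _ => by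
        change x ∈ M.P (.inl S.root)
        rw [hM.ff.root]
        exact Submodule.mem_top)
      trivial
  · exact mod_le1 hB (F := fun M x => x ∈ M.P (.inl a)) (H := fun M x => x ∈ M.P (.inl (S.par a)))
      (d1_lab (hnode a)) (d1_lab (hnode _)) (fun M hM x hx => hM.ff.par a hx) hy
  · have hτl : (Sum.inr τ : S.L) ∈ S.lab T := fun σ hσ => by
      rw [← Sum.inr.inj hσ]
      exact hτ
    have hX : Def1 (S.lab T) (S.X τ r).S1 :=
      d1_fm _ fun q hq => Sys.lab_mono (hT.2 τ hτ) (h.labX (hT.1 hτ) r q hq)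
    have hY : Def1 (S.lab T) (S.Y τ r).S1 :=
      d1_fm _ fun q hq => Sys.lab_mono (hT.2 τ hτ) (h.labY (hT.1 hτ) r q hq)
    obtain ⟨v, y, hv, hy, hxy⟩ := mod_le1 hB (F := (S.X τ r).S1)
      (H := fun M x => ∃ v z, v ∈ M.P (.inr τ) ∧ (S.Y τ r).S1 M z ∧ x = v + z)
      hX (d1_sum (d1_lab hτl) hY) (fun M hM x hx => by
        obtain ⟨v, hv, y, hy, hxy⟩ := hM.ff.dens τ hτ r x hx
        exact ⟨v, y, hv, hy, hxy⟩) hx
    exact ⟨v, hv, y, hy, hxy⟩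

theorem Mod.mono (h : S.OK G Bl) {T T' : Set S.Tp} (hT : S.Down G Bl T)
    (hT' : S.Down G Bl T') (hTT : T' ⊆ T) {B : Obj K S.L} (hB : S.Mod T B) : S.Mod T' B :=
  fun κ _ F H hF hH hFH y hy => hB κ F H (hF.mono (Sys.lab_mono hTT)) (hH.mono (Sys.lab_mono hTT))
    (fun M hM y => hFH M (h.cc_mono hT' hT hTT hM) y) y hy

theorem Mod.le1 {T : Set S.Tp} {B : Obj K S.L} (hB : S.Mod T B) {F H : SF1 K S.L}
    (hF : Def1 (S.lab T) F) (hH : Def1 (S.lab T) H) (hFH : S.LeC T F H) {y : B.dual}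
    (hy : F B.dual y) : H B.dual y :=
  mod_le1 hB hF hH hFH hy

theorem uniform_lemma (h : S.OK G Bl) {T : Set S.Tp} (hT : S.Down G Bl T) {B : Obj K S.L}
    (hB : S.Mod T B) (hNU : S.NU T B) {s : S.Tp} (hs : s ∈ T) {A E : ℕ → SF1 K S.L}
    (hE : EFam S Bl s A E) (hAm : ∀ m m', m ≤ m' → S.LeF (Bl s) (A m') (A m))
    (hD : S.Dich T s A E) {g : B}
    (hA : ∀ m, ¬ Kills1 B (fun M x => x ∈ M.P (.inr s) ∧ A m M x) g)
    (hEk : ∀ l, Kills1 B (fun M x => x ∈ M.P (.inr s) ∧ E l M x) g) : False := by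
  have hsT : (Sum.inr s : S.L) ∈ S.lab T := fun σ hσ => by
    rw [← Sum.inr.inj hσ]
    exact hs
  have hBs : Bl s ⊆ T := hT.2 s hs
  have dV : Def1 (S.lab T) (fun (M : Obj K S.L) x => x ∈ M.P (.inr s)) := d1_lab hsT
  have dA : ∀ m, Def1 (S.lab T) (A m) := fun m => IsDef.mono (hE.defA m) (Sys.lab_mono hBs)
  have dE : ∀ l, Def1 (S.lab T) (E l) := fun l => IsDef.mono (hE.defE l) (Sys.lab_mono hBs)
  obtain ⟨ψ₁, ψ₂, d1, d2, h1, h2, k1, k2, hk⟩ := hNU g _ (d1_and dV (dA 0)) (hA 0)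
  -- each of the two formulas is large
  have hlarge : ∀ ψ : SF1 K S.L, Def1 (S.lab T) ψ →
      S.LeF T ψ (fun M x => x ∈ M.P (.inr s) ∧ A 0 M x) → ¬ Kills1 B ψ g →
      S.Large T s A E ψ := by
    intro ψ dψ hψ kψ
    rcases hD ψ dψ (fun M hM x hx => (hψ M hM.ff x hx).1) with ⟨l, hl⟩ | hL
    · refine absurd (fun f hf => ?_) kψ
      exact hEk l f (mod_le1 hB (H := fun M x => x ∈ M.P (.inr s) ∧ E l M x) dψ
        (d1_and dV (dE l)) (fun M hM x hx => ⟨(hψ M hM.ff x hx).1, hl M hM x hx⟩) hf)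
    · exact hL
  obtain ⟨m₁, l₁, L1⟩ := hlarge ψ₁ d1 h1 k1
  obtain ⟨m₂, l₂, L2⟩ := hlarge ψ₂ d2 h2 k2
  have dχ : Def1 (S.lab T) (fun (M : Obj K S.L) x => x ∈ M.P (.inr s) ∧ E (max l₁ l₂) M x) :=
    d1_and dV (dE _)
  have hk' := hk _ dχ (hEk (max l₁ l₂))
  refine hA (max m₁ m₂) fun f hf => ?_
  obtain ⟨w, c, hw, hc, hfw⟩ := mod_le1 hB
    (F := fun M x => x ∈ M.P (.inr s) ∧ A (max m₁ m₂) M x)
    (H := fun M x => ∃ w c, (ψ₁ M w ∧ ∃ y z, ψ₂ M y ∧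
      (z ∈ M.P (.inr s) ∧ E (max l₁ l₂) M z) ∧ w = y + z) ∧
      (c ∈ M.P (.inr s) ∧ E (max l₁ l₂) M c) ∧ x = w + c)
    (d1_and dV (dA _)) (d1_sum (d1_and d1 (d1_sum d2 dχ)) dχ) (fun M hM x hx => by
      have hM' : S.FF (Bl s) M := hM.ff.mono hBs
      obtain ⟨w₁, z₁, hw₁, hz₁, e₁⟩ := L1 M hM x hx.1 (hAm _ _ (le_max_left _ _) M hM' x hx.2)
      obtain ⟨w₂, z₂, hw₂, hz₂, e₂⟩ := L2 M hM x hx.1 (hAm _ _ (le_max_right _ _) M hM' x hx.2)
      have v₁ := (h1 M hM.ff w₁ hw₁).1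
      have v₂ := (h2 M hM.ff w₂ hw₂).1
      have y₁ : z₁ ∈ M.P (.inr s) := by
        have : z₁ = x - w₁ := by rw [e₁]; abel
        rw [this]
        exact Submodule.sub_mem _ hx.1 v₁
      have y₂ : z₂ ∈ M.P (.inr s) := by
        have : z₂ = x - w₂ := by rw [e₂]; abel
        rw [this]
        exact Submodule.sub_mem _ hx.1 v₂
      have x₁ := hE.mono _ _ (le_max_left l₁ l₂) M hM' z₁ hz₁
      have x₂ := hE.mono _ _ (le_max_right l₁ l₂) M hM' z₂ hz₂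
      refine ⟨w₁, z₁, ⟨hw₁, w₂, z₂ - z₁, hw₂, ⟨Submodule.sub_mem _ y₂ y₁, ?_⟩, ?_⟩,
        ⟨y₁, x₁⟩, e₁⟩
      · exact IsDef.sub_mem (hE.defE _) (y := fun _ => z₂) (z := fun _ => z₁) x₂ x₁
      · have : w₁ = x - z₁ := by rw [e₁]; abel
        rw [this, e₂]
        abel) hf
  have e1 := hk' w hw
  have e2 := hEk _ c hc
  change (f : Module.Dual K B) g = 0
  have e3 : (f : Module.Dual K B) g = (w : Module.Dual K B) g + (c : Module.Dual K B) g := by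
    rw [hfw]
    rfl
  rw [e3, e1, e2, add_zero]

end Pool.Agent.Helper13.SDW
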