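import Pool.Agent.Helper13.SDW.LD2
import Pool.Agent.Helper13.SDW.ModFF

/-!
# BLOCK SDW-KILL1: killed formulas of limit data (about 150 lines)

`X` limit data over `T`, `B.dual ∈ FF_T`, `g : ℕ → B` with
`hΓ`: `Γ_i(x, y)` in `B.dual` implies `x(g_{i+1}) = y(g_i)`, `hΔ`: `g_{i+1}` kills `Δ_i = V_ξ ∩ Bc i (m i)`.
* `upR_eval`: `upR j x y` implies `y(g_0) = x(g_j)`: induction on `j`; `x' - x ∈ Δ_j`, so `x'(g_{j+1}) = x(g_{j+1})`.
* `kill_Z`: `up_iff`, `F = 0`. `not_kill_U`: `f ∈ P_{a n}(B.dual)` with `f(g_n) ≠ 0`, `upR_total`.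
* `not_kill_VU`: suppose `g_0` kills `V_t ∩ U_m`. Let `χ(c) := ∃ x y v u' x' y'', x ∈ P_{a m}, upR m x y, y = v + u', v ∈ V_t, X.U m v,
  x' ∈ P_{a (m+1)}, upR (m+1) x' u', Γ_m(x', y''), c = x - y''`, definable over `T'`. `g_m` kills `χ`: `c(g_m) = x(g_m) - y''(g_m) = y(g_0) -
  x'(g_{m+1}) = v(g_0) + u'(g_0) - x'(g_{m+1}) = 0`. And for `M ∈ FF_T'`: `x ∈ P_{a m}(M)`: take `y` with `upR m x y` (`upR_total`), `y ∈ X.U m` (`up_iff`),
  by density of `t` for the rule `u (m+1)` `y = v + u'`, `u' ∈ X.U (m+1)`, `v = y - u' ∈ X.U m` (`LD.UU`), `x'` by `up_iff`, `y''` by `Gam_total`. This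
  contradicts `hst m χ`.
-/

namespace Pool.Agent.Helper13.SDW

universe u

variable {K : Type u} [Field K] {S : Sys K} {T T' : Set S.Tp} {B : Obj K S.L}

private theorem k63_sub2 {Λ : Set S.L} {κ : Type} [Fintype κ] {F : SF2 K S.L} (hF : Def2 Λ F)
    (i j : κ) : IsDef Λ (fun (M : Obj K S.L) (y : κ → M) => F M (y i) (y j)) := by
  refine (IsDef.subst hF (fun k : Fin 2 => if k = 0 then fone i else fone j)).congr fun M y => ?_
  have h0 : lin (if (0 : Fin 2) = 0 then fone (K := K) i else fone j) y = y i := by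
    rw [if_pos rfl, lin_fone]
  have h1 : lin (if (1 : Fin 2) = 0 then fone (K := K) i else fone j) y = y j := by
    rw [if_neg (by decide), lin_fone]
  change F M (lin (if (0 : Fin 2) = 0 then fone (K := K) i else fone j) y)
    (lin (if (1 : Fin 2) = 0 then fone (K := K) i else fone j) y) ↔ _
  rw [h0, h1]

private theorem k63_lab {Λ : Set S.L} {κ : Type} [Fintype κ] {l : S.L} (hl : l ∈ Λ)
    (i : κ) : IsDef Λ (fun (M : Obj K S.L) (y : κ → M) => y i ∈ M.P l) := by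
  refine (IsDef.lab hl (fone (K := K) i)).congr fun M y => ?_
  rw [lin_fone]

private theorem k63_S1 {Λ : Set S.L} {κ : Type} [Fintype κ] (φ : Fm K S.L Unit)
    (hφ : ∀ q ∈ φ.c, q.1 ∈ Λ) (i : κ) :
    IsDef Λ (fun (M : Obj K S.L) (y : κ → M) => φ.S1 M (y i)) := by
  refine (IsDef.subst (IsDef.fm φ hφ) (fun _ : Unit => fone (K := K) i)).congr fun M y => ?_
  rw [lin_fone]
  rfl

private theorem k63_add {Λ : Set S.L} {κ : Type} [Fintype κ]
    (i j k : κ) : IsDef Λ (fun (M : Obj K S.L) (y : κ → M) => y i = y j + y k) := by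
  refine (IsDef.eq0 (fone (K := K) i + (-1 : K) • (fone j + fone k))).congr fun M y => ?_
  rw [lin_add_left, lin_smul_left, lin_add_left, lin_fone, lin_fone, lin_fone, neg_one_smul,
    ← sub_eq_add_neg, sub_eq_zero]

private theorem k63_inl {T : Set S.Tp} (a : S.Nd) : (Sum.inl a : S.L) ∈ S.lab T :=
  fun τ h => by cases h

private theorem k63_inr {T : Set S.Tp} {σ : S.Tp} (hσ : σ ∈ T) : (Sum.inr σ : S.L) ∈ S.lab T :=
  fun τ h => by
    rw [← Sum.inr.inj h]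
    exact hσ

theorem upR_eval (X : LD S) (g : ℕ → B)
    (hΓ : ∀ i, ∀ x y : B.dual, X.Gam i B.dual x y →
      (x : Module.Dual K B) (g (i + 1)) = (y : Module.Dual K B) (g i))
    (hΔ : ∀ i, Kills1 B (fun M x => x ∈ M.P (.inr (X.ξ i)) ∧
      x ∈ M.P (.inl (X.Bc i (X.m i)))) (g (i + 1)))
    (j : ℕ) (x y : B.dual) (h : X.upR j B.dual x y) :
    (y : Module.Dual K B) (g 0) = (x : Module.Dual K B) (g j) := by
  induction j generalizing x y with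
  | zero =>
    have h1 : y = x := h
    rw [h1]
  | succ j ih =>
    obtain ⟨x', x₁, h1, h2, h3, h4⟩ := h
    have e1 := ih x₁ y h4
    have e2 := hΓ j x' x₁ h3
    have e3 : ((x' - x : B.dual) : Module.Dual K B) (g (j + 1)) = 0 := hΔ j (x' - x) ⟨h1, h2⟩
    have e4 : (x' : Module.Dual K B) (g (j + 1)) - (x : Module.Dual K B) (g (j + 1)) = 0 := e3
    rw [e1, ← e2]
    exact sub_eq_zero.1 e4

theorem kill_Z (X : LD S) (g : ℕ → B)
    (hΓ : ∀ i, ∀ x y : B.dual, X.Gam i B.dual x y →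
      (x : Module.Dual K B) (g (i + 1)) = (y : Module.Dual K B) (g i))
    (hΔ : ∀ i, Kills1 B (fun M x => x ∈ M.P (.inr (X.ξ i)) ∧
      x ∈ M.P (.inl (X.Bc i (X.m i)))) (g (i + 1))) (l : ℕ) :
    Kills1 B (X.Z l).S1 (g 0) := by
  intro f hf
  obtain ⟨x, hx, h2⟩ := (X.up_iff l _ B.dual f).1 hf
  have hx0 : x = 0 := (zero_iff B.dual x).1 hx
  rw [upR_eval X g hΓ hΔ l x f h2, hx0]
  rfl

theorem not_kill_U (X : LD S) (hX : X.OK T) (hB : S.FF T B.dual) (g : ℕ → B)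
    (hΓ : ∀ i, ∀ x y : B.dual, X.Gam i B.dual x y →
      (x : Module.Dual K B) (g (i + 1)) = (y : Module.Dual K B) (g i))
    (hΔ : ∀ i, Kills1 B (fun M x => x ∈ M.P (.inr (X.ξ i)) ∧
      x ∈ M.P (.inl (X.Bc i (X.m i)))) (g (i + 1))) {n : ℕ}
    (hn : ¬ Kills1 B (fun M x => x ∈ M.P (.inl (X.a n))) (g n)) :
    ¬ Kills1 B (X.U n).S1 (g 0) := by
  intro h
  apply hn
  intro f hf
  obtain ⟨y, hy⟩ := X.upR_total hX hB (x := (f : B.dual)) hf
  rw [← upR_eval X g hΓ hΔ n f y hy]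
  exact h y ((X.up_iff n _ B.dual y).2 ⟨f, (labFm_iff _ B.dual f).2 hf, hy⟩)

theorem not_kill_VU (X : LD S) (hX : X.OK T) (hTT : T ⊆ T') (g : ℕ → B)
    (hΓ : ∀ i, ∀ x y : B.dual, X.Gam i B.dual x y →
      (x : Module.Dual K B) (g (i + 1)) = (y : Module.Dual K B) (g i))
    (hΔ : ∀ i, Kills1 B (fun M x => x ∈ M.P (.inr (X.ξ i)) ∧
      x ∈ M.P (.inl (X.Bc i (X.m i)))) (g (i + 1)))
    {t : S.Tp} (ht : t ∈ T') (htU : ∀ n, S.U t n = X.U n) (m : ℕ)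
    (hst : ∀ χ : SF1 K S.L, Def1 (S.lab T') χ → Kills1 B χ (g m) →
      ¬ ∀ M : Obj K S.L, S.CC T' M → ∀ x ∈ M.P (.inl (X.a m)),
        ∃ y z, (∃ x', X.Gam m M x' y) ∧ χ M z ∧ x = y + z) :
    ¬ Kills1 B (fun M x => x ∈ M.P (.inr t) ∧ (X.U m).S1 M x) (g 0) := by
  intro h
  have hlab : S.lab T ⊆ S.lab T' := Sys.lab_mono hTT
  have hlabU : ∀ q ∈ (X.U m).c, q.1 ∈ S.lab T' := fun q hq => hlab (X.lab_U hX m q hq)
  refine hst (fun M c => ∃ z : Fin 6 → M, z 0 ∈ M.P (.inl (X.a m)) ∧ X.upR m M (z 0) (z 1) ∧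
    z 1 = z 2 + z 3 ∧ z 2 ∈ M.P (.inr t) ∧ (X.U m).S1 M (z 2) ∧
    z 4 ∈ M.P (.inl (X.a (m + 1))) ∧ X.upR (m + 1) M (z 4) (z 3) ∧ X.Gam m M (z 4) (z 5) ∧
    z 0 = c + z 5) ?_ ?_ ?_
  · refine (IsDef.ex' (κ := Unit) (κ' := Fin 6)
      (fun (M : Obj K S.L) (y : Unit → M) (z : Fin 6 → M) =>
        z 0 ∈ M.P (.inl (X.a m)) ∧ X.upR m M (z 0) (z 1) ∧
        z 1 = z 2 + z 3 ∧ z 2 ∈ M.P (.inr t) ∧ (X.U m).S1 M (z 2) ∧
        z 4 ∈ M.P (.inl (X.a (m + 1))) ∧ X.upR (m + 1) M (z 4) (z 3) ∧ X.Gam m M (z 4) (z 5) ∧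
        z 0 = y () + z 5) ?_)
    exact (k63_lab (k63_inl _) (Sum.inr 0)).and
      ((k63_sub2 ((X.upR_def hX m).mono hlab) (Sum.inr 0) (Sum.inr 1)).and
      ((k63_add (Sum.inr 1) (Sum.inr 2) (Sum.inr 3)).and
      ((k63_lab (k63_inr ht) (Sum.inr 2)).and
      ((k63_S1 (X.U m) hlabU (Sum.inr 2)).and
      ((k63_lab (k63_inl _) (Sum.inr 4)).and
      ((k63_sub2 ((X.upR_def hX (m + 1)).mono hlab) (Sum.inr 4) (Sum.inr 3)).and
      ((k63_sub2 ((X.Gam_def hX.labE hX.labK m).mono hlab) (Sum.inr 4) (Sum.inr 5)).and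
      (k63_add (Sum.inr 0) (Sum.inl ()) (Sum.inr 5)))))))))
  · rintro c ⟨z, -, h2, h3, h4, h5, -, h7, h8, h9⟩
    have e1 := upR_eval X g hΓ hΔ m _ _ h2
    have e2 := upR_eval X g hΓ hΔ (m + 1) _ _ h7
    have e3 := hΓ m _ _ h8
    have e4 : (z 2 : Module.Dual K B) (g 0) = 0 := h (z 2) ⟨h4, h5⟩
    have e5 : (z 1 : Module.Dual K B) (g 0) = (z 2 : Module.Dual K B) (g 0) +
        (z 3 : Module.Dual K B) (g 0) := by
      rw [h3]
      rfl
    have e6 : (z 0 : Module.Dual K B) (g m) = (c : Module.Dual K B) (g m) +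
        (z 5 : Module.Dual K B) (g m) := by
      rw [h9]
      rfl
    have e7 : (c : Module.Dual K B) (g m) + (z 5 : Module.Dual K B) (g m) =
        0 + (z 5 : Module.Dual K B) (g m) := by
      rw [← e6, ← e1, e5, e4, e2, e3]
    exact add_right_cancel e7
  · intro M hM x hx
    have hF' : S.FF T' M := hM.ff
    have hF : S.FF T M := hF'.mono hTT
    obtain ⟨y, hy⟩ := X.upR_total hX hF hx
    have hyU : (X.U m).S1 M y := (X.up_iff m _ M y).2 ⟨x, (labFm_iff _ M x).2 hx, hy⟩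
    have hXt : S.X t (.u (m + 1)) = X.U m := htU m
    have hYt : S.Y t (.u (m + 1)) = X.U (m + 1) := htU (m + 1)
    obtain ⟨v, hv, u', hu', hyv⟩ := hF'.dens t ht (.u (m + 1)) y (by rw [hXt]; exact hyU)
    rw [hYt] at hu'
    obtain ⟨x', hx', hxu⟩ := (X.up_iff (m + 1) _ M u').1 hu'
    rw [labFm_iff] at hx'
    obtain ⟨y'', hy''⟩ := X.Gam_total hX hF hx'
    have huU : (X.U m).S1 M u' := X.UU hX m M hF u' hu'
    have hvU : (X.U m).S1 M v := by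
      have h1 : (X.U m).S1 M (y - u') := (IsDef.fm (X.U m) hlabU).sub_mem hyU huU
      have h2 : y - u' = v := by rw [hyv, add_sub_cancel_right]
      rwa [h2] at h1
    refine ⟨y'', x - y'', ⟨x', hy''⟩, ⟨![x, y, v, u', x', y''], hx, hy, hyv, hv, hvU, hx', hxu,
      hy'', ?_⟩, (add_sub_cancel _ _).symm⟩
    exact (sub_add_cancel _ _).symm

end Pool.Agent.Helper13.SDW
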