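import Pool.Agent.Helper13.SDW.CellRed

/-!
# BLOCK SDW-RED: Lemma 7.1 (about 250 lines)

`cx_red`: `T' ⊆ T` downward closed, `hI σ` for all `σ ∈ T'`. Induction on `Cx T' (Pre.nil) G e` for the statement: for
`b : Fin G.n → B` which does not kill the formula `G.Hom`: `Red T B G.Hom b`.
* `base`: the sum is empty.
* `atom a`: `b = (b₀, b₁)`. If `b₁` does not kill `P_a`: `Γ = {(x, (0, x)) : x ∈ P_a}`, `g = b₁`. Otherwise `b₀` does not kill `G.Hom`;
  `Γ = {(x, (y, 0)) : (x, y) ∈ Γ₀}`.
* `cell σ r d`: `b = (b₀, b₁)`. If `b₁` does not kill `F_σ = {y ∈ G_Y : y_r(y) ∈ V_σ}`: `cell_red` gives `Γ₁`; `Γ = {(x, (0, y)) :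
  (x, y) ∈ Γ₁}`. Otherwise, `F_σ = {y : (0, y) ∈ (G.cell σ r d).Hom}`, by `kills_zero` there is `c₀` such that `(c₀, b₁)` kills
  `(G.cell).Hom`. So for `(z₀, z₁) ∈ (G.cell).Hom(B.dual)`: `z(b) = z₀(b₀ - c₀)`; hence `b₀ - c₀` does not kill `G.Hom`. Induction gives
  `Γ₀`; `Γ = {(x, (z₀, z₁)) : (x, z₀) ∈ Γ₀, (z₀, z₁) ∈ (G.cell).Hom}`, total by density (the cell is valid,
  `Sys.FF.exists_block`).
`red_over`: let `φ` be over `T'`, `b` not killing `φ`. By `S.Nice T'` and `cofP_cx` (`l k` = root) `φ` is given on `CC_T'` by a complex `G` and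
forms `t` (`φ M y ↔ ∃ x ∈ G.Hom M, y k = lin (t k) x`), so also on `B.dual` (`Mod.mono`). `b' i = ∑_k t k i • b k` does not kill
`G.Hom`. `Γ = {(x, (t k (y))_k) : (x, y) ∈ Γ'}`; it is `⊆ P_a × φ` on `CC_T ⊆ CC_T'`.
`red_all`: well-founded induction on `σ` (`h.wf`): for all `σ ∈ T`, all `φ` over `Bl σ`; then `red_over` for `T' = T`.
-/

namespace Pool.Agent.Helper13.SDW

universe u

variable {K : Type u} [Field K] {S : Sys K} {G : Set S.Tp} {Bl : S.Tp → Set S.Tp}

section red23

variable {L : Type u} {Λ : Set L} {κ κ' : Type}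

private theorem red23_comap [Fintype κ] [Fintype κ'] {F : SF K L κ'} (hF : IsDef Λ F)
    (g : κ' → κ) : IsDef Λ (fun M (y : κ → M) => F M (fun k => y (g k))) := by
  refine (hF.subst (κ := κ) (fun k => fone (g k))).congr fun M y => ?_
  have h1 : (fun k => lin (fone (K := K) (g k)) y) = fun k => y (g k) :=
    funext fun k => lin_fone (g k) y
  rw [h1]

private theorem red23_lineq [Fintype κ] (k : κ) (v : κ → K) :
    IsDef Λ (fun (M : Obj K L) (y : κ → M) => y k = lin v y) := by
  refine (IsDef.eq0 (fone k + fun i => -v i)).congr fun M y => ?_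
  rw [lin_add_left, lin_fneg, lin_fone, add_neg_eq_zero]

private theorem red23_eqz [Fintype κ] (k : κ) :
    IsDef Λ (fun (M : Obj K L) (y : κ → M) => y k = 0) := by
  refine (IsDef.eq0 (fone k)).congr fun M y => ?_
  rw [lin_fone]

/-- The evaluation of a linear combination of functionals. -/
private theorem red23_apply [Fintype κ] {B : Obj K L} (v : κ → K) (x : κ → B.dual) (b : B) :
    (lin v x : Module.Dual K B) b = ∑ i, v i • (x i : Module.Dual K B) b := by
  change (∑ i, v i • (x i : Module.Dual K B)) b = _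
  rw [LinearMap.sum_apply]
  rfl

end red23

theorem cx_red (h : S.OK G Bl) {T T' : Set S.Tp} (hT : S.Down G Bl T) (hT' : S.Down G Bl T')
    (hTT : T' ⊆ T) {B : Obj K S.L} (hB : S.Mod T B) (hNU : S.NU T B) (hG : S.AllGood T)
    (hI : ∀ σ ∈ T', ∀ (κ : Type) [Fintype κ] (φ : SF K S.L κ), IsDef (S.lab (Bl σ)) φ →
      ∀ b : κ → B, ¬ Kills B φ b → S.Red T B φ b)
    {G₀ : Pre K S.L} {e : Fin (Pre.nil K S.L).n → Fin G₀.n}
    (hc : Cx T' (Pre.nil K S.L) G₀ e) (b : Fin G₀.n → B)
    (hb : ¬ Kills B (fun M x => G₀.Hom M x) b) :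
    S.Red T B (fun M x => G₀.Hom M x) b := by
  classical
  induction hc with
  | base =>
    refine absurd ?_ hb
    intro f _
    change ∑ k : Fin 0, _ = _
    simp
  | @atom G e a hc ih =>
    have hlab : ∀ q ∈ G.c, q.1 ∈ S.lab T := fun q hq => Sys.lab_mono hTT
      (Cx.lab (h.closed hT') hc (U0_nil_lab (S.lab T')) q hq)
    by_cases h1 : Kills1 B (fun M x => x ∈ M.P (.inl a)) (b (Fin.natAdd G.n (0 : Fin 1)))
    · obtain ⟨a', g, Γ, d1, d2, d3, d4, d5⟩ := ih (fun i => b (Fin.castAdd 1 i)) (by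
        intro h2
        refine hb fun f hf => ?_
        obtain ⟨f1, f2⟩ := (Pre.sum_hom G (Pre.one K (.inl a)) B.dual f).1 hf
        rw [Pre.one_hom] at f2
        change ∑ k : Fin (G.n + 1), (f k : Module.Dual K B) (b k) = 0
        rw [Fin.sum_univ_add]
        have e1 := h2 _ f1
        have e2 := h1 _ f2
        simp only [Finset.univ_unique, Fin.default_eq_zero, Finset.sum_singleton]
        rw [e1, zero_add]
        exact e2)
      refine ⟨a', g, fun M y => Γ M (fun k => y (Sum.map id (Fin.castAdd 1) k)) ∧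
        y (.inr (Fin.natAdd G.n (0 : Fin 1))) = 0, ?_, ?_, ?_, ?_, d5⟩
      · exact (red23_comap d1 (Sum.map id (Fin.castAdd 1))).and (red23_eqz _)
      · rintro M hM y ⟨hy1, hy2⟩
        obtain ⟨k1, k2⟩ := d2 M hM _ hy1
        refine ⟨k1, (Pre.sum_hom G (Pre.one K (.inl a)) M _).2 ⟨k2, ?_⟩⟩
        rw [Pre.one_hom]
        rw [hy2]
        exact Submodule.zero_mem _
      · intro M hM x hx
        obtain ⟨y, hy, hyx⟩ := d3 M hM x hx
        refine ⟨Sum.elim (fun _ => x) (Fin.append (fun i => y (.inr i)) (fun _ : Fin 1 => 0)),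
          ⟨?_, Fin.append_right _ _ _⟩, rfl⟩
        have e1 : (fun k => (Sum.elim (fun _ : Unit => x) (Fin.append (fun i => y (.inr i))
            (fun _ : Fin 1 => (0 : M))) : Unit ⊕ Fin (G.n + 1) → M)
            (Sum.map id (Fin.castAdd 1) k)) = y := by
          funext k
          rcases k with k | k
          · exact hyx.symm
          · exact Fin.append_left _ _ _
        rw [e1]
        exact hy
      · rintro f ⟨hf1, hf2⟩
        have e1 := d4 _ hf1
        change (f (.inl ()) : Module.Dual K B) g =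
          ∑ k : Fin (G.n + 1), (f (.inr k) : Module.Dual K B) (b k)
        rw [Fin.sum_univ_add]
        simp only [Finset.univ_unique, Fin.default_eq_zero, Finset.sum_singleton]
        rw [hf2]
        change _ = _ + (0 : Module.Dual K B) _
        rw [LinearMap.zero_apply, add_zero]
        exact e1
    · refine ⟨a, b (Fin.natAdd G.n (0 : Fin 1)), fun M y => y (.inl ()) ∈ M.P (.inl a) ∧
        ((∀ i : Fin G.n, y (.inr (Fin.castAdd 1 i)) = 0) ∧
          y (.inr (Fin.natAdd G.n (0 : Fin 1))) = y (.inl ())), ?_, ?_, ?_, ?_, h1⟩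
      · refine IsDef.and ?_ (IsDef.and (IsDef.all fun i => red23_eqz _) ?_)
        · refine (IsDef.lab (Λ := S.lab T) (l := .inl a) (fun τ hτ => by cases hτ)
            (fone (.inl ()))).congr fun M y => ?_
          rw [lin_fone]
        · refine (red23_lineq (.inr (Fin.natAdd G.n (0 : Fin 1))) (fone (.inl ()))).congr
            fun M y => ?_
          rw [lin_fone]
      · rintro M hM y ⟨hy1, hy2, hy3⟩
        refine ⟨hy1, (Pre.sum_hom G (Pre.one K (.inl a)) M _).2 ⟨?_, ?_⟩⟩
        · have e1 : (fun i : Fin G.n => y (.inr (Fin.castAdd 1 i))) = fun _ => 0 := funext hy2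
          change G.Hom M (fun i : Fin G.n => y (.inr (Fin.castAdd 1 i)))
          rw [e1]
          intro q _
          rw [lin_zero]
          exact Submodule.zero_mem _
        · rw [Pre.one_hom]
          rw [hy3]
          exact hy1
      · intro M hM x hx
        refine ⟨Sum.elim (fun _ => x) (Fin.append (fun _ => 0) (fun _ : Fin 1 => x)),
          ⟨hx, fun i => Fin.append_left _ _ _, Fin.append_right _ _ _⟩, rfl⟩
      · rintro f ⟨hf1, hf2, hf3⟩
        change _ = ∑ k : Fin (G.n + 1), (f (.inr k) : Module.Dual K B) (b k)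
        rw [Fin.sum_univ_add]
        simp only [Finset.univ_unique, Fin.default_eq_zero, Finset.sum_singleton]
        rw [hf3, Finset.sum_eq_zero, zero_add]
        intro i _
        rw [hf2 i]
        exact LinearMap.zero_apply _
  | @cell G e σ r d hc hσ hv ih =>
    have hlab : ∀ q ∈ (G.cell σ r d).c, q.1 ∈ S.lab T := fun q hq => Sys.lab_mono hTT
      (Cx.lab (h.closed hT') (Cx.cell σ r d hc hσ hv) (U0_nil_lab (S.lab T')) q hq)
    have hmem : ∀ (M : Obj K S.L) (x : Fin (G.cell σ r d).n → M), (G.cell σ r d).Hom M x ↔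
        G.Hom M (fun i => x (Fin.castAdd (S.Y σ r).n i)) ∧
        (S.Y σ r).toPre.Hom M (fun i => x (Fin.natAdd G.n i)) ∧
        lin d (fun i => x (Fin.castAdd (S.Y σ r).n i)) +
          lin ((S.Y σ r).out ()) (fun i => x (Fin.natAdd G.n i)) ∈ M.P (.inr σ) := by
      intro M x
      rw [Pre.addc_hom, Pre.sum_hom, lin_append, and_assoc]
    by_cases h1 : Kills B (FSig S σ r) (fun i => b (Fin.natAdd G.n i))
    · -- the formula in the variables `(y, x)`
      have hF : IsDef (S.lab T) (fun M (w : Fin (S.Y σ r).n ⊕ Fin G.n → M) =>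
          (G.cell σ r d).Hom M (fun k => w (Fin.addCases (m := G.n) (n := (S.Y σ r).n)
            (motive := fun _ => Fin (S.Y σ r).n ⊕ Fin G.n) .inr .inl k))) :=
        red23_comap (IsDef.hom _ hlab) _
      have hF' : ∀ (M : Obj K S.L) (w : Fin (S.Y σ r).n ⊕ Fin G.n → M),
          (G.cell σ r d).Hom M (fun k => w (Fin.addCases (m := G.n) (n := (S.Y σ r).n)
            (motive := fun _ => Fin (S.Y σ r).n ⊕ Fin G.n) .inr .inl k)) ↔
          G.Hom M (fun i => w (.inr i)) ∧ (S.Y σ r).toPre.Hom M (fun i => w (.inl i)) ∧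
          lin d (fun i => w (.inr i)) + lin ((S.Y σ r).out ()) (fun i => w (.inl i)) ∈
            M.P (.inr σ) := by
        intro M w
        rw [hmem]
        simp only [Fin.addCases_left, Fin.addCases_right]
      obtain ⟨c, hc'⟩ := kills_zero hF (b := fun i => b (Fin.natAdd G.n i)) (by
        intro f hf
        refine h1 f ?_
        have h2 := (hF' _ _).1 hf
        simp only [Sum.elim_inr, Sum.elim_inl] at h2
        refine ⟨h2.2.1, ?_⟩
        have h3 := h2.2.2
        rw [lin_zero, zero_add] at h3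
        exact h3)
      have hkey : ∀ f : Fin (G.cell σ r d).n → B.dual, (G.cell σ r d).Hom B.dual f →
          ∑ i, (f (Fin.castAdd (S.Y σ r).n i) : Module.Dual K B)
            (b (Fin.castAdd (S.Y σ r).n i) - c i) =
          ∑ k : Fin (G.n + (S.Y σ r).n), (f k : Module.Dual K B) (b k) := by
        intro f hf
        have h2 := hc' (Sum.elim (fun i => f (Fin.natAdd G.n i))
          (fun i => f (Fin.castAdd (S.Y σ r).n i))) ((hF' _ _).2 (by
            simp only [Sum.elim_inr, Sum.elim_inl]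
            exact (hmem _ _).1 hf))
        rw [Fintype.sum_sum_type] at h2
        simp only [Sum.elim_inr, Sum.elim_inl] at h2
        rw [Fin.sum_univ_add]
        simp only [map_sub, Finset.sum_sub_distrib]
        rw [sub_eq_iff_eq_add, add_assoc, h2, add_zero]
      obtain ⟨a', g, Γ, d1, d2, d3, d4, d5⟩ :=
        ih (fun i => b (Fin.castAdd (S.Y σ r).n i) - c i) (by
          intro h2
          refine hb fun f hf => ?_
          have h3 := h2 _ ((hmem _ _).1 hf).1
          rw [hkey f hf] at h3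
          exact h3)
      refine ⟨a', g, fun M y => Γ M (fun k => y (Sum.map id (Fin.castAdd (S.Y σ r).n) k)) ∧
        (G.cell σ r d).Hom M (fun k => y (.inr k)), ?_, ?_, ?_, ?_, d5⟩
      · exact (red23_comap d1 (Sum.map id (Fin.castAdd (S.Y σ r).n))).and
          (red23_comap (IsDef.hom _ hlab) Sum.inr)
      · rintro M hM y ⟨hy1, hy2⟩
        exact ⟨(d2 M hM _ hy1).1, hy2⟩
      · intro M hM x hx
        obtain ⟨y, hy, hyx⟩ := d3 M hM x hx
        have hG := (d2 M hM _ hy).2
        have hMF : S.FF T' M := hM.ff.mono hTT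
        obtain ⟨z, hz1, hz2⟩ := hMF.exists_block hσ r (hv M hMF _ hG)
        refine ⟨Sum.elim (fun _ => x) (Fin.append (fun i => y (.inr i)) z), ⟨?_, ?_⟩, rfl⟩
        · have e1 : (fun k => (Sum.elim (fun _ : Unit => x) (Fin.append (fun i => y (.inr i))
              z) : Unit ⊕ Fin (G.n + (S.Y σ r).n) → M)
              (Sum.map id (Fin.castAdd (S.Y σ r).n) k)) = y := by
            funext k
            rcases k with k | k
            · exact hyx.symm
            · exact Fin.append_left _ _ _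
          rw [e1]
          exact hy
        · refine (hmem M _).2 ?_
          simp only [Sum.elim_inr, Fin.append_left, Fin.append_right]
          exact ⟨hG, hz1, hz2⟩
      · rintro f ⟨hf1, hf2⟩
        exact (d4 _ hf1).trans (hkey _ hf2)
    · obtain ⟨a', g, Γ, d1, d2, d3, d4, d5⟩ := cell_red h hT hB hNU hG (hTT hσ) (hI σ hσ) r h1
      refine ⟨a', g, fun M y => Γ M (fun k => y (Sum.map id (Fin.natAdd G.n) k)) ∧
        ∀ i : Fin G.n, y (.inr (Fin.castAdd (S.Y σ r).n i)) = 0, ?_, ?_, ?_, ?_, d5⟩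
      · exact (red23_comap d1 (Sum.map id (Fin.natAdd G.n))).and
          (IsDef.all fun i => red23_eqz _)
      · rintro M hM y ⟨hy1, hy2⟩
        obtain ⟨k1, k2, k3⟩ := d2 M hM _ hy1
        refine ⟨k1, (hmem M _).2 ⟨?_, k2, ?_⟩⟩
        · rw [show (fun i : Fin G.n => y (.inr (Fin.castAdd (S.Y σ r).n i))) = fun _ => 0 from
            funext hy2]
          intro q _
          rw [lin_zero]
          exact Submodule.zero_mem _
        · rw [show (fun i : Fin G.n => y (.inr (Fin.castAdd (S.Y σ r).n i))) = fun _ => 0 from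
            funext hy2, lin_zero, zero_add]
          exact k3
      · intro M hM x hx
        obtain ⟨y, hy, hyx⟩ := d3 M hM x hx
        refine ⟨Sum.elim (fun _ => x) (Fin.append (fun _ => 0) (fun i => y (.inr i))),
          ⟨?_, fun i => Fin.append_left _ _ _⟩, rfl⟩
        have e1 : (fun k => (Sum.elim (fun _ : Unit => x) (Fin.append (fun _ => 0)
            (fun i => y (.inr i))) : Unit ⊕ Fin (G.n + (S.Y σ r).n) → M)
            (Sum.map id (Fin.natAdd G.n) k)) = y := by
          funext k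
          rcases k with k | k
          · exact hyx.symm
          · exact Fin.append_right _ _ _
        rw [e1]
        exact hy
      · rintro f ⟨hf1, hf2⟩
        have e1 := d4 _ hf1
        change _ = ∑ k : Fin (G.n + (S.Y σ r).n), (f (.inr k) : Module.Dual K B) (b k)
        rw [Fin.sum_univ_add, Finset.sum_eq_zero, zero_add]
        · exact e1
        · intro i _
          rw [hf2 i]
          exact LinearMap.zero_apply _

theorem red_over (h : S.OK G Bl) {T T' : Set S.Tp} (hT : S.Down G Bl T)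
    (hT' : S.Down G Bl T') (hTT : T' ⊆ T) (hN : S.Nice T') {B : Obj K S.L} (hB : S.Mod T B)
    (hNU : S.NU T B) (hG : S.AllGood T)
    (hI : ∀ σ ∈ T', ∀ (κ : Type) [Fintype κ] (φ : SF K S.L κ), IsDef (S.lab (Bl σ)) φ →
      ∀ b : κ → B, ¬ Kills B φ b → S.Red T B φ b)
    {κ : Type} [Fintype κ] {φ : SF K S.L κ} (hφ : IsDef (S.lab T') φ) {b : κ → B}
    (hb : ¬ Kills B φ b) : S.Red T B φ b := by
  classical
  obtain ⟨χ, hχl, hχ, hφχ⟩ := hN κ φ hφ
  obtain ⟨G₀, e, t, hCx, -, hsat⟩ := cofP_cx (h.closed hT') h.proot hχ hχl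
    (fun _ => .inl S.root) (fun _ τ hτ => by cases hτ) (fun M hM y _ k => by
      rw [hM.ff.root]
      exact Submodule.mem_top)
  have hlab := Cx.lab (h.closed hT') hCx (U0_nil_lab (S.lab T'))
  have hψ : IsDef (S.lab T') (fun M (y : κ → M) => ∃ x, G₀.Hom M x ∧
      ∀ k, y k = lin (t k) x) :=
    IsDef.fm ⟨G₀, t⟩ hlab
  have hB' := Mod.mono h hT hT' hTT hB
  have hiff : ∀ y : κ → B.dual, φ B.dual y → ∃ x, G₀.Hom B.dual x ∧ ∀ k, y k = lin (t k) x := by
    intro y hy
    exact hB' κ φ _ hφ hψ (fun M hM y hy =>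
      (hsat M hM.ff y).1 ((hφχ M hM y).1 hy)) y hy
  have hsum : ∀ x : Fin G₀.n → B.dual,
      ∑ i, (x i : Module.Dual K B) (∑ k, t k i • b k) =
        ∑ k, (lin (t k) x : Module.Dual K B) (b k) := by
    intro x
    simp only [red23_apply, map_sum, map_smul]
    exact Finset.sum_comm
  obtain ⟨a', g, Γ, d1, d2, d3, d4, d5⟩ := cx_red h hT hT' hTT hB hNU hG hI hCx
    (fun i => ∑ k, t k i • b k) (by
      intro h1
      refine hb fun f hf => ?_
      obtain ⟨x, hx, hfx⟩ := hiff f hf
      have h2 := h1 x hx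
      rw [hsum] at h2
      rw [← h2]
      exact Finset.sum_congr rfl fun k _ => by rw [hfx k])
  refine ⟨a', g, fun M y => ∃ z : Fin G₀.n → M, Γ M (Sum.elim (fun _ => y (.inl ())) z) ∧
    ∀ k, y (.inr k) = lin (t k) z, ?_, ?_, ?_, ?_, d5⟩
  · refine IsDef.ex' (fun M (y : Unit ⊕ κ → M) (z : Fin G₀.n → M) =>
      Γ M (Sum.elim (fun _ => y (.inl ())) z) ∧ ∀ k, y (.inr k) = lin (t k) z) ?_
    refine IsDef.and ?_ (IsDef.all fun k => ?_)
    · refine (red23_comap (κ := (Unit ⊕ κ) ⊕ Fin G₀.n) d1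
        (Sum.elim (fun _ => .inl (.inl ())) (fun i => .inr i))).congr fun M y => ?_
      have e1 : (fun k => y ((Sum.elim (fun _ => .inl (.inl ())) (fun i => .inr i) :
          Unit ⊕ Fin G₀.n → (Unit ⊕ κ) ⊕ Fin G₀.n) k)) =
          Sum.elim (fun _ => y (.inl (.inl ()))) (fun i => y (.inr i)) := by
        funext k
        rcases k with k | k
        · rfl
        · rfl
      rw [e1]
    · refine (red23_lineq (.inl (.inr k)) (Sum.elim (fun _ => 0) (t k))).congr fun M y => ?_
      rw [lin_elim, lin_fzero, zero_add]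
  · rintro M hM y ⟨z, hz, hy⟩
    obtain ⟨k1, k2⟩ := d2 M hM _ hz
    refine ⟨k1, ?_⟩
    have hM' := h.cc_mono hT' hT hTT hM
    exact (hφχ M hM' _).2 ((hsat M hM'.ff _).2 ⟨z, k2, hy⟩)
  · intro M hM x hx
    obtain ⟨y, hy, hyx⟩ := d3 M hM x hx
    refine ⟨Sum.elim (fun _ => x) (fun k => lin (t k) (fun i => y (.inr i))),
      ⟨fun i => y (.inr i), ?_, fun k => rfl⟩, rfl⟩
    have e1 : (Sum.elim (fun _ => x) (fun i => y (.inr i)) : Unit ⊕ Fin G₀.n → M) = y := by
      funext k
      rcases k with k | k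
      · exact hyx.symm
      · rfl
    simp only [Sum.elim_inl]
    rw [e1]
    exact hy
  · rintro f ⟨z, hz, hf⟩
    refine (d4 _ hz).trans ?_
    refine (hsum z).trans ?_
    exact Finset.sum_congr rfl fun k _ => by rw [hf k]

theorem red_all (h : S.OK G Bl) {T : Set S.Tp} (hT : S.Down G Bl T) (hN : S.Nice T)
    (hNB : ∀ σ ∈ T, S.Nice (Bl σ)) {B : Obj K S.L} (hB : S.Mod T B)
    (hNU : S.NU T B) (hG : S.AllGood T) {κ : Type} [Fintype κ] {φ : SF K S.L κ}
    (hφ : IsDef (S.lab T) φ) {b : κ → B} (hb : ¬ Kills B φ b) : S.Red T B φ b := by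
  have key : ∀ σ : S.Tp, σ ∈ T → ∀ (κ : Type) [Fintype κ] (φ : SF K S.L κ),
      IsDef (S.lab (Bl σ)) φ → ∀ b : κ → B, ¬ Kills B φ b → S.Red T B φ b := by
    intro σ
    induction σ using h.wf.induction with
    | _ σ ih =>
      intro hσ κ _ φ hφ b hb
      exact red_over h hT (h.down_B (hT.1 hσ)) (hT.2 σ hσ) (hNB σ hσ) hB hNU hG
        (fun σ' hσ' => ih σ' ⟨hσ', hT.1 hσ⟩ (hT.2 σ hσ hσ')) hφ hb
  exact red_over h hT hT (Set.Subset.refl T) hN hB hNU hG (fun σ hσ => key σ hσ) hφ hb

end Pool.Agent.Helper13.SDW
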