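import Pool.Agent.Helper13.SDW.LDDefs
import Pool.Agent.Helper13.SDW.RedThm

/-!
# BLOCK SDW-KILL2: one step of the construction (about 200 lines)

`hNU` for `φ = P_a` and `g` gives `ψ₁, ψ₂`. `red_all` for `ψ₁` (`κ = Unit`, `b = g`; `kills1_iff`) gives `a', g', Γ`, `Γ ⊆ P_{a'} × ψ₁`, total on `P_{a'}` (in
`CC_G`), `x(g') = y(g)` for `Γ(x, y)` in `B.dual`, `g'` does not kill `P_{a'}`.
`Kp, k`: the formula `{y : Γ(0, y)}` is nice: `χ = [Kp; k]` on `CC_G`, and `[Kp; k] ≤ Γ(0, ·)`, `[Kp; k] ≤ P_a` in `FF_G` (`NiceF.le_FF`: `ψ₁ ≤ P_a`).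
`E, c, b`: `N = Nc G (Pre.one K (.inl a')).obj PUnit ∈ CC_G` (`obj_cc`, `cofP_one`); the generator is in `P_{a'}(N)` (`gen_hom_Nc`), choose `y` with
`Γ(gen, y)`; `relcx` for `G₀ = Pre.one K (.inl a')` and `y` (label root): a complex `E` over `G₀`, `c = e 0`, `b = t`. Every `z ∈ E.Hom D`, `D ∈ FF_G`, comes from a
hom `N → D`, so `Γ(z_c, b(z))` in `D`. `RelP`: `Cx.restrict`, `Cx.extend`, `Cx.lift`. `b(z) ∈ P_a(D)`: in `CC_G` by `Γ ⊆ P_{a'} × ψ₁`, `ψ₁ ≤ P_a`; in `FF_G` by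
`NiceF.le_FF` for `[E; b]` (`E` is cofibrant: `Cx.cofP`). The identity: `Γ(z_c, b(z))`, `Γ(0, k(w))` in `B.dual ∈ FF_G`, so `Γ(z_c, b(z) + k(w))`.
Strictness: let `χ` be killed by `g` and `P_a ≤ {y : ∃ z w, y = b(z) + k(w)} + χ` in `CC_G`; the first summand is `≤ ψ₁`, so `ψ₂ ≤ P_a ≤ ψ₁ + χ` in `CC_G`, hence in
`B.dual`. For `f ∈ ψ₂(B.dual)`: `f = f₁ + c`, `f₁ = f - c ∈ ψ₁ ∩ (ψ₂ + χ)`, so `f₁(g) = 0`, `c(g) = 0`: `g` kills `ψ₂`, contradiction.
-/

namespace Pool.Agent.Helper13.SDW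

universe u

variable {K : Type u} [Field K] {S : Sys K} {G : Set S.Tp} {Bl : S.Tp → Set S.Tp}

/-- The labels of an atom. -/
private theorem k2_lab (T : Set S.Tp) (a : S.Nd) :
    ∀ q ∈ (Pre.one K (.inl a : S.L)).c, q.1 ∈ S.lab T := by
  intro q hq τ hτ
  rw [List.mem_singleton.1 (show q ∈ [((.inl a : S.L), fun _ : Fin 1 => (1 : K))] from hq)] at hτ
  cases hτ

private theorem k2_node (T : Set S.Tp) (a : S.Nd) :
    IsDef (S.lab T) (fun (M : Obj K S.L) (y : Unit → M) => y () ∈ M.P (.inl a)) :=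
  (IsDef.lab (Λ := S.lab T) (l := .inl a) (fun τ hτ => by cases hτ)
    (fun _ : Unit => (1 : K))).congr fun M y => by
      have h1 : lin (fun _ : Unit => (1 : K)) y = y () := by
        simp [lin]
      rw [h1]

/-- Complexes over an atom are relatively cofibrant over it. -/
private theorem k2_relP {T : Set S.Tp} {a : S.Nd} {E : Pre K S.L}
    {e : Fin (Pre.one K (.inl a : S.L)).n → Fin E.n} (hC : Cx T (Pre.one K (.inl a)) E e) :
    RelP S T a E (e (0 : Fin 1)) where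
  mem D _ z hz := (Pre.one_hom (.inl a : S.L) D _).1 (hC.restrict hz)
  ext D hD x hx := by
    obtain ⟨z, hz, hze⟩ := hC.extend hD (x := fun _ => x) ((Pre.one_hom (.inl a : S.L) D _).2 hx)
    exact ⟨z, hz, hze (0 : Fin 1)⟩
  lift A D p hA hD hp x hx y hy hxy := by
    obtain ⟨z, hz, hze, hpz⟩ := hC.lift hA hD hp (x := fun _ => x)
      ((Pre.one_hom (.inl a : S.L) A _).2 hx) hy (fun i => by
        have h1 : i = (0 : Fin 1) := Subsingleton.elim (α := Fin 1) i 0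
        rw [h1]
        exact hxy)
    exact ⟨z, hz, hze (0 : Fin 1), hpz⟩

theorem kill_step (h : S.OK G Bl) (hG : S.Down G Bl G) (hN : S.Nice G)
    (hNB : ∀ σ ∈ G, S.Nice (Bl σ)) {B : Obj K S.L} (hB : S.Mod G B) (hNU : S.NU G B)
    (hA : S.AllGood G) {a : S.Nd} {g : B}
    (hg : ¬ Kills1 B (fun M x => x ∈ M.P (.inl a)) g) :
    ∃ (a' : S.Nd) (g' : B) (E : Pre K S.L) (c : Fin E.n) (b : Fin E.n → K) (Kp : Pre K S.L)
      (k : Fin Kp.n → K),
      (∀ q ∈ E.c, q.1 ∈ S.lab G) ∧ (∀ q ∈ Kp.c, q.1 ∈ S.lab G) ∧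
      RelP S G a' E c ∧ S.CofP G Kp ∧
      (∀ M : Obj K S.L, S.FF G M → ∀ z : Fin E.n → M, E.Hom M z → lin b z ∈ M.P (.inl a)) ∧
      (∀ M : Obj K S.L, S.FF G M → ∀ w : Fin Kp.n → M, Kp.Hom M w → lin k w ∈ M.P (.inl a)) ∧
      ¬ Kills1 B (fun M x => x ∈ M.P (.inl a')) g' ∧
      (∀ z : Fin E.n → B.dual, E.Hom B.dual z → ∀ w : Fin Kp.n → B.dual, Kp.Hom B.dual w →
        (z c : Module.Dual K B) g' = (lin b z + lin k w : Module.Dual K B) g) ∧
      ∀ χ : SF1 K S.L, Def1 (S.lab G) χ → Kills1 B χ g →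
        ¬ ∀ M : Obj K S.L, S.CC G M → ∀ x ∈ M.P (.inl a), ∃ y z,
          (∃ (z' : Fin E.n → M) (w : Fin Kp.n → M), E.Hom M z' ∧ Kp.Hom M w ∧
            y = lin b z' + lin k w) ∧ χ M z ∧ x = y + z := by
  obtain ⟨ψ₁, ψ₂, d1, d2, h1, h2, k1, k2, hk⟩ := hNU g _ (k2_node G a) hg
  have hcl : S.Closed G := h.closed hG
  rw [kills1_iff] at k1
  obtain ⟨a', g', Γ, dΓ, hΓ1, hΓ2, hΓ3, hg'⟩ := red_all h hG hN hNB hB hNU hA d1 k1
  have hΓ1' : ∀ M : Obj K S.L, S.CC G M → ∀ x y : M,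
      Γ M (Sum.elim (fun _ => x) (fun _ => y)) → ψ₁ M y := fun M hM x y hy => (hΓ1 M hM _ hy).2
  -- the kernel
  have dK : IsDef (S.lab G) (fun (M : Obj K S.L) (y : Unit → M) =>
      Γ M (Sum.elim (fun _ => 0) (fun _ => y ()))) := by
    refine (dΓ.subst (κ := Unit) (Sum.elim (fun _ => fun _ => (0 : K))
      (fun _ => fone (K := K) ()))).congr fun M y => ?_
    have e1 : (fun k => lin ((Sum.elim (fun _ => fun _ => (0 : K))
        (fun _ => fone (K := K) ()) : Unit ⊕ Unit → Unit → K) k) y) =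
        Sum.elim (fun _ => 0) (fun _ => y ()) := by
      funext k
      rcases k with k | k
      · exact lin_fzero y
      · exact lin_fone () y
    rw [e1]
  obtain ⟨χ, hχl, hχc, hχs⟩ := hN Unit _ dK
  have hKΓ : ∀ M : Obj K S.L, S.FF G M → ∀ w : Fin χ.n → M, χ.toPre.Hom M w →
      Γ M (Sum.elim (fun _ => 0) (fun _ => lin (χ.out ()) w)) := fun M hM w hw =>
    NiceF.le_FF hcl h.proot dK hχl hχc (fun M hM y hy => (hχs M hM y).2 hy) hM
      (y := fun _ => lin (χ.out ()) w) ⟨w, hw, fun _ => rfl⟩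
  have hKa : ∀ M : Obj K S.L, S.FF G M → ∀ w : Fin χ.n → M, χ.toPre.Hom M w →
      lin (χ.out ()) w ∈ M.P (.inl a) := fun M hM w hw =>
    NiceF.le_FF hcl h.proot (k2_node G a) hχl hχc (fun M hM y hy =>
      h1 M hM.ff _ (hΓ1' M hM _ _ ((hχs M hM y).2 hy))) hM
      (y := fun _ => lin (χ.out ()) w) ⟨w, hw, fun _ => rfl⟩
  -- the complex
  have hlab₀ := k2_lab (K := K) (S := S) G a'
  have hNc : S.CC G (Nc G ((Pre.one K (.inl a' : S.L)).obj (S := S)) PUnit) :=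
    obj_cc hcl h.proot (cofP_one a') hlab₀
  have hcP := (Pre.one_hom (.inl a' : S.L) (Nc G ((Pre.one K (.inl a' : S.L)).obj (S := S)) PUnit)
    (fun i => (Pre.gen (Pre.one K (.inl a' : S.L)) i, 0))).1
      (gen_hom_Nc (T := G) (Pre.one K (.inl a' : S.L)) PUnit)
  obtain ⟨y₀, hy₀, hy₀x⟩ := hΓ2 _ hNc _ hcP
  obtain ⟨E, e, t, x, hCx, hx, hxe, ht, hlin, hext⟩ := relcx hcl h.proot
    (Pre.one K (.inl a' : S.L)) hlab₀ (fun _ : Unit => (.inl S.root : S.L))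
    (fun _ τ hτ => by cases hτ) (fun _ => y₀ (.inr ())) (fun _ => by
      rw [hNc.ff.root]
      exact Submodule.mem_top)
  have hEΓ : ∀ D : Obj K S.L, S.FF G D → ∀ z : Fin E.n → D, E.Hom D z →
      Γ D (Sum.elim (fun _ => z (e (0 : Fin 1))) (fun _ => lin (t ()) z)) := by
    intro D hD z hz
    obtain ⟨f, hf, hfx⟩ := hext D hD z hz
    have e1 := dΓ.map hf hy₀
    have e2 : (fun k => f (y₀ k)) =
        Sum.elim (fun _ => z (e (0 : Fin 1))) (fun _ => lin (t ()) z) := by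
      funext k
      rcases k with k | k
      · change f (y₀ (.inl ())) = z (e (0 : Fin 1))
        rw [hy₀x, ← hfx, hxe]
      · change f (y₀ (.inr ())) = lin (t ()) z
        rw [← hlin (), map_lin]
        simp only [hfx]
    rw [e2] at e1
    exact e1
  have hlabE := Cx.lab hcl hCx hlab₀
  have hEa : ∀ M : Obj K S.L, S.FF G M → ∀ z : Fin E.n → M, E.Hom M z →
      lin (t ()) z ∈ M.P (.inl a) := fun M hM z hz =>
    NiceF.le_FF (χ := ⟨E, fun _ => t ()⟩) hcl h.proot (k2_node G a) hlabE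
      (hCx.cofP (cofP_one a')) (fun M hM y hy => by
        obtain ⟨z, hz, hyz⟩ := hy
        rw [hyz ()]
        exact h1 M hM.ff _ (hΓ1' M hM _ _ (hEΓ M hM.ff z hz))) hM
      (y := fun _ => lin (t ()) z) ⟨z, hz, fun _ => rfl⟩
  have hsum : ∀ D : Obj K S.L, S.FF G D → ∀ z : Fin E.n → D, E.Hom D z →
      ∀ w : Fin χ.n → D, χ.toPre.Hom D w →
      Γ D (Sum.elim (fun _ => z (e (0 : Fin 1)))
        (fun _ => lin (t ()) z + lin (χ.out ()) w)) := by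
    intro D hD z hz w hw
    have e1 := dΓ.add_mem (hEΓ D hD z hz) (hKΓ D hD w hw)
    have e2 : (fun k => (Sum.elim (fun _ => z (e (0 : Fin 1))) (fun _ => lin (t ()) z) :
        Unit ⊕ Unit → D) k + (Sum.elim (fun _ => 0) (fun _ => lin (χ.out ()) w) :
        Unit ⊕ Unit → D) k) = Sum.elim (fun _ => z (e (0 : Fin 1)))
        (fun _ => lin (t ()) z + lin (χ.out ()) w) := by
      funext k
      rcases k with k | k
      · exact add_zero _
      · rfl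
    rw [e2] at e1
    exact e1
  refine ⟨a', g', E, e (0 : Fin 1), t (), χ.toPre, χ.out (), hlabE, hχl, k2_relP hCx, hχc, hEa,
    hKa, hg', ?_, ?_⟩
  · intro z hz w hw
    have e1 := hΓ3 _ (hsum B.dual (Mod.ff h hG hB) z hz w hw)
    rw [Fintype.sum_unique] at e1
    exact e1
  · intro χ' dχ' kχ' H
    refine k2 fun f hf => ?_
    obtain ⟨f₁, c, hf₁, hc, hfc⟩ := Mod.le1 hB (F := ψ₂)
      (H := fun M x => ∃ y z, ψ₁ M y ∧ χ' M z ∧ x = y + z) d2
      ((isDef_sumF d1 dχ').congr fun M y =>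
        ⟨fun ⟨a, b, ha, hb, h⟩ => ⟨a (), b (), ha, hb, h ()⟩,
          fun ⟨a, b, ha, hb, h⟩ => ⟨fun _ => a, fun _ => b, ha, hb, fun _ => h⟩⟩)
      (fun M hM x hx => by
        obtain ⟨y, z, ⟨z', w, hz', hw, hy⟩, hz, hxyz⟩ := H M hM x (h2 M hM.ff x hx)
        refine ⟨y, z, ?_, hz, hxyz⟩
        rw [hy]
        exact hΓ1' M hM _ _ (hsum M hM.ff z' hz' w hw)) hf
    have e1 : χ' B.dual (0 - c) := by
      have e2 : χ' B.dual (0 : B.dual) := IsDef.zero_mem dχ' B.dual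
      have e5 := IsDef.sub_mem dχ' (y := fun _ => (0 : B.dual)) (z := fun _ => c) e2 hc
      exact e5
    have e3 : (f₁ : Module.Dual K B) g = 0 := hk χ' dχ' kχ' f₁
      ⟨hf₁, f, 0 - c, hf, e1, by rw [hfc, zero_sub, add_neg_cancel_right]⟩
    have e4 : (c : Module.Dual K B) g = 0 := kχ' c hc
    rw [hfc]
    change (f₁ : Module.Dual K B) g + (c : Module.Dual K B) g = 0
    rw [e3, e4, add_zero]

end Pool.Agent.Helper13.SDW
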