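import Pool.Agent.Helper13.SDW.ConcNice
import Pool.Agent.Helper13.SDW.Descend
import Pool.Agent.Helper13.SDW.Kill1
import Pool.Agent.Helper13.SDW.Kill2
import Pool.Agent.Helper13.SDW.Enc

/-!
# BLOCK SDW-KILL3: the contradiction (about 250 lines)

`S = CS K`, `G = GG K`, `cs_ok`, `nice_all`, `gg_mem`, `bl_mem`, `all_good` (`Tc = TC K`).
(1) `g_0 = b ≠ 0`, `a_0 = root` (`[]`): `g_0` does not kill `P_root` (`P_root(B.dual) = ⊤`, `Mod.ff`; a functional with `f(b) ≠ 0`).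
    Iterate `kill_step`: sequences `a_i, g_i, E_i, c_i, b_i, Kp_i, k_i` (`E_i` over the atom `a_{i+1}`, `b_i, k_i` in `P_{a_i}`). Let `p i` be the position
    `⟨a_i, E_i, c_i, b_i, Kp_i, k_i⟩`, and `f, sk` from `exists_enc`.
(2) For `h' : ℕ → ℕ` and `i` let `ξ(h', i)` be the dummy `(a_{i+1}, (Ty.mk f sk h', i))`. There is `m` such that `g_{i+1}` kills
    `V_ξ ∩ P_{chN m}`: otherwise `uniform_lemma` for `s = ξ(h', i)`, `A = gA`, `E = gE` (`(all_good).good`, `gFam`; `U_m = labFm (chN m)`, `Z_l = 0`, so `V ∩ Z_l` is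
    killed) gives `False`. Let `φ h' i` be such an `m`, `h` from `exists_rec`, `t = Ty.mk f sk h`. Then `t.pos i = p i`, `t.nm i = (Ty.mk f sk (h|i), i)`,
    and `g_{i+1}` kills `V_{ξ i} ∩ Bc i (h i)` for `ldC t`.
(3) `t` is hereditarily well formed: for `Men t' t` the label `.inr (.inr t')` occurs in `E_i` or `Kp_i`, which are over `lab G`, so `WF t'`; hence `WF1 t''` for all
    `t''` with `ReflTransGen Men t'' t`, `t'' ≠ t` (`Relation.ReflTransGen.cases_tail` or `TransGen.tail'`), and `Bl (.inr t) ⊆ G`, downward closed. `WF1 t`: `t ≠ base`;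
    `(ldC t).OK (Bl (.inr t))`: `mem`, `dum` (`isDummy_cs`), `Bc0`, labels: over `lab (Bl (.inr t))` by `Men`; `relE`, `cofK`, `bE`, `bK` by `relP_descend`, `cofP_descend`,
    `hom_descend` from `G`. Third part: `kill_Z`, `not_kill_U` for `X = ldC t`, `T = Bl (.inr t)`: if `U_n ≤ Z_l` in `FF_{Bl t}` then `g_0` kills `U_n` (`B.dual ∈ FF_G ⊆ FF_{Bl t}`), contradiction.
(4) So `.inr t ∈ G`. `uniform_lemma` for `s = .inr t`, `gA, gE` (`cs_U`, `cs_Z`): `g_0` kills `V_t ∩ Z_l` (`kill_Z`), and does not kill `V_t ∩ U_m`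
    (`not_kill_VU` with `T' = G`; strictness from `kill_step`): `False`.
-/

namespace Pool.Agent.Helper13.SDW

universe u

variable {K : Type u} [Field K]

/-- One step of the construction, with the position `p` over the node `p.a`. -/
private structure K3Step (B : Obj K (CS K).L) (g : B) (a' : (CS K).Nd) (g' : B)
    (p : Pos K (Ty K)) : Prop where
  labE : ∀ q ∈ p.E.c, q.1 ∈ (CS K).lab (GG K)
  labK : ∀ q ∈ p.Kp.c, q.1 ∈ (CS K).lab (GG K)
  rel : RelP (CS K) (GG K) a' p.E p.c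
  cof : (CS K).CofP (GG K) p.Kp
  bE : ∀ M : Obj K (CS K).L, (CS K).FF (GG K) M → ∀ z : Fin p.E.n → M, p.E.Hom M z →
    lin p.b z ∈ M.P (.inl p.a)
  bK : ∀ M : Obj K (CS K).L, (CS K).FF (GG K) M → ∀ w : Fin p.Kp.n → M, p.Kp.Hom M w →
    lin p.k w ∈ M.P (.inl p.a)
  ev : ∀ z : Fin p.E.n → B.dual, p.E.Hom B.dual z → ∀ w : Fin p.Kp.n → B.dual,
    p.Kp.Hom B.dual w →
      (z p.c : Module.Dual K B) g' = (lin p.b z + lin p.k w : Module.Dual K B) g
  st : ∀ χ : SF1 K (CS K).L, Def1 ((CS K).lab (GG K)) χ → Kills1 B χ g →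
    ¬ ∀ M : Obj K (CS K).L, (CS K).CC (GG K) M → ∀ x ∈ M.P (.inl p.a), ∃ y z,
      (∃ (z' : Fin p.E.n → M) (w : Fin p.Kp.n → M), p.E.Hom M z' ∧ p.Kp.Hom M w ∧
        y = lin p.b z' + lin p.k w) ∧ χ M z ∧ x = y + z

private theorem k3_allgood : (CS K).AllGood (GG K) :=
  all_good cs_ok (Tc := TC K) (fun _ hT => hT.1) (fun _ hσ => bl_mem hσ)
    (fun _ hT => nice_all hT) gg_mem

private theorem k3_root {B : Obj K (CS K).L} (hB : (CS K).Mod (GG K) B) {b : B} (hb : b ≠ 0) :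
    ¬ Kills1 B (fun M x => x ∈ M.P (.inl ([] : NodeF (Ty K)))) b := by
  intro h
  have hFF : (CS K).FF (GG K) B.dual := Mod.ff cs_ok gg_mem.1 hB
  apply hb
  refine (Module.forall_dual_apply_eq_zero_iff K b).1 fun f => ?_
  refine h f ?_
  have h1 : B.dual.P (.inl (CS K).root) = ⊤ := hFF.root
  change (f : B.dual) ∈ B.dual.P (.inl (CS K).root)
  rw [h1]
  exact Submodule.mem_top

/-- The sequences of positions and elements. -/
private theorem k3_seq {B : Obj K (CS K).L} (hB : (CS K).Mod (GG K) B)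
    (hNU : (CS K).NU (GG K) B) {b : B} (hb : b ≠ 0) :
    ∃ (g : ℕ → B) (p : ℕ → Pos K (Ty K)),
      (∀ i, ¬ Kills1 B (fun M x => x ∈ M.P (.inl (p i).a)) (g i)) ∧
      ∀ i, K3Step B (g i) (p (i + 1)).a (g (i + 1)) (p i) := by
  have hstep : ∀ s : {s : NodeF (Ty K) × B //
      ¬ Kills1 B (fun M x => x ∈ M.P (.inl s.1)) s.2},
      ∃ (s' : {s : NodeF (Ty K) × B // ¬ Kills1 B (fun M x => x ∈ M.P (.inl s.1)) s.2})
        (p : Pos K (Ty K)), p.a = s.1.1 ∧ K3Step B s.1.2 s'.1.1 s'.1.2 p := by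
    rintro ⟨⟨a, g⟩, hg⟩
    obtain ⟨a', g', E, c, b', Kp, k, h1, h2, h3, h4, h5, h6, h7, h8, h9⟩ :=
      kill_step cs_ok gg_mem.1 (nice_all gg_mem) (fun σ hσ => nice_all (bl_mem hσ)) hB hNU
        k3_allgood (a := a) (g := g) hg
    exact ⟨⟨(a', g'), h7⟩, ⟨a, E, c, b', Kp, k⟩, rfl,
      { labE := h1
        labK := h2
        rel := h3
        cof := h4
        bE := h5
        bK := h6
        ev := h8
        st := h9 }⟩
  choose F P hP1 hP2 using hstep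
  let s0 : {s : NodeF (Ty K) × B // ¬ Kills1 B (fun M x => x ∈ M.P (.inl s.1)) s.2} :=
    ⟨([], b), k3_root hB hb⟩
  refine ⟨fun i => (F^[i] s0).1.2, fun i => P (F^[i] s0), fun i => ?_, fun i => ?_⟩
  · change ¬ Kills1 B (fun M x => x ∈ M.P (.inl (P (F^[i] s0)).a)) (F^[i] s0).1.2
    rw [hP1]
    exact (F^[i] s0).2
  · change K3Step B (F^[i] s0).1.2 (P (F^[i + 1] s0)).a (F^[i + 1] s0).1.2 (P (F^[i] s0))
    rw [hP1, Function.iterate_succ_apply']
    exact hP2 _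

private theorem k3_U_mono {τ : (CS K).Tp} (hτ : τ ∈ GG K) {n n' : ℕ} (hn : n ≤ n') :
    (CS K).LeF (Bl τ) ((CS K).U τ n').S1 ((CS K).U τ n).S1 := by
  induction n', hn using Nat.le_induction with
  | base => exact leF_refl67 _
  | succ m _ ih => exact leF_trans67 (cs_ok.UU τ hτ m) ih

/-- `g` kills `V_ξ ∩ P_{chN m}` for some `m`, for all dummies `ξ`. -/
private theorem k3_dummy {B : Obj K (CS K).L} (hB : (CS K).Mod (GG K) B)
    (hNU : (CS K).NU (GG K) B) (g : B) (a : NodeF (Ty K)) (w : Ty K × ℕ) :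
    ∃ m, Kills1 B (fun M x => x ∈ M.P (.inr (.inl (a, w))) ∧ x ∈ M.P (.inl (chN a w m))) g := by
  by_contra hcon
  push Not at hcon
  have hs : (.inl (a, w) : (CS K).Tp) ∈ GG K := Or.inl ⟨a, w, rfl⟩
  refine uniform_lemma cs_ok gg_mem.1 hB hNU hs (gFam cs_ok hs)
    (fun m m' hm => k3_U_mono hs hm) (k3_allgood.good _ hs) (g := g) ?_ ?_
  · intro m h
    refine hcon m fun f hf => h f ⟨hf.1, ?_⟩
    exact (labFm_iff _ B.dual f).2 hf.2
  · intro l f hf
    have h1 : (f : B.dual) = 0 := (zero_iff B.dual f).1 hf.2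
    rw [h1]
    rfl

theorem no_nu {B : Obj K (CS K).L} (hB : (CS K).Mod (GG K) B) (hNU : (CS K).NU (GG K) B)
    {b : B} (hb : b ≠ 0) : False := by
  have hFF : (CS K).FF (GG K) B.dual := Mod.ff cs_ok gg_mem.1 hB
  obtain ⟨g, p, hng', hS'⟩ := k3_seq hB hNU hb
  obtain ⟨f, sk, henc⟩ := exists_enc p
  choose φ hφ using fun (h' : ℕ → ℕ) (i : ℕ) =>
    k3_dummy hB hNU (g (i + 1)) (p (i + 1)).a (Ty.mk f sk h', i)
  obtain ⟨h, hh⟩ := exists_rec φ
  obtain ⟨t, ht⟩ : ∃ t, t = Ty.mk f sk h := ⟨_, rfl⟩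
  have hpos : ∀ i, t.pos i = p i := fun i => by
    rw [ht]
    exact henc i
  have hng : ∀ i, ¬ Kills1 B (fun M x => x ∈ M.P (.inl (t.pos i).a)) (g i) := fun i => by
    rw [hpos]
    exact hng' i
  have hS : ∀ i, K3Step B (g i) (t.pos (i + 1)).a (g (i + 1)) (t.pos i) := fun i => by
    rw [hpos, hpos]
    exact hS' i
  have hΔ : ∀ i, Kills1 B (fun M x => x ∈ M.P (.inr ((ldC t).ξ i)) ∧
      x ∈ M.P (.inl ((ldC t).Bc i ((ldC t).m i)))) (g (i + 1)) := by
    intro i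
    change Kills1 B (fun M x => x ∈ M.P (.inr (.inl ((t.pos (i + 1)).a, t.nm i))) ∧
      x ∈ M.P (.inl (chN (t.pos (i + 1)).a (t.nm i) (t.ht i)))) (g (i + 1))
    have h1 : t.nm i = (Ty.mk f sk (fun j => if j < i then h j else 0), i) := by
      rw [ht]
      rfl
    have h2 : t.ht i = φ (fun j => if j < i then h j else 0) i := by
      rw [ht]
      exact hh i
    rw [hpos, h1, h2]
    exact hφ _ i
  have hΓ : ∀ i, ∀ x y : B.dual, (ldC t).Gam i B.dual x y →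
      (x : Module.Dual K B) (g (i + 1)) = (y : Module.Dual K B) (g i) := by
    rintro i x y ⟨z, hz, rfl, w, hw, rfl⟩
    exact (hS i).ev z hz w hw
  -- the terms below `t` are well formed
  have hmen : ∀ t', Men t' t → WF t' := by
    rintro t' ⟨i, ⟨q, hq, hqt⟩ | ⟨q, hq, hqt⟩⟩
    · rcases (hS i).labE q hq _ hqt with ⟨a, w, h1⟩ | ⟨t₁, h1, h2⟩
      · cases h1
      · cases h1
        exact h2
    · rcases (hS i).labK q hq _ hqt with ⟨a, w, h1⟩ | ⟨t₁, h1, h2⟩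
      · cases h1
      · cases h1
        exact h2
  have htg : ∀ t', Relation.TransGen Men t' t → WF t' := by
    intro t' h1 t'' h2
    obtain ⟨c, h3, h4⟩ := Relation.TransGen.tail'_iff.1 h1
    exact hmen c h4 t'' (h2.trans h3)
  have hBG : Bl (.inr t) ⊆ GG K := by
    rintro τ (h1 | ⟨t', rfl, h1⟩)
    · exact Or.inl h1
    · exact Or.inr ⟨t', rfl, htg t' h1⟩
  have hBd : (CS K).Down (GG K) Bl (Bl (.inr t)) := by
    refine ⟨hBG, fun τ hτ => ?_⟩
    rcases hτ with ⟨a, w, rfl⟩ | ⟨t', rfl, h1⟩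
    · exact fun σ hσ => absurd hσ (Set.notMem_empty σ)
    · rintro σ (h2 | ⟨t'', rfl, h2⟩)
      · exact Or.inl h2
      · exact Or.inr ⟨t'', rfl, h2.trans h1⟩
  have hlE : ∀ i, ∀ q ∈ (t.pos i).E.c, q.1 ∈ (CS K).lab (Bl (.inr t)) := by
    intro i q hq τ hτ
    rcases (hS i).labE q hq τ hτ with h1 | ⟨t₁, rfl, h2⟩
    · exact Or.inl h1
    · exact Or.inr ⟨t₁, rfl, Relation.TransGen.single ⟨i, Or.inl ⟨q, hq, hτ⟩⟩⟩
  have hlK : ∀ i, ∀ q ∈ (t.pos i).Kp.c, q.1 ∈ (CS K).lab (Bl (.inr t)) := by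
    intro i q hq τ hτ
    rcases (hS i).labK q hq τ hτ with h1 | ⟨t₁, rfl, h2⟩
    · exact Or.inl h1
    · exact Or.inr ⟨t₁, rfl, Relation.TransGen.single ⟨i, Or.inr ⟨q, hq, hτ⟩⟩⟩
  have hX : (ldC t).OK (Bl (.inr t)) :=
    { mem := fun i => Or.inl ⟨_, _, rfl⟩
      dum := fun i => isDummy_cs _ _
      Bc0 := fun i => rfl
      labE := hlE
      labK := hlK
      relE := fun i => relP_descend cs_ok hBd gg_mem.1 (hlE i) (hS i).rel
      cofK := fun i => cofP_descend cs_ok hBd gg_mem.1 (hlK i) (hS i).cof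
      bE := fun i => hom_descend cs_ok hBd gg_mem.1 (hlE i) (hS i).bE
      bK := fun i => hom_descend cs_ok hBd gg_mem.1 (hlK i) (hS i).bK }
  have hFB : (CS K).FF (Bl (.inr t)) B.dual := hFF.mono hBG
  have hW1 : WF1 t := by
    refine ⟨?_, hX, fun n l hle => ?_⟩
    · rw [ht]
      exact fun h1 => by cases h1
    · refine not_kill_U (ldC t) hX hFB g hΓ hΔ (n := n) (hng n) fun f' hf' => ?_
      exact kill_Z (ldC t) g hΓ hΔ l f' (hle B.dual hFB f' hf')
  have hW : WF t := by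
    intro t' h1
    rcases Relation.reflTransGen_iff_eq_or_transGen.1 h1 with h2 | h2
    · rw [← h2]
      exact hW1
    · exact htg t' h2 t' Relation.ReflTransGen.refl
  have htG : (.inr t : (CS K).Tp) ∈ GG K := Or.inr ⟨t, rfl, hW⟩
  refine uniform_lemma cs_ok gg_mem.1 hB hNU htG (gFam cs_ok htG)
    (fun m m' hm => k3_U_mono htG hm) (k3_allgood.good _ htG) (g := g 0) ?_ ?_
  · intro m
    have h1 := not_kill_VU (ldC t) hX hBG g hΓ hΔ htG (cs_U t) m (by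
      intro χ dχ kχ hall
      refine (hS m).st χ dχ kχ fun M hM x hx => ?_
      obtain ⟨y, z, ⟨x', z', hz', -, w, hw, hy⟩, hz, hxyz⟩ := hall M hM x hx
      exact ⟨y, z, ⟨z', w, hz', hw, hy⟩, hz, hxyz⟩)
    rw [← cs_U t m] at h1
    exact h1
  · intro l f' hf'
    have h1 := hf'.2
    change ((CS K).Z (.inr t) l).S1 B.dual f' at h1
    rw [cs_Z] at h1
    exact kill_Z (ldC t) g hΓ hΔ l f' h1

end Pool.Agent.Helper13.SDW
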