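import Pool.Agent.Helper13.SDW.LDDefs

/-!
# BLOCK SDW-LD1: the formulas of limit data: meaning and inclusions (about 200 lines)

* `gp_iff`, `gm_iff`: unfold (`Pre.sum_hom`, `Pre.addc_hom`, `lin_append`).
* `up_iff`: induction on `j`.
* inclusions: `Γ_i ⊆ P_{a (i+1)} × P_{a i}` (`bE`, `bK`), so `gp i F ≤ P_{a i}`; `up` is monotone; `0 ≤ F`.
  `gm l ≤ gp l 0`: `Bc (m+1) ≤ Bc m`.
-/

namespace Pool.Agent.Helper13.SDW

universe u

variable {K : Type u} [Field K] {S : Sys K}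

private theorem lin_neg_left {D : Type u} [AddCommGroup D] [Module K D] {n : ℕ} (v : Fin n → K)
    (x : Fin n → D) : lin (-v) x = -lin v x := by
  have h := lin_smul_left (-1 : K) v x
  rw [neg_one_smul, neg_one_smul] at h
  exact h

private theorem lin_single_left {D : Type u} [AddCommGroup D] [Module K D] {n : ℕ} (c : Fin n)
    (x : Fin n → D) : lin (Pi.single c (1 : K)) x = x c := by
  simp [lin, Pi.single_apply, ite_smul]

private theorem lab_sum' {Λ : Set S.L} {G H : Pre K S.L} (hG : ∀ q ∈ G.c, q.1 ∈ Λ)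
    (hH : ∀ q ∈ H.c, q.1 ∈ Λ) : ∀ q ∈ (G.sum H).c, q.1 ∈ Λ := by
  intro q hq
  rcases Pre.mem_sum_c.1 hq with ⟨p, hp, rfl⟩ | ⟨p, hp, rfl⟩
  · exact hG p hp
  · exact hH p hp

private theorem lab_addc' {Λ : Set S.L} {G : Pre K S.L} {l : S.L} {v : Fin G.n → K}
    (hG : ∀ q ∈ G.c, q.1 ∈ Λ) (hl : l ∈ Λ) : ∀ q ∈ (G.addc l v).c, q.1 ∈ Λ := by
  intro q hq
  rcases List.mem_append.1 hq with hq | hq
  · exact hG q hq
  · rw [List.mem_singleton.1 hq]
    exact hl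

private theorem inl_lab {T : Set S.Tp} (a : S.Nd) : (Sum.inl a : S.L) ∈ S.lab T :=
  fun τ h => by cases h

private theorem inr_lab {T : Set S.Tp} {σ : S.Tp} (hσ : σ ∈ T) : (Sum.inr σ : S.L) ∈ S.lab T :=
  fun τ h => by
    rw [← Sum.inr.inj h]
    exact hσ

theorem labFm_iff (l : S.L) (M : Obj K S.L) (x : M) : (labFm K l).S1 M x ↔ x ∈ M.P l := by
  have h1 : ∀ z : Fin 1 → M, lin (fun _ : Fin 1 => (1 : K)) z = z 0 := fun z => by
    simp [lin]
  have h0 : (labFm K l).S1 M x ↔ ∃ z : Fin 1 → M, (Pre.one K l).Hom M z ∧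
      x = lin (fun _ : Fin 1 => (1 : K)) z :=
    ⟨fun ⟨z, hz, hx⟩ => ⟨z, hz, hx ()⟩, fun ⟨z, hz, hx⟩ => ⟨z, hz, fun _ => hx⟩⟩
  rw [h0]
  constructor
  · rintro ⟨z, hz, h2⟩
    rw [h1] at h2
    rw [h2]
    exact (Pre.one_hom l M z).1 hz
  · intro h
    exact ⟨fun _ => x, (Pre.one_hom l M _).2 h, (h1 (fun _ => x)).symm⟩

theorem zero_iff (M : Obj K S.L) (x : M) : (Fm.zero K S.L).S1 M x ↔ x = 0 := by
  constructor
  · rintro ⟨z, -, hx⟩
    have h2 : x = lin (fun _ : Fin 0 => (0 : K)) z := hx ()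
    rw [h2]
    exact lin_zero_left z
  · rintro rfl
    refine ⟨fun i => i.elim0, fun q hq => absurd hq List.not_mem_nil, fun _ => ?_⟩
    exact (lin_zero_left _).symm

theorem labFm_cof {T : Set S.Tp} (a : S.Nd) : S.CofP T (labFm K (.inl a) : Fm K S.L Unit).toPre :=
  cofP_one a

theorem zero_cof {T : Set S.Tp} : S.CofP T (Fm.zero K S.L).toPre :=
  cofP_nil

private theorem d2_subst {Λ : Set S.L} {κ : Type} [Fintype κ] {F : SF2 K S.L} (hF : Def2 Λ F)
    (i j : κ) : IsDef Λ (fun (M : Obj K S.L) (y : κ → M) => F M (y i) (y j)) := by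
  refine (IsDef.subst hF (fun k : Fin 2 => if k = 0 then fone i else fone j)).congr fun M y => ?_
  have h0 : lin (if (0 : Fin 2) = 0 then fone (K := K) i else fone j) y = y i := by
    rw [if_pos rfl, lin_fone]
  have h1 : lin (if (1 : Fin 2) = 0 then fone (K := K) i else fone j) y = y j := by
    rw [if_neg (by decide), lin_fone]
  change F M (lin (if (0 : Fin 2) = 0 then fone (K := K) i else fone j) y)
    (lin (if (1 : Fin 2) = 0 then fone (K := K) i else fone j) y) ↔ _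
  rw [h0, h1]

private theorem d_sub {Λ : Set S.L} {κ : Type} [Fintype κ] {l : S.L} (hl : l ∈ Λ)
    (i j : κ) : IsDef Λ (fun (M : Obj K S.L) (y : κ → M) => y i - y j ∈ M.P l) := by
  refine (IsDef.lab hl (fone (K := K) i + (-1 : K) • fone j)).congr fun M y => ?_
  rw [lin_add_left, lin_smul_left, lin_fone, lin_fone, neg_one_smul, ← sub_eq_add_neg]

private theorem d_eq {Λ : Set S.L} {κ : Type} [Fintype κ]
    (i j : κ) : IsDef Λ (fun (M : Obj K S.L) (y : κ → M) => y i = y j) := by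
  refine (IsDef.eq0 (fone (K := K) i + (-1 : K) • fone j)).congr fun M y => ?_
  rw [lin_add_left, lin_smul_left, lin_fone, lin_fone, neg_one_smul, ← sub_eq_add_neg,
    sub_eq_zero]

namespace LD

variable (X : LD S) {T : Set S.Tp}

theorem gp_iff (i : ℕ) (F : Fm K S.L Unit) (M : Obj K S.L) (y : M) :
    (X.gp i F).S1 M y ↔ ∃ x' x, F.S1 M x ∧ x' - x ∈ M.P (.inr (X.ξ i)) ∧
      x' - x ∈ M.P (.inl (X.Bc i (X.m i))) ∧ X.Gam i M x' y := by
  have h0 : (X.gp i F).S1 M y ↔ ∃ z : Fin ((X.E i).n + (X.Kp i).n + F.n) → M,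
      ((((((X.E i).sum (X.Kp i)).sum F.toPre).addc (.inr (X.ξ i))
      (Fin.append (Fin.append (Pi.single (X.c i) 1) (fun _ => 0)) (- F.out ()))).addc
      (.inl (X.Bc i (X.m i)))
      (Fin.append (Fin.append (Pi.single (X.c i) 1) (fun _ => 0)) (- F.out ())))).Hom M z ∧
      y = lin (Fin.append (Fin.append (X.b i) (X.k i)) (fun _ => 0)) z :=
    ⟨fun ⟨z, hz, hx⟩ => ⟨z, hz, hx ()⟩, fun ⟨z, hz, hx⟩ => ⟨z, hz, fun _ => hx⟩⟩
  rw [h0]
  constructor
  · rintro ⟨z, hz, hy'⟩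
    obtain ⟨hz1, h3⟩ := (Pre.addc_hom ((((X.E i).sum (X.Kp i)).sum F.toPre).addc (.inr (X.ξ i))
      (Fin.append (Fin.append (Pi.single (X.c i) 1) (fun _ => 0)) (- F.out ())))
      (.inl (X.Bc i (X.m i))) (Fin.append (Fin.append (Pi.single (X.c i) 1) (fun _ => 0))
      (- F.out ())) M z).1 hz
    obtain ⟨hz2, h2⟩ := (Pre.addc_hom (((X.E i).sum (X.Kp i)).sum F.toPre) (.inr (X.ξ i))
      (Fin.append (Fin.append (Pi.single (X.c i) 1) (fun _ => 0)) (- F.out ())) M z).1 hz1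
    obtain ⟨hz3, hF⟩ := (Pre.sum_hom ((X.E i).sum (X.Kp i)) F.toPre M z).1 hz2
    obtain ⟨hE, hK⟩ := (Pre.sum_hom (X.E i) (X.Kp i) M _).1 hz3
    rw [lin_append, lin_append] at h2 h3 hy'
    rw [lin_single_left, lin_zero_left, lin_neg_left, add_zero, ← sub_eq_add_neg] at h2 h3
    rw [lin_zero_left, add_zero] at hy'
    exact ⟨_, _, ⟨_, hF, fun _ => rfl⟩, h2, h3, _, hE, rfl, _, hK, hy'⟩
  · rintro ⟨x', x, ⟨zF, hF, hx⟩, h2, h3, zE, hE, rfl, zK, hK, hy⟩
    have hx' := hx ()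
    refine ⟨Fin.append (Fin.append zE zK) zF, (Pre.addc_hom _ _ _ M _).2
      ⟨(Pre.addc_hom _ _ _ M _).2 ⟨(Pre.sum_hom _ _ M _).2 ⟨(Pre.sum_hom _ _ M _).2 ⟨?_, ?_⟩,
        ?_⟩, ?_⟩, ?_⟩, ?_⟩
    · simpa only [Fin.append_left] using hE
    · simpa only [Fin.append_left, Fin.append_right] using hK
    · simpa only [Fin.append_right] using hF
    · rw [lin_append, lin_append, lin_single_left, lin_zero_left, lin_neg_left, add_zero,
        ← sub_eq_add_neg]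
      simp only [Fin.append_left, Fin.append_right]
      rw [← hx']
      exact h2
    · rw [lin_append, lin_append, lin_single_left, lin_zero_left, lin_neg_left, add_zero,
        ← sub_eq_add_neg]
      simp only [Fin.append_left, Fin.append_right]
      rw [← hx']
      exact h3
    · rw [lin_append, lin_append, lin_zero_left, add_zero]
      simp only [Fin.append_left, Fin.append_right]
      exact hy

theorem gm_iff (i : ℕ) (M : Obj K S.L) (y : M) :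
    (X.gm i).S1 M y ↔ ∃ x', x' ∈ M.P (.inr (X.ξ i)) ∧
      x' ∈ M.P (.inl (X.Bc i (X.m i + 1))) ∧ X.Gam i M x' y := by
  have h0 : (X.gm i).S1 M y ↔ ∃ z : Fin ((X.E i).n + (X.Kp i).n) → M,
      ((((X.E i).sum (X.Kp i)).addc (.inr (X.ξ i))
      (Fin.append (Pi.single (X.c i) 1) (fun _ => 0))).addc
      (.inl (X.Bc i (X.m i + 1))) (Fin.append (Pi.single (X.c i) 1) (fun _ => 0))).Hom M z ∧
      y = lin (Fin.append (X.b i) (X.k i)) z :=
    ⟨fun ⟨z, hz, hx⟩ => ⟨z, hz, hx ()⟩, fun ⟨z, hz, hx⟩ => ⟨z, hz, fun _ => hx⟩⟩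
  rw [h0]
  constructor
  · rintro ⟨z, hz, hy'⟩
    obtain ⟨hz1, h3⟩ := (Pre.addc_hom (((X.E i).sum (X.Kp i)).addc (.inr (X.ξ i))
      (Fin.append (Pi.single (X.c i) 1) (fun _ => 0)))
      (.inl (X.Bc i (X.m i + 1))) (Fin.append (Pi.single (X.c i) 1) (fun _ => 0)) M z).1 hz
    obtain ⟨hz2, h2⟩ := (Pre.addc_hom ((X.E i).sum (X.Kp i)) (.inr (X.ξ i))
      (Fin.append (Pi.single (X.c i) 1) (fun _ => 0)) M z).1 hz1
    obtain ⟨hE, hK⟩ := (Pre.sum_hom (X.E i) (X.Kp i) M z).1 hz2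
    rw [lin_append] at h2 h3 hy'
    rw [lin_single_left, lin_zero_left, add_zero] at h2 h3
    exact ⟨_, h2, h3, _, hE, rfl, _, hK, hy'⟩
  · rintro ⟨x', h2, h3, zE, hE, rfl, zK, hK, hy⟩
    refine ⟨Fin.append zE zK, (Pre.addc_hom _ _ _ M _).2
      ⟨(Pre.addc_hom _ _ _ M _).2 ⟨(Pre.sum_hom _ _ M _).2 ⟨?_, ?_⟩, ?_⟩, ?_⟩, ?_⟩
    · simpa only [Fin.append_left] using hE
    · simpa only [Fin.append_right] using hK
    · rw [lin_append, lin_single_left, lin_zero_left, add_zero]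
      simp only [Fin.append_left]
      exact h2
    · rw [lin_append, lin_single_left, lin_zero_left, add_zero]
      simp only [Fin.append_left]
      exact h3
    · rw [lin_append]
      simp only [Fin.append_left, Fin.append_right]
      exact hy

theorem up_iff (j : ℕ) (F : Fm K S.L Unit) (M : Obj K S.L) (y : M) :
    (X.up j F).S1 M y ↔ ∃ x, F.S1 M x ∧ X.upR j M x y := by
  induction j generalizing F with
  | zero =>
    constructor
    · intro h
      exact ⟨y, h, rfl⟩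
    · rintro ⟨x, hx, hxy⟩
      have h1 : y = x := hxy
      rw [h1]
      exact hx
  | succ j ih =>
    constructor
    · intro h
      obtain ⟨x₁, h1, h2⟩ := (ih (X.gp j F)).1 h
      obtain ⟨x', x, hx, ha, hb, hG⟩ := (X.gp_iff j F M x₁).1 h1
      exact ⟨x, hx, x', x₁, ha, hb, hG, h2⟩
    · rintro ⟨x, hx, x', x₁, ha, hb, hG, h2⟩
      exact (ih (X.gp j F)).2 ⟨x₁, (X.gp_iff j F M x₁).2 ⟨x', x, hx, ha, hb, hG⟩, h2⟩

theorem Gam_def (hl : ∀ i, ∀ q ∈ (X.E i).c, q.1 ∈ S.lab T)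
    (hk : ∀ i, ∀ q ∈ (X.Kp i).c, q.1 ∈ S.lab T) (i : ℕ) : Def2 (S.lab T) (X.Gam i) := by
  let φ : Fm K S.L (Fin 2) :=
    { toPre := (X.E i).sum (X.Kp i)
      out := fun k => if k = 0 then Fin.append (Pi.single (X.c i) 1) (fun _ => 0) else
        Fin.append (X.b i) (X.k i) }
  refine (IsDef.fm φ (lab_sum' (hl i) (hk i))).congr fun M y => ?_
  constructor
  · rintro ⟨z, hz, hy⟩
    obtain ⟨hE, hK⟩ := (Pre.sum_hom _ _ M z).1 hz
    have h0 : y 0 = lin (Fin.append (Pi.single (X.c i) (1 : K)) (fun _ : Fin (X.Kp i).n => 0)) z :=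
      hy 0
    have h1 : y 1 = lin (Fin.append (X.b i) (X.k i)) z := hy 1
    rw [lin_append] at h0 h1
    rw [lin_single_left, lin_zero_left, add_zero] at h0
    exact ⟨_, hE, h0.symm, _, hK, h1⟩
  · rintro ⟨zE, hE, h0, zK, hK, h1⟩
    refine ⟨Fin.append zE zK, (Pre.sum_hom _ _ M _).2 ⟨?_, ?_⟩, fun k => ?_⟩
    · simpa only [Fin.append_left] using hE
    · simpa only [Fin.append_right] using hK
    · fin_cases k
      · change y 0 = lin (Fin.append (Pi.single (X.c i) (1 : K)) (fun _ : Fin (X.Kp i).n => 0))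
          (Fin.append zE zK)
        rw [lin_append, lin_single_left, lin_zero_left, add_zero]
        simp only [Fin.append_left]
        exact h0.symm
      · change y 1 = lin (Fin.append (X.b i) (X.k i)) (Fin.append zE zK)
        rw [lin_append]
        simp only [Fin.append_left, Fin.append_right]
        exact h1

theorem upR_def (hX : X.OK T) (j : ℕ) : Def2 (S.lab T) (X.upR j) := by
  induction j with
  | zero => exact d_eq (1 : Fin 2) 0
  | succ j ih =>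
    refine (IsDef.ex' (κ := Fin 2) (κ' := Fin 2)
      (fun (M : Obj K S.L) (y z : Fin 2 → M) => z 0 - y 0 ∈ M.P (.inr (X.ξ j)) ∧
        z 0 - y 0 ∈ M.P (.inl (X.Bc j (X.m j))) ∧ X.Gam j M (z 0) (z 1) ∧
        X.upR j M (z 1) (y 1)) ?_).congr fun M y => ?_
    · exact (d_sub (inr_lab (hX.mem j)) (Sum.inr 0) (Sum.inl 0)).and
        ((d_sub (inl_lab _) (Sum.inr 0) (Sum.inl 0)).and
          ((d2_subst (X.Gam_def hX.labE hX.labK j) (Sum.inr 0) (Sum.inr 1)).and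
            (d2_subst ih (Sum.inr 1) (Sum.inl 1))))
    · constructor
      · rintro ⟨z, h1, h2, h3, h4⟩
        exact ⟨z 0, z 1, h1, h2, h3, h4⟩
      · rintro ⟨x', x₁, h1, h2, h3, h4⟩
        exact ⟨![x', x₁], h1, h2, h3, h4⟩

private theorem lab_gp (hX : X.OK T) (j : ℕ) (F : Fm K S.L Unit)
    (hF : ∀ q ∈ F.c, q.1 ∈ S.lab T) : ∀ q ∈ (X.gp j F).c, q.1 ∈ S.lab T :=
  lab_addc' (lab_addc' (lab_sum' (lab_sum' (hX.labE j) (hX.labK j)) hF) (inr_lab (hX.mem j)))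
    (inl_lab _)

/-- The labels of the formulas. -/
theorem lab_up (hX : X.OK T) (j : ℕ) (F : Fm K S.L Unit) (hF : ∀ q ∈ F.c, q.1 ∈ S.lab T) :
    ∀ q ∈ (X.up j F).c, q.1 ∈ S.lab T := by
  induction j generalizing F with
  | zero => exact hF
  | succ j ih => exact ih (X.gp j F) (X.lab_gp hX j F hF)

theorem lab_U (hX : X.OK T) (n : ℕ) : ∀ q ∈ (X.U n).c, q.1 ∈ S.lab T := by
  refine X.lab_up hX n _ fun q hq => ?_
  rw [List.mem_singleton.1 (show q ∈ [((Sum.inl (X.a n) : S.L), fun _ : Fin 1 => (1 : K))] from hq)]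
  exact inl_lab _

theorem lab_D (hX : X.OK T) (l : ℕ) : ∀ q ∈ (X.D l).c, q.1 ∈ S.lab T :=
  X.lab_up hX l _ (lab_addc' (lab_addc' (lab_sum' (hX.labE l) (hX.labK l)) (inr_lab (hX.mem l)))
    (inl_lab _))

theorem lab_Z (hX : X.OK T) (l : ℕ) : ∀ q ∈ (X.Z l).c, q.1 ∈ S.lab T :=
  X.lab_up hX l _ fun _ hq => absurd hq List.not_mem_nil

theorem Gam_mem (hX : X.OK T) {i : ℕ} {M : Obj K S.L} (hM : S.FF T M) {x y : M}
    (h : X.Gam i M x y) : x ∈ M.P (.inl (X.a (i + 1))) ∧ y ∈ M.P (.inl (X.a i)) := by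
  obtain ⟨z, hz, rfl, w, hw, rfl⟩ := h
  exact ⟨(hX.relE i).mem M hM z hz, Submodule.add_mem _ (hX.bE i M hM z hz) (hX.bK i M hM w hw)⟩

theorem Gam_total (hX : X.OK T) {i : ℕ} {M : Obj K S.L} (hM : S.FF T M) {x : M}
    (h : x ∈ M.P (.inl (X.a (i + 1)))) : ∃ y, X.Gam i M x y := by
  obtain ⟨z, hz, hzx⟩ := (hX.relE i).ext M hM x h
  refine ⟨_, z, hz, hzx, fun _ => 0, fun q _ => ?_, rfl⟩
  rw [lin_zero]
  exact Submodule.zero_mem _

private theorem Gam_zero (i : ℕ) (M : Obj K S.L) : X.Gam i M 0 0 := by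
  refine ⟨fun _ => 0, fun q _ => ?_, rfl, fun _ => 0, fun q _ => ?_, ?_⟩
  · rw [lin_zero]
    exact Submodule.zero_mem _
  · rw [lin_zero]
    exact Submodule.zero_mem _
  · rw [lin_zero, lin_zero, add_zero]

theorem Delta_le (hX : X.OK T) {i j : ℕ} {M : Obj K S.L} (hM : S.FF T M) {x : M}
    (h : x ∈ M.P (.inl (X.Bc i j))) : x ∈ M.P (.inl (X.a (i + 1))) := by
  induction j with
  | zero =>
    rw [hX.Bc0 i] at h
    exact h
  | succ j ih => exact ih (hM.toNodeOK.le ((hX.dum i).le j) h)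

theorem upR_total (hX : X.OK T) {j : ℕ} {M : Obj K S.L} (hM : S.FF T M) {x : M}
    (h : x ∈ M.P (.inl (X.a j))) : ∃ y, X.upR j M x y := by
  induction j generalizing x with
  | zero => exact ⟨x, rfl⟩
  | succ j ih =>
    obtain ⟨x₁, h1⟩ := X.Gam_total hX hM h
    obtain ⟨y, hy⟩ := ih (X.Gam_mem hX hM h1).2
    refine ⟨y, x, x₁, ?_, ?_, h1, hy⟩
    · rw [sub_self]
      exact Submodule.zero_mem _
    · rw [sub_self]
      exact Submodule.zero_mem _

theorem Z0 : S.LeF T (X.Z 0).S1 (fun _ x => x = 0) := fun M _ x hx => (zero_iff M x).1 hx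

theorem UU (hX : X.OK T) (n : ℕ) : S.LeF T (X.U (n + 1)).S1 (X.U n).S1 := by
  intro M hM y hy
  obtain ⟨x, -, x', x₁, -, -, hG, h2⟩ := (X.up_iff (n + 1) _ M y).1 hy
  exact (X.up_iff n _ M y).2 ⟨x₁, (labFm_iff _ M x₁).2 (X.Gam_mem hX hM hG).2, h2⟩

theorem ZD (hX : X.OK T) (l : ℕ) : S.LeF T (X.Z l).S1 (X.D l).S1 := by
  intro M hM y hy
  obtain ⟨x, hx, h2⟩ := (X.up_iff l _ M y).1 hy
  rw [zero_iff] at hx
  subst hx
  exact (X.up_iff l _ M y).2 ⟨0, (X.gm_iff l M 0).2 ⟨0, Submodule.zero_mem _,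
    Submodule.zero_mem _, X.Gam_zero l M⟩, h2⟩

theorem DZ (hX : X.OK T) (l : ℕ) : S.LeF T (X.D l).S1 (X.Z (l + 1)).S1 := by
  intro M hM y hy
  obtain ⟨x, hx, h2⟩ := (X.up_iff l _ M y).1 hy
  obtain ⟨x', ha, hb, hG⟩ := (X.gm_iff l M x).1 hx
  refine (X.up_iff (l + 1) _ M y).2 ⟨0, (zero_iff M 0).2 rfl, x', x, ?_, ?_, hG, h2⟩
  · rw [sub_zero]
    exact ha
  · rw [sub_zero]
    exact hM.toNodeOK.le ((hX.dum l).le (X.m l)) hb

theorem ZU (hX : X.OK T) (l n : ℕ) : S.LeF T (X.Z l).S1 (X.U n).S1 := by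
  intro M hM y hy
  have h1 : ∀ k, l ≤ k → (X.Z k).S1 M y := by
    intro k hk
    induction k, hk using Nat.le_induction with
    | base => exact hy
    | succ k _ ih => exact X.DZ hX k M hM y (X.ZD hX k M hM y ih)
  have h2 : ∀ k, n ≤ k → (X.U k).S1 M y → (X.U n).S1 M y := by
    intro k hk
    induction k, hk using Nat.le_induction with
    | base => exact fun h => h
    | succ k _ ih => exact fun h => ih (X.UU hX k M hM y h)
  obtain ⟨x, hx, h3⟩ := (X.up_iff (max l n) _ M y).1 (h1 (max l n) (le_max_left _ _))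
  rw [zero_iff] at hx
  subst hx
  exact h2 (max l n) (le_max_right _ _) ((X.up_iff (max l n) _ M y).2
    ⟨0, (labFm_iff _ M 0).2 (Submodule.zero_mem _), h3⟩)

end LD

end Pool.Agent.Helper13.SDW
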