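import Pool.Agent.Helper13.SDW.LD1

/-!
# BLOCK SDW-LD2: the formulas of limit data: cofibrancy and representations (about 200 lines)

* `dum_lift`: a trivial fibration lifts elements of `V_ξ ∩ Bc m`, `ξ` a dummy in `T`: the cell clause for the
  rule `u m` and `x = 0` (`(S.X ξ (u m)).S1 _ 0` by `0 ∈ P`), as `S.U ξ m = labFm (Bc m)`.
* `gp_cof`: let `F` be cofibrant and `F ≤ P_{a (i+1)}` in `FF_T`. Given `y = (z, w, f)` in `(gp i F).Hom D`: lift `f` to `f'`; lift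
  `z_c - F.out f ∈ V_ξ ∩ Bc (m i)` to `δ`; `x = F.out f' + δ ∈ P_{a (i+1)}(A)` (`Delta_le`) lifts `z_c`; lift `z` by `relE.lift`
  with `z'_c = x`; lift `w` by `cofK`.
* `gm_cof`: lift `z_c ∈ V_ξ ∩ Bc (m i + 1)` to `x`, then `z`, `w`.
* `up_cof`: induction on `j`, for `F` cofibrant with `F ≤ P_{a j}` in `FF_T` (`gp i F ≤ P_{a i}`).
* `c4`: `Ψ = upR n` restricted to `x ∈ P_{a n}`.
* `c3`: `Ψ(x, y) := ∃ δ y₁, x ∈ Bc j (m j) ∧ δ ∈ V_ξ ∧ δ ∈ Bc j (m j) ∧ x - δ ∈ Bc j (m j + 1) ∧ Γ_j(δ, y₁) ∧ upR j y₁ y`,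
  node `Bc j (m j)`. Total: density of the dummy `ξ j` for the rule `u (m j + 1)`: `Bc m ≤ V_ξ + Bc (m + 1)`; `Gam_total`
  (`Delta_le`), `upR_total` (`Gam_mem`). `Ψ(0)`: `δ ∈ Bc (m j + 1)`: `D_j`. Image `Z_{j+1} = up j (gp j 0)`: take `x = δ`.
-/

namespace Pool.Agent.Helper13.SDW

universe u

variable {K : Type u} [Field K] {S : Sys K}

/-- Zero satisfies every unary formula. -/
private theorem h60_S1_zero {L : Type u} (φ : Fm K L Unit) (M : Obj K L) : φ.S1 M 0 :=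
  ⟨fun _ => 0, fun q _ => by rw [lin_zero]; exact (M.P q.1).zero_mem, fun _ => (lin_zero _).symm⟩

private theorem h60_lin_one {D : Type u} [AddCommGroup D] [Module K D] (x : Fin 1 → D) :
    lin (fun _ : Fin 1 => (1 : K)) x = x 0 := by
  simp [lin]

private theorem h60_lin_pisingle {D : Type u} [AddCommGroup D] [Module K D] {n : ℕ} (c : Fin n)
    (x : Fin n → D) : lin (Pi.single c (1 : K)) x = x c := by
  simp [lin, Pi.single_apply, ite_smul]

private theorem h60_lin_neg {D : Type u} [AddCommGroup D] [Module K D] {n : ℕ} (v : Fin n → K)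
    (x : Fin n → D) : lin (-v) x = -lin v x := by
  simp [lin]

theorem dum_lift {T : Set S.Tp} {ξ : S.Tp} (hξ : ξ ∈ T) {Bc : ℕ → S.Nd}
    (hd : IsDummy S ξ Bc) {A D : Obj K S.L} {p : A →ₗ[K] D} (hp : S.TFib T p) (m : ℕ) {y : D}
    (h1 : y ∈ D.P (.inr ξ)) (h2 : y ∈ D.P (.inl (Bc m))) :
    ∃ x : A, x ∈ A.P (.inr ξ) ∧ x ∈ A.P (.inl (Bc m)) ∧ p x = y := by
  have h := hp.cell ξ hξ (.u m) 0 (h60_S1_zero _ A)
  have e : S.Y ξ (.u m) = labFm K (.inl (Bc m)) := hd.U m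
  rw [e] at h
  have k1 : (labFm K (.inl (Bc m)) : Fm K S.L Unit).toPre.Hom D (fun _ => y) :=
    (Pre.one_hom (Sum.inl (Bc m) : S.L) D (fun _ => y)).2 h2
  obtain ⟨z, hz1, hz2, hz3⟩ := h (fun _ => y) k1 (by
      rw [map_zero, zero_add]
      change lin (fun _ : Fin 1 => (1 : K)) (fun _ => y) ∈ _
      rw [h60_lin_one]
      exact h1)
  refine ⟨z (0 : Fin 1), ?_, (Pre.one_hom (Sum.inl (Bc m) : S.L) A z).1 hz1, hz2 (0 : Fin 1)⟩
  rw [zero_add] at hz3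
  change lin (fun _ : Fin 1 => (1 : K)) z ∈ _ at hz3
  rw [h60_lin_one] at hz3
  exact hz3

/-- The density of a dummy. -/
theorem dum_dens {T : Set S.Tp} {ξ : S.Tp} (hξ : ξ ∈ T) {Bc : ℕ → S.Nd}
    (hd : IsDummy S ξ Bc) {M : Obj K S.L} (hM : S.FF T M) (m : ℕ) {x : M}
    (h : x ∈ M.P (.inl (Bc m))) :
    ∃ δ ∈ M.P (.inr ξ), x - δ ∈ M.P (.inl (Bc (m + 1))) := by
  have e1 : S.X ξ (.u (m + 1)) = labFm K (.inl (Bc m)) := hd.U m
  have e2 : S.Y ξ (.u (m + 1)) = labFm K (.inl (Bc (m + 1))) := hd.U (m + 1)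
  obtain ⟨v, hv, y, hy, rfl⟩ := hM.dens ξ hξ (.u (m + 1)) x (by
    rw [e1]
    exact (labFm_iff _ M x).2 h)
  rw [e2, labFm_iff] at hy
  exact ⟨v, hv, by rwa [add_sub_cancel_left]⟩

namespace LD

variable (X : LD S) {T : Set S.Tp}

theorem gp_cof (hX : X.OK T) (i : ℕ) {F : Fm K S.L Unit} (hF : S.CofP T F.toPre)
    (hF' : S.LeF T F.S1 (fun M x => x ∈ M.P (.inl (X.a (i + 1))))) :
    S.CofP T (X.gp i F).toPre := by
  intro A D p hA hD hp y hy
  have key : ∀ (M : Obj K S.L) (x : Fin (((X.E i).n + (X.Kp i).n) + F.n) → M),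
      (X.gp i F).toPre.Hom M x ↔
      ((((X.E i).Hom M (fun j => x (Fin.castAdd F.n (Fin.castAdd (X.Kp i).n j))) ∧
        (X.Kp i).Hom M (fun j => x (Fin.castAdd F.n (Fin.natAdd (X.E i).n j)))) ∧
        F.toPre.Hom M (fun j => x (Fin.natAdd ((X.E i).n + (X.Kp i).n) j))) ∧
        x (Fin.castAdd F.n (Fin.castAdd (X.Kp i).n (X.c i))) -
          lin (F.out ()) (fun j => x (Fin.natAdd ((X.E i).n + (X.Kp i).n) j)) ∈
          M.P (.inr (X.ξ i))) ∧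
        x (Fin.castAdd F.n (Fin.castAdd (X.Kp i).n (X.c i))) -
          lin (F.out ()) (fun j => x (Fin.natAdd ((X.E i).n + (X.Kp i).n) j)) ∈
          M.P (.inl (X.Bc i (X.m i))) := by
    intro M x
    have e : lin (Fin.append (Fin.append (Pi.single (X.c i) (1 : K)) (fun _ : Fin (X.Kp i).n => 0))
        (- F.out ())) x = x (Fin.castAdd F.n (Fin.castAdd (X.Kp i).n (X.c i))) -
          lin (F.out ()) (fun j => x (Fin.natAdd ((X.E i).n + (X.Kp i).n) j)) := by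
      rw [lin_append, lin_append, lin_zero_left, add_zero, h60_lin_pisingle, h60_lin_neg,
        sub_eq_add_neg]
    change (((((X.E i).sum (X.Kp i)).sum F.toPre).addc (.inr (X.ξ i)) _).addc
      (.inl (X.Bc i (X.m i))) _).Hom M x ↔ _
    rw [Pre.addc_hom, Pre.addc_hom, Pre.sum_hom, Pre.sum_hom, e]
  obtain ⟨⟨⟨⟨k1, k2⟩, k3⟩, k4⟩, k5⟩ := (key D y).1 hy
  obtain ⟨f', hf1, hf2⟩ := hF A D p hA hD hp _ k3
  obtain ⟨δ, d1, d2, d3⟩ := dum_lift (hX.mem i) (hX.dum i) hp (X.m i) k4 k5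
  obtain ⟨w', hw1, hw2⟩ := hX.cofK i A D p hA hD hp _ k2
  have hx : lin (F.out ()) f' + δ ∈ A.P (.inl (X.a (i + 1))) :=
    Submodule.add_mem _ (hF' A hA _ ⟨f', hf1, fun _ => rfl⟩) (X.Delta_le hX hA d2)
  have hpx : p (lin (F.out ()) f' + δ) =
      y (Fin.castAdd F.n (Fin.castAdd (X.Kp i).n (X.c i))) := by
    have e1 : p (lin (F.out ()) f') =
        lin (F.out ()) (fun j => y (Fin.natAdd ((X.E i).n + (X.Kp i).n) j)) := by
      rw [map_lin]
      congr 1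
      funext j
      exact hf2 j
    rw [map_add, e1, d3]
    abel
  obtain ⟨z', hz1, hz2, hz3⟩ := (hX.relE i).lift A D p hA hD hp _ hx _ k1 hpx
  refine ⟨Fin.append (Fin.append z' w') f', (key A _).2 ?_, fun j => ?_⟩
  · simp only [Fin.append_left, Fin.append_right]
    have e2 : z' (X.c i) - lin (F.out ()) f' = δ := by
      rw [hz2]
      abel
    rw [show (fun j => f' j) = f' from rfl, e2]
    exact ⟨⟨⟨⟨hz1, hw1⟩, hf1⟩, d1⟩, d2⟩
  · change Fin ((X.E i).n + (X.Kp i).n + F.n) at j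
    refine Fin.addCases (fun j => ?_) (fun j => ?_) j
    · rw [Fin.append_left]
      refine Fin.addCases (fun j => ?_) (fun j => ?_) j
      · rw [Fin.append_left]
        exact hz3 j
      · rw [Fin.append_right]
        exact hw2 j
    · rw [Fin.append_right]
      exact hf2 j

theorem gm_cof (hX : X.OK T) (i : ℕ) : S.CofP T (X.gm i).toPre := by
  intro A D p hA hD hp y hy
  have key : ∀ (M : Obj K S.L) (x : Fin ((X.E i).n + (X.Kp i).n) → M),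
      (X.gm i).toPre.Hom M x ↔
      (((X.E i).Hom M (fun j => x (Fin.castAdd (X.Kp i).n j)) ∧
        (X.Kp i).Hom M (fun j => x (Fin.natAdd (X.E i).n j))) ∧
        x (Fin.castAdd (X.Kp i).n (X.c i)) ∈ M.P (.inr (X.ξ i))) ∧
        x (Fin.castAdd (X.Kp i).n (X.c i)) ∈ M.P (.inl (X.Bc i (X.m i + 1))) := by
    intro M x
    have e : lin (Fin.append (Pi.single (X.c i) (1 : K)) (fun _ : Fin (X.Kp i).n => 0)) x =
        x (Fin.castAdd (X.Kp i).n (X.c i)) := by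
      rw [lin_append, lin_zero_left, add_zero, h60_lin_pisingle]
    change ((((X.E i).sum (X.Kp i)).addc (.inr (X.ξ i)) _).addc
      (.inl (X.Bc i (X.m i + 1))) _).Hom M x ↔ _
    rw [Pre.addc_hom, Pre.addc_hom, Pre.sum_hom, e]
  obtain ⟨⟨⟨k1, k2⟩, k4⟩, k5⟩ := (key D y).1 hy
  obtain ⟨δ, d1, d2, d3⟩ := dum_lift (hX.mem i) (hX.dum i) hp (X.m i + 1) k4 k5
  obtain ⟨w', hw1, hw2⟩ := hX.cofK i A D p hA hD hp _ k2
  obtain ⟨z', hz1, hz2, hz3⟩ := (hX.relE i).lift A D p hA hD hp _ (X.Delta_le hX hA d2) _ k1 d3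
  refine ⟨Fin.append z' w', (key A _).2 ?_, fun j => ?_⟩
  · simp only [Fin.append_left, Fin.append_right]
    rw [hz2]
    exact ⟨⟨⟨hz1, hw1⟩, d1⟩, d2⟩
  · change Fin ((X.E i).n + (X.Kp i).n) at j
    refine Fin.addCases (fun j => ?_) (fun j => ?_) j
    · rw [Fin.append_left]
      exact hz3 j
    · rw [Fin.append_right]
      exact hw2 j

theorem up_cof (hX : X.OK T) (j : ℕ) {F : Fm K S.L Unit} (hF : S.CofP T F.toPre)
    (hF' : S.LeF T F.S1 (fun M x => x ∈ M.P (.inl (X.a j)))) :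
    S.CofP T (X.up j F).toPre := by
  induction j generalizing F with
  | zero => exact hF
  | succ j ih =>
    change S.CofP T (X.up j (X.gp j F)).toPre
    refine ih (X.gp_cof hX j hF hF') fun M hM x hx => ?_
    obtain ⟨x', x₀, -, -, -, h4⟩ := (X.gp_iff j F M x).1 hx
    exact (X.Gam_mem hX hM h4).2

theorem cofU (hX : X.OK T) (n : ℕ) : S.CofP T (X.U n).toPre :=
  X.up_cof hX n (labFm_cof _) fun M _ x hx => (labFm_iff _ M x).1 hx

theorem cofD (hX : X.OK T) (l : ℕ) : S.CofP T (X.D l).toPre := by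
  refine X.up_cof hX l (X.gm_cof hX l) fun M hM x hx => ?_
  obtain ⟨x', -, -, h3⟩ := (X.gm_iff l M x).1 hx
  exact (X.Gam_mem hX hM h3).2

theorem cofZ (hX : X.OK T) (l : ℕ) : S.CofP T (X.Z l).toPre := by
  refine X.up_cof hX l zero_cof fun M _ x hx => ?_
  rw [zero_iff] at hx
  rw [hx]
  exact Submodule.zero_mem _

theorem c3 (hX : X.OK T) (j : ℕ) : S.Rep T (X.D j).S1 (X.Z (j + 1)).S1 := by
  refine ⟨X.Bc j (X.m j), fun M x y => ∃ δ y₁, x ∈ M.P (.inl (X.Bc j (X.m j))) ∧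
    δ ∈ M.P (.inr (X.ξ j)) ∧ δ ∈ M.P (.inl (X.Bc j (X.m j))) ∧
    x - δ ∈ M.P (.inl (X.Bc j (X.m j + 1))) ∧ X.Gam j M δ y₁ ∧ X.upR j M y₁ y, ?_, ?_⟩
  · have h1 : IsDef (S.lab T) (fun (M : Obj K S.L) (w : Fin 2 ⊕ Fin 2 → M) =>
        w (.inl 0) ∈ M.P (.inl (X.Bc j (X.m j))) ∧
        w (.inr 0) ∈ M.P (.inr (X.ξ j)) ∧ w (.inr 0) ∈ M.P (.inl (X.Bc j (X.m j))) ∧
        w (.inl 0) - w (.inr 0) ∈ M.P (.inl (X.Bc j (X.m j + 1))) ∧
        X.Gam j M (w (.inr 0)) (w (.inr 1)) ∧ X.upR j M (w (.inr 1)) (w (.inl 1))) := by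
      have hn : ∀ a : S.Nd, (.inl a : S.L) ∈ S.lab T := fun a τ hτ => by cases hτ
      have hx : (.inr (X.ξ j) : S.L) ∈ S.lab T := fun τ hτ => by
        cases hτ
        exact hX.mem j
      refine IsDef.and ?_ (IsDef.and ?_ (IsDef.and ?_ (IsDef.and ?_ (IsDef.and ?_ ?_))))
      · refine (IsDef.lab (κ := Fin 2 ⊕ Fin 2) (hn (X.Bc j (X.m j))) (fone (.inl 0))).congr
          fun M w => ?_
        rw [lin_fone]
      · refine (IsDef.lab (κ := Fin 2 ⊕ Fin 2) hx (fone (.inr 0))).congr fun M w => ?_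
        rw [lin_fone]
      · refine (IsDef.lab (κ := Fin 2 ⊕ Fin 2) (hn (X.Bc j (X.m j))) (fone (.inr 0))).congr
          fun M w => ?_
        rw [lin_fone]
      · refine (IsDef.lab (κ := Fin 2 ⊕ Fin 2) (hn (X.Bc j (X.m j + 1)))
          (fun i => fone (.inl 0) i + -fone (.inr 0) i)).congr fun M w => ?_
        have e : lin (fun i : Fin 2 ⊕ Fin 2 => (fone (.inl 0) i + -fone (.inr 0) i : K)) w =
            w (.inl 0) - w (.inr 0) := by
          have e1 := lin_add_left (K := K) (fone (.inl 0)) (fun i => -fone (.inr 0) i) w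
          rw [lin_fone, lin_fneg, lin_fone, ← sub_eq_add_neg] at e1
          exact e1
        rw [e]
      · refine (IsDef.subst (κ := Fin 2 ⊕ Fin 2) (X.Gam_def hX.labE hX.labK j)
          (![fone (.inr 0), fone (.inr 1)])).congr fun M w => ?_
        simp only [lin_fone, Matrix.cons_val_zero, Matrix.cons_val_one]
      · refine (IsDef.subst (κ := Fin 2 ⊕ Fin 2) (X.upR_def hX j)
          (![fone (.inr 1), fone (.inl 1)])).congr fun M w => ?_
        simp only [lin_fone, Matrix.cons_val_zero, Matrix.cons_val_one]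
    refine (IsDef.ex' (κ := Fin 2) (κ' := Fin 2) (fun M y z =>
        y 0 ∈ M.P (.inl (X.Bc j (X.m j))) ∧
        z 0 ∈ M.P (.inr (X.ξ j)) ∧ z 0 ∈ M.P (.inl (X.Bc j (X.m j))) ∧
        y 0 - z 0 ∈ M.P (.inl (X.Bc j (X.m j + 1))) ∧
        X.Gam j M (z 0) (z 1) ∧ X.upR j M (z 1) (y 1)) h1).congr fun M y => ?_
    constructor
    · rintro ⟨z, hz⟩
      exact ⟨z 0, z 1, hz⟩
    · rintro ⟨δ, y₁, hz⟩
      exact ⟨![δ, y₁], hz⟩
  · intro M hM
    have hle : ∀ z : M, z ∈ M.P (.inl (X.Bc j (X.m j + 1))) → z ∈ M.P (.inl (X.Bc j (X.m j))) :=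
      fun z hz => hM.toNodeOK.le ((hX.dum j).le (X.m j)) hz
    refine ⟨?_, ?_, ?_, ?_⟩
    · rintro x y ⟨δ, y₁, h1, h2, h3, h4, h5, h6⟩
      refine ⟨h1, ?_⟩
      change (X.up j (X.gp j (Fm.zero K S.L))).S1 M y
      refine (X.up_iff j _ M y).2 ⟨y₁, (X.gp_iff j _ M y₁).2 ⟨δ, 0, (zero_iff M 0).2 rfl, ?_, ?_, h5⟩,
        h6⟩
      · rwa [sub_zero]
      · rwa [sub_zero]
    · intro x hx
      obtain ⟨δ, hδ, hδ'⟩ := dum_dens (hX.mem j) (hX.dum j) hM (X.m j) hx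
      have h3 : δ ∈ M.P (.inl (X.Bc j (X.m j))) := by
        have h4 := Submodule.sub_mem _ hx (hle _ hδ')
        rwa [sub_sub_cancel] at h4
      obtain ⟨y₁, hy₁⟩ := X.Gam_total hX hM (X.Delta_le hX hM h3)
      obtain ⟨y, hy⟩ := X.upR_total hX hM (X.Gam_mem hX hM hy₁).2
      exact ⟨y, δ, y₁, hx, hδ, h3, hδ', hy₁, hy⟩
    · rintro y ⟨δ, y₁, h1, h2, h3, h4, h5, h6⟩
      have h7 : δ ∈ M.P (.inl (X.Bc j (X.m j + 1))) := by
        have h8 := Submodule.neg_mem _ h4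
        rwa [zero_sub, neg_neg] at h8
      change (X.up j (X.gm j)).S1 M y
      exact (X.up_iff j _ M y).2 ⟨y₁, (X.gm_iff j M y₁).2 ⟨δ, h2, h7, h5⟩, h6⟩
    · intro y hy
      change (X.up j (X.gp j (Fm.zero K S.L))).S1 M y at hy
      obtain ⟨y₁, h1, h2⟩ := (X.up_iff j _ M y).1 hy
      obtain ⟨x', x, h3, h4, h5, h6⟩ := (X.gp_iff j _ M y₁).1 h1
      rw [zero_iff] at h3
      rw [h3, sub_zero] at h4 h5
      refine ⟨x', x', y₁, h5, h4, h5, ?_, h6, h2⟩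
      rw [sub_self]
      exact Submodule.zero_mem _

theorem c4 (hX : X.OK T) (n : ℕ) : S.Rep T (X.Z n).S1 (X.U n).S1 := by
  refine ⟨X.a n, fun M x y => x ∈ M.P (.inl (X.a n)) ∧ X.upR n M x y, ?_, ?_⟩
  · have hn : ∀ a : S.Nd, (.inl a : S.L) ∈ S.lab T := fun a τ hτ => by cases hτ
    refine IsDef.and ?_ (X.upR_def hX n)
    refine (IsDef.lab (κ := Fin 2) (hn (X.a n)) (fone 0)).congr fun M w => ?_
    rw [lin_fone]
  · intro M hM
    refine ⟨?_, ?_, ?_, ?_⟩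
    · rintro x y ⟨h1, h2⟩
      exact ⟨h1, (X.up_iff n _ M y).2 ⟨x, (labFm_iff _ M x).2 h1, h2⟩⟩
    · intro x hx
      obtain ⟨y, hy⟩ := X.upR_total hX hM hx
      exact ⟨y, hx, hy⟩
    · rintro y ⟨h1, h2⟩
      exact (X.up_iff n _ M y).2 ⟨0, (zero_iff M 0).2 rfl, h2⟩
    · intro y hy
      obtain ⟨x, h1, h2⟩ := (X.up_iff n _ M y).1 hy
      exact ⟨x, (labFm_iff _ M x).1 h1, h2⟩

end LD

end Pool.Agent.Helper13.SDW
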