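import Pool.Agent.Helper13.SDW.GDefs

/-!
# Limit data (definitions)

Limit data in a system `S`: nodes `a i`, presentations `E i` with a distinguished variable `c i` (to be
thought of as a complex over an atom in `P_{a (i+1)}`) and a linear form `b i`, presentations `Kp i` with a
linear form `k i`; the relation `Γ_i(x, y) : ∃ z ∈ E_i, z_c = x, ∃ w ∈ K_i, y = b(z) + k(w)`; dummies `ξ i` with
chain `Bc i m` (`Bc i 0 = a (i+1)`) and numbers `m i`. `Δ_i = V_{ξ_i} ∩ Bc i (m i)`,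
`Δ_i^- = V_{ξ_i} ∩ Bc i (m i + 1)`, `Γ_i^+(F) = Γ_i(F + Δ_i)`.
-/

namespace Pool.Agent.Helper13.SDW

universe u

variable {K : Type u} [Field K]

/-- The formula `x ∈ P_l`. -/
def labFm (K : Type u) [Field K] {L : Type u} (l : L) : Fm K L Unit where
  toPre := Pre.one K l
  out := fun _ _ => 1

/-- `G` with the distinguished variable `c` is relatively cofibrant over an atom in `P_a`, and all
elements of `P_a` extend to `G`. -/
structure RelP (S : Sys K) (T : Set S.Tp) (a : S.Nd) (G : Pre K S.L) (c : Fin G.n) : Prop where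
  mem : ∀ D : Obj K S.L, S.FF T D → ∀ z : Fin G.n → D, G.Hom D z → z c ∈ D.P (.inl a)
  ext : ∀ D : Obj K S.L, S.FF T D → ∀ x ∈ D.P (.inl a), ∃ z : Fin G.n → D, G.Hom D z ∧ z c = x
  lift : ∀ (A D : Obj K S.L) (p : A →ₗ[K] D), S.FF T A → S.FF T D → S.TFib T p →
    ∀ x ∈ A.P (.inl a), ∀ y : Fin G.n → D, G.Hom D y → p x = y c →
      ∃ z : Fin G.n → A, G.Hom A z ∧ z c = x ∧ ∀ i, p (z i) = y i

/-- Limit data. -/
structure LD (S : Sys K) where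
  a : ℕ → S.Nd
  E : ℕ → Pre K S.L
  c : ∀ i, Fin (E i).n
  b : ∀ i, Fin (E i).n → K
  Kp : ℕ → Pre K S.L
  k : ∀ i, Fin (Kp i).n → K
  ξ : ℕ → S.Tp
  Bc : ℕ → ℕ → S.Nd
  m : ℕ → ℕ

/-- `τ` is a dummy with the chain `Bc`. -/
structure IsDummy (S : Sys K) (τ : S.Tp) (Bc : ℕ → S.Nd) : Prop where
  U : ∀ m, S.U τ m = labFm K (.inl (Bc m))
  D : ∀ l, S.D τ l = Fm.zero K S.L
  Z : ∀ l, S.Z τ l = Fm.zero K S.L
  le : ∀ m, S.Le (Bc (m + 1)) (Bc m)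

namespace LD

variable {S : Sys K} (X : LD S)

/-- The relation `Γ_i`. -/
def Gam (i : ℕ) : SF2 K S.L := fun M x y =>
  ∃ z : Fin (X.E i).n → M, (X.E i).Hom M z ∧ z (X.c i) = x ∧
    ∃ w : Fin (X.Kp i).n → M, (X.Kp i).Hom M w ∧ y = lin (X.b i) z + lin (X.k i) w

/-- `Γ_i^+(F)` as a formula. -/
def gp (i : ℕ) (F : Fm K S.L Unit) : Fm K S.L Unit where
  toPre := ((((X.E i).sum (X.Kp i)).sum F.toPre).addc (.inr (X.ξ i))
      (Fin.append (Fin.append (Pi.single (X.c i) 1) (fun _ => 0)) (- F.out ()))).addc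
      (.inl (X.Bc i (X.m i)))
      (Fin.append (Fin.append (Pi.single (X.c i) 1) (fun _ => 0)) (- F.out ()))
  out := fun _ => Fin.append (Fin.append (X.b i) (X.k i)) (fun _ => 0)

/-- `Γ_i(Δ_i^-)` as a formula. -/
def gm (i : ℕ) : Fm K S.L Unit where
  toPre := (((X.E i).sum (X.Kp i)).addc (.inr (X.ξ i))
      (Fin.append (Pi.single (X.c i) 1) (fun _ => 0))).addc
      (.inl (X.Bc i (X.m i + 1))) (Fin.append (Pi.single (X.c i) 1) (fun _ => 0))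
  out := fun _ => Fin.append (X.b i) (X.k i)

/-- `Γ_0^+ ⋯ Γ_{j-1}^+ (F)`. -/
def up : ℕ → Fm K S.L Unit → Fm K S.L Unit
  | 0, F => F
  | j + 1, F => up j (X.gp j F)

/-- The formulas of the limit type. -/
def U (n : ℕ) : Fm K S.L Unit := X.up n (labFm K (.inl (X.a n)))
def D (l : ℕ) : Fm K S.L Unit := X.up l (X.gm l)
def Z (l : ℕ) : Fm K S.L Unit := X.up l (Fm.zero K S.L)

/-- The relation between `x` and the elements of `Γ_0^+ ⋯ Γ_{j-1}^+ (x)`. -/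
def upR : ℕ → SF2 K S.L
  | 0 => fun _ x y => y = x
  | j + 1 => fun M x y => ∃ x' x₁, x' - x ∈ M.P (.inr (X.ξ j)) ∧
      x' - x ∈ M.P (.inl (X.Bc j (X.m j))) ∧ X.Gam j M x' x₁ ∧ upR j M x₁ y

/-- Well formed limit data over `T`. -/
structure OK (T : Set S.Tp) : Prop where
  mem : ∀ i, X.ξ i ∈ T
  dum : ∀ i, IsDummy S (X.ξ i) (X.Bc i)
  Bc0 : ∀ i, X.Bc i 0 = X.a (i + 1)
  labE : ∀ i, ∀ q ∈ (X.E i).c, q.1 ∈ S.lab T
  labK : ∀ i, ∀ q ∈ (X.Kp i).c, q.1 ∈ S.lab T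
  relE : ∀ i, RelP S T (X.a (i + 1)) (X.E i) (X.c i)
  cofK : ∀ i, S.CofP T (X.Kp i)
  bE : ∀ i, ∀ M : Obj K S.L, S.FF T M → ∀ z : Fin (X.E i).n → M, (X.E i).Hom M z →
    lin (X.b i) z ∈ M.P (.inl (X.a i))
  bK : ∀ i, ∀ M : Obj K S.L, S.FF T M → ∀ w : Fin (X.Kp i).n → M, (X.Kp i).Hom M w →
    lin (X.k i) w ∈ M.P (.inl (X.a i))

end LD

end Pool.Agent.Helper13.SDW
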