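import Pool.Agent.Helper13.SDW.RDefs

/-!
# BLOCK SDW-MD1: modules and structures (about 200 lines)

Unfolding. `mem_XX`: A1-A4 are the axioms `Ax` (for `l ∉ Λ`: `gr = 0`), `ppT_sat`, `ppE_sat`; A5 by `ppD_sat`: a tuple `x` of elements of `M`
satisfies `ppD φ` iff `e x` satisfies the dual condition in `eM` (`gr l * e • w = gr l • w`, the witnesses of `ppD` are arbitrary
elements `w` of `M`, used through `e w ∈ eM`).
-/

namespace Pool.Agent.Helper13.SDW

open Pool.Agent.H35SD Pool.Agent.Helper56.NB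

universe u

variable {K : Type u} [Field K] {L : Type u} {Λ : Set L} {M : Type u} [AddCommGroup M]
  [Module (Rr K Λ) M]

theorem BM.val_inj {x y : BM K Λ M} (h : x.val = y.val) : x = y := Subtype.ext h

theorem BM.val_add (x y : BM K Λ M) : (x + y).val = x.val + y.val := rfl

theorem BM.val_sub (x y : BM K Λ M) : (x - y).val = x.val - y.val := rfl

theorem BM.val_zero : (0 : BM K Λ M).val = 0 := rfl

theorem BM.val_smul (a : K) (x : BM K Λ M) : (a • x).val = gs K Λ a • x.val := rfl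

theorem BM.val_sum {ι : Type} [Fintype ι] (x : ι → BM K Λ M) :
    (∑ i, x i).val = ∑ i, (x i).val :=
  map_sum (⟨⟨BM.val, BM.val_zero⟩, BM.val_add⟩ : BM K Λ M →+ M) x Finset.univ

theorem BM.e_val (x : BM K Λ M) : ge K Λ • x.val = x.val := x.2

theorem BM.mem_P (l : L) (x : BM K Λ M) : x ∈ (BM K Λ M).P l ↔ gr K Λ l • x.val = 0 := Iff.rfl

/-- The element `e x` of `eM`. -/
def BM.mk (hM : Ax K Λ M) (x : M) : BM K Λ M := ⟨ge K Λ • x, hM.ee x⟩

theorem BM.val_mk (hM : Ax K Λ M) (x : M) : (BM.mk hM x).val = ge K Λ • x := rfl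

theorem BM.mk_val (hM : Ax K Λ M) (x : BM K Λ M) : BM.mk hM x.val = x :=
  BM.val_inj (BM.e_val x)

theorem ppT_sat {R : Type u} [Ring R] {N : Type u} [AddCommGroup N] [Module R N] {n : ℕ}
    (x : Fin n → N) : (ppT R n).Sat x :=
  ⟨Fin.elim0, fun j => Fin.elim0 j⟩

theorem ppE_sat {R : Type u} [Ring R] {N : Type u} [AddCommGroup N] [Module R N] {n : ℕ}
    (s : Fin n → R) (x : Fin n → N) : (ppE s).Sat x ↔ ∑ i, s i • x i = 0 := by
  constructor
  · rintro ⟨y, hy⟩
    have h := hy (0 : Fin 1)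
    have h2 : ∑ l : Fin 0, (ppE s).s (0 : Fin 1) l • y l = 0 := Finset.sum_of_isEmpty _
    change ∑ i, s i • x i + ∑ l : Fin 0, (ppE s).s (0 : Fin 1) l • y l = 0 at h
    rw [h2, add_zero] at h
    exact h
  · intro h
    refine ⟨Fin.elim0, fun j => ?_⟩
    change ∑ i, s i • x i + ∑ l : Fin 0, (ppE s).s j l • (Fin.elim0 l : N) = 0
    rw [h, zero_add]
    exact Finset.sum_of_isEmpty _

theorem ppD_sat (hM : Ax K Λ M) {n : ℕ} (φ : Gf K L (Fin n)) (x : Fin n → M) :
    (ppD Λ φ).Sat x ↔ φ.DSat (BM K Λ M) (fun k => BM.mk hM (x k)) := by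
  set R : Fin (φ.c.length + φ.n) → Fin n → Rr K Λ :=
    Fin.append (fun _ _ => 0) (fun i k => gs K Λ (φ.out k i) * ge K Λ) with hR
  set S : Fin (φ.c.length + φ.n) → Fin (φ.c.length + φ.e.length) → Rr K Λ :=
    Fin.append
      (fun j => Fin.append (fun j' => if j = j' then gr K Λ (φ.c.get j).1 * ge K Λ else 0)
        (fun _ => 0))
      (fun i => Fin.append (fun j => - (gs K Λ ((φ.c.get j).2 i) * ge K Λ))
        (fun j => - (gs K Λ ((φ.e.get j) i) * ge K Λ))) with hS
  have E0 : (ppD Λ φ).Sat x ↔ ∃ y : Fin (φ.c.length + φ.e.length) → M,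
      ∀ j : Fin (φ.c.length + φ.n), ∑ i, R j i • x i + ∑ l, S j l • y l = 0 := Iff.rfl
  rw [E0]
  -- the equations of `ppD`
  have E1 : ∀ (y : Fin (φ.c.length + φ.e.length) → M) (j : Fin φ.c.length),
      ∑ i, R (Fin.castAdd φ.n j) i • x i + ∑ l, S (Fin.castAdd φ.n j) l • y l
        = gr K Λ (φ.c.get j).1 • ge K Λ • y (Fin.castAdd φ.e.length j) := by
    intro y j
    rw [hR, hS, Fin.append_left, Fin.append_left, Fin.sum_univ_add (f := fun l => (Fin.append
      (fun j' => if j = j' then gr K Λ (φ.c.get j).1 * ge K Λ else 0)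
          (fun _ => (0 : Rr K Λ))) l • y l)]
    simp only [Fin.append_left, Fin.append_right, zero_smul, Finset.sum_const_zero, add_zero,
      zero_add, ite_smul, Finset.sum_ite_eq, Finset.mem_univ, if_true, mul_smul]
  have E2 : ∀ (y : Fin (φ.c.length + φ.e.length) → M) (i : Fin φ.n),
      ∑ k, R (Fin.natAdd φ.c.length i) k • x k + ∑ l, S (Fin.natAdd φ.c.length i) l • y l
        = (∑ k, gs K Λ (φ.out k i) • ge K Λ • x k) -
          (∑ j, gs K Λ ((φ.c.get j).2 i) • ge K Λ • y (Fin.castAdd φ.e.length j) +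
            ∑ j, gs K Λ ((φ.e.get j) i) • ge K Λ • y (Fin.natAdd φ.c.length j)) := by
    intro y i
    rw [hR, hS, Fin.append_right, Fin.append_right, Fin.sum_univ_add (f := fun l => (Fin.append
      (fun j => - (gs K Λ ((φ.c.get j).2 i) * ge K Λ))
          (fun j => - (gs K Λ ((φ.e.get j) i) * ge K Λ))) l • y l)]
    simp only [Fin.append_left, Fin.append_right, neg_smul, mul_smul, Finset.sum_neg_distrib]
    abel
  constructor
  · rintro ⟨y, hy⟩
    refine ⟨fun j => BM.mk hM (y (Fin.castAdd φ.e.length j)),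
      fun j => BM.mk hM (y (Fin.natAdd φ.c.length j)), fun j => ?_, fun i => ?_⟩
    · rw [BM.mem_P, BM.val_mk]
      rw [← E1 y j]
      exact hy _
    · apply BM.val_inj
      rw [BM.val_add, BM.val_sum, BM.val_sum, BM.val_sum]
      simp only [BM.val_smul, BM.val_mk]
      have h := hy (Fin.natAdd φ.c.length i)
      exact sub_eq_zero.1 ((E2 y i).symm.trans h)
  · rintro ⟨w, w', h1, h2⟩
    refine ⟨Fin.append (fun j => (w j).val) (fun j => (w' j).val), fun j => ?_⟩
    refine Fin.addCases (motive := fun j => ∑ i, R j i • x i +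
      ∑ l, S j l • (Fin.append (fun j => (w j).val) (fun j => (w' j).val)) l = 0)
      (fun j => ?_) (fun i => ?_) j
    · refine (E1 _ j).trans ?_
      rw [Fin.append_left, BM.e_val]
      exact (BM.mem_P _ _).1 (h1 j)
    · refine (E2 _ i).trans ?_
      rw [sub_eq_zero]
      have h := congrArg Subtype.val (h2 i)
      rw [BM.val_add, BM.val_sum, BM.val_sum, BM.val_sum] at h
      simp only [BM.val_smul, BM.val_mk] at h
      simp only [Fin.append_left, Fin.append_right, BM.e_val]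
      exact h

theorem mem_XX (Sq : Set (Σ n : ℕ, Gf K L (Fin n) × Gf K L (Fin n))) :
    Cat.Mem (XX Λ Sq) M ↔ Ax K Λ M ∧ ∀ q ∈ Sq, ∀ b : Fin q.1 → BM K Λ M,
      q.2.2.DSat (BM K Λ M) b → q.2.1.DSat (BM K Λ M) b := by
  constructor
  · intro h
    have hM : Ax K Λ M := by
      refine ⟨fun x => ?_, fun l x => ?_, fun l x => ?_, fun n l hl hi x hx i => ?_⟩
      · have h1 := h ⟨1, ppT _ 1, ppE fun _ => ge K Λ * ge K Λ - ge K Λ⟩
          (Or.inl (Or.inl (Or.inl (Or.inl rfl)))) (fun _ => x) (ppT_sat _)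
        have h2 := (ppE_sat _ _).1 h1
        rw [Fin.sum_univ_one, sub_smul, mul_smul, sub_eq_zero] at h2
        exact h2
      · by_cases hl : l ∈ Λ
        · have h1 := h ⟨1, ppT _ 1, ppE fun _ => gr K Λ l * ge K Λ - gr K Λ l⟩
            (Or.inl (Or.inl (Or.inl (Or.inr ⟨l, hl, rfl⟩)))) (fun _ => x) (ppT_sat _)
          have h2 := (ppE_sat _ _).1 h1
          rw [Fin.sum_univ_one, sub_smul, mul_smul, sub_eq_zero] at h2
          exact h2
        · have : gr K Λ l = 0 := dif_neg hl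
          rw [this, zero_smul, zero_smul]
      · by_cases hl : l ∈ Λ
        · have h1 := h ⟨1, ppT _ 1, ppE fun _ => ge K Λ * gr K Λ l⟩
            (Or.inl (Or.inl (Or.inr ⟨l, hl, rfl⟩))) (fun _ => x) (ppT_sat _)
          have h2 := (ppE_sat _ _).1 h1
          rw [Fin.sum_univ_one, mul_smul] at h2
          exact h2
        · have : gr K Λ l = 0 := dif_neg hl
          rw [this, zero_smul, smul_zero]
      · have h1 := h ⟨n, ppE fun i => gr K Λ (l i),
            ppE fun i' => if i' = i then gr K Λ (l i') else 0⟩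
          (Or.inl (Or.inr ⟨n, l, i, hl, hi, rfl⟩)) x ((ppE_sat _ _).2 hx)
        have h2 := (ppE_sat _ _).1 h1
        simp only [ite_smul, zero_smul, Finset.sum_ite_eq', Finset.mem_univ, if_true] at h2
        exact h2
    refine ⟨hM, fun q hq b hb => ?_⟩
    have h1 := h ⟨q.1, ppD Λ q.2.2, ppD Λ q.2.1⟩ (Or.inr ⟨q, hq, rfl⟩) (fun k => (b k).val)
      ((ppD_sat hM q.2.2 _).2 (by
        have : (fun k => BM.mk hM (b k).val) = b := funext fun k => BM.mk_val hM _
        rw [this]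
        exact hb))
    have h2 := (ppD_sat hM q.2.1 _).1 h1
    have h3 : (fun k => BM.mk hM (b k).val) = b := funext fun k => BM.mk_val hM _
    rw [h3] at h2
    exact h2
  · rintro ⟨hM, h5⟩ σ hσ x hx
    rcases hσ with (((hσ | hσ) | hσ) | hσ) | hσ
    · rw [Set.mem_singleton_iff] at hσ
      subst hσ
      refine (ppE_sat _ _).2 ?_
      rw [Fin.sum_univ_one, sub_smul, mul_smul, sub_eq_zero]
      exact hM.ee _
    · obtain ⟨l, hl, rfl⟩ := hσ
      refine (ppE_sat _ _).2 ?_
      rw [Fin.sum_univ_one, sub_smul, mul_smul, sub_eq_zero]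
      exact hM.re _ _
    · obtain ⟨l, hl, rfl⟩ := hσ
      refine (ppE_sat _ _).2 ?_
      rw [Fin.sum_univ_one, mul_smul]
      exact hM.er _ _
    · obtain ⟨n, l, i, hl, hi, rfl⟩ := hσ
      refine (ppE_sat _ _).2 ?_
      have h1 := hM.ind n l hl hi x ((ppE_sat _ _).1 hx) i
      simp only [ite_smul, zero_smul, Finset.sum_ite_eq', Finset.mem_univ, if_true]
      exact h1
    · obtain ⟨q, hq, rfl⟩ := hσ
      exact (ppD_sat hM q.2.1 x).2 (h5 q hq _ ((ppD_sat hM q.2.2 x).1 hx))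

end Pool.Agent.Helper13.SDW
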