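import Pool.Agent.Helper13.SDW.RDefs
import Pool.Agent.Helper13.SDW.ConcDefs

/-!
# BLOCK SDW-MD2: sequents (about 100 lines)

* `gkills_iff_DSat`: as `kills_iff_DSat` (an equation is a condition with the zero subspace).
* `mod_of_sq`: let `F, H` be over `lab GG`, `F ≤ H` in `CC_GG`, given by `φ, ψ : Gf K _ κ`; re-index `κ` by `Fin n`
  (`Fintype.equivFin`). Let `y ∈ F(B.dual)`; by `sat_iff_kills` for `H` it suffices that `∑ y_k(b_k) = 0` for all `b` which kill `H`, i.e.
  satisfy `ψ.DSat`; so `φ.DSat`, `b` kills `F`.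
-/

namespace Pool.Agent.Helper13.SDW

universe u

variable {K : Type u} [Field K]

theorem gkills_iff_DSat {L : Type u} {B : Obj K L} {κ : Type} [Fintype κ] (φ : Gf K L κ)
    (b : κ → B) : φ.DSat B b ↔ Kills B (fun M y => φ.Sat M y) b := by
  classical
  rw [h60_kills]
  -- the sums form a subspace
  let N : Submodule K (Fin φ.n → B) :=
    { carrier := {z | ∃ (w : Fin φ.c.length → B) (w' : Fin φ.e.length → B),
        (∀ j, w j ∈ B.P (φ.c.get j).1) ∧
        ∀ i : Fin φ.n, z i = ∑ j, (φ.c.get j).2 i • w j + ∑ j, (φ.e.get j) i • w' j}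
      add_mem' := by
        rintro z z' ⟨w, v, h2, h3⟩ ⟨w', v', h2', h3'⟩
        refine ⟨fun j => w j + w' j, fun j => v j + v' j,
          fun j => Submodule.add_mem _ (h2 j) (h2' j), fun i => ?_⟩
        simp only [smul_add, Finset.sum_add_distrib, Pi.add_apply]
        rw [h3, h3']
        abel
      zero_mem' := ⟨fun _ => 0, fun _ => 0, fun j => Submodule.zero_mem _, fun i => by simp⟩
      smul_mem' := by
        rintro a z ⟨w, v, h2, h3⟩
        refine ⟨fun j => a • w j, fun j => a • v j, fun j => Submodule.smul_mem _ a (h2 j),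
          fun i => ?_⟩
        rw [Pi.smul_apply, h3, smul_add, Finset.smul_sum, Finset.smul_sum]
        congr 1
        · exact Finset.sum_congr rfl fun j _ => smul_comm _ _ _
        · exact Finset.sum_congr rfl fun j _ => smul_comm _ _ _ }
  have h2 : h60R B φ.c φ.e = N := by
    refine le_antisymm ?_ ?_
    · refine sup_le (Submodule.span_le.mpr ?_) (Submodule.span_le.mpr ?_)
      · rintro z ⟨q, hq, w, hw, rfl⟩
        obtain ⟨j, hj, rfl⟩ := List.mem_iff_getElem.mp hq
        refine ⟨Pi.single ⟨j, hj⟩ w, fun _ => 0, fun j' => ?_, fun i => ?_⟩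
        · by_cases h : j' = ⟨j, hj⟩
          · subst h
            rw [Pi.single_eq_same]
            exact hw
          · rw [Pi.single_eq_of_ne h]
            exact Submodule.zero_mem _
        · rw [Finset.sum_eq_single (⟨j, hj⟩ : Fin φ.c.length)]
          · rw [Pi.single_eq_same]
            simp
          · intro j' _ h
            rw [Pi.single_eq_of_ne h, smul_zero]
          · intro h
            exact absurd (Finset.mem_univ _) h
      · rintro z ⟨v, hv, w, rfl⟩
        obtain ⟨j, hj, rfl⟩ := List.mem_iff_getElem.mp hv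
        refine ⟨fun _ => 0, Pi.single ⟨j, hj⟩ w, fun j' => Submodule.zero_mem _, fun i => ?_⟩
        have h3 : ∑ j', (φ.e.get j') i • (Pi.single ⟨j, hj⟩ w : Fin φ.e.length → B) j' =
            φ.e[j] i • w := by
          rw [Finset.sum_eq_single (⟨j, hj⟩ : Fin φ.e.length)]
          · rw [Pi.single_eq_same]
            rfl
          · intro j' _ h
            rw [Pi.single_eq_of_ne h, smul_zero]
          · intro h
            exact absurd (Finset.mem_univ _) h
        rw [h3]
        simp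
    · rintro z ⟨w, v, h3, h4⟩
      have h5 : z = ∑ j, (fun i => (φ.c.get j).2 i • w j) +
          ∑ j, (fun i => (φ.e.get j) i • v j) := by
        funext i
        rw [h4, Pi.add_apply, Finset.sum_apply, Finset.sum_apply]
      rw [h5]
      refine Submodule.add_mem _ ?_ ?_
      · refine Submodule.sum_mem _ fun j _ => Submodule.mem_sup_left (Submodule.subset_span ?_)
        exact ⟨φ.c.get j, List.get_mem _ _, w j, h3 j, rfl⟩
      · refine Submodule.sum_mem _ fun j _ => Submodule.mem_sup_right (Submodule.subset_span ?_)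
        exact ⟨φ.e.get j, List.get_mem _ _, v j, rfl⟩
  rw [h2]
  rfl

/-- The sequents of the concrete system. -/
def SqC (K : Type u) [Field K] :
    Set (Σ n : ℕ, Gf K (CS K).L (Fin n) × Gf K (CS K).L (Fin n)) :=
  {q | (∀ p ∈ q.2.1.c, p.1 ∈ (CS K).lab (GG K)) ∧ (∀ p ∈ q.2.2.c, p.1 ∈ (CS K).lab (GG K)) ∧
    ∀ M : Obj K (CS K).L, (CS K).CC (GG K) M → ∀ y : Fin q.1 → M, q.2.1.Sat M y →
      q.2.2.Sat M y}

theorem mod_of_sq {B : Obj K (CS K).L}
    (h : ∀ q ∈ SqC K, ∀ b : Fin q.1 → B, q.2.2.DSat B b → q.2.1.DSat B b) :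
    (CS K).Mod (GG K) B := by
  intro κ _ F H hF hH hFH y hy
  obtain ⟨φ, hφ1, hφ2⟩ := hF
  have hH' := hH
  obtain ⟨ψ, hψ1, hψ2⟩ := hH
  let ε : Fin (Fintype.card κ) ≃ κ := (Fintype.equivFin κ).symm
  let re : Gf K (CS K).L κ → Gf K (CS K).L (Fin (Fintype.card κ)) := fun χ =>
    ⟨χ.n, χ.c, χ.e, fun k => χ.out (ε k)⟩
  have hre : ∀ (χ : Gf K (CS K).L κ) (M : Obj K (CS K).L) (z : Fin (Fintype.card κ) → M),
      (re χ).Sat M z ↔ χ.Sat M (fun k => z (ε.symm k)) := by
    intro χ M z
    constructor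
    · rintro ⟨x, h1, h2, h3⟩
      refine ⟨x, h1, h2, fun k => ?_⟩
      have h4 := h3 (ε.symm k)
      change z (ε.symm k) = lin (χ.out (ε (ε.symm k))) x at h4
      rw [Equiv.apply_symm_apply] at h4
      exact h4
    · rintro ⟨x, h1, h2, h3⟩
      refine ⟨x, h1, h2, fun k => ?_⟩
      have h4 := h3 (ε k)
      change z (ε.symm (ε k)) = lin (χ.out (ε k)) x at h4
      rw [Equiv.symm_apply_apply] at h4
      exact h4
  have hD : ∀ (χ : Gf K (CS K).L κ) (b : κ → B),
      (re χ).DSat B (fun k => b (ε k)) ↔ χ.DSat B b := by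
    intro χ b
    have h1 : ∀ i : Fin χ.n, ∑ k, χ.out (ε k) i • b (ε k) = ∑ k, χ.out k i • b k := fun i =>
      Equiv.sum_comp ε (fun k => χ.out k i • b k)
    constructor
    · rintro ⟨w, w', h2, h3⟩
      exact ⟨w, w', h2, fun i => (h1 i).symm.trans (h3 i)⟩
    · rintro ⟨w, w', h2, h3⟩
      exact ⟨w, w', h2, fun i => (h1 i).trans (h3 i)⟩
  have hq : (⟨Fintype.card κ, re φ, re ψ⟩ :
      Σ n : ℕ, Gf K (CS K).L (Fin n) × Gf K (CS K).L (Fin n)) ∈ SqC K := by
    refine ⟨hφ1, hψ1, fun M hM z hz => ?_⟩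
    rw [hre, ← hψ2]
    refine hFH M hM _ ?_
    rw [hφ2, ← hre]
    exact hz
  refine (sat_iff_kills hH' y).2 fun b hb => ?_
  have h1 : ψ.DSat B b := by
    rw [gkills_iff_DSat]
    intro f hf
    exact hb f ((hψ2 _ _).2 hf)
  have h2 : φ.DSat B b := (hD φ b).1 (h _ hq _ ((hD ψ b).2 h1))
  rw [gkills_iff_DSat] at h2
  exact h2 y ((hφ2 _ _).1 hy)

end Pool.Agent.Helper13.SDW
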