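import Pool.Agent.Helper13.SDW.Md1

/-!
# BLOCK SDW-MD6: the module of a structure (about 200 lines)

`M = B × (Π l : Λ, B ⧸ B.P l)`, a module over the free algebra by `FreeAlgebra.lift K f`, `f : Option Λ → Module.End K M`
(`Module.compHom`): `f none (b, a) = (b, 0)`, `f (some l) (b, a) = (0, single l [b])`. `Ax`: compute; independence: the components of
the product. `eM = {(b, 0)}`, and `gr l • (b, 0) = 0` iff `b ∈ B.P l`. The dual conditions in `BM K Λ M` of formulas with labels in `Λ` are those in `B` (the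
labels of the sequents are in `Λ`). Universe: `Λ : Set L`, `L : Type u`.
-/

namespace Pool.Agent.Helper13.SDW

open Pool.Agent.H35SD Pool.Agent.Helper56.NB

universe u

variable {K : Type u} [Field K] {L : Type u}

/-- The module of a structure. -/
def h85M (Λ : Set L) (B : Obj K L) : Type u := B × (∀ l : Λ, B ⧸ B.P l.1)

instance h85Grp (Λ : Set L) (B : Obj K L) : AddCommGroup (h85M Λ B) :=
  inferInstanceAs (AddCommGroup (B × (∀ l : Λ, B ⧸ B.P l.1)))

instance h85Mod (Λ : Set L) (B : Obj K L) : Module K (h85M Λ B) :=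
  inferInstanceAs (Module K (B × (∀ l : Λ, B ⧸ B.P l.1)))

open Classical in
/-- The action of the generators. -/
noncomputable def h85f (Λ : Set L) (B : Obj K L) : Option Λ → Module.End K (h85M Λ B)
  | none => LinearMap.prod (LinearMap.fst K B (∀ l : Λ, B ⧸ B.P l.1)) 0
  | some l => LinearMap.prod 0 ((LinearMap.single K (fun l : Λ => B ⧸ B.P l.1) l).comp
      ((B.P l.1).mkQ.comp (LinearMap.fst K B (∀ l : Λ, B ⧸ B.P l.1))))

noncomputable instance h85R (Λ : Set L) (B : Obj K L) : Module (Rr K Λ) (h85M Λ B) :=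
  Module.compHom (h85M Λ B) (FreeAlgebra.lift K (h85f Λ B)).toRingHom

variable {Λ : Set L} {B : Obj K L}

theorem h85_ge (x : h85M Λ B) : ge K Λ • x = ((x.1, 0) : B × (∀ l : Λ, B ⧸ B.P l.1)) := by
  change (FreeAlgebra.lift K (h85f Λ B)) (FreeAlgebra.ι K none) x = _
  rw [FreeAlgebra.lift_ι_apply]
  rfl

open Classical in
theorem h85_gr (l : L) (hl : l ∈ Λ) (x : h85M Λ B) :
    gr K Λ l • x = ((0, Pi.single (⟨l, hl⟩ : Λ) ((B.P l).mkQ x.1)) :
      B × (∀ l : Λ, B ⧸ B.P l.1)) := by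
  rw [gr, dif_pos hl]
  change (FreeAlgebra.lift K (h85f Λ B)) (FreeAlgebra.ι K (some ⟨l, hl⟩)) x = _
  rw [FreeAlgebra.lift_ι_apply]
  rfl

theorem h85_gr0 (l : L) (hl : l ∉ Λ) (x : h85M Λ B) : gr K Λ l • x = 0 := by
  rw [gr, dif_neg hl, zero_smul]

theorem h85_gs (a : K) (x : h85M Λ B) : gs K Λ a • x = a • x := by
  change (FreeAlgebra.lift K (h85f Λ B)) (algebraMap K (Rr K Λ) a) x = _
  rw [AlgHom.commutes]
  rfl

theorem h85_gr_iff (l : L) (hl : l ∈ Λ) (x : h85M Λ B) :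
    gr K Λ l • x = 0 ↔ x.1 ∈ B.P l := by
  classical
  rw [h85_gr l hl x]
  constructor
  · intro h
    have h1 := congrFun (congrArg Prod.snd h) ⟨l, hl⟩
    have h2 : (Pi.single (⟨l, hl⟩ : Λ) ((B.P l).mkQ x.1) : ∀ l : Λ, B ⧸ B.P l.1) ⟨l, hl⟩ = 0 := h1
    rw [Pi.single_eq_same] at h2
    exact (Submodule.Quotient.mk_eq_zero _).1 h2
  · intro h
    have h2 : (B.P l).mkQ x.1 = 0 := (Submodule.Quotient.mk_eq_zero _).2 h
    rw [h2, Pi.single_zero]
    rfl

theorem h85_ax : Ax K Λ (h85M Λ B) where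
  ee x := by
    rw [h85_ge, h85_ge]
  re l x := by
    classical
    by_cases hl : l ∈ Λ
    · rw [h85_gr l hl, h85_gr l hl, h85_ge]
    · rw [h85_gr0 l hl, h85_gr0 l hl]
  er l x := by
    classical
    by_cases hl : l ∈ Λ
    · rw [h85_ge, h85_gr l hl]
      rfl
    · rw [h85_gr0 l hl, smul_zero]
  ind n l hl hinj x hx i := by
    classical
    rw [h85_gr_iff (l i) (hl i)]
    have h1 : ((∑ j, gr K Λ (l j) • x j : h85M Λ B)).2 ⟨l i, hl i⟩ = 0 := by
      rw [hx]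
      rfl
    have h2 : ∀ s : Finset (Fin n), ((∑ j ∈ s, gr K Λ (l j) • x j : h85M Λ B)).2 ⟨l i, hl i⟩ =
        ∑ j ∈ s, (gr K Λ (l j) • x j : h85M Λ B).2 ⟨l i, hl i⟩ := by
      intro s
      induction s using Finset.induction_on with
      | empty => rfl
      | insert a s ha ih =>
        rw [Finset.sum_insert ha, Finset.sum_insert ha, ← ih]
        rfl
    rw [h2, Finset.sum_eq_single i] at h1
    · rw [h85_gr (l i) (hl i)] at h1
      have h3 : (Pi.single (⟨l i, hl i⟩ : Λ) ((B.P (l i)).mkQ (x i).1) :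
        ∀ l : Λ, B ⧸ B.P l.1) ⟨l i, hl i⟩ = 0 := h1
      rw [Pi.single_eq_same] at h3
      exact (Submodule.Quotient.mk_eq_zero _).1 h3
    · intro j _ hj
      rw [h85_gr (l j) (hl j)]
      change (Pi.single (⟨l j, hl j⟩ : Λ) ((B.P (l j)).mkQ (x j).1) :
        ∀ l : Λ, B ⧸ B.P l.1) ⟨l i, hl i⟩ = 0
      rw [Pi.single_eq_of_ne]
      intro h
      exact hj (hinj (congrArg Subtype.val h).symm)
    · intro h
      exact absurd (Finset.mem_univ i) h

/-- The embedding of the structure. -/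
def h85emb (b : B) : h85M Λ B := ((b, 0) : B × (∀ l : Λ, B ⧸ B.P l.1))

/-- The map of the structure to `eM`. -/
noncomputable def h85to (b : B) : BM K Λ (h85M Λ B) :=
  BM.mk h85_ax (h85emb b)

theorem h85to_val (b : B) : (h85to b : BM K Λ (h85M Λ B)).val = h85emb b := by
  rw [h85to, BM.val_mk, h85_ge]
  rfl

theorem h85_val (x : BM K Λ (h85M Λ B)) : x.val = h85emb x.val.1 := by
  have h := BM.e_val x
  rw [h85_ge] at h
  exact h.symm

/-- The map of `eM` to the structure. -/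
noncomputable def h85fr (x : BM K Λ (h85M Λ B)) : B := x.val.1

theorem h85to_fr (x : BM K Λ (h85M Λ B)) : h85to (h85fr x) = x := by
  apply BM.val_inj
  rw [h85to_val, h85fr, ← h85_val]

theorem h85fr_to (b : B) : h85fr (h85to b : BM K Λ (h85M Λ B)) = b := by
  rw [h85fr, h85to_val]
  rfl

theorem h85fr_add (x y : BM K Λ (h85M Λ B)) : h85fr (x + y) = h85fr x + h85fr y := by
  rw [h85fr, BM.val_add]
  rfl

theorem h85fr_smul (a : K) (x : BM K Λ (h85M Λ B)) : h85fr (a • x) = a • h85fr x := by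
  rw [h85fr, BM.val_smul, h85_gs]
  rfl

/-- The isomorphism of `eM` and the structure. -/
noncomputable def h85eq (Λ : Set L) (B : Obj K L) : BM K Λ (h85M Λ B) ≃ₗ[K] B where
  toFun := h85fr
  invFun := h85to
  left_inv := h85to_fr
  right_inv := h85fr_to
  map_add' := h85fr_add
  map_smul' := h85fr_smul

theorem h85eq_mem (l : L) (hl : l ∈ Λ) (x : BM K Λ (h85M Λ B)) :
    h85eq Λ B x ∈ B.P l ↔ x ∈ (BM K Λ (h85M Λ B)).P l := by
  rw [BM.mem_P, h85_gr_iff l hl]
  rfl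

theorem h85_dsat {n : ℕ} (φ : Gf K L (Fin n)) (hφ : ∀ p ∈ φ.c, p.1 ∈ Λ)
    (b : Fin n → BM K Λ (h85M Λ B)) :
    φ.DSat (BM K Λ (h85M Λ B)) b ↔ φ.DSat B fun k => h85eq Λ B (b k) := by
  constructor
  · rintro ⟨w, w', h1, h2⟩
    refine ⟨fun j => h85eq Λ B (w j), fun j => h85eq Λ B (w' j), fun j => ?_, fun i => ?_⟩
    · rw [h85eq_mem _ (hφ _ (List.get_mem _ _))]
      exact h1 j
    · have h3 := congrArg (h85eq Λ B) (h2 i)
      rw [map_add, map_sum, map_sum, map_sum] at h3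
      simpa only [map_smul] using h3
  · rintro ⟨w, w', h1, h2⟩
    refine ⟨fun j => (h85eq Λ B).symm (w j), fun j => (h85eq Λ B).symm (w' j), fun j => ?_,
      fun i => ?_⟩
    · rw [← h85eq_mem _ (hφ _ (List.get_mem _ _)), LinearEquiv.apply_symm_apply]
      exact h1 j
    · apply (h85eq Λ B).injective
      rw [map_add, map_sum, map_sum, map_sum]
      simp only [map_smul, LinearEquiv.apply_symm_apply]
      exact h2 i

theorem exists_module (Λ : Set L) (Sq : Set (Σ n : ℕ, Gf K L (Fin n) × Gf K L (Fin n)))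
    (hSq : ∀ q ∈ Sq, (∀ p ∈ q.2.1.c, p.1 ∈ Λ) ∧ ∀ p ∈ q.2.2.c, p.1 ∈ Λ) (B : Obj K L)
    (hB : ∀ q ∈ Sq, ∀ b : Fin q.1 → B, q.2.2.DSat B b → q.2.1.DSat B b) :
    ∃ (M : Type u) (_ : AddCommGroup M) (_ : Module (Rr K Λ) M), Cat.Mem (XX Λ Sq) M ∧
      ∃ emb : B → M, ∀ b, ∀ l ∈ Λ, (gr K Λ l • emb b = 0 ↔ b ∈ B.P l) := by
  refine ⟨h85M Λ B, inferInstance, inferInstance, ?_, h85emb, fun b l hl => ?_⟩
  · rw [mem_XX]
    refine ⟨h85_ax, fun q hq b h => ?_⟩
    rw [h85_dsat _ (hSq q hq).1]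
    rw [h85_dsat _ (hSq q hq).2] at h
    exact hB q hq _ h
  · rw [h85_gr_iff l hl]
    rfl

end Pool.Agent.Helper13.SDW
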