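import Pool.Agent.Helper13.SDW.Md2

/-!
# BLOCK SDW-MD7: the dual of a structure in `CC` (about 120 lines, linear algebra)

`dsat_dual`: for a structure `N` and `b : κ → N.dual`: `φ.DSat N.dual b` iff `∑_k b_k(y_k) = 0` for all `y ∈ φ(N)`. `→`: compute (`b ↦` the witnesses `w_j` in the
annihilator of `P_{l_j}(N)`). `←`: the functional `x ↦ ∑_k b_k (lin (out k) x)` on `Fin n → N` vanishes on
`{x : lin v_j x ∈ P_{l_j}(N), lin e_k x = 0} = ⋂_j ker(π_j ∘ lin v_j) ∩ ⋂_k ker (lin e_k)` with `π_j : N → N ⧸ P_{l_j}`; so it factors: it is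
`∑_j w_j ∘ lin v_j + ∑_k w'_k ∘ lin e_k` with `w_j` in the annihilator of `P_{l_j}`: apply to the linear map `Fin n → N → ∏_j N ⧸ P_{l_j} × ∏_k N` the fact that a
functional which vanishes on the kernel is the composition with a functional of the target (`LinearMap.range_dualMap_eq_dualAnnihilator_ker`).
-/

namespace Pool.Agent.Helper13.SDW

universe u

variable {K : Type u} [Field K]

theorem dsat_dual {L : Type u} (N : Obj K L) {κ : Type} [Fintype κ] (φ : Gf K L κ)
    (b : κ → N.dual) : φ.DSat N.dual b ↔
      ∀ y : κ → N, φ.Sat N y → ∑ k, (b k : Module.Dual K N) (y k) = 0 := by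
  classical
  constructor
  · rintro ⟨w, w', hw, hww⟩ y ⟨x, hx1, hx2, hy⟩
    let bb : κ → Module.Dual K N := b
    let W : Fin φ.c.length → Module.Dual K N := w
    let W' : Fin φ.e.length → Module.Dual K N := w'
    have hww' : ∀ i : Fin φ.n, ∑ k, φ.out k i • bb k =
        ∑ j, (φ.c.get j).2 i • W j + ∑ j, (φ.e.get j) i • W' j := hww
    have h1 : ∑ k, bb k (y k) = ∑ i, (∑ k, φ.out k i • bb k) (x i) := by
      have e1 : ∀ k, bb k (y k) = ∑ i, φ.out k i • bb k (x i) := by
        intro k
        rw [hy k, lin, map_sum]
        apply Finset.sum_congr rfl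
        intro i _
        rw [map_smul]
      simp only [e1]
      rw [Finset.sum_comm]
      apply Finset.sum_congr rfl
      intro i _
      rw [LinearMap.sum_apply]
      apply Finset.sum_congr rfl
      intro k _
      rw [LinearMap.smul_apply]
    have h2 : ∑ i, (∑ k, φ.out k i • bb k) (x i) =
        ∑ j, W j (lin (φ.c.get j).2 x) + ∑ j, W' j (lin (φ.e.get j) x) := by
      have e1 : ∀ i, (∑ k, φ.out k i • bb k) (x i) =
          ∑ j, (φ.c.get j).2 i • W j (x i) + ∑ j, (φ.e.get j) i • W' j (x i) := by
        intro i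
        rw [hww' i, LinearMap.add_apply, LinearMap.sum_apply, LinearMap.sum_apply]
        simp only [LinearMap.smul_apply]
      simp only [e1]
      rw [Finset.sum_add_distrib, Finset.sum_comm, Finset.sum_comm (s := (Finset.univ : Finset (Fin φ.n)))
        (t := (Finset.univ : Finset (Fin φ.e.length)))]
      congr 1
      · apply Finset.sum_congr rfl
        intro j _
        rw [lin, map_sum]
        apply Finset.sum_congr rfl
        intro i _
        rw [map_smul]
      · apply Finset.sum_congr rfl
        intro j _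
        rw [lin, map_sum]
        apply Finset.sum_congr rfl
        intro i _
        rw [map_smul]
    have h3 : ∑ j, W j (lin (φ.c.get j).2 x) = 0 := by
      apply Finset.sum_eq_zero
      intro j _
      have h4 : W j ∈ (N.P (φ.c.get j).1).dualAnnihilator := hw j
      exact (Submodule.mem_dualAnnihilator _).mp h4 _ (hx1 _ (List.get_mem _ _))
    have h5 : ∑ j, W' j (lin (φ.e.get j) x) = 0 := by
      apply Finset.sum_eq_zero
      intro j _
      rw [hx2 _ (List.get_mem _ _), map_zero]
    show ∑ k, bb k (y k) = 0
    rw [h1, h2, h3, h5, add_zero]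
  · intro hb
    let bb : κ → Module.Dual K N := b
    have hb' : ∀ y : κ → N, φ.Sat N y → ∑ k, bb k (y k) = 0 := hb
    let linM : (Fin φ.n → K) → ((Fin φ.n → N) →ₗ[K] N) := fun v =>
      ∑ i, v i • LinearMap.proj i
    have hlinM : ∀ v x, linM v x = lin v x := by
      intro v x
      simp only [linM, lin, LinearMap.sum_apply, LinearMap.smul_apply, LinearMap.proj_apply]
    let T : (Fin φ.n → N) →ₗ[K]
        ((∀ j : Fin φ.c.length, N ⧸ N.P (φ.c.get j).1) × (Fin φ.e.length → N)) :=
      LinearMap.prod
        (LinearMap.pi fun j => (N.P (φ.c.get j).1).mkQ ∘ₗ linM (φ.c.get j).2)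
        (LinearMap.pi fun j => linM (φ.e.get j))
    let F : Module.Dual K (Fin φ.n → N) := ∑ k, bb k ∘ₗ linM (φ.out k)
    have hF : ∀ x, F x = ∑ k, bb k (lin (φ.out k) x) := by
      intro x
      simp only [F, LinearMap.sum_apply, LinearMap.comp_apply, hlinM]
    have hmem : F ∈ (LinearMap.ker T).dualAnnihilator := by
      rw [Submodule.mem_dualAnnihilator]
      intro x hx
      rw [LinearMap.mem_ker] at hx
      rw [hF]
      apply hb'
      have hx1 : (T x).1 = 0 := by rw [hx]; rfl
      have hx2 : (T x).2 = 0 := by rw [hx]; rfl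
      refine ⟨x, ?_, ?_, fun k => rfl⟩
      · intro q hq
        obtain ⟨j, rfl⟩ := List.mem_iff_get.mp hq
        have h1 := congrFun hx1 j
        have h2 : (N.P (φ.c.get j).1).mkQ (linM (φ.c.get j).2 x) = 0 := h1
        rw [hlinM] at h2
        exact (Submodule.Quotient.mk_eq_zero _).mp h2
      · intro v hv
        obtain ⟨j, rfl⟩ := List.mem_iff_get.mp hv
        have h1 := congrFun hx2 j
        have h2 : linM (φ.e.get j) x = 0 := h1
        rw [hlinM] at h2
        exact h2
    rw [← LinearMap.range_dualMap_eq_dualAnnihilator_ker] at hmem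
    obtain ⟨G, hG⟩ := hmem
    have hG' : ∀ x, G (T x) = F x := fun x => by rw [← hG]; rfl
    let W : Fin φ.c.length → Module.Dual K N := fun j =>
      G ∘ₗ LinearMap.inl K _ _ ∘ₗ LinearMap.single K (fun j : Fin φ.c.length => N ⧸ N.P (φ.c.get j).1) j ∘ₗ
        (N.P (φ.c.get j).1).mkQ
    let W' : Fin φ.e.length → Module.Dual K N := fun j =>
      G ∘ₗ LinearMap.inr K _ _ ∘ₗ LinearMap.single K (fun _ : Fin φ.e.length => (N : Type u)) j
    refine ⟨W, W', ?_, ?_⟩
    · intro j
      show W j ∈ (N.P (φ.c.get j).1).dualAnnihilator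
      rw [Submodule.mem_dualAnnihilator]
      intro z hz
      show G (LinearMap.inl K _ _ (LinearMap.single K (fun j : Fin φ.c.length => N ⧸ N.P (φ.c.get j).1) j
        ((N.P (φ.c.get j).1).mkQ z))) = 0
      have h1 : (N.P (φ.c.get j).1).mkQ z = 0 := (Submodule.Quotient.mk_eq_zero _).mpr hz
      rw [h1, map_zero, map_zero, map_zero]
    · intro i
      show ∑ k, φ.out k i • bb k = ∑ j, (φ.c.get j).2 i • W j + ∑ j, (φ.e.get j) i • W' j
      ext z
      have hlins : ∀ v : Fin φ.n → K, lin v (Pi.single i z : Fin φ.n → N) = v i • z := by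
        intro v
        unfold lin
        rw [Finset.sum_eq_single i]
        · rw [Pi.single_eq_same]
        · intro j _ hj
          rw [Pi.single_eq_of_ne hj, smul_zero]
        · intro h
          exact absurd (Finset.mem_univ _) h
      have h1 : F (Pi.single i z) = (∑ k, φ.out k i • bb k) z := by
        rw [hF, LinearMap.sum_apply]
        apply Finset.sum_congr rfl
        intro k _
        rw [hlins, map_smul, LinearMap.smul_apply]
      rw [← h1, ← hG']
      have h2 : T (Pi.single i z) =
          LinearMap.inl K _ _ (∑ j, LinearMap.single K (fun j : Fin φ.c.length => N ⧸ N.P (φ.c.get j).1) j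
            ((φ.c.get j).2 i • (N.P (φ.c.get j).1).mkQ z)) +
          LinearMap.inr K _ _ (∑ j, LinearMap.single K (fun _ : Fin φ.e.length => (N : Type u)) j
            ((φ.e.get j) i • z)) := by
        apply Prod.ext
        · funext j
          have e1 : (T (Pi.single i z)).1 j = (N.P (φ.c.get j).1).mkQ (linM (φ.c.get j).2 (Pi.single i z)) := rfl
          rw [e1, hlinM, hlins, map_smul]
          simp only [LinearMap.coe_inl, LinearMap.coe_inr, LinearMap.coe_single, Prod.fst_add, add_zero]
          rw [Finset.sum_apply, Finset.sum_eq_single j]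
          · rw [Pi.single_eq_same]
          · intro j' _ hj'
            rw [Pi.single_eq_of_ne hj'.symm]
          · intro h
            exact absurd (Finset.mem_univ _) h
        · funext j
          have e1 : (T (Pi.single i z)).2 j = linM (φ.e.get j) (Pi.single i z) := rfl
          rw [e1, hlinM, hlins]
          simp only [LinearMap.coe_inl, LinearMap.coe_inr, LinearMap.coe_single, Prod.snd_add, zero_add]
          rw [Finset.sum_apply, Finset.sum_eq_single j]
          · rw [Pi.single_eq_same]
          · intro j' _ hj'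
            rw [Pi.single_eq_of_ne hj'.symm]
          · intro h
            exact absurd (Finset.mem_univ _) h
      rw [h2, map_add, map_sum, map_sum, map_sum, map_sum, LinearMap.add_apply, LinearMap.sum_apply,
        LinearMap.sum_apply]
      congr 1
      · apply Finset.sum_congr rfl
        intro j _
        rw [map_smul, map_smul, map_smul, LinearMap.smul_apply]
        rfl
      · apply Finset.sum_congr rfl
        intro j _
        rw [map_smul, map_smul, map_smul, LinearMap.smul_apply]
        rfl

theorem sq_dual {N : Obj K (CS K).L} (hN : (CS K).CC (GG K) N) :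
    ∀ q ∈ SqC K, ∀ b : Fin q.1 → N.dual, q.2.2.DSat N.dual b → q.2.1.DSat N.dual b := by
  intro q hq b hb
  rw [dsat_dual] at hb ⊢
  intro y hy
  exact hb y (hq.2.2 N hN y hy)

end Pool.Agent.Helper13.SDW
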