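import Pool.Agent.Helper13.SDW.NiceDefs

/-!
# BLOCK SDW-NICEA: elements of `V_τ^κ ∩ C` (about 150 lines)

Let `T' = insert τ T`. Claim, by induction on `Cx T' (Pre.nil) G e`: for `t : κ → (Fin G.n → K)` with
`t k ∈ Pf S G (.inr τ)` for all `k` and `C D (fun k => lin (t k) x')` for all `D ∈ FF_T'` and
`x' ∈ G.Hom D` there are `m, ρ, r` and linear forms `d i, y i : Fin G.n → K` (`i : Fin m`) with
`Legal T τ C (ρ i) (r i)`, with `X (d i (x'))`, `Y (y i (x'))`,
`(d i + y i)(x') ∈ V_τ(D)` for all `D ∈ FF_T'`, `x' ∈ G.Hom D`, and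
`t k = ∑ i, ρ i k • (d i + y i)`.
* `base`: `Pf S (Pre.nil) (.inr τ)` is zero (`Pf_eq_zero`): `m = 0`.
* `atom`: `Pf_atom`; `x' ∈ G.Hom D` extends by `0`.
* `cell σ r d`: `Pf_cell`: `t k = Fin.append (v₀ k + c k • d) (v₁ k + c k • out)` and `v₁ k = 0`, as the
  labels of `S.Y σ r` are in `lab (B σ) ⊆ lab T` and `τ ∉ T` (`Pf_eq_zero`; `B τ ⊆ T`,
  `B σ ⊆ T` for `σ ∈ T`). If `σ ≠ τ` then `c = 0`; use the induction hypothesis for `v₀`
  (`x'` extends to the cell: `Sys.FF.exists_block`). If `σ = τ` let `ρ := c`. The pair `(ρ, r)` is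
  legal: let `M ∈ FF_T`, `y' ∈ (S.Y τ r).Hom M`; in `D := S.triv T M ∈ FF_T'` the tuple `(0, y')` is in
  `(G.cell τ r d).Hom D` (the condition in `V_τ` is trivial), so `C D (ρ k • out y')`,
  hence `C M (..)` (`triv_def`). By `hC1` also `ρ ⊗ X_r ≤ C`. So for `D ∈ FF_T'`, `x' ∈ G.Hom D`
  with an extension `(x', y'')` to the cell: `C D (v₀(x'))` as
  `v₀ k (x') = t k (x', y'') - ρ k • d(x') - ρ k • out(y'')`. Apply the induction hypothesis to
  `v₀`, and add the term `(ρ, r, Fin.append d 0, Fin.append 0 out)`.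
For the theorem apply `CC.cx` to the elements `u k` with `l k = .inr τ`; `C D (lin (t k) x')` for all
`x'`, as homs preserve `C` (`IsDef.map`).
-/

namespace Pool.Agent.Helper13.SDW

universe u

variable {K : Type u} [Field K] {S : Sys K} {G : Set S.Tp} {B : S.Tp → Set S.Tp}

/-- the claim of the induction -/
private theorem NiceA_claim (h : S.OK G B) {T : Set S.Tp} (hT : S.Down G B T) {τ : S.Tp}
    (hτ : τ ∈ G) (hτT : τ ∉ T) (hB : B τ ⊆ T) {κ : Type} [Fintype κ] {C : SF K S.L κ}
    (hC : IsDef (S.lab T) C)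
    (hC1 : ∀ ρ r, S.Legal T τ C ρ r → ∀ M : Obj K S.L, S.FF T M → ∀ x : M,
      (S.X τ r).S1 M x → C M (fun k => ρ k • x))
    {G₁ : Pre K S.L} {e : Fin (Pre.nil K S.L).n → Fin G₁.n}
    (hCx : Cx (insert τ T) (Pre.nil K S.L) G₁ e) :
    ∀ t : κ → Fin G₁.n → K, (∀ k, t k ∈ Pf S G₁ (.inr τ)) →
      (∀ D : Obj K S.L, S.FF (insert τ T) D → ∀ x : Fin G₁.n → D, G₁.Hom D x →
        C D (fun k => lin (t k) x)) →
      ∃ (m : ℕ) (ρ : Fin m → κ → K) (r : Fin m → Rl) (d y : Fin m → Fin G₁.n → K),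
        (∀ i, S.Legal T τ C (ρ i) (r i)) ∧
        (∀ i, ∀ D : Obj K S.L, S.FF (insert τ T) D → ∀ x : Fin G₁.n → D, G₁.Hom D x →
          (S.X τ (r i)).S1 D (lin (d i) x) ∧ (S.Y τ (r i)).S1 D (lin (y i) x) ∧
          lin (d i) x + lin (y i) x ∈ D.P (.inr τ)) ∧
        ∀ k, t k = ∑ i, ρ i k • (d i + y i) := by
  have hTT : T ⊆ insert τ T := Set.subset_insert _ _
  have hT' : S.Down G B (insert τ T) := Sys.down_insert hT hτ hB
  -- extension by a new summand without `V_τ`-conditions
  have hlift : ∀ {n₀ n₁ : ℕ} {t : κ → Fin (n₀ + n₁) → K} {v₀ : κ → Fin n₀ → K} {m : ℕ}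
      {ρ : Fin m → κ → K} {d y : Fin m → Fin n₀ → K},
      (∀ k, t k = Fin.append (v₀ k) (fun _ => 0)) → (∀ k, v₀ k = ∑ i, ρ i k • (d i + y i)) →
      ∀ k, t k = ∑ i, ρ i k • ((Fin.append (d i) (fun _ => 0) : Fin (n₀ + n₁) → K) +
        Fin.append (y i) (fun _ => 0)) := by
    intro n₀ n₁ t v₀ m ρ d y h1 h2 k
    rw [h1 k, h2 k]
    funext j
    rw [Finset.sum_apply]
    refine Fin.addCases (fun j => ?_) (fun j => ?_) j
    · simp [Finset.sum_apply, mul_add]
    · simp
  induction hCx with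
  | base =>
    intro t ht _
    refine ⟨0, Fin.elim0, Fin.elim0, Fin.elim0, Fin.elim0, fun i => Fin.elim0 i,
      fun i => Fin.elim0 i, fun k => ?_⟩
    funext j
    exact Fin.elim0 j
  | @atom G₂ e₂ a _ ih =>
    intro t ht hCt
    choose v₀ hv₀ htv using fun k => Pf_atom (ht k)
    obtain ⟨m, ρ, r, d, y, h1, h2, h3⟩ := ih v₀ hv₀ (fun D hD x hx => by
      have hx' : (G₂.sum (Pre.one K (.inl a))).Hom D (Fin.append x (fun _ : Fin 1 => (0 : D))) := by
        refine (Pre.sum_hom _ _ D _).2 ⟨?_, ?_⟩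
        · simpa only [Fin.append_left] using hx
        · rw [Pre.one_hom]
          have h1 : (Fin.append x (fun _ : Fin 1 => (0 : D))) (Fin.natAdd G₂.n (0 : Fin 1)) = 0 :=
            Fin.append_right _ _ _
          change (Fin.append x (fun _ : Fin 1 => (0 : D))) (Fin.natAdd G₂.n (0 : Fin 1)) ∈ _
          rw [h1]
          exact (D.P _).zero_mem
      have h1 := hCt D hD _ hx'
      have h2 : (fun k => lin (t k) (Fin.append x (fun _ : Fin 1 => (0 : D))))
          = fun k => lin (v₀ k) x := by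
        funext k
        rw [htv k]
        have h3 := lin_append (K := K) (v₀ k) (fun _ : Fin 1 => (0 : K))
          (Fin.append x (fun _ : Fin 1 => (0 : D)))
        rw [lin_zero_left, add_zero] at h3
        simp only [Fin.append_left] at h3
        exact h3
      rw [h2] at h1
      exact h1)
    refine ⟨m, ρ, r, fun i => Fin.append (d i) (fun _ => 0), fun i => Fin.append (y i) (fun _ => 0),
      h1, ?_, hlift htv h3⟩
    intro i D hD x hx
    have hx1 := ((Pre.sum_hom _ _ D _).1 hx).1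
    have h4 := h2 i D hD _ hx1
    have hd : lin (Fin.append (d i) (fun _ : Fin 1 => (0 : K))) x
        = lin (d i) (fun j => x (Fin.castAdd 1 j)) := by
      rw [lin_append, lin_zero_left, add_zero]
    have hy : lin (Fin.append (y i) (fun _ : Fin 1 => (0 : K))) x
        = lin (y i) (fun j => x (Fin.castAdd 1 j)) := by
      rw [lin_append, lin_zero_left, add_zero]
    change (S.X τ (r i)).S1 D (lin (Fin.append (d i) (fun _ : Fin 1 => (0 : K))) x) ∧
      (S.Y τ (r i)).S1 D (lin (Fin.append (y i) (fun _ : Fin 1 => (0 : K))) x) ∧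
      lin (Fin.append (d i) (fun _ : Fin 1 => (0 : K))) x +
        lin (Fin.append (y i) (fun _ : Fin 1 => (0 : K))) x ∈ D.P (.inr τ)
    rw [hd, hy]
    exact h4
  | @cell G₂ e₂ σ r₀ d₀ _ hσ hval ih =>
    intro t ht hCt
    choose v₀ v₁ c hv₀ hv₁ hc htv using fun k => Pf_cell (ht k)
    have hσG : σ ∈ G := hT'.1 hσ
    have hlabσ : ∀ q ∈ (S.Y σ r₀).c, q.1 ≠ .inr τ := by
      intro q hq hqτ
      have h1 : τ ∈ B σ := h.labY hσG r₀ q hq τ hqτ
      rcases hσ with rfl | hσ
      · exact h.not_mem_B hτ h1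
      · exact hτT (hT.2 σ hσ h1)
    have hv10 : ∀ k, v₁ k = 0 := fun k => Pf_eq_zero hlabσ (hv₁ k)
    have htv' : ∀ k, t k = Fin.append (v₀ k + c k • d₀) (c k • (S.Y σ r₀).out ()) := by
      intro k
      rw [htv k, hv10 k, zero_add]
    -- extension of homs to the cell
    have hext : ∀ D : Obj K S.L, S.FF (insert τ T) D → ∀ x : Fin G₂.n → D, G₂.Hom D x →
        ∃ y : Fin (S.Y σ r₀).n → D, (S.Y σ r₀).toPre.Hom D y ∧
          (G₂.cell σ r₀ d₀).Hom D (Fin.append x y) := by
      intro D hD x hx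
      obtain ⟨y, hy, hy'⟩ := hD.exists_block hσ r₀ (hval D hD x hx)
      refine ⟨y, hy, (Pre.addc_hom _ _ _ D _).2 ⟨(Pre.sum_hom _ _ D _).2 ⟨?_, ?_⟩, ?_⟩⟩
      · simpa only [Fin.append_left] using hx
      · simpa only [Fin.append_right] using hy
      · rw [lin_append]
        simpa only [Fin.append_left, Fin.append_right] using hy'
    have hlt : ∀ (D : Obj K S.L) (x : Fin G₂.n → D) (y : Fin (S.Y σ r₀).n → D) (k : κ),
        lin (t k) (Fin.append x y) = lin (v₀ k) x + c k • lin d₀ x +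
          c k • lin ((S.Y σ r₀).out ()) y := by
      intro D x y k
      rw [htv' k]
      have h3 := lin_append (K := K) (v₀ k + c k • d₀) (c k • (S.Y σ r₀).out ())
        (Fin.append x y)
      simp only [Fin.append_left, Fin.append_right] at h3
      rw [h3, lin_add_left, lin_smul_left, lin_smul_left]
    by_cases hστ : τ = σ
    · subst hστ
      -- the pair `(c, r₀)` is legal
      have hlabT : ∀ q ∈ (S.Y τ r₀).c, q.1 ∈ S.lab T := fun q hq =>
        Sys.lab_mono hB (h.labY hτ r₀ q hq)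
      have hleg : S.Legal T τ C c r₀ := by
        rintro M hM y ⟨z, hz, hyz⟩
        have hy0 : y = lin ((S.Y τ r₀).out ()) z := hyz ()
        have hD : S.FF (insert τ T) (S.triv T M) := h.triv_ff hT hT' hM
        have hx : (G₂.cell τ r₀ d₀).Hom (S.triv T M)
            (Fin.append (fun _ => (0 : S.triv T M)) (z : Fin (S.Y τ r₀).n → S.triv T M)) := by
          refine (Pre.addc_hom _ _ _ _ _).2 ⟨(Pre.sum_hom _ _ _ _).2 ⟨?_, ?_⟩, ?_⟩
          · simp only [Fin.append_left]
            intro q hq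
            rw [lin_zero]
            exact Submodule.zero_mem _
          · simp only [Fin.append_right]
            exact (Sys.triv_hom _ hlabT M z).2 hz
          · have h1 : (Sum.inr τ : S.L) ∉ S.lab T := fun h2 => hτT (h2 τ rfl)
            have h2 : (S.triv T M).P (.inr τ) = ⊤ := if_neg h1
            rw [h2]
            exact Submodule.mem_top
        have h1 := hCt _ hD _ hx
        have h2 : (fun k => lin (t k) (Fin.append (fun _ => (0 : S.triv T M))
            (z : Fin (S.Y τ r₀).n → S.triv T M))) = fun k => c k • (y : S.triv T M) := by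
          funext k
          rw [hlt, lin_zero, lin_zero, smul_zero, zero_add, zero_add, hy0]
        rw [h2] at h1
        exact (Sys.triv_def hC M (fun k => c k • y)).1 h1
      obtain ⟨m, ρ, r, d, y, h1, h2, h3⟩ := ih v₀ hv₀ (fun D hD x hx => by
        obtain ⟨y, hy, hxy⟩ := hext D hD x hx
        have h1 := hCt D hD _ hxy
        have hDT : S.FF T D := hD.mono hTT
        have h2 := hC1 c r₀ hleg D hDT (lin d₀ x) (hval D hD x hx)
        have h3 := hleg D hDT (lin ((S.Y τ r₀).out ()) y) ⟨y, hy, fun _ => rfl⟩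
        have h4 := hC.sub_mem (hC.sub_mem h1 h3) h2
        have h5 : (fun k => lin (t k) (Fin.append x y) - c k • lin ((S.Y τ r₀).out ()) y
            - c k • lin d₀ x) = fun k => lin (v₀ k) x := by
          funext k
          rw [hlt]
          abel
        rw [h5] at h4
        exact h4)
      refine ⟨m + 1, Fin.cons c ρ, Fin.cons r₀ r,
        Fin.cons (Fin.append d₀ (fun _ => 0) : Fin (G₂.cell τ r₀ d₀).n → K)
          (fun i => Fin.append (d i) (fun _ => 0)),
        Fin.cons (Fin.append (fun _ => 0) ((S.Y τ r₀).out ()) : Fin (G₂.cell τ r₀ d₀).n → K)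
          (fun i => Fin.append (y i) (fun _ => 0)), ?_, ?_, ?_⟩
      · intro i
        refine Fin.cases ?_ (fun i => ?_) i
        · simpa only [Fin.cons_zero] using hleg
        · simpa only [Fin.cons_succ] using h1 i
      · intro i D hD x hx
        have hx0 := (Pre.addc_hom _ _ _ D _).1 hx
        have hx1 := (Pre.sum_hom _ _ D _).1 hx0.1
        refine Fin.cases ?_ (fun i => ?_) i
        · simp only [Fin.cons_zero]
          have hd : lin (Fin.append d₀ (fun _ : Fin (S.Y τ r₀).n => (0 : K))) x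
              = lin d₀ (fun j => x (Fin.castAdd _ j)) := by
            rw [lin_append, lin_zero_left, add_zero]
          have hy : lin (Fin.append (fun _ : Fin G₂.n => (0 : K)) ((S.Y τ r₀).out ())) x
              = lin ((S.Y τ r₀).out ()) (fun j => x (Fin.natAdd _ j)) := by
            rw [lin_append, lin_zero_left, zero_add]
          rw [hd, hy]
          refine ⟨hval D hD _ hx1.1, ⟨_, hx1.2, fun _ => rfl⟩, ?_⟩
          have h4 := hx0.2
          rw [lin_append] at h4
          exact h4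
        · simp only [Fin.cons_succ]
          have h4 := h2 i D hD _ hx1.1
          have hd : lin (Fin.append (d i) (fun _ : Fin (S.Y τ r₀).n => (0 : K))) x
              = lin (d i) (fun j => x (Fin.castAdd _ j)) := by
            rw [lin_append, lin_zero_left, add_zero]
          have hy : lin (Fin.append (y i) (fun _ : Fin (S.Y τ r₀).n => (0 : K))) x
              = lin (y i) (fun j => x (Fin.castAdd _ j)) := by
            rw [lin_append, lin_zero_left, add_zero]
          rw [hd, hy]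
          exact h4
      · intro k
        rw [Fin.sum_univ_succ]
        simp only [Fin.cons_zero, Fin.cons_succ]
        rw [htv' k, h3 k]
        funext j
        rw [Pi.add_apply, Finset.sum_apply]
        refine Fin.addCases (fun j => ?_) (fun j => ?_) j
        · simp [Finset.sum_apply, mul_add, add_comm]
        · simp
    · have hc0 : ∀ k, c k = 0 := fun k => hc k hστ
      have htv0 : ∀ k, t k = Fin.append (v₀ k) (fun _ => 0) := by
        intro k
        rw [htv' k, hc0 k, zero_smul, zero_smul, add_zero]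
        rfl
      obtain ⟨m, ρ, r, d, y, h1, h2, h3⟩ := ih v₀ hv₀ (fun D hD x hx => by
        obtain ⟨y, hy, hxy⟩ := hext D hD x hx
        have h1 := hCt D hD _ hxy
        have h5 : (fun k => lin (t k) (Fin.append x y)) = fun k => lin (v₀ k) x := by
          funext k
          rw [hlt, hc0 k, zero_smul, zero_smul, add_zero, add_zero]
        rw [h5] at h1
        exact h1)
      refine ⟨m, ρ, r, fun i => Fin.append (d i) (fun _ => 0),
        fun i => Fin.append (y i) (fun _ => 0), h1, ?_, hlift htv0 h3⟩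
      intro i D hD x hx
      have hx0 := (Pre.addc_hom _ _ _ D _).1 hx
      have hx1 := (Pre.sum_hom _ _ D _).1 hx0.1
      have h4 := h2 i D hD _ hx1.1
      have hd : lin (Fin.append (d i) (fun _ : Fin (S.Y σ r₀).n => (0 : K))) x
          = lin (d i) (fun j => x (Fin.castAdd _ j)) := by
        rw [lin_append, lin_zero_left, add_zero]
      have hy : lin (Fin.append (y i) (fun _ : Fin (S.Y σ r₀).n => (0 : K))) x
          = lin (y i) (fun j => x (Fin.castAdd _ j)) := by
        rw [lin_append, lin_zero_left, add_zero]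
      change (S.X τ (r i)).S1 D (lin (Fin.append (d i) (fun _ : Fin (S.Y σ r₀).n => (0 : K))) x) ∧
        (S.Y τ (r i)).S1 D (lin (Fin.append (y i) (fun _ : Fin (S.Y σ r₀).n => (0 : K))) x) ∧
        lin (Fin.append (d i) (fun _ : Fin (S.Y σ r₀).n => (0 : K))) x +
          lin (Fin.append (y i) (fun _ : Fin (S.Y σ r₀).n => (0 : K))) x ∈ D.P (.inr τ)
      rw [hd, hy]
      exact h4

theorem vk_repr (h : S.OK G B) {T : Set S.Tp} (hT : S.Down G B T) {τ : S.Tp} (hτ : τ ∈ G)
    (hτT : τ ∉ T) (hB : B τ ⊆ T) {κ : Type} [Fintype κ] {C : SF K S.L κ}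
    (hC : IsDef (S.lab T) C)
    (hC1 : ∀ ρ r, S.Legal T τ C ρ r → ∀ M : Obj K S.L, S.FF T M → ∀ x : M,
      (S.X τ r).S1 M x → C M (fun k => ρ k • x))
    {M : Obj K S.L} (hM : S.CC (insert τ T) M) {u : κ → M}
    (hu : ∀ k, u k ∈ M.P (.inr τ)) (hCu : C M u) :
    ∃ (m : ℕ) (ρ : Fin m → κ → K) (r : Fin m → Rl) (d y : Fin m → M),
      (∀ i, S.Legal T τ C (ρ i) (r i)) ∧ (∀ i, (S.X τ (r i)).S1 M (d i)) ∧
      (∀ i, (S.Y τ (r i)).S1 M (y i)) ∧ (∀ i, d i + y i ∈ M.P (.inr τ)) ∧
      ∀ k, u k = ∑ i, ρ i k • (d i + y i) := by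
  have hTT : T ⊆ insert τ T := Set.subset_insert _ _
  have hT' : S.Down G B (insert τ T) := Sys.down_insert hT hτ hB
  have hτl : (Sum.inr τ : S.L) ∈ S.lab (insert τ T) := by
    intro σ hσ
    rw [← Sum.inr.inj hσ]
    exact Set.mem_insert _ _
  obtain ⟨G₁, e, t, x, hCx, hx, ht, hlin, hext⟩ := CC.cx (h.closed hT') h.proot hM
    (fun _ : κ => (.inr τ : S.L)) (fun _ => hτl) u hu
  obtain ⟨m, ρ, r, d, y, h1, h2, h3⟩ := NiceA_claim h hT hτ hτT hB hC hC1 hCx t ht
    (fun D hD x' hx' => by
      obtain ⟨f, hf, hfu⟩ := hext D hD x' hx'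
      have h4 := hC.map (fun l hl => hf l (Sys.lab_mono hTT hl)) hCu
      have h5 : (fun k => f (u k)) = fun k => lin (t k) x' := funext hfu
      rw [h5] at h4
      exact h4)
  refine ⟨m, ρ, r, fun i => lin (d i) x, fun i => lin (y i) x, h1,
    fun i => (h2 i M hM.ff x hx).1, fun i => (h2 i M hM.ff x hx).2.1,
    fun i => (h2 i M hM.ff x hx).2.2, fun k => ?_⟩
  rw [← hlin k, h3 k]
  simp only [lin, Finset.sum_apply, Pi.smul_apply, Pi.add_apply, smul_eq_mul, Finset.sum_smul]
  rw [Finset.sum_comm]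
  refine Finset.sum_congr rfl fun i _ => ?_
  rw [← Finset.sum_add_distrib, Finset.smul_sum]
  refine Finset.sum_congr rfl fun j _ => ?_
  rw [mul_smul, add_smul]

end Pool.Agent.Helper13.SDW
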