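import Pool.Agent.Helper13.SDW.NiceDefs

/-!
# BLOCK SDW-NICEB1: closure properties of nice formulas (about 150 lines)

* `NiceF.le_FF`: `M₁ = Nc T χ.obj PUnit ∈ CC_T` (`obj_cc`), `χ.Sat M₁ (out(gen))`, so `F M₁ (..)`, and every
  `a ∈ χ.Hom M` comes from a hom `M₁ → M` (`obj_extend`, `IsDef.map`).
* `NiceF.add`: `[G₁.sum G₂, a₁ + a₂]` (`Pre.sum_hom`, `lin_append`, `cofP_sum`).
* `NiceF.tens`: `out k := ρ k • a ()`.
* `NiceF.sub`: linear substitutions of nice formulas in the other direction are not needed.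
-/

namespace Pool.Agent.Helper13.SDW

universe u

variable {K : Type u} [Field K] {S : Sys K} {T : Set S.Tp} {κ : Type}

theorem NiceF.congr {F H : SF K S.L κ} (hF : S.NiceF T F)
    (hFH : ∀ M : Obj K S.L, S.CC T M → ∀ y : κ → M, F M y ↔ H M y) : S.NiceF T H := by
  obtain ⟨χ, h1, h2, h3⟩ := hF
  exact ⟨χ, h1, h2, fun M hM y => (hFH M hM y).symm.trans (h3 M hM y)⟩

theorem NiceF.le_FF (hT : S.Closed T) (hr : S.par S.root = S.root) {F : SF K S.L κ}
    (hF : IsDef (S.lab T) F) {χ : Fm K S.L κ} (hl : ∀ q ∈ χ.c, q.1 ∈ S.lab T)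
    (hχ : S.CofP T χ.toPre)
    (h : ∀ M : Obj K S.L, S.CC T M → ∀ y : κ → M, χ.Sat M y → F M y)
    {M : Obj K S.L} (hM : S.FF T M) {y : κ → M} (hy : χ.Sat M y) : F M y := by
  have hcc : S.CC T (Nc T (χ.toPre.obj (S := S)) PUnit) := obj_cc hT hr hχ hl
  have hgen := gen_hom_Nc (T := T) χ.toPre PUnit
  obtain ⟨x, hx, hyx⟩ := hy
  obtain ⟨f, hf, hfx⟩ := obj_extend χ.toPre hM x hx PUnit
  have h1 := h _ hcc (fun k => lin (χ.out k) (fun i : Fin χ.n =>
      ((Pre.gen χ.toPre i, 0) : Nc T (χ.toPre.obj (S := S)) PUnit))) ⟨_, hgen, fun _ => rfl⟩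
  have h2 := hF.map hf h1
  have h3 : (fun k => f (lin (χ.out k) (fun i : Fin χ.n =>
      ((Pre.gen χ.toPre i, 0) : Nc T (χ.toPre.obj (S := S)) PUnit)))) = y := by
    funext k
    rw [map_lin, hyx k]
    congr 1
    funext i
    exact hfx i
  rw [h3] at h2
  exact h2

theorem NiceF.zero : S.NiceF T (fun M (y : κ → M) => ∀ k, y k = 0) := by
  refine ⟨⟨⟨0, []⟩, fun _ _ => 0⟩, fun q hq => absurd hq List.not_mem_nil, cofP_nil, ?_⟩
  intro M _ y
  constructor
  · intro h
    refine ⟨fun i => i.elim0, fun q hq => absurd hq List.not_mem_nil, fun k => ?_⟩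
    rw [h k]
    exact (lin_zero_left _).symm
  · rintro ⟨x, -, h⟩ k
    rw [h k]
    exact lin_zero_left _

theorem NiceF.add {F H : SF K S.L κ} (hF : S.NiceF T F) (hH : S.NiceF T H) :
    S.NiceF T (sumF F H) := by
  obtain ⟨χ, h1, h2, h3⟩ := hF
  obtain ⟨ψ, g1, g2, g3⟩ := hH
  refine ⟨⟨χ.toPre.sum ψ.toPre, fun k => Fin.append (χ.out k) (ψ.out k)⟩, ?_, cofP_sum h2 g2, ?_⟩
  · intro q hq
    rcases Pre.mem_sum_c.1 hq with ⟨p, hp, rfl⟩ | ⟨p, hp, rfl⟩
    · exact h1 p hp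
    · exact g1 p hp
  · intro M hM y
    constructor
    · rintro ⟨a, b, ha, hb, hab⟩
      obtain ⟨x, hx, hax⟩ := (h3 M hM a).1 ha
      obtain ⟨z, hz, hbz⟩ := (g3 M hM b).1 hb
      refine ⟨Fin.append x z, (Pre.sum_hom _ _ M _).2 ⟨?_, ?_⟩, fun k => ?_⟩
      · simpa only [Fin.append_left] using hx
      · simpa only [Fin.append_right] using hz
      · change y k = lin (Fin.append (χ.out k) (ψ.out k)) (Fin.append x z)
        rw [lin_append, hab k, hax k, hbz k]
        simp only [Fin.append_left, Fin.append_right]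
    · rintro ⟨w, hw, hyw⟩
      obtain ⟨hw1, hw2⟩ := (Pre.sum_hom _ _ M _).1 hw
      refine ⟨_, _, (h3 M hM _).2 ⟨_, hw1, fun k => rfl⟩, (g3 M hM _).2 ⟨_, hw2, fun k => rfl⟩,
        fun k => ?_⟩
      rw [hyw k]
      exact lin_append _ _ _

theorem NiceF.tens {φ : SF1 K S.L}
    (hφ : S.NiceF T (fun M (y : Unit → M) => φ M (y ()))) (ρ : κ → K) :
    S.NiceF T (tens ρ φ) := by
  obtain ⟨χ, h1, h2, h3⟩ := hφ
  refine ⟨⟨χ.toPre, fun k => ρ k • χ.out ()⟩, h1, h2, ?_⟩
  intro M hM y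
  constructor
  · rintro ⟨x, hx, hyx⟩
    obtain ⟨z, hz, hxz⟩ := (h3 M hM (fun _ => x)).1 hx
    refine ⟨z, hz, fun k => ?_⟩
    change y k = lin (ρ k • χ.out ()) z
    rw [lin_smul_left, hyx k]
    exact congrArg _ (hxz ())
  · rintro ⟨z, hz, hyz⟩
    refine ⟨lin (χ.out ()) z, (h3 M hM (fun _ => lin (χ.out ()) z)).2 ⟨z, hz, fun _ => rfl⟩,
      fun k => ?_⟩
    rw [hyz k]
    exact lin_smul_left _ _ _

/-- Finite sums of nice formulas. -/
theorem NiceF.fsum {J : Type} [Fintype J] {F : J → SF K S.L κ} (hF : ∀ j, S.NiceF T (F j)) :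
    S.NiceF T (fun M (y : κ → M) => ∃ z : J → κ → M, (∀ j, F j M (z j)) ∧
      ∀ k, y k = ∑ j, z j k) := by
  have key : ∀ (α : Type) [Fintype α], ∀ F : α → SF K S.L κ, (∀ j, S.NiceF T (F j)) →
      S.NiceF T (fun M (y : κ → M) => ∃ z : α → κ → M, (∀ j, F j M (z j)) ∧
        ∀ k, y k = ∑ j, z j k) := by
    intro α _
    refine Fintype.induction_empty_option (P := fun (α : Type) [Fintype α] =>
      ∀ F : α → SF K S.L κ, (∀ j, S.NiceF T (F j)) →
      S.NiceF T (fun M (y : κ → M) => ∃ z : α → κ → M, (∀ j, F j M (z j)) ∧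
        ∀ k, y k = ∑ j, z j k)) ?_ ?_ ?_ α
    · intro α β _ e h F hF
      let _ := Fintype.ofEquiv β e.symm
      refine NiceF.congr (h (fun i => F (e i)) (fun i => hF (e i))) fun M _ y => ?_
      constructor
      · rintro ⟨z, hz, hy⟩
        refine ⟨fun j => z (e.symm j), fun j => ?_, fun k => ?_⟩
        · have := hz (e.symm j)
          rwa [Equiv.apply_symm_apply] at this
        · rw [hy k]
          exact (Equiv.sum_comp e.symm (fun i => z i k)).symm
      · rintro ⟨z, hz, hy⟩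
        refine ⟨fun i => z (e i), fun i => hz (e i), fun k => ?_⟩
        rw [hy k]
        exact (Equiv.sum_comp e (fun j => z j k)).symm
    · intro F _
      refine NiceF.congr NiceF.zero fun M _ y => ?_
      constructor
      · intro h
        exact ⟨fun j => j.elim, fun j => j.elim, fun k => by rw [h k]; simp⟩
      · rintro ⟨z, -, hy⟩ k
        rw [hy k]
        simp
    · intro α _ h F hF
      refine NiceF.congr (NiceF.add (hF none) (h (fun i => F (some i)) (fun i => hF (some i))))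
        fun M _ y => ?_
      constructor
      · rintro ⟨a, b, ha, ⟨z, hz, hb⟩, hy⟩
        refine ⟨fun j => j.elim a z, fun j => ?_, fun k => ?_⟩
        · cases j with
          | none => exact ha
          | some i => exact hz i
        · rw [hy k, Fintype.sum_option, hb k]
          rfl
      · rintro ⟨z, hz, hy⟩
        refine ⟨z none, fun k => ∑ i, z (some i) k, hz none, ⟨fun i => z (some i),
          fun i => hz (some i), fun k => rfl⟩, fun k => ?_⟩
        rw [hy k, Fintype.sum_option]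
  exact key J F hF

theorem isDef_sumF {Λ : Set S.L} [Fintype κ] {F H : SF K S.L κ} (hF : IsDef Λ F)
    (hH : IsDef Λ H) : IsDef Λ (sumF F H) := by
  have h1 : IsDef Λ (fun (M : Obj K S.L) (w : κ ⊕ κ → M) =>
      F M (fun k => w (.inr k)) ∧ H M (fun k => w (.inl k) - w (.inr k))) := by
    refine ((hF.subst (κ := κ ⊕ κ) (fun k => fone (.inr k))).and
      (hH.subst (κ := κ ⊕ κ) (fun k => Sum.elim (fone k) (fun i => -fone k i)))).congr
      fun M w => ?_
    have e1 : (fun k : κ => lin (fone (K := K) (Sum.inr k : κ ⊕ κ)) w) =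
        fun k => w (.inr k) := by
      funext k
      exact lin_fone _ _
    have e2 : (fun k : κ => lin (Sum.elim (fone k) (fun i : κ => -fone (K := K) k i)) w) =
        fun k => w (.inl k) - w (.inr k) := by
      funext k
      rw [lin_elim, lin_fneg, lin_fone, lin_fone, sub_eq_add_neg]
    rw [e1, e2]
  refine (IsDef.ex' (κ := κ) (κ' := κ) (fun M y z => F M z ∧ H M (fun k => y k - z k)) h1).congr
    fun M y => ?_
  constructor
  · rintro ⟨z, hz1, hz2⟩
    exact ⟨z, _, hz1, hz2, fun k => (add_sub_cancel (z k) (y k)).symm⟩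
  · rintro ⟨a, b, ha, hb, hab⟩
    refine ⟨a, ha, ?_⟩
    have : (fun k => y k - a k) = b := by
      funext k
      rw [hab k, add_sub_cancel_left]
    rw [this]
    exact hb

theorem isDef_tens {Λ : Set S.L} [Fintype κ] {φ : SF1 K S.L} (hφ : Def1 Λ φ) (ρ : κ → K) :
    IsDef Λ (tens ρ φ) := by
  obtain ⟨ψ, h1, h2⟩ := hφ
  refine ⟨⟨ψ.n, ψ.c, ψ.e, fun k => ρ k • ψ.out ()⟩, h1, fun M y => ?_⟩
  constructor
  · rintro ⟨x, hx, hyx⟩
    obtain ⟨z, hz1, hz2, hz3⟩ := (h2 M (fun _ => x)).1 hx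
    refine ⟨z, hz1, hz2, fun k => ?_⟩
    change y k = lin (ρ k • ψ.out ()) z
    rw [lin_smul_left, hyx k]
    exact congrArg _ (hz3 ())
  · rintro ⟨z, hz1, hz2, hz3⟩
    refine ⟨lin (ψ.out ()) z, (h2 M (fun _ => lin (ψ.out ()) z)).2 ⟨z, hz1, hz2, fun _ => rfl⟩,
      fun k => ?_⟩
    rw [hz3 k]
    exact lin_smul_left _ _ _

theorem isDef_VkF {T' : Set S.Tp} [Fintype κ] {τ : S.Tp} (hτ : τ ∈ T') {F : SF K S.L κ}
    (hF : IsDef (S.lab T') F) : IsDef (S.lab T') (S.VkF τ F) := by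
  have hl : (.inr τ : S.L) ∈ S.lab T' := by
    intro σ hσ
    rw [← Sum.inr_injective hσ]
    exact hτ
  refine ((IsDef.all (fun k : κ => IsDef.lab hl (fone (K := K) k))).and hF).congr fun M y => ?_
  constructor
  · rintro ⟨h1, h2⟩
    refine ⟨fun k => ?_, h2⟩
    have := h1 k
    rwa [lin_fone] at this
  · rintro ⟨h1, h2⟩
    refine ⟨fun k => ?_, h2⟩
    rw [lin_fone]
    exact h1 k

end Pool.Agent.Helper13.SDW
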