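import Pool.Agent.Helper13.SDW.NiceA
import Pool.Agent.Helper13.SDW.NiceB1

/-!
# BLOCK SDW-NICEB2: `V_τ^κ ∩ C` is nice (about 200 lines)

Let `T' = insert τ T`.
* `V_le_U0`: `vk_repr` for `κ = Unit`, `C = ⊤` (all `X_r, Y_r ≤ U_0` in `FF_T`: `X_{u 0} = 0`,
  `U_{n+1} ≤ U_n`, `D ≤ Z ≤ U`).
* `nice_V`: the formula `[U_0 ; (.inr τ, out) ; out]`, i.e. `((S.U τ 0).toPre.addc (.inr τ) out)`. It is
  cofibrant over `T'` by the cell clause of a trivial fibration for the rule `u 0` and `x = 0`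
  (`(Fm.zero).S1 _ 0`). It defines `V_τ ∩ U_0 = V_τ`.
* `nice_VD`: `V_τ ∩ D_l` is `{x + y : x ∈ D_l, y ∈ Z_l, x + y ∈ V_τ}` (`Z_l ≤ D_l`; for `v ∈ V ∩ D_l` take
  `x = v, y = 0`), given by the presentation `(D τ l).toPre.cell τ (.d l) out` with output
  `Fin.append out out`; cofibrant: lift the part of `D_l` (`h.cofD`, `CofP.mono`), then the cell
  clause.
* `nice_VC`: on `CC_T'`, `V^κ ∩ C = Bg ⊗ V + ∑_{l < l₀} F_l ⊗ (V ∩ D_l)`, where
  `Bg = {ρ : ρ ⊗ U_0 ≤ C in FF_T}`, `F_l = {ρ : Legal C ρ (.d l)}` (subspaces of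
  `κ → K`, finite dimensional; take finite spanning families `J → κ → K`). `⊆` by `vk_repr`:
  a legal `(ρ, u n)` has `ρ ∈ Bg` (`ρ ⊗ U_{n-1} = ρ ⊗ X_{u n} ≤ C` by `hC1`, so `(ρ, u (n-1))` is
  legal, and so on down to `u 0`); for a legal `(ρ, d l)` with `l ≥ l₀` either `ρ ∈ Bg` or
  `D_l = 0`, and then `d_i = 0`, `y_i ∈ Z_l ≤ D_l = 0`; for `l < l₀`: `d_i + y_i ∈ V ∩ D_l`. `⊇`: `V ≤ U_0`,
  and `F_l ⊗ D_l ≤ C` by `hC1`.
-/

namespace Pool.Agent.Helper13.SDW

universe u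

variable {K : Type u} [Field K] {S : Sys K} {G : Set S.Tp} {B : S.Tp → Set S.Tp}

/-! auxiliary facts (helper82) -/

theorem h82_zero_S1 {M : Obj K S.L} {x : M} : (Fm.zero K S.L).S1 M x ↔ x = 0 := by
  constructor
  · rintro ⟨z, -, hz⟩
    have h : x = lin ((Fm.zero K S.L).out ()) z := hz ()
    rw [h]
    exact Finset.sum_eq_zero fun i _ => Fin.elim0 i
  · rintro rfl
    refine ⟨fun i => Fin.elim0 i, fun q hq => absurd hq List.not_mem_nil, fun _ => ?_⟩
    exact (Finset.sum_eq_zero fun i _ => Fin.elim0 i).symm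

theorem h82_S1_zero (φ : Fm K S.L Unit) (M : Obj K S.L) : φ.S1 M 0 :=
  (IsDef.fm φ (Λ := Set.univ) fun _ _ => Set.mem_univ _).zero_mem M

theorem h82_S1_add {φ : Fm K S.L Unit} {M : Obj K S.L} {x y : M} (hx : φ.S1 M x)
    (hy : φ.S1 M y) : φ.S1 M (x + y) :=
  (IsDef.fm φ (Λ := Set.univ) fun _ _ => Set.mem_univ _).add_mem hx hy

theorem h82_S1_smul {φ : Fm K S.L Unit} {M : Obj K S.L} {x : M} (a : K) (hx : φ.S1 M x) :
    φ.S1 M (a • x) :=
  (IsDef.fm φ (Λ := Set.univ) fun _ _ => Set.mem_univ _).smul_mem a hx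

theorem h82_S1_sum {φ : Fm K S.L Unit} {M : Obj K S.L} {ι : Type} (s : Finset ι) (x : ι → M)
    (hx : ∀ i ∈ s, φ.S1 M (x i)) : φ.S1 M (∑ i ∈ s, x i) := by
  classical
  induction s using Finset.induction_on with
  | empty => rw [Finset.sum_empty]; exact h82_S1_zero φ M
  | insert a s ha ih =>
    rw [Finset.sum_insert ha]
    exact h82_S1_add (hx a (Finset.mem_insert_self _ _))
      (ih fun i hi => hx i (Finset.mem_insert_of_mem hi))

theorem h82_sum_mem {Λ : Set S.L} {κ : Type} {F : SF K S.L κ} (hF : IsDef Λ F) {M : Obj K S.L}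
    {ι : Type} (s : Finset ι) (x : ι → κ → M) (hx : ∀ i ∈ s, F M (x i)) :
    F M (fun k => ∑ i ∈ s, x i k) := by
  classical
  induction s using Finset.induction_on with
  | empty => simp only [Finset.sum_empty]; exact hF.zero_mem M
  | insert a s ha ih =>
    simp only [Finset.sum_insert ha]
    exact hF.add_mem (hx a (Finset.mem_insert_self _ _))
      (ih fun i hi => hx i (Finset.mem_insert_of_mem hi))

/-- All formulas of the rules are below `U_0`. -/
theorem Sys.OK.XY_le_U0 (h : S.OK G B) {τ : S.Tp} (hτ : τ ∈ G) (r : Rl) :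
    S.LeF (B τ) (S.X τ r).S1 (S.U τ 0).S1 ∧ S.LeF (B τ) (S.Y τ r).S1 (S.U τ 0).S1 := by
  have hU : ∀ n, S.LeF (B τ) (S.U τ n).S1 (S.U τ 0).S1 := by
    intro n
    induction n with
    | zero => exact fun _ _ _ hx => hx
    | succ n ih => exact fun M hM x hx => ih M hM x (h.UU τ hτ n M hM x hx)
  cases r with
  | u n =>
    cases n with
    | zero =>
      refine ⟨fun M _ x hx => ?_, hU 0⟩
      have hx' : (Fm.zero K S.L).S1 M x := hx
      rw [h82_zero_S1] at hx'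
      rw [hx']
      exact h82_S1_zero _ M
    | succ n => exact ⟨hU n, hU (n + 1)⟩
  | d l =>
    exact ⟨fun M hM x hx => h.ZU τ hτ (l + 1) 0 M hM x (h.DZ τ hτ l M hM x hx), h.ZU τ hτ l 0⟩

theorem Sys.OK.Y_le_X (h : S.OK G B) {τ : S.Tp} (hτ : τ ∈ G) {r : Rl} (hr : r ≠ .u 0) :
    S.LeF (B τ) (S.Y τ r).S1 (S.X τ r).S1 := by
  cases r with
  | u n =>
    cases n with
    | zero => exact absurd rfl hr
    | succ n => exact h.UU τ hτ n
  | d l => exact h.ZD τ hτ l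

theorem V_le_U0 (h : S.OK G B) {T : Set S.Tp} (hT : S.Down G B T) {τ : S.Tp} (hτ : τ ∈ T)
    {M : Obj K S.L} (hM : S.CC T M) {v : M} (hv : v ∈ M.P (.inr τ)) :
    (S.U τ 0).S1 M v := by
  have hτG : τ ∈ G := hT.1 hτ
  have hsub : insert τ (B τ) ⊆ T := by
    intro σ hσ
    rcases hσ with rfl | hσ
    · exact hτ
    · exact hT.2 τ hτ hσ
  have hM' : S.CC (insert τ (B τ)) M :=
    h.cc_mono (Sys.down_insert (h.down_B hτG) hτG (le_refl _)) hT hsub hM
  have hMB : S.FF (B τ) M := hM.ff.mono (hT.2 τ hτ)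
  obtain ⟨m, ρ, r, d, y, h1, h2, h3, h4, h5⟩ := vk_repr (κ := Unit)
    (C := fun _ _ => True) h (h.down_B hτG) hτG (h.not_mem_B hτG) (le_refl _)
    (IsDef.top) (fun _ _ _ _ _ _ _ => trivial) hM' (u := fun _ => v) (fun _ => hv) trivial
  have h6 : v = ∑ i, ρ i () • (d i + y i) := h5 ()
  rw [h6]
  refine h82_S1_sum _ _ fun i _ => h82_S1_smul _ (h82_S1_add ?_ ?_)
  · exact (h.XY_le_U0 hτG (r i)).1 M hMB _ (h2 i)
  · exact (h.XY_le_U0 hτG (r i)).2 M hMB _ (h3 i)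

theorem nice_V (h : S.OK G B) {T : Set S.Tp} (hT : S.Down G B T) {τ : S.Tp} (hτ : τ ∈ T) :
    S.NiceF T (fun M (y : Unit → M) => y () ∈ M.P (.inr τ)) := by
  have hτG : τ ∈ G := hT.1 hτ
  let χ : Fm K S.L Unit :=
    { toPre := (S.U τ 0).toPre.addc (.inr τ) ((S.U τ 0).out ()), out := (S.U τ 0).out }
  refine ⟨χ, ?_, ?_, ?_⟩
  · intro q hq
    rcases List.mem_append.1 (show q ∈ (S.U τ 0).c ++ [(.inr τ, (S.U τ 0).out ())] from hq)
      with hq | hq
    · exact Sys.lab_mono (hT.2 τ hτ) (h.labU τ hτG 0 q hq)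
    · rw [List.mem_singleton.1 hq]
      intro σ hσ
      have : τ = σ := Sum.inr.inj hσ
      rw [← this]; exact hτ
  · intro A D p hA hD hp y hy
    obtain ⟨hy1, hy2⟩ := (Pre.addc_hom (S.U τ 0).toPre (.inr τ) ((S.U τ 0).out ()) D y).1 hy
    obtain ⟨x, hx1, hx2, hx3⟩ := hp.cell τ hτ (.u 0) 0
      (show (Fm.zero K S.L).S1 A 0 from h82_zero_S1.2 rfl) y hy1
      (by rw [map_zero, zero_add]; exact hy2)
    refine ⟨x, (Pre.addc_hom _ _ _ A x).2 ⟨hx1, ?_⟩, hx2⟩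
    rw [zero_add] at hx3
    exact hx3
  · intro M hM y
    constructor
    · intro hy
      obtain ⟨x, hx1, hx2⟩ := V_le_U0 h hT hτ hM hy
      refine ⟨x, (Pre.addc_hom _ _ _ M x).2 ⟨hx1, ?_⟩, fun k => hx2 k⟩
      rw [← hx2 ()]
      exact hy
    · rintro ⟨x, hx1, hx2⟩
      obtain ⟨hx3, hx4⟩ := (Pre.addc_hom (S.U τ 0).toPre (.inr τ) ((S.U τ 0).out ()) M x).1 hx1
      have : y () = lin ((S.U τ 0).out ()) x := hx2 ()
      change y () ∈ M.P (.inr τ)
      rw [this]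
      exact hx4

theorem nice_VD (h : S.OK G B) {T : Set S.Tp} (hT : S.Down G B T) {τ : S.Tp} (hτ : τ ∈ T)
    (l : ℕ) :
    S.NiceF T (fun M (y : Unit → M) => y () ∈ M.P (.inr τ) ∧ (S.D τ l).S1 M (y ())) := by
  have hτG : τ ∈ G := hT.1 hτ
  let χ : Fm K S.L Unit :=
    { toPre := (S.D τ l).toPre.cell τ (.d l) ((S.D τ l).out ())
      out := fun _ => Fin.append ((S.D τ l).out ()) ((S.Y τ (.d l)).out ()) }
  refine ⟨χ, ?_, ?_, ?_⟩
  · intro q hq
    rcases List.mem_append.1 (show q ∈ ((S.D τ l).toPre.sum (S.Y τ (.d l)).toPre).c ++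
      [(.inr τ, Fin.append ((S.D τ l).out ()) ((S.Y τ (.d l)).out ()))] from hq) with hq | hq
    · rcases Pre.mem_sum_c.1 hq with ⟨p, hp, rfl⟩ | ⟨p, hp, rfl⟩
      · exact Sys.lab_mono (hT.2 τ hτ) (h.labD τ hτG l p hp)
      · exact Sys.lab_mono (hT.2 τ hτ) (h.labZ τ hτG l p hp)
    · rw [List.mem_singleton.1 hq]
      intro σ hσ
      have : τ = σ := Sum.inr.inj hσ
      rw [← this]; exact hτ
  · intro A D p hA hD hp y hy
    obtain ⟨hy1, hy2⟩ := (Pre.addc_hom ((S.D τ l).toPre.sum (S.Y τ (.d l)).toPre) (.inr τ)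
      (Fin.append ((S.D τ l).out ()) ((S.Y τ (.d l)).out ())) D y).1 hy
    obtain ⟨hy3, hy4⟩ := (Pre.sum_hom (S.D τ l).toPre (S.Y τ (.d l)).toPre D y).1 hy1
    obtain ⟨x, hx1, hx2⟩ := CofP.mono (h.cofD τ hτG l) (hT.2 τ hτ) A D p hA hD hp _ hy3
    rw [lin_append] at hy2
    obtain ⟨z, hz1, hz2, hz3⟩ := hp.cell τ hτ (.d l) (lin ((S.D τ l).out ()) x)
      (show (S.D τ l).S1 A _ from ⟨x, hx1, fun _ => rfl⟩) (fun i => y (Fin.natAdd _ i)) hy4
      (by
        rw [map_lin]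
        have e : (fun i => p (x i)) = fun i => y (Fin.castAdd (S.Y τ (.d l)).n i) := funext hx2
        rw [e]
        exact hy2)
    refine ⟨Fin.append x z, (Pre.addc_hom _ _ _ A _).2 ⟨(Pre.sum_hom _ _ A _).2 ⟨?_, ?_⟩, ?_⟩,
      fun i => ?_⟩
    · simpa only [Fin.append_left] using hx1
    · simpa only [Fin.append_right] using hz1
    · rw [lin_append]
      simpa only [Fin.append_left, Fin.append_right] using hz3
    · refine Fin.addCases (fun i => ?_) (fun i => ?_) i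
      · rw [Fin.append_left]
        exact hx2 i
      · rw [Fin.append_right]
        exact hz2 i
  · intro M hM y
    have hMB : S.FF (B τ) M := hM.ff.mono (hT.2 τ hτ)
    constructor
    · rintro ⟨hy1, ⟨x, hx1, hx2⟩⟩
      have hy : y () = lin ((S.D τ l).out ()) x := hx2 ()
      have hz : (S.Y τ (.d l)).toPre.Hom M (fun _ => 0) := by
        intro q _
        rw [lin_zero]
        exact (M.P q.1).zero_mem
      have e : lin (Fin.append ((S.D τ l).out ()) ((S.Y τ (.d l)).out ()))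
          (Fin.append x (fun _ : Fin (S.Y τ (.d l)).n => (0 : M))) = y () := by
        rw [lin_append]
        simp only [Fin.append_left, Fin.append_right]
        rw [lin_zero, add_zero, hy]
      refine ⟨Fin.append x (fun _ => 0), (Pre.addc_hom _ _ _ M _).2
        ⟨(Pre.sum_hom _ _ M _).2 ⟨?_, ?_⟩, ?_⟩, fun k => ?_⟩
      · simpa only [Fin.append_left] using hx1
      · simpa only [Fin.append_right] using hz
      · rw [e]
        exact hy1
      · exact e.symm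
    · rintro ⟨x, hx1, hx2⟩
      obtain ⟨hx3, hx4⟩ := (Pre.addc_hom ((S.D τ l).toPre.sum (S.Y τ (.d l)).toPre) (.inr τ)
        (Fin.append ((S.D τ l).out ()) ((S.Y τ (.d l)).out ())) M x).1 hx1
      obtain ⟨hx5, hx6⟩ := (Pre.sum_hom (S.D τ l).toPre (S.Y τ (.d l)).toPre M x).1 hx3
      have e : y () = lin (Fin.append ((S.D τ l).out ()) ((S.Y τ (.d l)).out ())) x := hx2 ()
      refine ⟨?_, ?_⟩
      · rw [e]; exact hx4
      · rw [e, lin_append]
        refine h82_S1_add ⟨_, hx5, fun _ => rfl⟩ (h.ZD τ hτG l M hMB _ ?_)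
        exact ⟨_, hx6, fun _ => rfl⟩

/-- finite spanning families -/
theorem h82_span {κ : Type} [Fintype κ] (P : Submodule K (κ → K)) :
    ∃ (n : ℕ) (b : Fin n → κ → K), (∀ j, b j ∈ P) ∧
      ∀ ρ ∈ P, ∃ c : Fin n → K, ∀ k, ρ k = ∑ j, c j * b j k := by
  let b := Module.finBasis K P
  refine ⟨_, fun j => (b j : κ → K), fun j => (b j).2, fun ρ hρ => ?_⟩
  refine ⟨fun j => b.repr ⟨ρ, hρ⟩ j, fun k => ?_⟩
  have h1 := b.sum_repr ⟨ρ, hρ⟩
  have h2 := congrArg (fun z : P => (z : κ → K) k) h1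
  simp only [Submodule.coe_sum, Submodule.coe_smul, Finset.sum_apply, Pi.smul_apply,
    smul_eq_mul] at h2
  exact h2.symm

section fsum

variable {κ J : Type} [Fintype J] {M : Obj K S.L} {F : J → (κ → M) → Prop}

theorem h82_fs_add (hadd : ∀ j a b, F j a → F j b → F j (fun k => a k + b k)) {y y' : κ → M}
    (hy : ∃ z : J → κ → M, (∀ j, F j (z j)) ∧ ∀ k, y k = ∑ j, z j k)
    (hy' : ∃ z : J → κ → M, (∀ j, F j (z j)) ∧ ∀ k, y' k = ∑ j, z j k) :
    ∃ z : J → κ → M, (∀ j, F j (z j)) ∧ ∀ k, y k + y' k = ∑ j, z j k := by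
  obtain ⟨z, h1, h2⟩ := hy
  obtain ⟨z', h1', h2'⟩ := hy'
  refine ⟨fun j k => z j k + z' j k, fun j => hadd j _ _ (h1 j) (h1' j), fun k => ?_⟩
  rw [h2, h2', Finset.sum_add_distrib]

theorem h82_fs_sum (hadd : ∀ j a b, F j a → F j b → F j (fun k => a k + b k))
    (h0 : ∀ j, F j (fun _ => 0)) {ι : Type} (s : Finset ι) (y : ι → κ → M)
    (hy : ∀ i ∈ s, ∃ z : J → κ → M, (∀ j, F j (z j)) ∧ ∀ k, y i k = ∑ j, z j k) :
    ∃ z : J → κ → M, (∀ j, F j (z j)) ∧ ∀ k, ∑ i ∈ s, y i k = ∑ j, z j k := by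
  classical
  induction s using Finset.induction_on with
  | empty =>
    refine ⟨fun _ _ => 0, h0, fun k => ?_⟩
    simp
  | insert a s ha ih =>
    have h1 := h82_fs_add hadd (hy a (Finset.mem_insert_self _ _))
      (ih fun i hi => hy i (Finset.mem_insert_of_mem hi))
    obtain ⟨z, hz1, hz2⟩ := h1
    refine ⟨z, hz1, fun k => ?_⟩
    rw [Finset.sum_insert ha]
    exact hz2 k

theorem h82_fs_single (h0 : ∀ j, F j (fun _ => 0)) (j0 : J) {y : κ → M} (hy : F j0 y) :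
    ∃ z : J → κ → M, (∀ j, F j (z j)) ∧ ∀ k, y k = ∑ j, z j k := by
  classical
  refine ⟨fun j k => if j = j0 then y k else 0, fun j => ?_, fun k => ?_⟩
  · by_cases hj : j = j0
    · simp only [hj, if_true]; exact hy
    · simp only [hj, if_false]; exact h0 j
  · simp

end fsum

theorem nice_VC (h : S.OK G B) {T : Set S.Tp} (hT : S.Down G B T) {τ : S.Tp} (hτ : τ ∈ G)
    (hτT : τ ∉ T) (hB : B τ ⊆ T) {κ : Type} [Fintype κ] {C : SF K S.L κ}
    (hC : IsDef (S.lab T) C)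
    (hC1 : ∀ ρ r, S.Legal T τ C ρ r → ∀ M : Obj K S.L, S.FF T M → ∀ x : M,
      (S.X τ r).S1 M x → C M (fun k => ρ k • x))
    (hC2 : ∃ l₀ : ℕ, ∀ l, l₀ ≤ l → ∀ ρ, S.Legal T τ C ρ (.d l) →
      (∀ M : Obj K S.L, S.FF T M → ∀ x : M, (S.U τ 0).S1 M x → C M (fun k => ρ k • x)) ∨
      ∀ M : Obj K S.L, S.FF T M → ∀ x : M, (S.D τ l).S1 M x → x = 0) :
    S.NiceF (insert τ T) (S.VkF τ C) := by
  classical
  obtain ⟨l₀, hl₀⟩ := hC2
  have hT' : S.Down G B (insert τ T) := Sys.down_insert hT hτ hB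
  have hτ' : τ ∈ insert τ T := Set.mem_insert _ _
  -- the submodules of legal vectors
  let Lg : Rl → Submodule K (κ → K) := fun r =>
    { carrier := {ρ | S.Legal T τ C ρ r}
      add_mem' := by
        intro a b ha hb M hM y hy
        have h1 := hC.add_mem (ha M hM y hy) (hb M hM y hy)
        have e : (fun k => (a + b) k • y) = fun k => a k • y + b k • y := by
          funext k; rw [Pi.add_apply, add_smul]
        rw [e]; exact h1
      zero_mem' := by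
        intro M hM y hy
        have e : (fun k => (0 : κ → K) k • y) = fun _ => 0 := by
          funext k; rw [Pi.zero_apply, zero_smul]
        rw [e]; exact hC.zero_mem M
      smul_mem' := by
        intro c a ha M hM y hy
        have h1 := hC.smul_mem c (ha M hM y hy)
        have e : (fun k => (c • a) k • y) = fun k => c • a k • y := by
          funext k; rw [Pi.smul_apply, smul_eq_mul, mul_smul]
        rw [e]; exact h1 }
  have hLg : ∀ r ρ, ρ ∈ Lg r ↔ S.Legal T τ C ρ r := fun _ _ => Iff.rfl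
  have hdown : ∀ n ρ, S.Legal T τ C ρ (.u n) → S.Legal T τ C ρ (.u 0) := by
    intro n
    induction n with
    | zero => exact fun _ h => h
    | succ n ih =>
      intro ρ hρ
      exact ih ρ fun M hM y hy => hC1 ρ (.u (n + 1)) hρ M hM y hy
  obtain ⟨n0, b0, hb0, hb0'⟩ := h82_span (Lg (.u 0))
  have hsp : ∀ l : ℕ, ∃ (n : ℕ) (b : Fin n → κ → K), (∀ j, b j ∈ Lg (.d l)) ∧
      ∀ ρ ∈ Lg (.d l), ∃ c : Fin n → K, ∀ k, ρ k = ∑ j, c j * b j k := fun l => h82_span _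
  choose n1 b1 hb1 hb1' using hsp
  let F : (Fin n0 ⊕ (Σ l : Fin l₀, Fin (n1 l))) → SF K S.L κ := fun j =>
    match j with
    | .inl j => tens (b0 j) (fun M x => x ∈ M.P (.inr τ))
    | .inr j => tens (b1 j.1 j.2) (fun M x => x ∈ M.P (.inr τ) ∧ (S.D τ j.1).S1 M x)
  have hFn : ∀ j, S.NiceF (insert τ T) (F j) := by
    rintro (j | j)
    · exact NiceF.tens (φ := fun M x => x ∈ M.P (.inr τ)) (nice_V h hT' hτ') (b0 j)
    · exact NiceF.tens (φ := fun M x => x ∈ M.P (.inr τ) ∧ (S.D τ j.1).S1 M x)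
        (nice_VD h hT' hτ' j.1) (b1 j.1 j.2)
  refine NiceF.congr (NiceF.fsum hFn) fun M hM y => ?_
  have hMT : S.FF T M := hM.ff.mono (Set.subset_insert _ _)
  have hMB : S.FF (B τ) M := hMT.mono hB
  have hadd : ∀ j (a b : κ → M), F j M a → F j M b → F j M (fun k => a k + b k) := by
    rintro (j | j) a b ⟨x, hx1, hx2⟩ ⟨x', hx1', hx2'⟩
    · refine ⟨x + x', (M.P (.inr τ)).add_mem hx1 hx1', fun k => ?_⟩
      rw [smul_add, ← hx2, ← hx2']
    · refine ⟨x + x', ⟨(M.P (.inr τ)).add_mem hx1.1 hx1'.1, h82_S1_add hx1.2 hx1'.2⟩,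
        fun k => ?_⟩
      rw [smul_add, ← hx2, ← hx2']
  have h0 : ∀ j, F j M (fun _ => 0) := by
    rintro (j | j)
    · exact ⟨0, (M.P (.inr τ)).zero_mem, fun k => (smul_zero _).symm⟩
    · exact ⟨0, ⟨(M.P (.inr τ)).zero_mem, h82_S1_zero _ M⟩, fun k => (smul_zero _).symm⟩
  constructor
  · rintro ⟨z, hz1, hz2⟩
    have hz3 : ∀ j k, z j k ∈ M.P (.inr τ) := by
      rintro (j | j) k
      · obtain ⟨x, hx1, hx2⟩ := hz1 (.inl j)
        rw [hx2]; exact (M.P (.inr τ)).smul_mem _ hx1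
      · obtain ⟨x, hx1, hx2⟩ := hz1 (.inr j)
        rw [hx2]; exact (M.P (.inr τ)).smul_mem _ hx1.1
    have hz4 : ∀ j, C M (z j) := by
      rintro (j | j)
      · obtain ⟨x, hx1, hx2⟩ := hz1 (.inl j)
        have e : z (.inl j) = fun k => b0 j k • x := funext hx2
        rw [e]
        exact hb0 j M hMT x (V_le_U0 h hT' hτ' hM hx1)
      · obtain ⟨x, hx1, hx2⟩ := hz1 (.inr j)
        have e : z (.inr j) = fun k => b1 j.1 j.2 k • x := funext hx2
        rw [e]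
        exact hC1 _ (.d j.1) (hb1 j.1 j.2) M hMT x hx1.2
    have ey : y = fun k => ∑ j, z j k := funext hz2
    refine ⟨fun k => ?_, ?_⟩
    · rw [hz2 k]
      exact Submodule.sum_mem _ fun j _ => hz3 j k
    · rw [ey]
      exact h82_sum_mem hC _ z fun j _ => hz4 j
  · rintro ⟨hy1, hy2⟩
    obtain ⟨m, ρ, r, d, y', g1, g2, g3, g4, g5⟩ := vk_repr h hT hτ hτT hB hC hC1 hM hy1 hy2
    -- the two kinds of terms
    have hBg : ∀ σ : κ → K, S.Legal T τ C σ (.u 0) → ∀ v ∈ M.P (.inr τ),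
        ∃ z : (Fin n0 ⊕ (Σ l : Fin l₀, Fin (n1 l))) → κ → M, (∀ j, F j M (z j)) ∧
          ∀ k, σ k • v = ∑ j, z j k := by
      intro σ hσ v hv
      obtain ⟨c, hc⟩ := hb0' σ hσ
      have h1 := h82_fs_sum (F := fun j => F j M) hadd h0 Finset.univ
        (fun (i : Fin n0) (k : κ) => b0 i k • (c i • v)) (fun i _ =>
          h82_fs_single (F := fun j => F j M) h0 (.inl i)
            ⟨c i • v, (M.P (.inr τ)).smul_mem _ hv, fun k => rfl⟩)
      obtain ⟨z, hz1, hz2⟩ := h1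
      refine ⟨z, hz1, fun k => ?_⟩
      rw [← hz2 k, hc k, Finset.sum_smul]
      refine Finset.sum_congr rfl fun i _ => ?_
      rw [smul_smul, mul_comm]
    have hFl : ∀ l, l < l₀ → ∀ σ : κ → K, S.Legal T τ C σ (.d l) → ∀ v ∈ M.P (.inr τ),
        (S.D τ l).S1 M v → ∃ z : (Fin n0 ⊕ (Σ l : Fin l₀, Fin (n1 l))) → κ → M,
          (∀ j, F j M (z j)) ∧ ∀ k, σ k • v = ∑ j, z j k := by
      intro l hl σ hσ v hv hv'
      obtain ⟨c, hc⟩ := hb1' l σ hσ
      have h1 := h82_fs_sum (F := fun j => F j M) hadd h0 Finset.univ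
        (fun (i : Fin (n1 l)) (k : κ) => b1 l i k • (c i • v)) (fun i _ =>
          h82_fs_single (F := fun j => F j M) h0 (.inr ⟨⟨l, hl⟩, i⟩)
            ⟨c i • v, ⟨(M.P (.inr τ)).smul_mem _ hv, h82_S1_smul _ hv'⟩, fun k => rfl⟩)
      obtain ⟨z, hz1, hz2⟩ := h1
      refine ⟨z, hz1, fun k => ?_⟩
      rw [← hz2 k, hc k, Finset.sum_smul]
      refine Finset.sum_congr rfl fun i _ => ?_
      rw [smul_smul, mul_comm]
    have hterm : ∀ i, ∃ z : (Fin n0 ⊕ (Σ l : Fin l₀, Fin (n1 l))) → κ → M,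
        (∀ j, F j M (z j)) ∧ ∀ k, ρ i k • (d i + y' i) = ∑ j, z j k := by
      intro i
      have k1 := g1 i
      have k2 := g2 i
      have k3 := g3 i
      cases hr : r i with
      | u n =>
        rw [hr] at k1
        exact hBg _ (hdown n _ k1) _ (g4 i)
      | d l =>
        rw [hr] at k1 k2 k3
        have k4 : (S.D τ l).S1 M (y' i) := h.ZD τ hτ l M hMB _ k3
        rcases Nat.lt_or_ge l l₀ with hl | hl
        · exact hFl l hl _ k1 _ (g4 i) (h82_S1_add k2 k4)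
        · rcases hl₀ l hl _ k1 with k5 | k5
          · exact hBg _ k5 _ (g4 i)
          · have e1 : d i = 0 := k5 M hMT _ k2
            have e2 : y' i = 0 := k5 M hMT _ k4
            refine ⟨fun _ _ => 0, h0, fun k => ?_⟩
            rw [e1, e2]
            simp
    have h1 := h82_fs_sum (F := fun j => F j M) hadd h0 Finset.univ
      (fun (i : Fin m) (k : κ) => ρ i k • (d i + y' i)) (fun i _ => hterm i)
    obtain ⟨z, hz1, hz2⟩ := h1
    refine ⟨z, hz1, fun k => ?_⟩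
    rw [← hz2 k, g5 k]

end Pool.Agent.Helper13.SDW
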