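import Pool.Agent.Helper13.SDW.NiceB2

/-!
# BLOCK SDW-NICEC: descent along a legal addition (about 200 lines)

Let `T' = insert τ T`, `V = V_τ`, `X = X_r`, `Y = Y_r`, `R' = R + ρ ⊗ X`. In `FF_T`: `Y ≤ X` (`Y_le_X`, `r ≠ u 0`).
1. `V^κ ∩ R'` is given on `CC_T'` by a cofibrant formula `χ = [G, w]`. Let `M₁ = Nc T' G.obj PUnit ∈ CC_T'`
   (`obj_cc`), `w k := lin (χ.out k) (gen) ∈ M₁`. Then `w k ∈ V` and `w = a + ρ x` with `R M₁ a`, `X(x)`; by
   density of `M₁ ∈ FF_T'`: `x = v + y`, `v ∈ V`, `Y(y)`.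
2. Apply `relcx` for `G` to the finitely many elements `w k` (label `.inr τ`), `v` (label `.inr τ`),
   `a k`, `x`, `y` (label the root, where `P = ⊤`): a complex `G'` over `G`, forms `t`. Since every
   `x' ∈ G'.Hom D`, `D ∈ FF_T'`, comes from a hom `f : M₁ → D`, the forms of
   `a, x, y` satisfy `R, X, Y` in `D`, and `w k = a k + ρ k x`, `x = v + y` for the values. Let
   `w' k := w k - ρ k • v` (formally in `V`); its values are `a k + ρ k • y ∈ R(D)` (legality; `FF_T' ⊆ FF_T`).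
   So `[G', w'] ≤ V^κ ∩ R` in `FF_T'`. `G'` is cofibrant over `T'` (`Cx.cofP`).
3. `Q(x) := X(x) ∧ R(ρ x)` is a formula over `T`: by `hN` it is given on `CC_T ⊇ CC_T'` (`cc_mono`) by
   `[G_Q, x_Q]`, cofibrant over `T`, so over `T'`; in `FF_T`: `[G_Q, x_Q] ≤ Q` (`NiceF.le_FF`).
   The formula `χ₂ = [G_Q.cell τ r x_Q ; ρ k • (x_Q + out)]` is cofibrant over `T'` (lift the `G_Q`-part,
   then the cell clause, as `X (x_Q)` holds) and
   defines `{ρ v : v ∈ V, Q(v)}` on `CC_T'`: for `v = x_Q + y`: `X(y)` by `Y ≤ X`, `R(ρ y)` by legality; for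
   `v ∈ V`, `Q(v)` take `x_Q = v`, `y = 0`.
4. On `CC_T'`: `V^κ ∩ R = [G', w'] + χ₂`. `⊇` clear. `⊆`: `u ∈ V^κ ∩ R ≤ V^κ ∩ R'`, so `u = w(x₀)`, `x₀ ∈ G.Hom M`;
   extend `x₀` to `x' ∈ G'.Hom M` (`Cx.extend`); `u = w'(x') + ρ v(x')`, and `ρ v(x') = u - w'(x') ∈ R`,
   `v(x') = x(x') - y(x') ∈ X`. Then `NiceF.add` / direct.
-/

namespace Pool.Agent.Helper13.SDW

universe u

variable {K : Type u} [Field K] {S : Sys K} {G : Set S.Tp} {B : S.Tp → Set S.Tp}

/-- Step 1 and 2: the formula `[G', w']`. -/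
private theorem descend1_h48 (h : S.OK G B) {T : Set S.Tp} (hT : S.Down G B T) {τ : S.Tp}
    (hτ : τ ∈ G) (hB : B τ ⊆ T) {κ : Type} [Fintype κ]
    {R : SF K S.L κ} (hR : IsDef (S.lab T) R) {ρ : κ → K} {r : Rl}
    (hleg : S.Legal T τ R ρ r) (hr : r ≠ .u 0)
    (hn : S.NiceF (insert τ T) (S.VkF τ (sumF R (tens ρ (S.X τ r).S1)))) :
    ∃ χ₁ : Fm K S.L κ, (∀ q ∈ χ₁.c, q.1 ∈ S.lab (insert τ T)) ∧
      S.CofP (insert τ T) χ₁.toPre ∧
      (∀ D : Obj K S.L, S.FF (insert τ T) D → ∀ y : κ → D, χ₁.Sat D y → S.VkF τ R D y) ∧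
      ∀ M : Obj K S.L, S.CC (insert τ T) M → ∀ u : κ → M, S.VkF τ R M u →
        ∃ (a : κ → M) (v : M), χ₁.Sat M a ∧ v ∈ M.P (.inr τ) ∧ (S.X τ r).S1 M v ∧
          ∀ k, u k = a k + ρ k • v := by
  have hT' : S.Down G B (insert τ T) := Sys.down_insert hT hτ hB
  have hcl' : S.Closed (insert τ T) := h.closed hT'
  have hTT : T ⊆ insert τ T := Set.subset_insert _ _
  have hτ' : τ ∈ insert τ T := Set.mem_insert _ _
  have hτl : (Sum.inr τ : S.L) ∈ S.lab (insert τ T) := fun σ hσ => by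
    rw [← Sum.inr.inj hσ]
    exact hτ'
  have hB' : B τ ⊆ insert τ T := hB.trans hTT
  obtain ⟨χ, hχl, hχ, hχs⟩ := hn
  have hM₁ : S.CC (insert τ T) (Nc (insert τ T) (χ.toPre.obj (S := S)) PUnit) :=
    obj_cc hcl' h.proot hχ hχl
  have hgen := gen_hom_Nc (T := insert τ T) χ.toPre PUnit
  obtain ⟨hwV, a, b, hRa, ⟨x, hXx, hb⟩, hwab⟩ := (hχs _ hM₁ _).2 ⟨_, hgen, fun _ => rfl⟩
  obtain ⟨v, hv, y, hYy, hxvy⟩ := hM₁.ff.dens τ hτ' r x hXx
  obtain ⟨G', e, t, x₁, hCx, hx₁, hx₁e, -, hlin, hext⟩ := relcx hcl' h.proot χ.toPre hχl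
    (κ := κ ⊕ Unit) (fun _ => .inr τ) (fun _ => hτl)
    (Sum.elim (fun k => lin (χ.out k) (fun i : Fin χ.n =>
      ((Pre.gen χ.toPre i, 0) : Nc (insert τ T) (χ.toPre.obj (S := S)) PUnit))) (fun _ => v))
    (by
      rintro (k | -)
      · exact hwV k
      · exact hv)
  have hw : ∀ k, (lin (χ.out k) (fun i : Fin χ.n =>
      ((Pre.gen χ.toPre i, 0) : Nc (insert τ T) (χ.toPre.obj (S := S)) PUnit))) =
      a k + (ρ k • v + ρ k • y) := fun k => by
    have h1 := hwab k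
    rw [hb k, hxvy, smul_add] at h1
    exact h1
  -- the values of the formula
  have key : ∀ (D : Obj K S.L) (f : Nc (insert τ T) (χ.toPre.obj (S := S)) PUnit →ₗ[K] D)
      (x' : Fin G'.n → D), (∀ i, f (x₁ i) = x' i) → ∀ k,
      lin (t (.inl k) - ρ k • t (.inr ())) x' = f (a k) + ρ k • f y := by
    intro D f x' hfx k
    have e1 : ∀ j, lin (t j) x' = f (lin (t j) x₁) := fun j => by
      rw [map_lin]
      congr 1
      funext i
      exact (hfx i).symm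
    have e2 : lin (t (.inl k) - ρ k • t (.inr ())) x' =
        lin (t (.inl k)) x' - ρ k • lin (t (.inr ())) x' := by
      simp only [lin, Pi.sub_apply, Pi.smul_apply, sub_smul, smul_assoc, Finset.sum_sub_distrib,
        Finset.smul_sum]
    rw [e2, e1, e1, hlin, hlin]
    change f (lin (χ.out k) (fun i : Fin χ.n =>
      ((Pre.gen χ.toPre i, 0) : Nc (insert τ T) (χ.toPre.obj (S := S)) PUnit))) -
        ρ k • f v = _
    rw [hw k, map_add, map_add, map_smul, map_smul]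
    abel
  have sat : ∀ D : Obj K S.L, S.FF (insert τ T) D → ∀ x' : Fin G'.n → D, G'.Hom D x' →
      S.VkF τ R D (fun k => lin (t (.inl k) - ρ k • t (.inr ())) x') := by
    intro D hD x' hx'
    obtain ⟨f, hf, hfx⟩ := hext D hD x' hx'
    refine ⟨fun k => ?_, ?_⟩
    · change lin (t (.inl k) - ρ k • t (.inr ())) x' ∈ D.P (.inr τ)
      rw [key D f x' hfx k]
      have e3 : f (a k) + ρ k • f y = f (lin (χ.out k) (fun i : Fin χ.n =>
          ((Pre.gen χ.toPre i, 0) : Nc (insert τ T) (χ.toPre.obj (S := S)) PUnit))) -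
          ρ k • f v := by
        rw [hw k, map_add, map_add, map_smul, map_smul]
        abel
      rw [e3]
      exact Submodule.sub_mem _ (hf _ hτl _ (hwV k)) (Submodule.smul_mem _ _ (hf _ hτl _ hv))
    · have e4 : (fun k => lin (t (.inl k) - ρ k • t (.inr ())) x') =
          fun k => f (a k) + ρ k • f y := funext fun k => key D f x' hfx k
      rw [e4]
      refine hR.add_mem (hR.map (fun l hl => hf l (Sys.lab_mono hTT hl)) hRa)
        (hleg D (hD.mono hTT) _ ?_)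
      exact h60_S1_map (fun l hl => hf l (Sys.lab_mono hB' hl)) (h.labY hτ r) hYy
  refine ⟨{ toPre := G', out := fun k => t (.inl k) - ρ k • t (.inr ()) },
    Cx.lab hcl' hCx hχl, hCx.cofP hχ, ?_, ?_⟩
  · rintro D hD z ⟨x', hx', hz⟩
    have h1 := sat D hD x' hx'
    have e5 : z = fun k => lin (t (.inl k) - ρ k • t (.inr ())) x' := funext hz
    rw [e5]
    exact h1
  · intro M hM u hu
    have hu' : S.VkF τ (sumF R (tens ρ (S.X τ r).S1)) M u := by
      refine ⟨hu.1, u, fun _ => 0, hu.2, ⟨0, ?_, fun k => (smul_zero _).symm⟩,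
        fun k => (add_zero _).symm⟩
      exact (IsDef.fm (S.X τ r) (h.labX hτ r)).zero_mem M
    obtain ⟨x₀, hx₀, hux₀⟩ := (hχs M hM u).1 hu'
    obtain ⟨x', hx', hx'e⟩ := hCx.extend hM.ff hx₀
    obtain ⟨f, hf, hfx⟩ := hext M hM.ff x' hx'
    have hfw : ∀ k, f (lin (χ.out k) (fun i : Fin χ.n =>
        ((Pre.gen χ.toPre i, 0) : Nc (insert τ T) (χ.toPre.obj (S := S)) PUnit))) = u k := by
      intro k
      rw [map_lin, hux₀ k]
      congr 1
      funext i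
      rw [← hx₁e i, hfx, hx'e]
    have hfl : ∀ l ∈ S.lab (B τ), ∀ z ∈ (Nc (insert τ T) (χ.toPre.obj (S := S)) PUnit).P l,
        f z ∈ M.P l := fun l hl => hf l (Sys.lab_mono hB' hl)
    refine ⟨fun k => lin (t (.inl k) - ρ k • t (.inr ())) x', f v, ⟨x', hx', fun _ => rfl⟩,
      hf _ hτl _ hv, ?_, fun k => ?_⟩
    · have hv' : f v = f x - f y := by
        rw [hxvy, map_add]
        abel
      rw [hv']
      have hX1 : (S.X τ r).S1 M (f x) := h60_S1_map hfl (h.labX hτ r) hXx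
      have hY1 : (S.Y τ r).S1 M (f y) := h60_S1_map hfl (h.labY hτ r) hYy
      have hX2 : (S.X τ r).S1 M (f y) := h.Y_le_X hτ hr M (hM.ff.mono hB') _ hY1
      exact (IsDef.fm (S.X τ r) (h.labX hτ r)).sub_mem hX1 hX2
    · change u k = lin (t (.inl k) - ρ k • t (.inr ())) x' + ρ k • f v
      rw [key M f x' hfx k, ← hfw k, hw k, map_add, map_add, map_smul, map_smul]
      abel

/-- Step 3: the formula `χ₂`. -/
private theorem descend2_h48 (h : S.OK G B) {T : Set S.Tp} (hT : S.Down G B T) {τ : S.Tp}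
    (hτ : τ ∈ G) (hB : B τ ⊆ T) (hN : S.Nice T) {κ : Type} [Fintype κ]
    {R : SF K S.L κ} (hR : IsDef (S.lab T) R) {ρ : κ → K} {r : Rl}
    (hleg : S.Legal T τ R ρ r) (hr : r ≠ .u 0) :
    ∃ χ₂ : Fm K S.L κ, (∀ q ∈ χ₂.c, q.1 ∈ S.lab (insert τ T)) ∧
      S.CofP (insert τ T) χ₂.toPre ∧
      ∀ M : Obj K S.L, S.CC (insert τ T) M → ∀ b : κ → M, χ₂.Sat M b ↔
        ∃ v ∈ M.P (.inr τ), (S.X τ r).S1 M v ∧ R M (fun k => ρ k • v) ∧ ∀ k, b k = ρ k • v := by
  have hT' : S.Down G B (insert τ T) := Sys.down_insert hT hτ hB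
  have hcl' : S.Closed (insert τ T) := h.closed hT'
  have hTT : T ⊆ insert τ T := Set.subset_insert _ _
  have hτ' : τ ∈ insert τ T := Set.mem_insert _ _
  have hXl : ∀ q ∈ (S.X τ r).c, q.1 ∈ S.lab T := fun q hq =>
    Sys.lab_mono hB (h.labX hτ r q hq)
  have hdef : IsDef (S.lab T) (fun (M : Obj K S.L) (y : Unit → M) =>
      (S.X τ r).Sat M y ∧ R M (fun k => ρ k • y ())) := by
    refine (IsDef.fm (S.X τ r) hXl).and ((hR.subst (κ := Unit) (fun k _ => ρ k)).congr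
      fun M y => ?_)
    have e1 : (fun k => lin (fun _ : Unit => ρ k) y) = fun k => ρ k • y () := by
      funext k
      simp [lin]
    rw [e1]
  obtain ⟨χQ, hQl, hQc, hQs⟩ := hN Unit _ hdef
  have hQFF : ∀ M : Obj K S.L, S.FF T M → ∀ x : Fin χQ.n → M, χQ.toPre.Hom M x →
      (S.X τ r).S1 M (lin (χQ.out ()) x) ∧ R M (fun k => ρ k • lin (χQ.out ()) x) := by
    intro M hM x hx
    exact NiceF.le_FF (h.closed hT) h.proot hdef hQl hQc (fun M hM y hy => (hQs M hM y).2 hy) hM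
      (y := fun _ => lin (χQ.out ()) x) ⟨x, hx, fun _ => rfl⟩
  have hCx : Cx (insert τ T) χQ.toPre (χQ.toPre.cell τ r (χQ.out ()))
      (fun i => Fin.castAdd (S.Y τ r).n (id i)) :=
    Cx.cell τ r (χQ.out ()) Cx.base hτ' fun D hD x hx => (hQFF D (hD.mono hTT) x hx).1
  refine ⟨{ toPre := χQ.toPre.cell τ r (χQ.out ()),
            out := fun k => ρ k • Fin.append (χQ.out ()) ((S.Y τ r).out ()) },
    Cx.lab hcl' hCx (fun q hq => Sys.lab_mono hTT (hQl q hq)), hCx.cofP (CofP.mono hQc hTT), ?_⟩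
  intro M hM b
  constructor
  · rintro ⟨x, hx, hb⟩
    obtain ⟨hx12, hx3⟩ := (Pre.addc_hom _ _ _ M _).1 hx
    obtain ⟨hx1, hx2⟩ := (Pre.sum_hom _ _ M _).1 hx12
    obtain ⟨hX1, hR1⟩ := hQFF M (hM.ff.mono hTT) _ hx1
    have hY : (S.Y τ r).S1 M (lin ((S.Y τ r).out ())
        (fun i => x (Fin.natAdd χQ.toPre.n i))) := ⟨_, hx2, fun _ => rfl⟩
    have hX2 := h.Y_le_X hτ hr M (hM.ff.mono (hB.trans hTT)) _ hY
    have hR2 := hleg M (hM.ff.mono hTT) _ hY
    refine ⟨_, hx3, ?_, ?_, fun k => ?_⟩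
    · rw [lin_append]
      exact (IsDef.fm (S.X τ r) (h.labX hτ r)).add_mem hX1 hX2
    · rw [lin_append]
      simp only [smul_add]
      exact hR.add_mem hR1 hR2
    · rw [hb k]
      exact lin_smul_left _ _ _
  · rintro ⟨v, hv, hX, hRv, hb⟩
    obtain ⟨xQ, hxQ, hvQ⟩ := (hQs M (h.cc_mono hT hT' hTT hM) (fun _ => v)).1 ⟨hX, hRv⟩
    have hv' : v = lin (χQ.out ()) xQ := hvQ ()
    have e1 : lin (Fin.append (χQ.out ()) ((S.Y τ r).out ()))
        (Fin.append xQ (fun _ : Fin (S.Y τ r).n => (0 : M))) = v := by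
      rw [lin_append]
      simp only [Fin.append_left, Fin.append_right]
      rw [lin_zero, add_zero, ← hv']
    refine ⟨Fin.append xQ (fun _ => 0), (Pre.addc_hom _ _ _ M _).2
      ⟨(Pre.sum_hom _ _ M _).2 ⟨?_, ?_⟩, ?_⟩, fun k => ?_⟩
    · simpa only [Fin.append_left] using hxQ
    · simp only [Fin.append_right]
      intro q _
      rw [lin_zero]
      exact Submodule.zero_mem _
    · rw [e1]
      exact hv
    · rw [hb k]
      have e2 := lin_smul_left (ρ k) (Fin.append (χQ.out ()) ((S.Y τ r).out ()))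
        (Fin.append xQ (fun _ : Fin (S.Y τ r).n => (0 : M)))
      rw [e1] at e2
      exact e2.symm

theorem nice_descend (h : S.OK G B) {T : Set S.Tp} (hT : S.Down G B T) {τ : S.Tp}
    (hτ : τ ∈ G) (hτT : τ ∉ T) (hB : B τ ⊆ T) (hN : S.Nice T) {κ : Type} [Fintype κ]
    {R : SF K S.L κ} (hR : IsDef (S.lab T) R) {ρ : κ → K} {r : Rl}
    (hleg : S.Legal T τ R ρ r) (hr : r ≠ .u 0)
    (hn : S.NiceF (insert τ T) (S.VkF τ (sumF R (tens ρ (S.X τ r).S1)))) :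
    S.NiceF (insert τ T) (S.VkF τ R) := by
  have hTT : T ⊆ insert τ T := Set.subset_insert _ _
  obtain ⟨χ₁, hl₁, hc₁, hs₁, hd₁⟩ := descend1_h48 h hT hτ hB hR hleg hr hn
  obtain ⟨χ₂, hl₂, hc₂, hs₂⟩ := descend2_h48 h hT hτ hB hN hR hleg hr
  have hn₁ : S.NiceF (insert τ T) (fun M (y : κ → M) => χ₁.Sat M y) :=
    ⟨χ₁, hl₁, hc₁, fun _ _ _ => Iff.rfl⟩
  have hn₂ : S.NiceF (insert τ T) (fun M (y : κ → M) => χ₂.Sat M y) :=
    ⟨χ₂, hl₂, hc₂, fun _ _ _ => Iff.rfl⟩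
  refine NiceF.congr (NiceF.add hn₁ hn₂) fun M hM u => ⟨?_, fun hu => ?_⟩
  · rintro ⟨a, b, ha, hb, hab⟩
    obtain ⟨haV, haR⟩ := hs₁ M hM.ff a ha
    obtain ⟨v, hv, -, hRv, hbv⟩ := (hs₂ M hM b).1 hb
    have e1 : u = fun k => a k + ρ k • v := funext fun k => by rw [hab k, hbv k]
    rw [e1]
    exact ⟨fun k => Submodule.add_mem _ (haV k) (Submodule.smul_mem _ _ hv),
      hR.add_mem haR hRv⟩
  · obtain ⟨a, v, ha, hv, hX, hu'⟩ := hd₁ M hM u hu
    refine ⟨a, fun k => ρ k • v, ha, (hs₂ M hM _).2 ⟨v, hv, hX, ?_, fun _ => rfl⟩, hu'⟩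
    have e2 : (fun k => ρ k • v) = fun k => u k - a k := funext fun k => by
      rw [hu' k]
      abel
    rw [e2]
    exact hR.sub_mem hu.2 (hs₁ M hM.ff a ha).2

end Pool.Agent.Helper13.SDW
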