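import Pool.Agent.Helper13.SDW.NiceB1

/-!
# BLOCK SDW-NICED: from `V^κ ∩ R` to all formulas over `T' = insert τ T` (about 150 lines)

Let `F` be a formula over `T'` in the variables `κ`, given by `φ : Gf`. Let `κ'` be the (finite) type of the
positions in `φ.c` whose label is `.inr τ` (e.g. `Fin φ.c.length`, with the label of the other
positions ignored: put the form `0` there). Then there is `P : SF (κ ⊕ κ')` over `T` with
`F M x ↔ ∃ u, (∀ j, u j ∈ V_τ) ∧ P M (Sum.elim x u)`.
Let `Y := {u : ∃ x, P(x, u)}`, over `T`; `V^κ' ∩ Y` is given on `CC_T'` by a cofibrant `χ = [G, v]` (`hVk`).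
In `M₁ = Nc T' G.obj PUnit ∈ CC_T'` choose `x₁` with `P(x₁, v(gen))`; apply `relcx` for `G` to the elements
`v j` (label `.inr τ`) and `x₁ k` (label root): complex `G'` over `G`, forms. `P(x₁(x'), v(x'))`,
`v(x') ∈ V` for all `x' ∈ G'.Hom D`, `D ∈ FF_T'`. `{z : P(z, 0)}` is over `T`, so given on `CC_T` (and on `CC_T'`,
`cc_mono`) by `[G₀, z]`, cofibrant over `T` and `T'`. Then `F` is given on `CC_T'` by
`[G'.sum G₀, x₁ + z]`: `⊇`: `P(x₁, v)`, `P(z, 0)` give `P(x₁ + z, v)`. `⊆`: let `F M x`, `u ∈ V^κ'`, `P(x, u)`; `u = v(x₀)`,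
`x₀ ∈ G.Hom M`, extend to `x' ∈ G'.Hom M` (`Cx.extend`); `P(x - x₁(x'), 0)`.
-/

namespace Pool.Agent.Helper13.SDW

universe u

variable {K : Type u} [Field K] {S : Sys K} {G : Set S.Tp} {B : S.Tp → Set S.Tp}

theorem exists_sep_mem {T : Set S.Tp} {τ : S.Tp} {l : S.L} (h : l ∈ S.lab (insert τ T))
    (hl : l ≠ .inr τ) : l ∈ S.lab T := by
  intro σ hσ
  rcases h σ hσ with h1 | h1
  · exact absurd (hσ.trans (congrArg _ h1)) hl
  · exact h1

/-- Separation of the conditions in `V_τ`. -/
theorem exists_sep {T : Set S.Tp} {τ : S.Tp} {κ : Type} [Fintype κ] {F : SF K S.L κ}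
    (hF : IsDef (S.lab (insert τ T)) F) :
    ∃ (m : ℕ) (P : SF K S.L (κ ⊕ Fin m)), IsDef (S.lab T) P ∧
      ∀ (M : Obj K S.L) (x : κ → M), F M x ↔
        ∃ u : Fin m → M, (∀ j, u j ∈ M.P (.inr τ)) ∧ P M (Sum.elim x u) := by
  classical
  obtain ⟨φ, h1, h2⟩ := hF
  let out' : Fin φ.c.length → Fin φ.n → K :=
    fun j => if (φ.c.get j).1 = .inr τ then (φ.c.get j).2 else fun _ => 0
  let ψ : Gf K S.L (κ ⊕ Fin φ.c.length) :=
    ⟨φ.n, φ.c.filter (fun q => decide (q.1 ≠ .inr τ)), φ.e, Sum.elim φ.out out'⟩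
  have hmem : ∀ q, q ∈ ψ.c ↔ q ∈ φ.c ∧ q.1 ≠ .inr τ := by
    intro q
    change q ∈ φ.c.filter (fun q => decide (q.1 ≠ .inr τ)) ↔ _
    rw [List.mem_filter, decide_eq_true_eq]
  refine ⟨φ.c.length, fun M y => ψ.Sat M y, ⟨ψ, ?_, fun M y => Iff.rfl⟩, fun M y => ?_⟩
  · intro q hq
    obtain ⟨hq1, hq2⟩ := (hmem q).1 hq
    exact exists_sep_mem (h1 q hq1) hq2
  · rw [h2 M y]
    constructor
    · rintro ⟨x, k1, k2, k3⟩
      refine ⟨fun j => lin (out' j) x, fun j => ?_, x, ?_, k2, ?_⟩
      · change lin (out' j) x ∈ M.P (.inr τ)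
        by_cases hj : (φ.c.get j).1 = .inr τ
        · have h3 := k1 (φ.c.get j) (List.get_mem _ _)
          rw [hj] at h3
          have h4 : out' j = (φ.c.get j).2 := if_pos hj
          rw [h4]
          exact h3
        · have h4 : out' j = fun _ => 0 := if_neg hj
          rw [h4, lin_fzero]
          exact Submodule.zero_mem _
      · intro q hq
        exact k1 q ((hmem q).1 hq).1
      · rintro (k | j)
        · exact k3 k
        · rfl
    · rintro ⟨u, hu, x, k1, k2, k3⟩
      refine ⟨x, fun q hq => ?_, k2, fun k => k3 (.inl k)⟩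
      by_cases hqτ : q.1 = .inr τ
      · obtain ⟨j, hj⟩ := List.get_of_mem hq
        have h3 : u j = lin (out' j) x := k3 (.inr j)
        have h4 : out' j = q.2 := by
          have h5 : out' j = (φ.c.get j).2 := if_pos (by rw [hj]; exact hqτ)
          rw [h5, hj]
        rw [h4] at h3
        rw [hqτ, ← h3]
        exact hu j
      · exact k1 q ((hmem q).2 ⟨hq, hqτ⟩)

theorem nice_of_vk (h : S.OK G B) {T : Set S.Tp} (hT : S.Down G B T) {τ : S.Tp}
    (hτ : τ ∈ G) (hτT : τ ∉ T) (hB : B τ ⊆ T) (hN : S.Nice T)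
    (hVk : ∀ (κ : Type) [Fintype κ] (R : SF K S.L κ), IsDef (S.lab T) R →
      S.NiceF (insert τ T) (S.VkF τ R)) : S.Nice (insert τ T) := by
  intro κ _ F hF
  obtain ⟨m, P, hP, hFP⟩ := exists_sep hF
  have hT' : S.Down G B (insert τ T) := Sys.down_insert hT hτ hB
  have hcl' : S.Closed (insert τ T) := h.closed hT'
  have hr := h.proot
  have hsub : T ⊆ insert τ T := Set.subset_insert _ _
  have hlsub : S.lab T ⊆ S.lab (insert τ T) := Sys.lab_mono hsub
  -- `Y = {u : ∃ x, P(x, u)}`
  have hY : IsDef (S.lab T) (fun (M : Obj K S.L) (u : Fin m → M) =>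
      ∃ x : κ → M, P M (Sum.elim x u)) := by
    refine IsDef.ex' (κ := Fin m) (κ' := κ) (fun M u x => P M (Sum.elim x u)) ?_
    refine (hP.subst (κ := Fin m ⊕ κ) (fun k => fone (Sum.swap k))).congr fun M w => ?_
    have e1 : (fun k : κ ⊕ Fin m => lin (fone (K := K) (Sum.swap k)) w) =
        Sum.elim (fun k => w (.inr k)) (fun k => w (.inl k)) := by
      funext k
      rw [lin_fone]
      cases k <;> rfl
    rw [e1]
  obtain ⟨χ, hχl, hχc, hχ⟩ := hVk (Fin m) _ hY
  have hcc : S.CC (insert τ T) (Nc (insert τ T) (χ.toPre.obj (S := S)) PUnit) :=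
    obj_cc hcl' hr hχc hχl
  have hgen := gen_hom_Nc (T := insert τ T) χ.toPre PUnit
  obtain ⟨v, hv⟩ : ∃ v : Fin m → Nc (insert τ T) (χ.toPre.obj (S := S)) PUnit,
      v = fun j => lin (χ.out j) (fun i : Fin χ.n =>
        ((Pre.gen χ.toPre i, 0) : Nc (insert τ T) (χ.toPre.obj (S := S)) PUnit)) := ⟨_, rfl⟩
  obtain ⟨hvV, x₁, hx₁⟩ := (hχ _ hcc v).2 ⟨_, hgen, fun j => by rw [hv]⟩
  obtain ⟨G', e, t, x, hCx, hx, hxe, ht, hlin, hext⟩ := relcx hcl' hr χ.toPre hχl
    (κ := Fin m ⊕ κ) (Sum.elim (fun _ => .inr τ) (fun _ => .inl S.root))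
    (by
      rintro (k | k)
      · intro σ hσ
        exact Or.inl (Sum.inr.inj hσ).symm
      · intro σ hσ
        cases hσ)
    (Sum.elim v x₁)
    (by
      rintro (k | k)
      · exact hvV k
      · change x₁ k ∈ (Nc (insert τ T) (χ.toPre.obj (S := S)) PUnit).P (.inl S.root)
        rw [hcc.ff.root]
        exact Submodule.mem_top)
  -- the values of the forms
  have hval : ∀ D : Obj K S.L, S.FF (insert τ T) D → ∀ x' : Fin G'.n → D, G'.Hom D x' →
      P D (Sum.elim (fun k => lin (t (.inr k)) x') (fun j => lin (t (.inl j)) x')) ∧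
      (∀ j, lin (t (.inl j)) x' ∈ D.P (.inr τ)) ∧
      ∀ j, lin (t (.inl j)) x' = lin (χ.out j) (fun i => x' (e i)) := by
    intro D hD x' hx'
    obtain ⟨f, hf, hfx⟩ := hext D hD x' hx'
    have f1 : ∀ k, f (Sum.elim v x₁ k) = lin (t k) x' := by
      intro k
      rw [← hlin k, map_lin]
      congr 1
      funext i
      exact hfx i
    refine ⟨?_, fun j => ?_, fun j => ?_⟩
    · have h3 := hP.map (fun l hl => hf l (hlsub hl)) hx₁
      have e1 : (fun k => f (Sum.elim x₁ v k)) =
          Sum.elim (fun k => lin (t (.inr k)) x') (fun j => lin (t (.inl j)) x') := by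
        funext k
        cases k with
        | inl k => exact f1 (.inr k)
        | inr j => exact f1 (.inl j)
      rw [e1] at h3
      exact h3
    · exact Pf.mem_P hD.toNodeOK hx' (ht (.inl j))
    · rw [← f1 (.inl j)]
      change f (v j) = _
      rw [hv, map_lin]
      congr 1
      funext i
      rw [← hfx (e i), hxe i]
  -- the formula `P(z, 0)`
  have hF₀ : IsDef (S.lab T) (fun (M : Obj K S.L) (z : κ → M) =>
      P M (Sum.elim z (fun _ => 0))) := by
    refine (hP.subst (κ := κ) (Sum.elim (fun k => fone k) (fun _ _ => 0))).congr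
      fun M z => ?_
    have e1 : (fun k : κ ⊕ Fin m =>
        lin ((Sum.elim (fun k => fone k) (fun _ _ => 0) : κ ⊕ Fin m → κ → K) k) z) =
        Sum.elim z (fun _ => 0) := by
      funext k
      cases k with
      | inl k => exact lin_fone k z
      | inr j => exact lin_fzero z
    rw [e1]
  obtain ⟨χ₀, h01, h02, h03⟩ := hN κ _ hF₀
  refine ⟨⟨G'.sum χ₀.toPre, fun k => Fin.append (t (.inr k)) (χ₀.out k)⟩, ?_,
    cofP_sum (hCx.cofP hχc) (CofP.mono h02 hsub), fun M hM y => ?_⟩
  · intro q hq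
    rcases Pre.mem_sum_c.1 hq with ⟨p, hp, rfl⟩ | ⟨p, hp, rfl⟩
    · exact Cx.lab hcl' hCx hχl p hp
    · exact hlsub (h01 p hp)
  · have hMT : S.CC T M := h.cc_mono hT hT' hsub hM
    constructor
    · intro hy
      obtain ⟨u, huV, hPu⟩ := (hFP M y).1 hy
      obtain ⟨a, ha, hua⟩ := (hχ M hM u).1 ⟨huV, y, hPu⟩
      obtain ⟨x', hx', hxe'⟩ := hCx.extend hM.ff ha
      obtain ⟨h1, -, h3⟩ := hval M hM.ff x' hx'
      have hu : ∀ j, lin (t (.inl j)) x' = u j := by
        intro j
        rw [h3 j, hua j]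
        congr 1
        funext i
        exact hxe' i
      have h4 := hP.sub_mem hPu h1
      have e1 : (fun k => Sum.elim y u k -
          Sum.elim (fun k => lin (t (.inr k)) x') (fun j => lin (t (.inl j)) x') k) =
          Sum.elim (fun k => y k - lin (t (.inr k)) x') (fun _ => 0) := by
        funext k
        cases k with
        | inl k => rfl
        | inr j =>
          change u j - lin (t (.inl j)) x' = 0
          rw [hu j, sub_self]
      rw [e1] at h4
      obtain ⟨z, hz, hyz⟩ := (h03 M hMT _).1 h4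
      refine ⟨Fin.append x' z, (Pre.sum_hom _ _ M _).2 ⟨?_, ?_⟩, fun k => ?_⟩
      · simpa only [Fin.append_left] using hx'
      · simpa only [Fin.append_right] using hz
      · change y k = lin (Fin.append (t (.inr k)) (χ₀.out k)) (Fin.append x' z)
        rw [lin_append]
        simp only [Fin.append_left, Fin.append_right]
        rw [← hyz k, add_sub_cancel]
    · rintro ⟨w, hw, hyw⟩
      obtain ⟨hw1, hw2⟩ := (Pre.sum_hom _ _ M _).1 hw
      obtain ⟨h1, h2, -⟩ := hval M hM.ff _ hw1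
      have h4 := (h03 M hMT _).2 ⟨_, hw2, fun k => rfl⟩
      have h5 := hP.add_mem h1 h4
      refine (hFP M y).2 ⟨_, h2, ?_⟩
      have e1 : (fun k => Sum.elim
          (fun k => lin (t (.inr k)) (fun i => w (Fin.castAdd χ₀.n i)))
          (fun j => lin (t (.inl j)) (fun i => w (Fin.castAdd χ₀.n i))) k +
          Sum.elim (fun k => lin (χ₀.out k) (fun i => w (Fin.natAdd G'.n i)))
            (fun _ => 0) k) =
          Sum.elim y (fun j => lin (t (.inl j)) (fun i => w (Fin.castAdd χ₀.n i))) := by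
        funext k
        cases k with
        | inl k =>
          change lin (t (.inr k)) _ + lin (χ₀.out k) _ = y k
          rw [hyw k]
          exact (lin_append _ _ _).symm
        | inr j => exact add_zero _
      rw [e1] at h5
      exact h5

end Pool.Agent.Helper13.SDW
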