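import Pool.Agent.Helper13.SDW.NiceC
import Pool.Agent.Helper13.SDW.NiceD

/-!
# Niceness: adding a type (assembly)
-/

namespace Pool.Agent.Helper13.SDW

universe u

variable {K : Type u} [Field K] {S : Sys K} {G : Set S.Tp} {B : S.Tp → Set S.Tp}

theorem Reach.isDef (h : S.OK G B) {T : Set S.Tp} {τ : S.Tp} (hτ : τ ∈ G)
    (hB : B τ ⊆ T) {κ : Type} [Fintype κ] {P C : SF K S.L κ} (hP : IsDef (S.lab T) P)
    (hC : S.Reach T τ P C) : IsDef (S.lab T) C := by
  induction hC with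
  | base => exact hP
  | step ρ r _ _ _ ih =>
    refine isDef_sumF ih (isDef_tens ?_ ρ)
    exact IsDef.fm (S.X τ r) fun q hq => Sys.lab_mono hB (h.labX hτ r q hq)

theorem nice_step (h : S.OK G B) {T : Set S.Tp} (hT : S.Down G B T) {τ : S.Tp} (hτ : τ ∈ G)
    (hτT : τ ∉ T) (hB : B τ ⊆ T) (hN : S.Nice T) (hFC : S.FC T τ) :
    S.Nice (insert τ T) := by
  refine nice_of_vk h hT hτ hτT hB hN fun κ _ R hR => ?_
  obtain ⟨C, hRC, hC1, hC2⟩ := hFC κ R hR
  have hC := Reach.isDef h hτ hB hR hRC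
  have hVC := nice_VC h hT hτ hτT hB hC hC1 hC2
  clear hC1 hC2 hC
  induction hRC with
  | base => exact hVC
  | step ρ r hR' hleg hr ih =>
    exact ih (nice_descend h hT hτ hτT hB hN (Reach.isDef h hτ hB hR hR') hleg hr hVC)

end Pool.Agent.Helper13.SDW
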