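import Pool.Agent.Helper13.SDW.ModFF

/-!
# The module `Q` (definitions)

`N` is a structure, `B` a space with subspaces. `EndR Λ N` is the ring of the endomorphisms of `N`,
`HomD Λ N B` the space of the homs from `N` to `B.dual`, and `QQ Λ N B` the dual space of `HomD Λ N B`, a module
over `EndR Λ N`. The tuple `x` of elements of `N` and the tuple `b` of elements of `B` give the element
`pr x b : F ↦ ∑ F(x_k)(b_k)` of `QQ Λ N B` (the tensor `∑ x_k ⊗ b_k`).
-/

namespace Pool.Agent.Helper13.SDW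

universe u

variable {K : Type u} [Field K] {L : Type u}

/-- The ring of the endomorphisms of `N` for the labels in `Λ`. -/
def EndR (Λ : Set L) (N : Obj K L) : Subring (Module.End K N) where
  carrier := {f | IsHom Λ (M := N) (N := N) f}
  mul_mem' := fun {f g} hf hg l hl x hx => hf l hl _ (hg l hl x hx)
  one_mem' := fun _ _ _ hx => hx
  add_mem' := fun {f g} hf hg l hl x hx => (N.P l).add_mem (hf l hl x hx) (hg l hl x hx)
  zero_mem' := fun l _ _ _ => (N.P l).zero_mem
  neg_mem' := fun {f} hf l hl x hx => (N.P l).neg_mem (hf l hl x hx)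

/-- The space of the homs from `N` to `B.dual`. -/
def HomD (Λ : Set L) (N B : Obj K L) : Submodule K (N →ₗ[K] Module.Dual K B) where
  carrier := {f | IsHom Λ (M := N) (N := B.dual) f}
  add_mem' := fun {f g} hf hg l hl x hx =>
    (B.dual.P l).add_mem (hf l hl x hx) (hg l hl x hx)
  zero_mem' := fun l _ _ _ => (B.dual.P l).zero_mem
  smul_mem' := fun c f hf l hl x hx => (B.dual.P l).smul_mem c (hf l hl x hx)

/-- Composition with an endomorphism of `N`. -/
def precomp {Λ : Set L} {N : Obj K L} (B : Obj K L) (f : EndR Λ N) :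
    HomD Λ N B →ₗ[K] HomD Λ N B where
  toFun F := ⟨F.1 ∘ₗ f.1, fun l hl x hx => F.2 l hl _ (f.2 l hl x hx)⟩
  map_add' F F' := by ext; rfl
  map_smul' c F := by ext; rfl

/-- The module `Q`. -/
def QQ (Λ : Set L) (N B : Obj K L) : Type u := Module.Dual K (HomD Λ N B)

noncomputable instance (Λ : Set L) (N B : Obj K L) : AddCommGroup (QQ Λ N B) :=
  inferInstanceAs (AddCommGroup (Module.Dual K (HomD Λ N B)))

noncomputable instance (Λ : Set L) (N B : Obj K L) : Module (EndR Λ N) (QQ Λ N B) where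
  smul f q := (show Module.Dual K (HomD Λ N B) from q) ∘ₗ precomp B f
  one_smul q := rfl
  mul_smul f g q := rfl
  smul_zero f := rfl
  smul_add f q q' := rfl
  add_smul f g q := by
    refine LinearMap.ext fun F => ?_
    change (show Module.Dual K (HomD Λ N B) from q) (precomp B (f + g) F) =
      (show Module.Dual K (HomD Λ N B) from q) (precomp B f F) +
        (show Module.Dual K (HomD Λ N B) from q) (precomp B g F)
    rw [← map_add]
    congr 1
    ext x
    change F.1 (f.1 x + g.1 x) _ = F.1 (f.1 x) _ + F.1 (g.1 x) _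
    rw [map_add]
    rfl
  zero_smul q := by
    refine LinearMap.ext fun F => ?_
    change (show Module.Dual K (HomD Λ N B) from q) (precomp B 0 F) = 0
    have h : precomp B (0 : EndR Λ N) F = 0 := by
      ext x
      change F.1 0 _ = 0
      rw [map_zero]
      rfl
    rw [h, map_zero]

/-- The tensor of `x` and `b`. -/
noncomputable def pr (Λ : Set L) {N B : Obj K L} {κ : Type} [Fintype κ] (x : κ → N)
    (b : κ → B) : QQ Λ N B :=
  (show Module.Dual K (HomD Λ N B) from
    { toFun := fun F => ∑ k, (F.1 (x k)) (b k)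
      map_add' := fun F F' => by
        rw [← Finset.sum_add_distrib]
        rfl
      map_smul' := fun c F => by
        rw [RingHom.id_apply, smul_eq_mul, Finset.mul_sum]
        rfl })

/-- The action of an endomorphism of `B` on the homs. -/
def postcomp {Λ : Set L} (N : Obj K L) {B : Obj K L} (e : B →ₗ[K] B)
    (he : IsHom Λ (M := B) (N := B) e) : HomD Λ N B →ₗ[K] HomD Λ N B where
  toFun F := ⟨e.dualMap ∘ₗ F.1, fun l hl x hx => by
    have h1 := F.2 l hl x hx
    refine (Submodule.mem_dualAnnihilator _).2 fun w hw => ?_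
    exact (Submodule.mem_dualAnnihilator _).1 h1 _ (he l hl w hw)⟩
  map_add' F F' := by ext; rfl
  map_smul' c F := by ext; rfl

/-- The action of an endomorphism of `B` on `QQ`. -/
def eQ {Λ : Set L} (N : Obj K L) {B : Obj K L} (e : B →ₗ[K] B)
    (he : IsHom Λ (M := B) (N := B) e) : QQ Λ N B →ₗ[EndR Λ N] QQ Λ N B where
  toFun q := (show Module.Dual K (HomD Λ N B) from q) ∘ₗ postcomp N e he
  map_add' q q' := rfl
  map_smul' f q := rfl

/-- A condition on unknowns `z : I → B`: the tuple `z (idx i) - p i` satisfies the dual condition of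
`φ`. -/
structure DC (B : Obj K L) (I : Type u) : Type u where
  n : ℕ
  idx : Fin n → I
  φ : Fm K L (Fin n)
  p : Fin n → B

/-- Satisfaction. -/
def DC.Holds {B : Obj K L} {I : Type u} (c : DC B I) (z : I → B) : Prop :=
  c.φ.DSat B (fun i => z (c.idx i) - c.p i)

/-- Algebraic compactness of `B`. -/
def AC (Λ : Set L) (B : Obj K L) : Prop :=
  ∀ (I : Type u) (C : Set (DC B I)), (∀ c ∈ C, ∀ q ∈ c.φ.c, q.1 ∈ Λ) →
    (∀ C₀ ⊆ C, C₀.Finite → ∃ z : I → B, ∀ c ∈ C₀, c.Holds z) →
    ∃ z : I → B, ∀ c ∈ C, c.Holds z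

/-- Superdecomposable structures. -/
def SDO (Λ : Set L) (B : Obj K L) : Prop :=
  ∀ e : B →ₗ[K] B, IsHom Λ (M := B) (N := B) e → e ∘ₗ e = e → e ≠ 0 →
    ∃ e₁ e₂ : B →ₗ[K] B, IsHom Λ (M := B) (N := B) e₁ ∧ IsHom Λ (M := B) (N := B) e₂ ∧
      e₁ ∘ₗ e₁ = e₁ ∧ e₂ ∘ₗ e₂ = e₂ ∧ e₁ ≠ 0 ∧ e₂ ≠ 0 ∧ e₁ ∘ₗ e₂ = 0 ∧ e₂ ∘ₗ e₁ = 0 ∧
      e₁ + e₂ = e

variable {S : Sys K}

/-- Structures in `CC_T` with generic solutions of all cofibrant presentations. -/
structure Big (S : Sys K) (T : Set S.Tp) (N : Obj K S.L) : Prop where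
  cc : S.CC T N
  gen : ∀ G : Pre K S.L, S.CofP T G → (∀ q ∈ G.c, q.1 ∈ S.lab T) →
    ∃ n : Fin G.n → N, G.Hom N n ∧ ∀ D : Obj K S.L, S.FF T D → ∀ x : Fin G.n → D,
      G.Hom D x → ∃ f : N →ₗ[K] D, IsHom (S.lab T) f ∧ ∀ i, f (n i) = x i

end Pool.Agent.Helper13.SDW
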