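import Pool.Agent.Helper13.SDW.QDefs

/-!
# BLOCK SDW-QF: basic facts on `Q` (about 180 lines)

`N` is big for `T`, `S.Mod T B`, `S.Nice T`.
* `pr_smul`, `pr_add_left`, `eQ_pr`: unfold.
* `exists_psi`: `CC.cx` for the elements `x k` of `N` (label root): a complex `G` and forms `t`, `ψ = [G; t]`;
  `⊆`: every `x' ∈ G.Hom D` comes from a hom `f : N → D`; `⊇`: the image of the tuple of `CC.cx` under a hom.
  (`CC.cx` gives the labels of `G` by `Cx.lab`.)
* `pr_eq_zero_iff`: `B.dual ∈ FF_T` (`Mod.ff`); `pr x b = 0` iff all homs `F : N → B.dual` satisfy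
  `∑ F(x_k)(b_k) = 0`, and `ψ(B.dual)` is the set of the `F ∘ x`.
* `kills_iff_pr`: `→`: homs preserve `φ`. `←`: `φ` is given on `CC_T` by a cofibrant `χ`; `f ∈ φ(B.dual) = χ(B.dual)` (`Mod`),
  `f = a(x)`, `x ∈ χ.Hom B.dual`; by `Big.gen` there are `n ∈ χ.Hom N` and a hom `F : N → B.dual` with `F(n) = x`; then
  `a(n) ∈ χ(N) = φ(N)` and `f = F(a(n))`.
* `faithful`: `kills_iff_pr` for `φ = P_root` (`P_root(B.dual) = ⊤`).
-/

namespace Pool.Agent.Helper13.SDW

universe u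

variable {K : Type u} [Field K]

section gen

variable {L : Type u} {Λ : Set L} {N B : Obj K L} {κ : Type} [Fintype κ]

theorem pr_smul (f : EndR Λ N) (x : κ → N) (b : κ → B) :
    f • pr Λ x b = pr Λ (fun k => f.1 (x k)) b := by
  exact LinearMap.ext (R := K) (fun F : HomD Λ N B => rfl)

theorem pr_add_left (x y : κ → N) (b : κ → B) :
    pr Λ (fun k => x k + y k) b = pr Λ x b + pr Λ y b := by
  refine LinearMap.ext (R := K) (fun F : HomD Λ N B => ?_)
  change ∑ k, (F.1 (x k + y k)) (b k) = ∑ k, (F.1 (x k)) (b k) + ∑ k, (F.1 (y k)) (b k)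
  rw [← Finset.sum_add_distrib]
  refine Finset.sum_congr rfl fun k _ => ?_
  rw [map_add]
  rfl

theorem pr_zero_left (b : κ → B) : pr Λ (fun _ : κ => (0 : N)) b = 0 := by
  refine LinearMap.ext (R := K) (fun F : HomD Λ N B => ?_)
  change ∑ k : κ, (F.1 (0 : N)) (b k) = 0
  rw [map_zero]
  simp

theorem pr_sub_right (x : κ → N) (b c : κ → B) :
    pr Λ x (fun k => b k - c k) = pr Λ x b - pr Λ x c := by
  refine LinearMap.ext (R := K) (fun F : HomD Λ N B => ?_)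
  change ∑ k, (F.1 (x k)) (b k - c k) = ∑ k, (F.1 (x k)) (b k) - ∑ k, (F.1 (x k)) (c k)
  rw [← Finset.sum_sub_distrib]
  exact Finset.sum_congr rfl fun k _ => map_sub _ _ _

/-- Re-indexing. -/
theorem pr_push {κ' : Type} [Fintype κ'] [DecidableEq κ'] (σ : κ → κ') (x : κ → N)
    (b : κ' → B) :
    pr Λ (fun m => ∑ k, if σ k = m then x k else 0) b = pr Λ x (fun k => b (σ k)) := by
  refine LinearMap.ext (R := K) (fun F : HomD Λ N B => ?_)
  change ∑ m, (F.1 (∑ k, if σ k = m then x k else 0)) (b m) = ∑ k, (F.1 (x k)) (b (σ k))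
  have h1 : ∀ m, (F.1 (∑ k, if σ k = m then x k else 0)) (b m) =
      ∑ k, if σ k = m then (F.1 (x k)) (b m) else 0 := by
    intro m
    rw [map_sum, LinearMap.sum_apply]
    refine Finset.sum_congr rfl fun k _ => ?_
    split_ifs
    · rfl
    · rw [map_zero]
      rfl
  rw [Finset.sum_congr rfl fun m _ => h1 m, Finset.sum_comm]
  refine Finset.sum_congr rfl fun k _ => ?_
  rw [Finset.sum_ite_eq Finset.univ (σ k), if_pos (Finset.mem_univ _)]

theorem eQ_pr (e : B →ₗ[K] B) (he : IsHom Λ (M := B) (N := B) e) (x : κ → N)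
    (b : κ → B) : eQ N e he (pr Λ x b) = pr Λ x (fun k => e (b k)) := by
  exact LinearMap.ext (R := K) (fun F : HomD Λ N B => rfl)

end gen

variable {S : Sys K} {G : Set S.Tp} {Bl : S.Tp → Set S.Tp} {T : Set S.Tp}
  {N B : Obj K S.L} {κ : Type} [Fintype κ]

/-- The type of a tuple of elements of `N`. -/
theorem exists_psi (h : S.OK G Bl) (hT : S.Down G Bl T) (hN : S.CC T N) (x : κ → N) :
    ∃ ψ : Fm K S.L κ, (∀ q ∈ ψ.c, q.1 ∈ S.lab T) ∧ ∀ D : Obj K S.L, S.FF T D →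
      ∀ y : κ → D, ψ.Sat D y ↔
        ∃ f : N →ₗ[K] D, IsHom (S.lab T) f ∧ ∀ k, y k = f (x k) := by
  have hlab0 : (Sum.inl S.root : S.L) ∈ S.lab T := fun τ hτ => by cases hτ
  obtain ⟨G₁, e, t, x₁, hCx, hx₁, -, hlin, hext⟩ := CC.cx (h.closed hT) h.proot hN
    (fun _ : κ => (Sum.inl S.root : S.L)) (fun _ => hlab0) x
    (fun k => by rw [hN.ff.root]; exact Submodule.mem_top)
  have hlab := Cx.lab (h.closed hT) hCx (U0_nil_lab (S.lab T))
  refine ⟨⟨G₁, t⟩, hlab, fun D hD y => ⟨?_, ?_⟩⟩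
  · rintro ⟨x', hx', hy⟩
    obtain ⟨f, hf, hfy⟩ := hext D hD x' hx'
    exact ⟨f, hf, fun k => (hy k).trans (hfy k).symm⟩
  · rintro ⟨f, hf, hy⟩
    refine ⟨fun i => f (x₁ i), U0_hom_map hlab hf hx₁, fun k => ?_⟩
    rw [hy k, ← hlin k, map_lin]

theorem pr_eq_zero_iff (h : S.OK G Bl) (hT : S.Down G Bl T) (hB : S.Mod T B) {x : κ → N}
    {b : κ → B} {ψ : SF K S.L κ} (hψ : ∀ D : Obj K S.L, S.FF T D →
      ∀ y : κ → D, ψ D y ↔ ∃ f : N →ₗ[K] D, IsHom (S.lab T) f ∧ ∀ k, y k = f (x k)) :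
    pr (S.lab T) x b = 0 ↔ Kills B ψ b := by
  have hD := Mod.ff h hT hB
  constructor
  · intro h0 f hf
    obtain ⟨F, hF, hfF⟩ := (hψ B.dual hD f).1 hf
    have h1 : (show Module.Dual K (HomD (S.lab T) N B) from pr (S.lab T) x b) ⟨F, hF⟩ = 0 := by
      rw [h0]
      rfl
    rw [← h1]
    exact Finset.sum_congr rfl fun k _ => by rw [hfF k]
  · intro hk
    refine LinearMap.ext (R := K) (fun F : HomD (S.lab T) N B => ?_)
    exact hk (fun k => F.1 (x k)) ((hψ B.dual hD _).2 ⟨F.1, F.2, fun _ => rfl⟩)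

theorem kills_iff_pr (h : S.OK G Bl) (hT : S.Down G Bl T) (hNice : S.Nice T)
    (hN : Big S T N) (hB : S.Mod T B) {φ : SF K S.L κ} (hφ : IsDef (S.lab T) φ)
    (b : κ → B) : Kills B φ b ↔ ∀ x : κ → N, φ N x → pr (S.lab T) x b = 0 := by
  constructor
  · intro hk x hx
    refine LinearMap.ext (R := K) (fun F : HomD (S.lab T) N B => ?_)
    exact hk (fun k => F.1 (x k)) (hφ.map F.2 hx)
  · intro hpr f hf
    obtain ⟨χ, hχl, hχc, hχ⟩ := hNice κ φ hφ
    obtain ⟨x₀, hx₀, hfx⟩ := hB κ φ (fun M y => χ.Sat M y) hφ (IsDef.fm χ hχl)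
      (fun M hM y hy => (hχ M hM y).1 hy) f hf
    obtain ⟨n, hn, hgen⟩ := hN.gen χ.toPre hχc hχl
    obtain ⟨F, hF, hFn⟩ := hgen B.dual (Mod.ff h hT hB) x₀ hx₀
    have h1 : φ N (fun k => lin (χ.out k) n) := (hχ N hN.cc _).2 ⟨n, hn, fun _ => rfl⟩
    have h2 : (show Module.Dual K (HomD (S.lab T) N B) from
        pr (S.lab T) (fun k => lin (χ.out k) n) b) ⟨F, hF⟩ = 0 := by
      rw [hpr _ h1]
      rfl
    rw [← h2]
    refine Finset.sum_congr rfl fun k _ => ?_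
    have h3 : F (lin (χ.out k) n) = f k := by
      rw [map_lin, hfx k]
      congr 1
      funext i
      exact hFn i
    change _ = (F (lin (χ.out k) n) : Module.Dual K B) (b k)
    rw [h3]

theorem faithful (h : S.OK G Bl) (hT : S.Down G Bl T) (hNice : S.Nice T)
    (hN : Big S T N) (hB : S.Mod T B) {b : B}
    (hb : ∀ x : N, pr (S.lab T) (fun _ : Unit => x) (fun _ => b) = 0) : b = 0 := by
  have h1 : Kills B (fun (_ : Obj K S.L) (_ : Unit → _) => True) (fun _ : Unit => b) := by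
    rw [kills_iff_pr h hT hNice hN hB IsDef.top]
    intro x _
    exact hb (x ())
  rw [← Module.forall_dual_apply_eq_zero_iff K b]
  intro f
  have h2 := h1 (fun _ => f) trivial
  simpa using h2

end Pool.Agent.Helper13.SDW
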