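import Pool.Agent.Helper13.SDW.QDefs
import Pool.Agent.Helper56.NB.Red

/-!
# The module side (definitions)

`Rr Λ` is the free `K`-algebra on `e` and `r_l` (`l ∈ Λ`). For an `Rr Λ`-module `M` the space `eM = {x : e x = x}` with the
subspaces `{x : r_l x = 0}` is the structure `BM Λ M`. `XX Λ Sq` is the set of the pairs of pp conditions: axioms A1-A4, and A5: the
dual conditions of the sequents in `Sq`.
-/

namespace Pool.Agent.Helper13.SDW

open Pool.Agent.H35SD Pool.Agent.Helper56.NB

universe u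

variable {K : Type u} [Field K] {L : Type u}

/-- The free algebra on `e` and `r_l`, `l ∈ Λ`. -/
abbrev Rr (K : Type u) [Field K] {L : Type u} (Λ : Set L) : Type u :=
  FreeAlgebra K (Option Λ)

/-- The generator `e`. -/
def ge (K : Type u) [Field K] {L : Type u} (Λ : Set L) : Rr K Λ := FreeAlgebra.ι K none

open Classical in
/-- The generator `r_l`, and `0` if `l ∉ Λ`. -/
noncomputable def gr (K : Type u) [Field K] {L : Type u} (Λ : Set L) (l : L) : Rr K Λ :=
  if h : l ∈ Λ then FreeAlgebra.ι K (some ⟨l, h⟩) else 0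

/-- The scalars in the algebra. -/
def gs (K : Type u) [Field K] {L : Type u} (Λ : Set L) (a : K) : Rr K Λ :=
  algebraMap K (Rr K Λ) a

/-- The underlying `K`-space of a module. -/
abbrev kMod (K : Type u) [Field K] {L : Type u} (Λ : Set L) (M : Type u) [AddCommGroup M]
    [Module (Rr K Λ) M] : Module K M := Module.compHom M (algebraMap K (Rr K Λ))

/-- The structure `eM`. -/
noncomputable def BM (K : Type u) [Field K] {L : Type u} (Λ : Set L) (M : Type u)
    [AddCommGroup M] [Module (Rr K Λ) M] : Obj K L :=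
  letI := kMod K Λ M
  { carrier := (({ carrier := {x : M | ge K Λ • x = x}
                   add_mem' := fun {x y} (hx : ge K Λ • x = x) (hy : ge K Λ • y = y) => by
                     change ge K Λ • (x + y) = x + y
                     rw [smul_add, hx, hy]
                   zero_mem' := smul_zero _
                   smul_mem' := fun a x (hx : ge K Λ • x = x) => by
                     change ge K Λ • (gs K Λ a • x) = gs K Λ a • x
                     have hc : ge K Λ * gs K Λ a = gs K Λ a * ge K Λ :=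
                       (Algebra.commutes a (ge K Λ)).symm
                     rw [← mul_smul, hc, mul_smul, hx] } : Submodule K M) : Type u)
    P := fun l =>
      { carrier := {x | gr K Λ l • (x : M) = 0}
        add_mem' := fun {x y} (hx : gr K Λ l • (x : M) = 0) (hy : gr K Λ l • (y : M) = 0) => by
          change gr K Λ l • ((x : M) + (y : M)) = 0
          rw [smul_add, hx, hy, add_zero]
        zero_mem' := smul_zero _
        smul_mem' := fun a x (hx : gr K Λ l • (x : M) = 0) => by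
          change gr K Λ l • (gs K Λ a • (x : M)) = 0
          have hc : gr K Λ l * gs K Λ a = gs K Λ a * gr K Λ l :=
            (Algebra.commutes a (gr K Λ l)).symm
          rw [← mul_smul, hc, mul_smul, hx, smul_zero] } }

/-- The inclusion of `eM` in `M`. -/
def BM.val {Λ : Set L} {M : Type u} [AddCommGroup M] [Module (Rr K Λ) M] (x : BM K Λ M) : M :=
  x.1

/-- The dual condition of a general formula. -/
def Gf.DSat {κ : Type} [Fintype κ] (φ : Gf K L κ) (B : Obj K L) (b : κ → B) : Prop :=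
  ∃ (w : Fin φ.c.length → B) (w' : Fin φ.e.length → B),
    (∀ j, w j ∈ B.P (φ.c.get j).1) ∧
    ∀ i : Fin φ.n, ∑ k, φ.out k i • b k =
      ∑ j, (φ.c.get j).2 i • w j + ∑ j, (φ.e.get j) i • w' j

/-- The dual condition of a general formula as a pp condition on modules (on the elements
`e x_k`). -/
noncomputable def ppD (Λ : Set L) {n : ℕ} (φ : Gf K L (Fin n)) : PPN (Rr K Λ) n where
  m := φ.c.length + φ.e.length
  e := φ.c.length + φ.n
  r := Fin.append (fun _ _ => 0) (fun i k => gs K Λ (φ.out k i) * ge K Λ)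
  s := Fin.append
    (fun j => Fin.append (fun j' => if j = j' then gr K Λ (φ.c.get j).1 * ge K Λ else 0)
      (fun _ => 0))
    (fun i => Fin.append (fun j => - (gs K Λ ((φ.c.get j).2 i) * ge K Λ))
      (fun j => - (gs K Λ ((φ.e.get j) i) * ge K Λ)))

/-- The condition without equations. -/
def ppT (R : Type u) (n : ℕ) : PPN R n := ⟨0, 0, Fin.elim0, Fin.elim0⟩

/-- The condition `∑ s_i x_i = 0`. -/
def ppE {R : Type u} {n : ℕ} (s : Fin n → R) : PPN R n :=
  ⟨0, 1, fun _ => s, fun _ => Fin.elim0⟩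

/-- The pairs of pp conditions of the category. -/
def XX (Λ : Set L) (Sq : Set (Σ n : ℕ, Gf K L (Fin n) × Gf K L (Fin n))) :
    Set (Σ m : ℕ, PPN (Rr K Λ) m × PPN (Rr K Λ) m) :=
  {⟨1, ppT _ 1, ppE fun _ => ge K Λ * ge K Λ - ge K Λ⟩} ∪
  {p | ∃ l ∈ Λ, p = ⟨1, ppT _ 1, ppE fun _ => gr K Λ l * ge K Λ - gr K Λ l⟩} ∪
  {p | ∃ l ∈ Λ, p = ⟨1, ppT _ 1, ppE fun _ => ge K Λ * gr K Λ l⟩} ∪
  {p | ∃ (n : ℕ) (l : Fin n → L) (i₀ : Fin n), (∀ i, l i ∈ Λ) ∧ Function.Injective l ∧
    p = ⟨n, ppE fun i => gr K Λ (l i), ppE fun i => if i = i₀ then gr K Λ (l i) else 0⟩} ∪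
  {p | ∃ q ∈ Sq, p = ⟨q.1, ppD Λ q.2.2, ppD Λ q.2.1⟩}

/-- The axioms A1-A4 for a module. -/
structure Ax (K : Type u) [Field K] {L : Type u} (Λ : Set L) (M : Type u) [AddCommGroup M]
    [Module (Rr K Λ) M] : Prop where
  ee : ∀ x : M, ge K Λ • ge K Λ • x = ge K Λ • x
  re : ∀ l (x : M), gr K Λ l • ge K Λ • x = gr K Λ l • x
  er : ∀ l (x : M), ge K Λ • gr K Λ l • x = 0
  ind : ∀ (n : ℕ) (l : Fin n → L), (∀ i, l i ∈ Λ) → Function.Injective l → ∀ x : Fin n → M,
    ∑ i, gr K Λ (l i) • x i = 0 → ∀ i, gr K Λ (l i) • x i = 0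

/-- Algebraic compactness of a module. -/
def AlgComp (R : Type u) [Ring R] (M : Type u) [AddCommGroup M] [Module R M] : Prop :=
  ∀ (I : Type u) (E : Set ((I →₀ R) × M)),
    (∀ E₀ ⊆ E, E₀.Finite → ∃ z : I → M, ∀ q ∈ E₀, (q.1.sum fun i s => s • z i) = q.2) →
    ∃ z : I → M, ∀ q ∈ E, (q.1.sum fun i s => s • z i) = q.2

end Pool.Agent.Helper13.SDW
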