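import Pool.Agent.Helper13.SDW.ConcDefs

/-!
# BLOCK SDW-RANK: ranks and names in the concrete system (about 200 lines)

* `rank_lt`: `rank (f n) < rank (mk f sk h)` (the supremum over `ℕ` of small ordinals is bounded:
  `Ordinal.lt_iSup_iff`, `Ordinal.le_iSup`). `rank_tr`: the rank does not depend on `h`.
* `rank_of_men`, `rank_of_nmPos`: the labels of `t.pos i` for `t = mk f sk h` are images under `f` of labels over
  `ULift ℕ`, so all terms which occur in them (as types or as components of names) are some `f n`. `base` has the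
  positions `pos0`, which mention nothing.
* `nm_inj`: if `t.nm i = t'.nm i` for arbitrarily large `i` then `t = t'`: both are `base`, or `f = f'`, `sk = sk'` and
  `h j = h' j` for all `j < i`, for arbitrarily large `i`.
* `clean_*`: the labels of the formulas `U, D, Z` of a limit type `t'` are the labels of the positions, the nodes
  `a i`, the dummies `ξ i = (a (i+1), nm t' i)` and the nodes `Bc i m`, which mention only names of `a (i+1)` and `nm t' i`.
  By induction on `j` for `up j F`: `Clean w F → Clean w (up j F)` if the positions are clean and `nm t' i ≠ w` for `i < j`.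
-/

namespace Pool.Agent.Helper13.SDW

universe u

variable {K : Type u} [Field K]

/-- The node `a` mentions the name `w`. -/
def nmN (w : Ty K × ℕ) (a : NodeF (Ty K)) : Prop := ∃ j, (w, j) ∈ a

/-- The label `l` mentions the name `w`. -/
def nmL (w : Ty K × ℕ) : LabF (Ty K) → Prop
  | .inl a => nmN w a
  | .inr (.inl (a, w')) => nmN w a ∨ w' = w
  | .inr (.inr _) => False

/-- The presentation does not mention `w`. -/
def Clean (w : Ty K × ℕ) (φ : Pre K (LabF (Ty K))) : Prop := ∀ q ∈ φ.c, ¬ nmL w q.1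

/-- The positions of `t` do not mention `w`. -/
def CleanPos (w : Ty K × ℕ) (t : Ty K) : Prop :=
  ∀ i, ¬ nmN w (t.pos i).a ∧ Clean w (t.pos i).E ∧ Clean w (t.pos i).Kp

theorem rank_lt (f : ℕ → Ty K) (sk : ℕ → Pos K (ULift.{u} ℕ)) (h : ℕ → ℕ) (n : ℕ) :
    (f n).rank < (Ty.mk f sk h).rank := by
  have h1 : (f n).rank + 1 ≤ ⨆ n, ((f n).rank + 1) := Ordinal.le_iSup (fun n => (f n).rank + 1) n
  exact lt_of_lt_of_le (Order.lt_add_one_iff.2 le_rfl) h1

theorem rank_tr (t : Ty K) (i : ℕ) : (t.tr i).rank = t.rank := by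
  cases t with
  | base => rfl
  | mk f sk h => rfl

theorem h55_one_fst {l : LabF (Ty K)} {q : LabF (Ty K) × (Fin (Pre.one K l).n → K)}
    (hq : q ∈ (Pre.one K l).c) : q.1 = l :=
  congrArg Prod.fst (List.mem_singleton.1 hq)

theorem h55_clean_one {w : Ty K × ℕ} {l : LabF (Ty K)} (hl : ¬ nmL w l) :
    Clean w (Pre.one K l) := by
  intro q hq
  rw [h55_one_fst hq]
  exact hl

theorem h55_rank_nmN {X : Type u} {g : X → Ty K} {w : Ty K × ℕ} {a : NodeF X}
    (h : nmN w (NodeF.map g a)) : ∃ x, w.1 = g x := by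
  obtain ⟨j, hj⟩ := h
  unfold NodeF.map at hj
  obtain ⟨p, -, hp⟩ := List.mem_map.1 hj
  refine ⟨p.1.1, ?_⟩
  have h1 := congrArg (fun z : (Ty K × ℕ) × ℕ => z.1.1) hp
  exact h1.symm

theorem h55_rank_nmL {X : Type u} {g : X → Ty K} {w : Ty K × ℕ} {l : LabF X}
    (h : nmL w (LabF.map g l)) : ∃ x, w.1 = g x := by
  rcases l with a | ⟨a, w'⟩ | x
  · exact h55_rank_nmN (a := a) h
  · rcases h with h | h
    · exact h55_rank_nmN (a := a) h
    · refine ⟨w'.1, ?_⟩
      have h1 := congrArg Prod.fst h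
      exact h1.symm
  · exact h.elim

theorem h55_clean_map {X : Type u} {g : X → Ty K} {w : Ty K × ℕ} {G : Pre K (LabF X)}
    (h : ¬ Clean w (G.mapL (LabF.map g))) : ∃ x, w.1 = g x := by
  unfold Clean at h
  push Not at h
  obtain ⟨q, hq, hl⟩ := h
  obtain ⟨q', -, rfl⟩ := List.mem_map.1 hq
  exact h55_rank_nmL hl

theorem rank_of_men {t' t : Ty K} (h : Men t' t) : t'.rank < t.rank := by
  cases t with
  | base =>
    obtain ⟨i, ⟨q, hq, h1⟩ | ⟨q, hq, h1⟩⟩ := h
    · have h2 : q.1 = (Sum.inl [] : LabF (Ty K)) := h55_one_fst hq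
      rw [h2] at h1
      cases h1
    · have h2 : q ∈ (Pre.nil K (LabF (Ty K))).c := hq
      cases h2
  | mk f sk hh =>
    have key : ∀ (G : Pre K (LabF (ULift.{u} ℕ)))
        (q : LabF (Ty K) × (Fin (G.mapL (LabF.map fun n : ULift.{u} ℕ => f n.down)).n → K)),
        q ∈ (G.mapL (LabF.map fun n : ULift.{u} ℕ => f n.down)).c → q.1 = .inr (.inr t') →
        t'.rank < (Ty.mk f sk hh).rank := by
      intro G q hq h1
      obtain ⟨q', -, rfl⟩ := List.mem_map.1 hq
      obtain ⟨l, v⟩ := q'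
      rcases l with a | ⟨a, w'⟩ | x
      · cases h1
      · cases h1
      · have h2 : (Sum.inr (Sum.inr (f x.down)) : LabF (Ty K)) = Sum.inr (Sum.inr t') := h1
        have h3 : f x.down = t' := Sum.inr.inj (Sum.inr.inj h2)
        rw [← h3]
        exact rank_lt f sk hh x.down
    obtain ⟨i, ⟨q, hq, h1⟩ | ⟨q, hq, h1⟩⟩ := h
    · exact key (sk i).E q hq h1
    · exact key (sk i).Kp q hq h1

theorem rank_of_transGen {t' t : Ty K} (h : Relation.TransGen Men t' t) :
    t'.rank < t.rank := by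
  induction h with
  | single h => exact rank_of_men h
  | tail _ h ih => exact ih.trans (rank_of_men h)

/-- Names which are mentioned in the positions of `t` have smaller rank. -/
theorem rank_of_nmPos {t : Ty K} {w : Ty K × ℕ} (h : ¬ CleanPos w t) :
    w.1.rank < t.rank := by
  unfold CleanPos at h
  push Not at h
  obtain ⟨i, hi⟩ := h
  cases t with
  | base =>
    exfalso
    have h1 : ¬ nmN w ((Ty.base : Ty K).pos i).a := by
      rintro ⟨j, hj⟩
      have : (w, j) ∈ ([] : NodeF (Ty K)) := hj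
      cases this
    have h2 : Clean w ((Ty.base : Ty K).pos i).E := h55_clean_one (l := (Sum.inl [] : LabF (Ty K))) h1
    refine hi h1 h2 ?_
    intro q hq
    have h3 : q ∈ ([] : List (LabF (Ty K) × (Fin 0 → K))) := hq
    cases h3
  | mk f sk hh =>
    have h1 : ∃ x : ULift.{u} ℕ, w.1 = f x.down := by
      by_cases ha : nmN w ((Ty.mk f sk hh).pos i).a
      · exact h55_rank_nmN (g := fun n : ULift.{u} ℕ => f n.down) ha
      · by_cases hE : Clean w ((Ty.mk f sk hh).pos i).E
        · exact h55_clean_map (g := fun n : ULift.{u} ℕ => f n.down) (G := (sk i).Kp) (hi ha hE)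
        · exact h55_clean_map (g := fun n : ULift.{u} ℕ => f n.down) (G := (sk i).E) hE
    obtain ⟨x, hx⟩ := h1
    rw [hx]
    exact rank_lt f sk hh x.down

theorem nm_inj {t t' : Ty K} (h : ∀ i₀ : ℕ, ∃ i, i₀ ≤ i ∧ t.nm i = t'.nm i) : t = t' := by
  have h' : ∀ i₀ : ℕ, ∃ i, i₀ ≤ i ∧ t.tr i = t'.tr i := by
    intro i₀
    obtain ⟨i, hi, h1⟩ := h i₀
    exact ⟨i, hi, congrArg Prod.fst h1⟩
  cases t with
  | base =>
    cases t' with
    | base => rfl
    | mk f' sk' hh' =>
      obtain ⟨i, -, h1⟩ := h' 0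
      have h2 : (Ty.base : Ty K) = Ty.mk f' sk' fun j => if j < i then hh' j else 0 := h1
      cases h2
  | mk f sk hh =>
    cases t' with
    | base =>
      obtain ⟨i, -, h1⟩ := h' 0
      have h2 : (Ty.mk f sk fun j => if j < i then hh j else 0) = (Ty.base : Ty K) := h1
      cases h2
    | mk f' sk' hh' =>
      have h2 : ∀ i₀ : ℕ, ∃ i, i₀ ≤ i ∧ f = f' ∧ sk = sk' ∧
          (fun j => if j < i then hh j else 0) = fun j => if j < i then hh' j else 0 := by
        intro i₀
        obtain ⟨i, hi, h1⟩ := h' i₀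
        have h3 : (Ty.mk f sk fun j => if j < i then hh j else 0) =
          Ty.mk f' sk' fun j => if j < i then hh' j else 0 := h1
        injection h3 with e1 e2 e3
        exact ⟨i, hi, e1, e2, e3⟩
      obtain ⟨-, -, e1, e2, -⟩ := h2 0
      have e3 : hh = hh' := by
        funext j
        obtain ⟨i, hi, -, -, h3⟩ := h2 (j + 1)
        have h4 := congrFun h3 j
        rwa [if_pos (by omega), if_pos (by omega)] at h4
      rw [e1, e2, e3]

/-- The private names of `t` are not mentioned in its positions. -/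
theorem cleanPos_self (t : Ty K) (i : ℕ) : CleanPos (t.nm i) t := by
  by_contra h
  have h1 := rank_of_nmPos h
  have h2 : (t.nm i).1.rank = t.rank := rank_tr t i
  rw [h2] at h1
  exact lt_irrefl _ h1

theorem h55_clean_sum {w : Ty K × ℕ} {G H : Pre K (LabF (Ty K))} (hG : Clean w G) (hH : Clean w H) :
    Clean w (G.sum H) := by
  intro q hq
  rcases Pre.mem_sum_c.1 hq with ⟨p, hp, rfl⟩ | ⟨p, hp, rfl⟩
  · exact hG p hp
  · exact hH p hp

theorem h55_clean_addc {w : Ty K × ℕ} {G : Pre K (LabF (Ty K))} (hG : Clean w G) {l : LabF (Ty K)}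
    (hl : ¬ nmL w l) (v : Fin G.n → K) : Clean w (G.addc l v) := by
  intro q hq
  have h1 : q ∈ G.c ++ [(l, v)] := hq
  rcases List.mem_append.1 h1 with h | h
  · exact hG q h
  · rw [List.mem_singleton] at h
    rw [h]
    exact hl

theorem h55_nmN_ch {w w' : Ty K × ℕ} {a : NodeF (Ty K)} (ha : ¬ nmN w a) (hw : w' ≠ w) (m : ℕ) :
    ¬ nmN w (chN a w' m) := by
  cases m with
  | zero => exact ha
  | succ m =>
    rintro ⟨j, hj⟩
    have h1 : (w, j) ∈ (w', m) :: a := hj
    rcases List.mem_cons.1 h1 with h | h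
    · exact hw (congrArg Prod.fst h).symm
    · exact ha ⟨j, h⟩

theorem clean_up {t : Ty K} {w : Ty K × ℕ} (hw : CleanPos w t) (j : ℕ)
    (hj : ∀ i, i < j → t.nm i ≠ w) {F : Fm K (CS K).L Unit} (hF : Clean w F.toPre) :
    Clean w ((ldC t).up j F).toPre := by
  induction j generalizing F with
  | zero => exact hF
  | succ j ih =>
    refine ih (fun i hi => hj i (by omega)) (F := (ldC t).gp j F) ?_
    have ha : ¬ nmN w (t.pos (j + 1)).a := (hw (j + 1)).1
    have hn : t.nm j ≠ w := hj j (by omega)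
    refine h55_clean_addc (h55_clean_addc (h55_clean_sum (h55_clean_sum (hw j).2.1 (hw j).2.2) hF) ?_ _) ?_ _
    · rintro (h | h)
      · exact ha h
      · exact hn h
    · exact h55_nmN_ch ha hn (t.ht j)

theorem clean_gm {t : Ty K} {w : Ty K × ℕ} (hw : CleanPos w t) {i : ℕ} (hi : t.nm i ≠ w) :
    Clean w ((ldC t).gm i).toPre := by
  have ha : ¬ nmN w (t.pos (i + 1)).a := (hw (i + 1)).1
  refine h55_clean_addc (h55_clean_addc (h55_clean_sum (hw i).2.1 (hw i).2.2) ?_ _) ?_ _
  · rintro (h | h)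
    · exact ha h
    · exact hi h
  · exact h55_nmN_ch ha hi (t.ht i + 1)

theorem h55_up_eq (t : Ty K) (n : ℕ) : ∀ F : Fm K (LabF (Ty K)) Unit,
    (ldOf t).up n F = (ldC t).up n F := by
  induction n with
  | zero => intro F; rfl
  | succ n ih => intro F; exact ih _

/-- The formulas of the system are those of the limit data. -/
theorem cs_U (t : Ty K) (n : ℕ) : (CS K).U (.inr t) n = (ldC t).U n :=
  h55_up_eq t n _

theorem cs_D (t : Ty K) (n : ℕ) : (CS K).D (.inr t) n = (ldC t).D n :=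
  h55_up_eq t n _

theorem cs_Z (t : Ty K) (n : ℕ) : (CS K).Z (.inr t) n = (ldC t).Z n :=
  h55_up_eq t n _

theorem h55_clean_zero (w : Ty K × ℕ) : Clean w (Fm.zero K (LabF (Ty K))).toPre := by
  intro q hq
  have h : q ∈ ([] : List (LabF (Ty K) × (Fin 0 → K))) := hq
  cases h

theorem h55_clean_labFm {w : Ty K × ℕ} {a : NodeF (Ty K)} (ha : ¬ nmN w a) :
    Clean w (labFm K (Sum.inl a : LabF (Ty K))).toPre :=
  h55_clean_one (l := (Sum.inl a : LabF (Ty K))) ha

/-- The formulas of the limit type `t'` do not mention `w`. -/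
theorem clean_XY {t' : Ty K} {w : Ty K × ℕ} (hw : CleanPos w t') (hn : ∀ i, t'.nm i ≠ w)
    (r : Rl) : Clean w ((CS K).X (.inr t') r).toPre ∧ Clean w ((CS K).Y (.inr t') r).toPre := by
  have hU : ∀ n, Clean w ((CS K).U (.inr t') n).toPre := by
    intro n
    rw [cs_U]
    exact clean_up hw n (fun i _ => hn i) (h55_clean_labFm (hw n).1)
  have hD : ∀ n, Clean w ((CS K).D (.inr t') n).toPre := by
    intro n
    rw [cs_D]
    exact clean_up hw n (fun i _ => hn i) (clean_gm hw (hn n))
  have hZ : ∀ n, Clean w ((CS K).Z (.inr t') n).toPre := by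
    intro n
    rw [cs_Z]
    exact clean_up hw n (fun i _ => hn i) (h55_clean_zero w)
  rcases r with n | l
  · cases n with
    | zero => exact ⟨h55_clean_zero w, hU 0⟩
    | succ n => exact ⟨hU n, hU (n + 1)⟩
  · exact ⟨hD l, hZ l⟩

/-- The formulas of the limit types of smaller rank do not mention `t.nm i`. -/
theorem clean_of_rank {t t' : Ty K} (h : t'.rank < t.rank) (i : ℕ) (r : Rl) :
    Clean (t.nm i) ((CS K).X (.inr t') r).toPre ∧
      Clean (t.nm i) ((CS K).Y (.inr t') r).toPre := by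
  have hr : (t.nm i).1.rank = t.rank := rank_tr t i
  refine clean_XY ?_ ?_ r
  · by_contra hcon
    have h1 := rank_of_nmPos hcon
    rw [hr] at h1
    exact lt_irrefl _ (h1.trans h)
  · intro j hj
    have h1 : (t'.nm j).1.rank = t'.rank := rank_tr t' j
    rw [hj, hr] at h1
    exact lt_irrefl _ (h1 ▸ h)

/-- For a different limit type of the same rank, from some `i` on. -/
theorem clean_of_ne {t t' : Ty K} (h : t'.rank = t.rank) (hne : t' ≠ t) :
    ∃ i₁ : ℕ, ∀ i, i₁ ≤ i → ∀ r, Clean (t.nm i) ((CS K).X (.inr t') r).toPre ∧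
      Clean (t.nm i) ((CS K).Y (.inr t') r).toPre := by
  have h1 : ¬ ∀ i₀ : ℕ, ∃ i, i₀ ≤ i ∧ t'.nm i = t.nm i := fun hcon => hne (nm_inj hcon)
  push Not at h1
  obtain ⟨i₁, h2⟩ := h1
  refine ⟨i₁, fun i hi r => clean_XY ?_ ?_ r⟩
  · by_contra hcon
    have h3 := rank_of_nmPos hcon
    have hr : (t.nm i).1.rank = t.rank := rank_tr t i
    rw [hr, h] at h3
    exact lt_irrefl _ h3
  · intro j hj
    have h3 : j = i := congrArg Prod.snd hj
    subst h3
    exact h2 j hi hj

theorem isDummy_cs (a : NodeF (Ty K)) (w : Ty K × ℕ) :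
    IsDummy (CS K) (.inl (a, w)) (chN a w) where
  U _ := rfl
  D _ := rfl
  Z _ := rfl
  le m := by
    refine ⟨1, ?_⟩
    cases m with
    | zero => rfl
    | succ m => rfl

theorem h55_finite_nmN (t : Ty K) (a : NodeF (Ty K)) : {i : ℕ | nmN (t.nm i) a}.Finite := by
  refine (List.finite_toSet (List.map (fun p : (Ty K × ℕ) × ℕ => p.1.2) a)).subset ?_
  rintro i ⟨j, hj⟩
  exact List.mem_map.2 ⟨(t.nm i, j), hj, rfl⟩

theorem h55_finite_nmL (t : Ty K) (l : LabF (Ty K)) : {i : ℕ | nmL (t.nm i) l}.Finite := by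
  rcases l with a | ⟨a, w⟩ | x
  · exact h55_finite_nmN t a
  · refine ((h55_finite_nmN t a).union (Set.finite_singleton w.2)).subset ?_
    rintro i (h | h)
    · exact Or.inl h
    · right
      rw [Set.mem_singleton_iff, h]
      rfl
  · refine Set.finite_empty.subset ?_
    intro i h
    exact h.elim

/-- A finite set of labels mentions only finitely many of the names `t.nm i`. -/
theorem finite_nm (t : Ty K) (A : Set (LabF (Ty K))) (hA : A.Finite) :
    ∃ i₁ : ℕ, ∀ i, i₁ ≤ i → ∀ l ∈ A, ¬ nmL (t.nm i) l := by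
  have h1 : (⋃ l ∈ A, {i : ℕ | nmL (t.nm i) l}).Finite := hA.biUnion fun l _ => h55_finite_nmL t l
  obtain ⟨b, hb⟩ := h1.bddAbove
  refine ⟨b + 1, fun i hi l hl hn => ?_⟩
  have h2 : i ≤ b := hb (Set.mem_biUnion hl hn)
  omega

end Pool.Agent.Helper13.SDW
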