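import Pool.Agent.Helper13.SDW.NiceStep

/-!
# BLOCK SDW-REACH: the set `Reach` (about 150 lines)

* `Reach.le`: induction, `tens` contains `0`.
* `Reach.directed`: induction on the second derivation: `(ρ, r)` legal for `R` is legal for
  every `R₃ ≥ R`; `sumF R (tens ρ X) ≤ sumF R₃ (tens ρ X)`.
* `Cf T F₁ R = {ρ | ρ ⊗ F₁ ≤ R in FF_T}` is a subspace of `κ → K` for definable `R`, monotone in
  `R`; finite dimensional, so there is `R₁ ∈ Reach` with `Cf T F₁ R₁` of maximal dimension, and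
  by directedness `Cf T F₁ R ≤ Cf T F₁ R₁` for all `R ∈ Reach`. For finitely many `F₁` at the same time
  (`exists_max`): directedness again.
* `reach_u`: if `(ρ, u n)` is legal for `R ∈ Reach` then there is `R' ∈ Reach`, `R ≤ R'`, with
  `ρ ⊗ U_0 ≤ R'`: add `X_{u n} = U_{n-1}`, then `U_{n-2}`, ..., `U_0` (induction on `n`; for `n = 0` take
  `R' = R`: `Y_{u 0} = U_0`).
-/

namespace Pool.Agent.Helper13.SDW

universe u

variable {K : Type u} [Field K] {S : Sys K} {G : Set S.Tp} {B : S.Tp → Set S.Tp}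
  {T : Set S.Tp} {τ : S.Tp} {κ : Type} {P : SF K S.L κ}

/-- The coefficients `ρ` with `ρ ⊗ F₁ ≤ R` in `FF_T`. -/
def Cf (S : Sys K) (T : Set S.Tp) {κ : Type} (F₁ : SF1 K S.L) (R : SF K S.L κ) : Set (κ → K) :=
  {ρ | ∀ M : Obj K S.L, S.FF T M → ∀ x : M, F₁ M x → R M (fun k => ρ k • x)}

namespace ReachAux

theorem s1_zero {L : Type u} (φ : Fm K L Unit) (M : Obj K L) : φ.S1 M 0 :=
  ⟨fun _ => 0, fun q _ => by rw [lin_zero]; exact (M.P q.1).zero_mem,
    fun _ => (lin_zero _).symm⟩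

theorem le_sumF {R : SF K S.L κ} (ρ : κ → K) (φ : Fm K S.L Unit) (M : Obj K S.L) (y : κ → M)
    (hy : R M y) : sumF R (tens ρ φ.S1) M y :=
  ⟨y, fun _ => 0, hy, ⟨0, s1_zero φ M, fun _ => (smul_zero _).symm⟩, fun _ => (add_zero _).symm⟩

theorem legal_mono {R R' : SF K S.L κ} {ρ : κ → K} {r : Rl} (h : S.Legal T τ R ρ r)
    (hR : ∀ (M : Obj K S.L) (y : κ → M), R M y → R' M y) : S.Legal T τ R' ρ r :=
  fun M hM y hy => hR M _ (h M hM y hy)

theorem Cf_mono {F₁ : SF1 K S.L} {R R' : SF K S.L κ}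
    (hR : ∀ (M : Obj K S.L) (y : κ → M), R M y → R' M y) : Cf S T F₁ R ⊆ Cf S T F₁ R' :=
  fun _ hρ M hM x hx => hR M _ (hρ M hM x hx)

/-- the coefficients form a subspace -/
def CfS (S : Sys K) (T : Set S.Tp) {κ : Type} {Λ : Set S.L} (F₁ : SF1 K S.L) {R : SF K S.L κ}
    (hR : IsDef Λ R) : Submodule K (κ → K) where
  carrier := Cf S T F₁ R
  add_mem' := by
    intro a b ha hb M hM x hx
    have := hR.add_mem (ha M hM x hx) (hb M hM x hx)
    have e : (fun k => (a + b) k • x) = fun k => a k • x + b k • x := by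
      funext k; rw [Pi.add_apply, add_smul]
    rw [e]; exact this
  zero_mem' := by
    intro M hM x hx
    have := hR.zero_mem M
    have e : (fun k => (0 : κ → K) k • x) = fun _ => (0 : M) := by
      funext k; rw [Pi.zero_apply, zero_smul]
    rw [e]; exact this
  smul_mem' := by
    intro c a ha M hM x hx
    have := hR.smul_mem c (ha M hM x hx)
    have e : (fun k => (c • a) k • x) = fun k => c • (a k • x) := by
      funext k; rw [Pi.smul_apply, smul_eq_mul, mul_smul]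
    rw [e]; exact this

end ReachAux

open ReachAux

theorem Reach.le {R : SF K S.L κ} (hR : S.Reach T τ P R) (M : Obj K S.L) (y : κ → M)
    (hy : P M y) : R M y := by
  induction hR with
  | base => exact hy
  | step ρ r _ _ _ ih => exact le_sumF ρ _ M y ih

theorem Reach.trans {R R' : SF K S.L κ} (hR : S.Reach T τ P R) (hR' : S.Reach T τ R R') :
    S.Reach T τ P R' := by
  induction hR' with
  | base => exact hR
  | step ρ r _ hl hr ih => exact Sys.Reach.step ρ r ih hl hr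

theorem Reach.directed {R₁ R₂ : SF K S.L κ} (h₁ : S.Reach T τ P R₁)
    (h₂ : S.Reach T τ P R₂) :
    ∃ R₃, S.Reach T τ P R₃ ∧ S.Reach T τ R₁ R₃ ∧
      ∀ (M : Obj K S.L) (y : κ → M), R₁ M y ∨ R₂ M y → R₃ M y := by
  induction h₂ with
  | base =>
    refine ⟨R₁, h₁, Sys.Reach.base, ?_⟩
    rintro M y (hy | hy)
    · exact hy
    · exact Reach.le h₁ M y hy
  | step ρ r _ hl hr ih =>
    obtain ⟨R₃, h3, h13, hle⟩ := ih
    have hl3 : S.Legal T τ R₃ ρ r := legal_mono hl fun M y hy => hle M y (Or.inr hy)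
    refine ⟨sumF R₃ (tens ρ (S.X τ r).S1), Sys.Reach.step ρ r h3 hl3 hr,
      Sys.Reach.step ρ r h13 hl3 hr, ?_⟩
    rintro M y (hy | hy)
    · exact le_sumF ρ _ M y (hle M y (Or.inl hy))
    · obtain ⟨a, b, ha, hb, hab⟩ := hy
      exact ⟨a, b, hle M a (Or.inr ha), hb, hab⟩

theorem Reach.exists_max (h : S.OK G B) (hτ : τ ∈ G) (hB : B τ ⊆ T) [Fintype κ]
    (hP : IsDef (S.lab T) P) (Fs : Set (SF1 K S.L)) (hFs : Fs.Finite) :
    ∃ R₁, S.Reach T τ P R₁ ∧ ∀ F₁ ∈ Fs, ∀ R, S.Reach T τ P R → Cf S T F₁ R ⊆ Cf S T F₁ R₁ := by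
  have one : ∀ F₁ : SF1 K S.L, ∃ R₁, S.Reach T τ P R₁ ∧
      ∀ R, S.Reach T τ P R → Cf S T F₁ R ⊆ Cf S T F₁ R₁ := by
    intro F₁
    have hwf : WellFounded ((· > ·) : Submodule K (κ → K) → Submodule K (κ → K) → Prop) :=
      wellFounded_gt
    obtain ⟨N, ⟨R₁, hR₁, hN⟩, hmax⟩ := hwf.has_min
      {N : Submodule K (κ → K) | ∃ R, S.Reach T τ P R ∧ (N : Set (κ → K)) = Cf S T F₁ R}
      ⟨CfS S T F₁ hP, P, Sys.Reach.base, rfl⟩
    refine ⟨R₁, hR₁, ?_⟩
    intro R hR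
    obtain ⟨R₃, h3, -, hle⟩ := Reach.directed hR₁ hR
    have hd3 := Reach.isDef h hτ hB hP h3
    have hnot := hmax (CfS S T F₁ hd3) ⟨R₃, h3, rfl⟩
    have hsub : N ≤ CfS S T F₁ hd3 := by
      intro ρ hρ
      have h1 : ρ ∈ (N : Set (κ → K)) := hρ
      rw [hN] at h1
      exact Cf_mono (fun M y hy => hle M y (Or.inl hy)) h1
    have heq : N = CfS S T F₁ hd3 := by
      by_contra hne
      exact hnot (lt_of_le_of_ne hsub hne)
    intro ρ hρ
    have h2 : ρ ∈ CfS S T F₁ hd3 := Cf_mono (fun M y hy => hle M y (Or.inr hy)) hρ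
    rw [← heq] at h2
    rw [← hN]
    exact h2
  induction Fs, hFs using Set.Finite.induction_on with
  | empty => exact ⟨P, Sys.Reach.base, fun F₁ hF => absurd hF (Set.notMem_empty _)⟩
  | insert _ _ ih =>
    rename_i F Fs _ _
    obtain ⟨R₁, h1, h1'⟩ := ih
    obtain ⟨R₂, h2, h2'⟩ := one F
    obtain ⟨R₃, h3, -, hle⟩ := Reach.directed h1 h2
    refine ⟨R₃, h3, ?_⟩
    intro F₁ hF R hR
    rcases hF with rfl | hF
    · exact (h2' R hR).trans (Cf_mono fun M y hy => hle M y (Or.inr hy))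
    · exact (h1' F₁ hF R hR).trans (Cf_mono fun M y hy => hle M y (Or.inl hy))

theorem reach_u (h : S.OK G B) (hτ : τ ∈ G) (hB : B τ ⊆ T) {R : SF K S.L κ}
    (hR : S.Reach T τ P R) {ρ : κ → K} {n : ℕ} (hleg : S.Legal T τ R ρ (.u n)) :
    ∃ R', S.Reach T τ P R' ∧ ρ ∈ Cf S T (S.U τ 0).S1 R' := by
  induction n generalizing R with
  | zero => exact ⟨R, hR, fun M hM x hx => hleg M hM x hx⟩
  | succ n ih =>
    refine ih (R := sumF R (tens ρ (S.X τ (.u (n + 1))).S1))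
      (Sys.Reach.step ρ (.u (n + 1)) hR hleg (by simp)) ?_
    intro M hM y hy
    have h0 := hleg M hM 0 (s1_zero _ M)
    exact ⟨fun k => ρ k • (0 : M), fun k => ρ k • y, h0, ⟨y, hy, fun k => rfl⟩,
      fun k => by
        change ρ k • y = ρ k • (0 : M) + ρ k • y
        rw [smul_zero, zero_add]⟩

end Pool.Agent.Helper13.SDW
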