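import Pool.Agent.Helper13.SDW.Rank

/-!
# BLOCK SDW-TR: truncations of structures (about 200 lines)

`trO w m M`: `P_a = 0` if the node `a` has an entry `(w, j)` with `j ≥ m`, otherwise `P_{a minus the entries of w}(M)`;
for the dummies `(a, w)`: the same as `P_a`; for the dummies `(a, w')`, `w' ≠ w`: `0` if `a` has an entry `(w, j)`, `j ≥ m`,
otherwise `V_{(a minus w, w')}(M)`; for limit types unchanged.
* `trO_ff`: root: `[]`. Parents: `a = (w', j) :: b`; the parent is `(w', j - 1) :: b` or `b`; if `w' = w` both have the same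
  filtered list, if the parent has an entry `(w, j') , j' ≥ m`, so has `a`. Density for `(a, w)`: `X_r ≤ P_a(M°) = V(M°)`
  (`X_{u (n+1)} = chN a w n ≤ a`), so `x = x + 0`. Density for `(a, w')`, `w' ≠ w`: if `a` has an entry `(w, j)`, `j ≥ m`, everything is `0`;
  otherwise `chN a w' n` has the filtered list `chN (filter a) w' n`, so it is the density of the dummy `(filter a, w')`
  in `M` (all dummies are in `T`). `X_{d l} = 0`. Density for limit types: their formulas do not mention `w`, so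
  they have the same values in `M` and `M°` (`trO_clean`), and `V_t` is unchanged.
* `trO_clean`: for a label `l` which does not mention `w`: `P_l(M°) = P_l(M)` (the filter does not change the node).
* `trO_U`: let `t ≠ base`, `X = ldC t`, `w = t.nm i`, `m = t.ht i`. `U_0` mentions only `a 0`. `D l` for `l < i` does not mention `w`
  (`clean_up`, `clean_gm`; the private names `t.nm j`, `j < i`, differ from `w` in the second component). For `l = i`:
  `gm i`: `Bc i (m i + 1)` has the entry `(w, m)`, so it is `0` in `M°`; so `(gm i)(M°) = Γ_i(0)(M) ⊆ (gm i)(M)`, and `up i` is clean: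
  use `up_iff` and that `upR i` is the same in `M` and `M°` (definable over labels which do not mention `w`; or show
  directly by induction on `j ≤ i` that `upR j M° x y ↔ upR j M x y`). `U_{i+1}(M) ⊆ Z_{i+1}(M°)`: `Bc i (m i)` is `a (i+1)` (if `m i = 0`) or has only the
  entry `(w, m i - 1)` with `m i - 1 < m`; so `V_ξ(M°) ∩ P_{Bc i (m i)}(M°) = P_{a (i+1)}(M)`. For `y ∈ U_{i+1}(M)`:
  `x ∈ P_{a (i+1)}(M)`, `x' - x ∈ Δ_i(M) ≤ P_{a (i+1)}(M)`, `Γ_i(x', x₁)`, `upR i x₁ y`; in `M°`: `x' - 0 ∈ V_ξ ∩ Bc i (m i)`.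
-/

namespace Pool.Agent.Helper13.SDW

universe u

variable {K : Type u} [Field K]

open Classical in
/-- The truncation of the subspaces. -/
noncomputable def trP {M : Type u} [AddCommGroup M] [Module K M] (w : Ty K × ℕ) (m : ℕ)
    (P : LabF (Ty K) → Submodule K M) : LabF (Ty K) → Submodule K M
  | .inl a => if ∃ j, m ≤ j ∧ (w, j) ∈ a then ⊥
      else P (.inl (List.filter (fun p => decide (p.1 ≠ w)) a))
  | .inr (.inl (a, w')) => if ∃ j, m ≤ j ∧ (w, j) ∈ a then ⊥
      else if w' = w then P (.inl (List.filter (fun p => decide (p.1 ≠ w)) a))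
      else P (.inr (.inl (List.filter (fun p => decide (p.1 ≠ w)) a, w')))
  | .inr (.inr t) => P (.inr (.inr t))

/-- The truncation of a structure. -/
noncomputable def trO (w : Ty K × ℕ) (m : ℕ) (M : Obj K (CS K).L) : Obj K (CS K).L where
  carrier := M
  P := trP w m M.P

open Classical in
/-- The node without the entries of `w`. -/
private noncomputable def fil (w : Ty K × ℕ) (a : NodeF (Ty K)) : NodeF (Ty K) :=
  List.filter (fun p => decide (p.1 ≠ w)) a

private theorem fil_nil (w : Ty K × ℕ) : fil w [] = [] := rfl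

private theorem fil_eq {w : Ty K × ℕ} {p : (Ty K × ℕ) × ℕ} {b : NodeF (Ty K)} (h : p.1 = w) :
    fil w (p :: b) = fil w b := by
  classical
  unfold fil
  rw [List.filter_cons_of_neg]
  rw [decide_eq_true_eq]
  exact fun h' => h' h

private theorem fil_ne {w : Ty K × ℕ} {p : (Ty K × ℕ) × ℕ} {b : NodeF (Ty K)} (h : p.1 ≠ w) :
    fil w (p :: b) = p :: fil w b := by
  classical
  unfold fil
  rw [List.filter_cons_of_pos]
  rw [decide_eq_true_eq]
  exact h

private theorem fil_self {w : Ty K × ℕ} {a : NodeF (Ty K)} (h : ¬ nmN w a) : fil w a = a := by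
  classical
  unfold fil
  refine List.filter_eq_self.2 fun p hp => ?_
  rw [decide_eq_true_eq]
  rintro rfl
  exact h ⟨p.2, hp⟩

section
variable {M : Type u} [AddCommGroup M] [Module K M] {w : Ty K × ℕ} {m : ℕ}
  {P : LabF (Ty K) → Submodule K M}

private theorem trP_pos {a : NodeF (Ty K)} (h : ∃ j, m ≤ j ∧ (w, j) ∈ a) :
    trP w m P (.inl a) = ⊥ := by
  rw [trP]; exact if_pos h

private theorem trP_neg {a : NodeF (Ty K)} (h : ¬ ∃ j, m ≤ j ∧ (w, j) ∈ a) :
    trP w m P (.inl a) = P (.inl (fil w a)) := by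
  rw [trP]; exact if_neg h

private theorem trP_dpos {a : NodeF (Ty K)} {w' : Ty K × ℕ} (h : ∃ j, m ≤ j ∧ (w, j) ∈ a) :
    trP w m P (.inr (.inl (a, w'))) = ⊥ := by
  rw [trP]; exact if_pos h

private theorem trP_deq {a : NodeF (Ty K)} {w' : Ty K × ℕ} (h : ¬ ∃ j, m ≤ j ∧ (w, j) ∈ a)
    (hw : w' = w) : trP w m P (.inr (.inl (a, w'))) = P (.inl (fil w a)) := by
  rw [trP]; exact (if_neg h).trans (if_pos hw)

private theorem trP_dne {a : NodeF (Ty K)} {w' : Ty K × ℕ} (h : ¬ ∃ j, m ≤ j ∧ (w, j) ∈ a)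
    (hw : w' ≠ w) : trP w m P (.inr (.inl (a, w'))) = P (.inr (.inl (fil w a, w'))) := by
  rw [trP]; exact (if_neg h).trans (if_neg hw)

end

theorem trO_P (w : Ty K × ℕ) (m : ℕ) (M : Obj K (CS K).L) {l : (CS K).L} (hl : ¬ nmL w l) :
    (trO w m M).P l = M.P l := by
  match l, hl with
  | .inl a, hl =>
    have hl' : ¬ nmN w a := hl
    have h1 : trP w m M.P (.inl a) = M.P (.inl (fil w a)) :=
      trP_neg fun ⟨j, _, hj⟩ => hl' ⟨j, hj⟩
    rw [fil_self hl'] at h1
    exact h1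
  | .inr (.inl (a, w')), hl =>
    have hl' : ¬ (nmN w a ∨ w' = w) := hl
    have h1 : trP w m M.P (.inr (.inl (a, w'))) = M.P (.inr (.inl (fil w a, w'))) :=
      trP_dne (fun ⟨j, _, hj⟩ => hl' (Or.inl ⟨j, hj⟩)) fun h => hl' (Or.inr h)
    rw [fil_self fun h => hl' (Or.inl h)] at h1
    exact h1
  | .inr (.inr t), _ => rfl

/-- Formulas which do not mention `w` have the same values in `M` and in the truncation. -/
theorem trO_S1 {w : Ty K × ℕ} (m : ℕ) (M : Obj K (CS K).L) {φ : Fm K (CS K).L Unit}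
    (hφ : Clean w φ.toPre) (x : M) : φ.S1 (trO w m M) x ↔ φ.S1 M x := by
  constructor
  · rintro ⟨z, hz, hx⟩
    refine ⟨z, fun q hq => ?_, hx⟩
    have h1 := hz q hq
    rw [trO_P w m M (hφ q hq)] at h1
    exact h1
  · rintro ⟨z, hz, hx⟩
    refine ⟨z, fun q hq => ?_, hx⟩
    rw [trO_P w m M (hφ q hq)]
    exact hz q hq

theorem trO_clean {κ : Type} {w : Ty K × ℕ} (m : ℕ) (M : Obj K (CS K).L)
    {F : SF K (CS K).L κ} (hF : IsDef {l | ¬ nmL w l} F) (y : κ → M) :
    F (trO w m M) y ↔ F M y := by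
  obtain ⟨φ, h1, h2⟩ := hF
  rw [h2 (trO w m M) y, h2 M y]
  constructor
  · rintro ⟨z, hz, he, hx⟩
    refine ⟨z, fun q hq => ?_, he, hx⟩
    have h3 := hz q hq
    rw [trO_P w m M (h1 q hq)] at h3
    exact h3
  · rintro ⟨z, hz, he, hx⟩
    refine ⟨z, fun q hq => ?_, he, hx⟩
    rw [trO_P w m M (h1 q hq)]
    exact hz q hq

private theorem trP_par {M : Type u} [AddCommGroup M] [Module K M] (w : Ty K × ℕ) (m : ℕ)
    {P : LabF (Ty K) → Submodule K M}
    (hP : ∀ a : NodeF (Ty K), P (.inl a) ≤ P (.inl (parN K a))) (a : NodeF (Ty K)) :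
    trP w m P (.inl a) ≤ trP w m P (.inl (parN K a)) := by
  by_cases h1 : ∃ j, m ≤ j ∧ (w, j) ∈ a
  · rw [trP_pos h1]
    exact bot_le
  match a, h1 with
  | [], _ => exact le_rfl
  | (w', 0) :: b, h1 =>
    have h2 : parN K ((w', 0) :: b) = b := rfl
    have h3 : ¬ ∃ j, m ≤ j ∧ (w, j) ∈ b :=
      fun ⟨j, hj, hj'⟩ => h1 ⟨j, hj, List.mem_cons_of_mem _ hj'⟩
    rw [h2, trP_neg h1, trP_neg h3]
    by_cases hw : w' = w
    · rw [fil_eq (p := (w', 0)) hw]
    · rw [fil_ne (p := (w', 0)) hw]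
      exact hP _
  | (w', k + 1) :: b, h1 =>
    have h2 : parN K ((w', k + 1) :: b) = (w', k) :: b := rfl
    have h3 : ¬ ∃ j, m ≤ j ∧ (w, j) ∈ ((w', k) :: b : NodeF (Ty K)) := by
      rintro ⟨j, hj, hj'⟩
      rcases List.mem_cons.1 hj' with h4 | h4
      · obtain ⟨h5, h6⟩ := Prod.mk.inj h4
        exact h1 ⟨k + 1, by omega, by rw [h5]; exact List.mem_cons_self⟩
      · exact h1 ⟨j, hj, List.mem_cons_of_mem _ h4⟩
    rw [h2, trP_neg h1, trP_neg h3]
    by_cases hw : w' = w
    · rw [fil_eq (p := (w', k + 1)) hw, fil_eq (p := (w', k)) hw]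
    · rw [fil_ne (p := (w', k + 1)) hw, fil_ne (p := (w', k)) hw]
      exact hP _

theorem trO_ff {T : Set (CS K).Tp} (hd : Dum K ⊆ T) {w : Ty K × ℕ}
    (hT : ∀ t, .inr t ∈ T → ∀ r, Clean w ((CS K).X (.inr t) r).toPre ∧
      Clean w ((CS K).Y (.inr t) r).toPre) (m : ℕ) {M : Obj K (CS K).L}
    (hM : (CS K).FF T M) : (CS K).FF T (trO w m M) := by
  refine ⟨⟨?_, ?_⟩, ?_⟩
  · have h1 : trP w m M.P (.inl []) = M.P (.inl (fil w [])) :=
      trP_neg (by rintro ⟨j, _, hj⟩; exact List.not_mem_nil hj)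
    exact h1.trans hM.root
  · intro a
    exact trP_par w m hM.par a
  · intro τ hτ r x hx
    match τ, hτ with
    | .inr t, hτ =>
      obtain ⟨h1, h2⟩ := hT t hτ r
      obtain ⟨v, hv, y, hy, hxy⟩ := hM.dens (.inr t) hτ r x ((trO_S1 m M h1 x).1 hx)
      exact ⟨v, hv, y, (trO_S1 m M h2 y).2 hy, hxy⟩
    | .inl (a, w'), _ =>
      match r, hx with
      | .d l, hx =>
        have h1 : x = 0 := (zero_iff (S := CS K) (trO w m M) x).1 hx
        exact ⟨0, Submodule.zero_mem _, 0, (zero_iff (S := CS K) (trO w m M) 0).2 rfl, by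
          rw [h1, add_zero]⟩
      | .u 0, hx =>
        have h1 : x = 0 := (zero_iff (S := CS K) (trO w m M) x).1 hx
        exact ⟨0, Submodule.zero_mem _, 0,
          (labFm_iff (S := CS K) (.inl (chN a w' 0)) (trO w m M) 0).2 (Submodule.zero_mem _), by
          rw [h1, add_zero]⟩
      | .u (n + 1), hx =>
        have h1 : x ∈ trP w m M.P (.inl (chN a w' n)) :=
          (labFm_iff (S := CS K) (.inl (chN a w' n)) (trO w m M) x).1 hx
        suffices hs : ∃ v ∈ trP w m M.P (.inr (.inl (a, w'))),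
            ∃ y ∈ trP w m M.P (.inl (chN a w' (n + 1))), x = v + y by
          obtain ⟨v, hv, y, hy, hxy⟩ := hs
          exact ⟨v, hv, y,
            (labFm_iff (S := CS K) (.inl (chN a w' (n + 1))) (trO w m M) y).2 hy, hxy⟩
        by_cases h2 : ∃ j, m ≤ j ∧ (w, j) ∈ a
        · have hsub : ∃ j, m ≤ j ∧ (w, j) ∈ chN a w' n := by
            obtain ⟨j, hj, hj'⟩ := h2
            refine ⟨j, hj, ?_⟩
            match n with
            | 0 => exact hj'
            | k + 1 => exact List.mem_cons_of_mem _ hj'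
          rw [trP_pos hsub] at h1
          have h3 : x = 0 := h1
          exact ⟨0, Submodule.zero_mem _, 0, Submodule.zero_mem _, h3.trans (add_zero _).symm⟩
        by_cases hw : w' = w
        · rw [trP_deq h2 hw]
          refine ⟨x, ?_, 0, Submodule.zero_mem _, by rw [add_zero]⟩
          by_cases h3 : ∃ j, m ≤ j ∧ (w, j) ∈ chN a w' n
          · rw [trP_pos h3] at h1
            have h4 : x = 0 := h1
            rw [h4]
            exact Submodule.zero_mem _
          · rw [trP_neg h3] at h1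
            match n, h1 with
            | 0, h1 => exact h1
            | k + 1, h1 =>
              have h4 : chN a w' (k + 1) = (w', k) :: a := rfl
              rw [h4, fil_eq (p := (w', k)) hw] at h1
              exact h1
        · have hiff : ∀ k, (¬ ∃ j, m ≤ j ∧ (w, j) ∈ chN a w' k) := by
            intro k
            match k with
            | 0 => exact h2
            | k + 1 =>
              rintro ⟨j, hj, hj'⟩
              rcases List.mem_cons.1 hj' with h4 | h4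
              · exact hw (Prod.mk.inj h4).1.symm
              · exact h2 ⟨j, hj, h4⟩
          have hfil : ∀ k, fil w (chN a w' k) = chN (fil w a) w' k := by
            intro k
            match k with
            | 0 => rfl
            | k + 1 => exact fil_ne (p := (w', k)) hw
          rw [trP_neg (hiff n), hfil] at h1
          obtain ⟨v, hv, y, hy, hxy⟩ := hM.dens (.inl (fil w a, w')) (hd ⟨_, _, rfl⟩) (.u (n + 1)) x
            ((labFm_iff (S := CS K) (.inl (chN (fil w a) w' n)) M x).2 h1)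
          refine ⟨v, ?_, y, ?_, hxy⟩
          · rw [trP_dne h2 hw]
            exact hv
          · rw [trP_neg (hiff (n + 1)), hfil]
            exact (labFm_iff (S := CS K) (.inl (chN (fil w a) w' (n + 1))) M y).1 hy

private theorem tr2_hom {w : Ty K × ℕ} (m : ℕ) (M : Obj K (CS K).L) {G : Pre K (CS K).L}
    (hG : Clean w G) (z : Fin G.n → M) : G.Hom (trO w m M) z ↔ G.Hom M z := by
  constructor
  · intro h q hq
    have h1 := h q hq
    rw [trO_P w m M (hG q hq)] at h1
    exact h1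
  · intro h q hq
    have h1 := h q hq
    rw [← trO_P w m M (hG q hq)] at h1
    exact h1

private theorem tr2_S1 {w : Ty K × ℕ} (m : ℕ) (M : Obj K (CS K).L) {F : Fm K (CS K).L Unit}
    (hF : Clean w F.toPre) (x : M) : F.S1 (trO w m M) x ↔ F.S1 M x := by
  constructor
  · rintro ⟨z, hz, hx⟩
    exact ⟨z, (tr2_hom m M hF z).1 hz, hx⟩
  · rintro ⟨z, hz, hx⟩
    exact ⟨z, (tr2_hom m M hF z).2 hz, hx⟩

private theorem tr2_Gam {w : Ty K × ℕ} (m : ℕ) (M : Obj K (CS K).L) {t : Ty K}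
    (hw : CleanPos w t) (i : ℕ) (x y : M) :
    (ldC t).Gam i (trO w m M) x y ↔ (ldC t).Gam i M x y := by
  constructor
  · rintro ⟨z, hz, hx, z', hz', hy⟩
    exact ⟨z, (tr2_hom m M (hw i).2.1 z).1 hz, hx, z', (tr2_hom m M (hw i).2.2 z').1 hz', hy⟩
  · rintro ⟨z, hz, hx, z', hz', hy⟩
    exact ⟨z, (tr2_hom m M (hw i).2.1 z).2 hz, hx, z', (tr2_hom m M (hw i).2.2 z').2 hz', hy⟩

omit [Field K] in
private theorem tr2_nm_ne (t : Ty K) {i j : ℕ} (h : j ≠ i) : t.nm j ≠ t.nm i := by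
  intro h1
  exact h (congrArg Prod.snd h1)

omit [Field K] in
private theorem tr2_chN {w w' : Ty K × ℕ} {a : NodeF (Ty K)} (ha : ¬ nmN w a) (hw : w' ≠ w)
    (n : ℕ) : ¬ nmN w (chN a w' n) := by
  cases n with
  | zero => exact ha
  | succ n =>
    rintro ⟨j, hj⟩
    have h1 : (w, j) ∈ (w', n) :: a := hj
    rcases List.mem_cons.1 h1 with h2 | h2
    · exact hw (congrArg Prod.fst h2).symm
    · exact ha ⟨j, h2⟩

private theorem tr2_upR {w : Ty K × ℕ} (m : ℕ) (M : Obj K (CS K).L) {t : Ty K}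
    (hw : CleanPos w t) (j : ℕ) (hj : ∀ i, i < j → t.nm i ≠ w) (x y : M) :
    (ldC t).upR j (trO w m M) x y ↔ (ldC t).upR j M x y := by
  induction j generalizing x y with
  | zero => exact Iff.rfl
  | succ j ih =>
    have h1 : (trO w m M).P (.inr ((ldC t).ξ j)) = M.P (.inr ((ldC t).ξ j)) := by
      refine trO_P w m M (l := .inr ((ldC t).ξ j)) ?_
      rintro (h | h)
      · exact (hw (j + 1)).1 h
      · exact hj j (Nat.lt_succ_self j) h
    have h2 : (trO w m M).P (.inl ((ldC t).Bc j ((ldC t).m j))) =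
        M.P (.inl ((ldC t).Bc j ((ldC t).m j))) :=
      trO_P w m M (l := .inl ((ldC t).Bc j ((ldC t).m j)))
        (tr2_chN (hw (j + 1)).1 (hj j (Nat.lt_succ_self j)) _)
    have ih' := fun x y => ih (fun i hi => hj i (hi.trans (Nat.lt_succ_self j))) x y
    constructor
    · rintro ⟨x', x₁, ha, hb, hG, h⟩
      rw [h1] at ha
      rw [h2] at hb
      exact ⟨x', x₁, ha, hb, (tr2_Gam m M hw j x' x₁).1 hG, (ih' x₁ y).1 h⟩
    · rintro ⟨x', x₁, ha, hb, hG, h⟩
      rw [← h1] at ha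
      rw [← h2] at hb
      exact ⟨x', x₁, ha, hb, (tr2_Gam m M hw j x' x₁).2 hG, (ih' x₁ y).2 h⟩

omit [Field K] in
open Classical in
private theorem tr2_filter {w : Ty K × ℕ} {a : NodeF (Ty K)} (ha : ¬ nmN w a) :
    List.filter (fun p : (Ty K × ℕ) × ℕ => decide (p.1 ≠ w)) a = a := by
  rw [List.filter_eq_self]
  rintro ⟨w', j⟩ hp
  rw [decide_eq_true_eq]
  rintro rfl
  exact ha ⟨j, hp⟩

open Classical in
/-- An element of `P_a`, `a` without entries of `w`, is in `V_{(a, w)}(M°)`. -/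
private theorem tr2_xi {w : Ty K × ℕ} (m : ℕ) (M : Obj K (CS K).L) {a : NodeF (Ty K)}
    (ha : ¬ nmN w a) {x : M} (hx : x ∈ M.P (.inl a)) :
    x ∈ (trO w m M).P (.inr (.inl (a, w))) := by
  change x ∈ (if ∃ j, m ≤ j ∧ (w, j) ∈ a then (⊥ : Submodule K M)
      else if w = w then M.P (.inl (List.filter (fun p => decide (p.1 ≠ w)) a))
      else M.P (.inr (.inl (List.filter (fun p => decide (p.1 ≠ w)) a, w))))
  rw [if_neg (by rintro ⟨j, -, hj⟩; exact ha ⟨j, hj⟩), if_pos rfl, tr2_filter ha]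
  exact hx

open Classical in
private theorem tr2_bc {w : Ty K × ℕ} (m : ℕ) (M : Obj K (CS K).L) {a : NodeF (Ty K)}
    (ha : ¬ nmN w a) {x : M} (hx : x ∈ M.P (.inl a)) :
    x ∈ (trO w m M).P (.inl (chN a w m)) := by
  cases m with
  | zero =>
    have h1 := trO_P w 0 M (l := .inl a) ha
    change x ∈ (trO w 0 M).P (.inl a)
    rw [h1]
    exact hx
  | succ n =>
    change x ∈ (if ∃ j, n + 1 ≤ j ∧ (w, j) ∈ (w, n) :: a then (⊥ : Submodule K M)
      else M.P (.inl (List.filter (fun p => decide (p.1 ≠ w)) ((w, n) :: a))))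
    rw [if_neg, List.filter_cons_of_neg, tr2_filter ha]
    · exact hx
    · simp
    · rintro ⟨j, hj, hj'⟩
      rcases List.mem_cons.1 hj' with h2 | h2
      · have h3 : j = n := congrArg Prod.snd h2
        omega
      · exact ha ⟨j, h2⟩

open Classical in
private theorem tr2_bot {w : Ty K × ℕ} (m : ℕ) (M : Obj K (CS K).L) {a : NodeF (Ty K)}
    {x : M} (hx : x ∈ (trO w m M).P (.inl (chN a w (m + 1)))) : x = 0 := by
  change x ∈ (if ∃ j, m ≤ j ∧ (w, j) ∈ (w, m) :: a then (⊥ : Submodule K M)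
      else M.P (.inl (List.filter (fun p => decide (p.1 ≠ w)) ((w, m) :: a)))) at hx
  rw [if_pos ⟨m, le_refl m, List.mem_cons_self⟩] at hx
  exact (Submodule.mem_bot K).1 hx

theorem trO_eval {t : Ty K} {T : Set (CS K).Tp} (hT : Dum K ⊆ T)
    (hX : (ldC t).OK T) (i : ℕ) {M : Obj K (CS K).L} (hM : (CS K).FF T M) :
    (∀ x : M, ((ldC t).U 0).S1 (trO (t.nm i) (t.ht i) M) x → ((ldC t).U 0).S1 M x) ∧
    (∀ l, l ≤ i → ∀ x : M, ((ldC t).D l).S1 (trO (t.nm i) (t.ht i) M) x →
      ((ldC t).D l).S1 M x) ∧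
    ∀ x : M, ((ldC t).U (i + 1)).S1 M x →
      ((ldC t).Z (i + 1)).S1 (trO (t.nm i) (t.ht i) M) x := by
  have hw : CleanPos (t.nm i) t := cleanPos_self t i
  refine ⟨fun x hx => ?_, fun l hl x hx => ?_, fun x hx => ?_⟩
  · refine (tr2_S1 (t.ht i) M (w := t.nm i) (F := (ldC t).U 0) ?_ x).1 hx
    intro q hq
    have h1 : q = ((Sum.inl ((ldC t).a 0) : (CS K).L), fun _ : Fin 1 => (1 : K)) :=
      List.mem_singleton.1 hq
    rw [h1]
    exact (hw 0).1
  · rcases Nat.lt_or_ge l i with h | h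
    · refine (tr2_S1 (t.ht i) M (w := t.nm i) (F := (ldC t).D l) ?_ x).1 hx
      exact clean_up hw l (fun j hj => tr2_nm_ne t (hj.trans h).ne)
        (clean_gm hw (tr2_nm_ne t h.ne))
    · obtain rfl : l = i := le_antisymm hl h
      obtain ⟨x₀, h1, h2⟩ := ((ldC t).up_iff l _ (trO (t.nm l) (t.ht l) M) x).1 hx
      obtain ⟨x', -, hb, hG⟩ := ((ldC t).gm_iff l (trO (t.nm l) (t.ht l) M) x₀).1 h1
      have hx' : x' = 0 := tr2_bot (t.ht l) M hb
      have hG' := (tr2_Gam (t.ht l) M hw l x' x₀).1 hG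
      refine ((ldC t).up_iff l _ M x).2 ⟨x₀, ((ldC t).gm_iff l M x₀).2 ⟨x', ?_, ?_, hG'⟩,
        (tr2_upR (t.ht l) M hw l (fun j hj => tr2_nm_ne t hj.ne) x₀ x).1 h2⟩
      · rw [hx']
        exact Submodule.zero_mem _
      · rw [hx']
        exact Submodule.zero_mem _
  · obtain ⟨x₀, h1, x', x₁, ha, hb, hG, h2⟩ := ((ldC t).up_iff (i + 1) _ M x).1 hx
    have h3 : x₀ ∈ M.P (.inl ((ldC t).a (i + 1))) := (labFm_iff _ M x₀).1 h1
    have h4 : x' ∈ M.P (.inl ((ldC t).a (i + 1))) := by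
      have h5 := Submodule.add_mem _ ((ldC t).Delta_le hX hM hb) h3
      rwa [sub_add_cancel] at h5
    refine ((ldC t).up_iff (i + 1) _ (trO (t.nm i) (t.ht i) M) x).2 ⟨(0 : M), (zero_iff _ _).2 rfl, x', x₁, ?_, ?_,
      (tr2_Gam (t.ht i) M hw i x' x₁).2 hG,
      (tr2_upR (t.ht i) M hw i (fun j hj => tr2_nm_ne t hj.ne) x₁ x).2 h2⟩
    · have h6 := tr2_xi (t.ht i) M (hw (i + 1)).1 h4
      have h7 : x' - 0 = x' := sub_zero x'
      exact h7.symm ▸ h6
    · have h6 := tr2_bc (t.ht i) M (hw (i + 1)).1 h4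
      have h7 : x' - 0 = x' := sub_zero x'
      exact h7.symm ▸ h6

end Pool.Agent.Helper13.SDW
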