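import Pool.Agent.Helper13.SDW.At
import Pool.Agent.Helper13.SDW.CxN

/-!
# BLOCK SDW-U0: interface theorems on complexes (about 150 lines)

All proofs are short and use `exists_tfib`, `Nc.approx`, `Att_approx`, `obj_approx`, `Nc.cc`,
`Nc.extend`.

* `CC.cx`: let `p : N = Nc T (Att M) (ℕ → M) → M` be the trivial fibration, `j : M → N` with
  `p (j x) = x` (`Cof`, applied to the identity of `M`); apply `Nc.approx` to the elements `j (y k)`
  and their memberships (`j` is a hom); `x := p ∘ x₁`, `f := (N → D) ∘ j`.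
* `relcx`: `Nc.approx` for `obj_approx`.
* `cofP_cx`: `M := Nc T χ.obj PUnit` belongs to `CC_T`; apply `CC.cx` to
  `y k := (χ.out k)(gen)`, which satisfies the conditions `l k`. For `x ∈ χ.Hom M'` use
  `obj_hom` and `Nc.extend` to get `g : M → M'`, and the image of the tuple `x` of `CC.cx`.
-/

namespace Pool.Agent.Helper13.SDW

universe u

variable {K : Type u} [Field K] {S : Sys K}

theorem U0_hom_map {G : Pre K S.L} {Λ : Set S.L} (hl : ∀ q ∈ G.c, q.1 ∈ Λ) {M N : Obj K S.L}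
    {f : M →ₗ[K] N} (hf : IsHom Λ f) {x : Fin G.n → M} (hx : G.Hom M x) :
    G.Hom N (fun i => f (x i)) := by
  intro q hq
  rw [← map_lin f q.2 x]
  exact hf q.1 (hl q hq) _ (hx q hq)

theorem U0_nil_lab (Λ : Set S.L) : ∀ q ∈ (Pre.nil K S.L).c, q.1 ∈ Λ :=
  fun _ hq => absurd hq List.not_mem_nil

/-- Finitely many elements of a structure in `CC_T` with their memberships come from a complex,
formally. -/
theorem CC.cx {T : Set S.Tp} (hT : S.Closed T) (hr : S.par S.root = S.root) {M : Obj K S.L}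
    (hM : S.CC T M) {κ : Type} [Fintype κ] (l : κ → S.L) (hl : ∀ k, l k ∈ S.lab T)
    (y : κ → M) (hy : ∀ k, y k ∈ M.P (l k)) :
    ∃ (G : Pre K S.L) (e : Fin (Pre.nil K S.L).n → Fin G.n) (t : κ → Fin G.n → K)
      (x : Fin G.n → M), Cx T (Pre.nil K S.L) G e ∧ G.Hom M x ∧ (∀ k, t k ∈ Pf S G (l k)) ∧
      (∀ k, lin (t k) x = y k) ∧
      ∀ D : Obj K S.L, S.FF T D → ∀ x' : Fin G.n → D, G.Hom D x' →
        ∃ f : M →ₗ[K] D, IsHom (S.lab T) f ∧ ∀ k, f (y k) = lin (t k) x' := by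
  obtain ⟨p, hp⟩ := exists_tfib hT hr hM.ff
  have hA : S.NodeOK (Att M) := Att_nodeOK hr M
  have hne : Nonempty (ℕ → M) := ⟨fun _ => 0⟩
  have hN : S.FF T (Nc T (Att M) (ℕ → M)) := Nc.ff hT hr hA (ℕ → M)
  obtain ⟨j, hj, hpj⟩ := hM.cof (Nc T (Att M) (ℕ → M)) M p hN hM.ff hp LinearMap.id
    (fun _ _ _ hx => hx)
  have happ := Nc.approx hT hr hA (I := ℕ → M) (G₀ := Pre.nil K S.L)
    (U0_nil_lab (S.lab T)) (Att_approx T M)
  obtain ⟨G, e, x₁, t, hCx, hx₁, -, ht, hlin, hext⟩ := happ κ l (fun k => j (y k)) hl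
    (fun k => hj (l k) (hl k) _ (hy k))
  have hlab := Cx.lab hT hCx (U0_nil_lab (S.lab T))
  refine ⟨G, e, t, fun i => p (x₁ i), hCx, U0_hom_map hlab hp.hom hx₁, ht, fun k => ?_,
    fun D hD x' hx' => ?_⟩
  · rw [← map_lin p (t k) x₁, hlin k, hpj]
    rfl
  · obtain ⟨f₁, hf₁, hf₁x⟩ := hext D hD x' hx'
    refine ⟨f₁.comp j, fun a ha z hz => hf₁ a ha _ (hj a ha z hz), fun k => ?_⟩
    change f₁ (j (y k)) = _
    rw [← hlin k, map_lin f₁ (t k) x₁]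
    congr 1
    funext i
    exact hf₁x i

/-- The relative version for the closure of a presented structure. -/
theorem relcx {T : Set S.Tp} (hT : S.Closed T) (hr : S.par S.root = S.root) (G₀ : Pre K S.L)
    (hG₀ : ∀ q ∈ G₀.c, q.1 ∈ S.lab T) {κ : Type} [Fintype κ] (l : κ → S.L)
    (hl : ∀ k, l k ∈ S.lab T) (y : κ → Nc T (G₀.obj (S := S)) PUnit)
    (hy : ∀ k, y k ∈ (Nc T (G₀.obj (S := S)) PUnit).P (l k)) :
    ∃ (G : Pre K S.L) (e : Fin G₀.n → Fin G.n) (t : κ → Fin G.n → K)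
      (x : Fin G.n → Nc T (G₀.obj (S := S)) PUnit), Cx T G₀ G e ∧
      G.Hom (Nc T (G₀.obj (S := S)) PUnit) x ∧ (∀ i, x (e i) = (Pre.gen G₀ i, 0)) ∧
      (∀ k, t k ∈ Pf S G (l k)) ∧ (∀ k, lin (t k) x = y k) ∧
      ∀ D : Obj K S.L, S.FF T D → ∀ x' : Fin G.n → D, G.Hom D x' →
        ∃ f : Nc T (G₀.obj (S := S)) PUnit →ₗ[K] D, IsHom (S.lab T) f ∧
          (∀ i, f (x i) = x' i) := by
  obtain ⟨G, e, x, t, hCx, hx, hxe, ht, hlin, hext⟩ :=
    Nc.approx hT hr (obj_nodeOK hr G₀) (I := PUnit) hG₀ (obj_approx T hr G₀) κ l y hl hy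
  exact ⟨G, e, t, x, hCx, hx, hxe, ht, hlin, hext⟩

/-- The generators in the closure of a presented structure. -/
theorem gen_hom_Nc {T : Set S.Tp} (G₀ : Pre K S.L) (I : Type u) :
    G₀.Hom (Nc T (G₀.obj (S := S)) I) (fun i => (Pre.gen G₀ i, 0)) := by
  intro q hq
  have h1 := Nc.inl_hom (T := T) (M₀ := G₀.obj (S := S)) (I := I) Set.univ q.1 trivial _
    (gen_hom G₀ q hq)
  rw [map_lin] at h1
  exact h1

/-- Homs from the closure of a presented structure. -/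
theorem obj_extend {T : Set S.Tp} (G₀ : Pre K S.L) {D : Obj K S.L} (hD : S.FF T D)
    (x : Fin G₀.n → D) (hx : G₀.Hom D x) (I : Type u) :
    ∃ f : Nc T (G₀.obj (S := S)) I →ₗ[K] D, IsHom (S.lab T) f ∧
      ∀ i, f (Pre.gen G₀ i, 0) = x i := by
  obtain ⟨f₀, hf₀, hf₀x⟩ := obj_hom G₀ hD.toNodeOK x hx (S.lab T)
  obtain ⟨f, hf, hfx⟩ := Nc.extend (I := I) hD hf₀
  exact ⟨f, hf, fun i => (hfx _).trans (hf₀x i)⟩

theorem obj_cc {T : Set S.Tp} (hT : S.Closed T) (hr : S.par S.root = S.root) {G : Pre K S.L}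
    (hG : S.CofP T G) (hl : ∀ q ∈ G.c, q.1 ∈ S.lab T) :
    S.CC T (Nc T (G.obj (S := S)) PUnit) := by
  exact Nc.cc hT hr (obj_nodeOK hr G) (obj_cof hG hl) PUnit

/-- A cofibrant formula is given by a complex, with formal memberships. -/
theorem cofP_cx {T : Set S.Tp} (hT : S.Closed T) (hr : S.par S.root = S.root) {κ : Type}
    [Fintype κ] {χ : Fm K S.L κ} (hχ : S.CofP T χ.toPre) (hχl : ∀ q ∈ χ.c, q.1 ∈ S.lab T)
    (l : κ → S.L) (hl : ∀ k, l k ∈ S.lab T)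
    (h : ∀ M, S.CC T M → ∀ y : κ → M, χ.Sat M y → ∀ k, y k ∈ M.P (l k)) :
    ∃ (G : Pre K S.L) (e : Fin (Pre.nil K S.L).n → Fin G.n) (t : κ → Fin G.n → K),
      Cx T (Pre.nil K S.L) G e ∧ (∀ k, t k ∈ Pf S G (l k)) ∧
      ∀ M, S.FF T M → ∀ y : κ → M, χ.Sat M y ↔ ∃ x, G.Hom M x ∧ ∀ k, y k = lin (t k) x := by
  have hcc : S.CC T (Nc T (χ.toPre.obj (S := S)) PUnit) := obj_cc hT hr hχ hχl
  have hgen := gen_hom_Nc (T := T) χ.toPre PUnit
  obtain ⟨G, e, t, x, hCx, hx, ht, hlin, hext⟩ := CC.cx hT hr hcc l hl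
    (fun k => lin (χ.out k) (fun i : Fin χ.n =>
      ((Pre.gen χ.toPre i, 0) : Nc T (χ.toPre.obj (S := S)) PUnit)))
    (h _ hcc _ ⟨_, hgen, fun _ => rfl⟩)
  have hlab := Cx.lab hT hCx (U0_nil_lab (S.lab T))
  refine ⟨G, e, t, hCx, ht, fun M' hM' y' => ⟨?_, ?_⟩⟩
  · rintro ⟨x₀, hx₀, hy'⟩
    obtain ⟨g, hg, hgx⟩ := obj_extend χ.toPre hM' x₀ hx₀ PUnit
    refine ⟨fun i => g (x i), U0_hom_map hlab hg hx, fun k => ?_⟩
    rw [← map_lin g (t k) x, hlin k, map_lin, hy' k]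
    congr 1
    funext i
    exact (hgx i).symm
  · rintro ⟨x', hx', hy'⟩
    obtain ⟨f, hf, hfy⟩ := hext M' hM' x' hx'
    refine ⟨_, U0_hom_map hχl hf hgen, fun k => ?_⟩
    rw [hy' k, ← hfy k, map_lin]

end Pool.Agent.Helper13.SDW
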