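import Pool.Agent.Helper13.SDW.Cons

/-!
# BLOCK SDW-WD1: intersections and strictness for sums of node predicates (about 200 lines)

`CFm F = ∑_{a ∈ F} P_a` for a list `F` of nodes.
* `node_inter`: let `N ∈ CC_∅`, `y` in both sums, `y = ∑ x_a + x₁ = ∑ x'_a + x₂`. Apply `CC.cx` for `T = ∅` to the elements `x_a, x'_a` (`a ∈ F`, e.g. indexed by
  `Fin F.length`), `x₁, x₂` with their nodes: a complex `G` over `∅` from the empty presentation, `z ∈ G.Hom N`, forms in `Pf S G (.inl a)`; every `x' ∈ G.Hom D`, `D ∈ FF_∅`, comes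
  from a hom `N → D`, so the linear relation `∑ x_a + x₁ = ∑ x'_a + x₂` holds for the forms (take `D = G.obj`, `x' = gen`). A complex over `∅` consists of atoms: by induction on
  `Cx`: each variable `i` has a node `n i`, `z i ∈ P_{n i}`, and a form in `Pf S G (.inl a)` has zero coefficient at `i` unless `Le (n i) a` or `a = root` (then also `Le (n i) a` by `hle`).
  Let `v` be the form of `y`. If `v i ≠ 0` then there is `a ∈ F` with `Le (n i) a`: otherwise `v i` is the coefficient of `x₁` and of `x₂`, so `Le (n i) l₁` and `Le (n i) l₂`,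
  against `hd`. So `y = ∑ v i • z i ∈ ∑_{a ∈ F} P_a(N)`.
* `node_strict`: `N = Nc T (Pre.one K (.inl m)).obj PUnit ∈ CC_T` (`obj_cc`), `c` = generator. Let `D₀` be the structure `K` with `P (.inl a) = ⊤` if `Le m a` or `a = root`, `⊥` otherwise,
  `P (.inr τ) = ⊤`: it is in `FF_T` (`x = x + 0`). There is a hom `N → D₀` with `c ↦ 1` (`obj_extend`); `1 ∉ ∑_{a ∈ F} P_a(D₀) = 0`.
-/

namespace Pool.Agent.Helper13.SDW

universe u

variable {K : Type u} [Field K]

/-- The sum of the node predicates of a list. -/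
def CFm (S : Sys K) : List S.Nd → SF1 K S.L
  | [] => fun _ x => x = 0
  | a :: F => fun M x => ∃ y z, y ∈ M.P (.inl a) ∧ CFm S F M z ∧ x = y + z

variable {S : Sys K}

theorem CFm_def (F : List S.Nd) (T : Set S.Tp) : Def1 (S.lab T) (CFm S F) := by
  induction F with
  | nil =>
    refine (IsDef.eq0 (Λ := S.lab T) (κ := Unit) (fun _ => (1 : K))).congr fun M y => ?_
    have h : lin (fun _ : Unit => (1 : K)) y = y () := by simp [lin]
    rw [h]
    rfl
  | cons a F ih =>
    have hl : (Sum.inl a : S.L) ∈ S.lab T := by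
      intro τ hτ
      exact absurd hτ (by simp)
    have h1 : IsDef (S.lab T) (fun (M : Obj K S.L) (w : Unit ⊕ Fin 2 → M) =>
        w (.inr 0) ∈ M.P (.inl a)) := by
      refine (IsDef.lab hl (fone (K := K) (Sum.inr 0 : Unit ⊕ Fin 2))).congr fun M w => ?_
      rw [lin_fone]
    have h2 : IsDef (S.lab T) (fun (M : Obj K S.L) (w : Unit ⊕ Fin 2 → M) =>
        CFm S F M (w (.inr 1))) := by
      refine (IsDef.subst (κ := Unit ⊕ Fin 2) ih
        (fun _ => fone (K := K) (Sum.inr 1 : Unit ⊕ Fin 2))).congr fun M w => ?_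
      rw [lin_fone]
    have h3 : IsDef (S.lab T) (fun (M : Obj K S.L) (w : Unit ⊕ Fin 2 → M) =>
        w (.inl ()) = w (.inr 0) + w (.inr 1)) := by
      refine (IsDef.eq0 (Λ := S.lab T) (κ := Unit ⊕ Fin 2)
        (Sum.elim (fun _ => (1 : K)) (fun _ => -1))).congr fun M w => ?_
      rw [← sub_eq_zero (a := w (.inl ()))]
      have h : lin (Sum.elim (fun _ => (1 : K)) (fun _ => -1)) w =
          w (.inl ()) - (w (.inr 0) + w (.inr 1)) := by
        simp [lin, Fin.sum_univ_two]
        abel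
      rw [h]
    refine (IsDef.ex' (κ := Unit) (κ' := Fin 2) (fun (M : Obj K S.L) y z =>
      z 0 ∈ M.P (.inl a) ∧ CFm S F M (z 1) ∧ y () = z 0 + z 1) (h1.and (h2.and h3))).congr
      fun M y => ?_
    constructor
    · rintro ⟨z, hz⟩
      exact ⟨z 0, z 1, hz⟩
    · rintro ⟨u, v, h⟩
      exact ⟨![u, v], h⟩

/-- The submodule of `CFm`. -/
def CSub (S : Sys K) (M : Obj K S.L) : List S.Nd → Submodule K M
  | [] => ⊥
  | a :: F => M.P (.inl a) ⊔ CSub S M F

theorem mem_CSub {M : Obj K S.L} (F : List S.Nd) {x : M} : CFm S F M x ↔ x ∈ CSub S M F := by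
  induction F generalizing x with
  | nil => exact (Submodule.mem_bot K).symm
  | cons a F ih =>
    change (∃ y z, y ∈ M.P (.inl a) ∧ CFm S F M z ∧ x = y + z) ↔
      x ∈ M.P (.inl a) ⊔ CSub S M F
    rw [Submodule.mem_sup]
    constructor
    · rintro ⟨y, z, hy, hz, rfl⟩
      exact ⟨y, hy, z, ih.1 hz, rfl⟩
    · rintro ⟨y, hy, z, hz, rfl⟩
      exact ⟨y, z, hy, ih.2 hz, rfl⟩

theorem le_CSub {M : Obj K S.L} {F : List S.Nd} {a : S.Nd} (ha : a ∈ F) :
    M.P (.inl a) ≤ CSub S M F := by
  induction F with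
  | nil => exact absurd ha List.not_mem_nil
  | cons b F ih =>
    rcases List.mem_cons.1 ha with rfl | ha
    · exact le_sup_left
    · exact (ih ha).trans le_sup_right

theorem CSub_le {M : Obj K S.L} {F : List S.Nd} {W : Submodule K M}
    (h : ∀ a ∈ F, M.P (.inl a) ≤ W) : CSub S M F ≤ W := by
  induction F with
  | nil => exact bot_le
  | cons b F ih =>
    exact sup_le (h b List.mem_cons_self) (ih fun a ha => h a (List.mem_cons_of_mem _ ha))

theorem CFm_mono {F F' : List S.Nd} {M : Obj K S.L} (hM : S.NodeOK M)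
    (h : ∀ a ∈ F, ∃ b ∈ F', S.Le a b) {x : M} (hx : CFm S F M x) : CFm S F' M x := by
  rw [mem_CSub] at hx ⊢
  refine CSub_le (fun a ha => ?_) hx
  obtain ⟨b, hb, hab⟩ := h a ha
  exact (hM.le hab).trans (le_CSub hb)

/-- The elements of the sum as finite sums. -/
private theorem CFm_sum {M : Obj K S.L} (F : List S.Nd) {x : M} (hx : CFm S F M x) :
    ∃ z : Fin F.length → M, (∀ i, z i ∈ M.P (.inl (F.get i))) ∧ x = ∑ i, z i := by
  induction F generalizing x with
  | nil => exact ⟨Fin.elim0, fun i => i.elim0, by rw [show x = 0 from hx]; rfl⟩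
  | cons a F ih =>
    obtain ⟨y, z, hy, hz, rfl⟩ := hx
    obtain ⟨w, hw, rfl⟩ := ih hz
    refine ⟨Fin.cons y w, fun i => ?_, ?_⟩
    · refine Fin.cases ?_ (fun j => ?_) i
      · exact hy
      · exact hw j
    · change _ = ∑ i : Fin (F.length + 1), (Fin.cons y w : Fin (F.length + 1) → M) i
      rw [Fin.sum_univ_succ]
      simp

/-- A complex over no types consists of atoms. -/
private theorem Cx_atoms {G : Pre K S.L} {e : Fin (Pre.nil K S.L).n → Fin G.n}
    (h : Cx ∅ (Pre.nil K S.L) G e) :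
    ∃ n : Fin G.n → S.Nd, (∀ q ∈ G.c, ∃ i, q.1 = .inl (n i) ∧ q.2 = Pi.single i 1) ∧
      ∀ i, (((.inl (n i) : S.L), (Pi.single i 1 : Fin G.n → K)) : S.L × (Fin G.n → K)) ∈ G.c := by
  induction h with
  | base => exact ⟨Fin.elim0, fun q hq => absurd hq List.not_mem_nil, fun i => i.elim0⟩
  | @atom G e a _ ih =>
    obtain ⟨n, h1, h2⟩ := ih
    have e1 : ∀ i : Fin G.n, (Fin.append (Pi.single i 1) (fun _ : Fin 1 => 0) : Fin (G.n + 1) → K) =
        Pi.single (Fin.castAdd 1 i) 1 := by
      intro i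
      funext j
      refine Fin.addCases (fun j => ?_) (fun j => ?_) j
      · rw [Fin.append_left]
        by_cases hij : j = i
        · subst hij
          simp
        · rw [Pi.single_eq_of_ne hij, Pi.single_eq_of_ne]
          intro hc
          exact hij (Fin.castAdd_injective _ _ hc)
      · rw [Fin.append_right, Pi.single_eq_of_ne]
        intro hc
        have := congrArg Fin.val hc
        simp at this
        omega
    have e2 : (Fin.append (fun _ : Fin G.n => 0) (fun _ : Fin 1 => 1) : Fin (G.n + 1) → K) =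
        Pi.single (Fin.natAdd G.n 0) 1 := by
      funext j
      refine Fin.addCases (fun j => ?_) (fun j => ?_) j
      · rw [Fin.append_left, Pi.single_eq_of_ne]
        intro hc
        have := congrArg Fin.val hc
        simp at this
        omega
      · rw [Fin.append_right, Subsingleton.elim j 0]
        simp
    refine ⟨Fin.append n (fun _ => a), fun q hq => ?_, fun i => ?_⟩
    · rcases Pre.mem_sum_c.1 hq with ⟨p, hp, rfl⟩ | ⟨p, hp, rfl⟩
      · obtain ⟨i, hi1, hi2⟩ := h1 p hp
        refine ⟨Fin.castAdd 1 i, ?_, ?_⟩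
        · rw [Fin.append_left]
          exact hi1
        · change Fin.append p.2 (fun _ : Fin 1 => (0 : K)) = _
          rw [hi2]
          exact e1 i
      · rw [List.mem_singleton] at hp
        subst hp
        refine ⟨Fin.natAdd G.n 0, ?_, ?_⟩
        · rw [Fin.append_right]
        · exact e2
    · refine Fin.addCases (fun i => ?_) (fun i => ?_) i
      · rw [Fin.append_left]
        refine Pre.mem_sum_c.2 (Or.inl ⟨_, h2 i, ?_⟩)
        rw [← e1 i]
      · rw [Fin.append_right]
        refine Pre.mem_sum_c.2 (Or.inr ⟨_, List.mem_singleton_self _, ?_⟩)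
        rw [e2, Subsingleton.elim i 0]
  | cell τ r d _ hτ _ _ => exact absurd hτ (Set.notMem_empty τ)

/-- The coefficients of the forms of a node. -/
private theorem Pf_coef (hle : ∀ a, S.Le a S.root) {G : Pre K S.L} {n : Fin G.n → S.Nd}
    (hn : ∀ q ∈ G.c, ∃ i, q.1 = .inl (n i) ∧ q.2 = Pi.single i 1) {a : S.Nd}
    {v : Fin G.n → K} (hv : v ∈ Pf S G (.inl a)) (i : Fin G.n) (hi : ¬ S.Le (n i) a) :
    v i = 0 := by
  have hPf : Pf S G (.inl a) ≤
      LinearMap.ker (LinearMap.proj (R := K) (φ := fun _ : Fin G.n => K) i) := by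
    refine sup_le (Submodule.span_le.mpr ?_) (iSup_le ?_)
    · rintro w ⟨q, hq, rfl, hql⟩
      obtain ⟨j, hj1, hj2⟩ := hn q hq
      change q.2 i = 0
      rw [hj2]
      refine Pi.single_eq_of_ne ?_ _
      rintro rfl
      rcases hql with h | ⟨a', b, ha', hb, hab⟩
      · rw [h] at hj1
        have h2 : a = n i := Sum.inl.inj hj1
        exact hi ⟨0, h2.symm⟩
      · rw [ha'] at hj1
        have h2 : a' = n i := Sum.inl.inj hj1
        have h3 : a = b := Sum.inl.inj hb
        subst h2 h3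
        exact hi hab
    · intro h
      have h2 : a = S.root := Sum.inl.inj h
      subst h2
      exact absurd (hle _) hi
  exact hPf hv

theorem node_inter (hr : S.par S.root = S.root) (hle : ∀ a, S.Le a S.root)
    (F : List S.Nd) {l₁ l₂ : S.Nd} (hd : ∀ a, ¬ (S.Le a l₁ ∧ S.Le a l₂)) {N : Obj K S.L}
    (hN : S.CC ∅ N) {y : N} (h1 : CFm S (l₁ :: F) N y) (h2 : CFm S (l₂ :: F) N y) :
    CFm S F N y := by
  have key : ∀ (l : S.Nd), CFm S (l :: F) N y → ∃ z : Option (Fin F.length) → N,
      z none ∈ N.P (.inl l) ∧ (∀ i, z (some i) ∈ N.P (.inl (F.get i))) ∧ y = ∑ o, z o := by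
    rintro l ⟨u, w, hu, hw, rfl⟩
    obtain ⟨z, hz, rfl⟩ := CFm_sum F hw
    refine ⟨fun o => o.elim u z, hu, hz, ?_⟩
    rw [Fintype.sum_option]
    rfl
  obtain ⟨z₁, hz₁, hz₁', hy₁⟩ := key l₁ h1
  obtain ⟨z₂, hz₂, hz₂', hy₂⟩ := key l₂ h2
  have hT : S.Closed ∅ := fun τ hτ => absurd hτ (Set.notMem_empty τ)
  obtain ⟨G, e, t, x, hCx, hx, ht, hlin, hext⟩ := CC.cx hT hr hN
    (κ := Option (Fin F.length) ⊕ Option (Fin F.length))
    (Sum.elim (fun o => o.elim (.inl l₁) (fun i => .inl (F.get i)))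
      (fun o => o.elim (.inl l₂) (fun i => .inl (F.get i))))
    (by
      rintro ((_ | i) | (_ | i)) τ hτ <;> exact absurd hτ (by simp))
    (Sum.elim z₁ z₂)
    (by
      rintro ((_ | i) | (_ | i))
      · exact hz₁
      · exact hz₁' i
      · exact hz₂
      · exact hz₂' i)
  obtain ⟨n, hn1, hn2⟩ := Cx_atoms hCx
  obtain ⟨f, -, hf⟩ := hext (G.obj (S := S))
    ⟨obj_nodeOK hr G, fun τ hτ => absurd hτ (Set.notMem_empty τ)⟩ (Pre.gen G) (gen_hom G)
  have hf1 : ∀ o, f (z₁ o) = t (.inl o) := fun o => (hf (.inl o)).trans (lin_gen G _)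
  have hf2 : ∀ o, f (z₂ o) = t (.inr o) := fun o => (hf (.inr o)).trans (lin_gen G _)
  have hv1 : f y = ∑ o, t (.inl o) := by
    rw [hy₁, map_sum]
    exact Finset.sum_congr rfl fun o _ => hf1 o
  have hv2 : f y = ∑ o, t (.inr o) := by
    rw [hy₂, map_sum]
    exact Finset.sum_congr rfl fun o _ => hf2 o
  have hc1 : ∀ i, (∑ o, t (.inl o)) i = t (.inl none) i + ∑ j, t (.inl (some j)) i := by
    intro i
    rw [Finset.sum_apply, Fintype.sum_option]
  have hc2 : ∀ i, (∑ o, t (.inl o)) i = t (.inr none) i + ∑ j, t (.inr (some j)) i := by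
    intro i
    have h3 : (∑ o, t (.inl o)) = ∑ o, t (.inr o) := hv1.symm.trans hv2
    rw [h3, Finset.sum_apply, Fintype.sum_option]
  have hlin' : lin (∑ o, t (.inl o)) x = y := by
    have h4 : lin (∑ o, t (.inl o)) x = ∑ o, lin (t (.inl o)) x := by
      simp only [lin, Finset.sum_apply, Finset.sum_smul]
      rw [Finset.sum_comm]
    rw [h4, hy₁]
    exact Finset.sum_congr rfl fun o _ => hlin (.inl o)
  rw [mem_CSub, ← hlin']
  refine Submodule.sum_mem _ fun i _ => ?_
  by_cases hi : (∑ o, t (.inl o)) i = 0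
  · rw [hi, zero_smul]
    exact Submodule.zero_mem _
  · refine Submodule.smul_mem _ _ ?_
    have hxi : x i ∈ N.P (.inl (n i)) := by
      have h5 := hx _ (hn2 i)
      have h6 : lin (Pi.single i 1 : Fin G.n → K) x = x i := by
        simp [lin, Pi.single_apply]
      rw [← h6]
      exact h5
    have hex : ∃ a ∈ F, S.Le (n i) a := by
      by_contra hno
      have hno' : ∀ a ∈ F, ¬ S.Le (n i) a := fun a ha hc => hno ⟨a, ha, hc⟩
      refine hd (n i) ⟨?_, ?_⟩
      · by_contra hc
        apply hi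
        rw [hc1 i, Pf_coef hle hn1 (ht (.inl none)) i hc, zero_add]
        exact Finset.sum_eq_zero fun j _ =>
          Pf_coef hle hn1 (ht (.inl (some j))) i (hno' _ (List.get_mem F j))
      · by_contra hc
        apply hi
        rw [hc2 i, Pf_coef hle hn1 (ht (.inr none)) i hc, zero_add]
        exact Finset.sum_eq_zero fun j _ =>
          Pf_coef hle hn1 (ht (.inr (some j))) i (hno' _ (List.get_mem F j))
    obtain ⟨a, ha, hna⟩ := hex
    exact le_CSub ha (hN.ff.toNodeOK.le hna hxi)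

theorem node_strict (hr : S.par S.root = S.root) {T : Set S.Tp} (hT : S.Closed T)
    (F : List S.Nd) {m : S.Nd} (hm : ∀ a ∈ F, ¬ S.Le m a) (hroot : S.root ∉ F) :
    ∃ N : Obj K S.L, S.CC T N ∧ ∃ c ∈ N.P (.inl m), ¬ CFm S F N c := by
  classical
  have hlab : ∀ q ∈ (Pre.one K (.inl m : S.L)).c, q.1 ∈ S.lab T := by
    intro q hq τ hτ
    rw [List.mem_singleton.1 hq] at hτ
    exact absurd hτ (by simp)
  have hcc := obj_cc (S := S) hT hr (cofP_one m) hlab
  refine ⟨_, hcc, (Pre.gen (Pre.one K (.inl m : S.L)) (0 : Fin 1), 0), ?_, ?_⟩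
  · have h1 := gen_hom_Nc (T := T) (S := S) (Pre.one K (.inl m : S.L)) PUnit
    exact (Pre.one_hom _ _ _).1 h1
  · intro hc
    let D : Obj K S.L :=
      { carrier := K
        P := fun l => match l with
          | .inl a => if S.Le m a ∨ a = S.root then ⊤ else ⊥
          | .inr _ => ⊤ }
    have hDl : ∀ a, D.P (.inl a) = if S.Le m a ∨ a = S.root then ⊤ else ⊥ := fun _ => rfl
    have hDr : ∀ τ, D.P (.inr τ) = ⊤ := fun _ => rfl
    have hD : S.FF T D := by
      refine ⟨⟨?_, fun a => ?_⟩, fun τ _ r x _ => ?_⟩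
      · rw [hDl, if_pos (Or.inr rfl)]
      · rw [hDl, hDl]
        by_cases h : S.Le m a ∨ a = S.root
        · have h' : S.Le m (S.par a) ∨ S.par a = S.root := by
            rcases h with ⟨k, hk⟩ | h
            · refine Or.inl ⟨k + 1, ?_⟩
              rw [Function.iterate_succ_apply', hk]
            · right
              rw [h, hr]
          rw [if_pos h']
          exact le_top
        · rw [if_neg h]
          exact bot_le
      · refine ⟨x, ?_, 0, ⟨fun _ => 0, fun q _ => ?_, fun _ => ?_⟩, ?_⟩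
        · rw [hDr]
          exact Submodule.mem_top
        · rw [lin_zero]
          exact Submodule.zero_mem _
        · rw [lin_zero]
        · rw [add_zero]
    obtain ⟨f, hf, hfx⟩ := obj_extend (Pre.one K (.inl m : S.L)) hD (fun _ => (1 : K))
      ((Pre.one_hom _ _ _).2 (by
        rw [hDl, if_pos (Or.inl ⟨0, rfl⟩)]
        exact Submodule.mem_top)) PUnit
    have h1 : CFm S F D (f (Pre.gen (Pre.one K (.inl m : S.L)) (0 : Fin 1), 0)) :=
      IsDef.map (CFm_def F T) hf (y := fun _ => _) hc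
    rw [hfx, mem_CSub] at h1
    have h2 : CSub S D F ≤ ⊥ := by
      refine CSub_le fun a ha => ?_
      rw [hDl, if_neg]
      rintro (h | h)
      · exact hm a ha h
      · exact hroot (h ▸ ha)
    have h3 : (1 : K) = 0 := (Submodule.mem_bot K).1 (h2 h1)
    exact one_ne_zero h3

end Pool.Agent.Helper13.SDW
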