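import Pool.Agent.Helper13.SDW.Wd1
import Pool.Agent.Helper13.SDW.Md6
import Pool.Agent.Helper13.SDW.Md7
import Pool.Agent.Helper13.SDW.ConcOK

/-!
# BLOCK SDW-WD2: the wide poset (about 250 lines)

`S = CS K`, `Λ = S.lab (GG K)`, `X = XX Λ (SqC K)`, `cF F` the condition `gr (a) x = 0` for all nodes `a` in the list `F`.
* `cF_sat`: `(cF F).Sat x` iff `BM.mk (x 0) ∈ P_a` for all `a ∈ F` (`gr l • e x = gr l • x`) iff `BM.mk (x 0)` kills `CFm F` (`b` kills `P_a(B.dual)` iff `b ∈ P_a(B)`, double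
  annihilator; induction on `F`).
* `cF_le_iff`: `←`: `B = eM` is in `Mod (GG K)` (`mem_XX`, `mod_of_sq`), `B.dual ∈ FF` (`Mod.ff`), `CFm_mono`. `→`: if `a' ∈ F'` is not below a node of `F` (so
  `root ∉ F`, `le_root_cs`): `node_strict` for `T = GG K` gives `N ∈ CC`, `c ∈ P_{a'}(N)` with `c ∉ CFm F`. Choose a functional `b ∈ N.dual` which vanishes on the subspace `CFm F N` with
  `b c ≠ 0`. `B = N.dual`, `B.P l` = annihilator of `N.P l`: `b ∈ B.P (.inl a)` for `a ∈ F`, `b ∉ B.P (.inl a')`. `exists_module` for `B` (`sq_dual`), `x = emb b`.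
* `cF_leSum`: for `M` in the category, `B = eM`, `b = BM.mk (x 0)` kills `CFm F`. In `CC_GG ⊆ CC_∅` (`cc_mono`) `CFm (l₁ :: F) ∩ CFm (l₂ :: F) ≤ CFm F` (`node_inter`), so also in `B.dual` (`Mod.le1`);
  `kills1_and`: `b = b₁ + b₂`, `b_i` kills `CFm (l_i :: F)`. `p = b₁ + (x 0 - e x 0)`, `q = b₂`.
* nodes: `le_length`: `Le a b → b.length ≤ a.length`. `le_cons`: `Le ((w, 0) :: m) b ↔ b = (w, 0) :: m ∨ Le m b`. `not_le_both`: for `w₁ ≠ w₂` no node is below both `(w₁, 0) :: m` and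
  `(w₂, 0) :: m` (`Le a ((w, 0) :: m)` implies `a = l ++ (w, j) :: m`).
* `wide`: comparable elements: `cF [] > cF [root]`. Let `φ = cF F₁`, `ψ = cF F₂`, `ψ < φ`: there is `m ∈ F₂` which is not below a node of `F₁`. Choose `j₁ ≠ j₂` such that
  `l_i = ((Ty.base, j_i), 0) :: m` are not in `F₁` (finite list). `θ_i = cF (l_i :: F₁)`, `θ_{i1} = cF F₁`, `θ_{i2} = cF (l₁ :: l₂ :: F₁)`. All relations by `cF_le_iff`, `le_cons`, `le_length` (`m` is not below `l_i`), and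
  `cF_leSum`, `not_le_both`.
-/

namespace Pool.Agent.Helper13.SDW

open Pool.Agent.H35SD Pool.Agent.Helper56.NB

universe u

variable {K : Type u} [Field K]

/-- The labels of the concrete category. -/
abbrev LamC (K : Type u) [Field K] : Set (CS K).L := (CS K).lab (GG K)

/-- The pairs of pp conditions of the concrete category. -/
abbrev XC (K : Type u) [Field K] :
    Set (Σ m : ℕ, PPN (Rr K (LamC K)) m × PPN (Rr K (LamC K)) m) := XX (LamC K) (SqC K)

/-- The condition `r_a x = 0` for all `a` in the list `F` of nodes. -/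
noncomputable def cF (F : List (CS K).Nd) : PPN (Rr K (LamC K)) 1 where
  m := 0
  e := F.length
  r := fun j _ => gr K (LamC K) (.inl (F.get j))
  s := fun _ => Fin.elim0

private theorem kills_CFm {S : Sys K} (B : Obj K S.L) (F : List S.Nd) (b : B) :
    Kills1 B (CFm S F) b ↔ ∀ a ∈ F, b ∈ B.P (.inl a) := by
  constructor
  · intro h a ha
    rw [← Subspace.forall_mem_dualAnnihilator_apply_eq_zero_iff]
    intro f hf
    exact h f ((mem_CSub (M := B.dual) F).2 (le_CSub ha hf))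
  · intro h f hf
    have h1 : CSub S B.dual F ≤ LinearMap.ker (Module.Dual.eval K B b) := by
      refine CSub_le fun a ha f hf => ?_
      rw [LinearMap.mem_ker, Module.Dual.eval_apply]
      exact (Submodule.mem_dualAnnihilator f).1 hf b (h a ha)
    have h2 := h1 ((mem_CSub (M := B.dual) F).1 hf)
    rwa [LinearMap.mem_ker, Module.Dual.eval_apply] at h2

private theorem cF_iff {M : Type u} [AddCommGroup M] [Module (Rr K (LamC K)) M]
    (F : List (CS K).Nd) (x : Fin 1 → M) :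
    (cF F).Sat x ↔ ∀ a ∈ F, gr K (LamC K) (.inl a) • x 0 = 0 := by
  constructor
  · rintro ⟨y, h⟩ a ha
    obtain ⟨j, rfl⟩ := List.get_of_mem ha
    have h1 : ∑ i : Fin 1, gr K (LamC K) (.inl (F.get j)) • x i +
        ∑ l : Fin 0, (Fin.elim0 l : Rr K (LamC K)) • y l = 0 := h j
    simpa using h1
  · intro h
    refine ⟨Fin.elim0, fun j => ?_⟩
    change ∑ i : Fin 1, gr K (LamC K) (.inl (F.get j)) • x i +
        ∑ l : Fin 0, (Fin.elim0 l : Rr K (LamC K)) • (Fin.elim0 l : M) = 0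
    have h1 := h _ (List.get_mem F j)
    simpa using h1

theorem cF_sat {M : Type u} [AddCommGroup M] [Module (Rr K (LamC K)) M]
    (hM : Ax K (LamC K) M) (F : List (CS K).Nd) (x : Fin 1 → M) :
    (cF F).Sat x ↔ Kills1 (BM K (LamC K) M) (CFm (CS K) F) (BM.mk hM (x 0)) := by
  rw [kills_CFm, cF_iff]
  refine forall_congr' fun a => imp_congr_right fun _ => ?_
  rw [BM.mem_P, BM.val_mk, hM.re]

private theorem down_GG : (CS K).Down (GG K) Bl (GG K) :=
  ⟨Set.Subset.rfl, fun τ hτ => cs_ok.sub τ hτ⟩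

private theorem mod_mem {M : Type u} [AddCommGroup M] [Module (Rr K (LamC K)) M]
    (hM : Cat.Mem (XC K) M) : Ax K (LamC K) M ∧ (CS K).Mod (GG K) (BM K (LamC K) M) := by
  obtain ⟨h1, h2⟩ := (mem_XX (SqC K)).1 hM
  exact ⟨h1, mod_of_sq h2⟩

theorem cF_le_iff (F F' : List (CS K).Nd) :
    Cat.Le (XC K) (cF F) (cF F') ↔ ∀ a' ∈ F', ∃ a ∈ F, (CS K).Le a' a := by
  constructor
  · intro hle a' ha'
    by_contra hno
    have hm : ∀ a ∈ F, ¬ (CS K).Le a' a := fun a ha hc => hno ⟨a, ha, hc⟩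
    have hroot : (CS K).root ∉ F := fun hc => hm _ hc (le_root_cs a')
    obtain ⟨N, hN, c, hc, hcF⟩ := node_strict (S := CS K) cs_ok.proot
      (cs_ok.closed (down_GG (K := K))) F hm hroot
    rw [mem_CSub, ← Subspace.forall_mem_dualAnnihilator_apply_eq_zero_iff] at hcF
    push_neg at hcF
    obtain ⟨b, hb, hbc⟩ := hcF
    obtain ⟨M, iM, iM', hM, emb, hemb⟩ := exists_module (LamC K) (SqC K)
      (fun q hq => ⟨hq.1, hq.2.1⟩) N.dual (sq_dual hN)
    have hl : ∀ a, (Sum.inl a : (CS K).L) ∈ LamC K := by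
      intro a τ hτ
      exact absurd hτ (by simp)
    have h1 : (cF F).Sat (fun _ : Fin 1 => emb b) := by
      rw [cF_iff]
      intro a ha
      rw [hemb b _ (hl a)]
      change b ∈ (N.P (.inl a)).dualAnnihilator
      exact Submodule.dualAnnihilator_anti (le_CSub ha) hb
    have h2 := (cF_iff _ _).1 (hle M hM _ h1) a' ha'
    rw [hemb b _ (hl a')] at h2
    exact hbc ((Submodule.mem_dualAnnihilator b).1 h2 c hc)
  · intro h M _ _ hM x hx
    obtain ⟨h1, h2⟩ := mod_mem hM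
    have h3 : (CS K).FF (GG K) (BM K (LamC K) M).dual := Mod.ff cs_ok down_GG h2
    rw [cF_sat h1] at hx ⊢
    intro f hf
    exact hx f (CFm_mono h3.toNodeOK h hf)

theorem cF_leSum (F : List (CS K).Nd) {l₁ l₂ : (CS K).Nd}
    (hd : ∀ a, ¬ ((CS K).Le a l₁ ∧ (CS K).Le a l₂)) :
    Cat.LeSum (XC K) (cF F) (cF (l₁ :: F)) (cF (l₂ :: F)) := by
  intro M _ _ hM x hx
  obtain ⟨h1, h2⟩ := mod_mem hM
  rw [cF_sat h1] at hx
  have hdef : ∀ F' : List (CS K).Nd, Def1 ((CS K).lab (GG K)) (CFm (CS K) F') :=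
    fun F' => CFm_def F' (GG K)
  have hempty : (CS K).Down (GG K) Bl ∅ :=
    ⟨Set.empty_subset _, fun τ hτ => absurd hτ (Set.notMem_empty τ)⟩
  have hk : Kills1 (BM K (LamC K) M)
      (fun M y => CFm (CS K) (l₁ :: F) M y ∧ CFm (CS K) (l₂ :: F) M y) (BM.mk h1 (x 0)) := by
    intro f hf
    refine hx f (Mod.le1 h2 (F := fun M y => CFm (CS K) (l₁ :: F) M y ∧ CFm (CS K) (l₂ :: F) M y)
      (IsDef.and (hdef _) (hdef _)) (hdef _) (fun N hN y hy => ?_) hf)
    exact node_inter cs_ok.proot le_root_cs F hd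
      (cs_ok.cc_mono hempty down_GG (Set.empty_subset _) hN) hy.1 hy.2
  obtain ⟨b₁, b₂, hb₁, hb₂, hb⟩ := kills1_and (hdef (l₁ :: F)) (hdef (l₂ :: F)) hk
  have hval : ge K (LamC K) • x 0 = b₁.val + b₂.val := by
    rw [← BM.val_add, ← hb, BM.val_mk]
  refine ⟨fun _ => b₁.val + (x 0 - ge K (LamC K) • x 0), fun _ => b₂.val, ?_, ?_, ?_⟩
  · rw [cF_sat h1]
    have h4 : BM.mk h1 (b₁.val + (x 0 - ge K (LamC K) • x 0)) = b₁ := by
      refine BM.val_inj ?_
      rw [BM.val_mk, smul_add, smul_sub, h1.ee, BM.e_val, sub_self, add_zero]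
    rw [h4]
    exact hb₁
  · rw [cF_sat h1, BM.mk_val]
    exact hb₂
  · funext i
    rw [Pi.add_apply, Subsingleton.elim i 0, hval]
    abel

theorem le_def {a b : NodeF (Ty K)} : (CS K).Le a b ↔ ∃ n : ℕ, (parN K)^[n] a = b := Iff.rfl

theorem parN_length (a : NodeF (Ty K)) : (parN K a).length ≤ a.length := by
  match a with
  | [] => exact le_rfl
  | (_, 0) :: l => exact Nat.le_succ _
  | (_, _ + 1) :: l => exact le_rfl

theorem le_length {a b : NodeF (Ty K)} (h : (CS K).Le a b) : b.length ≤ a.length := by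
  obtain ⟨n, rfl⟩ := le_def.1 h
  clear h
  induction n with
  | zero => exact le_rfl
  | succ n ih =>
    rw [Function.iterate_succ_apply']
    exact (parN_length _).trans ih

theorem le_cons {m b : NodeF (Ty K)} {w : Ty K × ℕ} :
    (CS K).Le (((w, 0) :: m : NodeF (Ty K)) : (CS K).Nd) b ↔ b = (w, 0) :: m ∨ (CS K).Le m b := by
  rw [le_def, le_def]
  constructor
  · rintro ⟨n, hn⟩
    cases n with
    | zero => exact Or.inl hn.symm
    | succ n =>
      rw [Function.iterate_succ_apply] at hn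
      exact Or.inr ⟨n, hn⟩
  · rintro (rfl | ⟨n, hn⟩)
    · exact ⟨0, rfl⟩
    · refine ⟨n + 1, ?_⟩
      rw [Function.iterate_succ_apply]
      exact hn

/-- Descendants of `(w, 0) :: m`. -/
theorem suffix_of_le {m : NodeF (Ty K)} {w : Ty K × ℕ} {a : NodeF (Ty K)}
    (h : (CS K).Le a (((w, 0) :: m : NodeF (Ty K)) : (CS K).Nd)) :
    ∃ (l : NodeF (Ty K)) (j : ℕ), a = l ++ (w, j) :: m := by
  obtain ⟨n, hn⟩ := le_def.1 h
  clear h
  induction n generalizing a with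
  | zero => exact ⟨[], 0, hn⟩
  | succ n ih =>
    rw [Function.iterate_succ_apply] at hn
    obtain ⟨l, j, hl⟩ := ih hn
    match a with
    | [] =>
      have := congrArg List.length hl
      simp [parN] at this
    | (v, 0) :: a' =>
      change a' = _ at hl
      exact ⟨(v, 0) :: l, j, by rw [hl]; rfl⟩
    | (v, i + 1) :: a' =>
      change (v, i) :: a' = _ at hl
      cases l with
      | nil =>
        rw [List.nil_append] at hl
        obtain ⟨h1, h2⟩ := List.cons_eq_cons.1 hl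
        obtain ⟨rfl, rfl⟩ := Prod.mk.inj h1
        exact ⟨[], i + 1, by rw [h2]; rfl⟩
      | cons x l =>
        rw [List.cons_append] at hl
        obtain ⟨h1, h2⟩ := List.cons_eq_cons.1 hl
        exact ⟨(v, i + 1) :: l, j, by rw [h2]; rfl⟩

theorem not_le_both {m : NodeF (Ty K)} {w₁ w₂ : Ty K × ℕ} (h : w₁ ≠ w₂) (a : (CS K).Nd) :
    ¬ ((CS K).Le a (((w₁, 0) :: m : NodeF (Ty K)) : (CS K).Nd) ∧
      (CS K).Le a (((w₂, 0) :: m : NodeF (Ty K)) : (CS K).Nd)) := by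
  rintro ⟨h1, h2⟩
  obtain ⟨l, j, hl⟩ := suffix_of_le h1
  obtain ⟨l', j', hl'⟩ := suffix_of_le h2
  have h3 : l ++ (w₁, j) :: m = l' ++ (w₂, j') :: m := hl.symm.trans hl'
  have h4 := (List.append_inj' h3 (by simp)).2
  obtain ⟨h5, -⟩ := List.cons_eq_cons.1 h4
  exact h (Prod.mk.inj h5).1

theorem self_mem (F : List (CS K).Nd) : ∀ a ∈ F, ∃ b ∈ F, (CS K).Le a b :=
  fun a ha => ⟨a, ha, 0, rfl⟩

/-- A fresh child of `m`. -/
theorem exists_fresh (F : List (CS K).Nd) (m : NodeF (Ty K)) : ∃ j₀ : ℕ, ∀ j, j₀ ≤ j →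
    ((((Ty.base, j), 0) :: m : NodeF (Ty K)) : (CS K).Nd) ∉ F := by
  induction F with
  | nil => exact ⟨0, fun j _ => List.not_mem_nil⟩
  | cons b F ih =>
    obtain ⟨j₀, hj₀⟩ := ih
    by_cases hb : ∃ j : ℕ, (b : NodeF (Ty K)) = ((Ty.base, j), 0) :: m
    · obtain ⟨j₁, hj₁⟩ := hb
      refine ⟨max j₀ (j₁ + 1), fun j hj hmem => ?_⟩
      rcases List.mem_cons.1 hmem with h1 | h1
      · have h2 : (((Ty.base, j), 0) :: m : NodeF (Ty K)) = ((Ty.base, j₁), 0) :: m :=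
          h1.trans hj₁
        obtain ⟨h3, -⟩ := List.cons_eq_cons.1 h2
        have h4 : j = j₁ := by
          have := (Prod.mk.inj h3).1
          exact (Prod.mk.inj this).2
        omega
      · exact hj₀ j (by omega) h1
    · refine ⟨j₀, fun j hj hmem => ?_⟩
      rcases List.mem_cons.1 hmem with h1 | h1
      · exact hb ⟨j, h1.symm⟩
      · exact hj₀ j hj h1

theorem cF_satE {M : Type u} [AddCommGroup M] [Module (Rr K (LamC K)) M]
    (F : List (CS K).Nd) (x : Fin 1 → M) :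
    (cF F).Sat x ↔ ∀ a ∈ F, gr K (LamC K) (.inl a) • x 0 = 0 := by
  constructor
  · rintro ⟨y, hy⟩ a ha
    obtain ⟨j, hj⟩ := List.get_of_mem ha
    have h1 := hy j
    change ∑ i : Fin 1, gr K (LamC K) (.inl (F.get j)) • x i + ∑ l : Fin 0, _ = 0 at h1
    simp only [Finset.univ_unique, Fin.default_eq_zero, Finset.sum_singleton,
      Finset.univ_eq_empty, Finset.sum_empty, add_zero] at h1
    rw [← hj]
    exact h1
  · intro h
    refine ⟨Fin.elim0, fun j => ?_⟩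
    change ∑ i : Fin 1, gr K (LamC K) (.inl (F.get j)) • x i + ∑ l : Fin 0, _ = 0
    simp only [Finset.univ_unique, Fin.default_eq_zero, Finset.sum_singleton,
      Finset.univ_eq_empty, Finset.sum_empty, add_zero]
    exact h _ (List.get_mem F j)

theorem wide : Cat.IsWide (XC K) (Set.range (cF (K := K))) := by
  have lt_iff : ∀ F F' : List (CS K).Nd, Cat.Lt (XC K) (cF F) (cF F') ↔
      (∀ a' ∈ F', ∃ a ∈ F, (CS K).Le a' a) ∧ ∃ a ∈ F, ∀ a' ∈ F', ¬ (CS K).Le a a' := by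
    intro F F'
    unfold Cat.Lt
    rw [cF_le_iff, cF_le_iff]
    push Not
    rfl
  constructor
  · refine ⟨_, ⟨[], rfl⟩, _, ⟨[(CS K).root], rfl⟩, ?_⟩
    rw [lt_iff]
    exact ⟨fun a ha => absurd ha List.not_mem_nil, (CS K).root, List.mem_singleton_self _,
      fun a ha => absurd ha List.not_mem_nil⟩
  · rintro _ ⟨F₁, rfl⟩ _ ⟨F₂, rfl⟩ hlt
    obtain ⟨h12, m, hm, hmF⟩ := (lt_iff F₂ F₁).1 hlt
    obtain ⟨j₀, hj₀⟩ := exists_fresh F₁ m
    have hw : ∀ j, j₀ ≤ j → ∀ a ∈ F₁, ¬ (CS K).Le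
        ((((Ty.base, j), 0) :: m : NodeF (Ty K)) : (CS K).Nd) a := by
      intro j hj a ha hle
      rcases le_cons.1 hle with h1 | h1
      · exact hj₀ j hj (h1 ▸ ha)
      · exact hmF a ha h1
    have hml : ∀ j : ℕ, ¬ (CS K).Le m
        ((((Ty.base, j), 0) :: m : NodeF (Ty K)) : (CS K).Nd) := by
      intro j hle
      exact Nat.not_succ_le_self _ (le_length hle)
    have hlm : ∀ j : ℕ, (CS K).Le ((((Ty.base, j), 0) :: m : NodeF (Ty K)) : (CS K).Nd) m :=
      fun j => le_cons.2 (Or.inr ⟨0, rfl⟩)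
    have hne : ∀ i j : ℕ, i ≠ j → ¬ (CS K).Le
        ((((Ty.base, i), 0) :: m : NodeF (Ty K)) : (CS K).Nd)
        ((((Ty.base, j), 0) :: m : NodeF (Ty K)) : (CS K).Nd) := by
      intro i j hij hle
      have h1 : ((Ty.base, i) : Ty K × ℕ) ≠ (Ty.base, j) := fun h => hij (Prod.mk.inj h).2
      exact not_le_both h1 _ ⟨⟨0, rfl⟩, hle⟩
    set l₁ : (CS K).Nd := ((((Ty.base, j₀), 0) :: m : NodeF (Ty K)) : (CS K).Nd) with hl₁
    set l₂ : (CS K).Nd := ((((Ty.base, j₀ + 1), 0) :: m : NodeF (Ty K)) : (CS K).Nd) with hl₂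
    have n12 : ¬ (CS K).Le l₁ l₂ := hne _ _ (by omega)
    have n21 : ¬ (CS K).Le l₂ l₁ := hne _ _ (by omega)
    have w1 : ∀ a ∈ F₁, ¬ (CS K).Le l₁ a := hw j₀ le_rfl
    have w2 : ∀ a ∈ F₁, ¬ (CS K).Le l₂ a := hw (j₀ + 1) (by omega)
    have refl : ∀ a, (CS K).Le a a := fun a => ⟨0, rfl⟩
    have mem1 : ∀ (l : (CS K).Nd) (F : List (CS K).Nd), l ∈ l :: F := fun l F =>
      List.mem_cons_self
    have htail : ∀ (l : (CS K).Nd), ∀ a' ∈ F₁, ∃ a ∈ l :: F₁, (CS K).Le a' a :=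
      fun l a' ha' => ⟨a', List.mem_cons_of_mem _ ha', refl a'⟩
    have hdis : ∀ a, ¬ ((CS K).Le a l₁ ∧ (CS K).Le a l₂) := not_le_both
      (fun h => by have := (Prod.mk.inj h).2; omega)
    have hdis' : ∀ a, ¬ ((CS K).Le a l₂ ∧ (CS K).Le a l₁) := fun a h => hdis a ⟨h.2, h.1⟩
    have swap : Cat.LeSum (XC K) (cF F₁) (cF (l₁ :: F₁)) (cF (l₂ :: F₁)) := cF_leSum F₁ hdis
    refine ⟨_, ⟨l₁ :: F₁, rfl⟩, _, ⟨l₂ :: F₁, rfl⟩, _, ⟨F₁, rfl⟩, _, ⟨l₁ :: l₂ :: F₁, rfl⟩, _,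
      ⟨F₁, rfl⟩, _, ⟨l₁ :: l₂ :: F₁, rfl⟩, ⟨?_, ?_⟩, ⟨?_, ?_⟩, ⟨?_, ?_⟩,
      ⟨swap, ?_, ?_, ?_⟩, ⟨swap, ?_, ?_, ?_⟩⟩
    · rw [cF_le_iff]
      intro h
      obtain ⟨a, ha, hle⟩ := h l₂ (mem1 _ _)
      rcases List.mem_cons.1 ha with rfl | ha
      · exact n21 hle
      · exact w2 a ha hle
    · rw [cF_le_iff]
      intro h
      obtain ⟨a, ha, hle⟩ := h l₁ (mem1 _ _)
      rcases List.mem_cons.1 ha with rfl | ha
      · exact n12 hle
      · exact w1 a ha hle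
    · rw [lt_iff]
      refine ⟨fun a' ha' => ?_, m, hm, fun a' ha' => ?_⟩
      · rcases List.mem_cons.1 ha' with rfl | ha'
        · exact ⟨m, hm, hlm _⟩
        · exact h12 a' ha'
      · rcases List.mem_cons.1 ha' with rfl | ha'
        · exact hml _
        · exact hmF a' ha'
    · rw [lt_iff]
      exact ⟨htail l₁, l₁, mem1 _ _, w1⟩
    · rw [lt_iff]
      refine ⟨fun a' ha' => ?_, m, hm, fun a' ha' => ?_⟩
      · rcases List.mem_cons.1 ha' with rfl | ha'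
        · exact ⟨m, hm, hlm _⟩
        · exact h12 a' ha'
      · rcases List.mem_cons.1 ha' with rfl | ha'
        · exact hml _
        · exact hmF a' ha'
    · rw [lt_iff]
      exact ⟨htail l₂, l₂, mem1 _ _, w2⟩
    · rw [lt_iff]
      exact ⟨htail l₁, l₁, mem1 _ _, w1⟩
    · rw [lt_iff]
      refine ⟨fun a' ha' => ?_, l₂, List.mem_cons_of_mem _ (mem1 _ _), fun a' ha' => ?_⟩
      · rcases List.mem_cons.1 ha' with rfl | ha'
        · exact ⟨l₁, mem1 _ _, refl _⟩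
        · exact ⟨a', List.mem_cons_of_mem _ (List.mem_cons_of_mem _ ha'), refl _⟩
      · rcases List.mem_cons.1 ha' with rfl | ha'
        · exact n21
        · exact w2 a' ha'
    · intro M _ _ _ x hx1 hx2
      rw [cF_satE] at hx1 hx2 ⊢
      intro a ha
      rcases List.mem_cons.1 ha with rfl | ha
      · exact hx1 _ (mem1 _ _)
      · exact hx2 a ha
    · rw [lt_iff]
      exact ⟨htail l₂, l₂, mem1 _ _, w2⟩
    · rw [lt_iff]
      refine ⟨fun a' ha' => ?_, l₁, mem1 _ _, fun a' ha' => ?_⟩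
      · exact ⟨a', List.mem_cons_of_mem _ ha', refl _⟩
      · rcases List.mem_cons.1 ha' with rfl | ha'
        · exact n12
        · exact w1 a' ha'
    · intro M _ _ _ x hx1 hx2
      rw [cF_satE] at hx1 hx2 ⊢
      intro a ha
      rcases List.mem_cons.1 ha with rfl | ha
      · exact hx1 _ (mem1 _ _)
      · exact hx2 a ha

end Pool.Agent.Helper13.SDW
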